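import Mathlib

/-! Real integrals for the Abel inversion. -/

open Set Filter Topology MeasureTheory

noncomputable section

namespace Bon3.Ab

theorem ioo {E : Type} [NormedAddCommGroup E] [NormedSpace ℝ E] {f : ℝ → E} {a b : ℝ} (h : a ≤ b) :
    ∫ x in a..b, f x = ∫ x in Ioo a b, f x := by
  rw [intervalIntegral.integral_of_le h, integral_Ioc_eq_integral_Ioo]

theorem ftc {F f : ℝ → ℝ} {a b : ℝ} (h : a ≤ b) (c : Continuous F)
    (d : ∀ x ∈ Ioo a b, HasDerivAt F (f x) x) (p : ∀ x, 0 ≤ f x) :
    IntegrableOn f (Ioo a b) ∧ ∫ x in Ioo a b, f x = F b - F a := by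
  have i : IntervalIntegrable f volume a b := intervalIntegral.intervalIntegrable_deriv_of_nonneg
    c.continuousOn (by rwa [min_eq_left h, max_eq_right h]) fun x _ => p x
  exact ⟨(intervalIntegrable_iff_integrableOn_Ioo_of_le h).1 i, by
    rw [← ioo h, intervalIntegral.integral_eq_sub_of_hasDerivAt_of_le h c.continuousOn d i]⟩

theorem isqI {b x : ℝ} (h : b ≤ x) : IntegrableOn (fun a => 1 / √(x - a)) (Ioo b x) ∧
    ∫ a in Ioo b x, 1 / √(x - a) = 2 * √(x - b) := by
  have := ftc (F := fun a => -2 * √(x - a)) (f := fun a => 1 / √(x - a)) h (by fun_prop)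
    (fun a ha => by
      have p : 0 < x - a := sub_pos.2 ha.2
      have q := Real.sqrt_pos.2 p
      refine ((((hasDerivAt_id' a).const_sub x).sqrt p.ne').const_mul (-2)).congr_deriv ?_
      field_simp) fun _ => by positivity
  simpa using this

theorem arcI {t : ℝ} (h : t < 1) : ∫ s in Ioo t 1, 1 / (√(s - t) * √(1 - s)) = Real.pi := by
  have k : 0 < 1 - t := sub_pos.2 h
  have := ftc (F := fun s => Real.arcsin ((2 * s - t - 1) / (1 - t)))
    (f := fun s => 1 / (√(s - t) * √(1 - s))) h.le (by fun_prop) (fun s hs => by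
      have p : 0 < s - t := sub_pos.2 hs.1
      have q : 0 < 1 - s := sub_pos.2 hs.2
      have p' := Real.sqrt_pos.2 p
      have q' := Real.sqrt_pos.2 q
      have d : HasDerivAt (fun s : ℝ => (2 * s - t - 1) / (1 - t)) (2 / (1 - t)) s := by
        simpa using ((((hasDerivAt_id s).const_mul 2).sub_const t).sub_const 1).div_const (1 - t)
      have e : √(1 - ((2 * s - t - 1) / (1 - t)) ^ 2) = 2 * (√(s - t) * √(1 - s)) / (1 - t) := by
        rw [Real.sqrt_eq_iff_mul_self_eq_of_pos (by positivity)]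
        have a := Real.mul_self_sqrt p.le
        have b := Real.mul_self_sqrt q.le
        field_simp
        rw [Real.sq_sqrt p.le, Real.sq_sqrt q.le]
        ring
      refine ((Real.hasDerivAt_arcsin (x := (2 * s - t - 1) / (1 - t)) (ne_of_gt ?_)
        (ne_of_lt ?_)).comp s d).congr_deriv ?_
      · rw [lt_div_iff₀ k]
        linarith
      · rw [div_lt_iff₀ k]
        linarith
      · rw [e]
        field_simp) fun _ => by positivity
  rw [this.2, show (2 * 1 - t - 1) / (1 - t) = 1 by field_simp; ring,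
    show (2 * t - t - 1) / (1 - t) = -1 by field_simp; ring, Real.arcsin_one, Real.arcsin_neg_one]
  ring

/-- affine substitution -/
theorem sub (f : ℝ → ℂ) {b x : ℝ} (h : b ≤ x) :
    ∫ a in Ioo b x, f a = (x - b) • ∫ r in Ioo (0 : ℝ) 1, f (b + (x - b) * r) := by
  rw [← ioo h, ← ioo zero_le_one, intervalIntegral.smul_integral_comp_add_mul]
  simp

/-- a dominated measurable function is integrable -/
theorem dom {α : Type} [MeasurableSpace α] {μ : Measure α} {f : α → ℂ} {g w : α → ℝ} {K : ℝ}
    (mw : AEStronglyMeasurable w μ) (mf : AEStronglyMeasurable f μ) (ig : Integrable g μ)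
    (hw : ∀ᵐ a ∂μ, |w a| ≤ g a ∧ ‖f a‖ ≤ K) : Integrable (fun a => w a • f a) μ :=
  (ig.mul_const K).mono' (mw.smul mf) (hw.mono fun a h => by
    rw [norm_smul]
    exact mul_le_mul h.1 h.2 (norm_nonneg _) ((abs_nonneg _).trans h.1))

/-- Fubini on a triangle -/
theorem tri {G : ℝ × ℝ → ℂ} {B : ℝ → ℝ} {l u : ℝ} (mG : Measurable G)
    (h1 : ∀ p ∈ Ioo l u, IntegrableOn (fun q => G (p, q)) (Ioo l p))
    (h2 : ∀ p ∈ Ioo l u, ∫ q in Ioo l p, ‖G (p, q)‖ ≤ B p) (hB : IntegrableOn B (Ioo l u)) :
    ∫ p in Ioo l u, ∫ q in Ioo l p, G (p, q) = ∫ q in Ioo l u, ∫ p in Ioo q u, G (p, q) := by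
  have mT : MeasurableSet {r : ℝ × ℝ | r.2 < r.1} := measurableSet_lt measurable_snd measurable_fst
  set F := indicator {r : ℝ × ℝ | r.2 < r.1} G
  have mF : AEStronglyMeasurable F ((volume.restrict (Ioo l u)).prod (volume.restrict (Ioo l u))) :=
    (mG.indicator mT).aestronglyMeasurable
  have e1 : ∀ p, (fun q => F (p, q)) = indicator (Iio p) fun q => G (p, q) := fun p => rfl
  have e2 : ∀ q, (fun p => F (p, q)) = indicator (Ioi q) fun p => G (p, q) := fun p => rfl
  have r1 : ∀ p ∈ Ioo l u, (volume.restrict (Ioo l u)).restrict (Iio p) =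
      volume.restrict (Ioo l p) := fun p hp => by
    rw [Measure.restrict_restrict measurableSet_Iio, inter_comm, Ioo_inter_Iio, min_eq_right hp.2.le]
  have r2 : ∀ q ∈ Ioo l u, (volume.restrict (Ioo l u)).restrict (Ioi q) =
      volume.restrict (Ioo q u) := fun q hq => by
    rw [Measure.restrict_restrict measurableSet_Ioi, inter_comm, Ioo_inter_Ioi, max_eq_right hq.1.le]
  have iF : Integrable F ((volume.restrict (Ioo l u)).prod (volume.restrict (Ioo l u))) := by
    refine (integrable_prod_iff mF).2 ⟨?_, hB.mono' mF.norm.integral_prod_right' ?_⟩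
    all_goals filter_upwards [ae_restrict_mem measurableSet_Ioo] with p hp
    · rw [e1, integrable_indicator_iff measurableSet_Iio, IntegrableOn, r1 p hp]
      exact h1 p hp
    · rw [Real.norm_of_nonneg (integral_nonneg fun _ => norm_nonneg _)]
      refine le_of_eq_of_le ?_ (h2 p hp)
      rw [← r1 p hp, ← integral_indicator measurableSet_Iio]
      exact congrArg _ (funext fun q => (congrArg norm (congrFun (e1 p) q)).trans
        (norm_indicator_eq_indicator_norm _ _))
  rw [setIntegral_congr_fun (g := fun p => ∫ q in Ioo l u, F (p, q)) measurableSet_Ioo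
    fun p hp => by simp only [e1, integral_indicator measurableSet_Iio, r1 p hp],
    integral_integral_swap (f := fun p q => F (p, q)) iF]
  exact setIntegral_congr_fun measurableSet_Ioo fun q hq => by
    simp only [e2, integral_indicator measurableSet_Ioi, r2 q hq]

/-- the weight -/
def om (s : ℝ) : ℝ := s / √(s * (1 - s))

@[fun_prop] theorem meas_om : Measurable om := by
  unfold om
  fun_prop

theorem om_le {s : ℝ} (h : s ∈ Ioo (0 : ℝ) 1) : |om s| ≤ 1 / √(1 - s) := by
  have p := Real.sqrt_pos.2 h.1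
  have q := Real.sqrt_pos.2 (sub_pos.2 h.2)
  have := Real.mul_self_sqrt h.1.le
  have r : √s ≤ 1 := Real.sqrt_le_one.2 h.2.le
  rw [om, Real.sqrt_mul h.1.le, abs_of_nonneg (by have := h.1; positivity), div_le_div_iff₀
    (by positivity) q]
  nlinarith [mul_le_mul_of_nonneg_left r (mul_pos p q).le]

theorem abs_isq (y : ℝ) : |1 / √y| ≤ 1 / √y := (abs_of_nonneg (by positivity)).le

theorem core {φ : ℝ → ℂ} {K : ℝ} (m : Measurable φ) (b : ∀ t, ‖φ t‖ ≤ K) :
    ∫ r in Ioo (0 : ℝ) 1, (1 / √(1 - r)) • ∫ s in Ioo (0 : ℝ) 1, om s • φ (s * r) =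
      Real.pi • ∫ t in Ioo (0 : ℝ) 1, φ t := by
  have i := (isqI (zero_le_one' ℝ)).1
  have K0 := (norm_nonneg _).trans (b 0)
  simp only [← integral_smul, smul_smul]
  rw [integral_integral_swap (dom (w := fun p : ℝ × ℝ => 1 / √(1 - p.1) * om p.2)
    (f := fun p => φ (p.2 * p.1)) (K := K) (Measurable.aestronglyMeasurable (by fun_prop))
    (Measurable.aestronglyMeasurable (by fun_prop)) (i.mul_prod i) (by
      rw [Measure.prod_restrict]
      filter_upwards [ae_restrict_mem (measurableSet_Ioo.prod measurableSet_Ioo)] with p hp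
      rw [abs_mul]
      exact ⟨mul_le_mul (abs_isq _) (om_le hp.2) (abs_nonneg _) (by positivity), b _⟩)),
    setIntegral_congr_fun (g := fun s => ∫ t in Ioo 0 s, (1 / (√(s - t) * √(1 - s))) • φ t)
      measurableSet_Ioo fun s hs => ?_,
    tri (G := fun p => (1 / (√(p.1 - p.2) * √(1 - p.1))) • φ p.2)
      (B := fun s => 1 / √(1 - s) * (2 * K)) (by fun_prop) (fun s hs => ?_) (fun s hs => ?_)
      (i.mul_const _)]
  · exact setIntegral_congr_fun measurableSet_Ioo fun t ht => by
      simp only [integral_smul_const, arcI ht.2]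
  · exact dom (Measurable.aestronglyMeasurable (by fun_prop)) m.aestronglyMeasurable
      ((isqI hs.1.le).1.mul_const (1 / √(1 - s))) (.of_forall fun t =>
        ⟨by rw [abs_of_nonneg (by positivity), one_div_mul_one_div], b t⟩)
  · have r : √s ≤ 1 := Real.sqrt_le_one.2 hs.2.le
    refine (integral_mono_of_nonneg (.of_forall fun _ => norm_nonneg _)
      ((isqI hs.1.le).1.mul_const (1 / √(1 - s) * K)) (.of_forall fun t => ?_)).trans ?_
    · simp only [norm_smul]
      rw [Real.norm_of_nonneg (by positivity), ← mul_assoc, one_div_mul_one_div]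
      exact mul_le_mul_of_nonneg_left (b t) (by positivity)
    · rw [integral_mul_const, (isqI hs.1.le).2, sub_zero]
      nlinarith [mul_le_mul_of_nonneg_right r (by positivity : 0 ≤ 1 / √(1 - s) * K)]
  · simp only [sub _ hs.1.le, ← integral_smul, smul_smul, sub_zero, zero_add]
    refine setIntegral_congr_fun measurableSet_Ioo fun r hr => congrArg (· • _) ?_
    have p := Real.sqrt_pos.2 hs.1
    have q := Real.sqrt_pos.2 (sub_pos.2 hs.2)
    have q' := Real.sqrt_pos.2 (sub_pos.2 hr.2)
    rw [om, ← mul_one_sub, Real.sqrt_mul hs.1.le, Real.sqrt_mul hs.1.le]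
    field_simp

theorem main {Φ : ℝ × ℝ → ℂ} {K x : ℝ} (m : Measurable Φ) (b : ∀ p, ‖Φ p‖ ≤ K) :
    ∫ a in Ioo 0 x, (1 / √(x - a)) • a • ∫ p in Ioo (0 : ℝ) 1 ×ˢ Ioo (0 : ℝ) 1,
        om p.2 • Φ (p.1 * a, p.1 * a + p.2 * (1 - p.1) * a) =
      Real.pi • ∫ b in Ioo 0 x, (1 / √(x - b)) • ∫ c in Ioo b x, Φ (b, c) := by
  have i := (isqI (zero_le_one' ℝ)).1
  have K0 := (norm_nonneg _).trans (b 0)
  obtain ⟨ψ, hψ⟩ : ∃ ψ : ℝ × ℝ → ℂ,
      ψ = fun r => ∫ s in Ioo (0 : ℝ) 1, om s • Φ (r.2, r.2 + s * (r.1 - r.2)) := ⟨_, rfl⟩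
  have mψ : Measurable ψ := hψ ▸ (Measurable.stronglyMeasurable (f := fun r : (ℝ × ℝ) × ℝ =>
    om r.2 • Φ (r.1.2, r.1.2 + r.2 * (r.1.1 - r.1.2))) (by fun_prop)).integral_prod_right'.measurable
  have bψ : ∀ r, ‖ψ r‖ ≤ 2 * K := fun r => by
    rw [hψ]
    refine (norm_integral_le_of_norm_le (i.mul_const K) ?_).trans_eq ?_
    · filter_upwards [ae_restrict_mem measurableSet_Ioo] with s hs
      rw [norm_smul]
      exact mul_le_mul (om_le hs) (b _) (norm_nonneg _) (by positivity)
    · simp only [integral_mul_const, (isqI (zero_le_one' ℝ)).2, sub_zero, Real.sqrt_one, mul_one]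
  rcases le_total x 0 with x0 | x0
  · simp [Ioo_eq_empty_of_le x0]
  rw [setIntegral_congr_fun (g := fun a => ∫ q in Ioo 0 a, (1 / √(x - a)) • ψ (a, q))
      measurableSet_Ioo fun a ha => ?_,
    tri (G := fun p => (1 / √(x - p.1)) • ψ p) (B := fun a => 1 / √(x - a) * (2 * K * x))
      (by fun_prop) (fun a ha => ?_) (fun a ha => ?_) ((isqI x0).1.mul_const _), ← integral_smul]
  · refine setIntegral_congr_fun measurableSet_Ioo fun q hq => ?_
    have p := sub_pos.2 hq.2
    have p' := Real.sqrt_pos.2 p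
    have c := core (φ := fun t => Φ (q, q + (x - q) * t)) (by fun_prop) fun _ => b _
    simp only [sub _ hq.2.le]
    rw [smul_comm Real.pi, smul_comm Real.pi, ← c]
    simp only [← integral_smul (x - q), ← integral_smul (1 / √(x - q)), smul_smul, hψ]
    refine setIntegral_congr_fun measurableSet_Ioo fun r hr => ?_
    have q' := Real.sqrt_pos.2 (sub_pos.2 hr.2)
    simp only [add_sub_cancel_left, mul_left_comm _ (x - q)]
    rw [show x - (q + (x - q) * r) = (x - q) * (1 - r) by ring, Real.sqrt_mul p.le]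
    congr 1
    field_simp
  · exact dom (w := fun _ => 1 / √(x - a)) aestronglyMeasurable_const (Measurable.aestronglyMeasurable (by fun_prop))
      (integrable_const (1 / √(x - a))) (.of_forall fun t => ⟨abs_isq _, bψ _⟩)
  · refine (integral_mono_of_nonneg (.of_forall fun _ => norm_nonneg _)
      (integrable_const (1 / √(x - a) * (2 * K))) (.of_forall fun t => ?_)).trans ?_
    · simp only [norm_smul]
      exact mul_le_mul (abs_isq _) (bψ _) (norm_nonneg _) (by positivity)
    · simp only [integral_const, measureReal_restrict_apply_univ, smul_eq_mul,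
        Real.volume_real_Ioo_of_le ha.1.le, sub_zero]
      nlinarith [mul_le_mul_of_nonneg_right ha.2.le (by positivity : 0 ≤ 1 / √(x - a) * (2 * K))]
  · simp only [integral_smul, sub _ ha.1.le, sub_zero, zero_add, hψ]
    rw [Measure.volume_eq_prod, setIntegral_prod]
    · simp only [mul_comm a, mul_assoc, one_sub_mul]
      exact smul_comm _ _ _
    · rw [IntegrableOn, ← Measure.prod_restrict]
      refine dom (K := K) (Measurable.aestronglyMeasurable (by fun_prop))
        (Measurable.aestronglyMeasurable (by fun_prop)) ((integrable_const (1 : ℝ)).mul_prod i) ?_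
      rw [Measure.prod_restrict]
      filter_upwards [ae_restrict_mem (measurableSet_Ioo.prod measurableSet_Ioo)] with p hp
      exact ⟨(om_le hp.2).trans_eq (one_mul _).symm, b _⟩

end Bon3.Ab
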