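import Pool.Agent.Lib.MP_3dbf58_gt.LcA

open Set Filter Topology MeasureTheory Metric

noncomputable section

namespace Bon3

/-- the integrand of the kernel term -/
def lcF (η : ℝ) (z e w : ℂ → ℂ) (ξ : ℂ) (p : ℝ × ℝ) : ℂ :=
  ff z w (p.1 * ξ) * ((p.2 / Real.sqrt (p.2 * (1 - p.2)) : ℝ) : ℂ) *
    k1 η z e (p.1 * ξ + p.2 * (1 - p.1) * ξ) (p.1 * ξ)

theorem lc_Lcap (η : ℝ) (z e w : ℂ → ℂ) (ξ : ℂ) : Lcap η z e w ξ =
    (Real.pi : ℂ) * ff z w ξ * mm η ξ * isq (nd z e ξ) +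
      ξ * ∫ p in Ioo (0 : ℝ) 1 ×ˢ Ioo (0 : ℝ) 1, lcF η z e w ξ p := rfl

theorem lc_pt (ξ : ℂ) (p : ℝ × ℝ) :
    (p.1 : ℂ) * ξ + p.2 * (1 - p.1) * ξ = ((p.1 + p.2 * (1 - p.1) : ℝ) : ℂ) * ξ := by
  push_cast
  ring

theorem lc_par {p : ℝ × ℝ} (hp : p ∈ Ioo (0 : ℝ) 1 ×ˢ Ioo (0 : ℝ) 1) :
    0 < p.1 ∧ p.1 < p.1 + p.2 * (1 - p.1) ∧ p.1 + p.2 * (1 - p.1) ≤ 1 := by
  obtain ⟨⟨h1, h2⟩, h3, h4⟩ := hp
  have h5 : 0 < p.2 * (1 - p.1) := mul_pos h3 (by linarith)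
  have h6 : 0 < (1 - p.2) * (1 - p.1) := mul_pos (by linarith) (by linarith)
  exact ⟨h1, by linarith, by linarith⟩

theorem lc_meas : MeasurableSet (Ioo (0 : ℝ) 1 ×ˢ Ioo (0 : ℝ) 1) :=
  measurableSet_Ioo.prod measurableSet_Ioo

section
variable {θ M A η : ℝ} {O : Set ℂ} {z e w : ℂ → ℂ} {ξ : ℂ}

theorem LcO.F_le (h : LcO θ M A O z e w) (t0 : 0 < θ) (t1 : θ ≤ th0) (e0 : 0 ≤ η)
    (e1 : η ≤ th0) (hξ : ξ ∈ O) {p : ℝ × ℝ} (hp : p ∈ Ioo (0 : ℝ) 1 ×ˢ Ioo (0 : ℝ) 1) :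
    ‖lcF η z e w ξ p‖ ≤ 5 * A * (1 + M) * ‖ξ‖ ^ 3 * (1 / Real.sqrt (1 - p.2)) := by
  obtain ⟨v0, vt, tt⟩ := lc_par hp
  have hb : (p.1 : ℂ) * ξ ∈ O := h.st ξ hξ _ v0 (vt.le.trans tt)
  have h1 := h.ff_le t0 t1 hb
  have h2 := h.k1_le t0 t1 e0 e1 hξ v0 vt tt
  have h3 := lc_wt hp.2.1 hp.2.2
  have A0 := h.A0 hξ
  have M0 := h.M0 hξ
  have h4 : ‖(p.1 : ℂ) * ξ‖ ≤ ‖ξ‖ := by
    rw [norm_mul, Complex.norm_real, Real.norm_eq_abs, abs_of_pos v0]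
    exact mul_le_of_le_one_left (norm_nonneg _) (vt.le.trans tt)
  have h5 : ‖(p.1 : ℂ) * ξ‖ ^ 3 ≤ ‖ξ‖ ^ 3 := pow_le_pow_left₀ (norm_nonneg _) h4 3
  have h6 : ‖ff z w (p.1 * ξ)‖ * ‖k1 η z e (((p.1 + p.2 * (1 - p.1) : ℝ) : ℂ) * ξ) (p.1 * ξ)‖ ≤
      5 * A * (1 + M) * ‖ξ‖ ^ 3 := by
    calc _ ≤ 121 / 100 * (A * ‖(p.1 : ℂ) * ξ‖ ^ 4) *
          ‖k1 η z e (((p.1 + p.2 * (1 - p.1) : ℝ) : ℂ) * ξ) (p.1 * ξ)‖ :=
        mul_le_mul_of_nonneg_right h1 (norm_nonneg _)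
      _ = 121 / 100 * A * ‖(p.1 : ℂ) * ξ‖ ^ 3 *
          (‖k1 η z e (((p.1 + p.2 * (1 - p.1) : ℝ) : ℂ) * ξ) (p.1 * ξ)‖ * ‖(p.1 : ℂ) * ξ‖) := by
        ring
      _ ≤ 121 / 100 * A * ‖ξ‖ ^ 3 * (4 * (1 + M)) :=
        mul_le_mul (mul_le_mul_of_nonneg_left h5 (by positivity)) h2 (by positivity)
          (by positivity)
      _ ≤ _ := by
        have h7 : 0 ≤ A * (1 + M) * ‖ξ‖ ^ 3 := by positivity
        linarith
  unfold lcF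
  rw [lc_pt, mul_right_comm, norm_mul, norm_mul]
  exact mul_le_mul h6 h3 (norm_nonneg _) (by positivity)

theorem LcO.F_cont (h : LcO θ M A O z e w) (t0 : 0 < θ) (t1 : θ ≤ th0) (hξ : ξ ∈ O) :
    ContinuousOn (lcF η z e w ξ) (Ioo (0 : ℝ) 1 ×ˢ Ioo (0 : ℝ) 1) := by
  have ca : ContinuousOn (fun p : ℝ × ℝ => (p.1 : ℂ) * ξ + p.2 * (1 - p.1) * ξ)
      (Ioo (0 : ℝ) 1 ×ˢ Ioo (0 : ℝ) 1) := by fun_prop
  have cb : ContinuousOn (fun p : ℝ × ℝ => (p.1 : ℂ) * ξ) (Ioo (0 : ℝ) 1 ×ˢ Ioo (0 : ℝ) 1) := by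
    fun_prop
  have ma : MapsTo (fun p : ℝ × ℝ => (p.1 : ℂ) * ξ + p.2 * (1 - p.1) * ξ)
      (Ioo (0 : ℝ) 1 ×ˢ Ioo (0 : ℝ) 1) O := by
    intro p hp
    obtain ⟨v0, vt, tt⟩ := lc_par hp
    simp only [lc_pt]
    exact h.st ξ hξ _ (v0.trans vt) tt
  have mb : MapsTo (fun p : ℝ × ℝ => (p.1 : ℂ) * ξ) (Ioo (0 : ℝ) 1 ×ˢ Ioo (0 : ℝ) 1) O :=
    fun p hp => h.st ξ hξ _ hp.1.1 hp.1.2.le
  have hab : ∀ p ∈ Ioo (0 : ℝ) 1 ×ˢ Ioo (0 : ℝ) 1,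
      (p.1 : ℂ) * ξ + p.2 * (1 - p.1) * ξ - p.1 * ξ ≠ 0 := by
    intro p hp
    rw [lc_pt]
    exact sub_ne_zero.mpr (lc_ne (Sec_ne (h.sub hξ)) (lc_par hp).2.1)
  have cz := h.dz.continuousOn.comp' cb mb
  have cz1 := (h.dz.deriv h.op).continuousOn.comp' cb mb
  have cw := h.dw.continuousOn.comp' cb mb
  have cea := h.de.continuousOn.comp' ca ma
  have ceb := h.de.continuousOn.comp' cb mb
  have ce1 := (h.de.deriv h.op).continuousOn.comp' ca ma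
  have c1 : ∀ c : ℂ, ContinuousOn (fun _ : ℝ × ℝ => c) (Ioo (0 : ℝ) 1 ×ˢ Ioo (0 : ℝ) 1) :=
    fun _ => continuousOn_const
  have cd : ContinuousOn (fun p : ℝ × ℝ => dd e ((p.1 : ℂ) * ξ + p.2 * (1 - p.1) * ξ) (p.1 * ξ))
      (Ioo (0 : ℝ) 1 ×ˢ Ioo (0 : ℝ) 1) := (cea.sub ceb).div (ca.sub cb) hab
  have cq := ((c1 2).mul cz).add (cea.sub ceb)
  have cn : ContinuousOn
      (fun p : ℝ × ℝ => nn z e ((p.1 : ℂ) * ξ + p.2 * (1 - p.1) * ξ) (p.1 * ξ))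
      (Ioo (0 : ℝ) 1 ×ˢ Ioo (0 : ℝ) 1) := (cz.pow 2).sub ((((c1 1).sub ca).mul cd).mul cq)
  have cn1 : ContinuousOn
      (fun p : ℝ × ℝ => n1 z e ((p.1 : ℂ) * ξ + p.2 * (1 - p.1) * ξ) (p.1 * ξ))
      (Ioo (0 : ℝ) 1 ×ˢ Ioo (0 : ℝ) 1) :=
    ((cd.mul cq).sub ((((c1 1).sub ca).mul ((ce1.sub cd).div (ca.sub cb) hab)).mul cq)).sub
      ((((c1 1).sub ca).mul cd).mul ce1)
  have cisq : ContinuousOn isq Complex.slitPlane :=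
    fun x hx => (isq_hasDerivAt hx).continuousAt.continuousWithinAt
  have ci := cisq.comp' cn (fun p hp => by
    obtain ⟨v0, vt, tt⟩ := lc_par hp
    simp only [lc_pt]
    exact (lc_isq (h.ker t0 t1 hξ v0 vt tt).1).1)
  have cm : ContinuousOn (fun p : ℝ × ℝ => mm η ((p.1 : ℂ) * ξ + p.2 * (1 - p.1) * ξ))
      (Ioo (0 : ℝ) 1 ×ˢ Ioo (0 : ℝ) 1) := (c1 1).add ((c1 η).mul ((c1 1).sub ca))
  have ck : ContinuousOn
      (fun p : ℝ × ℝ => k1 η z e ((p.1 : ℂ) * ξ + p.2 * (1 - p.1) * ξ) (p.1 * ξ))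
      (Ioo (0 : ℝ) 1 ×ˢ Ioo (0 : ℝ) 1) :=
    ((c1 (-η)).mul ci).sub ((((c1 (1 / 2)).mul cm).mul (ci.pow 3)).mul cn1)
  have cf : ContinuousOn (fun p : ℝ × ℝ => ff z w ((p.1 : ℂ) * ξ))
      (Ioo (0 : ℝ) 1 ×ˢ Ioo (0 : ℝ) 1) :=
    ((cz.pow 2).sub ((((c1 2).mul ((c1 1).sub cb)).mul cz).mul cz1)).mul cw
  have cwt : ContinuousOn (fun p : ℝ × ℝ => ((p.2 / Real.sqrt (p.2 * (1 - p.2)) : ℝ) : ℂ))
      (Ioo (0 : ℝ) 1 ×ˢ Ioo (0 : ℝ) 1) := by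
    refine Complex.continuous_ofReal.comp_continuousOn'
      (ContinuousOn.div (by fun_prop) (by fun_prop) ?_)
    intro p hp
    exact (Real.sqrt_pos.mpr (mul_pos hp.2.1 (by linarith [hp.2.2]))).ne'
  exact (cf.mul cwt).mul ck

theorem LcO.L_le (h : LcO θ M A O z e w) (t0 : 0 < θ) (t1 : θ ≤ th0) (e0 : 0 ≤ η)
    (e1 : η ≤ th0) (hξ : ξ ∈ O) : ‖Lcap η z e w ξ‖ ≤ 20 * A * (1 + M) * ‖ξ‖ ^ 4 := by
  have A0 := h.A0 hξ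
  have M0 := h.M0 hξ
  have h1 : ‖∫ p in Ioo (0 : ℝ) 1 ×ˢ Ioo (0 : ℝ) 1, lcF η z e w ξ p‖ ≤
      5 * A * (1 + M) * ‖ξ‖ ^ 3 * 2 := by
    have h2 := norm_integral_le_of_norm_le (f := lcF η z e w ξ)
      (lc_sq_int.1.const_mul (5 * A * (1 + M) * ‖ξ‖ ^ 3))
      ((ae_restrict_iff' lc_meas).mpr
        (Eventually.of_forall fun p hp => h.F_le t0 t1 e0 e1 hξ hp))
    rw [integral_const_mul, lc_sq_int.2] at h2
    exact h2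
  have hpi : ‖(Real.pi : ℂ)‖ ≤ 4 := by
    rw [Complex.norm_real, Real.norm_eq_abs, abs_of_pos Real.pi_pos]
    exact Real.pi_le_four
  have h2 := norm_add_le_of_le (norm_mul_le_of_le (norm_mul_le_of_le (norm_mul_le_of_le hpi
    (h.ff_le t0 t1 hξ)) (lc_mm t0 t1 e0 e1 (h.sub hξ)).2) (lc_isq (h.nd_near t0 t1 hξ)).2)
    (norm_mul_le_of_le (le_refl ‖ξ‖) h1)
  rw [lc_Lcap]
  refine h2.trans ?_
  have h3 : 0 ≤ A * ‖ξ‖ ^ 4 := by positivity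
  have h4 : 0 ≤ A * M * ‖ξ‖ ^ 4 := by positivity
  linarith

end

theorem lc_G1 {θ Λ : ℝ} (t0 : 0 < θ) {p : ℂ × ℂ} (hp : p ∈ G1 θ Λ) {v : ℝ} (v0 : 0 < v)
    (v1 : v ≤ 1) : (p.1, (v : ℂ) * p.2) ∈ G1 θ Λ := by
  refine ⟨Sec_smul t0.le hp.1 v0 v1, lt_of_le_of_lt ?_ hp.2⟩
  refine mul_le_mul_of_nonneg_left ?_ (norm_nonneg _)
  show ‖(v : ℂ) * p.2‖ ≤ ‖p.2‖
  rw [norm_mul, Complex.norm_real, Real.norm_eq_abs, abs_of_pos v0]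
  exact mul_le_of_le_one_left (norm_nonneg _) v1

theorem LD2.lcO {θ Λ M A : ℝ} {z e w : ℂ × ℂ → ℂ} (t0 : 0 < θ) (h : LD2 θ Λ M A z e w) (l : ℂ) :
    LcO θ M A {ζ | (l, ζ) ∈ G1 θ Λ} (sl z l) (sl e l) (sl w l) := by
  have op : IsOpen {ζ : ℂ | (l, ζ) ∈ G1 θ Λ} :=
    (isOpen_G1 θ Λ).preimage (Continuous.prodMk_right l)
  have hd : DifferentiableOn ℂ (fun ζ : ℂ => (l, ζ)) {ζ : ℂ | (l, ζ) ∈ G1 θ Λ} := by fun_prop
  exact ⟨op, fun _ hζ => hζ.1, fun ξ hξ v v0 v1 => lc_G1 t0 (p := (l, ξ)) hξ v0 v1,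
    h.hz _ _ op hd (fun _ hζ => hζ), h.he _ _ op hd (fun _ hζ => hζ),
    h.hw _ _ op hd (fun _ hζ => hζ), fun ξ hξ => h.z0 (l, ξ) hξ, fun ξ hξ => h.z1 (l, ξ) hξ,
    fun ξ hξ => h.e1 (l, ξ) hξ, fun ξ hξ => h.e2 (l, ξ) hξ, fun ξ hξ => h.w0 (l, ξ) hξ⟩

theorem LD2.F_HC {θ Λ M A η : ℝ} {z e w : ℂ × ℂ → ℂ} (t0 : 0 < θ) (t1 : θ ≤ th0)
    (h : LD2 θ Λ M A z e w) {r : ℝ × ℝ} (hr : r ∈ Ioo (0 : ℝ) 1 ×ˢ Ioo (0 : ℝ) 1) :
    HC (fun p : ℂ × ℂ => lcF η (sl z p.1) (sl e p.1) (sl w p.1) p.2 r) (G1 θ Λ) := by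
  obtain ⟨v0, vt, tt⟩ := lc_par hr
  have ca : HC (fun p : ℂ × ℂ => (r.1 : ℂ) * p.2 + r.2 * (1 - r.1) * p.2) (G1 θ Λ) :=
    HC.of_diff (by fun_prop)
  have cb : HC (fun p : ℂ × ℂ => (r.1 : ℂ) * p.2) (G1 θ Λ) := HC.of_diff (by fun_prop)
  have pa : HC (fun p : ℂ × ℂ => (p.1, (r.1 : ℂ) * p.2 + r.2 * (1 - r.1) * p.2)) (G1 θ Λ) :=
    HC.of_diff (by fun_prop)
  have pb : HC (fun p : ℂ × ℂ => (p.1, (r.1 : ℂ) * p.2)) (G1 θ Λ) := HC.of_diff (by fun_prop)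
  have ma : MapsTo (fun p : ℂ × ℂ => (p.1, (r.1 : ℂ) * p.2 + r.2 * (1 - r.1) * p.2)) (G1 θ Λ)
      (G1 θ Λ) := by
    intro p hp
    simp only [lc_pt]
    exact lc_G1 t0 hp (v0.trans vt) tt
  have mb : MapsTo (fun p : ℂ × ℂ => (p.1, (r.1 : ℂ) * p.2)) (G1 θ Λ) (G1 θ Λ) :=
    fun p hp => lc_G1 t0 hp v0 (vt.le.trans tt)
  have hab : ∀ p ∈ G1 θ Λ, (r.1 : ℂ) * p.2 + r.2 * (1 - r.1) * p.2 - r.1 * p.2 ≠ 0 := by
    intro p hp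
    rw [lc_pt]
    exact sub_ne_zero.mpr (lc_ne (Sec_ne hp.1) vt)
  have cz := h.hz.comp pb mb
  have cz1 := h.hz1.comp pb mb
  have cw := h.hw.comp pb mb
  have cea := h.he.comp pa ma
  have ceb := h.he.comp pb mb
  have ce1 := h.he1.comp pa ma
  have c1 : ∀ c : ℂ, HC (fun _ : ℂ × ℂ => c) (G1 θ Λ) := fun c => HC.const c
  have cd : HC (fun p : ℂ × ℂ =>
      dd (sl e p.1) ((r.1 : ℂ) * p.2 + r.2 * (1 - r.1) * p.2) (r.1 * p.2)) (G1 θ Λ) :=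
    (cea.sub ceb).div (ca.sub cb) hab
  have cq := ((c1 2).mul cz).add (cea.sub ceb)
  have cn : HC (fun p : ℂ × ℂ =>
      nn (sl z p.1) (sl e p.1) ((r.1 : ℂ) * p.2 + r.2 * (1 - r.1) * p.2) (r.1 * p.2)) (G1 θ Λ) :=
    (cz.pow 2).sub ((((c1 1).sub ca).mul cd).mul cq)
  have cn1 : HC (fun p : ℂ × ℂ =>
      n1 (sl z p.1) (sl e p.1) ((r.1 : ℂ) * p.2 + r.2 * (1 - r.1) * p.2) (r.1 * p.2)) (G1 θ Λ) :=
    ((cd.mul cq).sub ((((c1 1).sub ca).mul ((ce1.sub cd).div (ca.sub cb) hab)).mul cq)).sub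
      ((((c1 1).sub ca).mul cd).mul ce1)
  have ci := cn.isq (fun p hp => by
    simp only [lc_pt]
    exact (lc_isq ((h.lcO t0 p.1).ker t0 t1 (ξ := p.2) hp v0 vt tt).1).1)
  have cm : HC (fun p : ℂ × ℂ => mm η ((r.1 : ℂ) * p.2 + r.2 * (1 - r.1) * p.2)) (G1 θ Λ) :=
    (c1 1).add ((c1 η).mul ((c1 1).sub ca))
  have ck : HC (fun p : ℂ × ℂ =>
      k1 η (sl z p.1) (sl e p.1) ((r.1 : ℂ) * p.2 + r.2 * (1 - r.1) * p.2) (r.1 * p.2))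
      (G1 θ Λ) :=
    ((c1 (-η)).mul ci).sub ((((c1 (1 / 2)).mul cm).mul (ci.pow 3)).mul cn1)
  have cf : HC (fun p : ℂ × ℂ => ff (sl z p.1) (sl w p.1) ((r.1 : ℂ) * p.2)) (G1 θ Λ) :=
    ((cz.pow 2).sub ((((c1 2).mul ((c1 1).sub cb)).mul cz).mul cz1)).mul cw
  exact (cf.mul (c1 _)).mul ck

/-- holomorphy and crude bound of the operator along a family -/
theorem Lcap_HC {θ Λ M A η : ℝ} {z e w : ℂ × ℂ → ℂ} (t0 : 0 < θ) (t1 : θ ≤ th0) (e0 : 0 ≤ η)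
    (e1 : η ≤ th0) (hM : 0 ≤ M) (h : LD2 θ Λ M A z e w) :
    HC (fun p : ℂ × ℂ => Lcap η (sl z p.1) (sl e p.1) (sl w p.1) p.2) (G1 θ Λ) ∧
    ∀ p ∈ G1 θ Λ, ‖Lcap η (sl z p.1) (sl e p.1) (sl w p.1) p.2‖ ≤ 20 * A * (1 + M) * ‖p.2‖ ^ 4 := by
  refine ⟨?_, fun p hp => (h.lcO t0 p.1).L_le t0 t1 e0 e1 (ξ := p.2) hp⟩
  have c1 : ∀ c : ℂ, HC (fun _ : ℂ × ℂ => c) (G1 θ Λ) := fun c => HC.const c
  have c2 : HC (fun p : ℂ × ℂ => p.2) (G1 θ Λ) := HC.of_diff (by fun_prop)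
  have cf : HC (fun p : ℂ × ℂ => ff (sl z p.1) (sl w p.1) p.2) (G1 θ Λ) :=
    ((h.hz.pow 2).sub ((((c1 2).mul ((c1 1).sub c2)).mul h.hz).mul h.hz1)).mul h.hw
  have cm : HC (fun p : ℂ × ℂ => mm η p.2) (G1 θ Λ) := (c1 1).add ((c1 η).mul ((c1 1).sub c2))
  have cn : HC (fun p : ℂ × ℂ => nd (sl z p.1) (sl e p.1) p.2) (G1 θ Λ) :=
    (h.hz.pow 2).sub ((((c1 1).sub c2).mul h.he1).mul ((c1 2).mul h.hz))
  have ci := cn.isq (fun p hp => (lc_isq ((h.lcO t0 p.1).nd_near t0 t1 (ξ := p.2) hp)).1)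
  have cI : HC (fun p : ℂ × ℂ => ∫ r in Ioo (0 : ℝ) 1 ×ˢ Ioo (0 : ℝ) 1,
      lcF η (sl z p.1) (sl e p.1) (sl w p.1) p.2 r) (G1 θ Λ) := by
    refine HC.integral (b := fun r => 5 * A * (1 + M) * 2 ^ 3 * (1 / Real.sqrt (1 - r.2)))
      ((ae_restrict_iff' lc_meas).mpr (Eventually.of_forall fun r hr => h.F_HC t0 t1 hr))
      (fun p hp => ((h.lcO t0 p.1).F_cont t0 t1 (ξ := p.2) hp).aestronglyMeasurable lc_meas)
      ((ae_restrict_iff' lc_meas).mpr (Eventually.of_forall fun r hr p hp => ?_))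
      (lc_sq_int.1.const_mul _)
    have h1 := (h.lcO t0 p.1).F_le t0 t1 e0 e1 (ξ := p.2) hp hr
    have A0 := (h.lcO t0 p.1).A0 (ξ := p.2) hp
    have h2 : ‖p.2‖ ^ 3 ≤ 2 ^ 3 :=
      pow_le_pow_left₀ (norm_nonneg _) (by linarith [(lc_one_sub t0 t1 hp.1).2]) 3
    exact h1.trans (mul_le_mul_of_nonneg_right (mul_le_mul_of_nonneg_left h2 (by positivity))
      (by positivity))
  exact ((((c1 _).mul cf).mul cm).mul ci).add (c2.mul cI)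

/-- the same for fixed data -/
theorem Lcap_diff {θ M A η : ℝ} {z e w : ℂ → ℂ} (t0 : 0 < θ) (t1 : θ ≤ th0) (e0 : 0 ≤ η)
    (e1 : η ≤ th0) (hM : 0 ≤ M) (h : LD θ M A z e w) :
    DifferentiableOn ℂ (Lcap η z e w) (Sec θ) ∧
    ∀ ξ ∈ Sec θ, ‖Lcap η z e w ξ‖ ≤ 20 * A * (1 + M) * ‖ξ‖ ^ 4 := by
  refine ⟨?_, fun ξ hξ => (h.lcO t0).L_le t0 t1 e0 e1 hξ⟩
  have c2 : ∀ f : ℂ → ℂ, DifferentiableOn ℂ f (Sec θ) → HC (fun p : ℂ × ℂ => f p.2) (G1 θ 1) :=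
    fun f hf => HC.comp (g := fun p : ℂ × ℂ => p.2) (HC.of_diff hf) (HC.of_diff (by fun_prop))
      (fun p hp => hp.1)
  have h2 : LD2 θ 1 M A (fun p => z p.2) (fun p => e p.2) (fun p => w p.2) :=
    ⟨c2 z h.dz, c2 e h.de, c2 w h.dw, c2 _ (h.dz.deriv (isOpen_Sec θ)),
      c2 _ (h.de.deriv (isOpen_Sec θ)), fun p hp => h.z0 _ hp.1, fun p hp => h.z1 _ hp.1,
      fun p hp => h.e1 _ hp.1, fun p hp => h.e2 _ hp.1, fun p hp => h.w0 _ hp.1⟩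
  exact (Lcap_HC t0 t1 e0 e1 hM h2).1 (fun s => (0, s)) (Sec θ) (isOpen_Sec θ) (by fun_prop)
    (fun s hs => ⟨hs, by simp⟩)

theorem Lcap_congr {θ η : ℝ} {z e w z' e' w' : ℂ → ℂ} (t0 : 0 ≤ θ) (hz : EqOn z z' (Sec θ))
    (he : EqOn e e' (Sec θ)) (hw : EqOn w w' (Sec θ)) :
    EqOn (Lcap η z e w) (Lcap η z' e' w') (Sec θ) := by
  have hd : ∀ f g : ℂ → ℂ, EqOn f g (Sec θ) → EqOn (deriv f) (deriv g) (Sec θ) :=
    fun f g hfg x hx => (hfg.eventuallyEq_of_mem ((isOpen_Sec θ).mem_nhds hx)).deriv_eq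
  have hf : ∀ b ∈ Sec θ, ff z w b = ff z' w' b := by
    intro b hb
    unfold ff
    rw [hz hb, hw hb, hd z z' hz hb]
  have hk : ∀ a ∈ Sec θ, ∀ b ∈ Sec θ, k1 η z e a b = k1 η z' e' a b := by
    intro a ha b hb
    unfold k1 nn n1 dd
    rw [hz hb, he ha, he hb, hd e e' he ha]
  intro ξ hξ
  have hn : nd z e ξ = nd z' e' ξ := by
    unfold nd
    rw [hz hξ, hd e e' he hξ]
  have hI : ∫ p in Ioo (0 : ℝ) 1 ×ˢ Ioo (0 : ℝ) 1, lcF η z e w ξ p =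
      ∫ p in Ioo (0 : ℝ) 1 ×ˢ Ioo (0 : ℝ) 1, lcF η z' e' w' ξ p := by
    refine setIntegral_congr_fun lc_meas (fun p hp => ?_)
    obtain ⟨v0, vt, tt⟩ := lc_par hp
    have hb := Sec_smul t0 hξ v0 (vt.le.trans tt)
    unfold lcF
    rw [lc_pt, hf _ hb, hk _ (Sec_smul t0 hξ (v0.trans vt) tt) _ hb]
  rw [lc_Lcap, lc_Lcap, hf ξ hξ, hn, hI]

theorem Lcap_real {θ M A η : ℝ} {z e w : ℂ → ℂ} (t0 : 0 < θ) (t1 : θ ≤ th0)
    (h : LD θ M A z e w) (rz : Rl z θ) (re : Rl e θ) (rw : Rl w θ) : Rl (Lcap η z e w) θ := by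
  have cj : ∀ f : ℂ → ℂ, Rl f θ → ∀ x : ℝ, (x : ℂ) ∈ Sec θ →
      (starRingEnd ℂ) (f x) = f x := fun f hf x hx => Complex.conj_eq_iff_im.mpr (hf x hx)
  have rz1 := Rl.deriv h.dz rz
  have re1 := Rl.deriv h.de re
  have c2 : (starRingEnd ℂ) 2 = 2 := Complex.conj_ofNat 2
  have hf : ∀ b : ℝ, (b : ℂ) ∈ Sec θ → (starRingEnd ℂ) (ff z w b) = ff z w b := by
    intro b hb
    unfold ff
    simp only [map_mul, map_sub, map_pow, map_one, c2, Complex.conj_ofReal, cj z rz b hb,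
      cj w rw b hb, cj _ rz1 b hb]
  have hm : ∀ a : ℝ, (starRingEnd ℂ) (mm η a) = mm η a := by
    intro a
    unfold mm
    simp only [map_mul, map_sub, map_add, map_one, Complex.conj_ofReal]
  have hk : ∀ a b : ℝ, (a : ℂ) ∈ Sec θ → (b : ℂ) ∈ Sec θ → ‖nn z e a b - 1‖ ≤ 1 / 4 →
      (starRingEnd ℂ) (k1 η z e a b) = k1 η z e a b := by
    intro a b ha hb hn
    have h1 : (starRingEnd ℂ) (nn z e a b) = nn z e a b := by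
      unfold nn dd
      simp only [map_mul, map_sub, map_add, map_pow, map_div₀, map_one, c2, Complex.conj_ofReal,
        cj z rz b hb, cj e re a ha, cj e re b hb]
    have h2 : (starRingEnd ℂ) (n1 z e a b) = n1 z e a b := by
      unfold n1 dd
      simp only [map_mul, map_sub, map_add, map_div₀, map_one, c2, Complex.conj_ofReal,
        cj z rz b hb, cj e re a ha, cj e re b hb, cj _ re1 a ha]
    unfold k1
    simp only [map_mul, map_sub, map_neg, map_pow, map_div₀, map_one, c2, Complex.conj_ofReal,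
      lc_isq_conj hn h1, h2, hm a]
  intro x hx
  have hn : (starRingEnd ℂ) (nd z e x) = nd z e x := by
    unfold nd
    simp only [map_mul, map_sub, map_pow, map_one, c2, Complex.conj_ofReal, cj z rz x hx,
      cj _ re1 x hx]
  have hI : ∫ p in Ioo (0 : ℝ) 1 ×ˢ Ioo (0 : ℝ) 1, lcF η z e w x p =
      ∫ p in Ioo (0 : ℝ) 1 ×ˢ Ioo (0 : ℝ) 1, (((lcF η z e w x p).re : ℝ) : ℂ) := by
    refine setIntegral_congr_fun lc_meas (fun p hp => ?_)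
    obtain ⟨v0, vt, tt⟩ := lc_par hp
    have hb := Sec_smul t0.le hx v0 (vt.le.trans tt)
    have ha := Sec_smul t0.le hx (v0.trans vt) tt
    have h3 := ((h.lcO t0).ker t0 t1 hx v0 vt tt).1
    rw [← Complex.ofReal_mul] at ha hb
    rw [← Complex.ofReal_mul, ← Complex.ofReal_mul] at h3
    refine (Complex.conj_eq_iff_re.mp ?_).symm
    unfold lcF
    rw [lc_pt, ← Complex.ofReal_mul, ← Complex.ofReal_mul, map_mul, map_mul, hf _ hb,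
      hk _ _ ha hb h3, Complex.conj_ofReal]
  refine Complex.conj_eq_iff_im.mp ?_
  rw [lc_Lcap, hI, integral_complex_ofReal]
  simp only [map_mul, map_add, Complex.conj_ofReal, hf x hx, hm x,
    lc_isq_conj ((h.lcO t0).nd_near t0 t1 hx) hn]

theorem Lcap_smul (η : ℝ) (z e w : ℂ → ℂ) (c ξ : ℂ) :
    Lcap η z e (fun ζ => c * w ζ) ξ = c * Lcap η z e w ξ := by
  have hf : ∀ b, ff z (fun ζ => c * w ζ) b = c * ff z w b := by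
    intro b
    unfold ff
    ring
  have hF : lcF η z e (fun ζ => c * w ζ) ξ = fun p => c * lcF η z e w ξ p := by
    funext p
    unfold lcF
    rw [hf]
    ring
  rw [lc_Lcap, lc_Lcap, hf, hF, integral_const_mul]
  ring

/-- integrability of the kernel term, used to split integrals -/
theorem Lcap_int {θ M A η : ℝ} {z e w : ℂ → ℂ} (t0 : 0 < θ) (t1 : θ ≤ th0) (e0 : 0 ≤ η)
    (e1 : η ≤ th0) (hM : 0 ≤ M) (h : LD θ M A z e w) {ξ : ℂ} (hξ : ξ ∈ Sec θ) :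
    IntegrableOn (fun p : ℝ × ℝ =>
      ff z w (p.1 * ξ) * ((p.2 / Real.sqrt (p.2 * (1 - p.2)) : ℝ) : ℂ) *
        k1 η z e (p.1 * ξ + p.2 * (1 - p.1) * ξ) (p.1 * ξ)) (Ioo (0 : ℝ) 1 ×ˢ Ioo (0 : ℝ) 1) :=
  Integrable.mono' (f := lcF η z e w ξ) (lc_sq_int.1.const_mul (5 * A * (1 + M) * ‖ξ‖ ^ 3))
    (((h.lcO t0).F_cont t0 t1 hξ).aestronglyMeasurable lc_meas)
    ((ae_restrict_iff' lc_meas).mpr
      (Eventually.of_forall fun _ hp => (h.lcO t0).F_le t0 t1 e0 e1 hξ hp))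

/-- fine bound of the kernel: `e'` is close to the real number `s` -/
theorem k1_fine {θ η B s : ℝ} {z e : ℂ → ℂ} (t0 : 0 < θ) (t1 : θ ≤ th0) (e0 : 0 < η)
    (e1 : η ≤ th0) (hs : |s| ≤ η) (hB : B ≤ th0 ^ 2 * η)
    (de : DifferentiableOn ℂ e (Sec θ)) (z0 : ∀ ξ ∈ Sec θ, ‖z ξ - 1‖ ≤ th0)
    (h1 : ∀ ξ ∈ Sec θ, ‖deriv e ξ - s‖ ≤ B) (h2 : ∀ ξ ∈ Sec θ, ‖deriv (deriv e) ξ‖ ≤ B)
    {a b : ℂ} (ha : a ∈ Sec θ) (hb : b ∈ Sec θ) (hab : a ≠ b) :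
    ‖k1 η z e a b + η + s‖ ≤ 50 * th0 * η := by
  have hth : th0 = 1 / 10 ^ 6 := rfl
  have hseg : segment ℝ b a ⊆ Sec θ := (convex_Sec θ).segment_subset hb ha
  have hD := lc_dd (isOpen_Sec θ) de hab hseg (fun x hx => h1 x (hseg hx))
  have hR := lc_t2 (isOpen_Sec θ) de hab hseg (fun x hx => h2 x (hseg hx))
  have hm := (lc_mm t0 t1 e0.le e1 ha).1
  obtain ⟨hA, ha1⟩ := lc_one_sub t0 t1 ha
  have hb1 := (lc_one_sub t0 t1 hb).2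
  have hZ := z0 b hb
  have hE := h1 a ha
  rw [hth] at e1 hB hZ ⊢
  have hs1 : ‖(s : ℂ)‖ ≤ η := by rwa [Complex.norm_real, Real.norm_eq_abs]
  have hη : ‖(η : ℂ)‖ ≤ η := by rw [Complex.norm_real, Real.norm_eq_abs, abs_of_pos e0]
  have up : ∀ x : ℂ, ‖x - s‖ ≤ B → ‖x‖ ≤ 101 / 100 * η := by
    intro x hx
    have e2 : x = (x - s) + s := by ring
    rw [e2]
    refine (norm_add_le_of_le hx hs1).trans ?_
    linarith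
  have hD1 := up _ hD
  have hE1 := up _ hE
  have hΔ : ‖e a - e b‖ ≤ 21 / 10 * η := by
    have e2 : e a - e b = dd e a b * (a - b) := by
      unfold dd
      rw [div_mul_cancel₀ _ (sub_ne_zero.mpr hab)]
    rw [e2]
    refine (norm_mul_le_of_le hD1 (norm_sub_le_of_le ha1 hb1)).trans ?_
    linarith
  have c2 : ‖(2 : ℂ)‖ ≤ 2 := by simp
  have hq1 : ‖2 * (z b - 1) + (e a - e b)‖ ≤ 41 / 10 ^ 7 :=
    (norm_add_le_of_le (norm_mul_le_of_le c2 hZ) hΔ).trans (by linarith)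
  have hq : ‖2 * z b + (e a - e b)‖ ≤ 201 / 100 := by
    have e2 : 2 * z b + (e a - e b) = 2 * (z b - 1) + (e a - e b) + 2 := by ring
    rw [e2]
    exact (norm_add_le_of_le hq1 c2).trans (by norm_num)
  have hn : ‖nn z e a b - 1‖ ≤ 45 / 10 ^ 7 := by
    have e2 : nn z e a b - 1 = (z b - 1) * (z b - 1) + 2 * (z b - 1) -
        (1 - a) * dd e a b * (2 * z b + (e a - e b)) := by
      unfold nn
      ring
    rw [e2]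
    refine (norm_sub_le_of_le (norm_add_le_of_le (norm_mul_le_of_le hZ hZ)
      (norm_mul_le_of_le c2 hZ)) (norm_mul_le_of_le (norm_mul_le_of_le hA hD1) hq)).trans ?_
    linarith
  have hI : ‖isq (nn z e a b) - 1‖ ≤ 9 / 10 ^ 6 := by
    have h3 := (isq_near (z := nn z e a b) (by linarith)).1
    linarith
  have hn1 : ‖n1 z e a b - 2 * s‖ ≤ 7 / 10 ^ 6 * η := by
    have e2 : n1 z e a b - 2 * s = (dd e a b - s) * (2 * z b + (e a - e b)) +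
        s * (2 * (z b - 1) + (e a - e b)) -
        (1 - a) * ((deriv e a - dd e a b) / (a - b)) * (2 * z b + (e a - e b)) -
        (1 - a) * dd e a b * deriv e a := by
      unfold n1
      ring
    have hE2 : ‖deriv e a‖ ≤ 101 / 10 ^ 8 := by linarith
    rw [e2]
    refine (norm_sub_le_of_le (norm_sub_le_of_le (norm_add_le_of_le (norm_mul_le_of_le hD hq)
      (norm_mul_le_of_le hs1 hq1)) (norm_mul_le_of_le (norm_mul_le_of_le hA hR) hq))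
      (norm_mul_le_of_le (norm_mul_le_of_le hA hD1) hE2)).trans ?_
    linarith
  have hn2 : ‖n1 z e a b‖ ≤ 21 / 10 * η := by
    have e2 : n1 z e a b = (n1 z e a b - 2 * s) + 2 * s := by ring
    rw [e2]
    refine (norm_add_le_of_le hn1 (norm_mul_le_of_le c2 hs1)).trans ?_
    linarith
  have hm1 : ‖mm η a - 1‖ ≤ 101 / 10 ^ 8 := by linarith
  have c3 : ‖(3 : ℂ)‖ ≤ 3 := by simp
  have c1 : ‖(1 : ℂ)‖ ≤ 1 := by simp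
  have hI3 : ‖isq (nn z e a b) ^ 3 - 1‖ ≤ 28 / 10 ^ 6 := by
    have e2 : isq (nn z e a b) ^ 3 - 1 = (isq (nn z e a b) - 1) *
        ((isq (nn z e a b) - 1) * (isq (nn z e a b) - 1) + 3 * (isq (nn z e a b) - 1) + 3) := by
      ring
    rw [e2]
    exact (norm_mul_le_of_le hI (norm_add_le_of_le (norm_add_le_of_le (norm_mul_le_of_le hI hI)
      (norm_mul_le_of_le c3 hI)) c3)).trans (by norm_num)
  have hP : ‖mm η a * isq (nn z e a b) ^ 3 - 1‖ ≤ 30 / 10 ^ 6 := by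
    have e2 : mm η a * isq (nn z e a b) ^ 3 - 1 =
        (mm η a - 1) * ((isq (nn z e a b) ^ 3 - 1) + 1) + (isq (nn z e a b) ^ 3 - 1) := by ring
    rw [e2]
    exact (norm_add_le_of_le (norm_mul_le_of_le hm1 (norm_add_le_of_le hI3 c1)) hI3).trans
      (by norm_num)
  have hh : ‖(1 / 2 : ℂ)‖ ≤ 1 / 2 := by simp
  have e2 : k1 η z e a b + η + s = -(η * (isq (nn z e a b) - 1) + 1 / 2 *
      ((mm η a * isq (nn z e a b) ^ 3 - 1) * n1 z e a b + (n1 z e a b - 2 * s))) := by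
    unfold k1
    ring
  rw [e2, norm_neg]
  refine (norm_add_le_of_le (norm_mul_le_of_le hη hI) (norm_mul_le_of_le hh
    (norm_add_le_of_le (norm_mul_le_of_le hP hn2) hn1))).trans ?_
  linarith

end Bon3
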