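import Pool.Agent.Lib.MP_3dbf58_gt.Tool
import Pool.Agent.Lib.MP_3dbf58_gt.Lc
import Pool.Agent.Lib.MP_3dbf58_gt.AbelA

open Set Filter Topology MeasureTheory Metric

noncomputable section

namespace Bon3

namespace Ab

theorem wint {f : ℝ → ℂ} {x K : ℝ} (x0 : 0 ≤ x) (hf : ContinuousOn f (Ioo 0 x))
    (hK : ∀ v ∈ Ioo 0 x, ‖f v‖ ≤ K) : IntegrableOn (fun v => (1 / √(x - v)) • f v) (Ioo 0 x) :=
  dom (K := K) (Measurable.aestronglyMeasurable (by fun_prop))
    (hf.aestronglyMeasurable measurableSet_Ioo) (isqI x0).1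
    ((ae_restrict_mem measurableSet_Ioo).mono fun v hv => ⟨abs_isq _, hK v hv⟩)

variable {θ M A η : ℝ} {z e w : ℂ → ℂ}

/-- the kernel before differentiation -/
def kk (η : ℝ) (z e : ℂ → ℂ) (a b : ℂ) : ℂ := mm η a * isq (nn z e a b)

theorem nrm {b : ℝ} (b0 : 0 ≤ b) : ‖(b : ℂ)‖ = b := by rw [Complex.norm_real, Real.norm_of_nonneg b0]

theorem n1s {b : ℝ} (b0 : 0 ≤ b) (b1 : b ≤ 1) : ‖1 - (b : ℂ)‖ ≤ 1 := by
  rw [← Complex.ofReal_one, ← Complex.ofReal_sub, nrm (by linarith)]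
  linarith

theorem nz (h : LD θ M A z e w) {b : ℂ} (hb : b ∈ Sec θ) :
    ‖z b‖ ≤ 21 / 20 ∧ ‖z b ^ 2 - 1‖ ≤ 41 / 400 := by
  have a := h.z0 b hb
  have c : ‖z b‖ ≤ 21 / 20 := (norm_le_norm_add_norm_sub' _ 1).trans (by rw [norm_one]; linarith)
  refine ⟨c, ?_⟩
  rw [show z b ^ 2 - 1 = (z b - 1) * (z b + 1) by ring, norm_mul]
  have d : ‖z b + 1‖ ≤ 41 / 20 := (norm_add_le _ _).trans (by rw [norm_one]; linarith)
  exact (mul_le_mul a d (norm_nonneg _) (by norm_num)).trans (by norm_num)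

theorem dAt {f : ℂ → ℂ} (hf : DifferentiableOn ℂ f (Sec θ)) {b : ℂ} (hb : b ∈ Sec θ) :
    DifferentiableAt ℂ f b ∧ DifferentiableAt ℂ (deriv f) b :=
  ⟨hf.differentiableAt ((isOpen_Sec θ).mem_nhds hb),
    (hf.deriv (isOpen_Sec θ)).differentiableAt ((isOpen_Sec θ).mem_nhds hb)⟩

theorem nmm (e0 : 0 ≤ η) (e1 : η ≤ th0) {a : ℝ} (a0 : 0 ≤ a) (a1 : a ≤ 1) : ‖mm η a‖ ≤ 2 := by
  refine (norm_add_le _ _).trans ?_
  rw [norm_one, norm_mul, nrm e0]
  have := mul_le_mul_of_nonneg_left (n1s a0 a1) e0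
  rw [th0] at e1
  linarith

theorem nisq {u : ℂ} (h : ‖u - 1‖ ≤ 1 / 2) : u ∈ Complex.slitPlane ∧ ‖isq u‖ ≤ 2 :=
  ⟨slit_of_near (by linarith), (norm_le_norm_add_norm_sub' _ 1).trans (by
    rw [norm_one]; linarith [(isq_near h).1])⟩

theorem nff (t0 : 0 < θ) (h : LD θ M A z e w) {b : ℝ} (b0 : 0 < b) (b1 : b ≤ 1) :
    0 ≤ A ∧ ‖ff z w b‖ ≤ 2 * A * b := by
  have hb := Sec_real t0 b0 b1
  have a := h.w0 _ hb
  rw [nrm b0.le] at a
  have A0 : 0 ≤ A := nonneg_of_mul_nonneg_left ((norm_nonneg _).trans a) (by positivity)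
  have c : ‖z b ^ 2 - 2 * (1 - b) * z b * deriv z b‖ ≤ 2 := by
    refine (norm_sub_le _ _).trans ?_
    simp only [norm_mul, norm_pow, Complex.norm_ofNat]
    have := mul_le_mul (mul_le_mul (n1s b0.le b1) (nz h hb).1 (norm_nonneg _) zero_le_one)
      (h.z1 _ hb) (norm_nonneg _) (by norm_num)
    nlinarith [(nz h hb).1, norm_nonneg (z b)]
  refine ⟨A0, ?_⟩
  rw [ff, norm_mul, mul_assoc 2 A]
  exact mul_le_mul c (a.trans (mul_le_mul_of_nonneg_left
    (pow_le_of_le_one b0.le b1 (by norm_num)) A0)) (norm_nonneg _) zero_le_two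

theorem nnd (t0 : 0 < θ) (h : LD θ M A z e w) {b : ℝ} (b0 : 0 < b) (b1 : b ≤ 1) :
    ‖nd z e b - 1‖ ≤ 1 / 2 := by
  have hb := Sec_real t0 b0 b1
  rw [nd, sub_right_comm]
  refine (norm_sub_le _ _).trans ?_
  simp only [norm_mul, Complex.norm_ofNat]
  have := mul_le_mul (mul_le_mul (n1s b0.le b1) (h.e1 _ hb) (norm_nonneg _) zero_le_one)
    (nz h hb).1 (norm_nonneg _) (by norm_num)
  nlinarith [(nz h hb).2]

section pair
variable (t0 : 0 < θ) (h : LD θ M A z e w) {a b : ℝ} (b0 : 0 < b) (ba : b < a) (a1 : a ≤ 1)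
include t0 h b0 ba a1

theorem ndd : ‖dd e a b‖ ≤ 1 / 20 ∧ ‖2 * z b + (e a - e b)‖ ≤ 43 / 20 ∧
    ‖nn z e a b - 1‖ ≤ 1 / 2 := by
  have ha := Sec_real t0 (b0.trans ba) a1
  have hb := Sec_real t0 b0 (ba.le.trans a1)
  have p := sub_pos.2 ba
  have n : ‖(a : ℂ) - b‖ = a - b := by rw [← Complex.ofReal_sub, nrm p.le]
  have c := (convex_Sec θ).norm_image_sub_le_of_norm_deriv_le (fun u hu => (dAt h.de hu).1) h.e1 hb ha
  rw [n] at c
  have d : ‖dd e a b‖ ≤ 1 / 20 := by rwa [dd, norm_div, n, div_le_iff₀ p]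
  have f : ‖2 * z b + (e a - e b)‖ ≤ 43 / 20 := (norm_add_le _ _).trans (by
    rw [norm_mul, Complex.norm_ofNat]
    linarith [(nz h hb).1])
  refine ⟨d, f, ?_⟩
  rw [nn, sub_right_comm]
  refine (norm_sub_le _ _).trans ?_
  simp only [norm_mul]
  have := mul_le_mul (mul_le_mul (n1s (b0.trans ba).le a1) d (norm_nonneg _) zero_le_one)
    f (norm_nonneg _) (by norm_num)
  linarith [(nz h hb).2]

theorem nsec (hM : 0 ≤ M) : ‖(deriv e a - dd e a b) / (a - b)‖ ≤ M / b := by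
  have ha := Sec_real t0 (b0.trans ba) a1
  have hb := Sec_real t0 b0 (ba.le.trans a1)
  have p := sub_pos.2 ba
  have p' : (a : ℂ) - b ≠ 0 := by exact_mod_cast p.ne'
  have n : ‖(a : ℂ) - b‖ = a - b := by rw [← Complex.ofReal_sub, nrm p.le]
  have cS : Convex ℝ (Sec θ ∩ {u : ℂ | b ≤ u.re}) := (convex_Sec θ).inter (convex_halfSpace_re_ge b)
  have c1 : ∀ u ∈ Sec θ ∩ {u : ℂ | b ≤ u.re}, ‖deriv e u - deriv e a‖ ≤ M / b * ‖u - a‖ :=
    fun u hu => cS.norm_image_sub_le_of_norm_deriv_le (fun v hv => (dAt h.de hv.1).2)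
      (fun v hv => (le_div_iff₀ b0).2 ((mul_le_mul_of_nonneg_left
        (hv.2.trans (Complex.re_le_norm v)) (norm_nonneg _)).trans (h.e2 v hv.1))) ⟨ha, ba.le⟩ hu
  have c2 := (cS.inter (convex_closedBall (a : ℂ) (a - b))).norm_image_sub_le_of_norm_hasDerivWithin_le
    (f := fun u => e u - deriv e a * u) (f' := fun u => deriv e u - deriv e a)
    (C := M / b * (a - b)) (x := b) (y := a)
    (fun u hu => (((dAt h.de hu.1.1).1.hasDerivAt.sub
      ((hasDerivAt_id' u).const_mul _)).congr_deriv (by rw [mul_one])).hasDerivWithinAt)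
    (fun u hu => (c1 u hu.1).trans (mul_le_mul_of_nonneg_left (mem_closedBall_iff_norm.1 hu.2)
      (by positivity)))
    ⟨⟨hb, le_refl b⟩, mem_closedBall_iff_norm'.2 n.le⟩ ⟨⟨ha, ba.le⟩, mem_closedBall_self p.le⟩
  rw [show (deriv e a - dd e a b) / (a - b) =
    -(e a - deriv e a * a - (e b - deriv e a * b)) / (a - b) / (a - b) by
      rw [dd]; field_simp; ring, norm_div, norm_div, norm_neg, n, div_le_iff₀ p, div_le_iff₀ p]
  rwa [n] at c2

theorem nk1 (e0 : 0 ≤ η) (e1 : η ≤ th0) (hM : 0 ≤ M) : ‖k1 η z e a b‖ ≤ (10 + 24 * M) / b := by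
  have ha := Sec_real t0 (b0.trans ba) a1
  obtain ⟨d, f, g⟩ := ndd t0 h b0 ba a1
  have s := nsec t0 h b0 ba a1 hM
  have i := (nisq g).2
  have u := n1s (b0.trans ba).le a1
  have Mb : 0 ≤ M / b := by positivity
  have n : ‖n1 z e a b‖ ≤ 1 + 3 * (M / b) := by
    refine (norm_sub_le_of_le (norm_sub_le _ _) le_rfl).trans ?_
    simp only [norm_mul]
    have x1 := mul_le_mul d f (norm_nonneg _) (by norm_num)
    have x2 := mul_le_mul (mul_le_mul u s (norm_nonneg _) zero_le_one) f (norm_nonneg _)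
      (by positivity)
    have x3 := mul_le_mul (mul_le_mul u d (norm_nonneg _) zero_le_one) (h.e1 _ ha) (norm_nonneg _)
      (by norm_num)
    linarith
  have x1 := mul_le_mul_of_nonneg_left i e0
  have x2 := mul_le_mul (mul_le_mul (nmm e0 e1 (b0.trans ba).le a1)
    (pow_le_pow_left₀ (norm_nonneg _) i 3) (by positivity) zero_le_two) n (norm_nonneg _)
    (by norm_num)
  have x3 : 10 ≤ 10 / b := (le_div_iff₀ b0).2 (by linarith)
  refine (norm_sub_le _ _).trans ?_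
  simp only [norm_mul, norm_neg, norm_pow, nrm e0, norm_div, norm_one, Complex.norm_ofNat]
  rw [th0] at e1
  rw [add_div, mul_div_assoc]
  linarith

theorem kk_der : HasDerivAt (fun c : ℝ => kk η z e c b) (k1 η z e a b) a := by
  have ha := Sec_real t0 (b0.trans ba) a1
  have p' : (a : ℂ) - b ≠ 0 := by exact_mod_cast (sub_pos.2 ba).ne'
  have de := ((dAt h.de ha).1.hasDerivAt).sub_const (e b)
  have d1 : HasDerivAt (fun u => dd e u b) ((deriv e a - dd e a b) / (a - b)) a :=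
    (de.fun_div ((hasDerivAt_id' (a : ℂ)).sub_const (b : ℂ)) p').congr_deriv (by rw [dd]; field_simp)
  have d2 : HasDerivAt (fun u => nn z e u b) (n1 z e a b) a :=
    (((((hasDerivAt_id' (a : ℂ)).const_sub 1).fun_mul d1).fun_mul
      (de.const_add (2 * z b))).const_sub (z b ^ 2)).congr_deriv (by rw [n1]; ring)
  have d3 := (isq_hasDerivAt (nisq (ndd t0 h b0 ba a1).2.2).1).comp (a : ℂ) d2
  exact ((((((hasDerivAt_id' (a : ℂ)).const_sub 1).const_mul (η : ℂ)).const_add 1).fun_mul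
    d3).congr_deriv (by simp only [k1, mm, Function.comp]; ring)).comp_ofReal

theorem cont2 : ContinuousAt (fun r : ℝ × ℝ => kk η z e r.2 r.1) (b, a) ∧
    ContinuousAt (fun r : ℝ × ℝ => k1 η z e r.2 r.1) (b, a) := by
  have ha := Sec_real t0 (b0.trans ba) a1
  have hb := Sec_real t0 b0 (ba.le.trans a1)
  have p' : (a : ℂ) - b ≠ 0 := by exact_mod_cast (sub_pos.2 ba).ne'
  have c1 : ContinuousAt (fun r : ℝ × ℝ => (r.1 : ℂ)) (b, a) := by fun_prop
  have c2 : ContinuousAt (fun r : ℝ × ℝ => (r.2 : ℂ)) (b, a) := by fun_prop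
  have z1 := (dAt h.dz hb).1.continuousAt.comp_of_eq c1 rfl
  have e1 := (dAt h.de hb).1.continuousAt.comp_of_eq c1 rfl
  have e2 := (dAt h.de ha).1.continuousAt.comp_of_eq c2 rfl
  have e3 := (dAt h.de ha).2.continuousAt.comp_of_eq c2 rfl
  have d : ContinuousAt (fun r : ℝ × ℝ => dd e r.2 r.1) (b, a) := (e2.sub e1).div (c2.sub c1) p'
  have s := (z1.const_mul 2).add (e2.sub e1)
  have u := (continuousAt_const (y := (1 : ℂ))).sub c2
  have n : ContinuousAt (fun r : ℝ × ℝ => nn z e r.2 r.1) (b, a) := (z1.pow 2).sub ((u.mul d).mul s)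
  have n' : ContinuousAt (fun r : ℝ × ℝ => n1 z e r.2 r.1) (b, a) :=
    ((d.mul s).sub ((u.mul ((e3.sub d).div (c2.sub c1) p')).mul s)).sub ((u.mul d).mul e3)
  have i := (isq_hasDerivAt (nisq (ndd t0 h b0 ba a1).2.2).1).continuousAt.comp_of_eq n rfl
  have m : ContinuousAt (fun r : ℝ × ℝ => mm η r.2) (b, a) := by
    unfold mm
    fun_prop
  exact ⟨m.mul i, (i.const_mul _).sub (((m.const_mul _).mul (i.pow 3)).mul n')⟩

theorem kk_ftc (e0 : 0 ≤ η) (e1 : η ≤ th0) (hM : 0 ≤ M) :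
    ∫ c in Ioo b a, k1 η z e c b = kk η z e a b - mm η b * isq (nd z e b) := by
  have hb := Sec_real t0 b0 (ba.le.trans a1)
  rw [← ioo ba.le]
  refine intervalIntegral.integral_eq_sub_of_hasDerivAt_of_tendsto ba
    (fun c hc => kk_der t0 h b0 hc.1 (hc.2.le.trans a1)) ?_ ?_
    ((kk_der (η := η) t0 h b0 ba a1).continuousAt.tendsto.mono_left nhdsWithin_le_nhds)
  · rw [intervalIntegrable_iff_integrableOn_Ioo_of_le ba.le]
    refine Integrable.of_bound (ContinuousOn.aestronglyMeasurable (fun c hc => ?_)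
      measurableSet_Ioo) _ ((ae_restrict_mem measurableSet_Ioo).mono fun c hc =>
        nk1 t0 h b0 hc.1 (hc.2.le.trans a1) e0 e1 hM)
    exact ((cont2 t0 h b0 hc.1 (hc.2.le.trans a1)).2.comp_of_eq (f := fun c => (b, c))
      (by fun_prop) rfl).continuousWithinAt
  · have c0 : Tendsto (fun c : ℝ => (c : ℂ)) (𝓝[>] b) (𝓝 b) :=
      Complex.continuous_ofReal.continuousAt.tendsto.mono_left nhdsWithin_le_nhds
    have d : Tendsto (fun c : ℝ => dd e c b) (𝓝[>] b) (𝓝 (deriv e b)) := by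
      refine ((dAt h.de hb).1.hasDerivAt.tendsto_slope.comp
        (tendsto_nhdsWithin_iff.2 ⟨c0, eventually_mem_nhdsWithin.mono fun c hc =>
          Complex.ofReal_injective.ne (ne_of_gt hc)⟩)).congr fun c => ?_
      rw [Function.comp, slope_def_field, dd]
    have e2 := (dAt h.de hb).1.continuousAt.tendsto.comp c0
    have n : Tendsto (fun c : ℝ => nn z e c b) (𝓝[>] b) (𝓝 (nd z e b)) := by
      have := (((c0.const_sub 1).mul d).mul ((e2.sub_const (e b)).const_add (2 * z b))).const_sub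
        (z b ^ 2)
      rwa [sub_self, add_zero] at this
    exact (((c0.const_sub 1).const_mul (η : ℂ)).const_add 1).mul
      ((isq_hasDerivAt (nisq (nnd t0 h b0 (ba.le.trans a1))).1).continuousAt.tendsto.comp n)

end pair

theorem cff (t0 : 0 < θ) (h : LD θ M A z e w) {b : ℝ} (b0 : 0 < b) (b1 : b ≤ 1) :
    ContinuousAt (fun c : ℝ => ff z w c) b ∧
      ContinuousAt (fun c : ℝ => mm η c * isq (nd z e c)) b := by
  have hb := Sec_real t0 b0 b1
  have c : ContinuousAt (fun c : ℝ => (c : ℂ)) b := by fun_prop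
  have z1 := (dAt h.dz hb).1.continuousAt.comp c
  have u := (continuousAt_const (y := (1 : ℂ))).sub c
  have n : ContinuousAt (fun c : ℝ => nd z e c) b :=
    (z1.pow 2).sub ((u.mul ((dAt h.de hb).2.continuousAt.comp c)).mul (z1.const_mul 2))
  exact ⟨((z1.pow 2).sub (((u.const_mul 2).mul z1).mul ((dAt h.dz hb).2.continuousAt.comp c))).mul
    ((dAt h.dw hb).1.continuousAt.comp c), ((u.const_mul _).const_add 1).mul
      ((isq_hasDerivAt (nisq (nnd t0 h b0 b1)).1).continuousAt.comp_of_eq n rfl)⟩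

theorem NN_eq {a b : ℂ} (h : a - b ≠ 0) : NN z e a b = (a - b) * nn z e a b := by
  simp only [NN, nn, dd]
  field_simp
  ring

end Ab

open Ab

/-- Abel inversion on the real segment -/
theorem abel {θ M A η : ℝ} {z e w : ℂ → ℂ} (t0 : 0 < θ) (t1 : θ ≤ th0) (e0 : 0 ≤ η)
    (e1 : η ≤ th0) (hM : 0 ≤ M) (h : LD θ M A z e w) (rz : Rl z θ) (re : Rl e θ) (rw : Rl w θ)
    {x : ℝ} (hx : x ∈ Ioc (0 : ℝ) 1) :
    (1 + η * (1 - x)) * (gcap z e w x).re = Jr (fun v => (Lcap η z e w v).re) x / Real.pi := by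
  classical
  obtain ⟨x0, x1⟩ := hx
  have A0 := (nff t0 h one_pos le_rfl).1
  obtain ⟨T, hT⟩ : ∃ T : Set (ℝ × ℝ), T = {r | 0 < r.1 ∧ r.1 < r.2 ∧ r.2 ≤ 1} := ⟨_, rfl⟩
  obtain ⟨Φ, hΦ⟩ : ∃ Φ : ℝ × ℝ → ℂ,
      Φ = T.piecewise (fun r => ff z w r.1 * k1 η z e r.2 r.1) fun _ => 0 := ⟨_, rfl⟩
  have eΦ : ∀ b c, 0 < b → b < c → c ≤ 1 → Φ (b, c) = ff z w b * k1 η z e c b := fun b c h1 h2 h3 =>
    hΦ ▸ piecewise_eq_of_mem _ _ _ (hT ▸ ⟨h1, h2, h3⟩)
  have mΦ : Measurable Φ := by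
    rw [hΦ]
    refine ContinuousOn.measurable_piecewise (fun r hr => ?_) continuousOn_const
      (by rw [hT]; measurability)
    rw [hT] at hr
    exact (((cff (η := η) t0 h hr.1 (hr.2.1.le.trans hr.2.2)).1.comp continuousAt_fst).mul
      (cont2 t0 h hr.1 hr.2.1 hr.2.2).2).continuousWithinAt
  have bΦ : ∀ r, ‖Φ r‖ ≤ 2 * A * (10 + 24 * M) := fun r => by
    by_cases hr : r ∈ T
    · rw [hT] at hr
      rw [eΦ r.1 r.2 hr.1 hr.2.1 hr.2.2, norm_mul]
      refine (mul_le_mul (nff t0 h hr.1 (hr.2.1.le.trans hr.2.2)).2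
        (nk1 t0 h hr.1 hr.2.1 hr.2.2 e0 e1 hM) (norm_nonneg _)
        (by have := hr.1; positivity)).trans_eq ?_
      have := hr.1.ne'
      field_simp
    · rw [hΦ, piecewise_eq_of_notMem _ _ _ hr, norm_zero]
      positivity
  have f2 : ∀ v ∈ Ioo 0 x, ‖ff z w v‖ ≤ 2 * A := fun v hv =>
    (nff t0 h hv.1 (hv.2.le.trans x1)).2.trans
      (mul_le_of_le_one_right (by positivity) (hv.2.le.trans x1))
  have iP := wint (f := fun v => ff z w v * (mm η v * isq (nd z e v))) (K := 2 * A * (2 * 2)) x0.le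
    (fun v hv => ((cff (η := η) t0 h hv.1 (hv.2.le.trans x1)).1.mul
      (cff t0 h hv.1 (hv.2.le.trans x1)).2).continuousWithinAt) fun v hv => by
    rw [norm_mul, norm_mul]
    exact mul_le_mul (f2 v hv) (mul_le_mul (nmm e0 e1 hv.1.le (hv.2.le.trans x1))
      (nisq (nnd t0 h hv.1 (hv.2.le.trans x1))).2 (norm_nonneg _) zero_le_two) (by positivity)
      (by positivity)
  have iQ := wint (f := fun v => ff z w v * kk η z e x v) (K := 2 * A * (2 * 2)) x0.le
    (fun v hv => ((cff (η := η) t0 h hv.1 (hv.2.le.trans x1)).1.mul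
      ((cont2 t0 h hv.1 hv.2 x1).1.comp_of_eq (f := fun v => (v, x)) (by fun_prop)
        rfl)).continuousWithinAt) fun v hv => by
    rw [kk, norm_mul, norm_mul]
    exact mul_le_mul (f2 v hv) (mul_le_mul (nmm e0 e1 x0.le x1)
      (nisq (ndd t0 h hv.1 hv.2 x1).2.2).2 (norm_nonneg _) zero_le_two) (by positivity)
      (by positivity)
  obtain ⟨dL, bL⟩ := Lcap_diff t0 t1 e0 e1 hM h
  have iL := wint (f := fun v => Lcap η z e w v) (K := 20 * A * (1 + M)) x0.le
    (fun v hv => ((dAt dL (Sec_real t0 hv.1 (hv.2.le.trans x1))).1.continuousAt.comp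
      Complex.continuous_ofReal.continuousAt).continuousWithinAt) fun v hv =>
    (bL _ (Sec_real t0 hv.1 (hv.2.le.trans x1))).trans (mul_le_of_le_one_right (by positivity)
      (pow_le_one₀ (norm_nonneg _) ((nrm hv.1.le).trans_le (hv.2.le.trans x1))))
  have g : mm η x * gcap z e w x = ∫ v in Ioo 0 x, (1 / √(x - v)) • (ff z w v * kk η z e x v) := by
    rw [sub _ x0.le, gcap, sub_zero, Complex.real_smul, mul_left_comm, ← integral_const_mul]
    refine congrArg _ (setIntegral_congr_fun measurableSet_Ioo fun v hv => ?_)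
    have p : 0 < x - x * v := by nlinarith [hv.2]
    have p' : (x : ℂ) - x * v ≠ 0 := by exact_mod_cast p.ne'
    have n : NN z e x (v * x) = (x - x * v : ℝ) * nn z e x (v * x) := by
      rw [mul_comm (v : ℂ), NN_eq p', Complex.ofReal_sub, Complex.ofReal_mul]
    simp only [n, isq_mul_real p, zero_add, kk, Complex.real_smul, Complex.ofReal_mul,
      mul_comm (x : ℂ)]
    ring
  have k := main (x := x) mΦ bΦ
  rw [setIntegral_congr_fun (g := fun v => (1 / √(x - v)) • Lcap η z e w v -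
      Real.pi • (1 / √(x - v)) • (ff z w v * (mm η v * isq (nd z e v)))) measurableSet_Ioo
      fun a ha => ?_,
    setIntegral_congr_fun (s := Ioo 0 x) (f := fun b => (1 / √(x - b)) • ∫ c in Ioo b x, Φ (b, c))
      (g := fun v => (1 / √(x - v)) • (ff z w v * kk η z e x v) -
      (1 / √(x - v)) • (ff z w v * (mm η v * isq (nd z e v)))) measurableSet_Ioo fun b hb => ?_,
    integral_sub iL (iP.fun_smul Real.pi), integral_sub iQ iP, integral_smul, smul_sub,
    sub_left_inj, ← g] at k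
  · rw [Jr, ioo x0.le, eq_div_iff Real.pi_ne_zero, mul_comm]
    have := congrArg Complex.re k
    rw [← RCLike.re_to_complex, ← integral_re iL] at this
    simp only [RCLike.re_to_complex, Complex.smul_re, smul_eq_mul, one_div_mul_eq_div] at this
    simpa [mm] using this.symm
  · simp only [← smul_sub, ← mul_sub, ← kk_ftc t0 h hb.1 hb.2 x1 e0 e1 hM, ← integral_const_mul]
    exact congrArg _ (setIntegral_congr_fun measurableSet_Ioo fun c hc =>
      eΦ b c hb.1 hc.1 (hc.2.le.trans x1))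
  · simp only [smul_comm Real.pi, ← smul_sub]
    refine congrArg _ ?_
    rw [Lcap, Complex.real_smul, Complex.real_smul, eq_sub_iff_add_eq', ← mul_assoc, ← mul_assoc]
    refine congrArg _ (congrArg _ (setIntegral_congr_fun
      (measurableSet_Ioo.prod measurableSet_Ioo) fun p hp => ?_))
    have q1 := mul_pos (mul_pos hp.2.1 (sub_pos.2 hp.1.2)) ha.1
    have q2 := mul_pos (mul_pos (sub_pos.2 hp.2.2) (sub_pos.2 hp.1.2)) ha.1
    simp only [eΦ _ _ (mul_pos hp.1.1 ha.1) (lt_add_of_pos_right _ q1) (by nlinarith [ha.2]), om,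
      Complex.real_smul]
    push_cast
    ring

theorem Jr_int {f : ℝ → ℝ} {x M : ℝ} (x0 : 0 < x) (hf : ContinuousOn f (Ioo 0 x))
    (hM : ∀ v ∈ Ioo 0 x, |f v| ≤ M) :
    IntervalIntegrable (fun v => f v / Real.sqrt (x - v)) volume 0 x ∧
      |Jr f x| ≤ 2 * M * Real.sqrt x := by
  have b : ∀ᵐ v ∂volume.restrict (Ioo 0 x), ‖f v / √(x - v)‖ ≤ 1 / √(x - v) * M :=
    (ae_restrict_mem measurableSet_Ioo).mono fun v hv => by
      rw [norm_div, Real.norm_of_nonneg (Real.sqrt_nonneg _), one_div_mul_eq_div]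
      exact div_le_div_of_nonneg_right (hM v hv) (Real.sqrt_nonneg _)
  have i := (isqI x0.le).1.mul_const M
  refine ⟨(intervalIntegrable_iff_integrableOn_Ioo_of_le x0.le).2 (i.mono'
    ((hf.aemeasurable measurableSet_Ioo).div (by fun_prop)).aestronglyMeasurable b), ?_⟩
  rw [Jr, ioo x0.le]
  refine (norm_integral_le_of_norm_le i b).trans_eq ?_
  rw [integral_mul_const, (isqI x0.le).2, sub_zero]
  ring

theorem Jr_pow5 : 1 / 100 ≤ Jr (fun v => v ^ 5) 1 := by
  have := intervalIntegral.integral_mono_on_of_le_Ioo zero_le_one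
    (intervalIntegral.intervalIntegrable_pow (n := 5) (μ := volume))
    (Jr_int (f := fun v => v ^ 5) (M := 1) one_pos (by fun_prop) fun v hv => by
      rw [abs_of_pos (pow_pos hv.1 _)]
      exact pow_le_one₀ hv.1.le hv.2.le).1 fun v hv =>
    le_div_self (pow_pos hv.1 _).le (Real.sqrt_pos.2 (sub_pos.2 hv.2))
      (Real.sqrt_le_one.2 (by linarith [hv.1]))
  rw [integral_pow] at this
  exact le_trans (by norm_num) this

/-- Fubini for the Abel integral -/
theorem Jr_swap {f : ℝ × ℝ → ℝ} {x M : ℝ} (x0 : 0 < x)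
    (hf : ContinuousOn f (Icc 0 1 ×ˢ Ioo 0 x)) (hM : ∀ p ∈ Icc (0 : ℝ) 1 ×ˢ Ioo 0 x, |f p| ≤ M) :
    ContinuousOn (fun t => Jr (fun v => f (t, v)) x) (Icc 0 1) ∧
    ∫ t in (0 : ℝ)..1, Jr (fun v => f (t, v)) x = Jr (fun v => ∫ t in (0 : ℝ)..1, f (t, v)) x := by
  have b : ∀ p ∈ Icc (0 : ℝ) 1 ×ˢ Ioo 0 x, ‖f p / √(x - p.2)‖ ≤ M * (1 / √(x - p.2)) := fun p hp => by
    rw [norm_div, Real.norm_of_nonneg (Real.sqrt_nonneg _), mul_one_div]
    exact div_le_div_of_nonneg_right (hM p hp) (Real.sqrt_nonneg _)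
  simp only [Jr, ioo x0.le, ioo zero_le_one, ← integral_div,
    ← integral_Icc_eq_integral_Ioo (x := (0 : ℝ)) (y := 1)]
  refine ⟨continuousOn_of_dominated (fun t ht => ?_) (fun t ht =>
    (ae_restrict_mem measurableSet_Ioo).mono fun v hv => b (t, v) ⟨ht, hv⟩)
    ((isqI x0.le).1.const_mul M) ((ae_restrict_mem measurableSet_Ioo).mono fun v hv =>
      (hf.comp (f := fun t => (t, v)) (by fun_prop) fun t ht => ⟨ht, hv⟩).div_const _),
    integral_integral_swap (((integrable_const M).mul_prod (isqI x0.le).1).mono' ?_ ?_)⟩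
  · exact (((hf.comp (f := fun v => (t, v)) (by fun_prop) fun v hv => ⟨ht, hv⟩).aemeasurable
      measurableSet_Ioo).div (by fun_prop)).aestronglyMeasurable
  all_goals rw [Measure.prod_restrict]
  · exact ((hf.aemeasurable (measurableSet_Icc.prod measurableSet_Ioo)).div
      (Measurable.aemeasurable (by fun_prop))).aestronglyMeasurable
  · exact (ae_restrict_mem (measurableSet_Icc.prod measurableSet_Ioo)).mono b

end Bon3
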