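import Mathlib

/-! Definitions for the counterexample in dimension three (projection and cross-section bodies). -/

open Set Filter Topology MeasureTheory

noncomputable section

namespace Bon3

/-! ### Complex side -/

/-- opening of the first triangle -/
def th0 : ℝ := 1 / 10 ^ 6
/-- the ratio kappa -/
def kap : ℝ := 1 / 30
/-- coarse smallness -/
def del1 : ℝ := 1 / 10 ^ 7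

/-- triangle with vertex `0` that contains `(0,1]` -/
def Sec (θ : ℝ) : Set ℂ := {ξ | |ξ.im| < θ * ξ.re ∧ ξ.re < 1 + θ}

/-- holomorphic along holomorphic curves -/
def HC {P F : Type} [NormedAddCommGroup P] [NormedSpace ℂ P] [NormedAddCommGroup F]
    [NormedSpace ℂ F] (f : P → F) (G : Set P) : Prop :=
  ∀ (γ : ℂ → P) (O : Set ℂ), IsOpen O → DifferentiableOn ℂ γ O → MapsTo γ O G →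
    DifferentiableOn ℂ (fun s => f (γ s)) O

/-- real at the real points of the triangle -/
def Rl (f : ℂ → ℂ) (θ : ℝ) : Prop := ∀ x : ℝ, (x : ℂ) ∈ Sec θ → (f x).im = 0

/-- pairs `(λ, ξ)` -/
def G1 (θ Λ : ℝ) : Set (ℂ × ℂ) := {p | p.2 ∈ Sec θ ∧ ‖p.1‖ * ‖p.2‖ < Λ}
def G2 (θ Λ : ℝ) : Set (ℂ × ℂ) := {p | p.2 ∈ Sec θ ∧ ‖p.1‖ * ‖p.2‖ ^ 2 < Λ}
/-- triples `(λ, ξ, y)` -/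
def G3 (θ Λ r : ℝ) (e : ℂ → ℂ) : Set (ℂ × ℂ × ℂ) :=
  {p | p.2.1 ∈ Sec θ ∧ ‖p.1‖ * ‖p.2.1‖ ^ 2 < Λ ∧ ‖p.2.2 - e p.2.1‖ < r * ‖p.2.1‖}
/-- pairs `(ξ, y)` -/
def Dom (θ r : ℝ) (e : ℂ → ℂ) : Set (ℂ × ℂ) := {p | p.1 ∈ Sec θ ∧ ‖p.2 - e p.1‖ < r * ‖p.1‖}

/-- derivative in the second variable -/
def d2 (f : ℂ × ℂ → ℂ) (p : ℂ × ℂ) : ℂ := deriv (fun ζ => f (p.1, ζ)) p.2
/-- derivative in the first variable -/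
def d1 (f : ℂ × ℂ → ℂ) (p : ℂ × ℂ) : ℂ := deriv (fun l => f (l, p.2)) p.1
/-- real at real pairs of the set -/
def Rl2 (f : ℂ × ℂ → ℂ) (G : Set (ℂ × ℂ)) : Prop :=
  ∀ t x : ℝ, ((t : ℂ), (x : ℂ)) ∈ G → (f (t, x)).im = 0

def isq (z : ℂ) : ℂ := z ^ (-(1 / 2 : ℂ))
def csq (z : ℂ) : ℂ := z ^ (1 / 2 : ℂ)

def mm (η : ℝ) (a : ℂ) : ℂ := 1 + η * (1 - a)
def dd (e : ℂ → ℂ) (a b : ℂ) : ℂ := (e a - e b) / (a - b)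
def nn (z e : ℂ → ℂ) (a b : ℂ) : ℂ :=
  z b ^ 2 - (1 - a) * dd e a b * (2 * z b + (e a - e b))
def n1 (z e : ℂ → ℂ) (a b : ℂ) : ℂ :=
  dd e a b * (2 * z b + (e a - e b))
    - (1 - a) * ((deriv e a - dd e a b) / (a - b)) * (2 * z b + (e a - e b))
    - (1 - a) * dd e a b * deriv e a
def k1 (η : ℝ) (z e : ℂ → ℂ) (a b : ℂ) : ℂ :=
  -η * isq (nn z e a b) - 1 / 2 * mm η a * isq (nn z e a b) ^ 3 * n1 z e a b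
def nd (z e : ℂ → ℂ) (a : ℂ) : ℂ := z a ^ 2 - (1 - a) * deriv e a * (2 * z a)
def ff (z w : ℂ → ℂ) (a : ℂ) : ℂ := (z a ^ 2 - 2 * (1 - a) * z a * deriv z a) * w a
def NN (z e : ℂ → ℂ) (a b : ℂ) : ℂ := (1 - b) * z b ^ 2 - (1 - a) * (z b - e b + e a) ^ 2

/-- first variation of the section area coming from one cap -/
def gcap (z e w : ℂ → ℂ) (ξ : ℂ) : ℂ :=
  ξ * ∫ v in Ioo (0 : ℝ) 1, ff z w (v * ξ) * isq (NN z e ξ (v * ξ))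

/-- its Abel inverse -/
def Lcap (η : ℝ) (z e w : ℂ → ℂ) (ξ : ℂ) : ℂ :=
  (Real.pi : ℂ) * ff z w ξ * mm η ξ * isq (nd z e ξ) +
    ξ * ∫ p in Ioo (0 : ℝ) 1 ×ˢ Ioo (0 : ℝ) 1,
      ff z w (p.1 * ξ) * ((p.2 / Real.sqrt (p.2 * (1 - p.2)) : ℝ) : ℂ) *
        k1 η z e (p.1 * ξ + p.2 * (1 - p.1) * ξ) (p.1 * ξ)

/-- primitive that vanishes at the vertex -/
def prim (f : ℂ → ℂ) (ξ : ℂ) : ℂ := ξ * ∫ v in Ioo (0 : ℝ) 1, f (v * ξ)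

def wm (ρ U w : ℂ → ℂ) (ξ : ℂ) : ℂ :=
  -(ρ ξ * w (U ξ)) + prim (fun ζ => deriv ρ ζ * w (U ζ)) ξ
def ell (U w : ℂ → ℂ) : ℂ := ∫ v in Ioo (0 : ℝ) 1, w (U v)

/-- Abel integral -/
def Jr (f : ℝ → ℝ) (ξ : ℝ) : ℝ := ∫ x in (0 : ℝ)..ξ, f x / Real.sqrt (ξ - x)

/-- crude bounds on Lagrangian data -/
structure LD (θ M A : ℝ) (z e w : ℂ → ℂ) : Prop where
  dz : DifferentiableOn ℂ z (Sec θ)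
  de : DifferentiableOn ℂ e (Sec θ)
  dw : DifferentiableOn ℂ w (Sec θ)
  z0 : ∀ ξ ∈ Sec θ, ‖z ξ - 1‖ ≤ 1 / 20
  z1 : ∀ ξ ∈ Sec θ, ‖deriv z ξ‖ ≤ 1 / 20
  e1 : ∀ ξ ∈ Sec θ, ‖deriv e ξ‖ ≤ 1 / 20
  e2 : ∀ ξ ∈ Sec θ, ‖deriv (deriv e) ξ‖ * ‖ξ‖ ≤ M
  w0 : ∀ ξ ∈ Sec θ, ‖w ξ‖ ≤ A * ‖ξ‖ ^ 4

/-- the same for a family depending on `λ` -/
structure LD2 (θ Λ M A : ℝ) (z e w : ℂ × ℂ → ℂ) : Prop where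
  hz : HC z (G1 θ Λ)
  he : HC e (G1 θ Λ)
  hw : HC w (G1 θ Λ)
  hz1 : HC (d2 z) (G1 θ Λ)
  he1 : HC (d2 e) (G1 θ Λ)
  z0 : ∀ p ∈ G1 θ Λ, ‖z p - 1‖ ≤ 1 / 20
  z1 : ∀ p ∈ G1 θ Λ, ‖d2 z p‖ ≤ 1 / 20
  e1 : ∀ p ∈ G1 θ Λ, ‖d2 e p‖ ≤ 1 / 20
  e2 : ∀ p ∈ G1 θ Λ, ‖d2 (d2 e) p‖ * ‖p.2‖ ≤ M
  w0 : ∀ p ∈ G1 θ Λ, ‖w p‖ ≤ A * ‖p.2‖ ^ 4

/-- slice at fixed `λ` -/
def sl (f : ℂ × ℂ → ℂ) (l : ℂ) : ℂ → ℂ := fun ξ => f (l, ξ)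

/-- hypotheses of the linear problem -/
structure LinHyp (θ η μ0 B : ℝ) (zp zm h ρ U : ℂ → ℂ) : Prop where
  th1 : th0 / 2 ≤ θ
  th2 : θ ≤ th0
  et1 : 0 < η
  et2 : η ≤ th0
  mu : |μ0 - 2 * kap * η| ≤ th0 * η
  hB : B ≤ th0 ^ 2 * η
  dzp : DifferentiableOn ℂ zp (Sec θ)
  dzm : DifferentiableOn ℂ zm (Sec θ)
  dh : DifferentiableOn ℂ h (Sec θ)
  dρ : DifferentiableOn ℂ ρ (Sec θ)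
  dU : DifferentiableOn ℂ U (Sec θ)
  rzp : Rl zp θ
  rzm : Rl zm θ
  rh : Rl h θ
  rρ : Rl ρ θ
  rU : Rl U θ
  zp0 : ∀ ξ ∈ Sec θ, ‖zp ξ - 1‖ ≤ th0
  zm0 : ∀ ξ ∈ Sec θ, ‖zm ξ - 1‖ ≤ th0
  zp1 : ∀ ξ ∈ Sec θ, ‖deriv zp ξ‖ ≤ th0
  zm1 : ∀ ξ ∈ Sec θ, ‖deriv zm ξ‖ ≤ th0
  h1 : ∀ ξ ∈ Sec θ, ‖deriv h ξ + η‖ ≤ B
  h2 : ∀ ξ ∈ Sec θ, ‖deriv (deriv h) ξ‖ ≤ B
  ρ0 : ∀ ξ ∈ Sec θ, ‖ρ ξ - 1‖ ≤ th0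
  ρ1 : ∀ ξ ∈ Sec θ, ‖deriv ρ ξ + (2 + kap) * η‖ ≤ B
  U0 : ∀ ξ ∈ Sec θ, ‖U ξ - ξ - μ0 * ξ * (1 - ξ)‖ ≤ B * ‖ξ‖ ^ 2
  f1 : ∀ ξ ∈ Sec θ, ‖ρ ξ * zm ξ - zp ξ * (1 - kap * η * ξ)‖ ≤ B
  f2 : ∀ ξ ∈ Sec θ, ‖deriv zm ξ * zp ξ - deriv zp ξ * zm ξ - 2 * η‖ ≤ B

/-- `w` solves the modified linear equation with right side `E` and parameter `μ` -/
structure WOK (θ η a μ : ℝ) (zp zm h ρ U E w : ℂ → ℂ) : Prop where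
  dw : DifferentiableOn ℂ w (Sec θ)
  rw : Rl w θ
  w0 : ∀ ξ ∈ Sec θ, ‖w ξ‖ ≤ a * ‖ξ‖ ^ 4
  eq : ∀ ξ ∈ Sec θ, Lcap η zp h w ξ + Lcap η zm (fun ζ => -h ζ) (wm ρ U w) ξ +
    (Real.pi : ℂ) * (1 + kap) * η * ξ ^ 5 * (ell U w - μ) = -E ξ

/-- one cap in Lagrangian form; `e` is the offset of the critical plane -/
structure CapInv (q θ B : ℝ) (u T H e : ℂ → ℂ) (a0 b0 c0 : ℝ) : Prop where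
  du : DifferentiableOn ℂ u (Sec θ)
  dT : DifferentiableOn ℂ T (Sec θ)
  dH : DifferentiableOn ℂ H (Sec θ)
  de : DifferentiableOn ℂ e (Sec θ)
  ru : Rl u θ
  rT : Rl T θ
  rH : Rl H θ
  re : Rl e θ
  u0 : ∀ ξ ∈ Sec θ, ‖u ξ - (1 - ξ)‖ ≤ del1 + B
  u1 : ∀ ξ ∈ Sec θ, ‖deriv u ξ + 1‖ ≤ del1 + B
  up : u 1 = 0
  T0 : ∀ ξ ∈ Sec θ, ‖T ξ - 1‖ ≤ del1 + B
  T1 : ∀ ξ ∈ Sec θ, ‖deriv T ξ - q / 2‖ ≤ q / 16 + B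
  H0 : ∀ ξ ∈ Sec θ, ‖H ξ - 1‖ ≤ del1 + B
  H1 : ∀ ξ ∈ Sec θ, deriv H ξ = -q * (T ξ * deriv u ξ / 2 + u ξ * deriv T ξ)
  e0 : ∀ ξ ∈ Sec θ, ‖e ξ‖ ≤ del1 + B
  ch : ∀ ξ ∈ Sec θ, u ξ * T ξ ^ 2 = (1 - ξ) * (H ξ + e ξ) ^ 2
  vu : ∀ ξ ∈ Sec θ, ‖u ξ - a0‖ ≤ (2 + B) * ‖ξ‖
  vT : ∀ ξ ∈ Sec θ, ‖T ξ - b0‖ ≤ (2 + B) * ‖ξ‖
  vH : ∀ ξ ∈ Sec θ, ‖H ξ - c0‖ ≤ (2 + B) * ‖ξ‖

/-- perturbed cap, functions of `(λ, ζ)` -/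
structure PC (q θ Λ ε A : ℝ) (u T H : ℂ → ℂ) (Tl Hl Wl : ℂ × ℂ → ℂ) : Prop where
  hT : HC Tl (G2 θ Λ)
  hH : HC Hl (G2 θ Λ)
  hW : HC Wl (G2 θ Λ)
  rT : Rl2 Tl (G2 θ Λ)
  rH : Rl2 Hl (G2 θ Λ)
  rW : Rl2 Wl (G2 θ Λ)
  T0 : ∀ p ∈ G2 θ Λ, ‖Tl p - T p.2‖ ≤ ε * ‖p.2‖
  H0 : ∀ p ∈ G2 θ Λ, ‖Hl p - H p.2‖ ≤ q * ε * ‖p.2‖
  W0 : ∀ p ∈ G2 θ Λ, ‖Wl p‖ ≤ A * ‖p.2‖ ^ 4
  Tz : ∀ ξ ∈ Sec θ, Tl (0, ξ) = T ξ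
  Hz : ∀ ξ ∈ Sec θ, Hl (0, ξ) = H ξ
  H1 : ∀ p ∈ G2 θ Λ, d2 Hl p = -q * (Tl p * deriv u p.2 / 2 + u p.2 * d2 Tl p)
  Hl1 : ∀ p ∈ G2 θ Λ, d1 Hl p = q * (Wl p - u p.2 * d1 Tl p)

/-- scaled radicand of the section integral, `p = (λ, ξ, y)` -/
def Nl (u : ℂ → ℂ) (Tl Hl : ℂ × ℂ → ℂ) (p : ℂ × ℂ × ℂ) (ζ : ℂ) : ℂ :=
  u ζ * Tl (p.1, ζ) ^ 2 - (1 - p.2.1) * (Hl (p.1, ζ) + p.2.2) ^ 2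

/-- chord end `φ` and cap part `I` of the criticality integral -/
structure CS (q θ d Λ : ℝ) (u e : ℂ → ℂ) (Tl Hl : ℂ × ℂ → ℂ) (φ I : ℂ × ℂ × ℂ → ℂ) : Prop where
  hφ : HC φ (G3 θ Λ (d / 1000) e)
  hI : HC I (G3 θ Λ (d / 1000) e)
  φ0 : ∀ p ∈ G3 θ Λ (d / 1000) e, ‖φ p - p.2.1‖ ≤ d / 200 * ‖p.2.1‖
  root : ∀ p ∈ G3 θ Λ (d / 1000) e, Nl u Tl Hl p (φ p) = 0
  φz : ∀ ξ ∈ Sec θ, φ (0, ξ, e ξ) = ξ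
  φ1 : ∀ p ∈ G3 θ Λ (d / 1000) e, p.2.1 = 1 → φ p = 1
  I0 : ∀ p ∈ G3 θ Λ (d / 1000) e, ‖I p‖ ≤ 1
  rl : ∀ t x y : ℝ, ((t : ℂ), (x : ℂ), (y : ℂ)) ∈ G3 θ Λ (d / 1000) e →
    (φ (t, x, y)).im = 0 ∧ (I (t, x, y)).im = 0
  lnk : ∀ t x y : ℝ, ((t : ℂ), (x : ℂ), (y : ℂ)) ∈ G3 θ Λ (d / 1000) e → |t| ≤ 2 → x ≤ 1 →
    (φ (t, x, y)).re ∈ Ioc (0 : ℝ) 1 ∧
    (∀ s : ℝ, 0 < s → s < (φ (t, x, y)).re → 0 < (Nl u Tl Hl (t, x, y) s).re) ∧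
    (∀ s : ℝ, (φ (t, x, y)).re ≤ s → s ≤ 1 → (Nl u Tl Hl (t, x, y) s).re ≤ 0) ∧
    (I (t, x, y)).re = ∫ s in (0 : ℝ)..1, ((Hl (t, s)).re + y) /
      Real.sqrt (q * (Nl u Tl Hl (t, x, y) s).re) * (d2 Hl (t, s)).re

/-! ### Real side -/

abbrev E3 := EuclideanSpace ℝ (Fin 3)

/-- body of revolution with squared radius `g` -/
def Body (g : ℝ → ℝ) : Set E3 := {z | z 1 ^ 2 + z 2 ^ 2 ≤ g (z 0)}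
def Ar (g : ℝ → ℝ) (σ y : ℝ) : ℝ := 2 * ∫ x in (-2 : ℝ)..2, Real.sqrt (g x - σ * (x + y) ^ 2)
def Cr (g : ℝ → ℝ) (σ y : ℝ) : ℝ :=
  ∫ x in (-2 : ℝ)..2, (x + y) / Real.sqrt (g x - σ * (x + y) ^ 2)
/-- shadow of the body, in coordinates of the plane of projection -/
def PSet (g : ℝ → ℝ) (S C : ℝ) : Set (ℝ × ℝ) :=
  {p | ∃ x y, y ^ 2 + p.2 ^ 2 ≤ g x ∧ p.1 = S * x + C * y}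
def BrEq (g g' : ℝ → ℝ) : Prop :=
  ∀ S C : ℝ, 0 ≤ S → 0 ≤ C → S ^ 2 + C ^ 2 = 1 → volume (PSet g S C) = volume (PSet g' S C)
/-- admissible profile -/
structure GOK (g : ℝ → ℝ) : Prop where
  cc : ConcaveOn ℝ univ g
  g0 : g 0 = 1
  le : ∀ x, g x ≤ 1
  ng : ∀ x, 3 / 2 ≤ |x| → g x < 0

def proj (K : Set E3) (u : E3) : ENNReal :=
  volume ((fun z => (ℝ ∙ u)ᗮ.orthogonalProjectionOnto z) '' K)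
def sect (K : Set E3) (u : E3) (t : ℝ) : ENNReal :=
  volume {v : (ℝ ∙ u)ᗮ | (v : E3) + t • u ∈ K}

/-- a piece of the profile curve: abscissa `H`, squared radius `X`, `T = -g'/2` -/
structure Pc where
  H : ℝ → ℝ
  X : ℝ → ℝ
  T : ℝ → ℝ
  H' : ℝ → ℝ
  T' : ℝ → ℝ

structure PcOK (p : Pc) : Prop where
  cH : ContinuousOn p.H (Icc 0 1)
  cX : ContinuousOn p.X (Icc 0 1)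
  cT : ContinuousOn p.T (Icc 0 1)
  dH : ∀ s ∈ Ioo (0 : ℝ) 1, HasDerivAt p.H (p.H' s) s
  dX : ∀ s ∈ Ioo (0 : ℝ) 1, HasDerivAt p.X (-2 * p.T s * p.H' s) s
  dT : ∀ s ∈ Ioo (0 : ℝ) 1, HasDerivAt p.T (p.T' s) s
  H1 : ∀ s ∈ Ioo (0 : ℝ) 1, 0 < p.H' s ∧ p.H' s ≤ 3
  T1 : ∀ s ∈ Ioo (0 : ℝ) 1, 0 ≤ p.T' s ∧ p.T' s ≤ 4 * p.H' s
  bH : ∀ s ∈ Icc (0 : ℝ) 1, |p.H s| ≤ 5 / 4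
  bT : ∀ s ∈ Icc (0 : ℝ) 1, |p.T s| ≤ 5 / 4

/-- tangent lines of `g` along a piece -/
def Tg (g : ℝ → ℝ) (p : Pc) : Prop :=
  ∀ s ∈ Icc (0 : ℝ) 1, g (p.H s) = p.X s ∧ ∀ x, g x ≤ p.X s - 2 * p.T s * (x - p.H s)

/-- band `b`, right cap `p`, mirrored left cap `m` fit together -/
structure Fit (b p m : Pc) : Prop where
  ob : PcOK b
  op : PcOK p
  om : PcOK m
  pH : p.H 0 = b.H 1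
  pX : p.X 0 = b.X 1
  pT : p.T 0 = b.T 1
  mH : m.H 0 = -b.H 0
  mX : m.X 0 = b.X 0
  mT : m.T 0 = -b.T 0
  p1 : p.X 1 = 0
  m1 : m.X 1 = 0
  pT0 : 1 / 2 ≤ p.T 0
  mT0 : 1 / 2 ≤ m.T 0
  eqt : ∃ s ∈ Icc (0 : ℝ) 1, b.H s = 0 ∧ b.T s = 0 ∧ b.X s = 1

structure Rep (g : ℝ → ℝ) (b p m : Pc) : Prop where
  fit : Fit b p m
  tb : Tg g b
  tp : Tg g p
  tm : Tg (fun x => g (-x)) m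
  rp : ∀ x, p.H 1 ≤ x → g x = -2 * p.T 1 * (x - p.H 1)
  rm : ∀ x, m.H 1 ≤ x → g (-x) = -2 * m.T 1 * (x - m.H 1)

/-- real trace with prescribed value at the vertex -/
def rc (f : ℂ → ℂ) (f0 : ℝ) (x : ℝ) : ℝ := if x ≤ 0 then f0 else (f x).re

def capOf (q : ℝ) (u T H : ℂ → ℂ) (u0 T0 H0 : ℝ) : Pc where
  H := rc H H0
  X := fun x => q * rc u u0 x * rc T T0 x ^ 2
  T := rc T T0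
  H' := fun x => (deriv H x).re
  T' := fun x => (deriv T x).re

/-! ### The Newton scheme -/

structure Par where
  q : ℝ
  η : ℝ
  μ0 : ℝ
  u0 : ℝ
  Tp0 : ℝ
  Tm0 : ℝ
  Hp0 : ℝ
  Hm0 : ℝ
  band : Pc
  gb : ℝ → ℝ
  Gb : ℝ → ℝ

structure ParOK (P : Par) : Prop where
  et1 : 0 < P.η
  et2 : P.η ≤ P.q
  q1 : P.q ≤ del1
  mu : |P.μ0 - 2 * kap * P.η| ≤ th0 * P.η

structure St where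
  up : ℂ → ℂ
  Tp : ℂ → ℂ
  Hp : ℂ → ℂ
  um : ℂ → ℂ
  Tm : ℂ → ℂ
  Hm : ℂ → ℂ
  h : ℂ → ℂ
  ρ : ℂ → ℂ
  U : ℂ → ℂ
  E : ℂ → ℂ
  Cf : ℂ × ℂ → ℂ
  g : ℝ → ℝ
  s : ℝ

def St.zp (S : St) : ℂ → ℂ := fun ξ => S.Hp ξ + S.h ξ
def St.zm (S : St) : ℂ → ℂ := fun ξ => S.Hm ξ - S.h ξ
def St.cp (P : Par) (S : St) : Pc := capOf P.q S.up S.Tp S.Hp P.u0 P.Tp0 P.Hp0
def St.cm (P : Par) (S : St) : Pc := capOf P.q S.um S.Tm S.Hm P.u0 P.Tm0 P.Hm0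

/-- complex invariants -/
structure InvC (P : Par) (θ d B : ℝ) (S : St) : Prop where
  cp : CapInv P.q θ B S.up S.Tp S.Hp S.h P.u0 P.Tp0 P.Hp0
  cm : CapInv P.q θ B S.um S.Tm S.Hm (fun ξ => -S.h ξ) P.u0 P.Tm0 P.Hm0
  h1 : ∀ ξ ∈ Sec θ, ‖deriv S.h ξ + P.η‖ ≤ B
  h2 : ∀ ξ ∈ Sec θ, ‖deriv (deriv S.h) ξ‖ ≤ B
  dU : DifferentiableOn ℂ S.U (Sec θ)
  rU : Rl S.U θ
  U0 : ∀ ξ ∈ Sec θ, ‖S.U ξ - ξ - P.μ0 * ξ * (1 - ξ)‖ ≤ B * ‖ξ‖ ^ 2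
  Uu : ∀ ξ ∈ Sec θ, S.up (S.U ξ) = S.um ξ
  dρ : DifferentiableOn ℂ S.ρ (Sec θ)
  rρ : Rl S.ρ θ
  ρT : ∀ ξ ∈ Sec θ, S.ρ ξ * S.Tm ξ = S.Tp (S.U ξ)
  ρ1 : ∀ ξ ∈ Sec θ, ‖deriv S.ρ ξ + (2 + kap) * P.η‖ ≤ B
  f1 : ∀ ξ ∈ Sec θ, ‖S.ρ ξ * S.zm ξ - S.zp ξ * (1 - kap * P.η * ξ)‖ ≤ B
  f2 : ∀ ξ ∈ Sec θ, ‖deriv S.zm ξ * S.zp ξ - deriv S.zp ξ * S.zm ξ - 2 * P.η‖ ≤ B
  hC : HC S.Cf (Dom θ (d / 1000) S.h)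
  C0 : ∀ ξ ∈ Sec θ, S.Cf (ξ, S.h ξ) = 0
  C1 : ∀ ξ y y', (ξ, y) ∈ Dom θ (d / 1000) S.h → (ξ, y') ∈ Dom θ (d / 1000) S.h →
    ‖S.Cf (ξ, y) - S.Cf (ξ, y') - (y - y')‖ ≤ (1 / 8 + B) * ‖y - y'‖
  rC : Rl2 S.Cf (Dom θ (d / 1000) S.h)

/-- link with the real body -/
structure InvR (P : Par) (θ d e : ℝ) (S : St) : Prop where
  dE : DifferentiableOn ℂ S.E (Sec θ)
  rE : Rl S.E θ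
  E0 : ∀ ξ ∈ Sec θ, ‖S.E ξ‖ ≤ e * ‖ξ‖ ^ 4
  rep : Rep S.g P.band (S.cp P) (S.cm P)
  br : BrEq S.g P.gb
  lC : ∀ x y : ℝ, ((x : ℂ), (y : ℂ)) ∈ Dom θ (d / 1000) S.h → x ≤ 1 →
    Cr S.g (P.q * (1 - x)) y = Real.pi * (S.Cf (x, y)).re
  lA : ∀ x ∈ Ioc (0 : ℝ) 1,
    (1 + P.η * (1 - x)) * (Ar S.g (P.q * (1 - x)) (S.h x).re - P.Gb x) =
      P.q * Real.sqrt P.q / Real.pi * Jr (fun v => (S.E v).re + S.s * v ^ 5) x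

/-- data of the family `λ ↦ state + λ w` -/
structure Fam where
  Tp : ℂ × ℂ → ℂ
  Hp : ℂ × ℂ → ℂ
  Wp : ℂ × ℂ → ℂ
  Tm : ℂ × ℂ → ℂ
  Hm : ℂ × ℂ → ℂ
  Wm : ℂ × ℂ → ℂ
  φp : ℂ × ℂ × ℂ → ℂ
  Ip : ℂ × ℂ × ℂ → ℂ
  φm : ℂ × ℂ × ℂ → ℂ
  Im : ℂ × ℂ × ℂ → ℂ
  h : ℂ × ℂ → ℂ

/-- criticality function of the family, `p = (λ, ξ, y)` -/
def Cfl (Cf : ℂ × ℂ → ℂ) (Ip Im : ℂ × ℂ × ℂ → ℂ) (p : ℂ × ℂ × ℂ) : ℂ :=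
  Cf p.2 + (Ip p - Ip (0, p.2) - Im (p.1, p.2.1, -p.2.2) + Im (0, p.2.1, -p.2.2)) / Real.pi

/-- the critical offset of the family, and the new criticality function -/
structure HL (θ d Λ L : ℝ) (h : ℂ → ℂ) (Cf : ℂ × ℂ → ℂ) (Ip Im : ℂ × ℂ × ℂ → ℂ)
    (hl : ℂ × ℂ → ℂ) : Prop where
  hh : HC hl (G1 θ Λ)
  rh : Rl2 hl (G1 θ Λ)
  h0 : ∀ p ∈ G1 θ Λ, ‖hl p - h p.2‖ ≤ d / 8000 * ‖p.2‖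
  hz : ∀ ξ ∈ Sec θ, hl (0, ξ) = h ξ
  cr : ∀ p ∈ G1 θ Λ, Cfl Cf Ip Im (p.1, p.2, hl p) = 0
  hC : HC (fun p => Cfl Cf Ip Im (1, p)) (Dom θ (d / 2 / 1000) (sl hl 1))
  rC : Rl2 (fun p => Cfl Cf Ip Im (1, p)) (Dom θ (d / 2 / 1000) (sl hl 1))
  C1 : ∀ ξ y y', (ξ, y) ∈ Dom θ (d / 2 / 1000) (sl hl 1) →
    (ξ, y') ∈ Dom θ (d / 2 / 1000) (sl hl 1) →
    ‖Cfl Cf Ip Im (1, ξ, y) - Cfl Cf Ip Im (1, ξ, y') - (y - y')‖ ≤ L * ‖y - y'‖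

/-- numerical side conditions of one Newton step -/
structure Num (P : Par) (θ d B a : ℝ) : Prop where
  par : ParOK P
  d0 : 0 < d
  d1 : d ≤ th0 / 32
  th1 : th0 / 2 ≤ θ - 8 * d
  th2 : θ ≤ th0
  a0 : 0 < a
  B0 : 0 ≤ B
  hB : B + a / d ^ 12 ≤ th0 ^ 2 * P.η

structure FamOK (P : Par) (θ d B a : ℝ) (S : St) (w : ℂ → ℂ) (F : Fam) : Prop where
  pcp : PC P.q (θ - d) (d ^ 4 / a) (d ^ 2) (a / d ^ 2) S.up S.Tp S.Hp F.Tp F.Hp F.Wp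
  pcm : PC P.q (θ - d) (d ^ 4 / a) (d ^ 2) (a / d ^ 2) S.um S.Tm S.Hm F.Tm F.Hm F.Wm
  Wp : ∀ p, F.Wp p = w p.2
  Wm : ∀ ξ ∈ Sec (θ - d), F.Wm (0, ξ) = wm S.ρ S.U w ξ
  Tp2 : HC (fun p => F.Tp (p.1, S.U p.2)) (G2 (θ - d) (d ^ 4 / a))
  Tp3 : ∀ p ∈ G2 (θ - d) (d ^ 4 / a), ‖F.Tp (p.1, S.U p.2) - S.Tp (S.U p.2)‖ ≤ d ^ 2 * ‖p.2‖
  br : ∀ p ∈ G2 (θ - d) (d ^ 4 / a),
    F.Tm p ^ 2 - S.Tm p.2 ^ 2 = S.Tp (S.U p.2) ^ 2 - F.Tp (p.1, S.U p.2) ^ 2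
  csp : CS P.q (θ - 3 * d) d (d ^ 4 / a / 8) S.up S.h F.Tp F.Hp F.φp F.Ip
  csm : CS P.q (θ - 3 * d) d (d ^ 4 / a / 8) S.um (fun ξ => -S.h ξ) F.Tm F.Hm F.φm F.Im
  hl : HL (θ - 3 * d) d (d ^ 6 / a) (1 / 8 + (B + a / d ^ 12)) S.h S.Cf F.Ip F.Im F.h

def Fam.fp (F : Fam) (p : ℂ × ℂ) : ℂ := F.φp (p.1, p.2, F.h p)
def Fam.fm (F : Fam) (p : ℂ × ℂ) : ℂ := F.φm (p.1, p.2, -F.h p)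
def Fam.zp (F : Fam) (p : ℂ × ℂ) : ℂ := F.Hp (p.1, F.fp p) + F.h p
def Fam.zm (F : Fam) (p : ℂ × ℂ) : ℂ := F.Hm (p.1, F.fm p) - F.h p
def Fam.wp (F : Fam) (p : ℂ × ℂ) : ℂ := F.Wp (p.1, F.fp p)
def Fam.wm (F : Fam) (p : ℂ × ℂ) : ℂ := F.Wm (p.1, F.fm p)
/-- the linearised operator along the family -/
def Fam.L (η : ℝ) (F : Fam) (p : ℂ × ℂ) : ℂ :=
  Lcap η (sl F.zp p.1) (sl F.h p.1) (sl F.wp p.1) p.2 +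
    Lcap η (sl F.zm p.1) (sl (fun r => -F.h r) p.1) (sl F.wm p.1) p.2
/-- the new error -/
def Fam.E (η : ℝ) (F : Fam) (ξ : ℂ) : ℂ := ∫ t in Ioo (0 : ℝ) 1, (F.L η (t, ξ) - F.L η (0, ξ))

/-- the new state -/
def newSt (P : Par) (S : St) (F : Fam) (U : ℂ → ℂ) (g : ℝ → ℝ) (s : ℝ) : St where
  up := fun ξ => S.up (F.fp (1, ξ))
  Tp := fun ξ => F.Tp (1, F.fp (1, ξ))
  Hp := fun ξ => F.Hp (1, F.fp (1, ξ))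
  um := fun ξ => S.um (F.fm (1, ξ))
  Tm := fun ξ => F.Tm (1, F.fm (1, ξ))
  Hm := fun ξ => F.Hm (1, F.fm (1, ξ))
  h := sl F.h 1
  ρ := fun ξ => F.Tp (1, S.U (F.fm (1, ξ))) / F.Tm (1, F.fm (1, ξ))
  U := U
  E := F.E P.η
  Cf := fun p => Cfl S.Cf F.Ip F.Im (1, p)
  g := g
  s := s

/-- caps of the family at a real parameter, in the old parametrisation -/
def Fam.cp (P : Par) (S : St) (F : Fam) (t : ℝ) : Pc :=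
  capOf P.q S.up (sl F.Tp t) (sl F.Hp t) P.u0 P.Tp0 P.Hp0
def Fam.cm (P : Par) (S : St) (F : Fam) (t : ℝ) : Pc :=
  capOf P.q S.um (sl F.Tm t) (sl F.Hm t) P.u0 P.Tm0 P.Hm0

/-- what the real trace of a cap needs -/
structure CapR (q θ : ℝ) (u T H : ℂ → ℂ) (a0 b0 c0 : ℝ) : Prop where
  du : DifferentiableOn ℂ u (Sec θ)
  dT : DifferentiableOn ℂ T (Sec θ)
  dH : DifferentiableOn ℂ H (Sec θ)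
  ru : Rl u θ
  rT : Rl T θ
  rH : Rl H θ
  u0 : ∀ ξ ∈ Sec θ, ‖u ξ - (1 - ξ)‖ ≤ th0
  u1 : ∀ ξ ∈ Sec θ, ‖deriv u ξ + 1‖ ≤ th0
  up : u 1 = 0
  T0 : ∀ ξ ∈ Sec θ, ‖T ξ - 1‖ ≤ th0
  T1 : ∀ ξ ∈ Sec θ, ‖deriv T ξ - q / 2‖ ≤ q / 8
  H0 : ∀ ξ ∈ Sec θ, ‖H ξ - 1‖ ≤ th0
  H1 : ∀ ξ ∈ Sec θ, deriv H ξ = -q * (T ξ * deriv u ξ / 2 + u ξ * deriv T ξ)
  vu : ∀ ξ ∈ Sec θ, ‖u ξ - a0‖ ≤ 3 * ‖ξ‖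
  vT : ∀ ξ ∈ Sec θ, ‖T ξ - b0‖ ≤ 3 * ‖ξ‖
  vH : ∀ ξ ∈ Sec θ, ‖H ξ - c0‖ ≤ 3 * ‖ξ‖

/-- extra facts on the base body -/
structure BaseX (P : Par) : Prop where
  hp : 99 / 100 ≤ P.Hp0
  hm : 99 / 100 ≤ P.Hm0
  mid : ∀ σ ∈ Icc P.q (1 / 20), ∃ y : ℝ, |y| ≤ 1 / 100 ∧ Cr P.gb σ y = 0 ∧
    P.gb P.Hp0 - σ * (P.Hp0 + y) ^ 2 ≤ 0 ∧ P.gb (-P.Hm0) - σ * (-P.Hm0 + y) ^ 2 ≤ 0
  outer : ∀ x, -(1 / 10 ^ 6) ≤ P.gb x → P.gb x + x ^ 2 ≤ 1 + 1 / 10 ^ 5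
  inner : ∀ x, |x| ≤ 1 → 1 - 1 / 10 ^ 5 - x ^ 2 ≤ P.gb x
  top : ∀ x, x ≠ 0 → P.gb x < 1
  asym : ∃ x, |x| ≤ 9 / 10 ∧ P.gb x ≠ P.gb (-x)

end Bon3
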