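import Pool.Agent.Lib.MP_fedf83_gt.PL
import Pool.Agent.Lib.MP_3dbf58_gt.Defs

open Set Filter Topology MeasureTheory Metric

noncomputable section

namespace Bon3

theorem GOK.continuous {g : ℝ → ℝ} (h : GOK g) : Continuous g :=
  continuousOn_univ.1 (h.cc.continuousOn isOpen_univ)

/-- two point form of concavity -/
theorem ara_cc {N : ℝ → ℝ} (hN : ConcaveOn ℝ univ N) (x z θ : ℝ) (h0 : 0 ≤ θ) (h1 : θ ≤ 1) :
    (1 - θ) * N x + θ * N z ≤ N ((1 - θ) * x + θ * z) := by
  have := hN.2 (mem_univ x) (mem_univ z) (sub_nonneg.2 h1) h0 (by ring)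
  simpa [smul_eq_mul] using this

theorem ara_joint {g : ℝ → ℝ} (h : GOK g) {σ : ℝ} (s0 : 0 ≤ σ) (x z y w θ : ℝ) (h0 : 0 ≤ θ)
    (h1 : θ ≤ 1) :
    (1 - θ) * (g x - σ * (x + y) ^ 2) + θ * (g z - σ * (z + w) ^ 2) ≤
      g ((1 - θ) * x + θ * z) - σ * ((1 - θ) * x + θ * z + ((1 - θ) * y + θ * w)) ^ 2 := by
  have h2 := ara_cc h.cc x z θ h0 h1
  have h3 : 0 ≤ σ * (θ * (1 - θ) * ((x + y) - (z + w)) ^ 2) :=
    mul_nonneg s0 (mul_nonneg (mul_nonneg h0 (sub_nonneg.2 h1)) (sq_nonneg _))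
  nlinarith

theorem ara_N_cc {g : ℝ → ℝ} (h : GOK g) {σ : ℝ} (s0 : 0 ≤ σ) (y : ℝ) :
    ConcaveOn ℝ univ (fun x => g x - σ * (x + y) ^ 2) := by
  refine ⟨convex_univ, fun x _ z _ a b ha hb hab => ?_⟩
  have e : a = 1 - b := by linarith
  subst e
  have := ara_joint h s0 x z y y b hb (by linarith)
  have e2 : (1 - b) * y + b * y = y := by ring
  rw [e2] at this
  simpa [smul_eq_mul] using this

theorem ara_N_cont {g : ℝ → ℝ} (h : GOK g) (σ y : ℝ) :
    Continuous (fun x => g x - σ * (x + y) ^ 2) := by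
  have := h.continuous
  fun_prop

theorem ara_N_neg {g : ℝ → ℝ} (h : GOK g) {σ : ℝ} (s0 : 0 ≤ σ) (y x : ℝ) (hx : 3 / 2 ≤ |x|) :
    g x - σ * (x + y) ^ 2 < 0 := by
  have := h.ng x hx
  have : 0 ≤ σ * (x + y) ^ 2 := by positivity
  linarith

/-- beyond a nonpositive value a concave function that is positive at `0` stays below a line -/
theorem ara_beyond {N : ℝ → ℝ} (hN : ConcaveOn ℝ univ N) {b x : ℝ} (hb : 0 < b) (hx : b ≤ x) :
    b * N x ≤ x * N b - (x - b) * N 0 := by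
  have hx0 : 0 < x := hb.trans_le hx
  have h := ara_cc hN 0 x (b / x) (by positivity) ((div_le_one hx0).2 hx)
  have e : (1 - b / x) * 0 + b / x * x = b := by field_simp; ring
  rw [e] at h
  have h2 := mul_le_mul_of_nonneg_left h hx0.le
  have e2 : x * ((1 - b / x) * N 0 + b / x * N x) = (x - b) * N 0 + b * N x := by
    field_simp
  rw [e2] at h2
  linarith

theorem ara_root {N : ℝ → ℝ} (hN : ConcaveOn ℝ univ N) (h0 : 0 < N 0) (h1 : N (3 / 2) < 0) :
    ∃ b : ℝ, ∀ x, 0 ≤ x → 2 / 3 * N 0 * |x - b| ≤ |N x| := by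
  have hc : Continuous N := continuousOn_univ.1 (hN.continuousOn isOpen_univ)
  obtain ⟨b, hb, hb0⟩ : ∃ b ∈ Ioo (0 : ℝ) (3 / 2), N b = 0 :=
    intermediate_value_Ioo' (by norm_num) hc.continuousOn ⟨h1, h0⟩
  refine ⟨b, fun x hx => ?_⟩
  rcases le_total b x with hbx | hbx
  · have h2 := ara_beyond hN hb.1 hbx
    rw [hb0] at h2
    have h3 : 0 ≤ (x - b) * N 0 := mul_nonneg (sub_nonneg.2 hbx) h0.le
    have h4 : N x ≤ 0 := by
      by_contra h5
      have := mul_pos hb.1 (not_le.1 h5)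
      linarith
    rw [abs_of_nonneg (sub_nonneg.2 hbx), abs_of_nonpos h4]
    nlinarith [hb.2]
  · have h := ara_cc hN 0 b (x / b) (div_nonneg hx hb.1.le) ((div_le_one hb.1).2 hbx)
    have e : (1 - x / b) * 0 + x / b * b = x := by field_simp [hb.1.ne']; ring
    rw [e, hb0] at h
    have h2 := mul_le_mul_of_nonneg_left h hb.1.le
    have e2 : b * ((1 - x / b) * N 0 + x / b * 0) = (b - x) * N 0 := by
      field_simp [hb.1.ne']; ring
    rw [e2] at h2
    have h3 : 0 ≤ (b - x) * N 0 := mul_nonneg (sub_nonneg.2 hbx) h0.le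
    have h4 : 0 ≤ N x := by
      by_contra h5
      have := mul_neg_of_pos_of_neg hb.1 (not_le.1 h5)
      linarith
    rw [abs_of_nonpos (sub_nonpos.2 hbx), abs_of_nonneg h4]
    nlinarith [hb.2]

theorem ara_roots {g : ℝ → ℝ} (h : GOK g) {σ y : ℝ} (s0 : 0 ≤ σ) (hp : σ * y ^ 2 < 1) :
    ∃ c a b : ℝ, 0 < c ∧ ∀ x, c * |x - a| ≤ |g x - σ * (x + y) ^ 2| ∨
      c * |x - b| ≤ |g x - σ * (x + y) ^ 2| := by
  set N : ℝ → ℝ := fun x => g x - σ * (x + y) ^ 2 with hN
  have cc : ConcaveOn ℝ univ N := ara_N_cc h s0 y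
  have n0 : 0 < N 0 := by simp only [hN, h.g0, zero_add]; linarith
  have cc' : ConcaveOn ℝ univ (fun x => N (-x)) := by
    refine ⟨convex_univ, fun x _ z _ a b ha hb hab => ?_⟩
    have := cc.2 (mem_univ (-x)) (mem_univ (-z)) ha hb hab
    simp only [smul_eq_mul] at this ⊢
    have e : -(a * x + b * z) = a * -x + b * -z := by ring
    rw [e]; exact this
  obtain ⟨b, hb⟩ := ara_root cc n0 (ara_N_neg h s0 y _ (by rw [abs_of_pos (by norm_num)]))
  obtain ⟨a, ha⟩ := ara_root cc' (by simpa using n0)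
    (ara_N_neg h s0 y _ (by rw [abs_of_neg] <;> norm_num))
  refine ⟨2 / 3 * N 0, -a, b, by positivity, fun x => ?_⟩
  rcases le_total 0 x with hx | hx
  · exact Or.inr (hb x hx)
  · left
    have := ha (-x) (by linarith)
    simp only [neg_zero, neg_neg] at this
    have e : |x - -a| = |-x - a| := by rw [← abs_neg]; congr 1; ring
    rw [e]; exact this

theorem ara_int0 (c : ℝ) : IntervalIntegrable (fun x : ℝ => 1 / Real.sqrt |x|) volume 0 c := by
  have key : ∀ c : ℝ, 0 ≤ c → IntervalIntegrable (fun x : ℝ => 1 / Real.sqrt |x|) volume 0 c := by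
    intro c hc
    have h := intervalIntegral.intervalIntegrable_rpow' (a := 0) (b := c)
      (r := -(1 / 2)) (by norm_num)
    refine h.congr ?_
    rw [uIoc_of_le hc]
    intro x hx
    have hx0 : 0 < x := hx.1
    simp only [abs_of_pos hx0, Real.sqrt_eq_rpow, Real.rpow_neg hx0.le, one_div]
  rcases le_total 0 c with hc | hc
  · exact key c hc
  · have := (IntervalIntegrable.iff_comp_neg (by simp)).1 (key (-c) (by linarith))
    simpa using this

theorem ara_int1 (a u v : ℝ) :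
    IntervalIntegrable (fun x : ℝ => 1 / Real.sqrt |x - a|) volume u v := by
  have h := ((ara_int0 (u - a)).symm.trans (ara_int0 (v - a))).comp_sub_right a
  simpa using h

theorem int_isq {g : ℝ → ℝ} (h : GOK g) {σ y : ℝ} (s0 : 0 ≤ σ) (hp : σ * y ^ 2 < 1) :
    IntervalIntegrable (fun x => 1 / Real.sqrt |g x - σ * (x + y) ^ 2|) volume (-2) 2 := by
  obtain ⟨c, a, b, hc, H⟩ := ara_roots h s0 hp
  have hI := ((ara_int1 a (-2) 2).add (ara_int1 b (-2) 2)).const_mul (1 / Real.sqrt c)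
  have hm : Measurable (fun x => 1 / Real.sqrt |g x - σ * (x + y) ^ 2|) := by
    have := (ara_N_cont h σ y).measurable
    fun_prop
  refine hI.mono_fun' hm.aestronglyMeasurable ?_
  have ha : ∀ᵐ x : ℝ, x ≠ a := by simp [ae_iff]
  have hb : ∀ᵐ x : ℝ, x ≠ b := by simp [ae_iff]
  have key : ∀ (x d n : ℝ), x ≠ d → c * |x - d| ≤ n →
      1 / Real.sqrt n ≤ 1 / Real.sqrt c * (1 / Real.sqrt |x - d|) := by
    intro x d n hx hn
    have h1 : 0 < |x - d| := abs_pos.2 (sub_ne_zero.2 hx)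
    rw [one_div_mul_one_div, ← Real.sqrt_mul hc.le]
    exact one_div_le_one_div_of_le (Real.sqrt_pos.2 (by positivity)) (Real.sqrt_le_sqrt hn)
  refine ae_restrict_of_ae ?_
  filter_upwards [ha, hb] with x hxa hxb
  rw [Real.norm_eq_abs, abs_of_nonneg (by positivity), mul_add]
  have p1 : 0 ≤ 1 / Real.sqrt c * (1 / Real.sqrt |x - a|) := by positivity
  have p2 : 0 ≤ 1 / Real.sqrt c * (1 / Real.sqrt |x - b|) := by positivity
  rcases H x with H | H
  · linarith [key x a _ hxa H]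
  · linarith [key x b _ hxb H]

theorem ara_ne {g : ℝ → ℝ} (h : GOK g) {σ y : ℝ} (s0 : 0 ≤ σ) (hp : σ * y ^ 2 < 1) :
    ∀ᵐ x : ℝ, g x - σ * (x + y) ^ 2 ≠ 0 := by
  obtain ⟨c, a, b, hc, H⟩ := ara_roots h s0 hp
  have ha : ∀ᵐ x : ℝ, x ≠ a := by simp [ae_iff]
  have hb : ∀ᵐ x : ℝ, x ≠ b := by simp [ae_iff]
  filter_upwards [ha, hb] with x hxa hxb h0
  have p1 : 0 < c * |x - a| := mul_pos hc (abs_pos.2 (sub_ne_zero.2 hxa))
  have p2 : 0 < c * |x - b| := mul_pos hc (abs_pos.2 (sub_ne_zero.2 hxb))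
  rcases H x with H | H <;> rw [h0, abs_zero] at H <;> linarith

theorem Cr_int {g : ℝ → ℝ} (h : GOK g) {σ y : ℝ} (s0 : 0 ≤ σ) (hp : σ * y ^ 2 < 1) :
    IntervalIntegrable (fun x => (x + y) / Real.sqrt (g x - σ * (x + y) ^ 2)) volume (-2) 2 := by
  have hI := (int_isq h s0 hp).const_mul (2 + |y|)
  have hm : Measurable (fun x => (x + y) / Real.sqrt (g x - σ * (x + y) ^ 2)) := by
    have := (ara_N_cont h σ y).measurable
    fun_prop
  refine hI.mono_fun' hm.aestronglyMeasurable ?_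
  rw [uIoc_of_le (by norm_num)]
  filter_upwards [ae_restrict_mem measurableSet_Ioc] with x hx
  have h1 : |x + y| ≤ 2 + |y| :=
    (abs_add_le x y).trans (by linarith [abs_le.2 ⟨hx.1.le, hx.2⟩])
  rcases le_total (g x - σ * (x + y) ^ 2) 0 with hn | hn
  · rw [Real.sqrt_eq_zero_of_nonpos hn, div_zero, norm_zero]; positivity
  · rw [Real.norm_eq_abs, abs_div, abs_of_nonneg (Real.sqrt_nonneg _), abs_of_nonneg hn,
      mul_one_div]
    gcongr

theorem ara_sqrt_lip (A B : ℝ) (hB : B ≠ 0) :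
    |Real.sqrt A - Real.sqrt B| ≤ |A - B| * (1 / Real.sqrt |B|) := by
  have hs : 0 < Real.sqrt |B| := Real.sqrt_pos.2 (abs_pos.2 hB)
  rw [mul_one_div, le_div_iff₀ hs]
  rcases lt_or_gt_of_ne hB with hb | hb
  · rw [Real.sqrt_eq_zero_of_nonpos hb.le, sub_zero, abs_of_nonneg (Real.sqrt_nonneg _)]
    rcases le_total A 0 with hA | hA
    · rw [Real.sqrt_eq_zero_of_nonpos hA, zero_mul]; exact abs_nonneg _
    · rw [abs_of_neg hb, abs_of_nonneg (by linarith : 0 ≤ A - B)]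
      have e1 := Real.sq_sqrt hA
      have e2 := Real.sq_sqrt (neg_nonneg.2 hb.le)
      nlinarith [sq_nonneg (Real.sqrt A - Real.sqrt (-B)), Real.sqrt_nonneg A,
        Real.sqrt_nonneg (-B)]
  · rw [abs_of_pos hb] at hs ⊢
    have e2 := Real.sq_sqrt hb.le
    rcases le_total A 0 with hA | hA
    · rw [Real.sqrt_eq_zero_of_nonpos hA, zero_sub, abs_neg, abs_of_pos hs,
        abs_of_nonpos (by linarith : A - B ≤ 0)]
      nlinarith
    · have e1 := Real.sq_sqrt hA
      have e3 : A - B = (Real.sqrt A - Real.sqrt B) * (Real.sqrt A + Real.sqrt B) := by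
        nlinarith
      rw [e3, abs_mul, abs_of_nonneg (by positivity : 0 ≤ Real.sqrt A + Real.sqrt B)]
      gcongr
      linarith [Real.sqrt_nonneg A]

theorem ara_deriv_int {F : ℝ → ℝ → ℝ} {F' bound : ℝ → ℝ} {μ : Measure ℝ} {s : Set ℝ} {t : ℝ}
    (hs : s ∈ 𝓝 t) (hm : ∀ τ ∈ s, AEStronglyMeasurable (F τ) μ) (hi : Integrable (F t) μ)
    (hl : ∀ᵐ a ∂μ, ∀ τ ∈ s, |F τ a - F t a| ≤ bound a * |τ - t|) (hb : Integrable bound μ)
    (hd : ∀ᵐ a ∂μ, HasDerivAt (F · a) (F' a) t) :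
    Integrable F' μ ∧ HasDerivAt (fun τ => ∫ a, F τ a ∂μ) (∫ a, F' a ∂μ) t := by
  classical
  have hF' : AEStronglyMeasurable F' μ := by
    refine aestronglyMeasurable_of_tendsto_ae (𝓝[≠] t)
      (f := fun τ a => if τ ∈ s then (τ - t)⁻¹ * (F τ a - F t a) else 0) (fun τ => ?_) ?_
    · by_cases hτ : τ ∈ s
      · simp only [hτ, if_true]
        exact ((hm τ hτ).sub hi.aestronglyMeasurable).const_mul _
      · simp only [hτ, if_false]
        exact aestronglyMeasurable_const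
    · filter_upwards [hd] with a ha
      refine (hasDerivAt_iff_tendsto_slope.1 ha).congr' ?_
      filter_upwards [mem_nhdsWithin_of_mem_nhds hs] with τ hτ
      simp only [hτ, if_true, slope_def_field]
      rw [div_eq_inv_mul]
  set L : ℝ →L[ℝ] ℝ →L[ℝ] ℝ := ContinuousLinearMap.smulRightL ℝ ℝ ℝ 1 with hL
  have hd' : ∀ᵐ a ∂μ, HasFDerivAt (F · a) (L (F' a)) t := hd.mono fun x hx => hx.hasFDerivAt
  have hm' : AEStronglyMeasurable (fun a => L (F' a)) μ :=
    L.continuous.comp_aestronglyMeasurable hF'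
  obtain ⟨h1, key⟩ := hasFDerivAt_integral_of_dominated_loc_of_lip' (𝕜 := ℝ) hs hm hi hm'
    (by simpa only [Real.norm_eq_abs] using hl) hb hd'
  have h2 : Integrable F' μ := by
    have := (ContinuousLinearMap.apply ℝ ℝ (1 : ℝ)).integrable_comp h1
    simpa [hL] using this
  refine ⟨h2, ?_⟩
  rw [L.integral_comp_comm h2] at key
  simpa [hL] using key.hasDerivAt

/-- derivative of the section area along a curve of profiles and planes -/
theorem hasDerivAt_Ar {g : ℝ → ℝ → ℝ} {y gd : ℝ → ℝ} {σ t y' L : ℝ} (s0 : 0 ≤ σ)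
    (hg : ∀ᶠ τ in 𝓝 t, GOK (g τ)) (hp : σ * y t ^ 2 < 1)
    (lip : ∀ᶠ τ in 𝓝 t, ∀ x ∈ Icc (-2 : ℝ) 2, |g τ x - g t x| ≤ L * |τ - t|)
    (hy : HasDerivAt y y' t)
    (hd : ∀ᵐ x, x ∈ Icc (-2 : ℝ) 2 → 0 < g t x - σ * (x + y t) ^ 2 →
      HasDerivAt (fun τ => g τ x) (gd x) t) :
    IntervalIntegrable (fun x => gd x / Real.sqrt (g t x - σ * (x + y t) ^ 2)) volume (-2) 2 ∧
    HasDerivAt (fun τ => Ar (g τ) σ (y τ))
      ((∫ x in (-2 : ℝ)..2, gd x / Real.sqrt (g t x - σ * (x + y t) ^ 2)) -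
        2 * σ * y' * Cr (g t) σ (y t)) t := by
  have ht : GOK (g t) := hg.self_of_nhds
  have h22 : (-2 : ℝ) ≤ 2 := by norm_num
  obtain ⟨K, hK0, hK⟩ := hy.isBigO_sub.exists_pos
  have hK1 := hK.bound
  have hK2 : ∀ᶠ τ in 𝓝 t, |y τ - y t| ≤ 1 := by
    have := hy.continuousAt.tendsto.eventually (Metric.closedBall_mem_nhds (y t) one_pos)
    filter_upwards [this] with τ hτ
    simpa [Real.dist_eq] using hτ
  set M : ℝ := L + σ * K * (5 + 2 * |y t|) with hM
  have lipN : ∀ᶠ τ in 𝓝 t, ∀ x ∈ Icc (-2 : ℝ) 2,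
      |(g τ x - σ * (x + y τ) ^ 2) - (g t x - σ * (x + y t) ^ 2)| ≤ M * |τ - t| := by
    filter_upwards [lip, hK1, hK2] with τ h1 h2 h3 x hx
    have h4 := h1 x hx
    simp only [Real.norm_eq_abs] at h2
    have e : (g τ x - σ * (x + y τ) ^ 2) - (g t x - σ * (x + y t) ^ 2) =
        (g τ x - g t x) + -(σ * ((y τ - y t) * (2 * x + 2 * y t + (y τ - y t)))) := by ring
    have h5 : |2 * x + 2 * y t + (y τ - y t)| ≤ 5 + 2 * |y t| := by
      have a1 := abs_add_le (2 * x + 2 * y t) (y τ - y t)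
      have a2 := abs_add_le (2 * x) (2 * y t)
      have a3 : |x| ≤ 2 := abs_le.2 hx
      rw [abs_mul, abs_mul, abs_two] at a2
      linarith
    have h6 : |σ * ((y τ - y t) * (2 * x + 2 * y t + (y τ - y t)))| ≤
        σ * (K * |τ - t| * (5 + 2 * |y t|)) := by
      rw [abs_mul, abs_mul, abs_of_nonneg s0]
      gcongr
    rw [e]
    refine (abs_add_le _ _).trans ?_
    rw [abs_neg, hM]
    nlinarith
  have hs := hg.and lipN
  have cI := (intervalIntegrable_iff_integrableOn_Ioc_of_le h22).1 (Cr_int ht s0 hp)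
  have bI := (intervalIntegrable_iff_integrableOn_Ioc_of_le h22).1
    ((int_isq ht s0 hp).const_mul M)
  have main := ara_deriv_int (μ := volume.restrict (Ioc (-2 : ℝ) 2))
    (F := fun τ x => Real.sqrt (g τ x - σ * (x + y τ) ^ 2))
    (F' := fun x => (gd x - σ * (2 * (x + y t) * y')) /
      (2 * Real.sqrt (g t x - σ * (x + y t) ^ 2)))
    (bound := fun x => M * (1 / Real.sqrt |g t x - σ * (x + y t) ^ 2|)) hs
    (fun τ hτ => (ara_N_cont hτ.1 σ (y τ)).sqrt.aestronglyMeasurable)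
    ((intervalIntegrable_iff_integrableOn_Ioc_of_le h22).1
      ((ara_N_cont ht σ (y t)).sqrt.intervalIntegrable _ _)) ?_ bI ?_
  · obtain ⟨m1, m2⟩ := main
    have e : (fun x => gd x / Real.sqrt (g t x - σ * (x + y t) ^ 2)) = fun x =>
        2 * ((gd x - σ * (2 * (x + y t) * y')) / (2 * Real.sqrt (g t x - σ * (x + y t) ^ 2))) +
          2 * σ * y' * ((x + y t) / Real.sqrt (g t x - σ * (x + y t) ^ 2)) := by
      funext x
      by_cases h0 : Real.sqrt (g t x - σ * (x + y t) ^ 2) = 0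
      · simp [h0]
      · field_simp
        ring
    refine ⟨?_, ?_⟩
    · rw [e]
      exact (intervalIntegrable_iff_integrableOn_Ioc_of_le h22).2
        ((m1.const_mul 2).add (cI.const_mul _))
    · have m3 := m2.const_mul 2
      simp only [Ar, Cr, intervalIntegral.integral_of_le h22]
      refine m3.congr_deriv ?_
      rw [e, integral_add (m1.const_mul 2) (cI.const_mul _), integral_const_mul,
        integral_const_mul]
      ring
  · filter_upwards [ae_restrict_mem measurableSet_Ioc, ae_restrict_of_ae (ara_ne ht s0 hp)]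
      with x hx h0 τ hτ
    refine (ara_sqrt_lip _ _ h0).trans ?_
    have := hτ.2 x (Ioc_subset_Icc_self hx)
    calc _ ≤ M * |τ - t| * (1 / Real.sqrt |g t x - σ * (x + y t) ^ 2|) := by gcongr
      _ = _ := by ring
  · filter_upwards [ae_restrict_mem measurableSet_Ioc, ae_restrict_of_ae (ara_ne ht s0 hp),
      ae_restrict_of_ae hd] with x hx h0 h1
    rcases lt_or_gt_of_ne h0 with hn | hn
    · rw [Real.sqrt_eq_zero_of_nonpos hn.le, mul_zero, div_zero]
      have hc : Tendsto (fun τ => M * |τ - t|) (𝓝 t) (𝓝 0) := by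
        have : Continuous (fun τ : ℝ => M * |τ - t|) := by fun_prop
        simpa using this.tendsto t
      refine (hasDerivAt_const t (0 : ℝ)).congr_of_eventuallyEq ?_
      filter_upwards [lipN, hc.eventually (gt_mem_nhds (neg_pos.2 hn))] with τ a1 a2
      have a3 := (abs_le.1 (a1 x (Ioc_subset_Icc_self hx))).2
      exact Real.sqrt_eq_zero_of_nonpos (by linarith)
    · have d1 := h1 (Ioc_subset_Icc_self hx) hn
      have d2 : HasDerivAt (fun τ => σ * (x + y τ) ^ 2) (σ * (2 * (x + y t) * y')) t := by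
        have := ((hy.const_add x).fun_pow 2).const_mul σ
        simpa using this
      exact (d1.fun_sub d2).sqrt h0

theorem ara_sq_int {g : ℝ → ℝ} (h : GOK g) {σ : ℝ} (s0 : 0 ≤ σ) (y : ℝ) :
    ∫⁻ x, ENNReal.ofReal (Real.sqrt (g x - σ * (x + y) ^ 2)) =
      ENNReal.ofReal (∫ x in (-2 : ℝ)..2, Real.sqrt (g x - σ * (x + y) ^ 2)) := by
  have hz : ∀ x, x ∉ Ioc (-2 : ℝ) 2 → Real.sqrt (g x - σ * (x + y) ^ 2) = 0 := by
    intro x hx
    refine Real.sqrt_eq_zero_of_nonpos (ara_N_neg h s0 y x ?_).le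
    by_contra h1
    have := abs_lt.1 (not_le.1 h1)
    exact hx ⟨by linarith, by linarith⟩
  have hi : Integrable (fun x => Real.sqrt (g x - σ * (x + y) ^ 2)) :=
    ((intervalIntegrable_iff_integrableOn_Ioc_of_le (by norm_num : (-2 : ℝ) ≤ 2)).1
      ((ara_N_cont h σ y).sqrt.intervalIntegrable _ _)).integrable_of_forall_notMem_eq_zero hz
  rw [intervalIntegral.integral_eq_integral_of_support_subset
    (fun x hx => by by_contra h1; exact hx (hz x h1)),
    ofReal_integral_eq_lintegral_ofReal hi (ae_of_all _ fun x => Real.sqrt_nonneg _)]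

theorem ara_nonneg (g : ℝ → ℝ) (σ y : ℝ) :
    0 ≤ ∫ x in (-2 : ℝ)..2, Real.sqrt (g x - σ * (x + y) ^ 2) :=
  intervalIntegral.integral_nonneg (by norm_num) fun _ _ => Real.sqrt_nonneg _

theorem ara_logcc {g : ℝ → ℝ} (h : GOK g) {σ : ℝ} (s0 : 0 ≤ σ) (y w θ : ℝ) (h0 : 0 < θ)
    (h1 : θ < 1) :
    (∫ x in (-2 : ℝ)..2, Real.sqrt (g x - σ * (x + y) ^ 2)) ^ (1 - θ) *
      (∫ x in (-2 : ℝ)..2, Real.sqrt (g x - σ * (x + w) ^ 2)) ^ θ ≤
      ∫ x in (-2 : ℝ)..2, Real.sqrt (g x - σ * (x + ((1 - θ) * y + θ * w)) ^ 2) := by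
  have h2 : 0 < 1 - θ := by linarith
  have mm : ∀ y : ℝ, Measurable fun x => ENNReal.ofReal (Real.sqrt (g x - σ * (x + y) ^ 2)) :=
    fun y => (ara_N_cont h σ y).sqrt.measurable.ennreal_ofReal
  have key := Pool.Agent.Lib.MP_fedf83_gt.B.pl_real θ h0 h1 _ _ _ (mm y) (mm w)
    (mm ((1 - θ) * y + θ * w)) (fun x z => by
      simp only [smul_eq_mul]
      rcases le_total (g x - σ * (x + y) ^ 2) 0 with a1 | a1
      · rw [Real.sqrt_eq_zero_of_nonpos a1, ENNReal.ofReal_zero, ENNReal.zero_rpow_of_pos h2,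
          zero_mul]
        exact zero_le
      rcases le_total (g z - σ * (z + w) ^ 2) 0 with a2 | a2
      · rw [Real.sqrt_eq_zero_of_nonpos a2, ENNReal.ofReal_zero, ENNReal.zero_rpow_of_pos h0,
          mul_zero]
        exact zero_le
      rw [ENNReal.ofReal_rpow_of_nonneg (Real.sqrt_nonneg _) h2.le,
        ENNReal.ofReal_rpow_of_nonneg (Real.sqrt_nonneg _) h0.le,
        ← ENNReal.ofReal_mul (by positivity)]
      refine ENNReal.ofReal_le_ofReal ?_
      refine (Real.geom_mean_le_arith_mean2_weighted h2.le h0.le (Real.sqrt_nonneg _)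
        (Real.sqrt_nonneg _) (by ring)).trans ?_
      have a3 := Real.strictConcaveOn_sqrt.concaveOn.2 (mem_Ici.2 a1) (mem_Ici.2 a2) h2.le h0.le
        (by ring)
      simp only [smul_eq_mul] at a3
      exact a3.trans (Real.sqrt_le_sqrt (ara_joint h s0 x z y w θ h0.le h1.le)))
  rw [ara_sq_int h s0, ara_sq_int h s0, ara_sq_int h s0,
    ENNReal.ofReal_rpow_of_nonneg (ara_nonneg _ _ _) h2.le,
    ENNReal.ofReal_rpow_of_nonneg (ara_nonneg _ _ _) h0.le,
    ← ENNReal.ofReal_mul (Real.rpow_nonneg (ara_nonneg _ _ _) _)] at key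
  exact (ENNReal.ofReal_le_ofReal_iff (ara_nonneg _ _ _)).1 key

theorem ara_pos {g : ℝ → ℝ} (h : GOK g) {σ y : ℝ} (hp : σ * y ^ 2 < 1) :
    0 < ∫ x in (-2 : ℝ)..2, Real.sqrt (g x - σ * (x + y) ^ 2) := by
  refine intervalIntegral.integral_pos (by norm_num) (ara_N_cont h σ y).sqrt.continuousOn
    (fun x _ => Real.sqrt_nonneg _) ⟨0, by constructor <;> norm_num, ?_⟩
  refine Real.sqrt_pos.2 ?_
  rw [h.g0, zero_add]
  linarith

/-- a critical plane is a maximal plane -/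
theorem crit_max {g : ℝ → ℝ} (h : GOK g) {σ y : ℝ} (s0 : 0 ≤ σ) (hp : σ * y ^ 2 < 1)
    (hc : Cr g σ y = 0) (y' : ℝ) : Ar g σ y' ≤ Ar g σ y := by
  by_contra hlt
  rw [not_le] at hlt
  have hy : HasDerivAt (fun θ : ℝ => (1 - θ) * y + θ * y') (y' - y) 0 := by
    have := (((hasDerivAt_id (0 : ℝ)).const_sub 1).mul_const y).add
      ((hasDerivAt_id (0 : ℝ)).mul_const y')
    exact this.congr_deriv (by ring)
  have hD := (hasDerivAt_Ar (g := fun _ => g) (y := fun θ : ℝ => (1 - θ) * y + θ * y')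
    (gd := fun _ => 0) (σ := σ) (t := 0) (L := 0) s0 (Eventually.of_forall fun _ => h)
    (by simpa using hp) (Eventually.of_forall fun _ x _ => by simp) hy
    (ae_of_all _ fun x _ _ => hasDerivAt_const _ _)).2
  simp only [zero_div, intervalIntegral.integral_zero, sub_zero, one_mul, zero_mul, add_zero, hc,
    mul_zero] at hD
  set A : ℝ := ∫ x in (-2 : ℝ)..2, Real.sqrt (g x - σ * (x + y) ^ 2) with hA
  set B : ℝ := ∫ x in (-2 : ℝ)..2, Real.sqrt (g x - σ * (x + y') ^ 2) with hB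
  have A0 : 0 < A := ara_pos h hp
  have AB : A < B := by
    simp only [Ar] at hlt
    linarith
  have hr : 0 < Real.log (B / A) := Real.log_pos ((one_lt_div A0).2 AB)
  have low : ∀ θ : ℝ, 0 < θ → θ < 1 →
      2 * A + θ * (2 * A * Real.log (B / A)) ≤ Ar g σ ((1 - θ) * y + θ * y') := by
    intro θ h0 h1
    have k := ara_logcc h s0 y y' θ h0 h1
    rw [← hA, ← hB] at k
    have e : A ^ (1 - θ) * B ^ θ = A * (B / A) ^ θ := by
      rw [Real.div_rpow (A0.le.trans AB.le) A0.le, Real.rpow_sub A0, Real.rpow_one]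
      ring
    have e2 : 1 + θ * Real.log (B / A) ≤ (B / A) ^ θ := by
      rw [Real.rpow_def_of_pos (div_pos (A0.trans AB) A0)]
      have := Real.add_one_le_exp (Real.log (B / A) * θ)
      linarith
    have e3 := mul_le_mul_of_nonneg_left e2 A0.le
    simp only [Ar]
    rw [e] at k
    linarith
  have hs := (hasDerivAt_iff_tendsto_slope_zero.1 hD).mono_left
    (nhdsWithin_mono _ (fun x (hx : x ∈ Ioi (0 : ℝ)) => (ne_of_gt hx : x ≠ 0)))
  have hpos : 0 < 2 * A * Real.log (B / A) := by positivity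
  have : 2 * A * Real.log (B / A) ≤ 0 := by
    refine ge_of_tendsto hs ?_
    filter_upwards [Ioo_mem_nhdsGT (zero_lt_one : (0 : ℝ) < 1)] with θ hθ
    have := low θ hθ.1 hθ.2
    simp only [zero_add, sub_zero, one_mul, zero_mul, add_zero, smul_eq_mul]
    have e : Ar g σ y = 2 * A := rfl
    rw [e, ← div_eq_inv_mul, le_div_iff₀ hθ.1]
    linarith
  linarith

theorem ara_sqrt_hol (A B : ℝ) : |Real.sqrt A - Real.sqrt B| ≤ Real.sqrt |A - B| := by
  have key : ∀ A B : ℝ, Real.sqrt A - Real.sqrt B ≤ Real.sqrt |A - B| := by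
    intro A B
    rw [sub_le_iff_le_add]
    refine Real.sqrt_le_iff.2 ⟨by positivity, ?_⟩
    have e1 := Real.sq_sqrt (abs_nonneg (A - B))
    have e2 : B ≤ Real.sqrt B ^ 2 := by
      rcases le_total 0 B with hB | hB
      · rw [Real.sq_sqrt hB]
      · exact hB.trans (sq_nonneg _)
    have e3 := le_abs_self (A - B)
    have e4 : 0 ≤ Real.sqrt |A - B| * Real.sqrt B := by positivity
    nlinarith
  refine abs_le.2 ⟨?_, key A B⟩
  have := key B A
  rw [abs_sub_comm] at this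
  linarith

theorem Ar_close {g g' : ℝ → ℝ} (h : GOK g) (h' : GOK g') {δ : ℝ}
    (hc : ∀ x, |x| ≤ 2 → |g x - g' x| ≤ δ) (σ y : ℝ) :
    |Ar g σ y - Ar g' σ y| ≤ 8 * Real.sqrt δ := by
  simp only [Ar]
  rw [← mul_sub, ← intervalIntegral.integral_sub
    ((ara_N_cont h σ y).sqrt.intervalIntegrable _ _)
    ((ara_N_cont h' σ y).sqrt.intervalIntegrable _ _), abs_mul, abs_two]
  have := intervalIntegral.norm_integral_le_of_norm_le_const (a := -2) (b := 2)
    (C := Real.sqrt δ)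
    (f := fun x => Real.sqrt (g x - σ * (x + y) ^ 2) - Real.sqrt (g' x - σ * (x + y) ^ 2))
    (fun x hx => by
      rw [uIoc_of_le (by norm_num)] at hx
      refine (ara_sqrt_hol _ _).trans (Real.sqrt_le_sqrt ?_)
      have := hc x (abs_le.2 ⟨hx.1.le, hx.2⟩)
      simpa using this)
  rw [Real.norm_eq_abs] at this
  norm_num at this
  linarith

theorem ara_out {g : ℝ → ℝ} (h : GOK g) {a b σ y : ℝ} (s0 : 0 ≤ σ)
    (hp : σ * y ^ 2 < 1) (ha : a < 0) (hb : 0 < b)
    (na : g a - σ * (a + y) ^ 2 ≤ 0) (nb : g b - σ * (b + y) ^ 2 ≤ 0) (x : ℝ) (hx : x ∉ Icc a b) :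
    Real.sqrt (g x - σ * (x + y) ^ 2) = 0 := by
  set N : ℝ → ℝ := fun x => g x - σ * (x + y) ^ 2 with hN
  have cc : ConcaveOn ℝ univ N := ara_N_cc h s0 y
  have n0 : 0 < N 0 := by simp only [hN, h.g0, zero_add]; linarith
  have cc' : ConcaveOn ℝ univ (fun x => N (-x)) := by
    refine ⟨convex_univ, fun x _ z _ a b ha hb hab => ?_⟩
    have := cc.2 (mem_univ (-x)) (mem_univ (-z)) ha hb hab
    simp only [smul_eq_mul] at this ⊢
    have e : -(a * x + b * z) = a * -x + b * -z := by ring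
    rw [e]; exact this
  refine Real.sqrt_eq_zero_of_nonpos (?_ : N x ≤ 0)
  by_contra hpos
  rw [not_le] at hpos
  rw [mem_Icc, not_and_or, not_le, not_le] at hx
  rcases hx with hx | hx
  · have k := ara_beyond cc' (b := -a) (x := -x) (by linarith) (by linarith)
    simp only [neg_neg, neg_zero] at k
    have na' : N a ≤ 0 := na
    have p1 : 0 < -a * N x := mul_pos (by linarith) hpos
    have p2 : -x * N a ≤ 0 := mul_nonpos_of_nonneg_of_nonpos (by linarith) na'
    have p3 : 0 ≤ (-x - -a) * N 0 := mul_nonneg (by linarith) n0.le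
    linarith
  · have k := ara_beyond cc hb hx.le
    have nb' : N b ≤ 0 := nb
    have p1 : 0 < b * N x := mul_pos hb hpos
    have p2 : x * N b ≤ 0 := mul_nonpos_of_nonneg_of_nonpos (by linarith) nb'
    have p3 : 0 ≤ (x - b) * N 0 := mul_nonneg (by linarith) n0.le
    linarith

/-- planes whose chord stays in the common band -/
theorem Ar_band {g g' : ℝ → ℝ} (h : GOK g) (h' : GOK g') {a b σ y : ℝ} (s0 : 0 ≤ σ)
    (hp : σ * y ^ 2 < 1) (ha : a < 0) (hb : 0 < b) (eq : ∀ x ∈ Icc a b, g x = g' x)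
    (na : g a - σ * (a + y) ^ 2 ≤ 0) (nb : g b - σ * (b + y) ^ 2 ≤ 0) :
    Ar g σ y = Ar g' σ y ∧ Cr g σ y = Cr g' σ y := by
  have hab : a ≤ b := by linarith
  have key : ∀ x, Real.sqrt (g x - σ * (x + y) ^ 2) = Real.sqrt (g' x - σ * (x + y) ^ 2) := by
    intro x
    by_cases hx : x ∈ Icc a b
    · rw [eq x hx]
    · rw [ara_out h s0 hp ha hb na nb x hx, ara_out h' s0 hp ha hb
        (by rwa [← eq a (left_mem_Icc.2 hab)]) (by rwa [← eq b (right_mem_Icc.2 hab)]) x hx]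
  simp only [Ar, Cr, key, and_self]

theorem GOK.limit {g : ℕ → ℝ → ℝ} {g' : ℝ → ℝ} (h : ∀ n, GOK (g n))
    (hl : ∀ x, Tendsto (fun n => g n x) atTop (𝓝 (g' x))) (ng : ∀ x, |x| = 3 / 2 → g' x < 0) :
    GOK g' := by
  have cc : ConcaveOn ℝ univ g' := by
    refine ⟨convex_univ, fun x _ z _ a b ha hb hab => ?_⟩
    exact le_of_tendsto_of_tendsto' (((hl x).const_smul a).add ((hl z).const_smul b))
      (hl (a • x + b • z)) fun n => (h n).cc.2 (mem_univ x) (mem_univ z) ha hb hab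
  have g0 : g' 0 = 1 := by
    have := hl 0
    simp only [fun n => (h n).g0] at this
    exact tendsto_nhds_unique this tendsto_const_nhds
  refine ⟨cc, g0, fun x => le_of_tendsto' (hl x) fun n => (h n).le x, fun x hx => ?_⟩
  have cc' : ConcaveOn ℝ univ (fun x => g' (-x)) := by
    refine ⟨convex_univ, fun x _ z _ a b ha hb hab => ?_⟩
    have := cc.2 (mem_univ (-x)) (mem_univ (-z)) ha hb hab
    simp only [smul_eq_mul] at this ⊢
    have e : -(a * x + b * z) = a * -x + b * -z := by ring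
    rw [e]; exact this
  rcases le_abs.1 hx with hx | hx
  · have k := ara_beyond cc (by norm_num : (0 : ℝ) < 3 / 2) hx
    have n1 := ng (3 / 2) (by rw [abs_of_pos]; norm_num)
    rw [g0] at k
    nlinarith
  · have k := ara_beyond cc' (by norm_num : (0 : ℝ) < 3 / 2) hx
    have n1 := ng (-(3 / 2)) (by rw [abs_neg, abs_of_pos]; norm_num)
    simp only [neg_neg, neg_zero, g0] at k
    nlinarith

end Bon3
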