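import Pool.Agent.Lib.MP_3dbf58_gt.Defs

open Set Filter Topology MeasureTheory Metric

noncomputable section

namespace Bon3

theorem rl_mono {f f' : ℝ → ℝ} (hc : ContinuousOn f (Icc 0 1))
    (hd : ∀ s ∈ Ioo (0 : ℝ) 1, HasDerivAt f (f' s) s) {a b : ℝ} (ha : a ∈ Icc (0 : ℝ) 1)
    (hb : b ∈ Icc (0 : ℝ) 1) (hab : a ≤ b) (h0 : ∀ s ∈ Ioo a b, 0 ≤ f' s) : f a ≤ f b := by
  rcases hab.eq_or_lt with h | h
  · rw [h]
  obtain ⟨ξ, hξ, e⟩ := exists_hasDerivAt_eq_slope f f' h (hc.mono (Icc_subset_Icc ha.1 hb.2))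
    fun x hx => hd x ⟨ha.1.trans_lt hx.1, hx.2.trans_le hb.2⟩
  have := h0 ξ hξ
  rw [e, le_div_iff₀ (sub_pos.2 h)] at this
  linarith

theorem PcOK.mono {p : Pc} (h : PcOK p) : StrictMonoOn p.H (Icc 0 1) := by
  refine strictMonoOn_of_deriv_pos (convex_Icc 0 1) h.cH fun x hx => ?_
  rw [interior_Icc] at hx
  rw [(h.dH x hx).deriv]
  exact (h.H1 x hx).1

theorem PcOK.monoT {p : Pc} (h : PcOK p) : MonotoneOn p.T (Icc 0 1) := fun _ ha _ hb hab =>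
  rl_mono h.cT h.dT ha hb hab fun s hs => (h.T1 s ⟨ha.1.trans_lt hs.1, hs.2.trans_le hb.2⟩).1

/-- order relation between two contact elements -/
def RlOrd (h x t h' x' t' : ℝ) : Prop :=
  h ≤ h' ∧ t ≤ t' ∧ t' - t ≤ 4 * (h' - h) ∧ x' ≤ x - 2 * t * (h' - h) ∧ x ≤ x' + 2 * t' * (h' - h)

theorem RlOrd.trans {h x t h' x' t' h'' x'' t'' : ℝ} (a : RlOrd h x t h' x' t')
    (b : RlOrd h' x' t' h'' x'' t'') : RlOrd h x t h'' x'' t'' := by
  obtain ⟨a1, a2, a3, a4, a5⟩ := a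
  obtain ⟨b1, b2, b3, b4, b5⟩ := b
  refine ⟨a1.trans b1, a2.trans b2, by linarith, ?_, ?_⟩
  · nlinarith [mul_nonneg (sub_nonneg.2 a2) (sub_nonneg.2 b1)]
  · nlinarith [mul_nonneg (sub_nonneg.2 b2) (sub_nonneg.2 a1)]

theorem RlOrd.neg {h x t h' x' t' : ℝ} (a : RlOrd h x t h' x' t') :
    RlOrd (-h') x' (-t') (-h) x (-t) := by
  obtain ⟨a1, a2, a3, a4, a5⟩ := a
  exact ⟨by linarith, by linarith, by linarith, by linarith, by linarith⟩

theorem RlOrd.tan {h x t h' x' t' : ℝ} (a : RlOrd h x t h' x' t' ∨ RlOrd h' x' t' h x t) :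
    x' ≤ x - 2 * t * (h' - h) ∧ x - 2 * t * (h' - h) - x' ≤ 8 * (h' - h) ^ 2 := by
  rcases a with ⟨a1, a2, a3, a4, a5⟩ | ⟨a1, a2, a3, a4, a5⟩
  · exact ⟨a4, by nlinarith [mul_le_mul_of_nonneg_right a3 (sub_nonneg.2 a1)]⟩
  · exact ⟨by linarith, by nlinarith [mul_le_mul_of_nonneg_right a3 (sub_nonneg.2 a1)]⟩

theorem PcOK.ord {p : Pc} (h : PcOK p) {a b : ℝ} (ha : a ∈ Icc (0 : ℝ) 1) (hb : b ∈ Icc (0 : ℝ) 1)
    (hab : a ≤ b) : RlOrd (p.H a) (p.X a) (p.T a) (p.H b) (p.X b) (p.T b) := by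
  have hI : ∀ s ∈ Ioo a b, s ∈ Ioo (0 : ℝ) 1 := fun s hs => ⟨ha.1.trans_lt hs.1, hs.2.trans_le hb.2⟩
  refine ⟨h.mono.monotoneOn ha hb hab, h.monoT ha hb hab, ?_, ?_, ?_⟩
  · have := rl_mono (f := fun s => 4 * p.H s - p.T s) (f' := fun s => 4 * p.H' s - p.T' s)
      ((continuousOn_const.mul h.cH).sub h.cT)
      (fun s hs => ((h.dH s hs).const_mul 4).sub (h.dT s hs)) ha hb hab
      (fun s hs => sub_nonneg.2 (h.T1 s (hI s hs)).2)
    linarith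
  · have := rl_mono (f := fun s => -p.X s - 2 * p.T a * p.H s)
      (f' := fun s => -(-2 * p.T s * p.H' s) - 2 * p.T a * p.H' s)
      (h.cX.neg.sub (continuousOn_const.mul h.cH))
      (fun s hs => (h.dX s hs).neg.sub ((h.dH s hs).const_mul _)) ha hb hab
      (fun s hs => by
        have h1 := h.monoT ha (Ioo_subset_Icc_self (hI s hs)) hs.1.le
        nlinarith [mul_nonneg (sub_nonneg.2 h1) (h.H1 s (hI s hs)).1.le])
    linarith
  · have := rl_mono (f := fun s => p.X s + 2 * p.T b * p.H s)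
      (f' := fun s => -2 * p.T s * p.H' s + 2 * p.T b * p.H' s)
      (h.cX.add (continuousOn_const.mul h.cH))
      (fun s hs => (h.dX s hs).add ((h.dH s hs).const_mul _)) ha hb hab
      (fun s hs => by
        have h1 := h.monoT (Ioo_subset_Icc_self (hI s hs)) hb hs.2.le
        nlinarith [mul_nonneg (sub_nonneg.2 h1) (h.H1 s (hI s hs)).1.le])
    linarith

/-- contact elements of the three pieces -/
def RlPt (b p m : Pc) (h x t : ℝ) : Prop :=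
  ∃ s ∈ Icc (0 : ℝ) 1, (h = b.H s ∧ x = b.X s ∧ t = b.T s) ∨ (h = p.H s ∧ x = p.X s ∧ t = p.T s) ∨
    (h = -m.H s ∧ x = m.X s ∧ t = -m.T s)

theorem rl_0 : (0 : ℝ) ∈ Icc (0 : ℝ) 1 := ⟨le_rfl, zero_le_one⟩
theorem rl_1 : (1 : ℝ) ∈ Icc (0 : ℝ) 1 := ⟨zero_le_one, le_rfl⟩

theorem Fit.bp {b p m : Pc} (h : Fit b p m) {s r : ℝ} (hs : s ∈ Icc (0 : ℝ) 1)
    (hr : r ∈ Icc (0 : ℝ) 1) : RlOrd (b.H s) (b.X s) (b.T s) (p.H r) (p.X r) (p.T r) := by
  have h1 := h.op.ord rl_0 hr hr.1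
  rw [h.pH, h.pX, h.pT] at h1
  exact (h.ob.ord hs rl_1 hs.2).trans h1

theorem Fit.mb {b p m : Pc} (h : Fit b p m) {s r : ℝ} (hs : s ∈ Icc (0 : ℝ) 1)
    (hr : r ∈ Icc (0 : ℝ) 1) : RlOrd (-m.H r) (m.X r) (-m.T r) (b.H s) (b.X s) (b.T s) := by
  have h1 := (h.om.ord rl_0 hr hr.1).neg
  rw [h.mH, h.mX, h.mT, neg_neg, neg_neg] at h1
  exact h1.trans (h.ob.ord rl_0 hs hs.1)

theorem Fit.total {b p m : Pc} (h : Fit b p m) {a x t a' x' t' : ℝ} (h1 : RlPt b p m a x t)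
    (h2 : RlPt b p m a' x' t') : RlOrd a x t a' x' t' ∨ RlOrd a' x' t' a x t := by
  obtain ⟨s, hs, ⟨rfl, rfl, rfl⟩ | ⟨rfl, rfl, rfl⟩ | ⟨rfl, rfl, rfl⟩⟩ := h1 <;>
    obtain ⟨r, hr, ⟨rfl, rfl, rfl⟩ | ⟨rfl, rfl, rfl⟩ | ⟨rfl, rfl, rfl⟩⟩ := h2
  · exact (le_total s r).imp (h.ob.ord hs hr) (h.ob.ord hr hs)
  · exact Or.inl (h.bp hs hr)
  · exact Or.inr (h.mb hs hr)
  · exact Or.inr (h.bp hr hs)
  · exact (le_total s r).imp (h.op.ord hs hr) (h.op.ord hr hs)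
  · exact Or.inr ((h.mb rl_0 hr).trans (h.bp rl_0 hs))
  · exact Or.inl (h.mb hr hs)
  · exact Or.inl ((h.mb rl_0 hs).trans (h.bp rl_0 hr))
  · exact (le_total r s).imp (fun e => (h.om.ord hr hs e).neg) (fun e => (h.om.ord hs hr e).neg)

theorem Fit.last {b p m : Pc} (h : Fit b p m) {a x t : ℝ} (h1 : RlPt b p m a x t) :
    RlOrd a x t (p.H 1) (p.X 1) (p.T 1) ∧ RlOrd (-m.H 1) (m.X 1) (-m.T 1) a x t := by
  obtain ⟨s, hs, ⟨rfl, rfl, rfl⟩ | ⟨rfl, rfl, rfl⟩ | ⟨rfl, rfl, rfl⟩⟩ := h1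
  · exact ⟨h.bp hs rl_1, h.mb hs rl_1⟩
  · exact ⟨h.op.ord hs rl_1 hs.2, (h.mb rl_0 rl_1).trans (h.bp rl_0 hs)⟩
  · exact ⟨(h.mb rl_0 hs).trans (h.bp rl_0 rl_1), (h.om.ord hs rl_1 hs.2).neg⟩

theorem Fit.absT {b p m : Pc} (h : Fit b p m) {a x t : ℝ} (h1 : RlPt b p m a x t) :
    |t| ≤ 5 / 4 := by
  obtain ⟨s, hs, ⟨-, -, rfl⟩ | ⟨-, -, rfl⟩ | ⟨-, -, rfl⟩⟩ := h1
  · exact h.ob.bT s hs
  · exact h.op.bT s hs
  · rw [abs_neg]; exact h.om.bT s hs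

theorem Fit.exists_rep {b p m : Pc} (h : Fit b p m) : ∃ g, Rep g b p m := by
  set S : ℝ → Set ℝ := fun y => {v | ∃ a x t, RlPt b p m a x t ∧ v = x - 2 * t * (y - a)} with hS
  have p0 : RlPt b p m (b.H 0) (b.X 0) (b.T 0) := ⟨0, rl_0, Or.inl ⟨rfl, rfl, rfl⟩⟩
  have hne : ∀ y, (S y).Nonempty := fun y => ⟨_, _, _, _, p0, rfl⟩
  have hbd : ∀ y, BddBelow (S y) := by
    intro y
    refine ⟨b.X 0 - 2 * (5 / 4 * |y - b.H 0|), ?_⟩
    rintro _ ⟨a, x, t, ha, rfl⟩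
    have h1 := (RlOrd.tan (h.total ha p0)).1
    have h2 : t * (y - b.H 0) ≤ 5 / 4 * |y - b.H 0| := by
      refine (le_abs_self _).trans ?_
      rw [abs_mul]
      exact mul_le_mul_of_nonneg_right (h.absT ha) (abs_nonneg _)
    linarith
  have hle : ∀ {a x t}, RlPt b p m a x t → ∀ y, sInf (S y) ≤ x - 2 * t * (y - a) :=
    fun ha y => csInf_le (hbd y) ⟨_, _, _, ha, rfl⟩
  have heq : ∀ {a x t}, RlPt b p m a x t → sInf (S a) = x := by
    intro a x t ha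
    refine le_antisymm (by simpa using hle ha a) (le_csInf (hne a) ?_)
    rintro _ ⟨a', x', t', ha', rfl⟩
    exact (RlOrd.tan (h.total ha' ha)).1
  have pb : ∀ s ∈ Icc (0 : ℝ) 1, RlPt b p m (b.H s) (b.X s) (b.T s) :=
    fun s hs => ⟨s, hs, Or.inl ⟨rfl, rfl, rfl⟩⟩
  have pp : ∀ s ∈ Icc (0 : ℝ) 1, RlPt b p m (p.H s) (p.X s) (p.T s) :=
    fun s hs => ⟨s, hs, Or.inr (Or.inl ⟨rfl, rfl, rfl⟩)⟩
  have pm : ∀ s ∈ Icc (0 : ℝ) 1, RlPt b p m (-m.H s) (m.X s) (-m.T s) :=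
    fun s hs => ⟨s, hs, Or.inr (Or.inr ⟨rfl, rfl, rfl⟩)⟩
  refine ⟨fun y => sInf (S y), h, fun s hs => ⟨heq (pb s hs), hle (pb s hs)⟩,
    fun s hs => ⟨heq (pp s hs), hle (pp s hs)⟩,
    fun s hs => ⟨heq (pm s hs), fun y => (hle (pm s hs) (-y)).trans_eq (by ring)⟩, ?_, ?_⟩
  · intro y hy
    refine le_antisymm ((hle (pp 1 rl_1) y).trans_eq (by rw [h.p1]; ring)) (le_csInf (hne y) ?_)
    rintro _ ⟨a, x, t, ha, rfl⟩
    obtain ⟨-, a2, -, a4, -⟩ := (h.last ha).1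
    rw [h.p1] at a4
    nlinarith [mul_nonneg (sub_nonneg.2 a2) (sub_nonneg.2 hy)]
  · intro y hy
    refine le_antisymm ((hle (pm 1 rl_1) (-y)).trans_eq (by rw [h.m1]; ring))
      (le_csInf (hne (-y)) ?_)
    rintro _ ⟨a, x, t, ha, rfl⟩
    obtain ⟨-, a2, -, -, a5⟩ := (h.last ha).2
    rw [h.m1] at a5
    nlinarith [mul_nonneg (sub_nonneg.2 a2) (sub_nonneg.2 hy)]

theorem PcOK.surj {p : Pc} (h : PcOK p) {x : ℝ} (h0 : p.H 0 ≤ x) (h1 : x ≤ p.H 1) :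
    ∃ s ∈ Icc (0 : ℝ) 1, p.H s = x :=
  intermediate_value_Icc zero_le_one h.cH ⟨h0, h1⟩

theorem Rep.cases {g : ℝ → ℝ} {b p m : Pc} (h : Rep g b p m) (x : ℝ) :
    (∃ s ∈ Icc (0 : ℝ) 1, b.H s = x) ∨ (∃ s ∈ Icc (0 : ℝ) 1, p.H s = x) ∨
      (∃ s ∈ Icc (0 : ℝ) 1, m.H s = -x) ∨ p.H 1 ≤ x ∨ m.H 1 ≤ -x := by
  rcases le_total x (b.H 1) with h1 | h1
  · rcases le_total (b.H 0) x with h2 | h2
    · exact Or.inl (h.fit.ob.surj h2 h1)
    · rcases le_total (-x) (m.H 1) with h3 | h3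
      · exact Or.inr (Or.inr (Or.inl (h.fit.om.surj (by rw [h.fit.mH]; linarith) h3)))
      · exact Or.inr (Or.inr (Or.inr (Or.inr h3)))
  · rcases le_total x (p.H 1) with h3 | h3
    · exact Or.inr (Or.inl (h.fit.op.surj (by rw [h.fit.pH]; exact h1) h3))
    · exact Or.inr (Or.inr (Or.inr (Or.inl h3)))

theorem Rep.touch {g : ℝ → ℝ} {b p m : Pc} (h : Rep g b p m) (x : ℝ) :
    ∃ s ∈ Icc (0 : ℝ) 1, g x = b.X s - 2 * b.T s * (x - b.H s) ∨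
      g x = p.X s - 2 * p.T s * (x - p.H s) ∨ g x = m.X s - 2 * m.T s * (-x - m.H s) := by
  rcases h.cases x with ⟨s, hs, e⟩ | ⟨s, hs, e⟩ | ⟨s, hs, e⟩ | e | e
  · exact ⟨s, hs, Or.inl (by rw [← e, (h.tb s hs).1]; ring)⟩
  · exact ⟨s, hs, Or.inr (Or.inl (by rw [← e, (h.tp s hs).1]; ring))⟩
  · have := (h.tm s hs).1
    simp only [e, neg_neg] at this
    exact ⟨s, hs, Or.inr (Or.inr (by rw [this, e]; ring))⟩
  · exact ⟨1, rl_1, Or.inr (Or.inl (by rw [h.rp x e, h.fit.p1]; ring))⟩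
  · have := h.rm (-x) e
    rw [neg_neg] at this
    exact ⟨1, rl_1, Or.inr (Or.inr (by rw [this, h.fit.m1]; ring))⟩

theorem Rep.supp {g : ℝ → ℝ} {b p m : Pc} (h : Rep g b p m) (x : ℝ) :
    ∃ t, ∀ y, g y ≤ g x - 2 * t * (y - x) := by
  obtain ⟨s, hs, e | e | e⟩ := h.touch x
  · exact ⟨b.T s, fun y => by have := (h.tb s hs).2 y; linarith⟩
  · exact ⟨p.T s, fun y => by have := (h.tp s hs).2 y; linarith⟩
  · exact ⟨-m.T s, fun y => by
      have := (h.tm s hs).2 (-y)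
      simp only [neg_neg] at this
      linarith⟩

theorem Rep.far {g : ℝ → ℝ} {b p m : Pc} (h : Rep g b p m) {x : ℝ} (hx : 3 / 2 ≤ |x|) :
    g x ≤ -(1 / 4) := by
  have p1 := (abs_le.1 (h.fit.op.bH 1 rl_1)).2
  have m1 := (abs_le.1 (h.fit.om.bH 1 rl_1)).2
  have p2 := h.fit.pT0.trans (h.fit.op.monoT rl_0 rl_1 zero_le_one)
  have m2 := h.fit.mT0.trans (h.fit.om.monoT rl_0 rl_1 zero_le_one)
  rcases le_abs.1 hx with h1 | h1
  · rw [h.rp x (by linarith)]; nlinarith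
  · have := h.rm (-x) (by linarith)
    rw [neg_neg] at this
    rw [this]; nlinarith

theorem Rep.gok {g : ℝ → ℝ} {b p m : Pc} (h : Rep g b p m) : GOK g := by
  obtain ⟨s, hs, e1, e2, e3⟩ := h.fit.eqt
  refine ⟨⟨convex_univ, fun x _ y _ α β hα hβ hαβ => ?_⟩, ?_, fun x => ?_,
    fun x hx => (h.far hx).trans_lt (by norm_num)⟩
  · obtain ⟨t, ht⟩ := h.supp (α * x + β * y)
    have h1 := mul_le_mul_of_nonneg_left (ht x) hα
    have h2 := mul_le_mul_of_nonneg_left (ht y) hβ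
    simp only [smul_eq_mul]
    have hβ' : β = 1 - α := by linarith
    subst hβ'
    linarith
  · rw [← e1, (h.tb s hs).1, e3]
  · have := (h.tb s hs).2 x
    rw [e2, e3] at this
    linarith

/-- two bodies with the same band agree along it -/
theorem Rep.band_eq {g g' : ℝ → ℝ} {b p m p' m' : Pc} (h : Rep g b p m) (h' : Rep g' b p' m')
    {x : ℝ} (hx : x ∈ Icc (-m.H 0) (p.H 0)) : g x = g' x := by
  rw [h.fit.mH, h.fit.pH, neg_neg] at hx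
  obtain ⟨s, hs, rfl⟩ := h.fit.ob.surj hx.1 hx.2
  rw [(h.tb s hs).1, (h'.tb s hs).1]

theorem rl_close {H X T H' X' T' δ x : ℝ} (a : |H - H'| ≤ δ) (b : |X - X'| ≤ δ) (c : |T - T'| ≤ δ)
    (d : |T| ≤ 5 / 4) (e : |H'| ≤ 5 / 4) :
    X' - 2 * T' * (x - H') - (X - 2 * T * (x - H)) ≤ 10 * δ * (1 + |x|) := by
  have hδ : 0 ≤ δ := (abs_nonneg _).trans a
  have h1 : |(T - T') * (x - H')| ≤ δ * (|x| + 5 / 4) := by
    rw [abs_mul]
    exact mul_le_mul c ((abs_sub _ _).trans (by linarith)) (abs_nonneg _) hδ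
  have h2 : |T * (H - H')| ≤ 5 / 4 * δ := by
    rw [abs_mul]; exact mul_le_mul d a (abs_nonneg _) (by norm_num)
  have h3 := mul_nonneg hδ (abs_nonneg x)
  have := (abs_le.1 h1).2
  have := (abs_le.1 h2).1
  have := (abs_le.1 b).1
  nlinarith

theorem Rep.close1 {g g' : ℝ → ℝ} {b p m p' m' : Pc} (h : Rep g b p m) (h' : Rep g' b p' m') {δ : ℝ}
    (hp : ∀ s ∈ Icc (0 : ℝ) 1, |p.H s - p'.H s| ≤ δ ∧ |p.X s - p'.X s| ≤ δ ∧ |p.T s - p'.T s| ≤ δ)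
    (hm : ∀ s ∈ Icc (0 : ℝ) 1, |m.H s - m'.H s| ≤ δ ∧ |m.X s - m'.X s| ≤ δ ∧ |m.T s - m'.T s| ≤ δ)
    (x : ℝ) : g' x - g x ≤ 10 * δ * (1 + |x|) := by
  have hδ : 0 ≤ δ := (abs_nonneg _).trans (hp 0 rl_0).1
  obtain ⟨s, hs, e | e | e⟩ := h.touch x
  · have := (h'.tb s hs).2 x
    have : 0 ≤ 10 * δ * (1 + |x|) := by positivity
    linarith
  · have h1 := (h'.tp s hs).2 x
    have := rl_close (x := x) (hp s hs).1 (hp s hs).2.1 (hp s hs).2.2 (h.fit.op.bT s hs)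
      (h'.fit.op.bH s hs)
    linarith
  · have h1 := (h'.tm s hs).2 (-x)
    have := rl_close (x := -x) (hm s hs).1 (hm s hs).2.1 (hm s hs).2.2 (h.fit.om.bT s hs)
      (h'.fit.om.bH s hs)
    simp only [neg_neg, abs_neg] at h1 this
    linarith

theorem Rep.close {g g' : ℝ → ℝ} {b p m p' m' : Pc} (h : Rep g b p m) (h' : Rep g' b p' m') {δ : ℝ}
    (hp : ∀ s ∈ Icc (0 : ℝ) 1, |p.H s - p'.H s| ≤ δ ∧ |p.X s - p'.X s| ≤ δ ∧ |p.T s - p'.T s| ≤ δ)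
    (hm : ∀ s ∈ Icc (0 : ℝ) 1, |m.H s - m'.H s| ≤ δ ∧ |m.X s - m'.X s| ≤ δ ∧ |m.T s - m'.T s| ≤ δ)
    (x : ℝ) : |g x - g' x| ≤ 10 * δ * (1 + |x|) := by
  have h1 := h.close1 h' hp hm x
  have h2 := h'.close1 h (δ := δ)
    (fun s hs => by simpa only [abs_sub_comm] using hp s hs)
    (fun s hs => by simpa only [abs_sub_comm] using hm s hs) x
  exact abs_le.2 ⟨by linarith, h2⟩

theorem Rep.second {g : ℝ → ℝ} {b p m : Pc} (h : Rep g b p m) {s : ℝ} (hs : s ∈ Icc (0 : ℝ) 1)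
    (x : ℝ) : p.X s - 2 * p.T s * (x - p.H s) - g x ≤ 8 * (x - p.H s) ^ 2 := by
  have pp : RlPt b p m (p.H s) (p.X s) (p.T s) := ⟨s, hs, Or.inr (Or.inl ⟨rfl, rfl, rfl⟩)⟩
  rcases h.cases x with ⟨r, hr, e⟩ | ⟨r, hr, e⟩ | ⟨r, hr, e⟩ | e | e
  · rw [← e, (h.tb r hr).1]
    exact (RlOrd.tan (h.fit.total pp ⟨r, hr, Or.inl ⟨rfl, rfl, rfl⟩⟩)).2
  · rw [← e, (h.tp r hr).1]
    exact (RlOrd.tan (h.fit.total pp ⟨r, hr, Or.inr (Or.inl ⟨rfl, rfl, rfl⟩)⟩)).2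
  · have e' : x = -m.H r := by rw [e, neg_neg]
    have := (h.tm r hr).1
    simp only at this
    rw [e', this]
    exact (RlOrd.tan (h.fit.total pp ⟨r, hr, Or.inr (Or.inr ⟨rfl, rfl, rfl⟩)⟩)).2
  · have h1 : RlOrd (p.H 1) (p.X 1) (p.T 1) x (g x) (p.T 1) := by
      rw [h.rp x e, h.fit.p1]
      exact ⟨e, le_rfl, by linarith, by linarith, by linarith⟩
    exact (RlOrd.tan (Or.inl ((h.fit.last pp).1.trans h1))).2
  · have h1 : RlOrd x (g x) (-m.T 1) (-m.H 1) (m.X 1) (-m.T 1) := by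
      have := h.rm (-x) e
      rw [neg_neg] at this
      rw [this, h.fit.m1]
      exact ⟨by linarith, le_rfl, by linarith, by linarith, by linarith⟩
    exact (RlOrd.tan (Or.inr (h1.trans (h.fit.last pp).2))).2

/-- the mirrored band -/
def Pc.flip (b : Pc) : Pc where
  H := fun s => -b.H (1 - s)
  X := fun s => b.X (1 - s)
  T := fun s => -b.T (1 - s)
  H' := fun s => b.H' (1 - s)
  T' := fun s => b.T' (1 - s)

theorem rl_Icc {s : ℝ} (hs : s ∈ Icc (0 : ℝ) 1) : 1 - s ∈ Icc (0 : ℝ) 1 :=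
  ⟨by linarith [hs.2], by linarith [hs.1]⟩
theorem rl_Ioo {s : ℝ} (hs : s ∈ Ioo (0 : ℝ) 1) : 1 - s ∈ Ioo (0 : ℝ) 1 :=
  ⟨by linarith [hs.2], by linarith [hs.1]⟩

theorem PcOK.flip {b : Pc} (h : PcOK b) : PcOK b.flip := by
  have c : ContinuousOn (fun s : ℝ => 1 - s) (Icc 0 1) := by fun_prop
  have d : ∀ s : ℝ, HasDerivAt (fun s : ℝ => 1 - s) (-1) s := fun s => (hasDerivAt_id s).const_sub 1
  exact ⟨(h.cH.comp c fun _ => rl_Icc).neg, h.cX.comp c fun _ => rl_Icc,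
    (h.cT.comp c fun _ => rl_Icc).neg,
    fun s hs => (((h.dH _ (rl_Ioo hs)).comp s (d s)).neg).congr_deriv (by simp [Pc.flip]),
    fun s hs => ((h.dX _ (rl_Ioo hs)).comp s (d s)).congr_deriv (by simp [Pc.flip]),
    fun s hs => (((h.dT _ (rl_Ioo hs)).comp s (d s)).neg).congr_deriv (by simp [Pc.flip]),
    fun s hs => h.H1 _ (rl_Ioo hs), fun s hs => h.T1 _ (rl_Ioo hs),
    fun s hs => by simpa [Pc.flip] using h.bH _ (rl_Icc hs),
    fun s hs => by simpa [Pc.flip] using h.bT _ (rl_Icc hs)⟩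

theorem Rep.flip {g : ℝ → ℝ} {b p m : Pc} (h : Rep g b p m) :
    Rep (fun x => g (-x)) b.flip m p := by
  have f := h.fit
  obtain ⟨s, hs, e1, e2, e3⟩ := f.eqt
  refine ⟨⟨f.ob.flip, f.om, f.op, by simp [Pc.flip, f.mH], by simp [Pc.flip, f.mX],
    by simp [Pc.flip, f.mT], by simp [Pc.flip, f.pH], by simp [Pc.flip, f.pX],
    by simp [Pc.flip, f.pT], f.m1, f.p1, f.mT0, f.pT0,
    ⟨1 - s, rl_Icc hs, by simp [Pc.flip, e1], by simp [Pc.flip, e2], by simp [Pc.flip, e3]⟩⟩,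
    fun r hr => ⟨?_, fun x => ?_⟩, h.tm, ?_, h.rm, ?_⟩
  · simp only [Pc.flip, neg_neg]; exact (h.tb _ (rl_Icc hr)).1
  · have := (h.tb _ (rl_Icc hr)).2 (-x)
    simp only [Pc.flip]; linarith
  · simp only [neg_neg]; exact h.tp
  · simp only [neg_neg]; exact h.rp

theorem rl_mul {T u : ℝ → ℝ} {u' t : ℝ} (hT : ContinuousAt T t) (hu : HasDerivAt u u' t)
    (h0 : u t = 0) : HasDerivAt (fun τ => T τ * u τ) (T t * u') t := by
  rw [hasDerivAt_iff_tendsto_slope] at hu ⊢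
  refine ((hT.tendsto.mono_left nhdsWithin_le_nhds).mul hu).congr fun τ => ?_
  simp only [slope_def_field, h0]
  ring

/-- envelope formula -/
theorem Rep.hasDerivAt {g : ℝ → ℝ → ℝ} {b : Pc} {p m : ℝ → Pc} {t s X' H' : ℝ}
    (h : ∀ᶠ τ in 𝓝 t, Rep (g τ) b (p τ) (m τ)) (hs : s ∈ Icc (0 : ℝ) 1)
    (hX : HasDerivAt (fun τ => (p τ).X s) X' t) (hH : HasDerivAt (fun τ => (p τ).H s) H' t)
    (hT : ContinuousAt (fun τ => (p τ).T s) t) :
    HasDerivAt (fun τ => g τ ((p t).H s)) (X' + 2 * (p t).T s * H') t := by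
  have hu : HasDerivAt (fun τ => (p t).H s - (p τ).H s) (-H') t := hH.const_sub _
  have hA := hX.sub ((rl_mul hT hu (sub_self _)).const_mul 2)
  have hB := rl_mul hu.continuousAt hu (sub_self _)
  have hD : HasDerivAt (fun τ => (p τ).X s - 2 * ((p τ).T s * ((p t).H s - (p τ).H s))
      - g τ ((p t).H s)) 0 t := by
    rw [hasDerivAt_iff_isLittleO] at hB ⊢
    refine Asymptotics.IsBigO.trans_isLittleO (Asymptotics.IsBigO.of_bound 8 ?_) hB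
    filter_upwards [h] with τ hτ
    have h1 := (hτ.tp s hs).2 ((p t).H s)
    have h2 := hτ.second hs ((p t).H s)
    have h3 := (h.self_of_nhds.tp s hs).1
    simp only [sub_self, mul_zero, zero_mul, sub_zero, smul_zero, h3, Real.norm_eq_abs]
    rw [abs_of_nonneg (by linarith), abs_of_nonneg (mul_self_nonneg _)]
    linarith
  refine ((hA.sub hD).congr_deriv (by ring)).congr_of_eventuallyEq (Eventually.of_forall fun τ => ?_)
  simp

/-- change of variables along one piece -/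
theorem PcOK.cv {p : Pc} (h : PcOK p) (F : ℝ → ℝ) :
    (∫ x in (p.H 0)..(p.H 1), F x = ∫ s in (0 : ℝ)..1, F (p.H s) * p.H' s) ∧
    (IntervalIntegrable F volume (p.H 0) (p.H 1) ↔
      IntervalIntegrable (fun s => F (p.H s) * p.H' s) volume 0 1) := by
  have hle : p.H 0 ≤ p.H 1 := h.mono.monotoneOn rl_0 rl_1 zero_le_one
  constructor
  · rw [intervalIntegral.integral_of_le hle, intervalIntegral.integral_of_le zero_le_one,
      ← integral_Icc_eq_integral_Ioc, ← integral_Icc_eq_integral_Ioc,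
      ← integral_Icc_deriv_smul_of_deriv_nonneg h.cH h.dH (fun x hx => (h.H1 x hx).1.le)
        zero_le_one]
    simp only [smul_eq_mul, mul_comm]
  · have e : (fun s => F (p.H s) * p.H' s) = fun x => p.H' x • F (p.H x) :=
      funext fun x => mul_comm _ _
    rw [e]
    exact ((intervalIntegrable_iff_integrableOn_Icc_of_le hle).trans
      (integrableOn_Icc_deriv_smul_iff_of_deriv_nonneg h.cH h.dH (fun x hx => (h.H1 x hx).1.le)
        zero_le_one).symm).trans (intervalIntegrable_iff_integrableOn_Icc_of_le zero_le_one).symm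

theorem Fit.split {b p m : Pc} (h : Fit b p m) {F : ℝ → ℝ}
    (hF : IntervalIntegrable F volume (-2) 2) (h1 : ∀ x, p.H 1 < x → F x = 0)
    (h2 : ∀ x, x < -m.H 1 → F x = 0) :
    ∫ x in (-2 : ℝ)..2, F x = (∫ s in (0 : ℝ)..1, F (-m.H s) * m.H' s) +
      (∫ s in (0 : ℝ)..1, F (b.H s) * b.H' s) + ∫ s in (0 : ℝ)..1, F (p.H s) * p.H' s := by
  have I : ∀ u v : ℝ, |u| ≤ 2 → |v| ≤ 2 → IntervalIntegrable F volume u v := fun u v hu hv =>
    hF.mono_set (uIcc_subset_uIcc (mem_uIcc_of_le (abs_le.1 hu).1 (abs_le.1 hu).2)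
      (mem_uIcc_of_le (abs_le.1 hv).1 (abs_le.1 hv).2))
  have a0 : |(-2 : ℝ)| ≤ 2 := by norm_num
  have a1 : |-m.H 1| ≤ 2 := by rw [abs_neg]; linarith [h.om.bH 1 rl_1]
  have a2 : |b.H 0| ≤ 2 := by linarith [h.ob.bH 0 rl_0]
  have a3 : |b.H 1| ≤ 2 := by linarith [h.ob.bH 1 rl_1]
  have a4 : |p.H 1| ≤ 2 := by linarith [h.op.bH 1 rl_1]
  have a5 : |(2 : ℝ)| ≤ 2 := by norm_num
  have z1 : ∫ x in (-2 : ℝ)..(-m.H 1), F x = 0 := by
    rw [intervalIntegral.integral_of_le (abs_le.1 a1).1, integral_Ioc_eq_integral_Ioo]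
    exact setIntegral_eq_zero_of_forall_eq_zero fun x hx => h2 x hx.2
  have z2 : ∫ x in (p.H 1)..2, F x = 0 := by
    rw [intervalIntegral.integral_of_le (abs_le.1 a4).2]
    exact setIntegral_eq_zero_of_forall_eq_zero fun x hx => h1 x hx.1
  have e1 := (h.om.cv fun x => F (-x)).1
  rw [intervalIntegral.integral_comp_neg, h.mH, neg_neg] at e1
  have e3 := (h.op.cv F).1
  rw [h.pH] at e3
  rw [← e1, ← e3, ← (h.ob.cv F).1,
    ← intervalIntegral.integral_add_adjacent_intervals (I _ _ a0 a1) (I _ _ a1 a5),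
    ← intervalIntegral.integral_add_adjacent_intervals (I _ _ a1 a2) (I _ _ a2 a5),
    ← intervalIntegral.integral_add_adjacent_intervals (I _ _ a2 a3) (I _ _ a3 a5),
    ← intervalIntegral.integral_add_adjacent_intervals (I _ _ a3 a4) (I _ _ a4 a5), z1, z2]
  ring

theorem Rep.neg_out {g : ℝ → ℝ} {b p m : Pc} (h : Rep g b p m) :
    (∀ x, p.H 1 < x → g x < 0) ∧ ∀ x, x < -m.H 1 → g x < 0 := by
  have p2 := h.fit.pT0.trans (h.fit.op.monoT rl_0 rl_1 zero_le_one)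
  have m2 := h.fit.mT0.trans (h.fit.om.monoT rl_0 rl_1 zero_le_one)
  refine ⟨fun x hx => ?_, fun x hx => ?_⟩
  · rw [h.rp x hx.le]; nlinarith
  · have := h.rm (-x) (by linarith)
    rw [neg_neg] at this
    rw [this]; nlinarith

theorem rl_open (θ : ℝ) : IsOpen (Sec θ) :=
  IsOpen.and (isOpen_lt (by fun_prop) (by fun_prop)) (isOpen_lt (by fun_prop) (by fun_prop))

theorem rl_real {θ x : ℝ} (h0 : 0 < θ) (x0 : 0 < x) (x1 : x ≤ 1) : (x : ℂ) ∈ Sec θ :=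
  ⟨by simpa using mul_pos h0 x0, by simp; linarith⟩

theorem rc_pos (f : ℂ → ℂ) (f0 : ℝ) {x : ℝ} (hx : 0 < x) : rc f f0 x = (f x).re := by
  simp [rc, not_le.2 hx]

theorem rc_deriv {θ : ℝ} {f : ℂ → ℂ} (f0 : ℝ) (t0 : 0 < θ) (hf : DifferentiableOn ℂ f (Sec θ))
    {x : ℝ} (hx : x ∈ Ioc (0 : ℝ) 1) : HasDerivAt (rc f f0) (deriv f x).re x := by
  have h1 := (hf.differentiableAt ((rl_open θ).mem_nhds (rl_real t0 hx.1 hx.2))).hasDerivAt
  refine h1.real_of_complex.congr_of_eventuallyEq ?_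
  filter_upwards [Ioi_mem_nhds hx.1] with y hy using rc_pos f f0 hy

theorem rc_cont {θ M : ℝ} {f : ℂ → ℂ} {f0 : ℝ} (t0 : 0 < θ) (hf : DifferentiableOn ℂ f (Sec θ))
    (h : ∀ ξ ∈ Sec θ, ‖f ξ - f0‖ ≤ M * ‖ξ‖) : ContinuousOn (rc f f0) (Icc 0 1) := by
  intro x hx
  rcases hx.1.eq_or_lt with h0 | h0
  · subst h0
    have e0 : rc f f0 0 = f0 := by simp [rc]
    rw [ContinuousWithinAt, e0, tendsto_iff_norm_sub_tendsto_zero]
    have hc : Tendsto (fun y : ℝ => M * |y|) (𝓝[Icc 0 1] 0) (𝓝 0) := by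
      have : Continuous fun y : ℝ => M * |y| := by fun_prop
      simpa using (this.tendsto 0).mono_left nhdsWithin_le_nhds
    refine squeeze_zero' (Eventually.of_forall fun _ => norm_nonneg _) ?_ hc
    filter_upwards [self_mem_nhdsWithin] with y hy
    rcases hy.1.eq_or_lt with h1 | h1
    · rw [← h1, e0]; simp
    · have h2 := h y (rl_real t0 h1 hy.2)
      have h3 := Complex.abs_re_le_norm (f y - f0)
      rw [rc_pos f f0 h1]
      simp only [Complex.sub_re, Complex.ofReal_re, Complex.norm_real, Real.norm_eq_abs] at h2 h3 ⊢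
      exact h3.trans h2
  · exact (rc_deriv f0 t0 hf ⟨h0, hx.2⟩).continuousAt.continuousWithinAt

theorem rl_re {z : ℂ} {c r : ℝ} (h : ‖z - c‖ ≤ r) : c - r ≤ z.re ∧ z.re ≤ c + r := by
  have := abs_le.1 ((Complex.abs_re_le_norm (z - c)).trans h)
  simp only [Complex.sub_re, Complex.ofReal_re] at this
  constructor <;> linarith [this.1, this.2]

theorem rl_near {θ : ℝ} {f : ℂ → ℂ} {f0 : ℝ} (t0 : 0 < θ) (h0 : ∀ ξ ∈ Sec θ, ‖f ξ - 1‖ ≤ th0)
    (h1 : ∀ ξ ∈ Sec θ, ‖f ξ - f0‖ ≤ 3 * ‖ξ‖) {s : ℝ} (hs : s ∈ Icc (0 : ℝ) 1) :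
    9 / 10 ≤ rc f f0 s ∧ rc f f0 s ≤ 11 / 10 := by
  have ht : th0 ≤ 1 / 100 := by norm_num [th0]
  rcases hs.1.eq_or_lt with h | h
  · have m := rl_real t0 (show (0 : ℝ) < 1 / 100 by norm_num) (by norm_num)
    have a := rl_re (c := 1) (by simpa using h0 _ m)
    have b := rl_re (h1 _ m)
    rw [Complex.norm_real, Real.norm_eq_abs, abs_of_pos (by norm_num)] at b
    have e : rc f f0 s = f0 := by simp [rc, ← h]
    rw [e]
    simp only [one_div, Complex.ofReal_inv, Complex.ofReal_ofNat] at a b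
    constructor <;> linarith [a.1, a.2, b.1, b.2]
  · have a := rl_re (c := 1) (by simpa using h0 _ (rl_real t0 h hs.2))
    rw [rc_pos f f0 h]
    constructor <;> linarith [a.1, a.2]

/-- the real trace of a cap -/
theorem capOf_ok {q θ : ℝ} {u T H : ℂ → ℂ} {a0 b0 c0 : ℝ} (t0 : 0 < θ) (t1 : θ ≤ th0)
    (q0 : 0 < q) (q1 : q ≤ del1) (h : CapR q θ u T H a0 b0 c0) :
    PcOK (capOf q u T H a0 b0 c0) ∧ (capOf q u T H a0 b0 c0).X 1 = 0 ∧ 1 / 2 ≤ b0 := by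
  have _ := t1
  have ht : th0 ≤ 1 / 100 := by norm_num [th0]
  have hq : q ≤ 1 / 100 := q1.trans (by norm_num [del1])
  have eH : ∀ s ∈ Ioo (0 : ℝ) 1, (deriv H s).re
      = -q * ((T s).re * (deriv u s).re / 2 + (u s).re * (deriv T s).re) := by
    intro s hs
    have m := rl_real t0 hs.1 hs.2.le
    rw [h.H1 _ m]
    simp [h.rT s m, h.ru s m]
  have key : ∀ s ∈ Ioo (0 : ℝ) 1, q / 4 ≤ (deriv H s).re ∧ (deriv H s).re ≤ 3 ∧
      0 ≤ (deriv T s).re ∧ (deriv T s).re ≤ q := by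
    intro s hs
    have m := rl_real t0 hs.1 hs.2.le
    have a := rl_re (c := 1) (by simpa using h.T0 _ m)
    have b := rl_re (z := deriv u s) (c := -1) (by simpa using h.u1 _ m)
    have c := rl_re (c := 1 - s) (by simpa using h.u0 _ m)
    have d := rl_re (c := q / 2) (by simpa using h.T1 _ m)
    rw [eH s hs]
    set x := (T s).re
    set y := (deriv u s).re
    set z := (u s).re
    set w := (deriv T s).re
    have hxy : x * y ≤ -(9 / 10) ∧ -(11 / 10) ≤ x * y := by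
      constructor <;> nlinarith [a.1, a.2, b.1, b.2]
    have hw : 0 ≤ w ∧ w ≤ 1 / 100 := ⟨by linarith [d.1], by linarith [d.2]⟩
    have hz : -1 ≤ z ∧ z ≤ 2 := ⟨by linarith [c.1, hs.2], by linarith [c.2, hs.1]⟩
    have hzw : z * w ≤ 1 / 50 ∧ -(1 / 50) ≤ z * w := by
      constructor <;> nlinarith [hw.1, hw.2, hz.1, hz.2]
    refine ⟨by nlinarith [hxy.1, hzw.1], by nlinarith [hxy.2, hzw.2], hw.1, by linarith [d.2]⟩
  have nH := fun s hs => rl_near (s := s) t0 h.H0 h.vH hs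
  have nT := fun s hs => rl_near (s := s) t0 h.T0 h.vT hs
  refine ⟨⟨rc_cont t0 h.dH h.vH,
    (continuousOn_const.mul (rc_cont t0 h.du h.vu)).mul ((rc_cont t0 h.dT h.vT).pow 2),
    rc_cont t0 h.dT h.vT, fun s hs => rc_deriv c0 t0 h.dH ⟨hs.1, hs.2.le⟩, fun s hs => ?_,
    fun s hs => rc_deriv b0 t0 h.dT ⟨hs.1, hs.2.le⟩,
    fun s hs => ⟨lt_of_lt_of_le (by positivity) (key s hs).1, (key s hs).2.1⟩,
    fun s hs => ⟨(key s hs).2.2.1, ?_⟩,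
    fun s hs => abs_le.2 ⟨(by linarith [(nH s hs).1] : -(5 / 4) ≤ rc H c0 s),
      (by linarith [(nH s hs).2] : rc H c0 s ≤ 5 / 4)⟩,
    fun s hs => abs_le.2 ⟨(by linarith [(nT s hs).1] : -(5 / 4) ≤ rc T b0 s),
      (by linarith [(nT s hs).2] : rc T b0 s ≤ 5 / 4)⟩⟩, ?_, ?_⟩
  · refine (((rc_deriv a0 t0 h.du ⟨hs.1, hs.2.le⟩).const_mul q).mul
      ((rc_deriv b0 t0 h.dT ⟨hs.1, hs.2.le⟩).pow 2)).congr_deriv ?_
    simp only [capOf, Pi.pow_apply, eH s hs, rc_pos _ _ hs.1]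
    norm_num
    ring
  · have := key s hs
    simp only [capOf]
    linarith [this.1, this.2.2.2]
  · simp [capOf, rc_pos _ _ one_pos, h.up]
  · have := (nT 0 rl_0).1
    simp only [rc, le_refl, if_true] at this
    linarith

theorem CapInv.capR {q θ B : ℝ} {u T H e : ℂ → ℂ} {a0 b0 c0 : ℝ} (q0 : 0 < q)
    (hB : B ≤ th0 ^ 2 * q) (q1 : q ≤ del1) (h : CapInv q θ B u T H e a0 b0 c0) :
    CapR q θ u T H a0 b0 c0 := by
  have b1 : B ≤ q / 16 := hB.trans (by unfold th0; linarith)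
  have b2 : del1 + B ≤ th0 := by unfold del1 th0 at *; linarith
  have b3 : 2 + B ≤ 3 := by unfold del1 at q1; linarith
  exact ⟨h.du, h.dT, h.dH, h.ru, h.rT, h.rH, fun ξ m => (h.u0 ξ m).trans b2,
    fun ξ m => (h.u1 ξ m).trans b2, h.up, fun ξ m => (h.T0 ξ m).trans b2,
    fun ξ m => (h.T1 ξ m).trans (by linarith), fun ξ m => (h.H0 ξ m).trans b2, h.H1,
    fun ξ m => (h.vu ξ m).trans (mul_le_mul_of_nonneg_right b3 (norm_nonneg _)),
    fun ξ m => (h.vT ξ m).trans (mul_le_mul_of_nonneg_right b3 (norm_nonneg _)),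
    fun ξ m => (h.vH ξ m).trans (mul_le_mul_of_nonneg_right b3 (norm_nonneg _))⟩

end Bon3
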