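import Pool.Agent.Lib.MP_3dbf58_gt.BaseA
import Pool.Agent.Lib.MP_3dbf58_gt.BaseB
import Pool.Agent.Lib.MP_3dbf58_gt.BaseC

open Set Filter Topology MeasureTheory Metric

noncomputable section

namespace Bon3

theorem base : ∃ (P : Par) (S : St), ParOK P ∧ BaseX P ∧ S.g = P.gb ∧ S.E = (fun _ => 0) ∧ S.s = 0 ∧
    InvC P th0 (th0 / 32) (th0 ^ 2 * P.η / 2) S ∧ InvR P th0 (th0 / 32) 0 S := by
  obtain ⟨cc, Ia, Ib, A⟩ := baseA
  obtain ⟨hb, U, q, μ0, c0, B, h⟩ := baseB A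
  obtain ⟨g, X, R⟩ := baseC A B h
  have q1 := B.q1
  have q2 := B.q2
  refine ⟨Par0 hb q μ0 c0 g, St0 cc Ia Ib hb U q g, ⟨?_, ?_, ?_, B.mu⟩, X, rfl, rfl, rfl, h g, R⟩
  · show 0 < 120 * gam * q
    have : 0 < q := by unfold tt at q1; linarith [show (0 : ℝ) < 1 / 10 ^ 30 / 2 by norm_num]
    unfold gam; positivity
  · show 120 * gam * q ≤ q
    have : 0 < q := by unfold tt at q1; linarith [show (0 : ℝ) < 1 / 10 ^ 30 / 2 by norm_num]
    unfold gam; nlinarith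
  · show q ≤ del1
    unfold tt at q2; unfold del1; linarith [show (2 : ℝ) * (1 / 10 ^ 30) ≤ 1 / 10 ^ 7 by norm_num]

end Bon3
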