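import Pool.Agent.Lib.MP_3dbf58_gt.BaseA1

open Set Filter Topology MeasureTheory Metric

noncomputable section

namespace Bon3

namespace BA1

/-- integrand of the half integral with weight `W` -/
def fW (W : ℂ → ℂ) (cc : ℂ × ℂ × ℂ → ℂ) (p : ℂ × ℂ × ℂ) (v : ℝ) : ℂ :=
  W (v * cc p) * HH' p.2.2 (v * cc p) * isq (NB p.1 p.2.1 p.2.2 (v * cc p))

def IW (W : ℂ → ℂ) (cc : ℂ × ℂ × ℂ → ℂ) (p : ℂ × ℂ × ℂ) : ℂ :=
  cc p * ∫ v in Ioo (0 : ℝ) 1, fW W cc p v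

theorem io : IntegrableOn (fun v : ℝ => 1 / Real.sqrt (1 - v ^ 2)) (Ioo 0 1) :=
  (intervalIntegrable_iff_integrableOn_Ioo_of_le zero_le_one).1 ii

theorem int_Ioo {E : Type} [NormedAddCommGroup E] [NormedSpace ℝ E] (f : ℝ → E) :
    ∫ v in Ioo (0 : ℝ) 1, f v = ∫ v in (0 : ℝ)..1, f v := by
  rw [intervalIntegral.integral_of_le zero_le_one, integral_Ioc_eq_integral_Ioo]

theorem mom0 : ∫ v in Ioo (0 : ℝ) 1, 1 / Real.sqrt (1 - v ^ 2) = Real.pi / 2 := by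
  have := mom 1 0 0 0
  rw [int_Ioo]
  simpa using this

variable {W : ℂ → ℂ} {cc : ℂ × ℂ × ℂ → ℂ} {B : ℝ}

theorem nvc {c : ℂ} (hc : ‖c - 1‖ ≤ 1 / 8) {v : ℝ} (hv : v ∈ Ioo (0 : ℝ) 1) :
    ‖(v : ℂ) * c‖ ≤ 9 / 8 := by
  rw [norm_mul, Complex.norm_real, Real.norm_eq_abs, abs_of_nonneg hv.1.le]
  have := norm_nonneg c
  have := n98 hc
  nlinarith [hv.1, hv.2]

theorem w_pos {v : ℝ} (hv : v ∈ Ioo (0 : ℝ) 1) : 0 < 1 - v ^ 2 := by nlinarith [hv.1, hv.2]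

theorem fW_le (hB : ∀ c : ℂ, ‖c‖ ≤ 9 / 8 → ‖W c‖ ≤ B) (c0 : ∀ p ∈ PD, ‖cc p - 1‖ ≤ 1 / 8)
    (root : ∀ p ∈ PD, NB p.1 p.2.1 p.2.2 (cc p) = 0) {p : ℂ × ℂ × ℂ} (hp : p ∈ PD) {v : ℝ}
    (hv : v ∈ Ioo (0 : ℝ) 1) :
    ‖fW W cc p v‖ ≤ B * (101 / 100) * (101 / 100 * (1 / Real.sqrt (1 - v ^ 2))) := by
  have n := nvc (c0 p hp) hv
  have h1 := hB _ n
  have h2 := HH'_le hp.2.2 (n.trans (by norm_num))
  have h3 := (isq_le (w_pos hv) (NB_near hp (c0 p hp) (root p hp) hv.1.le hv.2.le)).2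
  have B0 : 0 ≤ B := (norm_nonneg _).trans h1
  unfold fW
  rw [norm_mul, norm_mul]
  gcongr

theorem fW_meas (hW : Differentiable ℂ W) (p : ℂ × ℂ × ℂ) : Measurable (fW W cc p) := by
  have h1 := hW.continuous
  have a1 : Continuous fun v : ℝ => W (v * cc p) * HH' p.2.2 (v * cc p) := by
    unfold HH' TT' rr ph'
    fun_prop
  have a2 : Continuous fun v : ℝ => NB p.1 p.2.1 p.2.2 (v * cc p) := by
    unfold NB XX HH TT rr ph
    fun_prop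
  exact a1.measurable.mul (a2.measurable.pow_const _)

theorem ae_Ioo {q : ℝ → Prop} (h : ∀ v ∈ Ioo (0 : ℝ) 1, q v) :
    ∀ᵐ v ∂(volume.restrict (Ioo (0 : ℝ) 1)), q v :=
  (ae_restrict_iff' measurableSet_Ioo).2 (Eventually.of_forall h)

theorem IW_HC (hW : Differentiable ℂ W) (hB : ∀ c : ℂ, ‖c‖ ≤ 9 / 8 → ‖W c‖ ≤ B) (hc : HC cc PD)
    (c0 : ∀ p ∈ PD, ‖cc p - 1‖ ≤ 1 / 8) (root : ∀ p ∈ PD, NB p.1 p.2.1 p.2.2 (cc p) = 0) :
    HC (IW W cc) PD := by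
  refine hc.mul (HC.integral (ae_Ioo fun v hv => ?_)
    (fun p _ => (fW_meas hW p).aestronglyMeasurable)
    (ae_Ioo fun v hv p hp => fW_le hB c0 root hp hv) ((io.const_mul _).const_mul _))
  have g : HC (fun p : ℂ × ℂ × ℂ => (p, (v : ℂ) * cc p)) PD :=
    HC.id.prodMk ((HC.const _).mul hc)
  have a1 : HC (fun p : ℂ × ℂ × ℂ => W ((v : ℂ) * cc p)) PD :=
    (HC.of_diff (G := univ) hW.differentiableOn).comp ((HC.const _).mul hc) (mapsTo_univ _ _)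
  have a2 := (HC.of_diff (G := univ) dHH'.differentiableOn).comp g (mapsTo_univ _ _)
  have a3 := (HC.of_diff (G := univ) dNB.differentiableOn).comp g (mapsTo_univ _ _)
  exact (a1.mul a2).mul (a3.isq fun p hp =>
    (isq_le (w_pos hv) (NB_near hp (c0 p hp) (root p hp) hv.1.le hv.2.le)).1)

theorem IW_le (hB : ∀ c : ℂ, ‖c‖ ≤ 9 / 8 → ‖W c‖ ≤ B) (c0 : ∀ p ∈ PD, ‖cc p - 1‖ ≤ 1 / 8)
    (root : ∀ p ∈ PD, NB p.1 p.2.1 p.2.2 (cc p) = 0) {p : ℂ × ℂ × ℂ} (hp : p ∈ PD) :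
    ‖IW W cc p‖ ≤ 3 * B := by
  have h := norm_integral_le_of_norm_le ((io.const_mul (101 / 100)).const_mul (B * (101 / 100)))
    (ae_Ioo fun v hv => fW_le hB c0 root hp hv)
  rw [integral_const_mul, integral_const_mul, mom0] at h
  have B0 : 0 ≤ B := (norm_nonneg _).trans (hB 0 (by norm_num))
  have n := n98 (c0 p hp)
  have := Real.pi_le_four
  unfold IW
  rw [norm_mul]
  calc ‖cc p‖ * ‖∫ v in Ioo (0 : ℝ) 1, fW W cc p v‖
      ≤ 9 / 8 * (B * (101 / 100) * (101 / 100 * (Real.pi / 2))) := by gcongr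
    _ ≤ 9 / 8 * (B * (101 / 100) * (101 / 100 * (4 / 2))) := by gcongr
    _ ≤ _ := by linarith

/-- at `y = γ = 0` -/
theorem fW_zero {σ : ℂ} (root : NB σ 0 0 (cc (σ, 0, 0)) = 0) {v : ℝ} (hv : v ∈ Ioo (0 : ℝ) 1) :
    fW W cc (σ, 0, 0) v = W (v * cc (σ, 0, 0)) * ((1 / Real.sqrt (1 - v ^ 2) : ℝ) : ℂ) := by
  have e : NB σ 0 0 (v * cc (σ, 0, 0)) = ((1 - v ^ 2 : ℝ) : ℂ) := by
    unfold NB XX HH TT at root ⊢
    push_cast
    linear_combination (v : ℂ) ^ 2 * root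
  have e2 : HH' (0 : ℂ) (v * cc (σ, 0, 0)) = 1 := by unfold HH' TT'; ring
  unfold fW
  simp only
  rw [e, e2, isq_real (w_pos hv).le, mul_one]

theorem momC (k : ℕ) (m : ℝ)
    (h : ∫ v in (0 : ℝ)..1, v ^ k * (1 / Real.sqrt (1 - v ^ 2)) = m) (a : ℂ) :
    Integrable (fun v : ℝ => a * ((v ^ k * (1 / Real.sqrt (1 - v ^ 2)) : ℝ) : ℂ))
      (volume.restrict (Ioo 0 1)) ∧
    ∫ v in Ioo (0 : ℝ) 1, a * ((v ^ k * (1 / Real.sqrt (1 - v ^ 2)) : ℝ) : ℂ) = a * m := by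
  refine ⟨Integrable.const_mul (Integrable.ofReal ?_) a, ?_⟩
  · exact (intervalIntegrable_iff_integrableOn_Ioo_of_le zero_le_one).1
      (ii.continuousOn_mul (g := fun v : ℝ => v ^ k) (by fun_prop))
  · rw [integral_const_mul, integral_complex_ofReal, int_Ioo, h]

theorem int_ph (c : ℂ) :
    ∫ v in Ioo (0 : ℝ) 1, ph ((v : ℂ) * c) * ((1 / Real.sqrt (1 - v ^ 2) : ℝ) : ℂ) =
      Real.pi / 2 * hh1 (c ^ 2) := by
  obtain ⟨i2, e2⟩ := momC 2 (Real.pi / 4) (by have := mom 0 1 0 0; simp only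
    [zero_add, zero_mul, add_zero, one_mul] at this; rw [this]; ring) ((6582 - 4 / 10 ^ 30) * c ^ 2)
  obtain ⟨i4, e4⟩ := momC 4 (3 * Real.pi / 16) (by have := mom 0 0 1 0; simp only
    [zero_add, zero_mul, add_zero, one_mul] at this; rw [this]; ring) (10528 * c ^ 4)
  obtain ⟨i6, e6⟩ := momC 6 (5 * Real.pi / 32) (by have := mom 0 0 0 1; simp only
    [zero_add, zero_mul, add_zero, one_mul] at this; rw [this]; ring) (4784 * c ^ 6)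
  have e : (fun v : ℝ => ph ((v : ℂ) * c) * ((1 / Real.sqrt (1 - v ^ 2) : ℝ) : ℂ)) = fun v : ℝ =>
      (6582 - 4 / 10 ^ 30) * c ^ 2 * ((v ^ 2 * (1 / Real.sqrt (1 - v ^ 2)) : ℝ) : ℂ) -
      10528 * c ^ 4 * ((v ^ 4 * (1 / Real.sqrt (1 - v ^ 2)) : ℝ) : ℂ) +
      4784 * c ^ 6 * ((v ^ 6 * (1 / Real.sqrt (1 - v ^ 2)) : ℝ) : ℂ) := by
    funext v
    unfold ph
    push_cast
    ring
  have e7 := integral_add (i2.sub i4) i6
  simp only [Pi.sub_apply] at e7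
  rw [e, e7, integral_sub i2 i4, e2, e4, e6]
  unfold hh1
  push_cast
  ring

/-! ### real parameters -/

section
variable {σ y γ c : ℝ}

theorem c_pos (hc : ‖(c : ℂ) - 1‖ ≤ 1 / 8) : 7 / 8 ≤ c ∧ c ≤ 9 / 8 := by
  have := abs_le.1 ((Complex.abs_re_le_norm _).trans hc)
  simp only [Complex.sub_re, Complex.ofReal_re, Complex.one_re] at this
  constructor <;> linarith [this.1, this.2]

theorem NB_ge (hp : ((σ : ℂ), (y : ℂ), (γ : ℂ)) ∈ PD) (hc : ‖(c : ℂ) - 1‖ ≤ 1 / 8)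
    (root : NB (σ : ℂ) y γ c = 0) {v : ℝ} (v0 : 0 ≤ v) (v1 : v ≤ 1) :
    99 / 100 * (1 - v ^ 2) ≤ NB σ y γ (v * c) := by
  have := re_ge (NB_near hp hc root v0 v1)
  rwa [← Complex.ofReal_mul, NB_cast, Complex.ofReal_re] at this

theorem NB_pos (hp : ((σ : ℂ), (y : ℂ), (γ : ℂ)) ∈ PD) (hc : ‖(c : ℂ) - 1‖ ≤ 1 / 8)
    (root : NB (σ : ℂ) y γ c = 0) {x : ℝ} (x0 : 0 ≤ x) (x1 : x < c) : 0 < NB σ y γ x := by
  have c0 : 0 < c := by linarith [(c_pos hc).1]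
  have v0 : 0 ≤ x / c := div_nonneg x0 c0.le
  have v1 : x / c < 1 := (div_lt_one c0).2 x1
  have := NB_ge hp hc root v0 v1.le
  rw [div_mul_cancel₀ _ c0.ne'] at this
  nlinarith

theorem NB_neg (hp : ((σ : ℂ), (y : ℂ), (γ : ℂ)) ∈ PD) (hc : ‖(c : ℂ) - 1‖ ≤ 1 / 8)
    (root : NB (σ : ℂ) y γ c = 0) (s0 : 0 ≤ σ) {x : ℝ} (x0 : c ≤ x) (x1 : x ≤ 1) :
    NB σ y γ x ≤ 0 := by
  have c0 := (c_pos hc).1
  have hl := RR_lip (c := x) (c' := c) hp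
    (by rw [Complex.norm_real, Real.norm_eq_abs, abs_of_nonneg (by linarith)]; linarith)
    ((n98 hc).trans (by norm_num))
  have e : RR σ y γ x - RR σ y γ c = ((NB σ y γ x + (1 + σ) * (x ^ 2 - c ^ 2) : ℝ) : ℂ) := by
    unfold RR; rw [root, NB_cast]; push_cast; ring
  rw [e, ← Complex.ofReal_sub, Complex.norm_real, Complex.norm_real, Real.norm_eq_abs,
    Real.norm_eq_abs, abs_of_nonneg (sub_nonneg.2 x0)] at hl
  have h1 := (abs_le.1 hl).2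
  have h2 : x - c ≤ x ^ 2 - c ^ 2 := by nlinarith
  nlinarith

theorem c_le (hp : ((σ : ℂ), (y : ℂ), (γ : ℂ)) ∈ PD) (hc : ‖(c : ℂ) - 1‖ ≤ 1 / 8)
    (root : NB (σ : ℂ) y γ c = 0) (s0 : 0 ≤ σ) : c ≤ 1 := by
  by_contra h
  have := NB_pos hp hc root zero_le_one (not_le.1 h)
  have e : NB σ y γ 1 = -(σ * (HH γ 1 + y) ^ 2) := by unfold NB XX; ring
  have : 0 ≤ σ * (HH γ 1 + y) ^ 2 := by positivity
  linarith

theorem cNB : Continuous (NB σ y γ) := by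
  unfold NB XX HH TT rr ph
  fun_prop

theorem ii1 (hp : ((σ : ℂ), (y : ℂ), (γ : ℂ)) ∈ PD) (hc : ‖(c : ℂ) - 1‖ ≤ 1 / 8)
    (root : NB (σ : ℂ) y γ c = 0) :
    IntervalIntegrable (fun x : ℝ => 1 / Real.sqrt (NB σ y γ x)) volume 0 c := by
  have c0 : 0 < c := by linarith [(c_pos hc).1]
  have h : IntervalIntegrable (fun v : ℝ => 1 / Real.sqrt (NB σ y γ (v * c))) volume 0 1 := by
    rw [intervalIntegrable_iff_integrableOn_Ioo_of_le zero_le_one]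
    refine Integrable.mono' (io.const_mul (101 / 100)) ?_ (ae_Ioo fun v hv => ?_)
    · have : Continuous fun v : ℝ => Real.sqrt (NB σ y γ (v * c)) := by
        have := @cNB σ y γ
        fun_prop
      exact (this.measurable.const_div 1).aestronglyMeasurable
    · have h3 := (isq_le (w_pos hv) (NB_near hp hc root hv.1.le hv.2.le)).2
      have h4 := NB_ge hp hc root hv.1.le hv.2.le
      have := w_pos hv
      rwa [← Complex.ofReal_mul, NB_cast, isq_real (by linarith), Complex.norm_real] at h3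
  have := h.comp_mul_right (c := c⁻¹)
  simpa [c0.ne'] using this

theorem zero_on (hp : ((σ : ℂ), (y : ℂ), (γ : ℂ)) ∈ PD) (hc : ‖(c : ℂ) - 1‖ ≤ 1 / 8)
    (root : NB (σ : ℂ) y γ c = 0) (s0 : 0 ≤ σ) (g : ℝ → ℝ) :
    EqOn (fun x => g x / Real.sqrt (NB σ y γ x)) (fun _ => 0) (uIcc c 1) := by
  intro x hx
  rw [uIcc_of_le (c_le hp hc root s0)] at hx
  simp [Real.sqrt_eq_zero_of_nonpos (NB_neg hp hc root s0 hx.1 hx.2)]

theorem ii2 (hp : ((σ : ℂ), (y : ℂ), (γ : ℂ)) ∈ PD) (hc : ‖(c : ℂ) - 1‖ ≤ 1 / 8)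
    (root : NB (σ : ℂ) y γ c = 0) (s0 : 0 ≤ σ) (g : ℝ → ℝ) :
    IntervalIntegrable (fun x : ℝ => g x / Real.sqrt (NB σ y γ x)) volume c 1 :=
  (intervalIntegrable_const (c := (0 : ℝ))).congr fun _ hx =>
    (zero_on hp hc root s0 g (uIoc_subset_uIcc hx)).symm

theorem IW_real {Wr : ℝ → ℝ} (hWr : ∀ x : ℝ, W x = Wr x)
    (hp : ((σ : ℂ), (y : ℂ), (γ : ℂ)) ∈ PD) (e : cc (σ, y, γ) = c) (hc : ‖(c : ℂ) - 1‖ ≤ 1 / 8)
    (root : NB (σ : ℂ) y γ c = 0) :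
    IW W cc (σ, y, γ) =
      ((∫ x in (0 : ℝ)..c, Wr x * HH' γ x / Real.sqrt (NB σ y γ x) : ℝ) : ℂ) := by
  have h := intervalIntegral.smul_integral_comp_mul_right (a := 0) (b := 1)
    (fun x : ℝ => Wr x * HH' γ x / Real.sqrt (NB σ y γ x)) c
  rw [zero_mul, one_mul, smul_eq_mul, ← int_Ioo] at h
  rw [← h, Complex.ofReal_mul, ← integral_complex_ofReal]
  unfold IW
  rw [e]
  congr 1
  refine setIntegral_congr_fun measurableSet_Ioo fun v hv => ?_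
  have h4 := NB_ge hp hc root hv.1.le hv.2.le
  have := w_pos hv
  unfold fW
  simp only
  rw [e, ← Complex.ofReal_mul, NB_cast, isq_real (by linarith), HH'_cast, hWr]
  simp [div_eq_mul_inv]

theorem int_ext {Wr : ℝ → ℝ} (cW : Continuous Wr) (hp : ((σ : ℂ), (y : ℂ), (γ : ℂ)) ∈ PD)
    (hc : ‖(c : ℂ) - 1‖ ≤ 1 / 8) (root : NB (σ : ℂ) y γ c = 0) (s0 : 0 ≤ σ) :
    ∫ x in (0 : ℝ)..c, Wr x * HH' γ x / Real.sqrt (NB σ y γ x) =
      ∫ x in (0 : ℝ)..1, Wr x * HH' γ x / Real.sqrt (NB σ y γ x) := by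
  have i1 : IntervalIntegrable (fun x : ℝ => Wr x * HH' γ x / Real.sqrt (NB σ y γ x))
      volume 0 c := by
    have := (ii1 hp hc root).continuousOn_mul (g := fun x => Wr x * HH' γ x)
      (Continuous.continuousOn (by unfold HH' TT' rr ph'; fun_prop))
    simpa only [mul_one_div] using this
  rw [← intervalIntegral.integral_add_adjacent_intervals i1
    (ii2 hp hc root s0 fun x => Wr x * HH' γ x),
    intervalIntegral.integral_congr (zero_on hp hc root s0 fun x => Wr x * HH' γ x)]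
  simp

end

end BA1

open BA1 in
theorem baseA : ∃ cc Ia Ib, BA cc Ia Ib := by
  obtain ⟨cc, hc, c0, root, rl⟩ := exists_cc
  have d1 : Differentiable ℂ (fun _ : ℂ => (1 : ℂ)) := differentiable_const _
  have d2 : Differentiable ℂ (ph : ℂ → ℂ) := by unfold ph; fun_prop
  have b1 : ∀ c : ℂ, ‖c‖ ≤ 9 / 8 → ‖(fun _ : ℂ => (1 : ℂ)) c‖ ≤ 1 := fun _ _ => by simp
  have b2 : ∀ c : ℂ, ‖c‖ ≤ 9 / 8 → ‖ph c‖ ≤ 10 ^ 5 := fun c h => (ph_le h).trans (by norm_num)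
  have z : ∀ σ : ℂ, ‖σ‖ < 1 / 10 → (σ, (0 : ℂ), (0 : ℂ)) ∈ PD := fun σ h =>
    ⟨h, by simp, by simp⟩
  have re : ∀ σ y γ : ℝ, ((σ : ℂ), (y : ℂ), (γ : ℂ)) ∈ PD → ∃ c : ℝ, cc (σ, y, γ) = c ∧
      ‖(c : ℂ) - 1‖ ≤ 1 / 8 ∧ NB (σ : ℂ) y γ c = 0 := fun σ y γ hp => by
    have e : cc (σ, y, γ) = ((cc (σ, y, γ)).re : ℝ) :=
      Complex.ext rfl (by simpa using rl _ hp ⟨by simp, by simp, by simp⟩)
    exact ⟨_, e, e ▸ c0 _ hp, e ▸ root _ hp⟩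
  refine ⟨cc, IW (fun _ => 1) cc, IW ph cc, hc, IW_HC d1 b1 hc c0 root, IW_HC d2 b2 hc c0 root,
    c0, root, fun p hp => (IW_le b1 c0 root hp).trans (by norm_num),
    fun p hp => (IW_le b2 c0 root hp).trans (by norm_num), fun σ h => ?_, fun σ h => ?_,
    fun σ y γ hp => ?_, fun σ y γ hp s0 => ?_⟩
  · unfold IW
    rw [setIntegral_congr_fun measurableSet_Ioo fun v hv => fW_zero (root _ (z σ h)) hv]
    simp only [one_mul]
    rw [integral_complex_ofReal, mom0]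
    push_cast
    ring
  · unfold IW
    rw [setIntegral_congr_fun measurableSet_Ioo fun v hv => fW_zero (root _ (z σ h)) hv, int_ph]
    ring
  · obtain ⟨c, e, h1, h2⟩ := re σ y γ hp
    rw [IW_real (Wr := fun _ => 1) (fun _ => by simp) hp e h1 h2, IW_real ph_cast hp e h1 h2, e]
    simp only [Complex.ofReal_im, and_self]
  · obtain ⟨c, e, h1, h2⟩ := re σ y γ hp
    rw [IW_real (Wr := fun _ => 1) (fun _ => by simp) hp e h1 h2, IW_real ph_cast hp e h1 h2, e,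
      int_ext continuous_const hp h1 h2 s0, int_ext (by unfold ph; fun_prop) hp h1 h2 s0]
    simp only [Complex.ofReal_re, one_mul, and_true]
    exact ⟨c_le hp h1 h2 s0, fun x => NB_pos hp h1 h2, fun x => NB_neg hp h1 h2 s0,
      (ii1 hp h1 h2).trans (ii2 hp h1 h2 s0 fun _ => 1)⟩

end Bon3
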