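import Pool.Agent.Lib.MP_3dbf58_gt.ToolA

open Set Filter Topology MeasureTheory Metric

noncomputable section

namespace Bon3

/-! ### Holomorphic along curves -/

section
variable {P Q F : Type} [NormedAddCommGroup P] [NormedSpace ℂ P] [NormedAddCommGroup Q]
  [NormedSpace ℂ Q] [NormedAddCommGroup F] [NormedSpace ℂ F] {G : Set P}

theorem HC.mono {f : P → F} {G' : Set P} (h : HC f G) (hs : G' ⊆ G) : HC f G' :=
  fun γ O hO hγ hm => h γ O hO hγ (hm.mono_right hs)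
theorem HC.congr {f g : P → F} (h : HC f G) (hs : EqOn g f G) : HC g G :=
  fun γ O hO hγ hm => (h γ O hO hγ hm).congr fun _ h' => hs (hm h')
theorem HC.of_diff {f : P → F} (h : DifferentiableOn ℂ f G) : HC f G :=
  fun _ _ _ hγ hm => h.comp hγ hm
theorem HC.comp {f : Q → F} {g : P → Q} {G' : Set Q} (hf : HC f G') (hg : HC g G)
    (hm : MapsTo g G G') : HC (fun p => f (g p)) G :=
  fun γ O hO hγ hm' => hf (fun s => g (γ s)) O hO (hg γ O hO hγ hm') (hm.comp hm')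
theorem HC.const (c : F) : HC (fun _ : P => c) G := fun _ _ _ _ _ => differentiableOn_const c
theorem HC.id : HC (fun p : P => p) G := fun _ _ _ hγ _ => hγ
theorem HC.prodMk {f : P → F} {g : P → Q} (hf : HC f G) (hg : HC g G) :
    HC (fun p => (f p, g p)) G :=
  fun γ O hO hγ hm => (hf γ O hO hγ hm).prodMk (hg γ O hO hγ hm)
theorem HC.fst {f : P → F × Q} (hf : HC f G) : HC (fun p => (f p).1) G :=
  fun γ O hO hγ hm => (hf γ O hO hγ hm).fst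
theorem HC.snd {f : P → F × Q} (hf : HC f G) : HC (fun p => (f p).2) G :=
  fun γ O hO hγ hm => (hf γ O hO hγ hm).snd
theorem HC.add {f g : P → ℂ} (hf : HC f G) (hg : HC g G) : HC (fun p => f p + g p) G :=
  fun γ O hO hγ hm => (hf γ O hO hγ hm).add (hg γ O hO hγ hm)
theorem HC.sub {f g : P → ℂ} (hf : HC f G) (hg : HC g G) : HC (fun p => f p - g p) G :=
  fun γ O hO hγ hm => (hf γ O hO hγ hm).sub (hg γ O hO hγ hm)
theorem HC.mul {f g : P → ℂ} (hf : HC f G) (hg : HC g G) : HC (fun p => f p * g p) G :=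
  fun γ O hO hγ hm => (hf γ O hO hγ hm).mul (hg γ O hO hγ hm)
theorem HC.neg {f : P → ℂ} (hf : HC f G) : HC (fun p => -f p) G :=
  fun γ O hO hγ hm => (hf γ O hO hγ hm).neg
theorem HC.pow {f : P → ℂ} (hf : HC f G) (n : ℕ) : HC (fun p => f p ^ n) G :=
  fun γ O hO hγ hm => (hf γ O hO hγ hm).pow n
theorem HC.div {f g : P → ℂ} (hf : HC f G) (hg : HC g G) (h : ∀ p ∈ G, g p ≠ 0) :
    HC (fun p => f p / g p) G :=
  fun γ O hO hγ hm => (hf γ O hO hγ hm).div (hg γ O hO hγ hm) fun _ hs => h _ (hm hs)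
theorem HC.isq {f : P → ℂ} (hf : HC f G) (h : ∀ p ∈ G, f p ∈ Complex.slitPlane) :
    HC (fun p => isq (f p)) G := fun γ O hO hγ hm s hs =>
  DifferentiableAt.comp_differentiableWithinAt (g := Bon3.isq) s
    (isq_hasDerivAt (h _ (hm hs))).differentiableAt (hf γ O hO hγ hm s hs)
theorem HC.csq {f : P → ℂ} (hf : HC f G) (h : ∀ p ∈ G, f p ∈ Complex.slitPlane) :
    HC (fun p => csq (f p)) G := fun γ O hO hγ hm s hs =>
  DifferentiableAt.comp_differentiableWithinAt (g := Bon3.csq) s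
    (csq_hasDerivAt (h _ (hm hs))).differentiableAt (hf γ O hO hγ hm s hs)
theorem HC.diffOn {f : ℂ → F} {O : Set ℂ} (h : HC f O) (hO : IsOpen O) :
    DifferentiableOn ℂ f O := h (fun s => s) O hO differentiableOn_id (mapsTo_id O)

/-- derivative under the integral, one complex variable -/
theorem hasDerivAt_int {α : Type} [MeasurableSpace α] {μ : Measure α} {f : ℂ → α → ℂ} {b : α → ℝ}
    {O : Set ℂ} (hO : IsOpen O) (hf : ∀ᵐ a ∂μ, DifferentiableOn ℂ (fun s => f s a) O)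
    (hm : ∀ s ∈ O, AEStronglyMeasurable (f s) μ) (hb : ∀ᵐ a ∂μ, ∀ s ∈ O, ‖f s a‖ ≤ b a)
    (ib : Integrable b μ) {s : ℂ} (hs : s ∈ O) :
    Integrable (fun a => deriv (fun s => f s a) s) μ ∧
      HasDerivAt (fun s => ∫ a, f s a ∂μ) (∫ a, deriv (fun s => f s a) s ∂μ) s := by
  obtain ⟨R, R0, hR⟩ := Metric.isOpen_iff.1 hO s hs
  have hd : ∀ᵐ a ∂μ, HasDerivAt (fun s => f s a) (deriv (fun s => f s a) s) s :=
    hf.mono fun a ha => (ha.differentiableAt (hO.mem_nhds hs)).hasDerivAt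
  obtain ⟨u, hu⟩ : ∃ u : ℕ → ℂ, Tendsto u atTop (𝓝[≠] s) ∧ ∀ n, u n ∈ O := by
    obtain ⟨u, h1, h2⟩ := exists_seq_forall_of_frequently (l := 𝓝[≠] s) (p := fun x => x ∈ O)
      (Eventually.frequently (mem_nhdsWithin_of_mem_nhds (hO.mem_nhds hs)))
    exact ⟨u, h1, h2⟩
  refine hasDerivAt_integral_of_dominated_loc_of_lip (bound := fun a => 5 * b a / R)
    (ball_mem_nhds s (show 0 < 3 / 4 * R by positivity))
    (mem_of_superset (hO.mem_nhds hs) hm) (ib.mono' (hm s hs) (hb.mono fun a ha => ha s hs)) ?_ ?_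
    ((ib.const_mul 5).div_const R) hd
  · refine aestronglyMeasurable_of_tendsto_ae atTop
      (f := fun n a => slope (fun s => f s a) s (u n)) (fun n => ?_)
      (hd.mono fun a ha => (hasDerivAt_iff_tendsto_slope.1 ha).comp hu.1)
    simp only [slope_def_field]
    exact ((hm _ (hu.2 n)).sub (hm s hs)).mul_const _
  · filter_upwards [hf, hb] with a h1 h2
    refine LipschitzOnWith.of_dist_le_mul fun y hy y' hy' => ?_
    rw [dist_eq_norm, dist_eq_norm, Real.coe_nnabs]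
    exact (lip_ball (h1.mono hR) (fun s hs => h2 s (hR hs)) hy hy').trans
      (mul_le_mul_of_nonneg_right (le_abs_self _) (norm_nonneg _))

/-- parametric integrals -/
theorem HC.integral {α : Type} [MeasurableSpace α] {μ : Measure α} {f : P → α → ℂ} {b : α → ℝ}
    (hf : ∀ᵐ a ∂μ, HC (fun p => f p a) G) (hm : ∀ p ∈ G, AEStronglyMeasurable (f p) μ)
    (hb : ∀ᵐ a ∂μ, ∀ p ∈ G, ‖f p a‖ ≤ b a) (ib : Integrable b μ) :
    HC (fun p => ∫ a, f p a ∂μ) G := fun γ O hO hγ h _ hs =>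
  (hasDerivAt_int (f := fun s => f (γ s)) hO (hf.mono fun _ ha => ha γ O hO hγ h)
    (fun _ hs => hm _ (h hs)) (hb.mono fun _ ha _ hs => ha _ (h hs)) ib
    hs).2.differentiableAt.differentiableWithinAt

theorem HC.limit {f : ℕ → P → ℂ} {g : P → ℂ} (hf : ∀ n, HC (f n) G)
    (h : TendstoUniformlyOn f g atTop G) : HC g G := fun γ O hO hγ hm =>
  ((h.comp γ).mono hm).tendstoLocallyUniformlyOn.differentiableOn
    (.of_forall fun n => hf n γ O hO hγ hm) hO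

/-- holomorphic fixed point; `R` is a set of real parameters -/
theorem HC.fixed {c : P → ℂ} {r : P → ℝ} {r0 : ℝ} {Φ : P × ℂ → ℂ} (R : Set P) (hc : HC c G)
    (hr : ∀ p ∈ G, 0 ≤ r p ∧ r p ≤ r0)
    (hΦ : HC Φ {x | x.1 ∈ G ∧ ‖x.2 - c x.1‖ ≤ r x.1})
    (h0 : ∀ p ∈ G, ‖Φ (p, c p) - c p‖ ≤ r p / 2)
    (hl : ∀ p ∈ G, ∀ y y', ‖y - c p‖ ≤ r p → ‖y' - c p‖ ≤ r p →
      ‖Φ (p, y) - Φ (p, y')‖ ≤ 1 / 2 * ‖y - y'‖)
    (hR : ∀ p ∈ G, p ∈ R → (c p).im = 0 ∧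
      ∀ y : ℝ, ‖(y : ℂ) - c p‖ ≤ r p → (Φ (p, y)).im = 0) :
    ∃ y : P → ℂ, HC y G ∧ (∀ p ∈ G, ‖y p - c p‖ ≤ r p ∧ Φ (p, y p) = y p ∧
      ∀ y', ‖y' - c p‖ ≤ r p → Φ (p, y') = y' → y' = y p) ∧
      ∀ p ∈ G, p ∈ R → (y p).im = 0 := by
  obtain ⟨u, u0, u1⟩ : ∃ u : ℕ → P → ℂ, u 0 = c ∧ ∀ n p, u (n + 1) p = Φ (p, u n p) :=
    ⟨fun n => Nat.rec c (fun _ y p => Φ (p, y p)) n, rfl, fun _ _ => rfl⟩
  have a1 : ∀ p ∈ G, ∀ n, ‖u n p - c p‖ ≤ r p := fun p hp n => by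
    induction n with
    | zero => simpa [u0] using (hr p hp).1
    | succ n ih =>
      have h1 := hl p hp _ (c p) ih (by simpa using (hr p hp).1)
      have h2 := norm_sub_le_norm_sub_add_norm_sub (Φ (p, u n p)) (Φ (p, c p)) (c p)
      have h3 := h0 p hp
      rw [u1]
      linarith
  have a2 : ∀ p ∈ G, ∀ n, dist (u n p) (u (n + 1) p) ≤ r0 / 2 / 2 ^ n := fun p hp n => by
    rw [dist_comm, dist_eq_norm]
    induction n with
    | zero =>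
      have := h0 p hp
      have := (hr p hp).2
      rw [u1, u0, pow_zero]
      linarith
    | succ n ih =>
      have h1 := hl p hp _ _ (a1 p hp (n + 1)) (a1 p hp n)
      rw [← u1, ← u1] at h1
      rw [pow_succ, ← div_div]
      linarith
  have a3 : ∀ n, HC (u n) G := fun n => by
    induction n with
    | zero => rwa [u0]
    | succ n ih =>
      rw [funext (u1 n)]
      exact hΦ.comp (HC.id.prodMk ih) fun p hp => ⟨hp, a1 p hp n⟩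
  have a4 : ∀ p ∈ G, Tendsto (fun n => u n p) atTop (𝓝 (limUnder atTop fun n => u n p)) :=
    fun p hp => (cauchySeq_of_le_geometric_two (a2 p hp)).tendsto_limUnder
  have a5 : ∀ p ∈ G, ‖(limUnder atTop fun n => u n p) - c p‖ ≤ r p := fun p hp =>
    le_of_tendsto' ((a4 p hp).sub_const _).norm (a1 p hp)
  have a6 : ∀ p ∈ G, Φ (p, limUnder atTop fun n => u n p) = limUnder atTop fun n => u n p :=
    fun p hp => by
      refine tendsto_nhds_unique ?_ ((a4 p hp).comp (tendsto_add_atTop_nat 1))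
      rw [tendsto_iff_norm_sub_tendsto_zero]
      refine squeeze_zero (fun _ => norm_nonneg _) (fun n => ?_) (by
        simpa using (tendsto_iff_norm_sub_tendsto_zero.1 (a4 p hp)).const_mul (1 / 2))
      simpa [u1] using hl p hp _ _ (a1 p hp n) (a5 p hp)
  refine ⟨fun p => limUnder atTop fun n => u n p, HC.limit a3 ?_, fun p hp =>
    ⟨a5 p hp, a6 p hp, fun y' h1 h2 => ?_⟩, fun p hp hpR => ?_⟩
  · rw [Metric.tendstoUniformlyOn_iff]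
    intro ε hε
    have : Tendsto (fun n : ℕ => r0 / 2 ^ n) atTop (𝓝 0) :=
      tendsto_const_nhds.div_atTop (tendsto_pow_atTop_atTop_of_one_lt one_lt_two)
    filter_upwards [this.eventually (gt_mem_nhds hε)] with n hn p hp
    rw [dist_comm]
    exact (dist_le_of_le_geometric_two_of_tendsto (a2 p hp) (a4 p hp) n).trans_lt hn
  · have := hl p hp _ _ h1 (a5 p hp)
    rw [h2, a6 p hp] at this
    exact sub_eq_zero.1 (norm_le_zero_iff.1 (by linarith))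
  · have : ∀ n, (u n p).im = 0 := fun n => by
      induction n with
      | zero => rw [u0]; exact (hR p hp hpR).1
      | succ n ih =>
        have e : u n p = ((u n p).re : ℂ) := Complex.ext rfl (by simpa using ih)
        rw [u1, e]
        exact (hR p hp hpR).2 _ (e ▸ a1 p hp n)
    exact tendsto_nhds_unique ((Complex.continuous_im.tendsto _).comp (a4 p hp))
      (tendsto_const_nhds.congr fun n => (this n).symm)

theorem HC.tb_local {f : P → F} (h : ∀ p ∈ G, ∃ ρ > 0, HC f (ball p ρ)) : HC f G := by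
  intro γ O hO hγ hm s hs
  obtain ⟨ρ, ρ0, hf⟩ := h _ (hm hs)
  have o := hγ.continuousOn.isOpen_inter_preimage hO (isOpen_ball (x := γ s) (ε := ρ))
  exact ((hf γ _ o (hγ.mono inter_subset_left) fun _ h => h.2).differentiableAt
    (o.mem_nhds ⟨hs, mem_ball_self ρ0⟩)).differentiableWithinAt

omit [NormedSpace ℂ P] in
theorem tb_ball {f : P → ℂ} (hG : IsOpen G) (hb : ∀ p ∈ G, ∃ M, ∀ᶠ r in 𝓝 p, ‖f r‖ ≤ M) {p : P}
    (hp : p ∈ G) : ∃ ρ > 0, ∃ M, ∀ r ∈ ball p ρ, r ∈ G ∧ ‖f r‖ ≤ M := by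
  obtain ⟨M, hM⟩ := hb p hp
  obtain ⟨ρ, ρ0, h⟩ := Metric.eventually_nhds_iff_ball.1 ((hG.eventually_mem hp).and hM)
  exact ⟨ρ, ρ0, M, h⟩

theorem HC.tb_line {f : P → ℂ} (hf : HC f G) {p v : P} {O : Set ℂ} (hO : IsOpen O)
    (h : ∀ t ∈ O, p + t • v ∈ G) : DifferentiableOn ℂ (fun t : ℂ => f (p + t • v)) O :=
  hf _ O hO (by fun_prop) h

theorem HC.tb_dir {f : P → ℂ} (hG : IsOpen G) (hf : HC f G)
    (hb : ∀ p ∈ G, ∃ M, ∀ᶠ r in 𝓝 p, ‖f r‖ ≤ M) {v : P} (hv : ‖v‖ ≤ 1) :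
    HC (fun p => deriv (fun t : ℂ => f (p + t • v)) 0) G := by
  refine HC.tb_local fun p0 hp0 => ?_
  obtain ⟨ρ, ρ0, M, hM⟩ := tb_ball hG hb hp0
  have m : ∀ p ∈ ball p0 (ρ / 2), ∀ t : ℂ, ‖t‖ < ρ / 2 → p + t • v ∈ ball p0 ρ := fun p hp t ht => by
    rw [mem_ball_iff_norm] at hp ⊢
    have h1 := norm_add_le (p - p0) (t • v)
    have h2 := mul_le_mul_of_nonneg_left hv (norm_nonneg t)
    rw [norm_smul] at h1
    rw [add_sub_right_comm]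
    linarith
  obtain ⟨δ, hδ⟩ : ∃ δ : ℕ → ℝ, ∀ n, δ n = ρ / 2 / (n + 2) := ⟨_, fun _ => rfl⟩
  have δ0 : ∀ n, 0 < δ n := fun n => by rw [hδ]; positivity
  have δ1 : ∀ n : ℕ, ∀ t ∈ ball (0 : ℂ) (n + 2), ‖t * δ n‖ < ρ / 2 := fun n t ht => by
    rw [mem_ball_zero_iff] at ht
    rw [norm_mul, Complex.norm_real, Real.norm_of_nonneg (δ0 n).le]
    refine (mul_lt_mul_of_pos_right ht (δ0 n)).trans_eq ?_
    rw [hδ]
    field_simp
  refine ⟨ρ / 2, by positivity, HC.limit (f := fun n p => (f (p + (δ n : ℂ) • v) - f p) / δ n)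
    (fun n => ?_) ?_⟩
  · refine ((hf.comp (HC.of_diff (by fun_prop)) fun p hp => (hM _ (m p hp _ ?_)).1).sub
      (hf.mono fun p hp => (hM _ (ball_subset_ball (by linarith) hp)).1)).div (HC.const _)
      fun _ _ => Complex.ofReal_ne_zero.2 (δ0 n).ne'
    simpa using δ1 n 1 (by rw [mem_ball_zero_iff, norm_one]; linarith [n.cast_nonneg (α := ℝ)])
  · rw [Metric.tendstoUniformlyOn_iff]
    intro ε hε
    have : Tendsto (fun n : ℕ => 32 * M / ρ / ((n : ℝ) + 2)) atTop (𝓝 0) :=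
      tendsto_const_nhds.div_atTop (tendsto_atTop_add_const_right _ _ tendsto_natCast_atTop_atTop)
    filter_upwards [this.eventually (gt_mem_nhds hε)] with n hn p hp
    have d0 : (δ n : ℂ) ≠ 0 := Complex.ofReal_ne_zero.2 (δ0 n).ne'
    have h1 : HasDerivAt (fun t : ℂ => f (p + t • v)) (deriv (fun t : ℂ => f (p + t • v)) 0)
        (0 * δ n) := by
      rw [zero_mul]
      exact ((hf.tb_line isOpen_ball fun t ht => (hM _ (m p hp t (mem_ball_zero_iff.1 ht))).1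
        ).differentiableAt (ball_mem_nhds _ (by positivity))).hasDerivAt
    have h2 := schwarz2 (f := fun t => f (p + (t * δ n) • v)) (R := n + 2) (M := M)
      (hf _ _ isOpen_ball (by fun_prop) fun t ht => (hM _ (m p hp _ (δ1 n t ht))).1)
      (fun t ht => (hM _ (m p hp _ (δ1 n t ht))).2) (by linarith [n.cast_nonneg (α := ℝ)])
    have h3 : HasDerivAt (fun t : ℂ => f (p + (t * δ n) • v)) _ 0 :=
      HasDerivAt.comp (h₂ := fun t : ℂ => f (p + t • v)) (h := fun t : ℂ => t * δ n) (0 : ℂ) h1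
        (hasDerivAt_mul_const (δ n : ℂ))
    rw [h3.deriv, one_mul, zero_mul, zero_smul, add_zero] at h2
    refine lt_of_le_of_lt ?_ hn
    rw [dist_comm, dist_eq_norm, div_sub' d0, norm_div, Complex.norm_real,
      Real.norm_of_nonneg (δ0 n).le, div_le_iff₀ (δ0 n), mul_comm (δ n : ℂ)]
    refine h2.trans_eq ?_
    rw [hδ]
    field_simp
    ring
end

/-- derivative in the second variable on an open set, for a locally bounded function -/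
theorem HC.d2_open {f : ℂ × ℂ → ℂ} {G : Set (ℂ × ℂ)} (hG : IsOpen G) (hf : HC f G)
    (hb : ∀ p ∈ G, ∃ M, ∀ᶠ r in 𝓝 p, ‖f r‖ ≤ M) : HC (d2 f) G :=
  (hf.tb_dir hG hb (v := (0, 1)) (by simp)).congr fun p _ => by
    have := deriv_comp_const_add (fun ζ => f (p.1, ζ)) p.2 0
    rw [add_zero] at this
    rw [d2, ← this]
    congr 1
    funext t
    congr 1
    exact Prod.ext (by simp) (by simp)
theorem HC.d1_open {f : ℂ × ℂ → ℂ} {G : Set (ℂ × ℂ)} (hG : IsOpen G) (hf : HC f G)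
    (hb : ∀ p ∈ G, ∃ M, ∀ᶠ r in 𝓝 p, ‖f r‖ ≤ M) : HC (d1 f) G :=
  (hf.tb_dir hG hb (v := (1, 0)) (by simp)).congr fun p _ => by
    have := deriv_comp_const_add (fun l => f (l, p.2)) p.1 0
    rw [add_zero] at this
    rw [d1, ← this]
    congr 1
    funext t
    congr 1
    exact Prod.ext (by simp) (by simp)
theorem HC.continuousOn {f : ℂ × ℂ → ℂ} {G : Set (ℂ × ℂ)} (hG : IsOpen G) (hf : HC f G)
    (hb : ∀ p ∈ G, ∃ M, ∀ᶠ r in 𝓝 p, ‖f r‖ ≤ M) : ContinuousOn f G := by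
  intro p hp
  obtain ⟨ρ, ρ0, M, hM⟩ := tb_ball hG hb hp
  refine ContinuousAt.continuousWithinAt (tendsto_iff_norm_sub_tendsto_zero.2 ?_)
  refine squeeze_zero' (g := fun r => 2 * M / ρ * ‖r - p‖) (.of_forall fun _ => norm_nonneg _)
    (mem_of_superset (ball_mem_nhds p ρ0) fun r hr => ?_)
    (by simpa using (tendsto_norm_sub_self p).const_mul (2 * M / ρ))
  rcases eq_or_ne r p with rfl | h
  · simp
  have n0 : 0 < ‖r - p‖ := norm_sub_pos_iff.2 h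
  have m : ∀ t ∈ ball (0 : ℂ) (ρ / ‖r - p‖), p + t • (r - p) ∈ ball p ρ := fun t ht => by
    rwa [mem_ball_iff_norm, add_sub_cancel_left, norm_smul, ← lt_div_iff₀ n0, ← mem_ball_zero_iff]
  have := schwarz1 (z := 1) (hf.tb_line isOpen_ball fun t ht => (hM _ (m t ht)).1)
    (fun t ht => (hM _ (m t ht)).2) (by rwa [norm_one, one_lt_div n0, ← mem_ball_iff_norm])
  simp only [one_smul, zero_smul, add_zero, add_sub_cancel, norm_one, mul_one] at this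
  exact this.trans_eq (by field_simp)
theorem HC.hasDerivAt2 {f : ℂ × ℂ → ℂ} {G : Set (ℂ × ℂ)} (hG : IsOpen G) (hf : HC f G)
    {p : ℂ × ℂ} (hp : p ∈ G) : HasDerivAt (sl f p.1) (d2 f p) p.2 :=
  have o : IsOpen {ζ : ℂ | (p.1, ζ) ∈ G} := hG.preimage (by fun_prop)
  ((hf (fun ζ => (p.1, ζ)) _ o (by fun_prop) fun _ h => h).differentiableAt
    (o.mem_nhds hp)).hasDerivAt
theorem HC.hasDerivAt1 {f : ℂ × ℂ → ℂ} {G : Set (ℂ × ℂ)} (hG : IsOpen G) (hf : HC f G)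
    {p : ℂ × ℂ} (hp : p ∈ G) : HasDerivAt (fun l => f (l, p.2)) (d1 f p) p.1 :=
  have o : IsOpen {l : ℂ | (l, p.2) ∈ G} := hG.preimage (by fun_prop)
  ((hf (fun l => (l, p.2)) _ o (by fun_prop) fun _ h => h).differentiableAt
    (o.mem_nhds hp)).hasDerivAt

theorem tb_d2 {θ d Λ M : ℝ} {k j : ℕ} {f : ℂ × ℂ → ℂ} (d0 : 0 < d) (hd : d ≤ θ) (h1 : θ ≤ th0)
    (hk : k ≤ 5) (hj : j ≤ 5) (hf : HC f {p | p.2 ∈ Sec θ ∧ ‖p.1‖ * ‖p.2‖ ^ j < Λ})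
    (hM : ∀ p ∈ {p : ℂ × ℂ | p.2 ∈ Sec θ ∧ ‖p.1‖ * ‖p.2‖ ^ j < Λ}, ‖f p‖ ≤ M * ‖p.2‖ ^ k) :
    HC (d2 f) {p | p.2 ∈ Sec θ ∧ ‖p.1‖ * ‖p.2‖ ^ j < Λ} ∧
      ∀ p : ℂ × ℂ, p.2 ∈ Sec (θ - d) → ‖p.1‖ * ‖p.2‖ ^ j < Λ / 2 →
        ‖d2 f p‖ * ‖p.2‖ ≤ 5 * M / d * ‖p.2‖ ^ k := by
  have o : IsOpen {p : ℂ × ℂ | p.2 ∈ Sec θ ∧ ‖p.1‖ * ‖p.2‖ ^ j < Λ} :=
    ((isOpen_Sec θ).preimage continuous_snd).inter (isOpen_lt
      (f := fun p : ℂ × ℂ => ‖p.1‖ * ‖p.2‖ ^ j) (by fun_prop) continuous_const)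
  refine ⟨hf.d2_open o fun p hp => ⟨|M| * (1 + 3 * θ) ^ k, (o.eventually_mem hp).mono fun r hr =>
    (hM r hr).trans (mul_le_mul (le_abs_self _) (pow_le_pow_left₀ (norm_nonneg _)
      (Sec_norm (d0.le.trans hd) h1 hr.1).2.1 k) (by positivity) (abs_nonneg _))⟩,
    fun p hp hl => ?_⟩
  have n0 : 0 < ‖p.2‖ := norm_pos_iff.2 (Sec_ne hp)
  have d1 : d ≤ 1 / 10 ^ 6 := hd.trans h1
  have e : ∀ i ≤ 5, ∀ ζ ∈ closedBall p.2 (d / 4 * ‖p.2‖), ‖ζ‖ ^ i ≤ 5 / 4 * ‖p.2‖ ^ i :=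
    fun i hi ζ hζ => by
      have h2 := norm_le_of_mem_closedBall hζ
      have h3 : ‖ζ‖ ≤ 101 / 100 * ‖p.2‖ := by nlinarith
      refine (pow_le_pow_left₀ (norm_nonneg _) h3 i).trans ?_
      rw [mul_pow]
      exact mul_le_mul_of_nonneg_right ((pow_le_pow_right₀ (by norm_num) hi).trans (by norm_num))
        (by positivity)
  have m : ∀ ζ ∈ closedBall p.2 (d / 4 * ‖p.2‖), (p.1, ζ) ∈
      {p : ℂ × ℂ | p.2 ∈ Sec θ ∧ ‖p.1‖ * ‖p.2‖ ^ j < Λ} := fun ζ hζ => ⟨Sec_ball d0 hd h1 hp hζ, by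
    have h2 := mul_le_mul_of_nonneg_left (e j hj ζ hζ) (norm_nonneg p.1)
    have h3 : 0 ≤ ‖p.1‖ * ‖p.2‖ ^ j := by positivity
    simp only
    linarith⟩
  have M0 : 0 ≤ M := nonneg_of_mul_nonneg_left ((norm_nonneg _).trans
    (hM _ (m p.2 (mem_closedBall_self (by positivity))))) (pow_pos n0 k)
  have o' : IsOpen {ζ : ℂ | (p.1, ζ) ∈ {p : ℂ × ℂ | p.2 ∈ Sec θ ∧ ‖p.1‖ * ‖p.2‖ ^ j < Λ}} :=
    o.preimage (by fun_prop)
  have h2 := Complex.norm_deriv_le_of_forall_mem_sphere_norm_le (c := p.2) (R := d / 4 * ‖p.2‖)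
    (C := M * (5 / 4 * ‖p.2‖ ^ k)) (f := fun ζ => f (p.1, ζ)) (by positivity)
    ((hf (fun ζ => (p.1, ζ)) _ o' (by fun_prop) fun _ h => h).diffContOnCl_ball m) fun ζ hζ =>
      (hM _ (m ζ (sphere_subset_closedBall hζ))).trans
        (mul_le_mul_of_nonneg_left (e k hk ζ (sphere_subset_closedBall hζ)) M0)
  refine (mul_le_mul_of_nonneg_right h2 n0.le).trans_eq ?_
  field_simp

theorem d2_G1 {θ d Λ M : ℝ} {k : ℕ} {f : ℂ × ℂ → ℂ} (d0 : 0 < d) (hd : d ≤ θ) (h1 : θ ≤ th0)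
    (hk : k ≤ 5) (hf : HC f (G1 θ Λ)) (hM : ∀ p ∈ G1 θ Λ, ‖f p‖ ≤ M * ‖p.2‖ ^ k) :
    HC (d2 f) (G1 θ Λ) ∧
      ∀ p ∈ G1 (θ - d) (Λ / 2), ‖d2 f p‖ * ‖p.2‖ ≤ 5 * M / d * ‖p.2‖ ^ k := by
  have := tb_d2 (j := 1) (Λ := Λ) (M := M) (f := f) d0 hd h1 hk (by norm_num)
  simp only [pow_one] at this
  exact ⟨(this hf hM).1, fun p hp => (this hf hM).2 p hp.1 hp.2⟩
theorem d2_G2 {θ d Λ M : ℝ} {k : ℕ} {f : ℂ × ℂ → ℂ} (d0 : 0 < d) (hd : d ≤ θ) (h1 : θ ≤ th0)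
    (hk : k ≤ 5) (hf : HC f (G2 θ Λ)) (hM : ∀ p ∈ G2 θ Λ, ‖f p‖ ≤ M * ‖p.2‖ ^ k) :
    HC (d2 f) (G2 θ Λ) ∧
      ∀ p ∈ G2 (θ - d) (Λ / 2), ‖d2 f p‖ * ‖p.2‖ ≤ 5 * M / d * ‖p.2‖ ^ k :=
  have := tb_d2 (j := 2) d0 hd h1 hk (by norm_num) hf hM
  ⟨this.1, fun p hp => this.2 p hp.1 hp.2⟩

theorem tb_schwarz {θ Λ M : ℝ} {k j : ℕ} {f : ℂ × ℂ → ℂ}
    (hf : HC f {p | p.2 ∈ Sec θ ∧ ‖p.1‖ * ‖p.2‖ ^ j < Λ})
    (hM : ∀ p ∈ {p : ℂ × ℂ | p.2 ∈ Sec θ ∧ ‖p.1‖ * ‖p.2‖ ^ j < Λ}, ‖f p‖ ≤ M * ‖p.2‖ ^ k)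
    {p : ℂ × ℂ} (hp : p.2 ∈ Sec θ) (hl : ‖p.1‖ * ‖p.2‖ ^ j < Λ) :
    ‖f p - f (0, p.2)‖ ≤ 2 * M / Λ * ‖p.1‖ * ‖p.2‖ ^ (k + j) := by
  have n0 : 0 < ‖p.2‖ ^ j := pow_pos (norm_pos_iff.2 (Sec_ne hp)) j
  have m : ∀ l ∈ ball (0 : ℂ) (Λ / ‖p.2‖ ^ j), (l, p.2) ∈
      {p : ℂ × ℂ | p.2 ∈ Sec θ ∧ ‖p.1‖ * ‖p.2‖ ^ j < Λ} := fun l h =>
    ⟨hp, (lt_div_iff₀ n0).1 (mem_ball_zero_iff.1 h)⟩
  refine (schwarz1 (f := fun l => f (l, p.2)) (M := M * ‖p.2‖ ^ k)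
    (hf (fun l => (l, p.2)) _ isOpen_ball (by fun_prop) m)
    (fun l h => hM _ (m l h)) ((lt_div_iff₀ n0).2 hl)).trans_eq ?_
  rw [div_div_eq_mul_div, pow_add]
  ring

theorem schwarz_G1 {θ Λ M : ℝ} {k : ℕ} {f : ℂ × ℂ → ℂ} (hf : HC f (G1 θ Λ))
    (hM : ∀ p ∈ G1 θ Λ, ‖f p‖ ≤ M * ‖p.2‖ ^ k) {p : ℂ × ℂ} (hp : p ∈ G1 θ Λ) :
    ‖f p - f (0, p.2)‖ ≤ 2 * M / Λ * ‖p.1‖ * ‖p.2‖ ^ (k + 1) := by
  have := tb_schwarz (j := 1) (θ := θ) (Λ := Λ) (M := M) (k := k) (f := f) (p := p)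
  simp only [pow_one] at this
  exact this hf hM hp.1 hp.2
theorem schwarz_G2 {θ Λ M : ℝ} {k : ℕ} {f : ℂ × ℂ → ℂ} (hf : HC f (G2 θ Λ))
    (hM : ∀ p ∈ G2 θ Λ, ‖f p‖ ≤ M * ‖p.2‖ ^ k) {p : ℂ × ℂ} (hp : p ∈ G2 θ Λ) :
    ‖f p - f (0, p.2)‖ ≤ 2 * M / Λ * ‖p.1‖ * ‖p.2‖ ^ (k + 2) :=
  tb_schwarz (j := 2) hf hM hp.1 hp.2

end Bon3
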