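import Pool.Agent.Lib.MP_3dbf58_gt.BaseD
import Pool.Agent.Lib.MP_3dbf58_gt.Tool

/-! Elementary estimates for the radicand of the base body. -/

open Set Filter Topology MeasureTheory Metric

noncomputable section

namespace Bon3.BA1

theorem tri3 (a b c : ℂ) : ‖a - b + c‖ ≤ ‖a‖ + ‖b‖ + ‖c‖ :=
  (norm_add_le _ _).trans (by gcongr; exact norm_sub_le _ _)

theorem na : ‖(6582 - 4 / 10 ^ 30 : ℂ)‖ ≤ 6582 := by
  have : (6582 - 4 / 10 ^ 30 : ℂ) = ((6582 - 4 / 10 ^ 30 : ℝ) : ℂ) := by push_cast; rfl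
  rw [this, Complex.norm_real, Real.norm_eq_abs, abs_of_nonneg (by norm_num)]
  norm_num

theorem ph_le {c : ℂ} {ρ : ℝ} (h : ‖c‖ ≤ ρ) :
    ‖ph c‖ ≤ 6582 * ρ ^ 2 + 10528 * ρ ^ 4 + 4784 * ρ ^ 6 := by
  refine (tri3 _ _ _).trans ?_
  simp only [norm_mul, norm_pow, Complex.norm_ofNat]
  have := na
  have h0 := norm_nonneg c
  gcongr

theorem ph'_le {c : ℂ} (h : ‖c‖ ≤ 2) : ‖ph' c‖ ≤ 2 * 10 ^ 6 := by
  refine (tri3 _ _ _).trans ?_
  simp only [norm_mul, norm_pow, Complex.norm_ofNat]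
  have := na
  have h0 := norm_nonneg c
  calc 2 * ‖(6582 - 4 / 10 ^ 30 : ℂ)‖ * ‖c‖ + 42112 * ‖c‖ ^ 3 + 28704 * ‖c‖ ^ 5
      ≤ 2 * 6582 * 2 + 42112 * 2 ^ 3 + 28704 * 2 ^ 5 := by gcongr
    _ ≤ _ := by norm_num

theorem rr_le {c : ℂ} (h : ‖c‖ ≤ 2) : ‖rr c‖ ≤ 10 ^ 6 := by
  refine (tri3 _ _ _).trans ?_
  simp only [norm_mul, norm_pow, norm_div, Complex.norm_ofNat]
  have := na
  have h0 := norm_nonneg c
  calc 2 / 3 * ‖(6582 - 4 / 10 ^ 30 : ℂ)‖ * ‖c‖ ^ 3 + 42112 / 5 * ‖c‖ ^ 5 + 28704 / 7 * ‖c‖ ^ 7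
      ≤ 2 / 3 * 6582 * 2 ^ 3 + 42112 / 5 * 2 ^ 5 + 28704 / 7 * 2 ^ 7 := by gcongr
    _ ≤ _ := by norm_num

theorem HH'_le {γ c : ℂ} (hγ : ‖γ‖ < 1 / 10 ^ 10) (h : ‖c‖ ≤ 2) : ‖HH' γ c‖ ≤ 101 / 100 := by
  have e : HH' γ c = 1 + γ * (rr c + c ^ 2 * ph' c - ph' c) := by unfold HH' TT'; ring
  have h1 := rr_le h
  have h2 := ph'_le h
  have h0 := norm_nonneg c
  have k : ‖rr c + c ^ 2 * ph' c - ph' c‖ ≤ 10 ^ 6 + 2 ^ 2 * (2 * 10 ^ 6) + 2 * 10 ^ 6 := by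
    refine (norm_sub_le _ _).trans (add_le_add ((norm_add_le _ _).trans ?_) h2)
    rw [norm_mul, norm_pow]
    gcongr
  rw [e]
  refine (norm_add_le _ _).trans ?_
  rw [norm_one, norm_mul]
  have : ‖γ‖ * ‖rr c + c ^ 2 * ph' c - ph' c‖ ≤
      1 / 10 ^ 10 * (10 ^ 6 + 2 ^ 2 * (2 * 10 ^ 6) + 2 * 10 ^ 6) := by gcongr
  norm_num at this ⊢
  linarith

/-- remainder of the radicand -/
def RR (σ y γ c : ℂ) : ℂ := NB σ y γ c - (1 - (1 + σ) * c ^ 2)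

theorem RR_le {σ y γ c : ℂ} (hp : (σ, y, γ) ∈ PD) (h : ‖c‖ ≤ 2) : ‖RR σ y γ c‖ ≤ 1 / 500 := by
  obtain ⟨h1, h2, h3⟩ : ‖σ‖ < 1 / 10 ∧ ‖y‖ < 1 / 10 ^ 3 ∧ ‖γ‖ < 1 / 10 ^ 10 := hp
  have h0 := norm_nonneg c
  have hr := rr_le h
  have hph : ‖ph c‖ ≤ 10 ^ 6 := (ph_le h).trans (by norm_num)
  set u := γ * rr c with hu
  set e := γ * (c * rr c - ph c) + y with he
  have eq : RR σ y γ c = (1 - c ^ 2) * (u * (2 + u)) - σ * (e * (2 * c + e)) := by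
    unfold RR NB XX HH TT; rw [hu, he]; ring
  have nu : ‖u‖ ≤ 1 / 10 ^ 4 := by
    rw [hu, norm_mul]
    calc ‖γ‖ * ‖rr c‖ ≤ 1 / 10 ^ 10 * 10 ^ 6 := by gcongr
      _ = _ := by norm_num
  have ne : ‖e‖ ≤ 13 / 10 ^ 4 := by
    rw [he]
    refine (norm_add_le _ _).trans ?_
    have k : ‖c * rr c - ph c‖ ≤ 2 * 10 ^ 6 + 10 ^ 6 := by
      refine (norm_sub_le _ _).trans ?_
      rw [norm_mul]; gcongr
    have : ‖γ‖ * ‖c * rr c - ph c‖ ≤ 1 / 10 ^ 10 * (2 * 10 ^ 6 + 10 ^ 6) := by gcongr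
    rw [norm_mul]
    norm_num at this h2 ⊢
    linarith
  have n1 : ‖1 - c ^ 2‖ ≤ 1 + 2 ^ 2 := by
    refine (norm_sub_le _ _).trans ?_
    rw [norm_one, norm_pow]; gcongr
  have n2 : ‖2 + u‖ ≤ 2 + 1 / 10 ^ 4 := by
    refine (norm_add_le _ _).trans ?_
    rw [Complex.norm_ofNat]; gcongr
  have n3 : ‖2 * c + e‖ ≤ 2 * 2 + 13 / 10 ^ 4 := by
    refine (norm_add_le _ _).trans ?_
    rw [norm_mul, Complex.norm_ofNat]; gcongr
  rw [eq]
  refine (norm_sub_le _ _).trans ?_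
  simp only [norm_mul]
  calc ‖1 - c ^ 2‖ * (‖u‖ * ‖2 + u‖) + ‖σ‖ * (‖e‖ * ‖2 * c + e‖)
      ≤ (1 + 2 ^ 2) * (1 / 10 ^ 4 * (2 + 1 / 10 ^ 4)) +
        1 / 10 * (13 / 10 ^ 4 * (2 * 2 + 13 / 10 ^ 4)) := by gcongr
    _ ≤ _ := by norm_num

theorem RR_lip {σ y γ c c' : ℂ} (hp : (σ, y, γ) ∈ PD) (h : ‖c‖ ≤ 5 / 4) (h' : ‖c'‖ ≤ 5 / 4) :
    ‖RR σ y γ c - RR σ y γ c'‖ ≤ 1 / 200 * ‖c - c'‖ := by
  have hd : DifferentiableOn ℂ (RR σ y γ) (ball 0 2) := by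
    apply Differentiable.differentiableOn
    unfold RR NB XX HH TT rr ph
    fun_prop
  have := lip_ball (c := 0) (R := 2) (M := 1 / 500) hd
    (fun s hs => RR_le hp (mem_ball_zero_iff.1 hs).le)
    (y := c) (y' := c') (mem_ball_zero_iff.2 (by linarith)) (mem_ball_zero_iff.2 (by linarith))
  norm_num at this ⊢
  exact this

theorem n98 {c : ℂ} (h : ‖c - 1‖ ≤ 1 / 8) : ‖c‖ ≤ 9 / 8 := by
  have := norm_add_le (c - 1) 1
  rw [sub_add_cancel, norm_one] at this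
  linarith

theorem dNB : Differentiable ℂ (fun q : (ℂ × ℂ × ℂ) × ℂ => NB q.1.1 q.1.2.1 q.1.2.2 q.2) := by
  unfold NB XX HH TT rr ph
  fun_prop

theorem dHH' : Differentiable ℂ (fun q : (ℂ × ℂ × ℂ) × ℂ => HH' q.1.2.2 q.2) := by
  unfold HH' TT' rr ph'
  fun_prop

theorem NB_cast (σ y γ c : ℝ) : NB (σ : ℂ) y γ c = ((NB σ y γ c : ℝ) : ℂ) := by
  unfold NB XX HH TT rr ph
  push_cast
  rfl

theorem HH'_cast (γ c : ℝ) : HH' (γ : ℂ) c = ((HH' γ c : ℝ) : ℂ) := by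
  unfold HH' TT' rr ph'
  push_cast
  rfl

theorem ph_cast (c : ℝ) : ph (c : ℂ) = ((ph c : ℝ) : ℂ) := by
  unfold ph
  push_cast
  rfl

/-- real triples -/
def RT : Set (ℂ × ℂ × ℂ) := {p | p.1.im = 0 ∧ p.2.1.im = 0 ∧ p.2.2.im = 0}

theorem exists_cc : ∃ cc : ℂ × ℂ × ℂ → ℂ, HC cc PD ∧ (∀ p ∈ PD, ‖cc p - 1‖ ≤ 1 / 8) ∧
    (∀ p ∈ PD, NB p.1 p.2.1 p.2.2 (cc p) = 0) ∧ ∀ p ∈ PD, p ∈ RT → (cc p).im = 0 := by
  obtain ⟨y, h1, h2, h3⟩ := HC.fixed (G := PD) (c := fun _ => 1) (r := fun _ => 1 / 8)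
    (r0 := 1 / 8) (Φ := fun q => q.2 + NB q.1.1 q.1.2.1 q.1.2.2 q.2 / 2) RT (HC.const 1)
    (fun _ _ => ⟨by norm_num, le_rfl⟩)
    (HC.of_diff (Differentiable.differentiableOn (by have := dNB; fun_prop)))
    (by
      rintro ⟨σ, y, γ⟩ hp
      have h1 : ‖σ‖ < 1 / 10 := hp.1
      have := RR_le (c := 1) hp (by simp)
      have e : (1 : ℂ) + NB σ y γ 1 / 2 - 1 = (RR σ y γ 1 - σ) / 2 := by unfold RR; ring
      show ‖(1 : ℂ) + NB σ y γ 1 / 2 - 1‖ ≤ 1 / 8 / 2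
      rw [e, norm_div, Complex.norm_ofNat]
      have := norm_sub_le (RR σ y γ 1) σ
      linarith)
    (by
      rintro ⟨σ, y, γ⟩ hp c c' hc hc'
      have h1 : ‖σ‖ < 1 / 10 := hp.1
      have hl := RR_lip hp ((n98 hc).trans (by norm_num)) ((n98 hc').trans (by norm_num))
      set u := ((c - 1) + (c' - 1)) / 2 with hu
      have nu : ‖u‖ ≤ 1 / 8 := by
        rw [hu, norm_div, Complex.norm_ofNat]
        have := norm_add_le (c - 1) (c' - 1)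
        linarith
      have e : c + NB σ y γ c / 2 - (c' + NB σ y γ c' / 2) =
          (RR σ y γ c - RR σ y γ c') / 2 - (σ + u + σ * u) * (c - c') := by
        unfold RR; rw [hu]; ring
      show ‖c + NB σ y γ c / 2 - (c' + NB σ y γ c' / 2)‖ ≤ 1 / 2 * ‖c - c'‖
      have n1 : ‖σ + u + σ * u‖ ≤ 1 / 10 + 1 / 8 + 1 / 10 * (1 / 8) := by
        refine (norm_add_le _ _).trans (add_le_add ((norm_add_le _ _).trans (by linarith)) ?_)
        rw [norm_mul]; gcongr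
      rw [e]
      refine (norm_sub_le _ _).trans ?_
      rw [norm_div, Complex.norm_ofNat, norm_mul]
      have h0 := norm_nonneg (c - c')
      have := mul_le_mul_of_nonneg_right n1 h0
      linarith)
    (by
      rintro ⟨σ, y, γ⟩ _ ⟨a, b, c⟩
      refine ⟨by simp, fun x _ => ?_⟩
      lift σ to ℝ using a
      lift y to ℝ using b
      lift γ to ℝ using c
      show ((x : ℂ) + NB (σ : ℂ) y γ x / 2).im = 0
      rw [NB_cast]
      simp)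
  refine ⟨y, h1, fun p hp => (h2 p hp).1, fun p hp => ?_, h3⟩
  have := (h2 p hp).2.1
  simp only at this
  linear_combination 2 * this

/-- the radicand along the chord -/
theorem NB_near {σ y γ c : ℂ} (hp : (σ, y, γ) ∈ PD) (hc : ‖c - 1‖ ≤ 1 / 8)
    (root : NB σ y γ c = 0) {v : ℝ} (v0 : 0 ≤ v) (v1 : v ≤ 1) :
    ‖NB σ y γ (v * c) - ((1 - v ^ 2 : ℝ) : ℂ)‖ ≤ (1 - v ^ 2) / 100 := by
  have n := n98 hc
  have nv : ‖(v : ℂ) * c‖ ≤ 5 / 4 := by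
    rw [norm_mul, Complex.norm_real, Real.norm_eq_abs, abs_of_nonneg v0]
    have := norm_nonneg c
    nlinarith
  have hl := RR_lip hp nv (n.trans (by norm_num))
  have hr := RR_le hp (n.trans (by norm_num : (9 / 8 : ℝ) ≤ 2))
  have e : NB σ y γ (v * c) - ((1 - v ^ 2 : ℝ) : ℂ) =
      (RR σ y γ (v * c) - RR σ y γ c) + ((1 - v ^ 2 : ℝ) : ℂ) * RR σ y γ c := by
    unfold RR; push_cast; linear_combination (v : ℂ) ^ 2 * root
  have e2 : ‖(v : ℂ) * c - c‖ = (1 - v) * ‖c‖ := by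
    rw [show (v : ℂ) * c - c = -(((1 - v : ℝ) : ℂ) * c) by push_cast; ring, norm_neg, norm_mul,
      Complex.norm_real, Real.norm_eq_abs, abs_of_nonneg (by linarith)]
  have w : 0 ≤ 1 - v ^ 2 := by nlinarith
  rw [e]
  refine (norm_add_le _ _).trans ?_
  rw [norm_mul, Complex.norm_real, Real.norm_eq_abs, abs_of_nonneg w]
  rw [e2] at hl
  have a1 : (1 - v) * ‖c‖ ≤ (1 - v ^ 2) * (9 / 8) := by
    have := norm_nonneg c
    have : 1 - v ≤ 1 - v ^ 2 := by nlinarith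
    gcongr
  have a2 := mul_le_mul_of_nonneg_left hr w
  linarith

theorem re_ge {z : ℂ} {w : ℝ} (h : ‖z - (w : ℂ)‖ ≤ w / 100) : 99 / 100 * w ≤ z.re := by
  have := (abs_le.1 ((Complex.abs_re_le_norm _).trans h)).1
  simp only [Complex.sub_re, Complex.ofReal_re] at this
  linarith

theorem isq_le {z : ℂ} {w : ℝ} (w0 : 0 < w) (h : ‖z - (w : ℂ)‖ ≤ w / 100) :
    z ∈ Complex.slitPlane ∧ ‖isq z‖ ≤ 101 / 100 * (1 / Real.sqrt w) := by
  have h1 := re_ge h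
  refine ⟨Or.inl (by linarith), ?_⟩
  have h2 : 99 / 100 * w ≤ ‖z‖ := h1.trans (Complex.re_le_norm z)
  have s0 := Real.sqrt_pos.2 w0
  have h3 : 100 / 101 * Real.sqrt w ≤ Real.sqrt ‖z‖ := by
    apply Real.le_sqrt_of_sq_le
    rw [mul_pow, Real.sq_sqrt w0.le]
    linarith
  rw [norm_isq]
  calc 1 / Real.sqrt ‖z‖ ≤ 1 / (100 / 101 * Real.sqrt w) :=
        one_div_le_one_div_of_le (by positivity) h3
    _ = _ := by field_simp

/-! ### arcsine moments -/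

theorem ii : IntervalIntegrable (fun v : ℝ => 1 / Real.sqrt (1 - v ^ 2)) volume 0 1 := by
  refine intervalIntegral.intervalIntegrable_deriv_of_nonneg (g := Real.arcsin)
    Real.continuous_arcsin.continuousOn (fun x hx => ?_) (fun x _ => by positivity)
  simp only [zero_le_one, inf_of_le_left, sup_of_le_right, mem_Ioo] at hx
  exact Real.hasDerivAt_arcsin (by linarith [hx.1]) hx.2.ne

theorem mom (a b c d : ℝ) :
    ∫ v in (0 : ℝ)..1, (a + b * v ^ 2 + c * v ^ 4 + d * v ^ 6) * (1 / Real.sqrt (1 - v ^ 2)) =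
      Real.pi / 2 * (a + b / 2 + 3 * c / 8 + 5 * d / 16) := by
  have := intervalIntegral.integral_eq_sub_of_hasDerivAt_of_le (a := 0) (b := 1) zero_le_one
    (f := fun v : ℝ => (a + b / 2 + 3 * c / 8 + 5 * d / 16) * Real.arcsin v -
      ((b / 2 + 3 * c / 8 + 5 * d / 16) * v + (c / 4 + 5 * d / 24) * v ^ 3 + d / 6 * v ^ 5) *
        Real.sqrt (1 - v ^ 2))
    (f' := fun v : ℝ => (a + b * v ^ 2 + c * v ^ 4 + d * v ^ 6) * (1 / Real.sqrt (1 - v ^ 2)))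
    (by
      have := Real.continuous_arcsin
      fun_prop)
    (fun x hx => by
      have w : 0 < 1 - x ^ 2 := by nlinarith [hx.1, hx.2]
      have s0 := Real.sqrt_pos.2 w
      have h1 := Real.hasDerivAt_arcsin (x := x) (by linarith [hx.1]) hx.2.ne
      have h2 : HasDerivAt (fun v : ℝ => Real.sqrt (1 - v ^ 2))
          (-(2 * x) / (2 * Real.sqrt (1 - x ^ 2))) x := by
        have := ((hasDerivAt_pow 2 x).const_sub 1).sqrt w.ne'
        simpa using this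
      have h3 : HasDerivAt (fun v : ℝ => (b / 2 + 3 * c / 8 + 5 * d / 16) * v +
          (c / 4 + 5 * d / 24) * v ^ 3 + d / 6 * v ^ 5)
          ((b / 2 + 3 * c / 8 + 5 * d / 16) * 1 + (c / 4 + 5 * d / 24) * (3 * x ^ 2) +
            d / 6 * (5 * x ^ 4)) x := by
        have a1 := (hasDerivAt_id' x).const_mul (b / 2 + 3 * c / 8 + 5 * d / 16)
        have a2 := (hasDerivAt_pow 3 x).const_mul (c / 4 + 5 * d / 24)
        have a3 := (hasDerivAt_pow 5 x).const_mul (d / 6)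
        simpa using (a1.fun_add a2).fun_add a3
      refine ((h1.const_mul _).sub (h3.mul h2)).congr_deriv ?_
      have hs := Real.sq_sqrt w.le
      set s := Real.sqrt (1 - x ^ 2)
      field_simp
      rw [hs]
      ring)
    (ii.continuousOn_mul (by fun_prop))
  rw [this]
  simp
  ring

end Bon3.BA1
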