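import Pool.Agent.Lib.MP_3dbf58_gt.BaseD
import Pool.Agent.Lib.MP_3dbf58_gt.Tool

open Set Filter Topology MeasureTheory Metric

noncomputable section

namespace Bon3

/-- pairs `(γ, σ)` -/
def DD (r : ℝ) : Set (ℂ × ℂ) := {p | ‖p.1‖ < 1 / 10 ^ 21 ∧ ‖p.2‖ < r}
def PD1 : Set (ℂ × ℂ × ℂ) := {p | ‖p.1‖ < 1 / 10 ∧ ‖p.2.1‖ < 1 / 10 ^ 6 ∧ ‖p.2.2‖ < 1 / 10 ^ 13}
def sy (I : ℂ × ℂ × ℂ → ℂ) (p : ℂ × ℂ × ℂ) : ℂ := I p + I (p.1, -p.2.1, -p.2.2)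

theorem PD1_sub : PD1 ⊆ PD := fun p hp =>
  ⟨hp.1, hp.2.1.trans (by norm_num), hp.2.2.trans (by norm_num)⟩

theorem PD_neg {p : ℂ × ℂ × ℂ} (hp : p ∈ PD) : (p.1, -p.2.1, -p.2.2) ∈ PD := by
  simpa [PD] using hp

theorem sy_HC {I : ℂ × ℂ × ℂ → ℂ} (h : HC I PD) : HC (sy I) PD :=
  h.add (h.comp (g := fun p : ℂ × ℂ × ℂ => (p.1, -p.2.1, -p.2.2))
    (HC.of_diff (by fun_prop)) fun _ hp => PD_neg hp)

theorem sy_le {I : ℂ × ℂ × ℂ → ℂ} {M : ℝ} (h : ∀ p ∈ PD, ‖I p‖ ≤ M) {p : ℂ × ℂ × ℂ} (hp : p ∈ PD) :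
    ‖sy I p‖ ≤ 2 * M :=
  (norm_add_le _ _).trans (by linarith [h p hp, h _ (PD_neg hp)])

theorem sy_neg (I : ℂ × ℂ × ℂ → ℂ) (σ y γ : ℂ) : sy I (σ, -y, -γ) = sy I (σ, y, γ) := by
  simp [sy, add_comm]

theorem schwarz_PD {f : ℂ × ℂ × ℂ → ℂ} {M : ℝ} (hf : HC f PD) (hM : ∀ p ∈ PD, ‖f p‖ ≤ M)
    {p : ℂ × ℂ × ℂ} (hp : p ∈ PD1) : ‖f p - f (p.1, 0, 0)‖ ≤ M / 500 := by
  have m : MapsTo (fun s : ℂ => (p.1, s * p.2.1, s * p.2.2)) (ball 0 1000) PD := by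
    intro s hs
    have hs' : ‖s‖ < 1000 := by simpa using hs
    obtain ⟨h1, h2, h3⟩ := hp
    refine ⟨h1, ?_, ?_⟩
    · show ‖s * p.2.1‖ < _
      rw [norm_mul]; nlinarith [norm_nonneg s, norm_nonneg p.2.1]
    · show ‖s * p.2.2‖ < _
      rw [norm_mul]; nlinarith [norm_nonneg s, norm_nonneg p.2.2]
  have := schwarz1 (z := 1) (hf _ _ isOpen_ball (by fun_prop) m) (fun s hs => hM _ (m hs))
    (by norm_num)
  simp only [one_mul, zero_mul, norm_one, mul_one] at this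
  calc _ ≤ 2 * M / 1000 := this
    _ = M / 500 := by ring

section
variable {cc Ia Ib : ℂ × ℂ × ℂ → ℂ} (A : BA cc Ia Ib)
include A

theorem Sa_near {p : ℂ × ℂ × ℂ} (hp : p ∈ PD1) :
    ‖sy Ia p - cc (p.1, 0, 0) * Real.pi‖ ≤ 6 / 500 := by
  have := schwarz_PD (M := 2 * 3) (sy_HC A.ha) (fun _ h => sy_le A.a0 h) hp
  have e : sy Ia (p.1, 0, 0) = cc (p.1, 0, 0) * Real.pi := by
    simp only [sy, neg_zero, A.az _ hp.1]; ring
  rw [e] at this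
  linarith

omit A in
theorem x_mem {σ : ℂ} (h : ‖σ‖ < 1 / 10) : ((σ, 0, 0) : ℂ × ℂ × ℂ) ∈ PD := by
  refine ⟨h, ?_, ?_⟩ <;> simp

theorem Sa_ge {p : ℂ × ℂ × ℂ} (hp : p ∈ PD1) : 5 / 2 ≤ ‖sy Ia p‖ := by
  have h1 := Sa_near A hp
  have h2 := A.c0 _ (x_mem hp.1)
  have h3 : 7 / 8 ≤ ‖cc (p.1, 0, 0)‖ := by
    have := norm_sub_norm_le (1 : ℂ) (cc (p.1, 0, 0))
    rw [norm_sub_rev] at h2; simp only [norm_one] at this; linarith
  have h4 : ‖cc (p.1, 0, 0) * Real.pi‖ = ‖cc (p.1, 0, 0)‖ * Real.pi := by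
    simp [abs_of_pos Real.pi_pos]
  have h5 := norm_sub_norm_le (cc (p.1, 0, 0) * Real.pi) (sy Ia p)
  rw [norm_sub_rev] at h1
  nlinarith [Real.pi_gt_three]

theorem Sa_ne {p : ℂ × ℂ × ℂ} (hp : p ∈ PD1) : sy Ia p ≠ 0 := by
  intro h; have := Sa_ge A hp; rw [h] at this; norm_num at this

theorem Q_le {p : ℂ × ℂ × ℂ} (hp : p ∈ PD1) : ‖sy Ib p / sy Ia p‖ ≤ 10 ^ 6 := by
  have h1 := Sa_ge A hp
  have h2 := sy_le A.b0 (PD1_sub hp)
  rw [norm_div, div_le_iff₀ (by linarith)]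
  nlinarith

theorem Q_HC : HC (fun p => sy Ib p / sy Ia p) PD1 :=
  ((sy_HC A.hb).mono PD1_sub).div ((sy_HC A.ha).mono PD1_sub) fun _ hp => Sa_ne A hp

theorem sy_real {σ y γ : ℝ} (h : ((σ : ℂ), (y : ℂ), (γ : ℂ)) ∈ PD) :
    (sy Ia (σ, y, γ)).im = 0 ∧ (sy Ib (σ, y, γ)).im = 0 := by
  have h1 := A.rl σ y γ h
  have h2 := A.rl σ (-y) (-γ) (by simpa using PD_neg h)
  push_cast at h2
  simp [sy, h1.2.1, h1.2.2, h2.2.1, h2.2.2]

/-- the critical offset of the base body as a function of `(γ, σ)` -/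
theorem hb_exists : ∃ hb : ℂ × ℂ → ℂ, HC hb (DD (1 / 10)) ∧
    (∀ γ σ, hb (-γ, σ) = -hb (γ, σ)) ∧
    (∀ p ∈ DD (1 / 10), ‖hb p‖ ≤ 1 / (2 * 10 ^ 6) ∧
      hb p = p.1 * (sy Ib (p.2, hb p, p.1) / sy Ia (p.2, hb p, p.1))) ∧
    Rl2 hb (DD (1 / 10)) := by
  have mem : ∀ p ∈ DD (1 / 10), ∀ y : ℂ, ‖y‖ < 1 / 10 ^ 6 → (p.2, y, p.1) ∈ PD1 :=
    fun p hp y hy => ⟨hp.2, hy, hp.1.trans (by norm_num)⟩
  have sm : ∀ p ∈ DD (1 / 10), ∀ y : ℂ, ‖y‖ < 1 / 10 ^ 6 →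
      ‖p.1 * (sy Ib (p.2, y, p.1) / sy Ia (p.2, y, p.1))‖ ≤ 1 / 10 ^ 15 := by
    intro p hp y hy
    rw [norm_mul]
    have := Q_le A (mem p hp y hy)
    have h1 := hp.1
    nlinarith [norm_nonneg p.1, norm_nonneg (sy Ib (p.2, y, p.1) / sy Ia (p.2, y, p.1))]
  obtain ⟨y, hy, hf, hr⟩ := HC.fixed (G := DD (1 / 10)) (c := fun _ => 0)
    (r := fun _ => 1 / (2 * 10 ^ 6)) (r0 := 1)
    (Φ := fun x => x.1.1 * (sy Ib (x.1.2, x.2, x.1.1) / sy Ia (x.1.2, x.2, x.1.1)))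
    {p | p.1.im = 0 ∧ p.2.im = 0} (HC.const _) (fun _ _ => by norm_num)
    ((HC.of_diff (by fun_prop)).mul ((Q_HC A).comp
      (g := fun x : (ℂ × ℂ) × ℂ => (x.1.2, x.2, x.1.1)) (HC.of_diff (by fun_prop))
      fun x hx => mem _ hx.1 _ (by have := hx.2; simp only [sub_zero] at this; linarith)))
    (fun p hp => by
      have := sm p hp 0 (by simp)
      simp only [sub_zero]; linarith)
    (fun p hp y y' h1 h2 => by
      simp only [sub_zero] at h1 h2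
      have := lip_ball (c := 0) (R := 1 / 10 ^ 6) (M := 1 / 10 ^ 15)
        (f := fun y => p.1 * (sy Ib (p.2, y, p.1) / sy Ia (p.2, y, p.1)))
        ((differentiableOn_const _).mul ((Q_HC A) (fun y => (p.2, y, p.1)) _ isOpen_ball
          (by fun_prop) fun s hs => mem p hp s (by simpa using hs)))
        (fun s hs => sm p hp s (by simpa using hs)) (y := y) (y' := y')
        (by simp only [mem_ball, dist_zero_right]; linarith)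
        (by simp only [mem_ball, dist_zero_right]; linarith)
      exact this.trans (mul_le_mul_of_nonneg_right (by norm_num) (norm_nonneg _)))
    (fun p hp hR => ⟨by simp, fun y hy => by
      simp only [sub_zero] at hy
      obtain ⟨γ, σ⟩ := p
      obtain ⟨h1, h2⟩ := hR
      simp only at h1 h2
      lift γ to ℝ using h1
      lift σ to ℝ using h2
      have := sy_real A (PD1_sub (mem _ hp y (by linarith)))
      simp only at this ⊢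
      simp [Complex.div_im, this.1, this.2]⟩)
  have ng : ∀ p ∈ DD (1 / 10), ((-p.1, p.2) : ℂ × ℂ) ∈ DD (1 / 10) := fun p hp => by
    simpa [DD] using hp
  have odd : ∀ p ∈ DD (1 / 10), y (-p.1, p.2) = -y p := by
    intro p hp
    refine ((hf _ (ng p hp)).2.2 (-y p) (by simpa using (hf p hp).1) ?_).symm
    simp only [sy_neg]
    have := (hf p hp).2.1
    simp only at this
    rw [neg_mul, this]
  have e : ∀ p ∈ DD (1 / 10), (y p - y (-p.1, p.2)) / 2 = y p := fun p hp => by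
    rw [odd p hp]; ring
  refine ⟨fun p => (y p - y (-p.1, p.2)) / 2, hy.congr fun p hp => e p hp, fun γ σ => ?_,
    fun p hp => ?_, fun t x hp => ?_⟩
  · simp only [neg_neg]; ring
  · simp only [e p hp]
    exact ⟨by simpa using (hf p hp).1, (hf p hp).2.1.symm⟩
  · simp only [e _ hp]
    exact hr _ hp ⟨by simp, by simp⟩

end

end Bon3
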