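import Pool.Agent.Lib.MP_3dbf58_gt.BaseB1

open Set Filter Topology MeasureTheory Metric

noncomputable section

namespace Bon3

theorem tri_le {a b c : ℝ} {z : ℂ} {i j k : ℕ} (h : ‖z‖ ≤ 9 / 8) (ha : 0 ≤ a) (hb : 0 ≤ b)
    (hc : 0 ≤ c) : ‖(a : ℂ) * z ^ i - b * z ^ j + c * z ^ k‖ ≤
      a * (9 / 8) ^ i + b * (9 / 8) ^ j + c * (9 / 8) ^ k := by
  have p : ∀ (a : ℝ) (i : ℕ), 0 ≤ a → ‖(a : ℂ) * z ^ i‖ ≤ a * (9 / 8) ^ i := fun a i ha => by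
    rw [norm_mul, norm_pow, Complex.norm_real, Real.norm_of_nonneg ha]; gcongr
  exact (norm_add_le _ _).trans (add_le_add ((norm_sub_le _ _).trans
    (add_le_add (p a i ha) (p b j hb))) (p c k hc))

theorem nrm_c {c : ℂ} (h : ‖c - 1‖ ≤ 1 / 8) : 7 / 8 ≤ ‖c‖ ∧ ‖c‖ ≤ 9 / 8 ∧ 7 / 8 ≤ c.re := by
  have h1 := norm_sub_norm_le (1 : ℂ) c
  have h2 := norm_sub_norm_le c (1 : ℂ)
  have h3 := (Complex.abs_re_le_norm (c - 1)).trans h
  rw [norm_sub_rev] at h1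
  simp only [norm_one, Complex.sub_re, Complex.one_re] at h1 h2 h3
  exact ⟨by linarith, by linarith, by linarith [(abs_le.1 h3).1]⟩

theorem ph_le {c : ℂ} (h : ‖c‖ ≤ 9 / 8) : ‖ph c‖ ≤ 10 ^ 5 := by
  have := tri_le (a := 6582 - 4 / 10 ^ 30) (b := 10528) (c := 4784) (i := 2) (j := 4) (k := 6) h
    (by norm_num) (by norm_num) (by norm_num)
  push_cast at this
  exact this.trans (by norm_num)

theorem rr_le {c : ℂ} (h : ‖c‖ ≤ 9 / 8) : ‖rr c‖ ≤ 10 ^ 5 := by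
  have := tri_le (a := 2 / 3 * (6582 - 4 / 10 ^ 30)) (b := 42112 / 5) (c := 28704 / 7) (i := 3)
    (j := 5) (k := 7) h (by norm_num) (by norm_num) (by norm_num)
  push_cast at this
  exact this.trans (by norm_num)

def ng (p : ℂ × ℂ) : ℂ × ℂ := (-p.1, p.2)
theorem ng_mem {r : ℝ} {p : ℂ × ℂ} (h : p ∈ DD r) : ng p ∈ DD r := by simpa [DD, ng] using h
theorem HC.ng {f : ℂ × ℂ → ℂ} {r : ℝ} (h : HC f (DD r)) : HC (fun p => f (ng p)) (DD r) :=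
  h.comp (HC.of_diff (by unfold Bon3.ng; fun_prop)) fun _ hp => ng_mem hp
theorem DD_mono {r r' : ℝ} (h : r ≤ r') : DD r ⊆ DD r' := fun _ hp => ⟨hp.1, hp.2.trans_le h⟩

structure B2 (c et : ℂ × ℂ → ℂ) : Prop where
  hc : HC c (DD (1 / 10))
  he : HC et (DD (1 / 10))
  c0 : ∀ p ∈ DD (1 / 10), ‖c p - 1‖ ≤ 1 / 8
  e0 : ∀ p ∈ DD (1 / 10), ‖et p‖ ≤ 10 ^ 6
  root : ∀ p ∈ DD (1 / 10), NB p.2 (p.1 * et p) p.1 (c p) = 0
  ev : ∀ p, et (ng p) = et p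
  ez : ∀ σ : ℂ, ‖σ‖ < 1 / 10 → et (0, σ) = hh1 (c (0, σ) ^ 2)
  rc : Rl2 c (DD (1 / 10))
  re : Rl2 et (DD (1 / 10))

theorem b2_exists {cc Ia Ib : ℂ × ℂ × ℂ → ℂ} (A : BA cc Ia Ib) : ∃ et : ℂ × ℂ → ℂ,
    B2 (fun p => cc (p.2, p.1 * et p, p.1)) et ∧
    ∀ p ∈ DD (1 / 10), et p * sy Ia (p.2, p.1 * et p, p.1) = sy Ib (p.2, p.1 * et p, p.1) := by
  obtain ⟨hb, h1, h2, h3, h4⟩ := hb_exists A
  have mem : ∀ p ∈ DD (1 / 10), (p.2, hb p, p.1) ∈ PD1 :=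
    fun p hp => ⟨hp.2, (h3 p hp).1.trans_lt (by norm_num), hp.1.trans (by norm_num)⟩
  set et : ℂ × ℂ → ℂ := fun p => sy Ib (p.2, hb p, p.1) / sy Ia (p.2, hb p, p.1) with het
  have e : ∀ p ∈ DD (1 / 10), p.1 * et p = hb p := fun p hp => (h3 p hp).2.symm
  have hp3 : HC (fun p : ℂ × ℂ => (p.2, hb p, p.1)) (DD (1 / 10)) :=
    (HC.of_diff (by fun_prop)).prodMk (h1.prodMk (HC.of_diff (by fun_prop)))
  have rl : ∀ t x : ℝ, ((t : ℂ), (x : ℂ)) ∈ DD (1 / 10) →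
      ∃ y : ℝ, hb (t, x) = y ∧ ((x : ℂ), (y : ℂ), (t : ℂ)) ∈ PD := fun t x hp => by
    have e1 : hb (t, x) = ((hb (t, x)).re : ℂ) := by
      apply Complex.ext <;> simp [h4 t x hp]
    exact ⟨_, e1, by rw [← e1]; exact PD1_sub (mem _ hp)⟩
  refine ⟨et, ⟨(A.hc.comp hp3 fun p hp => PD1_sub (mem p hp)).congr fun p hp => by simp only [e p hp],
    (Q_HC A).comp hp3 mem, fun p hp => ?_, fun p hp => Q_le A (mem p hp), fun p hp => ?_,
    fun p => ?_, fun σ hσ => ?_, fun t x hp => ?_, fun t x hp => ?_⟩, fun p hp => ?_⟩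
  · rw [e p hp]; exact A.c0 _ (PD1_sub (mem p hp))
  · rw [e p hp]; exact A.root _ (PD1_sub (mem p hp))
  · simp only [het, ng, h2 p.1 p.2, sy_neg]
  · have hp : ((0 : ℂ), σ) ∈ DD (1 / 10) := ⟨by simp, hσ⟩
    have z : hb (0, σ) = 0 := by rw [← e _ hp]; simp
    have x0 : cc (σ, 0, 0) ≠ 0 := by
      intro h; have := (nrm_c (A.c0 _ (x_mem hσ))).1; rw [h] at this; norm_num at this
    have pi0 : (Real.pi : ℂ) ≠ 0 := by exact_mod_cast Real.pi_ne_zero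
    simp only [het, z, sy, neg_zero, A.az σ hσ, A.bz σ hσ, zero_mul]
    field_simp
  · obtain ⟨y, hy, hm⟩ := rl t x hp
    simp only [e _ hp, hy]
    exact (A.rl x y t hm).1
  · obtain ⟨y, hy, hm⟩ := rl t x hp
    have := sy_real A hm
    simp only [het, hy]
    simp [Complex.div_im, this.1, this.2]
  · rw [e p hp]
    exact div_mul_cancel₀ _ (Sa_ne A (mem p hp))

section
variable (c et : ℂ × ℂ → ℂ)
def bT (p : ℂ × ℂ) : ℂ := TT p.1 (c p)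
def bH (p : ℂ × ℂ) : ℂ := HH p.1 (c p)
def bD (p : ℂ × ℂ) : ℂ := ph (c p) - et p
def bz (p : ℂ × ℂ) : ℂ := bH c p + p.1 * et p
def bG (p : ℂ × ℂ) : ℂ := -2 * (bD c et p / bT c p) + p.1 * (bD c et p / bT c p) ^ 2
def bn (p : ℂ × ℂ) : ℂ := 1 + p.1 * bG c et p
end

section
variable {c et : ℂ × ℂ → ℂ} (b : B2 c et) {p : ℂ × ℂ}
include b

theorem B2.R (hp : p ∈ DD (1 / 10)) : ‖p.1 * rr (c p)‖ ≤ 1 / 10 ^ 16 := by
  have := rr_le (nrm_c (b.c0 p hp)).2.1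
  have h1 := hp.1
  rw [norm_mul]; nlinarith [norm_nonneg p.1, norm_nonneg (rr (c p))]

theorem B2.T (hp : p ∈ DD (1 / 10)) : 4 / 5 ≤ ‖bT c p‖ ∧ ‖bT c p‖ ≤ 2 := by
  have h1 := b.R hp
  have h2 := nrm_c (b.c0 p hp)
  have h3 := norm_add_le (1 : ℂ) (p.1 * rr (c p))
  have h4 := norm_sub_norm_le (1 : ℂ) (-(p.1 * rr (c p)))
  simp only [norm_one, norm_neg, sub_neg_eq_add] at h3 h4
  unfold bT TT
  rw [norm_mul]
  constructor <;> nlinarith [norm_nonneg (1 + p.1 * rr (c p))]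

theorem B2.Tne (hp : p ∈ DD (1 / 10)) : bT c p ≠ 0 := by
  intro h; have := (b.T hp).1; rw [h] at this; norm_num at this

theorem B2.D (hp : p ∈ DD (1 / 10)) : ‖bD c et p‖ ≤ 2 * 10 ^ 6 := by
  have := ph_le (nrm_c (b.c0 p hp)).2.1
  have := b.e0 p hp
  exact (norm_sub_le _ _).trans (by linarith)

theorem B2.DT (hp : p ∈ DD (1 / 10)) : ‖bD c et p / bT c p‖ ≤ 3 * 10 ^ 6 := by
  have := b.D hp
  have := (b.T hp).1
  rw [norm_div, div_le_iff₀ (by linarith)]; nlinarith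

theorem B2.G (hp : p ∈ DD (1 / 10)) : ‖bG c et p‖ ≤ 10 ^ 7 := by
  have h := b.DT hp
  have h1 := hp.1
  refine (norm_add_le _ _).trans ?_
  rw [norm_mul, norm_mul, norm_pow, norm_neg]
  have : ‖bD c et p / bT c p‖ ^ 2 ≤ (3 * 10 ^ 6) ^ 2 := by gcongr
  have h2 : ‖(2 : ℂ)‖ = 2 := by simp
  rw [h2]
  nlinarith [norm_nonneg p.1, sq_nonneg ‖bD c et p / bT c p‖]

theorem B2.n (hp : p ∈ DD (1 / 10)) : ‖bn c et p - 1‖ ≤ 1 / 10 ^ 14 := by
  have h := b.G hp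
  have h1 := hp.1
  simp only [bn, add_sub_cancel_left, norm_mul]
  nlinarith [norm_nonneg p.1, norm_nonneg (bG c et p)]

theorem B2.n1 (hp : p ∈ DD (1 / 10)) : 9 / 10 ≤ ‖bn c et p‖ := by
  have h := b.n hp
  have := norm_sub_norm_le (1 : ℂ) (bn c et p)
  rw [norm_sub_rev] at h; simp only [norm_one] at this; linarith

theorem B2.nne (hp : p ∈ DD (1 / 10)) : bn c et p ≠ 0 := by
  intro h; have := b.n1 hp; rw [h] at this; norm_num at this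

theorem B2.z (hp : p ∈ DD (1 / 10)) : ‖bz c et p‖ ≤ 3 := by
  have e : bz c et p = bT c p - p.1 * bD c et p := by simp only [bz, bH, bT, bD, HH]; ring
  have := b.D hp
  have := (b.T hp).2
  have h1 := hp.1
  rw [e]
  refine (norm_sub_le _ _).trans ?_
  rw [norm_mul]; nlinarith [norm_nonneg p.1, norm_nonneg (bD c et p)]

theorem B2.nz (hp : p ∈ DD (1 / 10)) : (bz c et p / bT c p) ^ 2 = bn c et p := by
  have := b.Tne hp
  have e : bz c et p = bT c p - p.1 * bD c et p := by simp only [bz, bH, bT, bD, HH]; ring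
  rw [e]; simp only [bn, bG]; field_simp; ring

theorem B2.cn (hp : p ∈ DD (1 / 10)) : c p ^ 2 * (1 + p.2 * bn c et p) = 1 := by
  have h1 := b.root p hp
  have h2 := b.Tne hp
  have h3 : 1 + p.1 * rr (c p) ≠ 0 := fun h => h2 (by simp [bT, TT, h])
  have h4 : c p ≠ 0 := fun h => h2 (by simp [bT, TT, h])
  rw [← b.nz hp]
  simp only [NB, XX] at h1
  simp only [bz, bH, bT, TT]
  field_simp
  linear_combination (-1 : ℂ) * h1

theorem B2.hT : HC (bT c) (DD (1 / 10)) :=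
  HC.comp (f := fun r : ℂ × ℂ => TT r.1 r.2) (G' := univ) (HC.of_diff (by unfold TT rr; fun_prop))
    ((HC.fst HC.id).prodMk b.hc) (mapsTo_univ _ _)
theorem B2.hH : HC (bH c) (DD (1 / 10)) :=
  HC.comp (f := fun r : ℂ × ℂ => HH r.1 r.2) (G' := univ)
    (HC.of_diff (by unfold HH TT rr ph; fun_prop)) ((HC.fst HC.id).prodMk b.hc) (mapsTo_univ _ _)
theorem B2.hph : HC (fun p => ph (c p)) (DD (1 / 10)) :=
  HC.comp (f := ph) (G' := univ) (HC.of_diff (by unfold ph; fun_prop)) b.hc (mapsTo_univ _ _)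
theorem B2.hrr : HC (fun p => rr (c p)) (DD (1 / 10)) :=
  HC.comp (f := rr) (G' := univ) (HC.of_diff (by unfold rr; fun_prop)) b.hc (mapsTo_univ _ _)
theorem B2.hD : HC (bD c et) (DD (1 / 10)) := b.hph.sub b.he
theorem B2.hz : HC (bz c et) (DD (1 / 10)) := b.hH.add ((HC.fst HC.id).mul b.he)
theorem B2.hG : HC (bG c et) (DD (1 / 10)) :=
  ((HC.const _).mul (b.hD.div b.hT fun _ hp => b.Tne hp)).add
    ((HC.fst HC.id).mul ((b.hD.div b.hT fun _ hp => b.Tne hp).pow 2))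
theorem B2.hn : HC (bn c et) (DD (1 / 10)) := (HC.const _).add ((HC.fst HC.id).mul b.hG)

end

end Bon3
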