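import Pool.Agent.Lib.MP_3dbf58_gt.BaseB3

open Set Filter Topology MeasureTheory Metric

noncomputable section

namespace Bon3

structure B3 (c et yy : ℂ × ℂ → ℂ) : Prop extends B2 c et where
  hy : HC yy (DD (1 / 11))
  y0 : ∀ p ∈ DD (1 / 11), ‖yy p - 1‖ ≤ 1 / 20
  ye : ∀ p ∈ DD (1 / 11), yy p = bn c et (ng p) / bn c et (p.1, p.2 * yy p)
  yr : ∀ p ∈ DD (1 / 11), p.1.im = 0 → p.2.im = 0 → (yy p).im = 0

section
variable (c et yy : ℂ × ℂ → ℂ)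
def bs (p : ℂ × ℂ) : ℂ × ℂ := (p.1, p.2 * yy p)
def bY (p : ℂ × ℂ) : ℂ := -(bG c et (ng p) + bG c et (bs yy p)) / bn c et (bs yy p)
def br (p : ℂ × ℂ) : ℂ := 2 * rr (c (ng p)) / (1 - p.1 * rr (c (ng p)))
def bZ (p : ℂ × ℂ) : ℂ :=
  c p ^ 2 * c (ng p) ^ 2 * p.2 * (bG c et p + bG c et (ng p)) / (c p + c (ng p)) -
    (c (ng p) * rr (c (ng p)) + c p * rr (c p)) + bD c et (ng p) + bD c et p
def bF (p : ℂ × ℂ) : ℂ := br c p * bz c et (ng p) + bZ c et p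
def bF3 (p : ℂ × ℂ) : ℂ := bF c et p - c p ^ 3 / 2 * bY c et yy p
end

theorem D11 {p : ℂ × ℂ} (h : p ∈ DD (1 / 11)) : p ∈ DD (1 / 10) := DD_mono (by norm_num) h

section
variable {c et yy : ℂ × ℂ → ℂ} (b : B3 c et yy) {p : ℂ × ℂ}
include b

theorem B3.sm (hp : p ∈ DD (1 / 11)) : bs yy p ∈ DD (1 / 10) := by
  refine ⟨hp.1, ?_⟩
  have h1 := hp.2
  have h2 := norm_sub_norm_le (yy p) 1
  have h3 := b.y0 p hp
  simp only [norm_one] at h2
  show ‖p.2 * yy p‖ < _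
  rw [norm_mul]; nlinarith [norm_nonneg p.2, norm_nonneg (yy p)]

theorem B3.hs : HC (bs yy) (DD (1 / 11)) := (HC.fst HC.id).prodMk ((HC.snd HC.id).mul b.hy)

theorem B3.yn (hp : p ∈ DD (1 / 11)) : yy p * bn c et (bs yy p) = bn c et (ng p) := by
  have := b.toB2.nne (b.sm hp)
  have h := b.ye p hp
  exact (eq_div_iff this).1 h

theorem B3.yY (hp : p ∈ DD (1 / 11)) : yy p = 1 + p.1 * bY c et yy p := by
  have h0 := b.toB2.nne (b.sm hp)
  have h := b.yn hp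
  have e1 : bn c et (ng p) = 1 - p.1 * bG c et (ng p) := by simp only [bn, ng]; ring
  have e2 : bn c et (bs yy p) = 1 + p.1 * bG c et (bs yy p) := rfl
  unfold bY
  field_simp
  rw [h, e1]; linear_combination -e2

theorem B3.cadd {r : ℂ × ℂ} (hp : p ∈ DD (1 / 10)) (hr : r ∈ DD (1 / 10)) :
    7 / 4 ≤ ‖c p + c r‖ := by
  have h1 := (nrm_c (b.c0 p hp)).2.2
  have h2 := (nrm_c (b.c0 r hr)).2.2
  have := Complex.re_le_norm (c p + c r)
  simp only [Complex.add_re] at this; linarith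

theorem B3.cne {r : ℂ × ℂ} (hp : p ∈ DD (1 / 10)) (hr : r ∈ DD (1 / 10)) : c p + c r ≠ 0 := by
  intro h; have := b.cadd hp hr; rw [h] at this; norm_num at this

theorem B3.cs (hp : p ∈ DD (1 / 11)) : c (bs yy p) = c (ng p) := by
  have h1 := b.toB2.cn (b.sm hp)
  have h2 := b.toB2.cn (ng_mem (D11 hp))
  have h3 := b.yn hp
  have h4 := b.cne (b.sm hp) (ng_mem (D11 hp))
  have e1 : (bs yy p).2 = p.2 * yy p := rfl
  have e2 : (ng p).2 = p.2 := rfl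
  rw [e1, mul_assoc, h3] at h1
  rw [e2] at h2
  have h5 : (c (bs yy p) - c (ng p)) * (c (bs yy p) + c (ng p)) = 0 := by
    linear_combination c (ng p) ^ 2 * h1 - c (bs yy p) ^ 2 * h2
  exact sub_eq_zero.1 ((mul_eq_zero.1 h5).resolve_right h4)

theorem B3.zZ (hp : p ∈ DD (1 / 10)) : bz c et (ng p) = bz c et p + p.1 * bZ c et p := by
  have h1 := b.toB2.cn hp
  have h2 := b.toB2.cn (ng_mem hp)
  have h4 := b.cne hp (ng_mem hp)
  have e : c (ng p) - c p =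
      p.1 * (c p ^ 2 * c (ng p) ^ 2 * p.2 * (bG c et p + bG c et (ng p)) / (c p + c (ng p))) := by
    simp only [bn, ng] at h1 h2 ⊢
    simp only [ng] at h4
    field_simp
    linear_combination c (-p.1, p.2) ^ 2 * (-h1) + c p ^ 2 * h2
  have e3 : et (ng p) = et p := b.ev p
  have e1 : (ng p).1 = -p.1 := rfl
  simp only [bz, bH, HH, TT, bZ, bD, e1, e3]
  linear_combination e

theorem B3.rden (hp : p ∈ DD (1 / 10)) : 9 / 10 ≤ ‖1 - p.1 * rr (c (ng p))‖ := by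
  have h := b.toB2.R (ng_mem hp)
  have e1 : (ng p).1 = -p.1 := rfl
  rw [e1, neg_mul, norm_neg] at h
  have := norm_sub_norm_le (1 : ℂ) (p.1 * rr (c (ng p)))
  simp only [norm_one] at this; linarith

theorem B3.rne (hp : p ∈ DD (1 / 10)) : 1 - p.1 * rr (c (ng p)) ≠ 0 := by
  intro h; have := b.rden hp; rw [h] at this; norm_num at this

theorem B3.hY : HC (bY c et yy) (DD (1 / 11)) :=
  ((b.toB2.hG.ng.mono fun _ => D11).add (b.toB2.hG.comp b.hs fun _ => b.sm)).neg.div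
    (b.toB2.hn.comp b.hs fun _ => b.sm) fun _ hp => b.toB2.nne (b.sm hp)
theorem B3.hr : HC (br c) (DD (1 / 10)) :=
  ((HC.const _).mul b.toB2.hrr.ng).div ((HC.const _).sub ((HC.fst HC.id).mul b.toB2.hrr.ng))
    fun _ hp => b.rne hp
theorem B3.hZ : HC (bZ c et) (DD (1 / 10)) :=
  (((((((b.hc.pow 2).mul (b.hc.ng.pow 2)).mul (HC.snd HC.id)).mul
    (b.toB2.hG.add b.toB2.hG.ng)).div (b.hc.add b.hc.ng) fun _ hp => b.cne hp (ng_mem hp)).sub
    ((b.hc.ng.mul b.toB2.hrr.ng).add (b.hc.mul b.toB2.hrr))).add b.toB2.hD.ng).add b.toB2.hD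
theorem B3.hF : HC (bF c et) (DD (1 / 10)) := (b.hr.mul b.toB2.hz.ng).add b.hZ
theorem B3.hF3 : HC (bF3 c et yy) (DD (1 / 11)) :=
  (b.hF.mono fun _ => D11).sub
    ((((b.hc.mono fun _ => D11).pow 3).div (HC.const _) fun _ _ => two_ne_zero).mul b.hY)

theorem B3.Y (hp : p ∈ DD (1 / 11)) : ‖bY c et yy p‖ ≤ 3 * 10 ^ 7 := by
  have h1 := b.toB2.G (ng_mem (D11 hp))
  have h2 := b.toB2.G (b.sm hp)
  have h3 := b.toB2.n1 (b.sm hp)
  have h4 := norm_add_le (bG c et (ng p)) (bG c et (bs yy p))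
  unfold bY
  rw [norm_div, norm_neg, div_le_iff₀ (by linarith)]; nlinarith

theorem B3.r (hp : p ∈ DD (1 / 10)) : ‖br c p‖ ≤ 3 * 10 ^ 5 := by
  have h1 := rr_le (nrm_c (b.c0 _ (ng_mem hp))).2.1
  have h2 := b.rden hp
  unfold br
  rw [norm_div, norm_mul, div_le_iff₀ (by linarith)]
  simp only [Complex.norm_ofNat]; nlinarith

theorem B3.Z (hp : p ∈ DD (1 / 10)) : ‖bZ c et p‖ ≤ 10 ^ 7 := by
  have c1 := (nrm_c (b.c0 _ hp)).2.1
  have c2 := (nrm_c (b.c0 _ (ng_mem hp))).2.1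
  have r1 := rr_le c1
  have r2 := rr_le c2
  have g1 := b.toB2.G hp
  have g2 := b.toB2.G (ng_mem hp)
  have d1 := b.toB2.D hp
  have d2 := b.toB2.D (ng_mem hp)
  have h3 := b.cadd hp (ng_mem hp)
  have h4 := hp.2.le
  have a1 : ‖c p ^ 2 * c (ng p) ^ 2 * p.2 * (bG c et p + bG c et (ng p)) / (c p + c (ng p))‖ ≤
      (9 / 8) ^ 2 * (9 / 8) ^ 2 * (1 / 10) * (10 ^ 7 + 10 ^ 7) / (7 / 4) := by
    rw [norm_div, norm_mul, norm_mul, norm_mul, norm_pow, norm_pow]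
    have := (norm_add_le (bG c et p) (bG c et (ng p))).trans (add_le_add g1 g2)
    gcongr
  have a2 : ‖c (ng p) * rr (c (ng p)) + c p * rr (c p)‖ ≤ 9 / 8 * 10 ^ 5 + 9 / 8 * 10 ^ 5 := by
    refine (norm_add_le _ _).trans ?_
    rw [norm_mul, norm_mul]; gcongr
  unfold bZ
  refine norm_add₃_le.trans ?_
  have := norm_sub_le (c p ^ 2 * c (ng p) ^ 2 * p.2 * (bG c et p + bG c et (ng p)) /
    (c p + c (ng p))) (c (ng p) * rr (c (ng p)) + c p * rr (c p))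
  linarith

theorem B3.F (hp : p ∈ DD (1 / 10)) : ‖bF c et p‖ ≤ 2 * 10 ^ 7 := by
  have h1 := b.r hp
  have h2 := b.Z hp
  have h3 := b.toB2.z (ng_mem hp)
  refine (norm_add_le _ _).trans ?_
  rw [norm_mul]; nlinarith [norm_nonneg (br c p), norm_nonneg (bz c et (ng p))]

theorem B3.F3 (hp : p ∈ DD (1 / 11)) : ‖bF3 c et yy p‖ ≤ 10 ^ 8 := by
  have h1 := b.F (D11 hp)
  have h2 := b.Y hp
  have c1 := (nrm_c (b.c0 _ (D11 hp))).2.1
  have a : ‖c p ^ 3 / 2 * bY c et yy p‖ ≤ (9 / 8) ^ 3 / 2 * (3 * 10 ^ 7) := by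
    rw [norm_mul, norm_div, norm_pow]; simp only [Complex.norm_ofNat]; gcongr
  exact (norm_sub_le _ _).trans (by linarith)

theorem B3.imY (hp : p ∈ DD (1 / 11)) (h1 : p.1.im = 0) (h2 : p.2.im = 0) :
    (bY c et yy p).im = 0 := by
  have a := b.toB2.im (ng_mem (D11 hp)) (by simpa [ng] using h1) h2
  have a' := b.toB2.im (b.sm hp) h1 (im_mul h2 (b.yr p hp h1 h2))
  exact im_div (by simp [a.2.2.2.2.2.2.1, a'.2.2.2.2.2.2.1]) a'.2.2.2.2.2.2.2.1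

end

end Bon3
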