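import Pool.Agent.Lib.MP_3dbf58_gt.BaseB6

open Set Filter Topology MeasureTheory Metric

noncomputable section

namespace Bon3

def sq (q : ℝ) (ξ : ℂ) : ℂ := q * (1 - ξ)

theorem Sec_b2 {ξ : ℂ} (h : ξ ∈ Sec th0) : ξ ∈ ball (0 : ℂ) 2 := by
  have := (Sec_norm (by unfold th0; norm_num) le_rfl h).2.1
  simp only [mem_ball, dist_zero_right]; unfold th0 at this; linarith

theorem one_sub_le {ξ : ℂ} (h : ξ ∈ ball (0 : ℂ) 2) : ‖1 - ξ‖ ≤ 3 := by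
  have := norm_sub_le (1 : ℂ) ξ
  simp only [mem_ball, dist_zero_right, norm_one] at h this; linarith

section
variable {q : ℝ} (q0 : 0 < q) (q1 : q ≤ 2 * tt) {ξ : ℂ}
include q0 q1

theorem sq_le (h : ξ ∈ ball (0 : ℂ) 2) : ‖sq q ξ‖ ≤ 1 / 10 ^ 28 := by
  have := one_sub_le h
  unfold tt at q1
  rw [sq, norm_mul, Complex.norm_real, Real.norm_of_nonneg q0.le]; nlinarith

theorem sq_lt (h : ξ ∈ ball (0 : ℂ) 2) : ‖sq q ξ‖ < 1 / 11 := (sq_le q0 q1 h).trans_lt (by norm_num)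

omit q0 q1 in
theorem sq_d (ξ : ℂ) : HasDerivAt (sq q) (-q) ξ :=
  (((hasDerivAt_id ξ).const_sub 1).const_mul (q : ℂ)).congr_deriv (by ring)

variable {f : ℂ → ℂ} {V D : ℂ} (n : Nice f V D)
include n

theorem Nice.cd (h : ξ ∈ ball (0 : ℂ) 2) :
    HasDerivAt (fun ζ => f (sq q ζ)) (-q * deriv f (sq q ξ)) ξ :=
  ((n.at (sq_lt q0 q1 h)).comp ξ (sq_d ξ)).congr_deriv (mul_comm _ _)

theorem Nice.cdiff : DifferentiableOn ℂ (fun ζ => f (sq q ζ)) (ball 0 2) :=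
  fun _ h => (n.cd q0 q1 h).differentiableAt.differentiableWithinAt

theorem Nice.d1 (hD : ‖D‖ ≤ 1000) (h : ξ ∈ ball (0 : ℂ) 2) : ‖deriv f (sq q ξ)‖ ≤ 1001 := by
  have := n.d _ (sq_le q0 q1 h)
  have := norm_sub_norm_le (deriv f (sq q ξ)) D
  linarith

theorem Nice.v1 (hV : ‖V‖ ≤ 1000) (h : ξ ∈ ball (0 : ℂ) 2) : ‖f (sq q ξ)‖ ≤ 1001 := by
  have := n.v _ (sq_le q0 q1 h)
  have := norm_sub_norm_le (f (sq q ξ)) V
  linarith

theorem Nice.vert (hD : ‖D‖ ≤ 1000) (h : ξ ∈ ball (0 : ℂ) 2) :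
    ‖f (sq q ξ) - f q‖ ≤ 1 / 10 ^ 20 * ‖ξ‖ := by
  have := (convex_ball (0 : ℂ) 2).norm_image_sub_le_of_norm_hasDerivWithin_le (C := 1 / 10 ^ 20)
    (fun s hs => (n.cd q0 q1 hs).hasDerivWithinAt) (fun s hs => by
      have := n.d1 q0 q1 hD hs
      unfold tt at q1
      rw [norm_mul, norm_neg, Complex.norm_real, Real.norm_of_nonneg q0.le]
      nlinarith [norm_nonneg (deriv f (sq q s))]) (x := 0) (y := ξ) (by simp) h
  simpa [sq] using this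
end

theorem TT_d (γ c : ℂ) : HasDerivAt (TT γ) (TT' γ c) c ∧ HasDerivAt (HH γ) (HH' γ c) c := by
  have m : ∀ (a : ℂ) (k : ℕ), HasDerivAt (fun z : ℂ => a * z ^ k) (a * (k * c ^ (k - 1))) c :=
    fun a k => (hasDerivAt_pow k c).const_mul a
  have h1 : HasDerivAt ph (ph' c) c :=
    (((m _ 2).fun_sub (m _ 4)).fun_add (m _ 6)).congr_deriv (by simp only [ph']; push_cast; ring)
  have h2 : HasDerivAt rr (c * ph' c) c :=
    (((m _ 3).fun_sub (m _ 5)).fun_add (m _ 7)).congr_deriv (by simp only [ph']; push_cast; ring)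
  have h3 : HasDerivAt (TT γ) (TT' γ c) c :=
    ((hasDerivAt_id c).fun_mul ((h2.const_mul γ).const_add 1)).congr_deriv
      (by simp only [TT', id]; ring)
  exact ⟨h3, h3.fun_sub (h1.const_mul γ)⟩

theorem TT_cast (γ c : ℝ) : ((TT γ c : ℝ) : ℂ) = TT (γ : ℂ) c ∧ ((HH γ c : ℝ) : ℂ) = HH (γ : ℂ) c := by
  simp [TT, HH, rr, ph]

section
variable {c et yy : ℂ × ℂ → ℂ} (b : B3 c et yy) {q γ c0 B : ℝ} (q0 : 0 < q) (q1 : q ≤ 2 * tt)
  (hγ : ‖(γ : ℂ)‖ ≤ 1 / 10 ^ 80)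
include b q0 q1 hγ

theorem B3.m {ξ : ℂ} (h : ξ ∈ ball (0 : ℂ) 2) : ((γ : ℂ), sq q ξ) ∈ DD (1 / 11) :=
  g_mem hγ (sq_lt q0 q1 h)

theorem B3.ud {ξ : ℂ} (h : ξ ∈ ball (0 : ℂ) 2) :
    HasDerivAt (fun ζ => (1 - ζ) * (bz c et (γ, sq q ζ) / bT c (γ, sq q ζ)) ^ 2)
      (-1 * (1 + γ * bG c et (γ, sq q ξ)) +
        (1 - ξ) * (γ * (-q * deriv (sl (bG c et) γ) (sq q ξ)))) ξ := by
  refine (((hasDerivAt_id ξ).const_sub 1).fun_mul
    ((((b.nG hγ).cd q0 q1 h).const_mul (γ : ℂ)).const_add 1)).congr_of_eventuallyEq ?_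
  filter_upwards [isOpen_ball.mem_nhds h] with ζ hζ
  rw [b.toB2.nz (D11 (b.m q0 q1 hγ hζ))]; rfl

theorem B3.ud1 {ξ : ℂ} (h : ξ ∈ ball (0 : ℂ) 2) :
    ‖-1 * (1 + γ * bG c et (γ, sq q ξ)) +
        (1 - ξ) * (γ * (-q * deriv (sl (bG c et) γ) (sq q ξ))) + 1‖ ≤ 1 / 10 ^ 60 := by
  have a1 := (b.nG hγ).v1 q0 q1 (by simp) h
  have a2 := (b.nG hγ).d1 q0 q1 (by norm_num) h
  have a3 := one_sub_le h
  have a4 : ‖(q : ℂ)‖ ≤ 1 := by
    rw [Complex.norm_real, Real.norm_of_nonneg q0.le]; unfold tt at q1; linarith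
  calc _ = ‖-(γ * sl (bG c et) γ (sq q ξ)) +
        (1 - ξ) * (γ * (-q * deriv (sl (bG c et) γ) (sq q ξ)))‖ := by congr 1; simp only [sl]; ring
    _ ≤ 1 / 10 ^ 80 * 1001 + 3 * (1 / 10 ^ 80 * (1 * 1001)) := by
      refine (norm_add_le _ _).trans ?_
      simp only [norm_neg, norm_mul]; gcongr
    _ ≤ _ := by norm_num

theorem B3.cap (B0 : 0 ≤ B) (hc : c (γ, q) = c0) :
    CapInv q th0 B (fun ζ => (1 - ζ) * (bz c et (γ, sq q ζ) / bT c (γ, sq q ζ)) ^ 2)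
      (fun ζ => bT c (γ, sq q ζ)) (fun ζ => bH c (γ, sq q ζ)) (fun ζ => γ * et (γ, sq q ζ))
      ((1 - c0 ^ 2) / (c0 ^ 2 * q)) (TT γ c0) (HH γ c0) := by
  have sb : Sec th0 ⊆ ball 0 2 := fun _ => Sec_b2
  have im : ∀ x : ℝ, (x : ℂ) ∈ Sec th0 → _ := fun x hx =>
    b.toB2.im (D11 (b.m q0 q1 hγ (sb hx))) (by simp) (by simp [sq])
  have dl : (1 : ℝ) / 10 ^ 15 ≤ del1 + B := by unfold del1; linarith
  have qc : (q : ℂ) ≠ 0 := by exact_mod_cast q0.ne'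
  have s0 : sq q 0 = q := by simp [sq]
  refine ⟨fun ξ h => (b.ud q0 q1 hγ (sb h)).differentiableAt.differentiableWithinAt,
    ((b.nT hγ).cdiff q0 q1).mono sb, ((b.nH hγ).cdiff q0 q1).mono sb,
    (((b.ne hγ).cdiff q0 q1).mono sb).const_mul _, fun x hx => ?_, fun x hx => (im x hx).2.2.1,
    fun x hx => (im x hx).2.2.2.1, fun x hx => im_mul (by simp) (im x hx).2.1, fun ξ h => ?_,
    fun ξ h => ?_, by simp, fun ξ h => ((b.nT hγ).v _ (sq_le q0 q1 (sb h))).trans dl, fun ξ h => ?_,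
    fun ξ h => ((b.nH hγ).v _ (sq_le q0 q1 (sb h))).trans dl, fun ξ h => ?_, fun ξ h => ?_,
    fun ξ h => ?_, fun ξ h => ?_, fun ξ h => ?_, fun ξ h => ?_⟩
  · exact im_mul (by simp) (im_pow (im_div (im x hx).2.2.2.2.2.1 (im x hx).2.2.1) 2)
  · have a1 := (b.nG hγ).v1 q0 q1 (by simp) (sb h)
    have a3 := one_sub_le (sb h)
    rw [b.toB2.nz (D11 (b.m q0 q1 hγ (sb h)))]
    calc _ = ‖(1 - ξ) * (γ * sl (bG c et) γ (sq q ξ))‖ := by congr 1; simp only [sl, bn]; ring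
      _ ≤ 3 * (1 / 10 ^ 80 * 1001) := by simp only [norm_mul]; gcongr
      _ ≤ _ := le_trans (by norm_num) dl
  · rw [(b.ud q0 q1 hγ (sb h)).deriv]
    exact (b.ud1 q0 q1 hγ (sb h)).trans (le_trans (by norm_num) dl)
  · have := ((b.nT hγ).cd q0 q1 (sb h)).deriv
    simp only [sl] at this
    rw [this]
    have a := (b.nT hγ).d _ (sq_le q0 q1 (sb h))
    calc _ = ‖-q * (deriv (sl (bT c) γ) (sq q ξ) - -(1 / 2))‖ := by congr 1; ring
      _ ≤ q * (1 / 10 ^ 15) := by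
        rw [norm_mul, norm_neg, Complex.norm_real, Real.norm_of_nonneg q0.le]; gcongr
      _ ≤ _ := by linarith
  · have dc := (b.nc hγ).cd q0 q1 (sb h)
    simp only [sl] at dc
    set c' := -(q : ℂ) * deriv (sl c γ) (sq q ξ)
    have ne : ∀ ζ ∈ ball (0 : ℂ) 2, c (γ, sq q ζ) ≠ 0 := fun ζ hζ e => by
      have := b.toB2.cn (D11 (b.m q0 q1 hγ hζ)); rw [e] at this; simp at this
    have h1 : HasDerivAt (fun ζ => bH c (γ, sq q ζ)) (HH' (γ : ℂ) (c (γ, sq q ξ)) * c') ξ :=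
      (TT_d γ _).2.comp ξ dc
    have h2 : HasDerivAt (fun ζ => bT c (γ, sq q ζ)) (TT' (γ : ℂ) (c (γ, sq q ξ)) * c') ξ :=
      (TT_d γ _).1.comp ξ dc
    have eu : ∀ ζ ∈ ball (0 : ℂ) 2, (1 - ζ) * (bz c et (γ, sq q ζ) / bT c (γ, sq q ζ)) ^ 2 =
        ((c (γ, sq q ζ) ^ 2)⁻¹ - 1) / q := fun ζ hζ => by
      have e := b.toB2.cn (D11 (b.m q0 q1 hγ hζ))
      have := ne ζ hζ
      rw [b.toB2.nz (D11 (b.m q0 q1 hγ hζ))]
      have e2 : ((γ : ℂ), sq q ζ).2 = q * (1 - ζ) := rfl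
      rw [e2] at e
      generalize c (γ, sq q ζ) = x at e this ⊢
      generalize bn c et (γ, sq q ζ) = n at e ⊢
      field_simp
      linear_combination e
    have h3 := (((dc.fun_pow 2).fun_inv (pow_ne_zero 2 (ne ξ (sb h)))).sub_const 1).div_const (q : ℂ)
    have h4 := h3.congr_of_eventuallyEq (f₁ := fun ζ =>
      (1 - ζ) * (bz c et (γ, sq q ζ) / bT c (γ, sq q ζ)) ^ 2) (by
        filter_upwards [isOpen_ball.mem_nhds (sb h)] with ζ hζ using eu ζ hζ)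
    rw [h1.deriv, h2.deriv, h4.deriv, eu ξ (sb h)]
    have := ne ξ (sb h)
    simp only [bT, TT, HH', TT']
    field_simp
    ring
  · have a1 := (b.ne hγ).v1 q0 q1 (by norm_num) (sb h)
    simp only [sl] at a1
    calc _ ≤ 1 / 10 ^ 80 * 1001 := by rw [norm_mul]; gcongr
      _ ≤ _ := le_trans (by norm_num) dl
  · have := b.toB2.Tne (D11 (b.m q0 q1 hγ (sb h)))
    simp only [bz]; field_simp
  · have := (convex_ball (0 : ℂ) 2).norm_image_sub_le_of_norm_hasDerivWithin_le (C := 2)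
      (fun s hs => (b.ud q0 q1 hγ hs).hasDerivWithinAt) (fun s hs => by
        have h1 := b.ud1 q0 q1 hγ hs
        have h2 := norm_sub_le (-1 * (1 + γ * bG c et (γ, sq q s)) +
          (1 - s) * (γ * (-q * deriv (sl (bG c et) γ) (sq q s))) + 1) 1
        rw [add_sub_cancel_right, norm_one] at h2
        linarith) (x := 0) (y := ξ) (by simp) (sb h)
    have m0 := D11 (b.m q0 q1 hγ (ξ := 0) (by simp))
    have e := b.toB2.cn m0
    rw [b.toB2.nz m0, s0, sub_zero, sub_zero, one_mul] at this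
    rw [s0, hc] at e
    have c1 : (c0 : ℂ) ≠ 0 := fun h => by rw [h] at e; simp at e
    have : ((((1 - c0 ^ 2) / (c0 ^ 2 * q) : ℝ)) : ℂ) = bn c et (γ, q) := by
      push_cast; field_simp; linear_combination -e
    rw [this]
    nlinarith [norm_nonneg ξ]
  · have := (b.nT hγ).vert q0 q1 (by norm_num) (sb h)
    simp only [sl, bT, hc] at this
    rw [(TT_cast γ c0).1]
    simp only [bT]
    nlinarith [norm_nonneg ξ]
  · have := (b.nH hγ).vert q0 q1 (by norm_num) (sb h)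
    simp only [sl, bH, hc] at this
    rw [(TT_cast γ c0).2]
    simp only [bH]
    nlinarith [norm_nonneg ξ]

end

end Bon3
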