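import Pool.Agent.Lib.MP_3dbf58_gt.BaseB7

open Set Filter Topology MeasureTheory Metric

noncomputable section

namespace Bon3

theorem im_deriv {f : ℂ → ℂ} {f' : ℂ} {x : ℝ} (h : HasDerivAt f f' x)
    (hr : ∀ᶠ t : ℝ in 𝓝 x, (f t).im = 0) : f'.im = 0 := by
  have h1 : HasDerivAt (fun t : ℝ => (-Complex.I * f t).re) (-Complex.I * f').re x :=
    hasDerivAt_re (h.const_mul (-Complex.I))
  have h2 : HasDerivAt (fun t : ℝ => (-Complex.I * f t).re) 0 x :=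
    (hasDerivAt_const x (0 : ℝ)).congr_of_eventuallyEq (hr.mono fun t ht => by simp [ht])
  simpa using h1.unique h2

section
variable {c et yy : ℂ × ℂ → ℂ} (b : B3 c et yy) {q : ℝ} (q0 : 0 < q) (q1 : q ≤ 2 * tt) {ξ : ℂ}
include b q0 q1

omit b in
theorem nq : ‖(gam : ℂ) * q‖ = gam * q := by
  rw [← Complex.ofReal_mul, Complex.norm_real, Real.norm_of_nonneg (mul_pos gam_pos q0).le]

theorem B3.h1 (h : ξ ∈ ball (0 : ℂ) 2) :
    ‖deriv (fun ζ => gam * et (gam, sq q ζ)) ξ + ((120 * gam * q : ℝ) : ℂ)‖ ≤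
      th0 ^ 2 * (120 * gam * q) / 2 := by
  have d := (((b.ne gam_le).cd q0 q1 h).const_mul (gam : ℂ)).deriv
  simp only [sl] at d
  have a := (b.ne gam_le).d _ (sq_le q0 q1 h)
  have := mul_pos gam_pos q0
  rw [d]
  calc _ = ‖-(gam * q) * (deriv (sl et gam) (sq q ξ) - 120)‖ := by congr 1; push_cast; ring
    _ ≤ gam * q * (1 / 10 ^ 15) := by rw [norm_mul, norm_neg, nq q0 q1]; gcongr
    _ ≤ _ := by unfold th0; nlinarith

theorem B3.h2 (h : ξ ∈ ball (0 : ℂ) 2) :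
    ‖deriv (deriv (fun ζ => gam * et (gam, sq q ζ))) ξ‖ ≤ th0 ^ 2 * (120 * gam * q) / 2 := by
  have n := b.ne gam_le
  have d : HasDerivAt (deriv (fun ζ => gam * et (gam, sq q ζ)))
      (gam * (-q * (deriv (deriv (sl et gam)) (sq q ξ) * -q))) ξ := by
    refine ((((n.at2 (sq_lt q0 q1 h)).comp ξ (sq_d ξ)).const_mul (-q : ℂ)).const_mul
      (gam : ℂ)).congr_of_eventuallyEq ?_
    filter_upwards [isOpen_ball.mem_nhds h] with ζ hζ
    exact ((n.cd q0 q1 hζ).const_mul (gam : ℂ)).deriv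
  have a := n.dd _ (sq_le q0 q1 h)
  have := mul_pos gam_pos q0
  rw [d.deriv]
  calc _ = ‖(gam * q) * (q * deriv (deriv (sl et gam)) (sq q ξ))‖ := by congr 1; ring
    _ ≤ gam * q * (2 * tt * 10 ^ 12) := by
      rw [norm_mul, nq q0 q1, norm_mul, Complex.norm_real, Real.norm_of_nonneg q0.le]
      have : 0 ≤ 2 * tt := by linarith
      gcongr
    _ ≤ _ := by unfold th0 tt; nlinarith

omit b in
theorem q_le : ‖(q : ℂ)‖ ≤ 1 / 10 ^ 28 := by simpa [sq] using sq_le q0 q1 (ξ := 0) (by simp)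

theorem B3.Yim : (deriv (sl (bY c et yy) gam) q).im = 0 := by
  have h := (q_le q0 q1).trans_lt (show (1 : ℝ) / 10 ^ 28 < 1 / 11 by norm_num)
  refine im_deriv ((b.nY gam_le).at h) ?_
  have : ∀ᶠ t : ℝ in 𝓝 q, ‖(t : ℂ)‖ < 1 / 11 :=
    (Complex.continuous_ofReal.norm.tendsto q).eventually (gt_mem_nhds h)
  exact this.mono fun t ht => b.imY (g_mem gam_le ht) (by simp) (by simp)

theorem B3.mu : |q * gam * (deriv (sl (bY c et yy) gam) q).re - 2 * kap * (120 * gam * q)| ≤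
    th0 * (120 * gam * q) := by
  have a := abs_le.1 ((Complex.abs_re_le_norm _).trans ((b.nY gam_le).d _ (q_le q0 q1)))
  simp only [Complex.sub_re, Complex.re_ofNat] at a
  have := mul_pos gam_pos q0
  unfold th0 kap
  rw [abs_le]; constructor <;> nlinarith [a.1, a.2]

theorem B3.U0 (t : bY c et yy (gam, q) = 0) (h : ξ ∈ ball (0 : ℂ) 2) :
    ‖1 - (1 - ξ) * yy (gam, sq q ξ) - ξ -
      ((q * gam * (deriv (sl (bY c et yy) gam) q).re : ℝ) : ℂ) * ξ * (1 - ξ)‖ ≤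
      th0 ^ 2 * (120 * gam * q) / 2 * ‖ξ‖ ^ 2 := by
  have a := (b.nY gam_le).mv2 (sq_le q0 q1 h) (q_le q0 q1)
  have e : ((deriv (sl (bY c et yy) gam) q).re : ℂ) = deriv (sl (bY c et yy) gam) q :=
    Complex.ext (by simp) (by simp [b.Yim q0 q1])
  have e2 : sq q ξ - q = -(q * ξ) := by simp only [sq]; ring
  have a3 := one_sub_le h
  have := mul_pos gam_pos q0
  rw [e2, norm_neg, norm_mul, Complex.norm_real, Real.norm_of_nonneg q0.le] at a
  rw [b.yY (b.m q0 q1 gam_le h)]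
  push_cast
  rw [e]
  calc _ = ‖-((1 - ξ) * (gam * (sl (bY c et yy) gam (sq q ξ) - sl (bY c et yy) gam q -
        deriv (sl (bY c et yy) gam) q * -(q * ξ))))‖ := by congr 1; simp only [sl, t]; ring
    _ ≤ 3 * (gam * (10 ^ 12 * (q * ‖ξ‖) * (q * ‖ξ‖))) := by
      rw [norm_neg, norm_mul, norm_mul, Complex.norm_real, Real.norm_of_nonneg gam_pos.le]
      have := gam_pos
      gcongr
    _ = gam * q * ‖ξ‖ ^ 2 * (3 * 10 ^ 12 * q) := by ring
    _ ≤ gam * q * ‖ξ‖ ^ 2 * (3 * 10 ^ 12 * (2 * tt)) := by gcongr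
    _ ≤ _ := by unfold th0 tt; nlinarith [mul_nonneg this.le (sq_nonneg ‖ξ‖)]

theorem B3.eρ (h : ξ ∈ ball (0 : ℂ) 2) :
    (1 + gam * rr (c (ng (gam, sq q ξ)))) / (1 - gam * rr (c (ng (gam, sq q ξ)))) =
      1 + gam * br c (gam, sq q ξ) := by
  have := b.rne (D11 (b.m q0 q1 gam_le h))
  simp only [br] at this ⊢
  field_simp; ring

theorem B3.dρ (h : ξ ∈ ball (0 : ℂ) 2) : HasDerivAt
    (fun ζ => (1 + gam * rr (c (ng (gam, sq q ζ)))) / (1 - gam * rr (c (ng (gam, sq q ζ)))))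
    (gam * (-q * deriv (sl (br c) gam) (sq q ξ))) ξ := by
  refine ((((b.nr gam_le).cd q0 q1 h).const_mul (gam : ℂ)).const_add 1).congr_of_eventuallyEq ?_
  filter_upwards [isOpen_ball.mem_nhds h] with ζ hζ using b.eρ q0 q1 hζ

theorem B3.ρ1 (h : ξ ∈ ball (0 : ℂ) 2) : ‖gam * (-q * deriv (sl (br c) gam) (sq q ξ)) +
    (2 + kap) * ((120 * gam * q : ℝ) : ℂ)‖ ≤ th0 ^ 2 * (120 * gam * q) / 2 := by
  have a := (b.nr gam_le).d _ (sq_le q0 q1 h)
  have := mul_pos gam_pos q0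
  calc _ = ‖-(gam * q) * (deriv (sl (br c) gam) (sq q ξ) - 244)‖ := by
        congr 1; unfold kap; push_cast; ring
    _ ≤ gam * q * (1 / 10 ^ 15) := by rw [norm_mul, norm_neg, nq q0 q1]; gcongr
    _ ≤ _ := by unfold th0; nlinarith

theorem B3.f1 (q2 : tt / 2 ≤ q) (t : bY c et yy (gam, q) = 0) (h : ξ ∈ ball (0 : ℂ) 2) :
    ‖(1 + gam * br c (gam, sq q ξ)) * bz c et (ng (gam, sq q ξ)) - bz c et (gam, sq q ξ) *
      (1 - kap * ((120 * gam * q : ℝ) : ℂ) * ξ)‖ ≤ th0 ^ 2 * (120 * gam * q) / 2 := by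
  have a := (b.nF gam_le).mv (sq_le q0 q1 h) (q_le q0 q1)
  have e2 : sq q ξ - q = -(q * ξ) := by simp only [sq]; ring
  have x2 : ‖ξ‖ ≤ 2 := by simpa using (mem_ball_zero_iff.1 h).le
  rw [e2, norm_neg, norm_mul, Complex.norm_real, Real.norm_of_nonneg q0.le] at a
  have lq := (q_le q0 q1).trans_lt (show (1 : ℝ) / 10 ^ 28 < 1 / 11 by norm_num)
  have a2 := sl_close b.hF3 (fun p hp => b.F3 hp) gam_le lq
  rw [b.vF3 lq, sub_zero, bF3, t, mul_zero, sub_zero] at a2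
  have a3 := (b.nz gam_le).v _ (sq_le q0 q1 h)
  have z := b.zZ (D11 (b.m q0 q1 gam_le h))
  have g := gam_pos
  calc _ = ‖gam * ((sl (bF c et) gam (sq q ξ) - sl (bF c et) gam q - 4 * -(q * ξ)) +
        bF c et (gam, q) + 4 * (q * ξ) * (sl (bz c et) gam (sq q ξ) - 1))‖ := by
        congr 1; simp only [sl, bF] at z ⊢; unfold kap; push_cast
        linear_combination z
    _ ≤ gam * (1 / 10 ^ 15 * (q * 2) + 2 * 10 ^ 8 / 10 ^ 59 + 4 * (q * 2) * (1 / 10 ^ 15)) := by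
      rw [norm_mul, Complex.norm_real, Real.norm_of_nonneg g.le]
      refine mul_le_mul_of_nonneg_left (norm_add₃_le.trans (add_le_add (add_le_add (a.trans
        (by gcongr)) a2) ?_)) g.le
      rw [norm_mul, norm_mul, norm_mul, Complex.norm_real, Real.norm_of_nonneg q0.le]
      simp only [Complex.norm_ofNat]; gcongr
    _ ≤ gam * (th0 ^ 2 * (120 * q) / 2) := by
      refine mul_le_mul_of_nonneg_left ?_ g.le
      unfold th0; unfold tt at q2; nlinarith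
    _ = _ := by ring

theorem B3.f2 (h : ξ ∈ ball (0 : ℂ) 2) :
    ‖deriv (fun ζ => bz c et (ng (gam, sq q ζ))) ξ * bz c et (gam, sq q ξ) -
      deriv (fun ζ => bz c et (gam, sq q ζ)) ξ * bz c et (ng (gam, sq q ξ)) -
      2 * ((120 * gam * q : ℝ) : ℂ)‖ ≤ th0 ^ 2 * (120 * gam * q) / 2 := by
  have d1 := (b.nz gam_le).cd q0 q1 h
  have d2 := (d1.fun_add (((b.nZ gam_le).cd q0 q1 h).const_mul (gam : ℂ))).congr_of_eventuallyEq
    (f₁ := fun ζ => bz c et (ng (gam, sq q ζ))) (by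
      filter_upwards [isOpen_ball.mem_nhds h] with ζ hζ using b.zZ (D11 (b.m q0 q1 gam_le hζ)))
  have s := sq_le q0 q1 h
  have a1 := (b.nZ gam_le).d _ s
  have a2 := (b.nz gam_le).v _ s
  have a3 := (b.nz gam_le).d _ s
  have a4 := (b.nZ gam_le).v _ s
  have d1' := d1.deriv
  simp only [sl] at d1' a2 a4
  rw [d2.deriv, d1', b.zZ (D11 (b.m q0 q1 gam_le h))]
  generalize deriv (sl (bZ c et) gam) (sq q ξ) = Z' at *
  generalize deriv (sl (bz c et) gam) (sq q ξ) = z' at *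
  generalize bz c et (gam, sq q ξ) = z at *
  generalize bZ c et (gam, sq q ξ) = Z at *
  have := mul_pos gam_pos q0
  have n1 : ‖(6948 / 105 - 240 : ℂ)‖ ≤ 200 := by norm_num
  have n2 : ‖(-13896 / 105 : ℂ)‖ ≤ 200 := by norm_num
  have n3 : ‖(1 / 2 : ℂ)‖ ≤ 1 := by norm_num
  calc _ = ‖-(gam * q) * ((Z' - (6948 / 105 - 240)) + (Z' - (6948 / 105 - 240)) * (z - 1) +
        (6948 / 105 - 240) * (z - 1) + (-((z' - -(1 / 2)) * (Z - -13896 / 105)) +
        -((z' - -(1 / 2)) * (-13896 / 105)) + 1 / 2 * (Z - -13896 / 105)))‖ := by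
        congr 1; push_cast; ring
    _ ≤ gam * q * (1 / 10 ^ 15 + 1 / 10 ^ 15 * (1 / 10 ^ 15) + 200 * (1 / 10 ^ 15) +
        (1 / 10 ^ 15 * (1 / 10 ^ 15) + 1 / 10 ^ 15 * 200 + 1 * (1 / 10 ^ 15))) := by
      rw [norm_mul, norm_neg, nq q0 q1]
      refine mul_le_mul_of_nonneg_left ((norm_add_le _ _).trans (add_le_add
        (norm_add₃_le.trans ?_) (norm_add₃_le.trans ?_))) this.le
      · simp only [norm_mul]; gcongr
      · simp only [norm_mul, norm_neg]; gcongr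
    _ ≤ _ := by unfold th0; nlinarith

end

end Bon3
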