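import Pool.Agent.Lib.MP_3dbf58_gt.Defs

/-! The base body: support function `1 - γ (v1 c^3 + v2 c^5 + v3 c^7)` in the axial component `c`
of the unit normal. -/

open Set Filter Topology MeasureTheory Metric

noncomputable section

namespace Bon3

def tt : ℝ := 1 / 10 ^ 30
def gam : ℝ := 1 / 10 ^ 80

section
variable {K : Type} [Field K]
def ph (c : K) : K := (6582 - 4 / 10 ^ 30) * c ^ 2 - 10528 * c ^ 4 + 4784 * c ^ 6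
def ph' (c : K) : K := 2 * (6582 - 4 / 10 ^ 30) * c - 42112 * c ^ 3 + 28704 * c ^ 5
def rr (c : K) : K := 2 / 3 * (6582 - 4 / 10 ^ 30) * c ^ 3 - 42112 / 5 * c ^ 5 + 28704 / 7 * c ^ 7
/-- arcsine average of `ph` as a function of `s = c ^ 2` -/
def hh1 (s : K) : K := (3291 - 2 / 10 ^ 30) * s - 3948 * s ^ 2 + 1495 * s ^ 3
def TT (γ c : K) : K := c * (1 + γ * rr c)
def HH (γ c : K) : K := TT γ c - γ * ph c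
def XX (γ c : K) : K := (1 - c ^ 2) * (1 + γ * rr c) ^ 2
def TT' (γ c : K) : K := 1 + γ * (rr c + c ^ 2 * ph' c)
def HH' (γ c : K) : K := TT' γ c - γ * ph' c
/-- radicand for the plane `(σ, y)` -/
def NB (σ y γ c : K) : K := XX γ c - σ * (HH γ c + y) ^ 2
end

/-- triples `(σ, y, γ)` -/
def PD : Set (ℂ × ℂ × ℂ) := {p | ‖p.1‖ < 1 / 10 ∧ ‖p.2.1‖ < 1 / 10 ^ 3 ∧ ‖p.2.2‖ < 1 / 10 ^ 10}

/-- chord end and the two half integrals of the base body -/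
structure BA (cc Ia Ib : ℂ × ℂ × ℂ → ℂ) : Prop where
  hc : HC cc PD
  ha : HC Ia PD
  hb : HC Ib PD
  c0 : ∀ p ∈ PD, ‖cc p - 1‖ ≤ 1 / 8
  root : ∀ p ∈ PD, NB p.1 p.2.1 p.2.2 (cc p) = 0
  a0 : ∀ p ∈ PD, ‖Ia p‖ ≤ 3
  b0 : ∀ p ∈ PD, ‖Ib p‖ ≤ 10 ^ 6
  az : ∀ σ : ℂ, ‖σ‖ < 1 / 10 → Ia (σ, 0, 0) = cc (σ, 0, 0) * Real.pi / 2
  bz : ∀ σ : ℂ, ‖σ‖ < 1 / 10 →
    Ib (σ, 0, 0) = cc (σ, 0, 0) * Real.pi / 2 * hh1 (cc (σ, 0, 0) ^ 2)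
  rl : ∀ σ y γ : ℝ, ((σ : ℂ), (y : ℂ), (γ : ℂ)) ∈ PD →
    (cc (σ, y, γ)).im = 0 ∧ (Ia (σ, y, γ)).im = 0 ∧ (Ib (σ, y, γ)).im = 0
  lnk : ∀ σ y γ : ℝ, ((σ : ℂ), (y : ℂ), (γ : ℂ)) ∈ PD → 0 ≤ σ →
    (cc (σ, y, γ)).re ≤ 1 ∧
    (∀ c : ℝ, 0 ≤ c → c < (cc (σ, y, γ)).re → 0 < NB σ y γ c) ∧
    (∀ c : ℝ, (cc (σ, y, γ)).re ≤ c → c ≤ 1 → NB σ y γ c ≤ 0) ∧
    IntervalIntegrable (fun c : ℝ => 1 / Real.sqrt (NB σ y γ c)) volume 0 1 ∧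
    (Ia (σ, y, γ)).re = (∫ c in (0 : ℝ)..1, HH' γ c / Real.sqrt (NB σ y γ c)) ∧
    (Ib (σ, y, γ)).re = ∫ c in (0 : ℝ)..1, ph c * HH' γ c / Real.sqrt (NB σ y γ c)

/-- criticality function of the base body at `(σ, y)` -/
def Cb (Ia Ib : ℂ × ℂ × ℂ → ℂ) (σ y : ℂ) : ℂ :=
  (y * (Ia (σ, y, gam) + Ia (σ, -y, -gam)) - gam * (Ib (σ, y, gam) + Ib (σ, -y, -gam))) /
    ((1 + σ) * Real.pi)

/-- the base state; `hb` is the critical offset as a function of `σ` -/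
def St0 (cc Ia Ib : ℂ × ℂ × ℂ → ℂ) (hb U : ℂ → ℂ) (q : ℝ) (g : ℝ → ℝ) : St :=
  let σ : ℂ → ℂ := fun ξ => q * (1 - ξ)
  let cp : ℂ → ℂ := fun ξ => cc (σ ξ, hb (σ ξ), gam)
  let cm : ℂ → ℂ := fun ξ => cc (σ ξ, -hb (σ ξ), -gam)
  { up := fun ξ => (1 - ξ) * ((HH (gam : ℂ) (cp ξ) + hb (σ ξ)) / TT (gam : ℂ) (cp ξ)) ^ 2
    Tp := fun ξ => TT (gam : ℂ) (cp ξ)
    Hp := fun ξ => HH (gam : ℂ) (cp ξ)
    um := fun ξ => (1 - ξ) * ((HH (-gam : ℂ) (cm ξ) - hb (σ ξ)) / TT (-gam : ℂ) (cm ξ)) ^ 2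
    Tm := fun ξ => TT (-gam : ℂ) (cm ξ)
    Hm := fun ξ => HH (-gam : ℂ) (cm ξ)
    h := fun ξ => hb (σ ξ)
    ρ := fun ξ => (1 + gam * rr (cm ξ)) / (1 - gam * rr (cm ξ))
    U := U
    E := fun _ => 0
    Cf := fun p => Cb Ia Ib (σ p.1) p.2
    g := g
    s := 0 }

/-- the band `|c| ≤ c0` -/
def band0 (c0 : ℝ) : Pc where
  H := fun s => HH gam (c0 * (2 * s - 1))
  X := fun s => XX gam (c0 * (2 * s - 1))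
  T := fun s => TT gam (c0 * (2 * s - 1))
  H' := fun s => HH' gam (c0 * (2 * s - 1)) * (2 * c0)
  T' := fun s => TT' gam (c0 * (2 * s - 1)) * (2 * c0)

def Par0 (hb : ℂ → ℂ) (q μ0 c0 : ℝ) (g : ℝ → ℝ) : Par where
  q := q
  η := 120 * gam * q
  μ0 := μ0
  u0 := (1 - c0 ^ 2) / (c0 ^ 2 * q)
  Tp0 := TT gam c0
  Tm0 := TT (-gam) c0
  Hp0 := HH gam c0
  Hm0 := HH (-gam) c0
  band := band0 c0
  gb := g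
  Gb := fun x => Ar g (q * (1 - x)) (hb ((q : ℂ) * (1 - (x : ℂ)))).re

/-- facts on the critical offset and the touching parameter -/
structure BB (cc Ia Ib : ℂ × ℂ × ℂ → ℂ) (hb : ℂ → ℂ) (q μ0 c0 : ℝ) : Prop where
  q1 : tt / 2 ≤ q
  q2 : q ≤ 2 * tt
  mu : |μ0 - 2 * kap * (120 * gam * q)| ≤ th0 * (120 * gam * q)
  c1 : 999 / 1000 ≤ c0
  c2 : c0 < 1
  hb0 : ∀ σ : ℂ, ‖σ‖ < 1 / 12 → ‖hb σ‖ ≤ 1 / 10 ^ 60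
  hbr : ∀ σ : ℝ, |σ| < 1 / 12 → (hb σ).im = 0
  cr : ∀ σ : ℂ, ‖σ‖ < 1 / 12 → Cb Ia Ib σ (hb σ) = 0
  mono : ∀ σ ∈ Icc q (1 / 20),
    (cc (σ, hb σ, gam)).re ≤ c0 ∧ (cc (σ, -hb σ, -gam)).re ≤ c0

end Bon3
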