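import Pool.Agent.Lib.MP_3dbf58_gt.RepL

open Set Filter Topology MeasureTheory Metric

noncomputable section

namespace Bon3

/-- contribution of one piece to the brightness -/
def Pc.br (p : Pc) (S C : ℝ) : ℝ :=
  ∫ s in (0 : ℝ)..1, 2 * Real.sqrt (p.X s - C ^ 2 / S ^ 2 * p.T s ^ 2) *
    (S * (p.H' s + C ^ 2 / S ^ 2 * p.T' s))

/-- length of a fibre of the shadow -/
def briF (g : ℝ → ℝ) (S C x : ℝ) : ENNReal := volume (Prod.mk x ⁻¹' PSet g S C)

/-- abscissa of the shadow boundary along a piece -/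
def briP (p : Pc) (S C s : ℝ) : ℝ := S * (p.H s + C ^ 2 / S ^ 2 * p.T s)

/-- the integrand -/
def briJ (p : Pc) (S C s : ℝ) : ℝ :=
  2 * Real.sqrt (p.X s - C ^ 2 / S ^ 2 * p.T s ^ 2) * (S * (p.H' s + C ^ 2 / S ^ 2 * p.T' s))

lemma bri_neg (g : ℝ → ℝ) (S C x : ℝ) : briF (fun x => g (-x)) S C x = briF g S C (-x) := by
  unfold briF
  congr 1
  ext z
  simp only [PSet, mem_preimage, mem_ofPred_eq]
  constructor
  · rintro ⟨a, y, h1, h2⟩
    exact ⟨-a, -y, by simpa using h1, by rw [h2]; ring⟩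
  · rintro ⟨a, y, h1, h2⟩
    exact ⟨-a, -y, by simpa using h1, by linarith⟩

lemma bri_key {g : ℝ → ℝ} {p : Pc} (h : Tg g p) {S C s : ℝ} (S0 : 0 < S) (hs : s ∈ Icc (0 : ℝ) 1)
    {x z : ℝ} (hz : (x, z) ∈ PSet g S C) :
    z ^ 2 ≤ p.X s - C ^ 2 / S ^ 2 * p.T s ^ 2 - 2 * p.T s * ((x - briP p S C s) / S) := by
  obtain ⟨a, y, h1, h2⟩ := hz
  have h3 := (h s hs).2 a
  simp only at h1 h2
  have h4 : a - p.H s = (x - briP p S C s) / S + (C / S) ^ 2 * p.T s - C / S * y := by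
    rw [h2, briP]; field_simp; ring
  rw [h4] at h3
  rw [← div_pow]
  nlinarith [sq_nonneg (C / S * p.T s - y)]

lemma bri_fib {g : ℝ → ℝ} {p : Pc} (h : Tg g p) {S C s : ℝ} (S0 : 0 < S)
    (hs : s ∈ Icc (0 : ℝ) 1) : briF g S C (briP p S C s) =
      ENNReal.ofReal (2 * Real.sqrt (p.X s - C ^ 2 / S ^ 2 * p.T s ^ 2)) := by
  have e : Prod.mk (briP p S C s) ⁻¹' PSet g S C =
      {z | z ^ 2 ≤ p.X s - C ^ 2 / S ^ 2 * p.T s ^ 2} := by
    ext z
    constructor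
    · intro hz
      simpa using bri_key h S0 hs hz
    · intro hz
      refine ⟨p.H s, C / S * p.T s, ?_, ?_⟩
      · rw [(h s hs).1, mul_pow, div_pow]
        simp only [mem_ofPred_eq] at hz ⊢
        linarith
      · simp only [briP]; field_simp
  rw [briF, e]
  set a := p.X s - C ^ 2 / S ^ 2 * p.T s ^ 2
  rcases le_or_gt 0 a with ha | ha
  · have : {z : ℝ | z ^ 2 ≤ a} = Icc (-Real.sqrt a) (Real.sqrt a) := by
      ext z; exact Real.sq_le ha
    rw [this, Real.volume_Icc]; congr 1; ring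
  · have : {z : ℝ | z ^ 2 ≤ a} = ∅ := by
      ext z
      simp only [mem_ofPred_eq, mem_empty_iff_false, iff_false, not_le]
      exact ha.trans_le (sq_nonneg z)
    rw [this, Real.sqrt_eq_zero_of_nonpos ha.le]; simp

lemma bri_out {g : ℝ → ℝ} {p : Pc} (h : Tg g p) {S C x : ℝ} (S0 : 0 < S) (h1 : p.X 1 = 0)
    (hT : 0 < p.T 1) (hx : briP p S C 1 < x) : briF g S C x = 0 := by
  have e : Prod.mk x ⁻¹' PSet g S C = ∅ := by
    refine eq_empty_of_forall_notMem fun z hz => ?_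
    have h2 := bri_key h S0 ⟨zero_le_one, le_rfl⟩ hz
    have h3 : 0 < (x - briP p S C 1) / S := div_pos (by linarith) S0
    have h4 : 0 ≤ C ^ 2 / S ^ 2 * p.T 1 ^ 2 := by positivity
    nlinarith [sq_nonneg z, mul_pos hT h3]
  rw [briF, e, measure_empty]

lemma bri_int {p : Pc} (h : PcOK p) (S C : ℝ) : IntegrableOn (briJ p S C) (Ioo 0 1) := by
  have mH : AEStronglyMeasurable p.H' (volume.restrict (Ioo (0 : ℝ) 1)) :=
    (measurable_deriv p.H).aestronglyMeasurable.congr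
      ((ae_restrict_mem measurableSet_Ioo).mono fun s hs => (h.dH s hs).deriv)
  have mT : AEStronglyMeasurable p.T' (volume.restrict (Ioo (0 : ℝ) 1)) :=
    (measurable_deriv p.T).aestronglyMeasurable.congr
      ((ae_restrict_mem measurableSet_Ioo).mono fun s hs => (h.dT s hs).deriv)
  have iH : IntegrableOn p.H' (Ioo 0 1) := IntegrableOn.of_bound (by simp) mH 3
    ((ae_restrict_mem measurableSet_Ioo).mono fun s hs => by
      rw [Real.norm_eq_abs, abs_of_pos (h.H1 s hs).1]; exact (h.H1 s hs).2)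
  have iT : IntegrableOn p.T' (Ioo 0 1) := IntegrableOn.of_bound (by simp) mT 12
    ((ae_restrict_mem measurableSet_Ioo).mono fun s hs => by
      rw [Real.norm_eq_abs, abs_of_nonneg (h.T1 s hs).1]
      linarith [(h.T1 s hs).2, (h.H1 s hs).2])
  have c : ContinuousOn (fun s => 2 * Real.sqrt (p.X s - C ^ 2 / S ^ 2 * p.T s ^ 2)) (Icc 0 1) :=
    continuousOn_const.mul (h.cX.sub (continuousOn_const.mul (h.cT.pow 2))).sqrt
  have i2 : IntegrableOn (fun s => S * (p.H' s + C ^ 2 / S ^ 2 * p.T' s)) (Icc 0 1) :=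
    (integrableOn_Icc_iff_integrableOn_Ioo).2 ((iH.add (iT.const_mul _)).const_mul S)
  exact (i2.continuousOn_mul c isCompact_Icc).mono_set Ioo_subset_Icc_self

lemma bri_br (p : Pc) (S C : ℝ) : p.br S C = ∫ s in Ioo (0 : ℝ) 1, briJ p S C s := by
  rw [Pc.br, intervalIntegral.integral_of_le zero_le_one, integral_Ioc_eq_integral_Ioo]; rfl

lemma bri_piece {g : ℝ → ℝ} {p : Pc} (ho : PcOK p) (h : Tg g p) {S C : ℝ} (S0 : 0 < S) :
    briP p S C 0 < briP p S C 1 ∧ 0 ≤ p.br S C ∧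
      ∫⁻ x in Ioo (briP p S C 0) (briP p S C 1), briF g S C x = ENNReal.ofReal (p.br S C) := by
  have c : ContinuousOn (briP p S C) (Icc 0 1) :=
    continuousOn_const.mul (ho.cH.add (continuousOn_const.mul ho.cT))
  have d : ∀ s ∈ Ioo (0 : ℝ) 1,
      HasDerivAt (briP p S C) (S * (p.H' s + C ^ 2 / S ^ 2 * p.T' s)) s := fun s hs =>
    ((ho.dH s hs).add ((ho.dT s hs).const_mul _)).const_mul S
  have pos : ∀ s ∈ Ioo (0 : ℝ) 1, 0 < S * (p.H' s + C ^ 2 / S ^ 2 * p.T' s) := fun s hs => by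
    have := (ho.H1 s hs).1
    have := (ho.T1 s hs).1
    positivity
  have mo : StrictMonoOn (briP p S C) (Icc 0 1) :=
    strictMonoOn_of_deriv_pos (convex_Icc _ _) c fun s hs => by
      rw [interior_Icc] at hs; rw [(d s hs).deriv]; exact pos s hs
  have nn : 0 ≤ᵐ[volume.restrict (Ioo (0 : ℝ) 1)] briJ p S C :=
    (ae_restrict_mem measurableSet_Ioo).mono fun s hs => by
      have := pos s hs
      simp only [briJ, Pi.zero_apply]; positivity
  refine ⟨mo ⟨le_rfl, zero_le_one⟩ ⟨zero_le_one, le_rfl⟩ zero_lt_one, ?_, ?_⟩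
  · rw [bri_br]; exact integral_nonneg_of_ae nn
  rw [← c.image_Ioo_of_strictMonoOn zero_le_one mo,
    lintegral_image_eq_lintegral_abs_deriv_mul measurableSet_Ioo
      (fun s hs => (d s hs).hasDerivWithinAt) (mo.injOn.mono Ioo_subset_Icc_self),
    bri_br, ofReal_integral_eq_lintegral_ofReal (bri_int ho S C) nn]
  refine setLIntegral_congr_fun measurableSet_Ioo fun s hs => ?_
  rw [bri_fib h S0 (Ioo_subset_Icc_self hs), abs_of_pos (pos s hs),
    ← ENNReal.ofReal_mul (pos s hs).le, briJ, mul_comm]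

lemma bri_meas {g : ℝ → ℝ} (h : GOK g) (S C : ℝ) : MeasurableSet (PSet g S C) := by
  have cg : Continuous g := continuousOn_univ.1 (h.cc.continuousOn isOpen_univ)
  have k : IsCompact {w : ℝ × ℝ × ℝ | w.2.1 ^ 2 + w.2.2 ^ 2 ≤ g w.1} := by
    refine (isCompact_closedBall (0 : ℝ × ℝ × ℝ) 2).of_isClosed_subset
      (isClosed_le (by fun_prop) (by fun_prop)) fun w hw => ?_
    simp only [mem_ofPred_eq] at hw
    have h1 := h.le w.1
    have h2 : |w.1| ≤ 2 := by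
      by_contra hc
      have := h.ng w.1 (by linarith [not_le.1 hc])
      nlinarith [sq_nonneg w.2.1, sq_nonneg w.2.2]
    rw [mem_closedBall_zero_iff, Prod.norm_def, Prod.norm_def]
    refine max_le h2 (max_le ?_ ?_) <;> rw [Real.norm_eq_abs] <;> apply abs_le.2 <;>
      constructor <;> nlinarith [sq_nonneg w.2.1, sq_nonneg w.2.2]
  have e : PSet g S C = (fun w : ℝ × ℝ × ℝ => (S * w.1 + C * w.2.1, w.2.2)) ''
      {w : ℝ × ℝ × ℝ | w.2.1 ^ 2 + w.2.2 ^ 2 ≤ g w.1} := by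
    ext ⟨a, z⟩
    constructor
    · rintro ⟨x, y, h1, h2⟩
      exact ⟨(x, y, z), h1, Prod.ext h2.symm rfl⟩
    · rintro ⟨⟨x, y, z'⟩, h1, h2⟩
      obtain ⟨rfl, rfl⟩ := Prod.mk.inj h2
      exact ⟨x, y, h1, rfl⟩
  rw [e]
  exact (k.image (by fun_prop)).measurableSet

theorem PSet_vol {g : ℝ → ℝ} {b p m : Pc} (h : Rep g b p m) {S C : ℝ} (S0 : 0 < S) (C0 : 0 ≤ C)
    (h1 : S ^ 2 + C ^ 2 = 1) :
    volume (PSet g S C) = ENNReal.ofReal (m.br S C + b.br S C + p.br S C) := by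
  obtain ⟨m1, m2, m3⟩ := bri_piece (C := C) h.fit.om h.tm S0
  obtain ⟨b1, b2, b3⟩ := bri_piece (C := C) h.fit.ob h.tb S0
  obtain ⟨p1, p2, p3⟩ := bri_piece (C := C) h.fit.op h.tp S0
  have e1 : briP p S C 0 = briP b S C 1 := by simp only [briP, h.fit.pH, h.fit.pT]
  have e2 : briP b S C 0 = -briP m S C 0 := by simp only [briP, h.fit.mH, h.fit.mT]; ring
  have tp : 0 < p.T 1 := by
    linarith [h.fit.op.monoT ⟨le_rfl, zero_le_one⟩ ⟨zero_le_one, le_rfl⟩ zero_le_one, h.fit.pT0]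
  have tm : 0 < m.T 1 := by
    linarith [h.fit.om.monoT ⟨le_rfl, zero_le_one⟩ ⟨zero_le_one, le_rfl⟩ zero_le_one, h.fit.mT0]
  have m4 : ∫⁻ x in Ioo (-briP m S C 1) (-briP m S C 0), briF g S C x =
      ENNReal.ofReal (m.br S C) := by
    rw [← m3, ← (Measure.measurePreserving_neg volume).setLIntegral_comp_preimage_emb
      (MeasurableEquiv.neg ℝ).measurableEmbedding]
    simp only [bri_neg]
    congr 2
    ext x
    simp only [mem_preimage, mem_Ioo, neg_lt_neg_iff, and_comm]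
  have sp : Function.support (briF g S C) ⊆ Icc (-briP m S C 1) (briP p S C 1) := by
    intro x hx
    by_contra hc
    rw [mem_Icc, not_and_or, not_le, not_le] at hc
    apply hx
    rcases hc with hc | hc
    · have := bri_out (C := C) (x := -x) h.tm S0 h.fit.m1 tm (by linarith)
      rwa [bri_neg, neg_neg] at this
    · exact bri_out h.tp S0 h.fit.p1 tp hc
  have hv : volume (PSet g S C) = ∫⁻ x, briF g S C x := Measure.prod_apply (bri_meas h.gok S C)
  rw [hv, ← setLIntegral_eq_of_support_subset sp, ← setLIntegral_congr Ioc_ae_eq_Icc,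
    ← Ioc_union_Ioc_eq_Ioc (b := briP b S C 1) (by linarith) (by linarith),
    ← Ioc_union_Ioc_eq_Ioc (a := -briP m S C 1) (b := briP b S C 0) (by linarith) (by linarith),
    lintegral_union measurableSet_Ioc (by
      rw [Ioc_union_Ioc_eq_Ioc (by linarith) (by linarith)]; exact Ioc_disjoint_Ioc_of_le le_rfl),
    lintegral_union measurableSet_Ioc (Ioc_disjoint_Ioc_of_le le_rfl),
    ← setLIntegral_congr Ioo_ae_eq_Ioc, ← setLIntegral_congr Ioo_ae_eq_Ioc,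
    ← setLIntegral_congr Ioo_ae_eq_Ioc, b3, e2, m4, ← e1, p3,
    ENNReal.ofReal_add (add_nonneg m2 b2) p2, ENNReal.ofReal_add m2 b2]

lemma bri_cap {p : Pc} (ho : PcOK p) (h0 : 1 / 2 ≤ p.T 0) {u : ℝ → ℝ} {u' s : ℝ}
    (x : ∀ s ∈ Icc (0 : ℝ) 1, p.X s = u s * p.T s ^ 2) (hs : s ∈ Ioo (0 : ℝ) 1)
    (du : HasDerivAt u u' s) (S C : ℝ) :
    briJ p S C s = -S * Real.sqrt (u s - C ^ 2 / S ^ 2) *
      (u' * p.T s ^ 2 + (u s - C ^ 2 / S ^ 2) * (2 * p.T s * p.T' s)) := by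
  have hT : 0 < p.T s := by
    linarith [ho.monoT ⟨le_rfl, zero_le_one⟩ (Ioo_subset_Icc_self hs) hs.1.le]
  have d1 : HasDerivAt (fun s => u s * p.T s ^ 2) (u' * p.T s ^ 2 + u s * (2 * p.T s * p.T' s)) s := by
    exact (du.mul ((ho.dT s hs).pow 2)).congr_deriv (by simp)
  have d2 : HasDerivAt p.X (u' * p.T s ^ 2 + u s * (2 * p.T s * p.T' s)) s :=
    d1.congr_of_eventuallyEq (eventually_of_mem (Icc_mem_nhds hs.1 hs.2) x)
  have e := (ho.dX s hs).unique d2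
  have e2 : p.X s - C ^ 2 / S ^ 2 * p.T s ^ 2 = (u s - C ^ 2 / S ^ 2) * p.T s ^ 2 := by
    rw [x s (Ioo_subset_Icc_self hs)]; ring
  rw [briJ, e2, Real.sqrt_mul' _ (sq_nonneg _), Real.sqrt_sq hT.le]
  linear_combination (-S * Real.sqrt (u s - C ^ 2 / S ^ 2)) * e

/-- moving squared radius from one cap to the other at equal slope keeps the brightness -/
theorem brEq_of_caps {g g' : ℝ → ℝ} {b p m p' m' : Pc} (h : Rep g b p m) (h' : Rep g' b p' m')
    {up um up' U U' : ℝ → ℝ}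
    (xp : ∀ s ∈ Icc (0 : ℝ) 1, p.X s = up s * p.T s ^ 2)
    (xp' : ∀ s ∈ Icc (0 : ℝ) 1, p'.X s = up s * p'.T s ^ 2)
    (xm : ∀ s ∈ Icc (0 : ℝ) 1, m.X s = um s * m.T s ^ 2)
    (xm' : ∀ s ∈ Icc (0 : ℝ) 1, m'.X s = um s * m'.T s ^ 2)
    (du : ∀ s ∈ Ioo (0 : ℝ) 1, HasDerivAt up (up' s) s ∧ |up' s| ≤ 2)
    (cU : ContinuousOn U (Icc 0 1)) (U0 : U 0 = 0) (U1 : U 1 = 1)
    (dU : ∀ s ∈ Ioo (0 : ℝ) 1, HasDerivAt U (U' s) s ∧ 0 < U' s ∧ U' s ≤ 2)
    (uU : ∀ s ∈ Ioo (0 : ℝ) 1, up (U s) = um s)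
    (tr : ∀ s ∈ Ioo (0 : ℝ) 1, m'.T s ^ 2 - m.T s ^ 2 = p.T (U s) ^ 2 - p'.T (U s) ^ 2) :
    BrEq g' g := by
  intro S C S0 C0 h1
  rcases S0.eq_or_lt with rfl | S0
  · have disc : ∀ k : ℝ → ℝ, GOK k → PSet k 0 C = {w | ∃ y, y ^ 2 + w.2 ^ 2 ≤ 1 ∧ w.1 = C * y} := by
      intro k hk
      ext w
      constructor
      · rintro ⟨x, y, a1, a2⟩
        exact ⟨y, a1.trans (hk.le x), by simpa using a2⟩
      · rintro ⟨y, a1, a2⟩
        exact ⟨0, y, by rwa [hk.g0], by simpa using a2⟩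
    rw [disc g h.gok, disc g' h'.gok]
  rw [PSet_vol h S0 C0 h1, PSet_vol h' S0 C0 h1]
  congr 1
  have mo : StrictMonoOn U (Icc 0 1) :=
    strictMonoOn_of_deriv_pos (convex_Icc _ _) cU fun s hs => by
      rw [interior_Icc] at hs; rw [(dU s hs).1.deriv]; exact (dU s hs).2.1
  have im : U '' Ioo 0 1 = Ioo 0 1 := by rw [cU.image_Ioo_of_strictMonoOn zero_le_one mo, U0, U1]
  have key : ∀ s ∈ Ioo (0 : ℝ) 1, briJ m' S C s - briJ m S C s =
      |U' s| • (briJ p S C (U s) - briJ p' S C (U s)) := by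
    intro s hs
    have hv : U s ∈ Ioo (0 : ℝ) 1 := im ▸ mem_image_of_mem U hs
    have nb : Ioo (0 : ℝ) 1 ∈ 𝓝 s := Ioo_mem_nhds hs.1 hs.2
    have dm : HasDerivAt um (up' (U s) * U' s) s :=
      ((du _ hv).1.comp s (dU s hs).1).congr_of_eventuallyEq
        (eventually_of_mem nb fun t ht => (uU t ht).symm)
    have a1 : HasDerivAt (fun s => m'.T s ^ 2 - m.T s ^ 2)
        (2 * m'.T s * m'.T' s - 2 * m.T s * m.T' s) s := by
      exact (((h'.fit.om.dT s hs).pow 2).sub ((h.fit.om.dT s hs).pow 2)).congr_deriv (by simp)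
    have a2 : HasDerivAt (fun v => p.T v ^ 2 - p'.T v ^ 2)
        (2 * p.T (U s) * p.T' (U s) - 2 * p'.T (U s) * p'.T' (U s)) (U s) := by
      exact (((h.fit.op.dT _ hv).pow 2).sub ((h'.fit.op.dT _ hv).pow 2)).congr_deriv (by simp)
    have a3 := a1.unique ((a2.comp s (dU s hs).1).congr_of_eventuallyEq (eventually_of_mem nb tr))
    rw [bri_cap h'.fit.om h'.fit.mT0 xm' hs dm, bri_cap h.fit.om h.fit.mT0 xm hs dm,
      bri_cap h.fit.op h.fit.pT0 xp hv (du _ hv).1, bri_cap h'.fit.op h'.fit.pT0 xp' hv (du _ hv).1,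
      uU s hs, abs_of_pos (dU s hs).2.1, smul_eq_mul]
    linear_combination (-S * Real.sqrt (um s - C ^ 2 / S ^ 2) * (up' (U s) * U' s)) * tr s hs +
      (-S * Real.sqrt (um s - C ^ 2 / S ^ 2) * (um s - C ^ 2 / S ^ 2)) * a3
  have cv := integral_image_eq_integral_abs_deriv_smul measurableSet_Ioo
    (fun s hs => (dU s hs).1.hasDerivWithinAt) (mo.injOn.mono Ioo_subset_Icc_self)
    (fun v => briJ p S C v - briJ p' S C v)
  rw [im, ← setIntegral_congr_fun measurableSet_Ioo key,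
    integral_sub (bri_int h.fit.op S C) (bri_int h'.fit.op S C),
    integral_sub (bri_int h'.fit.om S C) (bri_int h.fit.om S C)] at cv
  simp only [bri_br]
  linarith

end Bon3
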