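import Pool.Agent.Lib.MP_3dbf58_gt.Tool

open Set Filter Topology MeasureTheory Metric

noncomputable section

namespace Bon3

theorem cs_est {u u' T T' x H H' : ℂ} (h1 : ‖u‖ ≤ 2) (h2 : ‖u' + 1‖ ≤ 1 / 1000)
    (h3 : ‖T - 1‖ ≤ 1 / 1000) (h4 : ‖T'‖ ≤ 1 / 1000) (h5 : ‖x‖ ≤ 2) (h6 : ‖H‖ ≤ 2)
    (h7 : ‖H'‖ ≤ 1 / 1000) :
    ‖u' * T ^ 2 + u * (2 * T * T') - x * (2 * H * H') + 1‖ ≤ 1 / 4 := by
  have a1 : ‖T‖ ≤ 2 := by
    have := norm_add_le (T - 1) 1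
    rw [sub_add_cancel, norm_one] at this
    linarith
  have a2 : ‖T + 1‖ ≤ 3 := (norm_add_le _ _).trans (by rw [norm_one]; linarith)
  have a3 : ‖(2 : ℂ)‖ ≤ 2 := by simp
  rw [show u' * T ^ 2 + u * (2 * T * T') - x * (2 * H * H') + 1 =
    (u' + 1) * T * T - (T - 1) * (T + 1) + 2 * u * T * T' - 2 * x * H * H' by ring]
  refine (norm_sub_le_of_le (norm_add_le_of_le (norm_sub_le_of_le
    (norm_mul_le_of_le (norm_mul_le_of_le h2 a1) a1) (norm_mul_le_of_le h3 a2))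
    (norm_mul_le_of_le (norm_mul_le_of_le (norm_mul_le_of_le a3 h1) a1) h4))
    (norm_mul_le_of_le (norm_mul_le_of_le (norm_mul_le_of_le a3 h5) h6) h7)).trans ?_
  norm_num

theorem cs_convex (θ Λ : ℝ) (l : ℂ) : Convex ℝ {z : ℂ | (l, z) ∈ G2 θ Λ} := by
  intro a ha b hb s t s0 t0 e
  refine ⟨convex_Sec θ ha.1 hb.1 s0 t0 e, ?_⟩
  have h1 : ‖s • a + t • b‖ ≤ max ‖a‖ ‖b‖ := by
    refine (norm_add_le _ _).trans ?_
    rw [norm_smul, norm_smul, Real.norm_of_nonneg s0, Real.norm_of_nonneg t0]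
    calc _ ≤ s * max ‖a‖ ‖b‖ + t * max ‖a‖ ‖b‖ := by gcongr <;> simp
      _ = _ := by rw [← add_mul, e, one_mul]
  refine lt_of_le_of_lt (mul_le_mul_of_nonneg_left (pow_le_pow_left₀ (norm_nonneg _) h1 2)
    (norm_nonneg l)) ?_
  rcases le_total ‖a‖ ‖b‖ with k | k
  · rw [max_eq_right k]; exact hb.2
  · rw [max_eq_left k]; exact ha.2

theorem cs_open (θ Λ : ℝ) (l : ℂ) : IsOpen {z : ℂ | (l, z) ∈ G2 θ Λ} :=
  (isOpen_G2 θ Λ).preimage (Continuous.prodMk_right l)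

theorem cs_wt : IntegrableOn (fun v : ℝ => 1 / (2 * √(1 - v))) (Ioo 0 1) ∧
    ∫ v in Ioo (0 : ℝ) 1, 1 / (2 * √(1 - v)) = 1 := by
  have c : ContinuousOn (fun v : ℝ => -√(1 - v)) (Icc 0 1) := by fun_prop
  have dd : ∀ v ∈ Ioo (0 : ℝ) 1, HasDerivAt (fun v : ℝ => -√(1 - v)) (1 / (2 * √(1 - v))) v :=
    fun v hv => by
      have := (((hasDerivAt_id' v).const_sub 1).sqrt (by linarith [hv.2])).neg
      exact this.congr_deriv (by rw [neg_div, neg_neg])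
  have i := intervalIntegral.integrableOn_deriv_of_nonneg c dd fun _ _ => by positivity
  refine ⟨i.mono_set Ioo_subset_Ioc_self, ?_⟩
  rw [← integral_Ioc_eq_integral_Ioo, ← intervalIntegral.integral_of_le zero_le_one,
    intervalIntegral.integral_eq_sub_of_hasDerivAt_of_le zero_le_one c dd
      ((intervalIntegrable_iff_integrableOn_Ioc_of_le zero_le_one).2 i)]
  simp

theorem cs_im {f : ℂ → ℂ} {f' : ℂ} {x : ℝ} (h : HasDerivAt f f' x)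
    (e : ∀ᶠ s : ℝ in 𝓝 x, (f s).im = 0) : f'.im = 0 := by
  have a : HasDerivAt (fun s : ℝ => (f s).im) f'.im x :=
    Complex.imCLM.hasFDerivAt.comp_hasDerivAt x h.comp_ofReal
  exact a.unique ((hasDerivAt_const x (0 : ℝ)).congr_of_eventuallyEq e)

/-- the integrand -/
def csF (u : ℂ → ℂ) (Tl Hl : ℂ × ℂ → ℂ) (x : (ℂ × ℂ × ℂ) × ℂ) : ℂ :=
  (Hl (x.1.1, x.2) + x.1.2.2) * d2 Hl (x.1.1, x.2) * isq (Nl u Tl Hl x.1 x.2)

section

variable {q θ d B Λ A : ℝ} {u T H e : ℂ → ℂ} {a0 b0 c0 : ℝ} {Tl Hl Wl : ℂ × ℂ → ℂ}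
  (q0 : 0 < q) (q1 : q ≤ del1) (hB : B ≤ th0 ^ 2 * q) (d0 : 0 < d) (d1 : d ≤ th0 / 32)
  (t1 : th0 / 2 ≤ θ - 8 * d) (t2 : θ ≤ th0) (hΛ : 100 ≤ Λ)
  (h : CapInv q θ B u T H e a0 b0 c0) (pc : PC q (θ - d) Λ (d ^ 2) A u T H Tl Hl Wl)
  {p : ℂ × ℂ × ℂ} {l z a b : ℂ}

include d0 t1 hΛ in
theorem cs_sub : G2 (θ - d - d) (Λ / 2) ⊆ G2 (θ - d) Λ := fun _ hp =>
  ⟨Sec_mono (by unfold th0 at t1; linarith) (by linarith) hp.1, by linarith [hp.2]⟩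

include q0 q1 hB d0 d1 t1 t2 h pc

theorem cs_bd (hz : (l, z) ∈ G2 (θ - d) Λ) : z ∈ Sec θ ∧ ‖z‖ ≤ 2 ∧ ‖u z‖ ≤ 1.001 ∧
    ‖deriv u z + 1‖ ≤ 1 / 10 ^ 6 ∧ ‖Tl (l, z) - 1‖ ≤ 1 / 10 ^ 6 ∧ ‖Hl (l, z) - 1‖ ≤ 1 / 10 ^ 6 := by
  have s := Sec_mono (θ := θ) (by unfold th0 at t1; linarith) (by linarith) hz.1
  obtain ⟨-, n1, n2, -⟩ := Sec_norm (by unfold th0 at t1; linarith) t2 s
  have b1 := h.u0 z s
  have b2 := h.u1 z s
  have b3 := norm_add_le_of_le (pc.T0 _ hz) (h.T0 z s)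
  have b4 := norm_add_le_of_le (pc.H0 _ hz) (h.H0 z s)
  have b5 := norm_add_le (u z - (1 - z)) (1 - z)
  unfold th0 del1 at *
  simp only [sub_add_sub_cancel, sub_add_cancel] at b3 b4 b5
  have c1 : d ^ 2 * ‖z‖ ≤ 1 / 10 ^ 7 := by nlinarith [norm_nonneg z]
  have c2 : q * d ^ 2 * ‖z‖ ≤ 1 / 10 ^ 7 := by
    rw [mul_assoc]
    nlinarith [mul_nonneg (sq_nonneg d) (norm_nonneg z)]
  refine ⟨s, by linarith, by linarith, by linarith, by linarith, by linarith⟩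

omit q0 q1 hB d1 t2 h in
theorem cs_hd (hz : (l, z) ∈ G2 (θ - d) Λ) :
    HasDerivAt (fun ζ => Tl (l, ζ)) (d2 Tl (l, z)) z ∧
      HasDerivAt (fun ζ => Hl (l, ζ)) (d2 Hl (l, z)) z :=
  have _ := And.intro d0 t1
  ⟨pc.hT.hasDerivAt2 (isOpen_G2 _ _) hz, pc.hH.hasDerivAt2 (isOpen_G2 _ _) hz⟩

include hΛ

theorem cs_bd2 (hz : (l, z) ∈ G2 (θ - d - d) (Λ / 2)) :
    ‖d2 Tl (l, z)‖ ≤ 1 / 10 ^ 6 ∧ ‖d2 Hl (l, z)‖ ≤ q := by
  have hz' := cs_sub d0 t1 hΛ hz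
  obtain ⟨s, n1, n2, n3, n4, -⟩ := cs_bd q0 q1 hB d0 d1 t1 t2 h pc hz'
  have k := (d2_G2 (f := fun p => Tl p - T p.2) (θ := θ - d) (d := d) (Λ := Λ) (M := d ^ 2) (k := 1)
    d0 (by unfold th0 at t1; linarith) (by linarith) (by norm_num) (pc.hT.sub (HC.comp (HC.of_diff h.dT)
      (HC.of_diff (by fun_prop)) fun p hp => (cs_bd q0 q1 hB d0 d1 t1 t2 h pc (l := p.1) hp).1))
    (fun p hp => by simpa using pc.T0 p hp)).2 _ hz
  have z0 := norm_pos_iff.2 (Sec_ne s)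
  have dT := ((h.dT z s).differentiableAt ((isOpen_Sec θ).mem_nhds s)).hasDerivAt
  have e1 : d2 (fun p => Tl p - T p.2) (l, z) = d2 Tl (l, z) - deriv T z :=
    ((cs_hd d0 t1 pc hz').1.sub dT).deriv
  rw [e1, pow_one, mul_le_mul_iff_left₀ z0, show 5 * d ^ 2 / d = 5 * d by field_simp] at k
  have b1 := h.T1 z s
  have b2 : ‖(q / 2 : ℂ)‖ = q / 2 := by simp [abs_of_pos q0]
  have b3 := norm_add_le_of_le (norm_add_le_of_le k b1) b2.le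
  rw [sub_add_sub_cancel, sub_add_cancel] at b3
  unfold th0 del1 at *
  have b4 : ‖d2 Tl (l, z)‖ ≤ 1 / 10 ^ 6 := by linarith
  refine ⟨b4, ?_⟩
  have c1 := norm_add_le (Tl (l, z) - 1) 1
  have c2 := norm_sub_le (deriv u z + 1) 1
  rw [sub_add_cancel, norm_one] at c1
  rw [add_sub_cancel_right, norm_one] at c2
  rw [pc.H1 _ hz', norm_mul, norm_neg, Complex.norm_real, Real.norm_of_nonneg q0.le]
  refine mul_le_of_le_one_right q0.le ((norm_add_le _ _).trans ?_)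
  rw [norm_div, norm_mul, norm_mul, Complex.norm_ofNat]
  nlinarith [mul_le_mul (show ‖Tl (l, z)‖ ≤ 1.1 by linarith) (show ‖deriv u z‖ ≤ 1.1 by linarith)
    (norm_nonneg _) (by norm_num), mul_le_mul n2 b4 (norm_nonneg _) (by norm_num)]

omit hΛ pc in
theorem cs_p (hp : p ∈ G3 (θ - 3 * d) (Λ / 8) (d / 1000) e) : p.2.1 ∈ Sec θ ∧ ‖p.2.1‖ ≤ 2 ∧
    ‖1 - p.2.1‖ ≤ 1.001 ∧ ‖p.2.2‖ ≤ 1 / 10 ^ 6 := by
  have s := Sec_mono (θ := θ) (by unfold th0 at t1; linarith) (by linarith) hp.1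
  obtain ⟨-, n1, n2, -⟩ := Sec_norm (by unfold th0 at t1; linarith) t2 s
  have b1 := norm_add_le_of_le hp.2.2.le (h.e0 _ s)
  rw [sub_add_cancel] at b1
  unfold th0 del1 at *
  exact ⟨s, by linarith, by linarith, by nlinarith⟩

/-- the radicand has slope close to `-1` -/
theorem cs_lip (hp : p ∈ G3 (θ - 3 * d) (Λ / 8) (d / 1000) e)
    (ha : (p.1, a) ∈ G2 (θ - d - d) (Λ / 2)) (hb : (p.1, b) ∈ G2 (θ - d - d) (Λ / 2)) :
    ‖a + Nl u Tl Hl p a - (b + Nl u Tl Hl p b)‖ ≤ 1 / 4 * ‖a - b‖ := by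
  obtain ⟨-, -, m1, m2⟩ := cs_p q0 q1 hB d0 d1 t1 t2 h hp
  refine (cs_convex (θ - d - d) (Λ / 2) p.1).norm_image_sub_le_of_norm_hasDerivWithin_le
    (f := fun z => z + Nl u Tl Hl p z) (f' := fun z => deriv u z * Tl (p.1, z) ^ 2 +
      u z * (2 * Tl (p.1, z) * d2 Tl (p.1, z)) -
      (1 - p.2.1) * (2 * (Hl (p.1, z) + p.2.2) * d2 Hl (p.1, z)) + 1)
    (fun z hz => ?_) (fun z hz => ?_) hb ha
  · have hz' := cs_sub d0 t1 hΛ hz
    have s := (cs_bd q0 q1 hB d0 d1 t1 t2 h pc hz').1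
    obtain ⟨k1, k2⟩ := cs_hd d0 t1 pc hz'
    have du := ((h.du z s).differentiableAt ((isOpen_Sec θ).mem_nhds s)).hasDerivAt
    have := (hasDerivAt_id' z).add ((du.mul (k1.pow 2)).sub
      (((k2.add_const p.2.2).pow 2).const_mul (1 - p.2.1)))
    refine (this.congr_deriv ?_).hasDerivWithinAt
    simp
    ring
  · obtain ⟨-, -, n2, n3, n4, n5⟩ := cs_bd q0 q1 hB d0 d1 t1 t2 h pc (cs_sub d0 t1 hΛ hz)
    obtain ⟨n6, n7⟩ := cs_bd2 q0 q1 hB d0 d1 t1 t2 hΛ h pc hz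
    have c := norm_add₃_le (a := Hl (p.1, z) - 1) (b := 1) (c := p.2.2)
    rw [sub_add_cancel, norm_one] at c
    unfold del1 at q1
    exact cs_est (by linarith) (by linarith) (by linarith) (by linarith) (by linarith)
      (by linarith) (by linarith)

omit q0 q1 hB h pc hΛ in
theorem cs_disc (hp : p ∈ G3 (θ - 3 * d) (Λ / 8) (d / 1000) e)
    (hz : ‖z - p.2.1‖ ≤ d / 200 * ‖p.2.1‖) : (p.1, z) ∈ G2 (θ - d - d) (Λ / 2) := by
  have n0 := norm_nonneg p.2.1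
  refine ⟨Sec_ball d0 (by unfold th0 at t1; linarith) (by linarith) (by
    rw [show θ - d - d - d = θ - 3 * d by ring]; exact hp.1) (mem_closedBall_iff_norm.2
      (hz.trans (by nlinarith))), ?_⟩
  have c := norm_add_le_of_le hz (le_refl ‖p.2.1‖)
  rw [sub_add_cancel] at c
  have c2 : ‖z‖ ≤ 2 * ‖p.2.1‖ := by unfold th0 at d1; nlinarith
  have c3 := mul_le_mul_of_nonneg_left (pow_le_pow_left₀ (norm_nonneg _) c2 2) (norm_nonneg p.1)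
  have := hp.2.1
  change ‖p.1‖ * ‖z‖ ^ 2 < _
  nlinarith

theorem cs_ctr (hp : p ∈ G3 (θ - 3 * d) (Λ / 8) (d / 1000) e) :
    ‖Nl u Tl Hl p p.2.1‖ ≤ d / 200 * ‖p.2.1‖ / 2 := by
  obtain ⟨s, m0, m1, m2⟩ := cs_p q0 q1 hB d0 d1 t1 t2 h hp
  have n0 := norm_nonneg p.2.1
  have hz := cs_sub d0 t1 hΛ (cs_disc d0 d1 t1 t2 hp (z := p.2.1) (by
    rw [sub_self, norm_zero]; positivity))
  obtain ⟨-, -, n2, -, n4, n5⟩ := cs_bd q0 q1 hB d0 d1 t1 t2 h pc hz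
  have a2 : ‖(2 : ℂ)‖ ≤ 2 := by simp
  have b1 := norm_add_le_of_le (norm_add_le_of_le n4 (h.T0 _ s)) a2
  have b2 := norm_add_le_of_le (norm_add_le_of_le (norm_add_le_of_le (norm_add_le_of_le n5
    (h.H0 _ s)) m2) (h.e0 _ s)) a2
  have b3 := norm_add_le_of_le (pc.H0 _ hz) hp.2.2.le
  have e1 : Nl u Tl Hl p p.2.1 = u p.2.1 * (Tl (p.1, p.2.1) - T p.2.1) *
      (Tl (p.1, p.2.1) - 1 + (T p.2.1 - 1) + 2) - (1 - p.2.1) *
      (Hl (p.1, p.2.1) - H p.2.1 + (p.2.2 - e p.2.1)) *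
      (Hl (p.1, p.2.1) - 1 + (H p.2.1 - 1) + p.2.2 + e p.2.1 + 2) := by
    rw [Nl]
    linear_combination h.ch _ s
  rw [e1]
  unfold th0 del1 at *
  refine (norm_sub_le_of_le (norm_mul_le_of_le (norm_mul_le_of_le n2 (pc.T0 _ hz))
    (b1.trans (show _ ≤ 2.001 by linarith))) (norm_mul_le_of_le (norm_mul_le_of_le m1 b3)
      (b2.trans (show _ ≤ 2.001 by linarith)))).trans ?_
  have c0 : 0 ≤ d * ‖p.2.1‖ := by positivity
  have c1 : d ^ 2 * ‖p.2.1‖ ≤ 1 / 10 ^ 6 * (d * ‖p.2.1‖) := by nlinarith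
  have c2 : q * d ^ 2 * ‖p.2.1‖ ≤ 1 / 10 ^ 6 * (d * ‖p.2.1‖) := by
    rw [mul_assoc]
    nlinarith [mul_nonneg (sq_nonneg d) n0]
  simp only
  nlinarith

omit hΛ in
theorem cs_hN : HC (fun x : (ℂ × ℂ × ℂ) × ℂ => Nl u Tl Hl x.1 x.2)
    {x | (x.1.1, x.2) ∈ G2 (θ - d) Λ} := by
  have k : HC (fun x : (ℂ × ℂ × ℂ) × ℂ => (x.1.1, x.2)) {x | (x.1.1, x.2) ∈ G2 (θ - d) Λ} :=
    HC.of_diff (by fun_prop)
  exact ((HC.comp (g := fun x : (ℂ × ℂ × ℂ) × ℂ => x.2) (HC.of_diff h.du)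
    (HC.of_diff (by fun_prop)) fun x hx => (cs_bd q0 q1 hB d0 d1 t1 t2 h pc hx).1).mul ((pc.hT.comp k fun _ hx => hx).pow 2)).sub
    ((HC.of_diff (f := fun x : (ℂ × ℂ × ℂ) × ℂ => 1 - x.1.2.1) (by fun_prop)).mul
      (((pc.hH.comp k fun _ hx => hx).add (HC.of_diff (by fun_prop))).pow 2))

omit hΛ in
theorem cs_hF : HC (csF u Tl Hl)
    {x | (x.1.1, x.2) ∈ G2 (θ - d) Λ ∧ Nl u Tl Hl x.1 x.2 ∈ Complex.slitPlane} := by
  have k : HC (fun x : (ℂ × ℂ × ℂ) × ℂ => (x.1.1, x.2))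
      {x | (x.1.1, x.2) ∈ G2 (θ - d) Λ ∧ Nl u Tl Hl x.1 x.2 ∈ Complex.slitPlane} :=
    HC.of_diff (by fun_prop)
  have k2 := (d2_G2 (M := 2) (k := 0) d0 (by unfold th0 at t1; linarith) (by linarith) (by norm_num)
    pc.hH fun p hp => by
      have c := norm_add_le_of_le (cs_bd q0 q1 hB d0 d1 t1 t2 h pc (l := p.1) hp).2.2.2.2.2
        (le_refl ‖(1 : ℂ)‖)
      rw [sub_add_cancel, norm_one] at c
      exact c.trans (by norm_num)).1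
  exact (((pc.hH.comp k fun _ hx => hx.1).add (HC.of_diff (by fun_prop))).mul
    (k2.comp k fun _ hx => hx.1)).mul
    (((cs_hN q0 q1 hB d0 d1 t1 t2 h pc).mono fun _ hx => hx.1).isq fun _ hx => hx.2)

omit hΛ in
theorem cs_re {t x y s : ℝ} (hs : ((t : ℂ), (s : ℂ)) ∈ G2 (θ - d) Λ) :
    (Nl u Tl Hl (t, x, y) s).im = 0 ∧ (Hl (t, s)).im = 0 ∧ (d2 Hl (t, s)).im = 0 := by
  have b1 := h.ru s (cs_bd q0 q1 hB d0 d1 t1 t2 h pc hs).1
  have b2 := pc.rT t s hs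
  have b3 := pc.rH t s hs
  refine ⟨by simp [Nl, sq, b1, b2, b3], b3, cs_im (cs_hd d0 t1 pc hs).2 ?_⟩
  filter_upwards [((cs_open (θ - d) Λ t).preimage Complex.continuous_ofReal).mem_nhds hs] with r hr
  exact pc.rH t r hr

/-- the radicand on the segment from the vertex to the chord end -/
theorem cs_seg (hp : p ∈ G3 (θ - 3 * d) (Λ / 8) (d / 1000) e)
    (hz : (p.1, z) ∈ G2 (θ - d - d) (Λ / 2)) (r : Nl u Tl Hl p z = 0) {v : ℝ} (hv : v ∈ Ioo 0 1) :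
    (p.1, v * z) ∈ G2 (θ - d - d) (Λ / 2) ∧ 0 < (Nl u Tl Hl p (v * z)).re ∧
      ‖((1 / √q : ℝ) : ℂ) * z * csF u Tl Hl (p, v * z)‖ ≤ 1 / (2 * √(1 - v)) := by
  have θ0 : 0 ≤ θ - d - d := by unfold th0 at t1; linarith
  have m : (p.1, v * z) ∈ G2 (θ - d - d) (Λ / 2) := by
    refine ⟨Sec_smul θ0 hz.1 hv.1 hv.2.le, lt_of_le_of_lt ?_ hz.2⟩
    simp only [norm_mul, Complex.norm_real, Real.norm_of_nonneg hv.1.le]
    gcongr
    · exact mul_nonneg hv.1.le (norm_nonneg z)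
    · exact mul_le_of_le_one_left (norm_nonneg z) hv.2.le
  have v1 : 0 < 1 - v := by linarith [hv.2]
  have k := cs_lip q0 q1 hB d0 d1 t1 t2 hΛ h pc hp m hz
  have e1 : ‖(v : ℂ) * z - z‖ = (1 - v) * ‖z‖ := by
    rw [norm_sub_rev, show z - v * z = ((1 - v : ℝ) : ℂ) * z by push_cast; ring, norm_mul,
      Complex.norm_real, Real.norm_of_nonneg v1.le]
  rw [r, add_zero, e1] at k
  have z0 := norm_pos_iff.2 (Sec_ne hz.1)
  have n1 := (Sec_norm θ0 (by linarith) hz.1).1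
  have k1 := (abs_le.1 ((Complex.abs_re_le_norm _).trans k)).1
  simp only [Complex.sub_re, Complex.add_re, Complex.re_ofReal_mul] at k1 n1 z0
  have z1 := Sec_re_pos θ0 hz.1
  have k2 : (1 - v) * ‖z‖ / 2 ≤ (Nl u Tl Hl p (v * z)).re := by
    have : ‖z‖ ≤ 1.1 * z.re := by unfold th0 at t2; simp only at z1; nlinarith
    nlinarith
  refine ⟨m, lt_of_lt_of_le (by positivity) k2, ?_⟩
  obtain ⟨-, -, -, m2⟩ := cs_p q0 q1 hB d0 d1 t1 t2 h hp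
  have n2 := (cs_bd q0 q1 hB d0 d1 t1 t2 h pc (cs_sub d0 t1 hΛ hz)).2.1
  have n5 := (cs_bd q0 q1 hB d0 d1 t1 t2 h pc (cs_sub d0 t1 hΛ m)).2.2.2.2.2
  have n7 := (cs_bd2 q0 q1 hB d0 d1 t1 t2 hΛ h pc m).2
  have c := norm_add₃_le (a := Hl (p.1, v * z) - 1) (b := 1) (c := p.2.2)
  rw [sub_add_cancel, norm_one] at c
  have k3 : ‖isq (Nl u Tl Hl p (v * z))‖ ≤ 1 / (√(1 - v) * (‖z‖ / 2)) := by
    rw [norm_isq]
    refine one_div_le_one_div_of_le (by positivity) (Real.le_sqrt_of_sq_le ?_)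
    rw [mul_pow, Real.sq_sqrt v1.le]
    refine le_trans ?_ (k2.trans (Complex.re_le_norm _))
    nlinarith [mul_le_mul_of_nonneg_left n2 (mul_pos v1 z0).le]
  have s0 := Real.sqrt_pos.2 q0
  have s1 : √q ≤ 1 / 100 := Real.sqrt_le_iff.2 ⟨by norm_num, by unfold del1 at q1; linarith⟩
  have s2 := Real.sqrt_pos.2 v1
  refine (norm_mul_le_of_le (norm_mul_le_of_le (show ‖((1 / √q : ℝ) : ℂ)‖ ≤ 1 / √q by simp [abs_of_pos s0]) le_rfl)
    (norm_mul_le_of_le (norm_mul_le_of_le (c.trans (show _ ≤ 2 by linarith)) n7) k3)).trans ?_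
  calc _ = 8 * (q / √q) * (1 / (2 * √(1 - v))) := by field_simp; norm_num
    _ ≤ 1 * (1 / (2 * √(1 - v))) := by
      gcongr
      rw [Real.div_sqrt]
      linarith
    _ = _ := one_mul _

end

theorem capstep {q θ d B Λ A : ℝ} {u T H e : ℂ → ℂ} {a0 b0 c0 : ℝ} {Tl Hl Wl : ℂ × ℂ → ℂ}
    (q0 : 0 < q) (q1 : q ≤ del1) (hB : B ≤ th0 ^ 2 * q) (d0 : 0 < d) (d1 : d ≤ th0 / 32)
    (t1 : th0 / 2 ≤ θ - 8 * d) (t2 : θ ≤ th0) (hΛ : 100 ≤ Λ)
    (h : CapInv q θ B u T H e a0 b0 c0) (pc : PC q (θ - d) Λ (d ^ 2) A u T H Tl Hl Wl) :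
    ∃ φ I, CS q (θ - 3 * d) d (Λ / 8) u e Tl Hl φ I := by
  have sub := cs_sub (Λ := Λ) d0 t1 hΛ
  obtain ⟨φ, hφ, f1, f2⟩ := HC.fixed (G := G3 (θ - 3 * d) (Λ / 8) (d / 1000) e)
    (c := fun p => p.2.1) (r := fun p => d / 200 * ‖p.2.1‖) (r0 := 1)
    (Φ := fun x => x.2 + Nl u Tl Hl x.1 x.2) {p | ∃ t x y : ℝ, p = ((t : ℂ), (x : ℂ), (y : ℂ))}
    (HC.of_diff (by fun_prop)) (fun p hp => ⟨by positivity, by
      have := (cs_p q0 q1 hB d0 d1 t1 t2 h hp).2.1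
      unfold th0 at d1
      nlinarith⟩)
    ((HC.of_diff (by fun_prop)).add ((cs_hN q0 q1 hB d0 d1 t1 t2 h pc).mono fun x hx =>
      sub (cs_disc d0 d1 t1 t2 hx.1 hx.2)))
    (fun p hp => by simpa using cs_ctr q0 q1 hB d0 d1 t1 t2 hΛ h pc hp)
    (fun p hp y y' hy hy' => (cs_lip q0 q1 hB d0 d1 t1 t2 hΛ h pc hp (cs_disc d0 d1 t1 t2 hp hy)
      (cs_disc d0 d1 t1 t2 hp hy')).trans (by gcongr; norm_num))
    (by
      rintro _ hp ⟨t, x, y, rfl⟩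
      exact ⟨rfl, fun s hs => by
        simp [(cs_re q0 q1 hB d0 d1 t1 t2 h pc (sub (cs_disc d0 d1 t1 t2 hp hs))).1]⟩)
  have rt : ∀ p ∈ G3 (θ - 3 * d) (Λ / 8) (d / 1000) e, Nl u Tl Hl p (φ p) = 0 := fun p hp => by
    simpa using (f1 p hp).2.1
  have dc := fun p hp => cs_disc d0 d1 t1 t2 hp (f1 p hp).1
  have sg := fun p hp => @cs_seg _ _ _ _ _ _ _ _ _ _ _ _ _ _ _ _ q0 q1 hB d0 d1 t1 t2 hΛ h pc _ _ hp
    (dc p hp) (rt p hp)
  have hF := cs_hF q0 q1 hB d0 d1 t1 t2 h pc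
  have key : ∀ t x y : ℝ, ((t : ℂ), (x : ℂ), (y : ℂ)) ∈ G3 (θ - 3 * d) (Λ / 8) (d / 1000) e →
      ∫ v in Ioo (0 : ℝ) 1, ((1 / √q : ℝ) : ℂ) * φ (t, x, y) * csF u Tl Hl ((t, x, y), v * φ (t, x, y)) =
      ((∫ s in (0 : ℝ)..(φ (t, x, y)).re, ((Hl (t, s)).re + y) /
        √(q * (Nl u Tl Hl (t, x, y) s).re) * (d2 Hl (t, s)).re : ℝ) : ℂ) := fun t x y hp => by
    obtain ⟨a, ha⟩ : ∃ a : ℝ, φ (t, x, y) = a := ⟨_, Complex.ext rfl (f2 _ hp ⟨t, x, y, rfl⟩)⟩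
    have sg := @sg _ hp
    rw [ha] at sg ⊢
    rw [Complex.ofReal_re]
    conv_rhs => rw [← zero_mul a, ← one_mul a]
    rw [zero_mul (1 * a), ← zero_mul a, ← intervalIntegral.mul_integral_comp_mul_right,
      ← intervalIntegral.integral_const_mul, zero_mul, intervalIntegral.integral_of_le zero_le_one,
      integral_Ioc_eq_integral_Ioo, ← integral_complex_ofReal]
    refine setIntegral_congr_fun measurableSet_Ioo fun v hv => ?_
    obtain ⟨m, k, -⟩ := sg hv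
    rw [← Complex.ofReal_mul] at m k
    obtain ⟨r1, r2, r3⟩ := cs_re (x := x) (y := y) q0 q1 hB d0 d1 t1 t2 h pc (sub m)
    simp only [csF, ← Complex.ofReal_mul]
    rw [show Nl u Tl Hl (t, x, y) (v * a : ℝ) = (Nl u Tl Hl (t, x, y) (v * a : ℝ)).re from
      Complex.ext rfl r1, show Hl (t, (v * a : ℝ)) = (Hl (t, (v * a : ℝ))).re from
      Complex.ext rfl r2, show d2 Hl (t, (v * a : ℝ)) = (d2 Hl (t, (v * a : ℝ))).re from
      Complex.ext rfl r3, isq_real k.le, Real.sqrt_mul q0.le]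
    simp only [Complex.ofReal_re]
    push_cast
    ring
  refine ⟨φ, fun p => ∫ v in Ioo (0 : ℝ) 1, ((1 / √q : ℝ) : ℂ) * φ p * csF u Tl Hl (p, v * φ p), hφ,
    HC.integral (b := fun v => 1 / (2 * √(1 - v))) ?_ (fun p hp => ?_) ?_ cs_wt.1,
    fun p hp => (f1 p hp).1, rt, fun ξ hξ => ?_, fun p hp e1 => ?_, fun p hp => ?_,
    fun t x y hp => ⟨f2 _ hp ⟨t, x, y, rfl⟩, by rw [key t x y hp, Complex.ofReal_im]⟩,
    fun t x y hp ht hx => ?_⟩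
  · filter_upwards [ae_restrict_mem measurableSet_Ioo] with v hv
    exact ((HC.const _).mul hφ).mul (hF.comp (HC.id.prodMk ((HC.const _).mul hφ)) fun p hp =>
      ⟨sub (sg p hp hv).1, .inl (sg p hp hv).2.1⟩)
  · have o : IsOpen ({z : ℂ | (p.1, z) ∈ G2 (θ - d) Λ} ∩ Nl u Tl Hl p ⁻¹' Complex.slitPlane) :=
      (cs_hN q0 q1 hB d0 d1 t1 t2 h pc (fun z => (p, z)) _ (cs_open (θ - d) Λ p.1) (by fun_prop)
        fun _ hz => hz).continuousOn.isOpen_inter_preimage (cs_open _ _ _) Complex.isOpen_slitPlane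
    refine ContinuousOn.aestronglyMeasurable (continuousOn_const.mul ?_) measurableSet_Ioo
    exact (hF (fun z => (p, z)) _ o (by fun_prop) fun _ hz => hz).continuousOn.comp
      (f := fun v : ℝ => (v : ℂ) * φ p) (by fun_prop) fun v hv =>
      ⟨sub (sg p hp hv).1, .inl (sg p hp hv).2.1⟩
  · filter_upwards [ae_restrict_mem measurableSet_Ioo] with v hv p hp
    exact (sg p hp hv).2.2
  · have z0 := norm_pos_iff.2 (Sec_ne hξ)
    have hp : ((0 : ℂ), ξ, e ξ) ∈ G3 (θ - 3 * d) (Λ / 8) (d / 1000) e :=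
      ⟨hξ, by simp; linarith, by simp only [sub_self, norm_zero]; positivity⟩
    have s1 := Sec_mono (θ := θ - d) (by unfold th0 at t1; linarith) (by linarith) hξ
    refine ((f1 _ hp).2.2 ξ (by simp only [sub_self, norm_zero]; positivity) ?_).symm
    simp only [Nl, pc.Tz ξ s1, pc.Hz ξ s1, h.ch ξ (cs_p q0 q1 hB d0 d1 t1 t2 h hp).1, sub_self,
      add_zero]
  · refine ((f1 _ hp).2.2 1 (by simp only [e1, sub_self, norm_zero]; positivity) ?_).symm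
    simp [Nl, e1, h.up]
  · refine (norm_integral_le_of_norm_le cs_wt.1 ?_).trans_eq cs_wt.2
    filter_upwards [ae_restrict_mem measurableSet_Ioo] with v hv
    exact (sg p hp hv).2.2
  · have θ0 : 0 < θ - d - d := by unfold th0 at t1; linarith
    obtain ⟨a, ha⟩ : ∃ a : ℝ, φ (t, x, y) = a := ⟨_, Complex.ext rfl (f2 _ hp ⟨t, x, y, rfl⟩)⟩
    have m := dc _ hp
    have r := rt _ hp
    have m1 : ∀ s : ℝ, 0 < s → s ≤ 1 → ((t : ℂ), (s : ℂ)) ∈ G2 (θ - d - d) (Λ / 2) := fun s s0 s1 =>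
      ⟨Sec_real θ0 s0 s1, by
        simp only [Complex.norm_real, Real.norm_eq_abs, sq_abs]
        nlinarith [abs_nonneg t, mul_le_mul_of_nonneg_left (pow_le_one₀ s0.le s1 (n := 2))
          (abs_nonneg t)]⟩
    rw [key t x y hp]
    rw [ha] at m r ⊢
    have k : ∀ s : ℝ, ((t : ℂ), (s : ℂ)) ∈ G2 (θ - d - d) (Λ / 2) →
        |s + (Nl u Tl Hl (t, x, y) s).re - a| ≤ 1 / 4 * |s - a| := fun s hs => by
      have := (Complex.abs_re_le_norm _).trans (cs_lip q0 q1 hB d0 d1 t1 t2 hΛ h pc hp hs m)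
      rwa [r, add_zero, ← Complex.ofReal_sub s, Complex.norm_real, Complex.sub_re, Complex.add_re,
        Complex.ofReal_re, Complex.ofReal_re] at this
    have a0 : 0 < a := Sec_re_pos θ0.le m.1
    have a1 : a ≤ 1 := by
      by_contra c
      have k1 := k 1 (m1 1 one_pos le_rfl)
      have r2 := pc.rH t 1 (sub (m1 1 one_pos le_rfl))
      have : (Nl u Tl Hl (t, x, y) (1 : ℝ)).re = -((1 - x) * ((Hl (t, (1 : ℝ))).re + y) ^ 2) := by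
        simp only [Complex.ofReal_one] at r2
        simp [Nl, h.up, sq, r2]
      rw [abs_of_neg (by linarith : 1 - a < 0), this] at k1
      nlinarith [(abs_le.1 k1).1, mul_nonneg (sub_nonneg.2 hx) (sq_nonneg ((Hl (t, (1 : ℝ))).re + y))]
    have ng : ∀ s : ℝ, a ≤ s → s ≤ 1 → (Nl u Tl Hl (t, x, y) s).re ≤ 0 := fun s s0 s1 => by
      have k1 := k s (m1 s (by linarith) s1)
      rw [abs_of_nonneg (by linarith : 0 ≤ s - a)] at k1
      linarith [(abs_le.1 k1).2]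
    simp only [Complex.ofReal_re]
    refine ⟨⟨a0, a1⟩, fun s s0 s1 => ?_, ng, ?_⟩
    · have k1 := k s (m1 s s0 (by linarith))
      rw [abs_of_neg (by linarith : s - a < 0)] at k1
      linarith [(abs_le.1 k1).1]
    · rw [intervalIntegral.integral_of_le a0.le, intervalIntegral.integral_of_le zero_le_one]
      refine (setIntegral_eq_of_subset_of_forall_sdiff_eq_zero measurableSet_Ioc
        (Ioc_subset_Ioc_right a1) fun s hs => ?_).symm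
      have s1 : a ≤ s := by
        by_contra c
        exact hs.2 ⟨hs.1.1, by linarith⟩
      rw [Real.sqrt_eq_zero_of_nonpos (mul_nonpos_of_nonneg_of_nonpos q0.le (ng s s1 hs.1.2)),
        div_zero, zero_mul]

end Bon3
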