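import Pool.Agent.Lib.MP_3dbf58_gt.Loop

open MeasureTheory

namespace Pool.Agent.Results.MP_3dbf58_gt.DimThree

/-- volume, in the subspace `V`, of the orthogonal projection of `K` onto `V` -/
noncomputable def projVol {E : Type} [NormedAddCommGroup E] [InnerProductSpace ℝ E]
    [FiniteDimensional ℝ E] [MeasurableSpace E] [BorelSpace E] (K : Set E) (V : Submodule ℝ E) :
    ENNReal :=
  volume ((fun z => V.orthogonalProjectionOnto z) '' K)

/-- volume, in the subspace `V`, of the section of `K` by `V + x` -/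
noncomputable def sectVol {E : Type} [NormedAddCommGroup E] [InnerProductSpace ℝ E]
    [FiniteDimensional ℝ E] [MeasurableSpace E] [BorelSpace E] (K : Set E) (V : Submodule ℝ E)
    (x : E) : ENNReal :=
  volume {v : V | (v : E) + x ∈ K}

theorem result : ∃ K L : Set (EuclideanSpace ℝ (Fin 3)),
    IsCompact K ∧ Convex ℝ K ∧ (interior K).Nonempty ∧
    IsCompact L ∧ Convex ℝ L ∧ (interior L).Nonempty ∧
    (∀ u, ‖u‖ = 1 → projVol K (ℝ ∙ u)ᗮ = projVol L (ℝ ∙ u)ᗮ) ∧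
    (∀ u, ‖u‖ = 1 →
      ⨆ t : ℝ, sectVol K (ℝ ∙ u)ᗮ (t • u) = ⨆ t : ℝ, sectVol L (ℝ ∙ u)ᗮ (t • u)) ∧
    ∀ x, L ≠ (fun z => z + x) '' K ∧ L ≠ (fun z => -z + x) '' K :=
  Bon3.main

end Pool.Agent.Results.MP_3dbf58_gt.DimThree
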