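import Pool.Agent.Lib.MP_3dbf58_gt.PCs
import Pool.Agent.Lib.MP_3dbf58_gt.Lc

open Set Filter Topology MeasureTheory Metric

noncomputable section

namespace Bon3

theorem fl_norm {θ : ℝ} {ξ : ℂ} (h0 : 0 ≤ θ) (h1 : θ ≤ th0) (h : ξ ∈ Sec θ) :
    0 < ‖ξ‖ ∧ ‖ξ‖ ≤ 2 := by
  refine ⟨norm_pos_iff.2 (Sec_ne h), ?_⟩
  have := (Sec_norm h0 h1 h).2.1
  unfold th0 at h1
  linarith

theorem fl_G1_mono {θ θ' Λ Λ' : ℝ} (h0 : 0 ≤ θ') (h : θ' ≤ θ) (hΛ : Λ' ≤ Λ) :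
    G1 θ' Λ' ⊆ G1 θ Λ := fun _ hp => ⟨Sec_mono h0 h hp.1, hp.2.trans_le hΛ⟩

theorem fl_G2_mono {θ θ' Λ Λ' : ℝ} (h0 : 0 ≤ θ') (h : θ' ≤ θ) (hΛ : Λ' ≤ Λ) :
    G2 θ' Λ' ⊆ G2 θ Λ := fun _ hp => ⟨Sec_mono h0 h hp.1, hp.2.trans_le hΛ⟩

theorem fl_ofReal {z : ℂ} (h : z.im = 0) : ((z.re : ℝ) : ℂ) = z :=
  Complex.ext (by simp) (by simp [h])

/-- the derivative of a family that stays close to a fixed function -/
theorem fl_d2 {θ d Λ M : ℝ} {f : ℂ × ℂ → ℂ} {g : ℂ → ℂ} (d0 : 0 < d) (hd : d ≤ θ)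
    (h1 : θ ≤ th0) (hΛ : 0 ≤ Λ) (hf : HC f (G1 θ Λ)) (hg : DifferentiableOn ℂ g (Sec θ))
    (hM : ∀ p ∈ G1 θ Λ, ‖f p - g p.2‖ ≤ M * ‖p.2‖) {p : ℂ × ℂ} (hp : p ∈ G1 (θ - d) (Λ / 2)) :
    ‖d2 f p - deriv g p.2‖ ≤ 5 * M / d := by
  have hg2 : HC (fun p : ℂ × ℂ => g p.2) (G1 θ Λ) :=
    HC.comp (HC.of_diff hg) (HC.snd HC.id) (fun p hp => hp.1)
  have hp' : p ∈ G1 θ Λ := fl_G1_mono (by linarith) (by linarith) (by linarith) hp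
  have key := (d2_G1 (k := 1) (M := M) d0 hd h1 (by norm_num) (hf.sub hg2)
    (fun r hr => by simpa using hM r hr)).2 p hp
  have e1 := HC.hasDerivAt2 (isOpen_G1 θ Λ) hf hp'
  have e2 : HasDerivAt g (deriv g p.2) p.2 :=
    (hg.differentiableAt ((isOpen_Sec θ).mem_nhds hp'.1)).hasDerivAt
  have e3 : d2 (fun p : ℂ × ℂ => f p - g p.2) p = d2 f p - deriv g p.2 := (e1.sub e2).deriv
  rw [e3, pow_one] at key
  exact le_of_mul_le_mul_right key (norm_pos_iff.2 (Sec_ne hp.1))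

theorem fl_num {P : Par} {θ d B a : ℝ} (N : Num P θ d B a) :
    0 < d ∧ d ≤ 1 / 10 ^ 7 ∧ 16 * d ≤ θ - 8 * d ∧ θ ≤ th0 ∧ B ≤ 1 / 10 ^ 7 ∧ P.q ≤ 1 / 10 ^ 7 ∧
      P.η ≤ 1 / 10 ^ 7 ∧ 16 * (d ^ 6 / a) ≤ d ^ 4 / a := by
  obtain ⟨-, s2, -, s4, s5, s6, -, -⟩ := N.small
  have q1 := N.par.q1
  have d0 := N.d0
  have d1 := N.d1
  have t1 := N.th1
  unfold del1 at s2 s6 q1
  refine ⟨d0, s2, by linarith, N.th2, ?_, q1, s6, ?_⟩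
  · unfold th0 at s4
    nlinarith
  · have : 16 * d ^ 2 ≤ 1 := by nlinarith
    have h4 : 0 ≤ d ^ 4 / a := by have := N.a0; positivity
    calc 16 * (d ^ 6 / a) = 16 * d ^ 2 * (d ^ 4 / a) := by ring
      _ ≤ 1 * (d ^ 4 / a) := by gcongr
      _ = _ := one_mul _

/-- chord end along the family, one cap -/
theorem fl_cap {q θ d Λ Λ' : ℝ} {u e : ℂ → ℂ} {Tl Hl el : ℂ × ℂ → ℂ} {φ I : ℂ × ℂ × ℂ → ℂ}
    (d0 : 0 < d) (d1 : d ≤ 1 / 10 ^ 7) (t1 : 16 * d ≤ θ - 8 * d) (t2 : θ ≤ th0) (Λ0 : 0 < Λ)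
    (hΛ : 16 * Λ ≤ Λ') (cs : CS q (θ - 3 * d) d (Λ' / 8) u e Tl Hl φ I)
    (hh : HC el (G1 (θ - 3 * d) Λ)) (rh : Rl2 el (G1 (θ - 3 * d) Λ))
    (h0 : ∀ p ∈ G1 (θ - 3 * d) Λ, ‖el p - e p.2‖ ≤ d / 8000 * ‖p.2‖)
    (hz : ∀ ξ ∈ Sec (θ - 3 * d), el (0, ξ) = e ξ) :
    HC (fun p : ℂ × ℂ => φ (p.1, p.2, el p)) (G1 (θ - 3 * d) Λ) ∧
    Rl2 (fun p : ℂ × ℂ => φ (p.1, p.2, el p)) (G1 (θ - 3 * d) Λ) ∧
    (∀ p ∈ G1 (θ - 3 * d) Λ, (p.1, p.2, el p) ∈ G3 (θ - 3 * d) (Λ' / 8) (d / 1000) e ∧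
      ‖φ (p.1, p.2, el p) - p.2‖ ≤ d / 200 * ‖p.2‖ ∧
      (p.1, φ (p.1, p.2, el p)) ∈ G2 (θ - 2 * d) (Λ' / 2)) ∧
    (∀ ξ ∈ Sec (θ - 3 * d), φ (0, ξ, el (0, ξ)) = ξ) ∧
    ∀ p ∈ G1 (θ - 4 * d) (Λ / 2), ‖d2 (fun p : ℂ × ℂ => φ (p.1, p.2, el p)) p - 1‖ ≤ 1 / 20 := by
  have m3 : ∀ p ∈ G1 (θ - 3 * d) Λ,
      (p.1, p.2, el p) ∈ G3 (θ - 3 * d) (Λ' / 8) (d / 1000) e := by
    intro p hp
    obtain ⟨n0, n2⟩ := fl_norm (by linarith) (by linarith) hp.1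
    refine ⟨hp.1, ?_, ?_⟩
    · have := hp.2
      have h1 : 0 ≤ ‖p.1‖ * ‖p.2‖ := by positivity
      show ‖p.1‖ * ‖p.2‖ ^ 2 < Λ' / 8
      nlinarith
    · show ‖el p - e p.2‖ < d / 1000 * ‖p.2‖
      have := h0 p hp
      nlinarith [mul_pos d0 n0]
  have hf : HC (fun p : ℂ × ℂ => φ (p.1, p.2, el p)) (G1 (θ - 3 * d) Λ) :=
    HC.comp cs.hφ ((HC.fst HC.id).prodMk ((HC.snd HC.id).prodMk hh)) m3
  have f0 : ∀ p ∈ G1 (θ - 3 * d) Λ, ‖φ (p.1, p.2, el p) - p.2‖ ≤ d / 200 * ‖p.2‖ :=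
    fun p hp => cs.φ0 _ (m3 p hp)
  refine ⟨hf, ?_, fun p hp => ⟨m3 p hp, f0 p hp, ?_, ?_⟩, ?_, ?_⟩
  · intro t x hp
    have e1 := fl_ofReal (rh t x hp)
    have m := m3 _ hp
    show (φ ((t : ℂ), (x : ℂ), el (t, x))).im = 0
    rw [← e1]
    refine (cs.rl t x _ ?_).1
    rw [e1]
    exact m
  · obtain ⟨n0, -⟩ := fl_norm (by linarith) (by linarith) hp.1
    refine Sec_ball (θ := θ - 2 * d) d0 (by linarith) (by linarith)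
      (show p.2 ∈ Sec (θ - 2 * d - d) by rw [show θ - 2 * d - d = θ - 3 * d by ring]; exact hp.1) ?_
    rw [mem_closedBall, dist_eq_norm]
    have := f0 p hp
    nlinarith [mul_pos d0 n0]
  · obtain ⟨n0, n2⟩ := fl_norm (by linarith) (by linarith) hp.1
    have a1 : ‖φ (p.1, p.2, el p)‖ ≤ 3 / 2 * ‖p.2‖ := by
      have := norm_add_le (φ (p.1, p.2, el p) - p.2) p.2
      rw [sub_add_cancel] at this
      have := f0 p hp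
      nlinarith
    have a2 : ‖φ (p.1, p.2, el p)‖ ^ 2 ≤ 9 / 2 * ‖p.2‖ := by
      have := pow_le_pow_left₀ (norm_nonneg _) a1 2
      nlinarith
    have a3 := mul_le_mul_of_nonneg_left a2 (norm_nonneg p.1)
    have := hp.2
    show ‖p.1‖ * ‖φ (p.1, p.2, el p)‖ ^ 2 < Λ' / 2
    nlinarith
  · intro ξ hξ
    rw [hz ξ hξ]
    exact cs.φz ξ hξ
  · intro p hp
    have := fl_d2 (g := fun ξ => ξ) (M := d / 200) d0 (by linarith) (by linarith) Λ0.le hf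
      differentiableOn_id f0 (p := p)
      (by rw [show θ - 3 * d - d = θ - 4 * d by ring]; exact hp)
    rw [deriv_id''] at this
    refine this.trans (le_of_eq_of_le (b := 1 / 40) (by field_simp; norm_num) (by norm_num))

/-- basic facts on the chord-end maps of the family -/
theorem FamOK.f {P : Par} {θ d B a : ℝ} {S : St} {w : ℂ → ℂ} {F : Fam} (N : Num P θ d B a)
    (h : InvC P θ d B S) (H : FamOK P θ d B a S w F) :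
    HC F.fp (G1 (θ - 3 * d) (d ^ 6 / a)) ∧ HC F.fm (G1 (θ - 3 * d) (d ^ 6 / a)) ∧
    Rl2 F.fp (G1 (θ - 3 * d) (d ^ 6 / a)) ∧ Rl2 F.fm (G1 (θ - 3 * d) (d ^ 6 / a)) ∧
    (∀ p ∈ G1 (θ - 3 * d) (d ^ 6 / a),
      (p.1, p.2, F.h p) ∈ G3 (θ - 3 * d) (d ^ 4 / a / 8) (d / 1000) S.h ∧
      (p.1, p.2, -F.h p) ∈ G3 (θ - 3 * d) (d ^ 4 / a / 8) (d / 1000) (fun ξ => -S.h ξ) ∧
      ‖F.fp p - p.2‖ ≤ d / 200 * ‖p.2‖ ∧ ‖F.fm p - p.2‖ ≤ d / 200 * ‖p.2‖ ∧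
      (p.1, F.fp p) ∈ G2 (θ - 2 * d) (d ^ 4 / a / 2) ∧
      (p.1, F.fm p) ∈ G2 (θ - 2 * d) (d ^ 4 / a / 2)) ∧
    (∀ ξ ∈ Sec (θ - 3 * d), F.fp (0, ξ) = ξ ∧ F.fm (0, ξ) = ξ) ∧
    ∀ p ∈ G1 (θ - 4 * d) (d ^ 6 / a / 2), ‖d2 F.fp p - 1‖ ≤ 1 / 20 ∧ ‖d2 F.fm p - 1‖ ≤ 1 / 20 := by
  have _h := h.C0
  obtain ⟨d0, d1, t1, t2, -, -, -, l1⟩ := fl_num N
  have Λ0 : 0 < d ^ 6 / a := by have := N.a0; positivity
  obtain ⟨a1, a2, a3, a4, a5⟩ := fl_cap d0 d1 t1 t2 Λ0 l1 H.csp H.hl.hh H.hl.rh H.hl.h0 H.hl.hz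
  obtain ⟨b1, b2, b3, b4, b5⟩ := fl_cap (el := fun p => -F.h p) d0 d1 t1 t2 Λ0 l1 H.csm
    H.hl.hh.neg (fun t x hp => by simpa using H.hl.rh t x hp)
    (fun p hp => by rw [← norm_neg]; simpa [neg_add_eq_sub] using H.hl.h0 p hp)
    (fun ξ hξ => by simp [H.hl.hz ξ hξ])
  exact ⟨a1, b1, a2, b2, fun p hp => ⟨(a3 p hp).1, (b3 p hp).1, (a3 p hp).2.1, (b3 p hp).2.1,
    (a3 p hp).2.2, (b3 p hp).2.2⟩, fun ξ hξ => ⟨a4 ξ hξ, b4 ξ hξ⟩, fun p hp => ⟨a5 p hp, b5 p hp⟩⟩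

theorem fl_H1 {q θ B : ℝ} {u T H e : ℂ → ℂ} {a0 b0 c0 : ℝ} (t0 : 0 ≤ θ) (t2 : θ ≤ th0)
    (q0 : 0 < q) (q1 : q ≤ 1 / 10 ^ 7) (hB : B ≤ 1 / 10 ^ 7)
    (h : CapInv q θ B u T H e a0 b0 c0) {ξ : ℂ} (hξ : ξ ∈ Sec θ) : ‖deriv H ξ‖ ≤ 1 / 10 ^ 6 := by
  have a1 : ‖T ξ‖ ≤ 2 := by
    have := norm_add_le (T ξ - 1) 1
    have h2 := h.T0 ξ hξ
    unfold del1 at h2
    rw [sub_add_cancel, norm_one] at this
    linarith
  have a2 : ‖deriv u ξ‖ ≤ 2 := by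
    have := norm_sub_le (deriv u ξ + 1) 1
    have h2 := h.u1 ξ hξ
    unfold del1 at h2
    rw [add_sub_cancel_right, norm_one] at this
    linarith
  have a3 : ‖u ξ‖ ≤ 2 := by
    have := norm_add_le (u ξ - (1 - ξ)) (1 - ξ)
    have h2 := h.u0 ξ hξ
    have h3 := (Sec_norm t0 t2 hξ).2.2.1
    unfold del1 at h2
    unfold th0 at t2
    rw [sub_add_cancel] at this
    linarith
  have a4 : ‖deriv T ξ‖ ≤ 1 := by
    have := norm_add_le (deriv T ξ - q / 2) (q / 2)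
    have h2 := h.T1 ξ hξ
    have h3 : ‖(q : ℂ) / 2‖ = q / 2 := by simp [abs_of_pos q0]
    rw [sub_add_cancel, h3] at this
    linarith
  have a5 : ‖T ξ * deriv u ξ / 2 + u ξ * deriv T ξ‖ ≤ 4 := by
    refine (norm_add_le _ _).trans ?_
    rw [norm_div, norm_mul, norm_mul, Complex.norm_two]
    have := mul_le_mul a1 a2 (norm_nonneg _) (by norm_num)
    have := mul_le_mul a3 a4 (norm_nonneg _) (by norm_num)
    linarith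
  rw [h.H1 ξ hξ, norm_mul, norm_neg, Complex.norm_real, Real.norm_eq_abs, abs_of_pos q0]
  nlinarith [norm_nonneg (T ξ * deriv u ξ / 2 + u ξ * deriv T ξ)]

/-- crude bounds along the family, one cap -/
theorem fl_ld {q θ d B Λ Λ' A : ℝ} {u T H e : ℂ → ℂ} {a0 b0 c0 : ℝ}
    {Tl Hl Wl el f : ℂ × ℂ → ℂ}
    (d0 : 0 < d) (d1 : d ≤ 1 / 10 ^ 7) (t1 : 16 * d ≤ θ - 8 * d) (t2 : θ ≤ th0) (Λ0 : 0 < Λ)
    (Λ1 : 0 ≤ Λ') (A0 : 0 ≤ A) (q0 : 0 < q) (q1 : q ≤ 1 / 10 ^ 7) (hB : B ≤ 1 / 10 ^ 7)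
    (h : CapInv q θ B u T H e a0 b0 c0) (pc : PC q (θ - d) Λ' (d ^ 2) A u T H Tl Hl Wl)
    (e1 : ∀ ξ ∈ Sec θ, ‖deriv e ξ‖ ≤ 1 / 100)
    (hh : HC el (G1 (θ - 3 * d) Λ)) (rh : Rl2 el (G1 (θ - 3 * d) Λ))
    (h0 : ∀ p ∈ G1 (θ - 3 * d) Λ, ‖el p - e p.2‖ ≤ d / 8000 * ‖p.2‖)
    (hf : HC f (G1 (θ - 3 * d) Λ)) (rf : Rl2 f (G1 (θ - 3 * d) Λ))
    (f0 : ∀ p ∈ G1 (θ - 3 * d) Λ, ‖f p - p.2‖ ≤ d / 200 * ‖p.2‖)
    (fm : ∀ p ∈ G1 (θ - 3 * d) Λ, (p.1, f p) ∈ G2 (θ - 2 * d) (Λ' / 2)) :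
    LD2 (θ - 5 * d) (Λ / 4) (1 / d) (2 * A) (fun p => Hl (p.1, f p) + el p) el
      (fun p => Wl (p.1, f p)) ∧
    Rl2 (fun p => Hl (p.1, f p) + el p) (G1 (θ - 5 * d) (Λ / 4)) ∧
    Rl2 (fun p => Wl (p.1, f p)) (G1 (θ - 5 * d) (Λ / 4)) := by
  have s53 : G1 (θ - 5 * d) (Λ / 4) ⊆ G1 (θ - 3 * d) Λ :=
    fl_G1_mono (by linarith) (by linarith) (by linarith)
  have s54 : G1 (θ - 5 * d) (Λ / 4) ⊆ G1 (θ - 3 * d - d) (Λ / 2) :=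
    fl_G1_mono (by linarith) (by linarith) (by linarith)
  have s43 : G1 (θ - 3 * d - d) (Λ / 2) ⊆ G1 (θ - 3 * d) Λ :=
    fl_G1_mono (by linarith) (by linarith) (by linarith)
  have s30 : Sec (θ - 3 * d) ⊆ Sec θ := Sec_mono (by linarith) (by linarith)
  have s10 : Sec (θ - d) ⊆ Sec θ := Sec_mono (by linarith) (by linarith)
  have m2 : ∀ p ∈ G1 (θ - 3 * d) Λ, (p.1, f p) ∈ G2 (θ - d) Λ' := fun p hp =>
    fl_G2_mono (by linarith) (by linarith) (by linarith) (fm p hp)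
  have hpf : HC (fun p : ℂ × ℂ => (p.1, f p)) (G1 (θ - 3 * d) Λ) := (HC.fst HC.id).prodMk hf
  have hz : HC (fun p => Hl (p.1, f p) + el p) (G1 (θ - 3 * d) Λ) :=
    (HC.comp pc.hH hpf m2).add hh
  have hw : HC (fun p => Wl (p.1, f p)) (G1 (θ - 3 * d) Λ) := HC.comp pc.hW hpf m2
  have nf : ∀ p ∈ G1 (θ - 3 * d) Λ, ‖f p‖ ≤ 11 / 10 * ‖p.2‖ := by
    intro p hp
    have := norm_add_le (f p - p.2) p.2
    rw [sub_add_cancel] at this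
    have := f0 p hp
    nlinarith [norm_nonneg p.2]
  have zc : ∀ p ∈ G1 (θ - 3 * d) Λ,
      ‖Hl (p.1, f p) + el p - (H p.2 + e p.2)‖ ≤ d / 4000 * ‖p.2‖ := by
    intro p hp
    have b1 : ‖Hl (p.1, f p) - H (f p)‖ ≤ q * d ^ 2 * ‖f p‖ := pc.H0 _ (m2 p hp)
    have b2 : ‖H (f p) - H p.2‖ ≤ 1 / 10 ^ 6 * ‖f p - p.2‖ :=
      (convex_Sec θ).norm_image_sub_le_of_norm_deriv_le
        (fun x hx => h.dH.differentiableAt ((isOpen_Sec θ).mem_nhds hx))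
        (fun x hx => fl_H1 (by linarith) t2 q0 q1 hB h hx) (s30 hp.1) (s10 (m2 p hp).1)
    have b3 := h0 p hp
    have b4 := f0 p hp
    have b5 := nf p hp
    have b6 : q * d ^ 2 ≤ d / 10 ^ 7 := by nlinarith [mul_pos q0 d0]
    have b7 : q * d ^ 2 * ‖f p‖ ≤ d / 10 ^ 7 * (11 / 10 * ‖p.2‖) :=
      mul_le_mul b6 b5 (norm_nonneg _) (by positivity)
    have b8 : 0 ≤ d * ‖p.2‖ := by positivity
    calc _ = ‖(Hl (p.1, f p) - H (f p)) + (H (f p) - H p.2) + (el p - e p.2)‖ := by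
          congr 1; ring
      _ ≤ _ := norm_add₃_le
      _ ≤ _ := by nlinarith
  have z0 : ∀ p ∈ G1 (θ - 3 * d) Λ, ‖Hl (p.1, f p) + el p - 1‖ ≤ 1 / 20 := by
    intro p hp
    obtain ⟨n0, n2⟩ := fl_norm (by linarith) (by linarith) hp.1
    have b1 := zc p hp
    have b2 := h.H0 _ (s30 hp.1)
    have b3 := h.e0 _ (s30 hp.1)
    unfold del1 at b2 b3
    calc _ = ‖(Hl (p.1, f p) + el p - (H p.2 + e p.2)) + (H p.2 - 1) + e p.2‖ := by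
          congr 1; ring
      _ ≤ _ := norm_add₃_le
      _ ≤ _ := by nlinarith
  have e0 : ∀ p ∈ G1 (θ - 3 * d) Λ, ‖el p‖ ≤ 1 * ‖p.2‖ ^ 0 := by
    intro p hp
    obtain ⟨n0, n2⟩ := fl_norm (by linarith) (by linarith) hp.1
    have b1 := h0 p hp
    have b3 := h.e0 _ (s30 hp.1)
    unfold del1 at b3
    have := norm_add_le (el p - e p.2) (e p.2)
    rw [sub_add_cancel] at this
    rw [pow_zero]
    nlinarith
  have he1 : HC (d2 el) (G1 (θ - 3 * d) Λ) :=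
    (d2_G1 d0 (by linarith) (by linarith) (by norm_num) hh e0).1
  have hz1 : HC (d2 fun p => Hl (p.1, f p) + el p) (G1 (θ - 3 * d) Λ) :=
    (d2_G1 (M := 2) (k := 0) d0 (by linarith) (by linarith) (by norm_num) hz (fun p hp => by
      have := norm_add_le (Hl (p.1, f p) + el p - 1) 1
      rw [sub_add_cancel, norm_one] at this
      have := z0 p hp
      rw [pow_zero]
      linarith)).1
  have ee : ∀ p ∈ G1 (θ - 3 * d - d) (Λ / 2), ‖d2 el p‖ ≤ 1 / 20 * ‖p.2‖ ^ 0 := by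
    intro p hp
    have b1 := fl_d2 d0 (by linarith) (by linarith) Λ0.le hh (h.de.mono s30) h0 hp
    have b2 := e1 _ (s30 (s43 hp).1)
    have b3 : 5 * (d / 8000) / d = 1 / 1600 := by field_simp; norm_num
    have := norm_add_le (d2 el p - deriv e p.2) (deriv e p.2)
    rw [sub_add_cancel] at this
    rw [pow_zero]
    linarith
  refine ⟨⟨hz.mono s53, hh.mono s53, hw.mono s53, hz1.mono s53, he1.mono s53,
    fun p hp => z0 p (s53 hp), fun p hp => ?_, fun p hp => by simpa using ee p (s54 hp),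
    fun p hp => ?_, fun p hp => ?_⟩, fun t x hp => ?_, fun t x hp => ?_⟩
  · have b1 := fl_d2 (g := fun ξ => H ξ + e ξ) d0 (by linarith) (by linarith) Λ0.le hz
      ((h.dH.add h.de).mono s30) zc (s54 hp)
    have m := s30 (s53 hp).1
    have nb := (isOpen_Sec θ).mem_nhds m
    rw [deriv_fun_add (h.dH.differentiableAt nb) (h.de.differentiableAt nb)] at b1
    have b2 := e1 _ m
    have b3 := fl_H1 (by linarith) t2 q0 q1 hB h m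
    have b4 : 5 * (d / 4000) / d = 1 / 800 := by field_simp; norm_num
    calc _ = ‖(d2 (fun p => Hl (p.1, f p) + el p) p - (deriv H p.2 + deriv e p.2)) + deriv H p.2
          + deriv e p.2‖ := by congr 1; ring
      _ ≤ _ := norm_add₃_le
      _ ≤ _ := by linarith
  · have b1 := (d2_G1 d0 (by linarith) (by linarith) (by norm_num) (he1.mono s43) ee).2 p
      (fl_G1_mono (by linarith) (by linarith) (by linarith) hp)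
    rw [pow_zero, mul_one] at b1
    refine b1.trans ?_
    gcongr
    norm_num
  · have b1 : ‖Wl (p.1, f p)‖ ≤ A * ‖f p‖ ^ 4 := pc.W0 _ (m2 p (s53 hp))
    have b2 := pow_le_pow_left₀ (norm_nonneg _) (nf p (s53 hp)) 4
    have b3 := mul_le_mul_of_nonneg_left b2 A0
    have b4 : 0 ≤ A * ‖p.2‖ ^ 4 := by positivity
    rw [mul_pow] at b3
    nlinarith
  · have e1 := fl_ofReal (rf t x (s53 hp))
    have m := m2 _ (s53 hp)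
    show (Hl ((t : ℂ), f (t, x)) + el (t, x)).im = 0
    rw [Complex.add_im, rh t x (s53 hp), add_zero, ← e1]
    refine pc.rH t _ ?_
    rw [e1]
    exact m
  · have e1 := fl_ofReal (rf t x (s53 hp))
    have m := m2 _ (s53 hp)
    show (Wl ((t : ℂ), f (t, x))).im = 0
    rw [← e1]
    refine pc.rW t _ ?_
    rw [e1]
    exact m

theorem FamOK.ld {P : Par} {θ d B a : ℝ} {S : St} {w : ℂ → ℂ} {F : Fam} (N : Num P θ d B a)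
    (h : InvC P θ d B S) (H : FamOK P θ d B a S w F) :
    LD2 (θ - 5 * d) (d ^ 6 / a / 4) (1 / d) (2 * a / d ^ 2) F.zp F.h F.wp ∧
    LD2 (θ - 5 * d) (d ^ 6 / a / 4) (1 / d) (2 * a / d ^ 2) F.zm (fun r => -F.h r) F.wm ∧
    Rl2 F.zp (G1 (θ - 5 * d) (d ^ 6 / a / 4)) ∧ Rl2 F.zm (G1 (θ - 5 * d) (d ^ 6 / a / 4)) ∧
    Rl2 F.wp (G1 (θ - 5 * d) (d ^ 6 / a / 4)) ∧ Rl2 F.wm (G1 (θ - 5 * d) (d ^ 6 / a / 4)) := by
  obtain ⟨d0, d1, t1, t2, hB, q1, η1, -⟩ := fl_num N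
  have a0 := N.a0
  have q0 := N.small.2.2.2.2.1
  have η0 := N.par.et1
  obtain ⟨f1, f2, f3, f4, f5, -, -⟩ := H.f N h
  have e1 : ∀ ξ ∈ Sec θ, ‖deriv S.h ξ‖ ≤ 1 / 100 := by
    intro ξ hξ
    have := norm_sub_le (deriv S.h ξ + P.η) P.η
    have b := h.h1 ξ hξ
    rw [add_sub_cancel_right, Complex.norm_real, Real.norm_eq_abs, abs_of_pos η0] at this
    linarith
  obtain ⟨a1, a2, a3⟩ := fl_ld d0 d1 t1 t2 (by positivity) (by positivity) (by positivity) q0 q1 hB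
    h.cp H.pcp e1 H.hl.hh H.hl.rh H.hl.h0 f1 f3 (fun p hp => (f5 p hp).2.2.1)
    (fun p hp => (f5 p hp).2.2.2.2.1)
  obtain ⟨b1, b2, b3⟩ := fl_ld (el := fun p => -F.h p) d0 d1 t1 t2 (by positivity) (by positivity)
    (by positivity) q0 q1 hB h.cm H.pcm
    (fun ξ hξ => by rw [deriv.fun_neg, norm_neg]; exact e1 ξ hξ) H.hl.hh.neg
    (fun t x hp => by simpa using H.hl.rh t x hp)
    (fun p hp => by rw [← norm_neg]; simpa [neg_add_eq_sub] using H.hl.h0 p hp) f2 f4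
    (fun p hp => (f5 p hp).2.2.2.1) (fun p hp => (f5 p hp).2.2.2.2.2)
  have ez : F.zm = fun p => F.Hm (p.1, F.fm p) + -F.h p := funext fun p => sub_eq_add_neg _ _
  rw [mul_div_assoc, ez]
  exact ⟨a1, b1, a2, b2, a3, b3⟩

theorem fl_mem {θ Λ : ℝ} (t0 : 0 < θ) (t1 : θ ≤ th0) (hΛ : 10 ≤ Λ) {l ξ : ℂ} (hl : ‖l‖ ≤ 2)
    (hξ : ξ ∈ Sec θ) : (l, ξ) ∈ G1 θ Λ := by
  obtain ⟨n0, n2⟩ := fl_norm t0.le t1 hξ
  refine ⟨hξ, ?_⟩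
  show ‖l‖ * ‖ξ‖ < Λ
  nlinarith [norm_nonneg l]

/-- a slice of family data at a bounded parameter -/
theorem LD2.slice {θ Λ M A : ℝ} {z e w : ℂ × ℂ → ℂ} (t0 : 0 < θ) (t1 : θ ≤ th0) (hΛ : 10 ≤ Λ)
    (h : LD2 θ Λ M A z e w) {l : ℂ} (hl : ‖l‖ ≤ 2) : LD θ M A (sl z l) (sl e l) (sl w l) := by
  have m : ∀ ξ ∈ Sec θ, (l, ξ) ∈ G1 θ Λ := fun ξ hξ => fl_mem t0 t1 hΛ hl hξ
  have D : ∀ f : ℂ × ℂ → ℂ, HC f (G1 θ Λ) → DifferentiableOn ℂ (sl f l) (Sec θ) :=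
    fun f hf ξ hξ =>
      (HC.hasDerivAt2 (isOpen_G1 θ Λ) hf (m ξ hξ)).differentiableAt.differentiableWithinAt
  exact ⟨D z h.hz, D e h.he, D w h.hw, fun ξ hξ => h.z0 _ (m ξ hξ), fun ξ hξ => h.z1 _ (m ξ hξ),
    fun ξ hξ => h.e1 _ (m ξ hξ), fun ξ hξ => h.e2 _ (m ξ hξ), fun ξ hξ => h.w0 _ (m ξ hξ)⟩

theorem FamOK.err {P : Par} {θ d B a μ : ℝ} {S : St} {w : ℂ → ℂ} {F : Fam} (N : Num P θ d B a)
    (h : InvC P θ d B S) (H : FamOK P θ d B a S w F)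
    (W : WOK θ P.η a μ S.zp S.zm S.h S.ρ S.U S.E w) :
    HC (F.L P.η) (G1 (θ - 5 * d) (d ^ 6 / a / 4)) ∧
    Rl2 (F.L P.η) {p | p.2 ∈ Sec (θ - 5 * d) ∧ ‖p.1‖ ≤ 2} ∧
    (∀ p ∈ G1 (θ - 5 * d) (d ^ 6 / a / 4), ‖F.L P.η p‖ ≤ a / d ^ 4 * ‖p.2‖ ^ 4) ∧
    (∀ ξ ∈ Sec (θ - 5 * d), F.L P.η (0, ξ) =
      -S.E ξ - (Real.pi : ℂ) * (1 + kap) * P.η * ξ ^ 5 * (ell S.U w - μ)) ∧
    DifferentiableOn ℂ (F.E P.η) (Sec (θ - 5 * d)) ∧ Rl (F.E P.η) (θ - 5 * d) ∧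
    ∀ ξ ∈ Sec (θ - 5 * d), ‖F.E P.η ξ‖ ≤ a ^ 2 / d ^ 12 * ‖ξ‖ ^ 4 := by
  obtain ⟨d0, d1, t1, t2, hB, q1, η1, -⟩ := fl_num N
  have a0 := N.a0
  have η0 := N.par.et1
  have η2 : P.η ≤ th0 := by unfold th0; linarith
  have u0 : 0 < θ - 5 * d := by linarith
  have u1 : θ - 5 * d ≤ th0 := by linarith
  have hΛ : 10 ≤ d ^ 6 / a / 4 := by linarith [N.small.2.2.2.2.2.2.1]
  obtain ⟨l1, l2, r1, r2, r3, r4⟩ := H.ld N h
  obtain ⟨-, -, -, -, -, f6, -⟩ := H.f N h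
  obtain ⟨c1, c2⟩ := Lcap_HC u0 u1 η0.le η2 (by positivity) l1
  obtain ⟨c3, c4⟩ := Lcap_HC u0 u1 η0.le η2 (by positivity) l2
  have hL : HC (F.L P.η) (G1 (θ - 5 * d) (d ^ 6 / a / 4)) := c1.add c3
  have rh : Rl2 F.h (G1 (θ - 5 * d) (d ^ 6 / a / 4)) := fun t x hp =>
    H.hl.rh t x (fl_G1_mono u0.le (by linarith) (by linarith) hp)
  have rL : ∀ t x : ℝ, (x : ℂ) ∈ Sec (θ - 5 * d) → ‖(t : ℂ)‖ ≤ 2 → (F.L P.η (t, x)).im = 0 := by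
    intro t x hx ht
    have R : ∀ f : ℂ × ℂ → ℂ, Rl2 f (G1 (θ - 5 * d) (d ^ 6 / a / 4)) → Rl (sl f t) (θ - 5 * d) :=
      fun f hf y hy => hf t y (fl_mem u0 u1 hΛ ht hy)
    have b1 := Lcap_real (η := P.η) u0 u1 (l1.slice u0 u1 hΛ ht) (R _ r1) (R _ rh) (R _ r3) x hx
    have b2 := Lcap_real (η := P.η) u0 u1 (l2.slice u0 u1 hΛ ht) (R _ r2)
      (R _ fun t x hp => by simpa using rh t x hp) (R _ r4) x hx
    unfold Fam.L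
    rw [Complex.add_im, b1, b2, add_zero]
  have bL : ∀ p ∈ G1 (θ - 5 * d) (d ^ 6 / a / 4), ‖F.L P.η p‖ ≤ a / d ^ 4 * ‖p.2‖ ^ 4 := by
    intro p hp
    have b1 : 2 * (20 * (2 * a / d ^ 2) * (1 + 1 / d)) ≤ a / d ^ 4 := by
      have : 2 * (20 * (2 * a / d ^ 2) * (1 + 1 / d)) = 80 * (d ^ 2 + d) * (a / d ^ 4) := by
        field_simp
        ring
      rw [this]
      have b2 : 80 * (d ^ 2 + d) ≤ 1 := by nlinarith
      have b3 : 0 ≤ a / d ^ 4 := by positivity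
      nlinarith
    have b2 := mul_le_mul_of_nonneg_right b1 (pow_nonneg (norm_nonneg p.2) 4)
    refine (norm_add_le _ _).trans ?_
    linarith [c2 p hp, c4 p hp]
  have mt : ∀ t ∈ Ioo (0 : ℝ) 1, ‖(t : ℂ)‖ ≤ 1 := fun t ht => by
    rw [Complex.norm_real, Real.norm_eq_abs, abs_of_pos ht.1]; exact ht.2.le
  have bE : ∀ t ∈ Ioo (0 : ℝ) 1, ∀ ξ ∈ Sec (θ - 5 * d),
      ‖F.L P.η (t, ξ) - F.L P.η (0, ξ)‖ ≤ a ^ 2 / d ^ 12 * ‖ξ‖ ^ 4 := by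
    intro t ht ξ hξ
    obtain ⟨n0, n2⟩ := fl_norm u0.le u1 hξ
    have b1 := schwarz_G1 hL bL (fl_mem u0 u1 hΛ ((mt t ht).trans one_le_two) hξ)
    refine b1.trans ?_
    have b2 : ‖(t : ℂ)‖ * ‖ξ‖ ≤ 2 := by nlinarith [mt t ht, norm_nonneg (t : ℂ)]
    have b3 : 8 * d ^ 2 * (‖(t : ℂ)‖ * ‖ξ‖) ≤ 1 := by nlinarith [sq_nonneg d]
    have b4 : 0 ≤ a ^ 2 / d ^ 12 * ‖ξ‖ ^ 4 := by positivity
    calc _ = 8 * d ^ 2 * (‖(t : ℂ)‖ * ‖ξ‖) * (a ^ 2 / d ^ 12 * ‖ξ‖ ^ 4) := by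
          field_simp
          ring
      _ ≤ _ := by nlinarith
  refine ⟨hL, fun t x hp => rL t x hp.1 hp.2, bL, fun ξ hξ => ?_, ?_, fun x hx => ?_,
    fun ξ hξ => ?_⟩
  · have s3 : Sec (θ - 5 * d) ⊆ Sec (θ - 3 * d) := Sec_mono u0.le (by linarith)
    have s1 : Sec (θ - 5 * d) ⊆ Sec (θ - d) := Sec_mono u0.le (by linarith)
    have b1 := Lcap_congr (η := P.η) (z := sl F.zp 0) (e := sl F.h 0) (w := sl F.wp 0)
      (z' := S.zp) (e' := S.h) (w' := w) u0.le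
      (fun ζ hζ => by
        show F.Hp (0, F.fp (0, ζ)) + F.h (0, ζ) = S.Hp ζ + S.h ζ
        rw [(f6 ζ (s3 hζ)).1, H.pcp.Hz ζ (s1 hζ), H.hl.hz ζ (s3 hζ)])
      (fun ζ hζ => H.hl.hz ζ (s3 hζ))
      (fun ζ hζ => by
        show F.Wp (0, F.fp (0, ζ)) = w ζ
        rw [(f6 ζ (s3 hζ)).1, H.Wp]) hξ
    have b2 := Lcap_congr (η := P.η) (z := sl F.zm 0) (e := sl (fun r => -F.h r) 0)
      (w := sl F.wm 0) (z' := S.zm) (e' := fun ζ => -S.h ζ) (w' := wm S.ρ S.U w) u0.le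
      (fun ζ hζ => by
        show F.Hm (0, F.fm (0, ζ)) - F.h (0, ζ) = S.Hm ζ - S.h ζ
        rw [(f6 ζ (s3 hζ)).2, H.pcm.Hz ζ (s1 hζ), H.hl.hz ζ (s3 hζ)])
      (fun ζ hζ => by
        show -F.h (0, ζ) = -S.h ζ
        rw [H.hl.hz ζ (s3 hζ)])
      (fun ζ hζ => by
        show F.Wm (0, F.fm (0, ζ)) = wm S.ρ S.U w ζ
        rw [(f6 ζ (s3 hζ)).2, H.Wm ζ (s1 hζ)]) hξ
    have b3 := W.eq ξ (Sec_mono u0.le (by linarith) hξ)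
    unfold Fam.L
    dsimp only
    rw [b1, b2]
    linear_combination b3
  · have sl1 : ∀ l : ℂ, ‖l‖ ≤ 2 → HC (fun ξ => F.L P.η (l, ξ)) (Sec (θ - 5 * d)) := fun l hl =>
      HC.comp hL ((HC.const l).prodMk HC.id) (fun ξ hξ => fl_mem u0 u1 hΛ hl hξ)
    refine HC.diffOn (HC.integral (μ := volume.restrict (Ioo (0 : ℝ) 1))
      (f := fun ξ (t : ℝ) => F.L P.η (t, ξ) - F.L P.η (0, ξ))
      (b := fun _ => a ^ 2 / d ^ 12 * 2 ^ 4) ?_ ?_ ?_ (integrable_const _)) (isOpen_Sec _)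
    · filter_upwards [ae_restrict_mem measurableSet_Ioo] with t ht
      exact (sl1 t ((mt t ht).trans one_le_two)).sub (sl1 0 (by simp))
    · intro ξ hξ
      refine ContinuousOn.aestronglyMeasurable (fun t ht => ?_) measurableSet_Ioo
      have b1 := (HC.hasDerivAt1 (isOpen_G1 _ _) hL
        (fl_mem u0 u1 hΛ ((mt t ht).trans one_le_two) hξ)).continuousAt
      exact ((ContinuousAt.comp (f := fun s : ℝ => (s : ℂ)) b1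
        Complex.continuous_ofReal.continuousAt).sub continuousAt_const).continuousWithinAt
    · filter_upwards [ae_restrict_mem measurableSet_Ioo] with t ht ξ hξ
      refine (bE t ht ξ hξ).trans ?_
      gcongr
      exact (fl_norm u0.le u1 hξ).2
  · unfold Fam.E
    rw [setIntegral_congr_fun measurableSet_Ioo
      (g := fun t : ℝ => (((F.L P.η (t, x) - F.L P.η (0, x)).re : ℝ) : ℂ)) (fun t ht => ?_),
      integral_complex_ofReal, Complex.ofReal_im]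
    refine (fl_ofReal ?_).symm
    have b1 := rL 0 x hx (by simp)
    rw [Complex.ofReal_zero] at b1
    rw [Complex.sub_im, rL t x hx ((mt t ht).trans one_le_two), b1, sub_zero]
  · have := norm_setIntegral_le_of_norm_le_const (μ := volume) (s := Ioo (0 : ℝ) 1)
      (f := fun t : ℝ => F.L P.η (t, ξ) - F.L P.η (0, ξ)) (by simp) (fun t ht => bE t ht ξ hξ)
    unfold Fam.E
    simpa using this

end Bon3
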