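import Pool.Agent.Lib.MP_3dbf58_gt.Defs

open Set Filter Topology MeasureTheory Metric

noncomputable section

namespace Bon3

theorem geo_cont {g : ℝ → ℝ} (h : GOK g) : Continuous g := by
  have := h.cc.continuousOn isOpen_univ
  exact continuousOn_univ.mp this

theorem geo_nsq (z : E3) : ‖z‖ ^ 2 = z 0 ^ 2 + z 1 ^ 2 + z 2 ^ 2 := by
  rw [EuclideanSpace.real_norm_sq_eq, Fin.sum_univ_three]

theorem geo_inner (z w : E3) : inner ℝ z w = z 0 * w 0 + z 1 * w 1 + z 2 * w 2 := by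
  rw [PiLp.inner_apply, Fin.sum_univ_three]
  simp only [RCLike.inner_apply, conj_trivial]
  ring

theorem geo_lt {g : ℝ → ℝ} (h : GOK g) {x : ℝ} (hx : 0 ≤ g x) : |x| < 3 / 2 := by
  by_contra hc
  exact absurd (h.ng x (not_lt.mp hc)) (not_lt.mpr hx)

theorem Body_compact {g : ℝ → ℝ} (h : GOK g) : IsCompact (Body g) := by
  have hc := geo_cont h
  refine Metric.isCompact_of_isClosed_isBounded ?_ ?_
  · exact isClosed_le (by fun_prop) (hc.comp (by fun_prop))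
  · refine (Metric.isBounded_closedBall (x := (0 : E3)) (r := 2)).subset ?_
    intro z hz
    have hz' : z 1 ^ 2 + z 2 ^ 2 ≤ g (z 0) := hz
    have h0 : 0 ≤ g (z 0) := le_trans (by positivity) hz'
    have h1 := abs_lt.mp (geo_lt h h0)
    have h2 := h.le (z 0)
    rw [mem_closedBall_zero_iff]
    refine abs_le_of_sq_le_sq' ?_ (by norm_num) |>.2
    rw [geo_nsq]
    nlinarith [h1.1, h1.2]

theorem Body_convex {g : ℝ → ℝ} (h : GOK g) : Convex ℝ (Body g) := by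
  intro z hz w hw a b ha hb hab
  have hz' : z 1 ^ 2 + z 2 ^ 2 ≤ g (z 0) := hz
  have hw' : w 1 ^ 2 + w 2 ^ 2 ≤ g (w 0) := hw
  have hc := h.cc.2 (mem_univ (z 0)) (mem_univ (w 0)) ha hb hab
  show (a • z + b • w) 1 ^ 2 + (a • z + b • w) 2 ^ 2 ≤ g ((a • z + b • w) 0)
  simp only [PiLp.add_apply, PiLp.smul_apply, smul_eq_mul] at hc ⊢
  obtain rfl : b = 1 - a := by linarith
  have h1 := mul_nonneg (mul_nonneg ha hb) (sq_nonneg (z 1 - w 1))
  have h2 := mul_nonneg (mul_nonneg ha hb) (sq_nonneg (z 2 - w 2))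
  have h3 := mul_le_mul_of_nonneg_left hz' ha
  have h4 := mul_le_mul_of_nonneg_left hw' hb
  nlinarith

theorem Body_interior {g : ℝ → ℝ} (h : GOK g) : (interior (Body g)).Nonempty := by
  have hc := geo_cont h
  refine ⟨0, ?_⟩
  rw [mem_interior]
  refine ⟨{z : E3 | z 1 ^ 2 + z 2 ^ 2 < g (z 0)}, fun z hz =>
    (le_of_lt hz : z 1 ^ 2 + z 2 ^ 2 ≤ g (z 0)), ?_, ?_⟩
  · exact isOpen_lt (by fun_prop) (hc.comp (by fun_prop))
  · simp [h.g0]

/-- coordinates in the plane orthogonal to `u` -/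
theorem geo_frame {u : E3} (hu : ‖u‖ = 1) :
    ∃ (a b : ℝ) (Φ : (ℝ ∙ u)ᗮ ≃ᵐ ℝ × ℝ), a ^ 2 + b ^ 2 = 1 ∧
      u 1 = Real.sqrt (1 - u 0 ^ 2) * a ∧ u 2 = Real.sqrt (1 - u 0 ^ 2) * b ∧
      MeasurePreserving Φ volume volume ∧
      ∀ z : E3, Φ ((ℝ ∙ u)ᗮ.orthogonalProjectionOnto z) =
        (Real.sqrt (1 - u 0 ^ 2) * z 0 - u 0 * (a * z 1 + b * z 2), a * z 2 - b * z 1) := by
  have hn : u 0 ^ 2 + u 1 ^ 2 + u 2 ^ 2 = 1 := by rw [← geo_nsq, hu]; norm_num
  have h0 : 0 ≤ 1 - u 0 ^ 2 := by nlinarith [sq_nonneg (u 1), sq_nonneg (u 2)]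
  set S := Real.sqrt (1 - u 0 ^ 2) with hS
  have hS2 : S ^ 2 = 1 - u 0 ^ 2 := Real.sq_sqrt h0
  obtain ⟨a, b, hab, h1, h2⟩ : ∃ a b : ℝ, a ^ 2 + b ^ 2 = 1 ∧ u 1 = S * a ∧ u 2 = S * b := by
    by_cases hz : S = 0
    · refine ⟨1, 0, by norm_num, ?_, ?_⟩
      · rw [hz] at hS2 ⊢
        have : u 1 ^ 2 = 0 := by nlinarith [sq_nonneg (u 1), sq_nonneg (u 2)]
        simpa using this
      · rw [hz] at hS2 ⊢
        have : u 2 ^ 2 = 0 := by nlinarith [sq_nonneg (u 1), sq_nonneg (u 2)]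
        simpa using this
    · refine ⟨u 1 / S, u 2 / S, ?_, by field_simp, by field_simp⟩
      field_simp
      linarith
  have hu0 : u ≠ 0 := by
    intro h
    rw [h, norm_zero] at hu
    exact zero_ne_one hu
  let e1 : E3 := !₂[S, -(u 0 * a), -(u 0 * b)]
  let e2 : E3 := !₂[0, -b, a]
  have m1 : e1 ∈ (ℝ ∙ u)ᗮ := by
    rw [Submodule.mem_orthogonal_singleton_iff_inner_right, geo_inner]
    simp only [e1, Matrix.cons_val_zero, Matrix.cons_val_one, Matrix.cons_val]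
    rw [h1, h2]
    linear_combination (-(u 0 * S)) * hab
  have m2 : e2 ∈ (ℝ ∙ u)ᗮ := by
    rw [Submodule.mem_orthogonal_singleton_iff_inner_right, geo_inner]
    simp only [e2, Matrix.cons_val_zero, Matrix.cons_val_one, Matrix.cons_val]
    rw [h1, h2]
    ring
  let v : Fin 2 → (ℝ ∙ u)ᗮ := ![⟨e1, m1⟩, ⟨e2, m2⟩]
  have hv : Orthonormal ℝ v := by
    rw [orthonormal_iff_ite]
    intro i j
    rw [Submodule.coe_inner, geo_inner]
    fin_cases i <;> fin_cases j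
    · simp [v, e1]
      linear_combination hS2 + u 0 ^ 2 * hab
    · simp [v, e1, e2]
      ring
    · simp [v, e1, e2]
      ring
    · simp [v, e2]
      linear_combination hab
  have : Fact (Module.finrank ℝ E3 = 2 + 1) := ⟨by simp⟩
  have hc : Fintype.card (Fin 2) = Module.finrank ℝ (ℝ ∙ u)ᗮ := by
    rw [Submodule.finrank_orthogonal_span_singleton (n := 2) hu0]
    simp
  let B : OrthonormalBasis (Fin 2) ℝ (ℝ ∙ u)ᗮ :=
    (basisOfOrthonormalOfCardEqFinrank hv hc).toOrthonormalBasis (by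
      rw [coe_basisOfOrthonormalOfCardEqFinrank]; exact hv)
  have hB : ∀ i, B i = v i := by
    intro i
    simp [B]
  refine ⟨a, b, (B.measurableEquiv.trans (MeasurableEquiv.toLp 2 (Fin 2 → ℝ)).symm).trans
    MeasurableEquiv.finTwoArrow, hab, h1, h2, ?_, ?_⟩
  · exact (volume_preserving_finTwoArrow ℝ).comp
      ((EuclideanSpace.volume_preserving_symm_measurableEquiv_toLp (Fin 2)).comp
        B.measurePreserving_measurableEquiv)
  · intro z
    show (B.repr ((ℝ ∙ u)ᗮ.orthogonalProjectionOnto z) 0,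
      B.repr ((ℝ ∙ u)ᗮ.orthogonalProjectionOnto z) 1) = _
    rw [B.repr_apply_apply, B.repr_apply_apply, hB, hB,
      Submodule.inner_orthogonalProjectionOnto_eq_of_mem_left,
      Submodule.inner_orthogonalProjectionOnto_eq_of_mem_left, geo_inner, geo_inner]
    simp [v, e1, e2]
    constructor <;> ring

theorem proj_Body (g : ℝ → ℝ) {u : E3} (hu : ‖u‖ = 1) :
    proj (Body g) u = volume (PSet g (Real.sqrt (1 - u 0 ^ 2)) |u 0|) := by
  obtain ⟨a, b, Φ, hab, -, -, hΦ, hz⟩ := geo_frame hu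
  obtain ⟨ε, hε, hε'⟩ : ∃ ε : ℝ, ε ^ 2 = 1 ∧ |u 0| = ε * u 0 := by
    rcases abs_cases (u 0) with h | h
    · exact ⟨1, by norm_num, by rw [h.1, one_mul]⟩
    · exact ⟨-1, by norm_num, by rw [h.1]; ring⟩
  rw [← hΦ.measure_preimage_equiv, proj]
  congr 1
  ext v
  constructor
  · rintro ⟨z, hzB, rfl⟩
    have hz' : z 1 ^ 2 + z 2 ^ 2 ≤ g (z 0) := hzB
    rw [mem_preimage, hz]
    refine ⟨z 0, -ε * (a * z 1 + b * z 2), ?_, ?_⟩
    · show (-ε * (a * z 1 + b * z 2)) ^ 2 + (a * z 2 - b * z 1) ^ 2 ≤ g (z 0)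
      have : (-ε * (a * z 1 + b * z 2)) ^ 2 + (a * z 2 - b * z 1) ^ 2 = z 1 ^ 2 + z 2 ^ 2 := by
        linear_combination (a * z 1 + b * z 2) ^ 2 * hε + (z 1 ^ 2 + z 2 ^ 2) * hab
      rw [this]
      exact hz'
    · show _ - _ = _
      rw [hε']
      linear_combination u 0 * (a * z 1 + b * z 2) * hε
  · rintro ⟨x, y, h1, h2⟩
    refine ⟨!₂[x, -(a * ε * y) - b * (Φ v).2, -(b * ε * y) + a * (Φ v).2], ?_, ?_⟩
    · show (-(a * ε * y) - b * (Φ v).2) ^ 2 + (-(b * ε * y) + a * (Φ v).2) ^ 2 ≤ g x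
      have : (-(a * ε * y) - b * (Φ v).2) ^ 2 + (-(b * ε * y) + a * (Φ v).2) ^ 2
          = y ^ 2 + (Φ v).2 ^ 2 := by
        linear_combination (ε ^ 2 * y ^ 2 + (Φ v).2 ^ 2) * hab + y ^ 2 * hε
      rw [this]
      exact h1
    · apply Φ.injective
      show Φ _ = Φ v
      rw [hz]
      refine Prod.ext ?_ ?_
      · rw [h2, hε']
        simp only [Matrix.cons_val_zero, Matrix.cons_val_one, Matrix.cons_val]
        linear_combination (u 0 * ε * y) * hab
      · simp only [Matrix.cons_val_zero, Matrix.cons_val_one, Matrix.cons_val]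
        linear_combination (Φ v).2 * hab

/-- area under a square root -/
theorem geo_area {f : ℝ → ℝ} (hf : Continuous f) :
    volume {p : ℝ × ℝ | p.2 ^ 2 ≤ f p.1} = ∫⁻ x, ENNReal.ofReal (2 * Real.sqrt (f x)) := by
  have hm : MeasurableSet {p : ℝ × ℝ | p.2 ^ 2 ≤ f p.1} :=
    (isClosed_le (by fun_prop) (hf.comp continuous_fst)).measurableSet
  rw [Measure.volume_eq_prod, Measure.prod_apply hm]
  refine lintegral_congr fun x => ?_
  by_cases h : 0 ≤ f x
  · have : Prod.mk x ⁻¹' {p : ℝ × ℝ | p.2 ^ 2 ≤ f p.1}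
        = Icc (-Real.sqrt (f x)) (Real.sqrt (f x)) := by
      ext y
      simp only [mem_preimage, mem_ofPred_eq, mem_Icc, ← abs_le]
      rw [← Real.sqrt_sq_eq_abs, Real.sqrt_le_sqrt_iff h]
    rw [this, Real.volume_Icc]
    congr 1
    ring
  · have : Prod.mk x ⁻¹' {p : ℝ × ℝ | p.2 ^ 2 ≤ f p.1} = ∅ := by
      ext y
      simp only [mem_preimage, mem_ofPred_eq, mem_empty_iff_false, iff_false, not_le]
      exact lt_of_lt_of_le (not_le.mp h) (sq_nonneg y)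
    rw [this, Real.sqrt_eq_zero'.mpr (not_le.mp h).le]
    simp

theorem geo_lint {f : ℝ → ℝ} (hf : Continuous f) (hn : ∀ x, 3 / 2 ≤ |x| → f x ≤ 0) :
    ∫⁻ x, ENNReal.ofReal (2 * Real.sqrt (f x)) =
      ENNReal.ofReal (2 * ∫ x in (-2 : ℝ)..2, Real.sqrt (f x)) := by
  have hc : Continuous fun x => 2 * Real.sqrt (f x) := by fun_prop
  have hs : Function.support (fun x => 2 * Real.sqrt (f x)) ⊆ Ioc (-2 : ℝ) 2 := by
    intro x hx
    by_contra hx'
    apply hx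
    have : 3 / 2 ≤ |x| := by
      rw [mem_Ioc, not_and_or, not_lt, not_le] at hx'
      rcases hx' with h | h
      · exact le_trans (by linarith) (neg_le_abs x)
      · exact le_trans (by linarith) (le_abs_self x)
    simp [Real.sqrt_eq_zero'.mpr (hn x this)]
  have hi : Integrable (fun x => 2 * Real.sqrt (f x)) := by
    rw [← integrableOn_iff_integrable_of_support_subset hs]
    exact (hc.integrableOn_Icc).mono_set Ioc_subset_Icc_self
  rw [← ofReal_integral_eq_lintegral_ofReal hi (Eventually.of_forall fun x => by positivity),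
    ← intervalIntegral.integral_const_mul, intervalIntegral.integral_eq_integral_of_support_subset hs]

theorem sect_Body {g : ℝ → ℝ} (h : GOK g) {u : E3} (hu : ‖u‖ = 1) (h1 : u 0 ^ 2 < 1) (t : ℝ) :
    sect (Body g) u t = ENNReal.ofReal (1 / Real.sqrt (1 - u 0 ^ 2) *
      (2 * ∫ x in (-2 : ℝ)..2, Real.sqrt (g x - (t - u 0 * x) ^ 2 / (1 - u 0 ^ 2)))) := by
  obtain ⟨a, b, Φ, hab, hu1, hu2, hΦ, hz⟩ := geo_frame hu
  have hc := geo_cont h
  have h0 : 0 < 1 - u 0 ^ 2 := by linarith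
  set S := Real.sqrt (1 - u 0 ^ 2) with hS
  have hS0 : 0 < S := Real.sqrt_pos.mpr h0
  have hS2 : S ^ 2 = 1 - u 0 ^ 2 := Real.sq_sqrt h0.le
  let f : ℝ → ℝ := fun x => g x - (t - u 0 * x) ^ 2 / (1 - u 0 ^ 2)
  have hf : Continuous f := by fun_prop
  have hn : ∀ x, 3 / 2 ≤ |x| → f x ≤ 0 := by
    intro x hx
    have := h.ng x hx
    have h2 : 0 ≤ (t - u 0 * x) ^ 2 / (1 - u 0 ^ 2) := by positivity
    simp only [f]
    linarith
  have e1 : {v : (ℝ ∙ u)ᗮ | (v : E3) + t • u ∈ Body g}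
      = Φ ⁻¹' {p : ℝ × ℝ | p.2 ^ 2 ≤ f (S * p.1 + t * u 0)} := by
    ext v
    have hv := hz v
    rw [Submodule.orthogonalProjectionOnto_mem_subspace_eq_self] at hv
    have ho : inner ℝ u (v : E3) = 0 := Submodule.mem_orthogonal_singleton_iff_inner_right.mp v.2
    rw [geo_inner, hu1, hu2] at ho
    rw [mem_preimage, hv]
    simp only [mem_ofPred_eq, Body, PiLp.add_apply, PiLp.smul_apply, smul_eq_mul]
    have e2 : S * (S * (v : E3) 0 - u 0 * (a * (v : E3) 1 + b * (v : E3) 2)) = (v : E3) 0 := by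
      linear_combination (v : E3) 0 * hS2 - u 0 * ho
    rw [e2, hu1, hu2]
    have e3 : (t - u 0 * ((v : E3) 0 + t * u 0)) ^ 2 / (1 - u 0 ^ 2)
        = (t * S + (a * (v : E3) 1 + b * (v : E3) 2)) ^ 2 := by
      have : t - u 0 * ((v : E3) 0 + t * u 0) = S * (t * S + (a * (v : E3) 1 + b * (v : E3) 2)) := by
        linear_combination (-t) * hS2 - ho
      rw [this, mul_pow, hS2]
      field_simp
    have e4 : ((v : E3) 1 + t * (S * a)) ^ 2 + ((v : E3) 2 + t * (S * b)) ^ 2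
        = (a * (v : E3) 2 - b * (v : E3) 1) ^ 2
          + (t * S + (a * (v : E3) 1 + b * (v : E3) 2)) ^ 2 := by
      linear_combination (t ^ 2 * S ^ 2 - (v : E3) 1 ^ 2 - (v : E3) 2 ^ 2) * hab
    simp only [f]
    rw [e3, e4, le_sub_iff_add_le]
  rw [sect, e1, hΦ.measure_preimage_equiv,
    geo_area (f := fun x => f (S * x + t * u 0)) (by fun_prop)]
  have hm : Measurable fun x => ENNReal.ofReal (2 * Real.sqrt (f x)) := by fun_prop
  have e5 : ∫⁻ x, ENNReal.ofReal (2 * Real.sqrt (f (S * x + t * u 0)))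
      = ENNReal.ofReal (1 / S) * ∫⁻ x, ENNReal.ofReal (2 * Real.sqrt (f x)) := by
    have h2 := Real.map_volume_mul_left hS0.ne'
    have h3 := lintegral_map (μ := volume)
      (f := fun x => ENNReal.ofReal (2 * Real.sqrt (f (x + t * u 0)))) (g := fun x : ℝ => S * x)
      (by fun_prop) (by fun_prop)
    rw [← h3, h2, lintegral_smul_measure,
      lintegral_add_right_eq_self (fun x => ENNReal.ofReal (2 * Real.sqrt (f x))),
      abs_of_pos (inv_pos.mpr hS0), one_div, smul_eq_mul]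
  rw [e5, geo_lint hf hn, ← ENNReal.ofReal_mul (by positivity)]

theorem PSet_one {g : ℝ → ℝ} (h : GOK g) (y : ℝ) :
    volume (PSet g 1 0) = ENNReal.ofReal (Ar g 0 y) := by
  have e : PSet g 1 0 = {p : ℝ × ℝ | p.2 ^ 2 ≤ g p.1} := by
    ext p
    constructor
    · rintro ⟨x, y, h1, h2⟩
      have : p.1 = x := by rw [h2]; ring
      show p.2 ^ 2 ≤ g p.1
      rw [this]
      nlinarith [sq_nonneg y]
    · intro hp
      exact ⟨p.1, 0, by simpa using hp, by ring⟩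
  rw [e, geo_area (geo_cont h), geo_lint (geo_cont h) (fun x hx => (h.ng x hx).le), Ar]
  simp

theorem geo_steep {g g' : ℝ → ℝ}
    (eq : ∀ x, |x| ≤ 99 / 100 → g x = g' x)
    (o : ∀ x, 0 ≤ g x → g x + x ^ 2 ≤ 1 + 2 / 10 ^ 5)
    (i' : ∀ x, |x| ≤ 1 → 1 - 2 / 10 ^ 5 - x ^ 2 ≤ g' x)
    {u : E3} (hu : ‖u‖ = 1) (h1 : 1 / 21 ≤ u 0 ^ 2) :
    ⨆ t, sect (Body g) u t ≤ ⨆ t, sect (Body g') u t := by
  have hn : u 0 ^ 2 + u 1 ^ 2 + u 2 ^ 2 = 1 := by rw [← geo_nsq, hu]; norm_num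
  have hu1 : |u 0| ≤ 1 := by
    rw [← sq_le_one_iff_abs_le_one]
    nlinarith [sq_nonneg (u 1), sq_nonneg (u 2)]
  refine iSup_le fun t => ?_
  have key : ∀ v : (ℝ ∙ u)ᗮ, (v : E3) + t • u ∈ Body g →
      (v : E3) 0 ^ 2 + (v : E3) 1 ^ 2 + (v : E3) 2 ^ 2 + t ^ 2 ≤ 1 + 2 / 10 ^ 5 := by
    intro v hv
    have ho : inner ℝ u (v : E3) = 0 := Submodule.mem_orthogonal_singleton_iff_inner_right.mp v.2
    rw [geo_inner] at ho
    simp only [mem_ofPred_eq, Body, PiLp.add_apply, PiLp.smul_apply, smul_eq_mul] at hv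
    have h2 := o _ (le_trans (by positivity) hv)
    have e : ((v : E3) 1 + t * u 1) ^ 2 + ((v : E3) 2 + t * u 2) ^ 2 + ((v : E3) 0 + t * u 0) ^ 2
        = (v : E3) 0 ^ 2 + (v : E3) 1 ^ 2 + (v : E3) 2 ^ 2 + t ^ 2 := by
      linear_combination 2 * t * ho + t ^ 2 * hn
    linarith
  by_cases ht : |t| ≤ 1 / 100
  · refine le_iSup_of_le t (measure_mono fun v hv => ?_)
    have hk := key v hv
    have ho : inner ℝ u (v : E3) = 0 := Submodule.mem_orthogonal_singleton_iff_inner_right.mp v.2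
    rw [geo_inner] at ho
    simp only [mem_ofPred_eq, Body, PiLp.add_apply, PiLp.smul_apply, smul_eq_mul] at hv ⊢
    have e : (v : E3) 0 ^ 2 + (u 1 * (v : E3) 2 - u 2 * (v : E3) 1) ^ 2
        = (1 - u 0 ^ 2) * ((v : E3) 0 ^ 2 + (v : E3) 1 ^ 2 + (v : E3) 2 ^ 2) := by
      linear_combination ((v : E3) 1 ^ 2 + (v : E3) 2 ^ 2) * hn
        + (u 0 * (v : E3) 0 - u 1 * (v : E3) 1 - u 2 * (v : E3) 2) * ho
    have h3 : (1 - u 0 ^ 2) * ((v : E3) 0 ^ 2 + (v : E3) 1 ^ 2 + (v : E3) 2 ^ 2)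
        ≤ 20 / 21 * (1 + 2 / 10 ^ 5) :=
      mul_le_mul (by linarith) (by nlinarith [sq_nonneg t]) (by positivity) (by norm_num)
    have h4 : |(v : E3) 0| ≤ 98 / 100 := by
      refine abs_le_of_sq_le_sq ?_ (by norm_num)
      nlinarith [sq_nonneg (u 1 * (v : E3) 2 - u 2 * (v : E3) 1)]
    have h5 : |t * u 0| ≤ 1 / 100 := by
      rw [abs_mul]
      nlinarith [abs_nonneg t, abs_nonneg (u 0)]
    rw [← eq _ ((abs_add_le _ _).trans (by linarith))]
    exact hv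
  · refine le_iSup_of_le 0 (measure_mono fun v hv => ?_)
    have hk := key v hv
    have ht2 : (1 / 100 : ℝ) ^ 2 ≤ t ^ 2 := by
      rw [← sq_abs t]
      exact pow_le_pow_left₀ (by norm_num) (not_le.mp ht).le 2
    simp only [mem_ofPred_eq, Body, zero_smul, add_zero]
    have h4 : |(v : E3) 0| ≤ 1 := by
      rw [← sq_le_one_iff_abs_le_one]
      nlinarith [sq_nonneg ((v : E3) 1), sq_nonneg ((v : E3) 2)]
    have := i' _ h4
    nlinarith

/-- steep directions: the maximal sections miss the caps -/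
theorem sect_steep {g g' : ℝ → ℝ} (h : GOK g) (h' : GOK g')
    (eq : ∀ x, |x| ≤ 99 / 100 → g x = g' x)
    (o : ∀ x, 0 ≤ g x → g x + x ^ 2 ≤ 1 + 2 / 10 ^ 5)
    (o' : ∀ x, 0 ≤ g' x → g' x + x ^ 2 ≤ 1 + 2 / 10 ^ 5)
    (i : ∀ x, |x| ≤ 1 → 1 - 2 / 10 ^ 5 - x ^ 2 ≤ g x)
    (i' : ∀ x, |x| ≤ 1 → 1 - 2 / 10 ^ 5 - x ^ 2 ≤ g' x)
    {u : E3} (hu : ‖u‖ = 1) (h1 : 1 / 21 ≤ u 0 ^ 2) :
    ⨆ t, sect (Body g) u t = ⨆ t, sect (Body g') u t :=
  le_antisymm (geo_steep eq o i' hu h1) (geo_steep (fun x hx => (eq x hx).symm) o' i hu h1)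

/-- flat directions: the supremum of the sections through `Ar` -/
theorem sect_sup {g : ℝ → ℝ} (h : GOK g) {u : E3} (hu : ‖u‖ = 1) (h1 : u 0 ^ 2 < 1) {m : ℝ}
    (hm : IsLUB (range (Ar g (u 0 ^ 2 / (1 - u 0 ^ 2)))) m) :
    ⨆ t, sect (Body g) u t = ENNReal.ofReal (1 / Real.sqrt (1 - u 0 ^ 2) * m) := by
  have hc := geo_cont h
  have h0 : 0 < 1 - u 0 ^ 2 := by linarith
  have hS0 : 0 < 1 / Real.sqrt (1 - u 0 ^ 2) := one_div_pos.mpr (Real.sqrt_pos.mpr h0)
  have e1 : ∀ y, sect (Body g) u (-(u 0 * y)) = ENNReal.ofReal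
      (1 / Real.sqrt (1 - u 0 ^ 2) * Ar g (u 0 ^ 2 / (1 - u 0 ^ 2)) y) := by
    intro y
    rw [sect_Body h hu h1, Ar]
    congr 3
    refine intervalIntegral.integral_congr fun x _ => ?_
    show Real.sqrt _ = Real.sqrt _
    congr 1
    ring
  apply le_antisymm
  · refine iSup_le fun t => ?_
    by_cases hz : u 0 = 0
    · rw [sect_Body h hu h1]
      refine ENNReal.ofReal_le_ofReal (mul_le_mul_of_nonneg_left ?_ hS0.le)
      refine le_trans ?_ (hm.1 ⟨0, rfl⟩)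
      rw [Ar]
      refine mul_le_mul_of_nonneg_left ?_ (by norm_num)
      refine intervalIntegral.integral_mono_on (by norm_num)
        (Continuous.intervalIntegrable (by fun_prop) _ _)
        (Continuous.intervalIntegrable (by fun_prop) _ _) fun x _ => Real.sqrt_le_sqrt ?_
      rw [hz]
      simp only [ne_eq, OfNat.ofNat_ne_zero, not_false_eq_true, zero_pow, zero_mul, sub_zero,
        div_one]
      linarith [sq_nonneg t]
    · have : t = -(u 0 * (-t / u 0)) := by field_simp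
      rw [this, e1]
      exact ENNReal.ofReal_le_ofReal (mul_le_mul_of_nonneg_left (hm.1 ⟨_, rfl⟩) hS0.le)
  · by_cases hT : ⨆ t, sect (Body g) u t = ⊤
    · rw [hT]
      exact le_top
    · rw [ENNReal.ofReal_le_iff_le_toReal hT, ← le_div_iff₀' hS0]
      refine hm.2 ?_
      rintro _ ⟨y, rfl⟩
      rw [le_div_iff₀' hS0, ← ENNReal.ofReal_le_iff_le_toReal hT, ← e1]
      exact le_iSup (fun t => sect (Body g) u t) _

theorem Body_translate {g g' : ℝ → ℝ} (h : GOK g) (h' : GOK g') (top : ∀ x, x ≠ 0 → g x < 1)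
    {v : E3} (hv : Body g' = (fun z => z + v) '' Body g) : ∀ x, 0 ≤ g x → g' x = g x := by
  have hm : ∀ z : E3, z + v ∈ Body g' ↔ z ∈ Body g := by
    intro z
    rw [hv]
    exact (add_left_injective v).mem_set_image
  have a1 := (hm !₂[0, 1, 0]).mpr (by simp [Body, h.g0])
  have a2 := (hm !₂[0, -1, 0]).mpr (by simp [Body, h.g0])
  simp only [Body, mem_ofPred_eq, PiLp.add_apply, Matrix.cons_val_zero, Matrix.cons_val_one,
    Matrix.cons_val, zero_add] at a1 a2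
  have b1 := h'.le (v 0)
  have v1 : v 1 = 0 := by
    have : v 1 ^ 2 = 0 := by nlinarith [sq_nonneg (v 1), sq_nonneg (v 2)]
    simpa using this
  have v2 : v 2 = 0 := by
    have : v 2 ^ 2 = 0 := by nlinarith [sq_nonneg (v 1), sq_nonneg (v 2)]
    simpa using this
  have a3 := (hm !₂[-v 0, 1, 0]).mp (by simp [Body, h'.g0, v1, v2])
  simp only [Body, mem_ofPred_eq, Matrix.cons_val_zero, Matrix.cons_val_one,
    Matrix.cons_val] at a3
  have v0 : v 0 = 0 := by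
    by_contra hc
    have := top (-v 0) (neg_ne_zero.mpr hc)
    linarith
  intro x hx
  have c1 := (hm !₂[x, Real.sqrt (g x), 0]).mpr (by simp [Body, Real.sq_sqrt hx])
  simp only [Body, mem_ofPred_eq, PiLp.add_apply, Matrix.cons_val_zero, Matrix.cons_val_one,
    Matrix.cons_val, v0, v1, v2, add_zero, Real.sq_sqrt hx] at c1
  have hx' : 0 ≤ g' x := by linarith
  have c2 := (hm !₂[x, Real.sqrt (g' x), 0]).mp (by simp [Body, v0, v1, v2, Real.sq_sqrt hx'])
  simp only [Body, mem_ofPred_eq, Matrix.cons_val_zero, Matrix.cons_val_one,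
    Matrix.cons_val, Real.sq_sqrt hx'] at c2
  linarith

theorem Body_neg (g : ℝ → ℝ) (v : E3) :
    (fun z => -z + v) '' Body g = (fun z => z + v) '' Body (fun x => g (-x)) := by
  ext w
  constructor
  · rintro ⟨z, hz, rfl⟩
    exact ⟨-z, by simpa [Body] using hz, rfl⟩
  · rintro ⟨z, hz, rfl⟩
    exact ⟨-z, by simpa [Body] using hz, by simp⟩

theorem GOK.neg {g : ℝ → ℝ} (h : GOK g) : GOK (fun x => g (-x)) where
  cc := ⟨convex_univ, fun x _ y _ a b ha hb hab => by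
    have := h.cc.2 (mem_univ (-x)) (mem_univ (-y)) ha hb hab
    simp only [smul_eq_mul] at this ⊢
    rwa [show -(a * x + b * y) = a * -x + b * -y by ring]⟩
  g0 := by simpa using h.g0
  le := fun x => h.le _
  ng := fun x hx => h.ng _ (by rwa [abs_neg])

theorem geo_scale {g g' : ℝ → ℝ} (h : GOK g) (h' : GOK g') {δ : ℝ} (h1 : δ ≤ 1)
    (hc : ∀ x, |x| ≤ 2 → |g x - g' x| ≤ δ) (S C : ℝ) :
    ENNReal.ofReal ((1 - δ) ^ 2) * volume (PSet g' S C) ≤ volume (PSet g S C) := by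
  have h0 : 0 ≤ δ := le_trans (abs_nonneg _) (hc 0 (by norm_num))
  have hr : 0 ≤ 1 - δ := by linarith
  have e := Measure.addHaar_smul_of_nonneg (volume : Measure (ℝ × ℝ)) hr (PSet g' S C)
  rw [show Module.finrank ℝ (ℝ × ℝ) = 2 by simp] at e
  rw [← e]
  refine measure_mono ?_
  rintro _ ⟨p, ⟨x, y, h2, h3⟩, rfl⟩
  have hx : 0 ≤ g' x := le_trans (by positivity) h2
  have h4 := abs_le.mp (hc x ((geo_lt h' hx).le.trans (by norm_num)))
  have h5 := h.cc.2 (mem_univ x) (mem_univ 0) hr h0 (by ring)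
  simp only [smul_eq_mul, mul_zero, add_zero, h.g0, mul_one] at h5
  refine ⟨(1 - δ) * x, (1 - δ) * y, ?_, ?_⟩
  · show ((1 - δ) * y) ^ 2 + ((1 - δ) * p.2) ^ 2 ≤ _
    have h6 : (1 - δ) ^ 2 * (y ^ 2 + p.2 ^ 2) ≤ (1 - δ) ^ 2 * g' x :=
      mul_le_mul_of_nonneg_left h2 (sq_nonneg _)
    have h7 : (1 - δ) * (g' x - δ) ≤ (1 - δ) * g x := mul_le_mul_of_nonneg_left (by linarith) hr
    have h8 : 0 ≤ (1 - δ) * δ * g' x := by positivity
    nlinarith [sq_nonneg δ]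
  · show (1 - δ) * p.1 = _
    rw [h3]
    ring

theorem geo_lim {δ : ℕ → ℝ} (hδ : Tendsto δ atTop (𝓝 0)) {V W : ENNReal}
    (h : ∀ n, δ n ≤ 1 → ENNReal.ofReal ((1 - δ n) ^ 2) * V ≤ W) : V ≤ W := by
  have h1 : Tendsto (fun n => (1 - δ n) ^ 2) atTop (𝓝 1) := by
    simpa using (hδ.const_sub 1).pow 2
  have h2 : Tendsto (fun n => ENNReal.ofReal ((1 - δ n) ^ 2) * V) atTop (𝓝 (1 * V)) := by
    refine ENNReal.Tendsto.mul_const ?_ (Or.inl one_ne_zero)
    simpa using ENNReal.tendsto_ofReal h1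
  rw [one_mul] at h2
  refine le_of_tendsto h2 ?_
  filter_upwards [hδ.eventually (eventually_le_nhds one_pos)] with n hn using h n hn

/-- brightness passes to the limit -/
theorem BrEq.limit {g : ℕ → ℝ → ℝ} {g' k : ℝ → ℝ} {δ : ℕ → ℝ} (h : ∀ n, GOK (g n)) (h' : GOK g')
    (hδ : Tendsto δ atTop (𝓝 0)) (hc : ∀ n x, |x| ≤ 2 → |g n x - g' x| ≤ δ n)
    (hb : ∀ n, BrEq (g n) k) : BrEq g' k := by
  intro S C hS hC hSC
  apply le_antisymm
  · refine geo_lim hδ fun n hn => ?_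
    rw [← hb n S C hS hC hSC]
    exact geo_scale (h n) h' hn (hc n) S C
  · refine geo_lim hδ fun n hn => ?_
    rw [← hb n S C hS hC hSC]
    exact geo_scale h' (h n) hn (fun x hx => by rw [abs_sub_comm]; exact hc n x hx) S C

end Bon3
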