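import Pool.Agent.Lib.MP_3dbf58_gt.PCs
import Pool.Agent.Lib.MP_3dbf58_gt.CapS

open Set Filter Topology MeasureTheory Metric

noncomputable section

namespace Bon3

/-- the correction term of the criticality function -/
private def hlD (Ip Im : ℂ × ℂ × ℂ → ℂ) (p : ℂ × ℂ × ℂ) : ℂ :=
  (Ip p - Ip (0, p.2) - Im (p.1, p.2.1, -p.2.2) + Im (0, p.2.1, -p.2.2)) / Real.pi

private theorem hl_Cfl (Cf : ℂ × ℂ → ℂ) (Ip Im : ℂ × ℂ × ℂ → ℂ) (p : ℂ × ℂ × ℂ) :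
    Cfl Cf Ip Im p = Cf p.2 + hlD Ip Im p := rfl

private theorem hl_neg {θ Λ r : ℝ} {e : ℂ → ℂ} {p : ℂ × ℂ × ℂ} (hp : p ∈ G3 θ Λ r e) :
    (p.1, p.2.1, -p.2.2) ∈ G3 θ Λ r (fun ξ => -e ξ) := by
  refine ⟨hp.1, hp.2.1, ?_⟩
  have h := hp.2.2
  have e1 : -p.2.2 - -e p.2.1 = -(p.2.2 - e p.2.1) := by ring
  show ‖-p.2.2 - -e p.2.1‖ < r * ‖p.2.1‖
  rw [e1, norm_neg]
  exact h

private theorem hl_zero {θ Λ r : ℝ} {e : ℂ → ℂ} {p : ℂ × ℂ × ℂ} (hp : p ∈ G3 θ Λ r e) :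
    ((0 : ℂ), p.2) ∈ G3 θ Λ r e := by
  refine ⟨hp.1, ?_, hp.2.2⟩
  have h := hp.2.1
  have h0 : 0 ≤ ‖p.1‖ * ‖p.2.1‖ ^ 2 := by positivity
  show ‖(0 : ℂ)‖ * ‖p.2.1‖ ^ 2 < Λ
  rw [norm_zero, zero_mul]
  linarith

private theorem hl_schwarz {θ Λ r : ℝ} {e : ℂ → ℂ} {I : ℂ × ℂ × ℂ → ℂ}
    (hI : HC I (G3 θ Λ r e)) (I0 : ∀ p ∈ G3 θ Λ r e, ‖I p‖ ≤ 1) {p : ℂ × ℂ × ℂ}
    (hp : p ∈ G3 θ Λ r e) : ‖I p - I (0, p.2)‖ ≤ 2 / Λ * (‖p.1‖ * ‖p.2.1‖ ^ 2) := by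
  have hne : p.2.1 ≠ 0 := Sec_ne hp.1
  have hn : 0 < ‖p.2.1‖ ^ 2 := pow_pos (norm_pos_iff.mpr hne) 2
  have hm : MapsTo (fun l : ℂ => (l, p.2)) (ball (0 : ℂ) (Λ / ‖p.2.1‖ ^ 2)) (G3 θ Λ r e) := by
    intro l hl
    refine ⟨hp.1, ?_, hp.2.2⟩
    rw [mem_ball_zero_iff, lt_div_iff₀ hn] at hl
    exact hl
  have hd : DifferentiableOn ℂ (fun l : ℂ => I (l, p.2)) (ball (0 : ℂ) (Λ / ‖p.2.1‖ ^ 2)) :=
    hI _ _ isOpen_ball (by fun_prop) hm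
  have hz : ‖p.1‖ < Λ / ‖p.2.1‖ ^ 2 := by
    rw [lt_div_iff₀ hn]
    exact hp.2.1
  have h := schwarz1 hd (fun s hs => I0 _ (hm hs)) hz
  have e1 : 2 * 1 / (Λ / ‖p.2.1‖ ^ 2) * ‖p.1‖ = 2 / Λ * (‖p.1‖ * ‖p.2.1‖ ^ 2) := by
    rw [div_div_eq_mul_div]
    ring
  rw [e1] at h
  exact h

private theorem hlD_HC {θ Λ r : ℝ} {e : ℂ → ℂ} {Ip Im : ℂ × ℂ × ℂ → ℂ}
    (hp : HC Ip (G3 θ Λ r e)) (hm : HC Im (G3 θ Λ r (fun ξ => -e ξ))) :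
    HC (hlD Ip Im) (G3 θ Λ r e) := by
  have h1 : HC (fun p : ℂ × ℂ × ℂ => Ip (0, p.2)) (G3 θ Λ r e) :=
    HC.comp (g := fun p : ℂ × ℂ × ℂ => ((0 : ℂ), p.2)) hp (HC.of_diff (by fun_prop))
      (fun p hq => hl_zero hq)
  have h2 : HC (fun p : ℂ × ℂ × ℂ => Im (p.1, p.2.1, -p.2.2)) (G3 θ Λ r e) :=
    HC.comp (g := fun p : ℂ × ℂ × ℂ => (p.1, p.2.1, -p.2.2)) hm (HC.of_diff (by fun_prop))
      (fun p hq => hl_neg hq)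
  have h3 : HC (fun p : ℂ × ℂ × ℂ => Im (0, p.2.1, -p.2.2)) (G3 θ Λ r e) :=
    HC.comp (g := fun p : ℂ × ℂ × ℂ => ((0 : ℂ), p.2.1, -p.2.2)) hm (HC.of_diff (by fun_prop))
      (fun p hq => hl_zero (hl_neg hq))
  have hpi : ((Real.pi : ℝ) : ℂ) ≠ 0 := Complex.ofReal_ne_zero.mpr Real.pi_ne_zero
  exact HC.div (((hp.sub h1).sub h2).add h3) (HC.const _) (fun _ _ => hpi)

private theorem hlD_norm {θ Λ r : ℝ} {e : ℂ → ℂ} {Ip Im : ℂ × ℂ × ℂ → ℂ}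
    (hp : HC Ip (G3 θ Λ r e)) (hm : HC Im (G3 θ Λ r (fun ξ => -e ξ)))
    (p0 : ∀ p ∈ G3 θ Λ r e, ‖Ip p‖ ≤ 1) (m0 : ∀ p ∈ G3 θ Λ r (fun ξ => -e ξ), ‖Im p‖ ≤ 1)
    {p : ℂ × ℂ × ℂ} (h : p ∈ G3 θ Λ r e) :
    ‖hlD Ip Im p‖ ≤ 2 / Λ * (‖p.1‖ * ‖p.2.1‖ ^ 2) := by
  have h1 := hl_schwarz hp p0 h
  have h2 := hl_schwarz hm m0 (hl_neg h)
  have hpi := Real.pi_gt_three
  have e1 : Ip p - Ip (0, p.2) - Im (p.1, p.2.1, -p.2.2) + Im (0, p.2.1, -p.2.2) =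
      (Ip p - Ip (0, p.2)) - (Im (p.1, p.2.1, -p.2.2) - Im (0, p.2.1, -p.2.2)) := by ring
  have h3 := norm_sub_le (Ip p - Ip (0, p.2)) (Im (p.1, p.2.1, -p.2.2) - Im (0, p.2.1, -p.2.2))
  have h4 : 0 ≤ 2 / Λ * (‖p.1‖ * ‖p.2.1‖ ^ 2) := (norm_nonneg _).trans h1
  unfold hlD
  rw [norm_div, Complex.norm_real, Real.norm_eq_abs, abs_of_pos Real.pi_pos,
    div_le_iff₀ Real.pi_pos, e1]
  simp only at h2
  nlinarith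

private theorem hlD_lip {θ Λ r : ℝ} {e : ℂ → ℂ} {Ip Im : ℂ × ℂ × ℂ → ℂ}
    (hp : HC Ip (G3 θ Λ r e)) (hm : HC Im (G3 θ Λ r (fun ξ => -e ξ)))
    (p0 : ∀ p ∈ G3 θ Λ r e, ‖Ip p‖ ≤ 1) (m0 : ∀ p ∈ G3 θ Λ r (fun ξ => -e ξ), ‖Im p‖ ≤ 1)
    {l ξ y y' : ℂ} (hξ : ξ ∈ Sec θ) (hl : ‖l‖ * ‖ξ‖ ^ 2 < Λ)
    (hy : ‖y - e ξ‖ < 3 / 4 * (r * ‖ξ‖)) (hy' : ‖y' - e ξ‖ < 3 / 4 * (r * ‖ξ‖)) :
    ‖hlD Ip Im (l, ξ, y) - hlD Ip Im (l, ξ, y')‖ ≤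
      10 / (Λ * r) * (‖l‖ * ‖ξ‖) * ‖y - y'‖ := by
  have hne : ξ ≠ 0 := Sec_ne hξ
  have hn : 0 < ‖ξ‖ := norm_pos_iff.mpr hne
  have hmp : MapsTo (fun s : ℂ => (l, ξ, s)) (ball (e ξ) (r * ‖ξ‖)) (G3 θ Λ r e) := by
    intro s hs
    exact ⟨hξ, hl, mem_ball_iff_norm.mp hs⟩
  have hd : DifferentiableOn ℂ (fun s : ℂ => hlD Ip Im (l, ξ, s)) (ball (e ξ) (r * ‖ξ‖)) :=
    hlD_HC hp hm _ _ isOpen_ball (by fun_prop) hmp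
  have h := lip_ball (M := 2 / Λ * (‖l‖ * ‖ξ‖ ^ 2)) hd
    (fun s hs => hlD_norm hp hm p0 m0 (hmp hs)) (mem_ball_iff_norm.mpr hy)
    (mem_ball_iff_norm.mpr hy')
  have e1 : 5 * (2 / Λ * (‖l‖ * ‖ξ‖ ^ 2)) / (r * ‖ξ‖) = 10 / (Λ * r) * (‖l‖ * ‖ξ‖) := by
    field_simp
    ring
  rw [e1] at h
  exact h

private theorem hlD_real {q θ d Λ : ℝ} {u v e : ℂ → ℂ} {Tp Hp Tm Hm : ℂ × ℂ → ℂ}
    {φp Ip φm Im : ℂ × ℂ × ℂ → ℂ} (cp : CS q θ d Λ u e Tp Hp φp Ip)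
    (cm : CS q θ d Λ v (fun ξ => -e ξ) Tm Hm φm Im) {t x y : ℝ}
    (h : ((t : ℂ), (x : ℂ), (y : ℂ)) ∈ G3 θ Λ (d / 1000) e) :
    (hlD Ip Im (t, x, y)).im = 0 := by
  have h1 := (cp.rl t x y h).2
  have h2 := (cp.rl 0 x y (by simpa using hl_zero h)).2
  have h3 := (cm.rl t x (-y) (by simpa using hl_neg h)).2
  have h4 := (cm.rl 0 x (-y) (by simpa using hl_zero (hl_neg h))).2
  simp only [Complex.ofReal_zero, Complex.ofReal_neg] at h2 h3 h4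
  unfold hlD
  rw [Complex.div_ofReal_im]
  simp only [Complex.add_im, Complex.sub_im, h1, h2, h3, h4]
  simp

theorem hl_exists {P : Par} {θ d B a : ℝ} {S : St} (N : Num P θ d B a) (h : InvC P θ d B S)
    {Tp Hp Tm Hm : ℂ × ℂ → ℂ} {φp Ip φm Im : ℂ × ℂ × ℂ → ℂ}
    (cp : CS P.q (θ - 3 * d) d (d ^ 4 / a / 8) S.up S.h Tp Hp φp Ip)
    (cm : CS P.q (θ - 3 * d) d (d ^ 4 / a / 8) S.um (fun ξ => -S.h ξ) Tm Hm φm Im) :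
    ∃ hl, HL (θ - 3 * d) d (d ^ 6 / a) (1 / 8 + (B + a / d ^ 12)) S.h S.Cf Ip Im hl := by
  obtain ⟨-, hd7, hB, -, -, hη, h100, -⟩ := N.small
  have d0 := N.d0
  have a0 := N.a0
  have B0 := N.B0
  have hth : th0 = 1 / 10 ^ 6 := rfl
  have hdel : del1 = 1 / 10 ^ 7 := rfl
  have t0 : 0 ≤ θ - 3 * d := by
    have := N.th1
    rw [hth] at this
    linarith
  have t1 : θ - 3 * d ≤ th0 := by
    have := N.th2
    linarith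
  have hsub : Sec (θ - 3 * d) ⊆ Sec θ := Sec_mono t0 (by linarith)
  have hn2 : ∀ ξ ∈ Sec (θ - 3 * d), 0 < ‖ξ‖ ∧ ‖ξ‖ ≤ 2 := by
    intro ξ hξ
    refine ⟨norm_pos_iff.mpr (Sec_ne hξ), ?_⟩
    have := (Sec_norm t0 t1 hξ).2.1
    rw [hth] at t1
    linarith
  have hB1 : B ≤ 1 / 8 := by
    have e0 := N.par.et1
    rw [hth] at hB
    rw [hdel] at hη
    nlinarith
  rw [hdel] at hd7
  have hd2 : d ^ 2 ≤ d / 10 ^ 7 := by nlinarith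
  have hΛ : 2 * (d ^ 6 / a) ≤ d ^ 4 / a / 8 := by
    have e1 : d ^ 6 / a = d ^ 2 * (d ^ 4 / a) := by ring
    have h4 : 0 < d ^ 4 / a := by positivity
    rw [e1]
    nlinarith
  have hG2 : ∀ p ∈ G1 (θ - 3 * d) (d ^ 6 / a), ‖p.1‖ * ‖p.2‖ ^ 2 < d ^ 4 / a / 8 := by
    intro p hp
    obtain ⟨h1, h2⟩ := hn2 _ hp.1
    have h3 := hp.2
    have h4 : 0 ≤ ‖p.1‖ * ‖p.2‖ := by positivity
    calc ‖p.1‖ * ‖p.2‖ ^ 2 = (‖p.1‖ * ‖p.2‖) * ‖p.2‖ := by ring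
      _ ≤ (‖p.1‖ * ‖p.2‖) * 2 := mul_le_mul_of_nonneg_left h2 h4
      _ < _ := by linarith
  have hDH := hlD_HC cp.hI cm.hI
  have hin : ∀ p ∈ G1 (θ - 3 * d) (d ^ 6 / a), ∀ y : ℂ,
      ‖y - S.h p.2‖ < 3 / 4 * (d / 1000 * ‖p.2‖) →
      (p.1, p.2, y) ∈ G3 (θ - 3 * d) (d ^ 4 / a / 8) (d / 1000) S.h ∧
        (p.2, y) ∈ Dom θ (d / 1000) S.h := by
    intro p hp y hy
    have h1 := (hn2 _ hp.1).1
    have h2 : 0 < d / 1000 * ‖p.2‖ := by positivity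
    have h3 : ‖y - S.h p.2‖ < d / 1000 * ‖p.2‖ := by linarith
    exact ⟨⟨hp.1, hG2 p hp, h3⟩, ⟨hsub hp.1, h3⟩⟩
  have hsm : ∀ p ∈ G1 (θ - 3 * d) (d ^ 6 / a), ∀ y : ℂ,
      ‖y - S.h p.2‖ ≤ d / 8000 * ‖p.2‖ → ‖y - S.h p.2‖ < 3 / 4 * (d / 1000 * ‖p.2‖) := by
    intro p hp y hy
    have h1 := (hn2 _ hp.1).1
    have h2 : 0 < d * ‖p.2‖ := by positivity
    linarith
  have hlip : ∀ p ∈ G1 (θ - 3 * d) (d ^ 6 / a), ∀ y y' : ℂ,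
      ‖y - S.h p.2‖ < 3 / 4 * (d / 1000 * ‖p.2‖) → ‖y' - S.h p.2‖ < 3 / 4 * (d / 1000 * ‖p.2‖) →
      ‖Cfl S.Cf Ip Im (p.1, p.2, y) - Cfl S.Cf Ip Im (p.1, p.2, y') - (y - y')‖ ≤
        (1 / 8 + B + 80000 * a / d ^ 5 * (‖p.1‖ * ‖p.2‖)) * ‖y - y'‖ := by
    intro p hp y y' hy hy'
    have h1 := hlD_lip cp.hI cm.hI cp.I0 cm.I0 hp.1 (hG2 p hp) hy hy'
    have h2 := h.C1 p.2 y y' (hin p hp y hy).2 (hin p hp y' hy').2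
    have e1 : 10 / (d ^ 4 / a / 8 * (d / 1000)) = 80000 * a / d ^ 5 := by
      field_simp
      ring
    rw [e1] at h1
    have e2 : Cfl S.Cf Ip Im (p.1, p.2, y) - Cfl S.Cf Ip Im (p.1, p.2, y') - (y - y') =
        (S.Cf (p.2, y) - S.Cf (p.2, y') - (y - y')) +
          (hlD Ip Im (p.1, p.2, y) - hlD Ip Im (p.1, p.2, y')) := by
      rw [hl_Cfl, hl_Cfl]
      ring
    rw [e2]
    refine (norm_add_le _ _).trans ?_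
    linarith
  have hc : HC (fun p : ℂ × ℂ => S.h p.2) (G1 (θ - 3 * d) (d ^ 6 / a)) :=
    HC.comp (g := fun p : ℂ × ℂ => p.2) (HC.of_diff h.cp.de) (HC.of_diff (by fun_prop))
      (fun p hp => hsub hp.1)
  have hΦ : HC (fun x : (ℂ × ℂ) × ℂ => x.2 - Cfl S.Cf Ip Im (x.1.1, x.1.2, x.2))
      {x | x.1 ∈ G1 (θ - 3 * d) (d ^ 6 / a) ∧ ‖x.2 - S.h x.1.2‖ ≤ d / 8000 * ‖x.1.2‖} := by
    refine HC.sub (HC.of_diff (by fun_prop)) (HC.add ?_ ?_)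
    · exact HC.comp (g := fun x : (ℂ × ℂ) × ℂ => (x.1.2, x.2)) h.hC (HC.of_diff (by fun_prop))
        (fun x hx => (hin _ hx.1 _ (hsm _ hx.1 _ hx.2)).2)
    · exact HC.comp (g := fun x : (ℂ × ℂ) × ℂ => (x.1.1, x.1.2, x.2)) hDH
        (HC.of_diff (by fun_prop)) (fun x hx => (hin _ hx.1 _ (hsm _ hx.1 _ hx.2)).1)
  have hreal : ∀ t x y : ℝ, ((t : ℂ), (x : ℂ)) ∈ G1 (θ - 3 * d) (d ^ 6 / a) →
      ‖(y : ℂ) - S.h x‖ < 3 / 4 * (d / 1000 * ‖(x : ℂ)‖) →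
      (Cfl S.Cf Ip Im (t, x, y)).im = 0 := by
    intro t x y hp hy
    obtain ⟨h1, h2⟩ := hin _ hp y hy
    rw [hl_Cfl, Complex.add_im, hlD_real cp cm h1, add_zero]
    exact h.rC x y h2
  obtain ⟨hl, hH, hfix, hR⟩ := HC.fixed (G := G1 (θ - 3 * d) (d ^ 6 / a))
    (c := fun p : ℂ × ℂ => S.h p.2) (r := fun p : ℂ × ℂ => d / 8000 * ‖p.2‖) (r0 := d / 8000 * 2)
    (Φ := fun x : (ℂ × ℂ) × ℂ => x.2 - Cfl S.Cf Ip Im (x.1.1, x.1.2, x.2))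
    {p | p.1.im = 0 ∧ p.2.im = 0} hc
    (fun p hp => ⟨by positivity,
      mul_le_mul_of_nonneg_left (hn2 _ hp.1).2 (by positivity)⟩) hΦ
    (by
      intro p hp
      obtain ⟨h1, h2⟩ := hn2 _ hp.1
      have hy : ‖S.h p.2 - S.h p.2‖ < 3 / 4 * (d / 1000 * ‖p.2‖) := by
        rw [sub_self, norm_zero]
        positivity
      have h3 := hlD_norm cp.hI cm.hI cp.I0 cm.I0 (hin p hp _ hy).1
      have e1 : S.h p.2 - Cfl S.Cf Ip Im (p.1, p.2, S.h p.2) - S.h p.2 =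
          -hlD Ip Im (p.1, p.2, S.h p.2) := by
        rw [hl_Cfl]
        simp only
        rw [h.C0 _ (hsub hp.1)]
        ring
      simp only at h3 ⊢
      rw [e1, norm_neg]
      refine h3.trans ?_
      have h4 := hp.2
      have e2 : 2 / (d ^ 4 / a / 8) * (‖p.1‖ * ‖p.2‖ ^ 2) =
          16 * (a / d ^ 4) * (‖p.1‖ * ‖p.2‖) * ‖p.2‖ := by
        field_simp
        ring
      have h5 : 16 * (a / d ^ 4) * (‖p.1‖ * ‖p.2‖) ≤ 16 * (a / d ^ 4) * (d ^ 6 / a) :=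
        mul_le_mul_of_nonneg_left h4.le (by positivity)
      have e3 : 16 * (a / d ^ 4) * (d ^ 6 / a) = 16 * d ^ 2 := by
        field_simp
      rw [e2]
      have h6 : 16 * (a / d ^ 4) * (‖p.1‖ * ‖p.2‖) ≤ d / 8000 / 2 := by linarith
      calc _ ≤ d / 8000 / 2 * ‖p.2‖ := mul_le_mul_of_nonneg_right h6 h1.le
        _ = _ := by ring)
    (by
      intro p hp y y' hy hy'
      have h1 := hlip p hp y y' (hsm p hp y hy) (hsm p hp y' hy')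
      have e1 : y - Cfl S.Cf Ip Im (p.1, p.2, y) - (y' - Cfl S.Cf Ip Im (p.1, p.2, y')) =
          -(Cfl S.Cf Ip Im (p.1, p.2, y) - Cfl S.Cf Ip Im (p.1, p.2, y') - (y - y')) := by ring
      simp only
      rw [e1, norm_neg]
      refine h1.trans (mul_le_mul_of_nonneg_right ?_ (norm_nonneg _))
      have h5 : 80000 * a / d ^ 5 * (‖p.1‖ * ‖p.2‖) ≤ 80000 * a / d ^ 5 * (d ^ 6 / a) :=
        mul_le_mul_of_nonneg_left hp.2.le (by positivity)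
      have e3 : 80000 * a / d ^ 5 * (d ^ 6 / a) = 80000 * d := by
        field_simp
      linarith)
    (by
      rintro ⟨l, ξ⟩ hp ⟨hl, hξ⟩
      lift l to ℝ using hl
      lift ξ to ℝ using hξ
      refine ⟨h.cp.re ξ (hsub hp.1), fun y hy => ?_⟩
      simp only [Complex.sub_im, Complex.ofReal_im]
      rw [hreal l ξ y hp (hsm _ hp _ hy), sub_zero])
  have h1G : ∀ ξ ∈ Sec (θ - 3 * d), ((1 : ℂ), ξ) ∈ G1 (θ - 3 * d) (d ^ 6 / a) := by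
    intro ξ hξ
    refine ⟨hξ, ?_⟩
    have := (hn2 ξ hξ).2
    show ‖(1 : ℂ)‖ * ‖ξ‖ < d ^ 6 / a
    rw [norm_one, one_mul]
    linarith
  have hD1 : ∀ ξ y : ℂ, (ξ, y) ∈ Dom (θ - 3 * d) (d / 2 / 1000) (sl hl 1) →
      ‖y - S.h ξ‖ < 3 / 4 * (d / 1000 * ‖ξ‖) := by
    intro ξ y hy
    have h1 : ‖y - hl (1, ξ)‖ < d / 2 / 1000 * ‖ξ‖ := hy.2
    have h2 : ‖hl (1, ξ) - S.h ξ‖ ≤ d / 8000 * ‖ξ‖ := (hfix _ (h1G ξ hy.1)).1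
    have h3 := norm_sub_le_norm_sub_add_norm_sub y (hl (1, ξ)) (S.h ξ)
    have h4 : 0 < d * ‖ξ‖ := mul_pos d0 (hn2 ξ hy.1).1
    linarith
  refine ⟨hl, hH, ?_, fun p hp => (hfix p hp).1, ?_, ?_, ?_, ?_, ?_⟩
  · intro t x hp
    exact hR _ hp ⟨Complex.ofReal_im t, Complex.ofReal_im x⟩
  · intro ξ hξ
    have hp : ((0 : ℂ), ξ) ∈ G1 (θ - 3 * d) (d ^ 6 / a) := by
      refine ⟨hξ, ?_⟩
      show ‖(0 : ℂ)‖ * ‖ξ‖ < d ^ 6 / a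
      rw [norm_zero, zero_mul]
      linarith
    refine ((hfix _ hp).2.2 (S.h ξ) ?_ ?_).symm
    · simp only [sub_self, norm_zero]
      positivity
    · simp only [hl_Cfl, hlD]
      rw [h.C0 _ (hsub hξ)]
      ring
  · intro p hp
    have h1 := (hfix p hp).2.1
    simp only at h1
    linear_combination -h1
  · refine HC.add ?_ ?_
    · exact h.hC.mono (fun p hp => (hin _ (h1G _ hp.1) _ (hD1 _ _ hp)).2)
    · exact HC.comp (g := fun p : ℂ × ℂ => ((1 : ℂ), p)) hDH (HC.of_diff (by fun_prop))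
        (fun p hp => (hin _ (h1G _ hp.1) _ (hD1 _ _ hp)).1)
  · intro x y hp
    have h1 := hreal 1 x y (by simpa using h1G _ hp.1) (hD1 _ _ hp)
    simpa using h1
  · intro ξ y y' hy hy'
    have h1 := hlip _ (h1G ξ hy.1) y y' (hD1 _ _ hy) (hD1 _ _ hy')
    refine h1.trans (mul_le_mul_of_nonneg_right ?_ (norm_nonneg _))
    have h2 := (hn2 ξ hy.1).2
    have h3 : 80000 * a / d ^ 5 * (‖(1 : ℂ)‖ * ‖ξ‖) ≤ 80000 * a / d ^ 5 * 2 := by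
      rw [norm_one, one_mul]
      exact mul_le_mul_of_nonneg_left h2 (by positivity)
    have e1 : 80000 * a / d ^ 5 * 2 = 160000 * d ^ 7 * (a / d ^ 12) := by
      field_simp
      ring
    have h4 : d ^ 7 ≤ d := by
      have : d ^ 7 ≤ d ^ 1 := pow_le_pow_of_le_one d0.le (by linarith) (by norm_num)
      simpa using this
    have h5 : 0 < a / d ^ 12 := by positivity
    have h6 : 160000 * d ^ 7 * (a / d ^ 12) ≤ 1 * (a / d ^ 12) :=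
      mul_le_mul_of_nonneg_right (by linarith) h5.le
    simp only at h3 ⊢
    linarith

end Bon3
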