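import Pool.Agent.Lib.MP_3dbf58_gt.Tool

open Set Filter Topology MeasureTheory Metric

noncomputable section

namespace Bon3

/-! ### Mean value estimates on a segment -/

theorem lc_mv {e : ℂ → ℂ} {O : Set ℂ} (op : IsOpen O) (de : DifferentiableOn ℂ e O) {a b c : ℂ}
    {K : ℝ} (hs : segment ℝ b a ⊆ O) (hK : ∀ x ∈ segment ℝ b a, ‖deriv e x - c‖ ≤ K) :
    ‖e a - e b - c * (a - b)‖ ≤ K * ‖a - b‖ := by
  have h := (convex_segment b a).norm_image_sub_le_of_norm_hasDerivWithin_le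
    (f := fun x => e x - c * x) (f' := fun x => deriv e x - c)
    (fun x hx => by
      have h1 := (de.differentiableAt (op.mem_nhds (hs hx))).hasDerivAt
      have h2 : HasDerivAt (fun x : ℂ => c * x) c x := by
        simpa using (hasDerivAt_id x).const_mul c
      exact (h1.sub h2).hasDerivWithinAt) hK (left_mem_segment ℝ b a) (right_mem_segment ℝ b a)
  have e1 : e a - c * a - (e b - c * b) = e a - e b - c * (a - b) := by ring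
  rw [e1] at h
  exact h

theorem lc_dd {e : ℂ → ℂ} {O : Set ℂ} (op : IsOpen O) (de : DifferentiableOn ℂ e O) {a b c : ℂ}
    {K : ℝ} (hab : a ≠ b) (hs : segment ℝ b a ⊆ O)
    (hK : ∀ x ∈ segment ℝ b a, ‖deriv e x - c‖ ≤ K) : ‖dd e a b - c‖ ≤ K := by
  have h := lc_mv op de hs hK
  have hne : a - b ≠ 0 := sub_ne_zero.mpr hab
  have e1 : dd e a b - c = (e a - e b - c * (a - b)) / (a - b) := by
    unfold dd
    field_simp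
  rw [e1, norm_div, div_le_iff₀ (norm_pos_iff.mpr hne)]
  exact h

theorem lc_t2 {e : ℂ → ℂ} {O : Set ℂ} (op : IsOpen O) (de : DifferentiableOn ℂ e O) {a b : ℂ}
    {K : ℝ} (hab : a ≠ b) (hs : segment ℝ b a ⊆ O)
    (hK : ∀ x ∈ segment ℝ b a, ‖deriv (deriv e) x‖ ≤ K) :
    ‖(deriv e a - dd e a b) / (a - b)‖ ≤ K := by
  have hne : a - b ≠ 0 := sub_ne_zero.mpr hab
  have K0 : 0 ≤ K := (norm_nonneg _).trans (hK a (right_mem_segment ℝ b a))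
  have h1 : ∀ x ∈ segment ℝ b a, ‖deriv e x - deriv e a‖ ≤ K * ‖a - b‖ := by
    intro x hx
    have hsub : segment ℝ x a ⊆ segment ℝ b a :=
      (convex_segment b a).segment_subset hx (right_mem_segment ℝ b a)
    have h2 := lc_mv (c := 0) op (de.deriv op) (hsub.trans hs)
      (fun y hy => by rw [sub_zero]; exact hK y (hsub hy))
    rw [zero_mul, sub_zero] at h2
    rw [segment_symm] at hx
    have h3 := norm_sub_le_of_mem_segment hx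
    rw [norm_sub_rev, norm_sub_rev b a] at h3
    rw [norm_sub_rev]
    exact h2.trans (mul_le_mul_of_nonneg_left h3 K0)
  have h2 := lc_dd op de hab hs h1
  rw [norm_div, div_le_iff₀ (norm_pos_iff.mpr hne), norm_sub_rev]
  exact h2

theorem lc_seg {ξ x : ℂ} {v t : ℝ} (hvt : v ≤ t)
    (hx : x ∈ segment ℝ ((v : ℂ) * ξ) ((t : ℂ) * ξ)) : ∃ τ : ℝ, v ≤ τ ∧ τ ≤ t ∧ x = τ * ξ := by
  obtain ⟨α, β, hα, hβ, hs, rfl⟩ := hx
  have e1 : α = 1 - β := by linarith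
  have h1 := mul_nonneg hβ (sub_nonneg.mpr hvt)
  have h2 := mul_nonneg hα (sub_nonneg.mpr hvt)
  refine ⟨α * v + β * t, by rw [e1]; linarith, by rw [e1] at h2 ⊢; linarith, ?_⟩
  rw [Complex.real_smul, Complex.real_smul]
  push_cast
  ring

/-! ### Algebraic bounds -/

theorem lc_nn {Z A D Δ : ℂ} (hZ : ‖Z - 1‖ ≤ 1 / 20) (hA : ‖A‖ ≤ 101 / 100) (hD : ‖D‖ ≤ 1 / 20)
    (hΔ : ‖Δ‖ ≤ 3 / 50) :
    ‖Z ^ 2 - A * D * (2 * Z + Δ) - 1‖ ≤ 1 / 4 ∧ ‖2 * Z + Δ‖ ≤ 54 / 25 := by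
  have h2 : ‖(2 : ℂ)‖ ≤ 2 := by simp
  have h1 : ‖2 * Z + Δ‖ ≤ 54 / 25 := by
    have e1 : 2 * Z + Δ = 2 * (Z - 1) + 2 + Δ := by ring
    rw [e1]
    exact (norm_add_le_of_le (norm_add_le_of_le (norm_mul_le_of_le h2 hZ) h2) hΔ).trans
      (by norm_num)
  refine ⟨?_, h1⟩
  have e1 : Z ^ 2 - A * D * (2 * Z + Δ) - 1 =
      (Z - 1) * (Z - 1) + 2 * (Z - 1) - A * D * (2 * Z + Δ) := by ring
  rw [e1]
  exact (norm_sub_le_of_le (norm_add_le_of_le (norm_mul_le_of_le hZ hZ) (norm_mul_le_of_le h2 hZ))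
    (norm_mul_le_of_le (norm_mul_le_of_le hA hD) h1)).trans (by norm_num)

theorem lc_isq {z : ℂ} (h : ‖z - 1‖ ≤ 1 / 4) : z ∈ Complex.slitPlane ∧ ‖isq z‖ ≤ 3 / 2 := by
  refine ⟨slit_of_near (by linarith), ?_⟩
  have h1 := (isq_near (z := z) (by linarith)).1
  have e1 : isq z = (isq z - 1) + 1 := by ring
  rw [e1]
  refine (norm_add_le _ _).trans ?_
  rw [norm_one]
  linarith

theorem lc_isq_conj {z : ℂ} (h : ‖z - 1‖ ≤ 1 / 4) (hr : (starRingEnd ℂ) z = z) :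
    (starRingEnd ℂ) (isq z) = isq z := by
  have hi : z.im = 0 := Complex.conj_eq_iff_im.mp hr
  lift z to ℝ using hi
  have h1 : ‖(z : ℂ) - 1‖ = |z - 1| := by
    rw [← Real.norm_eq_abs, ← Complex.norm_real]
    push_cast
    rfl
  rw [h1] at h
  have h2 := (abs_le.mp h).1
  rw [isq_real (by linarith), Complex.conj_ofReal]

theorem lc_one_sub {θ : ℝ} {a : ℂ} (t0 : 0 < θ) (t1 : θ ≤ th0) (ha : a ∈ Sec θ) :
    ‖1 - a‖ ≤ 101 / 100 ∧ ‖a‖ ≤ 101 / 100 := by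
  obtain ⟨-, h1, h2, -⟩ := Sec_norm t0.le t1 ha
  have hth : th0 = 1 / 10 ^ 6 := rfl
  rw [hth] at t1
  constructor <;> linarith

theorem lc_mm {θ η : ℝ} {a : ℂ} (t0 : 0 < θ) (t1 : θ ≤ th0) (e0 : 0 ≤ η) (e1 : η ≤ th0)
    (ha : a ∈ Sec θ) : ‖mm η a - 1‖ ≤ η * (101 / 100) ∧ ‖mm η a‖ ≤ 101 / 100 := by
  have hη : ‖(η : ℂ)‖ ≤ η := by rw [Complex.norm_real, Real.norm_eq_abs, abs_of_nonneg e0]
  have h1 : ‖mm η a - 1‖ ≤ η * (101 / 100) := by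
    have e2 : mm η a - 1 = η * (1 - a) := by
      unfold mm
      ring
    rw [e2]
    exact norm_mul_le_of_le hη (lc_one_sub t0 t1 ha).1
  refine ⟨h1, ?_⟩
  have e2 : mm η a = (mm η a - 1) + 1 := by ring
  have hth : th0 = 1 / 10 ^ 6 := rfl
  rw [hth] at e1
  rw [e2]
  refine (norm_add_le _ _).trans ?_
  rw [norm_one]
  linarith

/-! ### Data on a star shaped open part of the triangle -/

structure LcO (θ M A : ℝ) (O : Set ℂ) (z e w : ℂ → ℂ) : Prop where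
  op : IsOpen O
  sub : O ⊆ Sec θ
  st : ∀ ξ ∈ O, ∀ v : ℝ, 0 < v → v ≤ 1 → (v : ℂ) * ξ ∈ O
  dz : DifferentiableOn ℂ z O
  de : DifferentiableOn ℂ e O
  dw : DifferentiableOn ℂ w O
  z0 : ∀ ξ ∈ O, ‖z ξ - 1‖ ≤ 1 / 20
  z1 : ∀ ξ ∈ O, ‖deriv z ξ‖ ≤ 1 / 20
  e1 : ∀ ξ ∈ O, ‖deriv e ξ‖ ≤ 1 / 20
  e2 : ∀ ξ ∈ O, ‖deriv (deriv e) ξ‖ * ‖ξ‖ ≤ M
  w0 : ∀ ξ ∈ O, ‖w ξ‖ ≤ A * ‖ξ‖ ^ 4

theorem LD.lcO {θ M A : ℝ} {z e w : ℂ → ℂ} (t0 : 0 < θ) (h : LD θ M A z e w) :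
    LcO θ M A (Sec θ) z e w :=
  ⟨isOpen_Sec θ, Subset.rfl, fun _ hξ _ v0 v1 => Sec_smul t0.le hξ v0 v1, h.dz, h.de, h.dw, h.z0,
    h.z1, h.e1, h.e2, h.w0⟩

section
variable {θ M A η : ℝ} {O : Set ℂ} {z e w : ℂ → ℂ} {ξ : ℂ}

theorem LcO.A0 (h : LcO θ M A O z e w) (hξ : ξ ∈ O) : 0 ≤ A := by
  have h1 := (norm_nonneg _).trans (h.w0 ξ hξ)
  have h2 : 0 < ‖ξ‖ ^ 4 := pow_pos (norm_pos_iff.mpr (Sec_ne (h.sub hξ))) 4
  exact nonneg_of_mul_nonneg_left h1 h2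

theorem LcO.M0 (h : LcO θ M A O z e w) (hξ : ξ ∈ O) : 0 ≤ M :=
  le_trans (by positivity) (h.e2 ξ hξ)

theorem LcO.ff_le (h : LcO θ M A O z e w) (t0 : 0 < θ) (t1 : θ ≤ th0) (hξ : ξ ∈ O) :
    ‖ff z w ξ‖ ≤ 121 / 100 * (A * ‖ξ‖ ^ 4) := by
  have hZ := h.z0 ξ hξ
  have hz : ‖z ξ‖ ≤ 21 / 20 := by
    have e1 : z ξ = (z ξ - 1) + 1 := by ring
    rw [e1]
    refine (norm_add_le _ _).trans ?_
    rw [norm_one]
    linarith
  have h2 : ‖(2 : ℂ)‖ ≤ 2 := by simp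
  have h3 : ‖z ξ ^ 2 - 2 * (1 - ξ) * z ξ * deriv z ξ‖ ≤ 121 / 100 := by
    rw [pow_two]
    exact (norm_sub_le_of_le (norm_mul_le_of_le hz hz) (norm_mul_le_of_le (norm_mul_le_of_le
      (norm_mul_le_of_le h2 (lc_one_sub t0 t1 (h.sub hξ)).1) hz) (h.z1 ξ hξ))).trans (by norm_num)
  exact norm_mul_le_of_le h3 (h.w0 ξ hξ)

theorem LcO.nd_near (h : LcO θ M A O z e w) (t0 : 0 < θ) (t1 : θ ≤ th0) (hξ : ξ ∈ O) :
    ‖nd z e ξ - 1‖ ≤ 1 / 4 := by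
  have h1 := (lc_nn (Δ := 0) (h.z0 ξ hξ) (lc_one_sub t0 t1 (h.sub hξ)).1 (h.e1 ξ hξ)
    (by norm_num)).1
  rw [add_zero] at h1
  exact h1

theorem lc_ne {ξ : ℂ} (hξ : ξ ≠ 0) {v t : ℝ} (vt : v < t) : (t : ℂ) * ξ ≠ (v : ℂ) * ξ := by
  intro h
  have h1 := mul_right_cancel₀ hξ h
  exact vt.ne' (Complex.ofReal_injective h1)

theorem LcO.ker (h : LcO θ M A O z e w) (t0 : 0 < θ) (t1 : θ ≤ th0) (hξ : ξ ∈ O) {v t : ℝ}
    (v0 : 0 < v) (vt : v < t) (tt : t ≤ 1) :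
    ‖nn z e (t * ξ) (v * ξ) - 1‖ ≤ 1 / 4 ∧
      ‖n1 z e (t * ξ) (v * ξ)‖ ≤ 3 / 25 + 11 / 5 * (M / ‖(v : ℂ) * ξ‖) := by
  have hne : ξ ≠ 0 := Sec_ne (h.sub hξ)
  have hn : 0 < ‖ξ‖ := norm_pos_iff.mpr hne
  have hab := lc_ne hne vt
  have ha : (t : ℂ) * ξ ∈ O := h.st ξ hξ t (v0.trans vt) tt
  have hb : (v : ℂ) * ξ ∈ O := h.st ξ hξ v v0 (vt.le.trans tt)
  have nrm : ∀ τ : ℝ, 0 < τ → ‖(τ : ℂ) * ξ‖ = τ * ‖ξ‖ := fun τ hτ => by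
    rw [norm_mul, Complex.norm_real, Real.norm_eq_abs, abs_of_pos hτ]
  have hs : segment ℝ ((v : ℂ) * ξ) ((t : ℂ) * ξ) ⊆ O := by
    intro x hx
    obtain ⟨τ, h1, h2, rfl⟩ := lc_seg vt.le hx
    exact h.st ξ hξ τ (v0.trans_le h1) (h2.trans tt)
  have hD := lc_dd (c := 0) h.op h.de hab hs (fun x hx => by rw [sub_zero]; exact h.e1 x (hs hx))
  rw [sub_zero] at hD
  have hΔ : ‖e (t * ξ) - e (v * ξ)‖ ≤ 3 / 50 := by
    have h1 := lc_mv (c := 0) h.op h.de hs (fun x hx => by rw [sub_zero]; exact h.e1 x (hs hx))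
    rw [zero_mul, sub_zero] at h1
    have e1 : (t : ℂ) * ξ - v * ξ = ((t - v : ℝ) : ℂ) * ξ := by
      push_cast
      ring
    rw [e1, nrm _ (sub_pos.mpr vt)] at h1
    have h2 := (lc_one_sub t0 t1 (h.sub hξ)).2
    nlinarith
  have hbn : 0 < ‖(v : ℂ) * ξ‖ := by
    rw [nrm v v0]
    positivity
  have hR := lc_t2 (K := M / ‖(v : ℂ) * ξ‖) h.op h.de hab hs (fun x hx => by
    have h3 := h.e2 x (hs hx)
    obtain ⟨τ, h1, h2, rfl⟩ := lc_seg vt.le hx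
    rw [le_div_iff₀ hbn]
    refine le_trans (mul_le_mul_of_nonneg_left ?_ (norm_nonneg _)) h3
    rw [nrm v v0, nrm τ (v0.trans_le h1)]
    exact mul_le_mul_of_nonneg_right h1 hn.le)
  have hA := (lc_one_sub t0 t1 (h.sub ha)).1
  obtain ⟨h1, h2⟩ := lc_nn (h.z0 _ hb) hA hD hΔ
  refine ⟨h1, ?_⟩
  have h3 := norm_sub_le_of_le (norm_sub_le_of_le (norm_mul_le_of_le hD h2)
    (norm_mul_le_of_le (norm_mul_le_of_le hA hR) h2))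
    (norm_mul_le_of_le (norm_mul_le_of_le hA hD) (h.e1 _ ha))
  have h4 : 0 ≤ M / ‖(v : ℂ) * ξ‖ := div_nonneg (h.M0 hξ) hbn.le
  refine le_trans h3 ?_
  linarith

theorem LcO.k1_le (h : LcO θ M A O z e w) (t0 : 0 < θ) (t1 : θ ≤ th0) (e0 : 0 ≤ η)
    (e1 : η ≤ th0) (hξ : ξ ∈ O) {v t : ℝ} (v0 : 0 < v) (vt : v < t) (tt : t ≤ 1) :
    ‖k1 η z e (t * ξ) (v * ξ)‖ * ‖(v : ℂ) * ξ‖ ≤ 4 * (1 + M) := by
  obtain ⟨h1, h2⟩ := h.ker t0 t1 hξ v0 vt tt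
  have ha : (t : ℂ) * ξ ∈ O := h.st ξ hξ t (v0.trans vt) tt
  have hb : (v : ℂ) * ξ ∈ O := h.st ξ hξ v v0 (vt.le.trans tt)
  have hbn : 0 < ‖(v : ℂ) * ξ‖ := norm_pos_iff.mpr (Sec_ne (h.sub hb))
  have hb1 := (lc_one_sub t0 t1 (h.sub hb)).2
  have hI := (lc_isq h1).2
  have hI3 : ‖isq (nn z e (t * ξ) (v * ξ)) ^ 3‖ ≤ (3 / 2) ^ 3 := by
    rw [norm_pow]
    exact pow_le_pow_left₀ (norm_nonneg _) hI 3
  have hη : ‖-(η : ℂ)‖ ≤ η := by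
    rw [norm_neg, Complex.norm_real, Real.norm_eq_abs, abs_of_nonneg e0]
  have hh : ‖(1 / 2 : ℂ)‖ ≤ 1 / 2 := by simp
  have h3 : ‖k1 η z e (t * ξ) (v * ξ)‖ ≤ _ := norm_sub_le_of_le (norm_mul_le_of_le hη hI)
    (norm_mul_le_of_le (norm_mul_le_of_le (norm_mul_le_of_le hh
      (lc_mm t0 t1 e0 e1 (h.sub ha)).2) hI3) h2)
  have hth : th0 = 1 / 10 ^ 6 := rfl
  rw [hth] at e1
  have M0 := h.M0 hξ
  have h4 : ‖k1 η z e (t * ξ) (v * ξ)‖ ≤ 1 + 4 * (M / ‖(v : ℂ) * ξ‖) := by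
    have h5 : 0 ≤ M / ‖(v : ℂ) * ξ‖ := div_nonneg M0 hbn.le
    linarith
  have h5 := mul_le_mul_of_nonneg_right h4 hbn.le
  have e2 : (1 + 4 * (M / ‖(v : ℂ) * ξ‖)) * ‖(v : ℂ) * ξ‖ = ‖(v : ℂ) * ξ‖ + 4 * M := by
    field_simp
  rw [e2] at h5
  linarith

end

/-! ### The weight -/

theorem lc_wt {s : ℝ} (s0 : 0 < s) (s1 : s < 1) :
    ‖((s / Real.sqrt (s * (1 - s)) : ℝ) : ℂ)‖ ≤ 1 / Real.sqrt (1 - s) := by
  have h1 : 0 < Real.sqrt s := Real.sqrt_pos.mpr s0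
  have h2 : 0 < Real.sqrt (1 - s) := Real.sqrt_pos.mpr (by linarith)
  have h3 : Real.sqrt s ≤ 1 := Real.sqrt_le_one.mpr s1.le
  have h4 : Real.sqrt s * Real.sqrt s = s := Real.mul_self_sqrt s0.le
  rw [Complex.norm_real, Real.norm_eq_abs, Real.sqrt_mul s0.le, abs_of_pos (by positivity),
    div_le_div_iff₀ (by positivity) h2]
  have h5 : s ≤ Real.sqrt s := by nlinarith
  nlinarith

theorem lc_wt_int : IntegrableOn (fun s : ℝ => 1 / Real.sqrt (1 - s)) (Ioo 0 1) ∧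
    ∫ s in Ioo (0 : ℝ) 1, 1 / Real.sqrt (1 - s) = 2 := by
  have hc : ContinuousOn (fun s : ℝ => -2 * Real.sqrt (1 - s)) (Icc 0 1) := by fun_prop
  have hd : ∀ s ∈ Ioo (0 : ℝ) 1,
      HasDerivAt (fun s : ℝ => -2 * Real.sqrt (1 - s)) (1 / Real.sqrt (1 - s)) s := by
    intro s hs
    have h0 : 0 < 1 - s := by linarith [hs.2]
    have h1 : HasDerivAt (fun s : ℝ => 1 - s) (-1) s := by
      simpa using (hasDerivAt_id s).const_sub 1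
    have h2 := (h1.sqrt h0.ne').const_mul (-2)
    have h3 : Real.sqrt (1 - s) ≠ 0 := (Real.sqrt_pos.mpr h0).ne'
    have e1 : -2 * (-1 / (2 * Real.sqrt (1 - s))) = 1 / Real.sqrt (1 - s) := by field_simp
    rw [e1] at h2
    exact h2
  have hi := intervalIntegral.integrableOn_deriv_of_nonneg hc hd (fun s _ => by positivity)
  refine ⟨hi.mono_set Ioo_subset_Ioc_self, ?_⟩
  have h1 := intervalIntegral.integral_eq_sub_of_hasDerivAt_of_le zero_le_one hc hd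
    ((intervalIntegrable_iff_integrableOn_Ioc_of_le zero_le_one).mpr hi)
  rw [intervalIntegral.integral_of_le zero_le_one, integral_Ioc_eq_integral_Ioo] at h1
  rw [h1]
  simp

theorem lc_sq_int : IntegrableOn (fun p : ℝ × ℝ => 1 / Real.sqrt (1 - p.2))
      (Ioo (0 : ℝ) 1 ×ˢ Ioo (0 : ℝ) 1) ∧
    ∫ p in Ioo (0 : ℝ) 1 ×ˢ Ioo (0 : ℝ) 1, 1 / Real.sqrt (1 - p.2) = 2 := by
  have e1 : (volume : Measure (ℝ × ℝ)).restrict (Ioo (0 : ℝ) 1 ×ˢ Ioo (0 : ℝ) 1) =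
      (volume.restrict (Ioo (0 : ℝ) 1)).prod (volume.restrict (Ioo (0 : ℝ) 1)) := by
    rw [Measure.prod_restrict, Measure.volume_eq_prod]
  unfold IntegrableOn
  rw [e1]
  refine ⟨Integrable.comp_snd (f := fun s : ℝ => 1 / Real.sqrt (1 - s)) lc_wt_int.1 _, ?_⟩
  rw [integral_fun_snd (fun s : ℝ => 1 / Real.sqrt (1 - s)), lc_wt_int.2]
  simp [Measure.real]

end Bon3
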