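import Pool.Agent.Lib.MP_3dbf58_gt.LinA

/-! The contraction estimate of the linear problem. -/

open Set Filter Topology MeasureTheory Metric

noncomputable section

namespace Bon3

section
variable {θ η μ0 B a a' : ℝ} {zp zm h ρ U w w' : ℂ → ℂ}

theorem LinHyp.t0 (H : LinHyp θ η μ0 B zp zm h ρ U) : 0 < θ :=
  lt_of_lt_of_le (by unfold th0; norm_num) H.th1

theorem LinHyp.one (H : LinHyp θ η μ0 B zp zm h ρ U) : (1 : ℂ) ∈ Sec θ := by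
  simpa using Sec_real H.t0 one_pos le_rfl

theorem LinHyp.sp (H : LinHyp θ η μ0 B zp zm h ρ U) : LinS θ η (-η) zp h :=
  ⟨H.t0, H.th2, H.et1, H.et2, by rw [abs_neg, abs_of_pos H.et1], H.dzp, H.dh, H.rzp, H.rh, H.zp0,
    H.zp1, fun ξ hξ => by simpa using (H.h1 ξ hξ).trans H.hB, fun ξ hξ => (H.h2 ξ hξ).trans H.hB⟩

theorem lin_dneg (h : ℂ → ℂ) : deriv (fun ζ => -h ζ) = fun ζ => -deriv h ζ := by
  funext ζ; simp

theorem LinHyp.sm (H : LinHyp θ η μ0 B zp zm h ρ U) : LinS θ η η zm (fun ζ => -h ζ) := by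
  refine ⟨H.t0, H.th2, H.et1, H.et2, by rw [abs_of_pos H.et1], H.dzm, H.dh.neg, H.rzm,
    fun x hx => by simp [H.rh x hx], H.zm0, H.zm1, fun ξ hξ => ?_, fun ξ hξ => ?_⟩
  · rw [lin_dneg, ← norm_neg]
    simpa [add_comm] using (H.h1 ξ hξ).trans H.hB
  · rw [lin_dneg, lin_dneg, norm_neg]
    exact (H.h2 ξ hξ).trans H.hB

theorem LinHyp.Um (H : LinHyp θ η μ0 B zp zm h ρ U) {ξ : ℂ} (hξ : ξ ∈ Sec θ) :
    U ξ ∈ Sec θ ∧ ‖U ξ‖ ≤ (1 + η) * ‖ξ‖ :=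
  U_maps H.th1 le_rfl H.th2 H.et1 H.et2 H.mu H.hB H.U0 hξ

theorem LinHyp.W (H : LinHyp θ η μ0 B zp zm h ρ U) (c : LinC θ a w) :
    LinC θ ((1 + 5 * th0) * a) (fun ζ => w (U ζ)) := by
  refine ⟨c.d.comp H.dU (fun ξ hξ => (H.Um hξ).1), fun ξ hξ => (c.b _ (H.Um hξ).1).trans ?_⟩
  have a0 := c.nonneg H.t0
  have h1 : ‖U ξ‖ ≤ (1 + th0) * ‖ξ‖ :=
    (H.Um hξ).2.trans (mul_le_mul_of_nonneg_right (by linarith [H.et2]) (norm_nonneg _))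
  have h2 : (1 + th0) ^ 4 ≤ 1 + 5 * th0 := by unfold th0; norm_num
  calc a * ‖U ξ‖ ^ 4 ≤ a * ((1 + th0) * ‖ξ‖) ^ 4 := by gcongr
    _ = (1 + th0) ^ 4 * (a * ‖ξ‖ ^ 4) := by ring
    _ ≤ (1 + 5 * th0) * (a * ‖ξ‖ ^ 4) := by gcongr
    _ = _ := by ring

theorem LinHyp.eta (H : LinHyp θ η μ0 B zp zm h ρ U) : ‖(η : ℂ)‖ ≤ η :=
  lin_re (abs_of_pos H.et1).le

theorem LinHyp.P (H : LinHyp θ η μ0 B zp zm h ρ U) (c : LinC θ a w) :
    LinC θ (3 * η * ((1 + 5 * th0) * a)) (fun ζ => deriv ρ ζ * w (U ζ)) := by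
  refine (H.W c).mul (H.dρ.deriv (isOpen_Sec θ)) fun ξ hξ => ?_
  have e0 := H.et1
  refine lin_eq (lin_sub ((H.ρ1 ξ hξ).trans H.hB) (lin_mul (lin_add lin_2 lin_kap) H.eta))
    (by ring) ?_
  unfold th0; linarith

theorem LinHyp.wmW (H : LinHyp θ η μ0 B zp zm h ρ U) (c : LinC θ a w) :
    LinC θ (3 * th0 * a) (fun ζ => wm ρ U w ζ + w (U ζ)) := by
  have a0 := c.nonneg H.t0
  have h1 := ((H.P c).prim H.t0 H.th2).sub ((H.W c).mul (H.dρ.sub_const 1) H.ρ0)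
  have e : (fun ζ => wm ρ U w ζ + w (U ζ)) = fun ζ =>
      prim (fun ζ => deriv ρ ζ * w (U ζ)) ζ - (ρ ζ - 1) * w (U ζ) := by
    funext ζ; unfold wm; ring
  rw [e]
  refine h1.mono ?_
  have := mul_le_mul_of_nonneg_right H.et2 a0
  unfold th0 at *; linarith

theorem LinHyp.wm (H : LinHyp θ η μ0 B zp zm h ρ U) (c : LinC θ a w) :
    LinC θ (2 * a) (wm ρ U w) := by
  have a0 := c.nonneg H.t0
  have h1 := (H.wmW c).sub (H.W c)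
  simp only [add_sub_cancel_right] at h1
  refine h1.mono ?_
  unfold th0; linarith

theorem lin_ell (U w : ℂ → ℂ) : ell U w = prim (fun ζ => w (U ζ)) 1 := by
  simp [ell, prim]

theorem LinHyp.rW (H : LinHyp θ η μ0 B zp zm h ρ U) (r : Rl w θ) : Rl (fun ζ => w (U ζ)) θ := by
  intro x hx
  have e : U x = ((U x).re : ℂ) := Complex.ext (by simp) (by simp [H.rU x hx])
  have := (H.Um hx).1
  rw [e] at this
  show (w (U x)).im = 0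
  rw [e]; exact r _ this

theorem lin_prim_real (t0 : 0 < θ) (r : Rl w θ) : Rl (prim w) θ := fun x hx =>
  prim_real fun v v0 v1 => by
    have := Sec_smul t0.le hx v0 v1.le
    rw [← Complex.ofReal_mul] at this ⊢
    exact r _ this

theorem LinHyp.rell (H : LinHyp θ η μ0 B zp zm h ρ U) (r : Rl w θ) : (ell U w).im = 0 := by
  rw [lin_ell]
  simpa using lin_prim_real H.t0 (H.rW r) 1 (Sec_real H.t0 one_pos le_rfl)

theorem LinHyp.rwm (H : LinHyp θ η μ0 B zp zm h ρ U) (r : Rl w θ) : Rl (Bon3.wm ρ U w) θ := by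
  intro x hx
  have h1 := H.rρ x hx
  have h2 : (w (U x)).im = 0 := H.rW r x hx
  have h3 := lin_prim_real (w := fun ζ => deriv ρ ζ * w (U ζ)) H.t0 (fun y hy => by
    have k1 := Rl.deriv H.dρ H.rρ y hy
    have k2 : (w (U y)).im = 0 := H.rW r y hy
    simp [k1, k2]) x hx
  unfold Bon3.wm
  simp [h1, h2, h3]

/-- the homogeneous operator -/
def linL (η : ℝ) (zp zm h ρ U w : ℂ → ℂ) (ξ : ℂ) : ℂ :=
  Lcap η zp h w ξ + Lcap η zm (fun ζ => -h ζ) (wm ρ U w) ξ +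
    (Real.pi : ℂ) * (1 + kap) * η * ξ ^ 5 * ell U w

/-- the contraction -/
def linT (η : ℝ) (zp zm h ρ U w : ℂ → ℂ) (ξ : ℂ) : ℂ :=
  w ξ - linL η zp zm h ρ U w ξ / (Real.pi * linD η zp h ξ)

theorem LinHyp.Dlow (H : LinHyp θ η μ0 B zp zm h ρ U) {ξ : ℂ} (hξ : ξ ∈ Sec θ) :
    299 / 100 ≤ ‖(Real.pi : ℂ) * linD η zp h ξ‖ := by
  have h1 := lin_low (H.sp.D hξ)
  have h2 := Real.pi_gt_three
  rw [norm_mul, Complex.norm_real, Real.norm_eq_abs, abs_of_pos Real.pi_pos]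
  unfold th0 at h1
  nlinarith

theorem LinHyp.Dne (H : LinHyp θ η μ0 B zp zm h ρ U) {ξ : ℂ} (hξ : ξ ∈ Sec θ) :
    (Real.pi : ℂ) * linD η zp h ξ ≠ 0 := fun e => by
  have := H.Dlow hξ
  rw [e] at this; norm_num at this

theorem LinHyp.Tsub (H : LinHyp θ η μ0 B zp zm h ρ U) (c : LinC θ a w) (c' : LinC θ a' w') {ξ : ℂ}
    (hξ : ξ ∈ Sec θ) : linT η zp zm h ρ U (fun ζ => w ζ - w' ζ) ξ =
      linT η zp zm h ρ U w ξ - linT η zp zm h ρ U w' ξ := by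
  have e1 : EqOn (Bon3.wm ρ U (fun ζ => w ζ - w' ζ))
      (fun ζ => Bon3.wm ρ U w ζ - Bon3.wm ρ U w' ζ) (Sec θ) := fun ζ hζ => by
    have := (H.P c).prim_sub H.t0 H.th2 (H.P c') hζ
    unfold Bon3.wm
    simp only [mul_sub]
    rw [this]; ring
  have e2 : ell U (fun ζ => w ζ - w' ζ) = ell U w - ell U w' := by
    rw [lin_ell, lin_ell, lin_ell]
    exact (H.W c).prim_sub H.t0 H.th2 (H.W c') H.one
  unfold linT linL
  rw [H.sp.sub c c' hξ, Lcap_congr H.t0.le (fun _ _ => rfl) (fun _ _ => rfl) e1 hξ,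
    H.sm.sub (H.wm c) (H.wm c') hξ, e2]
  ring

theorem LinHyp.Td (H : LinHyp θ η μ0 B zp zm h ρ U) (c : LinC θ a w) :
    DifferentiableOn ℂ (linT η zp zm h ρ U w) (Sec θ) := by
  have h1 := (Lcap_diff H.t0 H.th2 H.et1.le H.et2 zero_le_one (H.sp.ld c)).1
  have h2 := (Lcap_diff H.t0 H.th2 H.et1.le H.et2 zero_le_one (H.sm.ld (H.wm c))).1
  have h3 : DifferentiableOn ℂ (linL η zp zm h ρ U w) (Sec θ) := by unfold linL; fun_prop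
  exact c.d.sub (h3.div (H.sp.dD.const_mul _) fun ξ hξ => H.Dne hξ)

theorem LinHyp.Tr (H : LinHyp θ η μ0 B zp zm h ρ U) (c : LinC θ a w) (r : Rl w θ) :
    Rl (linT η zp zm h ρ U w) θ := by
  intro x hx
  have h1 := Lcap_real (η := η) H.t0 H.th2 (H.sp.ld c) H.rzp H.rh r x hx
  have h2 := Lcap_real (η := η) H.t0 H.th2 (H.sm.ld (H.wm c)) H.rzm H.sm.re (H.rwm r) x hx
  have h3 := H.rell r
  have h4 := H.sp.rD x hx
  have h5 : (linL η zp zm h ρ U w x).im = 0 := by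
    unfold linL
    simp [h1, h2, h3, ← Complex.ofReal_pow]
  unfold linT
  simp [Complex.div_im, r x hx, h4, h5]

theorem LinC.G (t0 : 0 < θ) (t1 : θ ≤ th0) (c : LinC θ a w) {ξ : ℂ} (hξ : ξ ∈ Sec θ) :
    ‖Bon3.prim w ξ - ξ ^ 5 * Bon3.prim w 1‖ ≤
      2 * (1 + 13 * th0) * (‖1 - ξ‖ * ‖ξ‖) * (a * ‖ξ‖ ^ 4) := by
  have h1 : (1 : ℂ) ∈ Sec θ := by simpa using Sec_real t0 one_pos le_rfl
  have h2 := (convex_Sec θ).norm_image_sub_le_of_norm_hasDerivWithin_le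
    (fun ζ hζ => (c.prim_deriv t0 t1 hζ).hasDerivWithinAt) (c.bd t0 t1) hξ h1
  have n1 := (lin_n t0 t1 hξ).1
  have h3 : ‖1 + ξ + ξ * ξ + ξ * ξ * ξ + ξ * ξ * ξ * ξ‖ ≤ 5 * (1 + 13 * th0) :=
    (lin_add (lin_add (lin_add (lin_add lin_1 n1) (lin_mul n1 n1)) (lin_mul (lin_mul n1 n1) n1))
      (lin_mul (lin_mul (lin_mul n1 n1) n1) n1)).trans (by unfold th0; norm_num)
  have h5 : ‖ξ ^ 5‖ ≤ ‖ξ‖ ^ 5 := (norm_pow _ _).le
  exact lin_eq (lin_sub (lin_mul (lin_mul (le_refl ‖1 - ξ‖) h3) (c.prim5 t0 hξ)) (lin_mul h5 h2))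
    (by ring) (le_of_eq (by ring))

theorem lin_j (t0 : 0 < θ) (t1 : θ ≤ th0) {ξ : ℂ} (hξ : ξ ∈ Sec θ) :
    ‖ξ - ξ.re‖ ≤ 2 * th0 ∧ 0 < ξ.re ∧ ξ.re < 1 + th0 := by
  have h0 := Sec_re_pos t0.le hξ
  obtain ⟨h1, h2⟩ := hξ
  have e : ξ - ξ.re = ξ.im * Complex.I := Complex.ext (by simp) (by simp)
  refine ⟨?_, h0, by linarith⟩
  rw [e, norm_mul, Complex.norm_I, mul_one, Complex.norm_real, Real.norm_eq_abs]
  unfold th0 at *
  nlinarith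

theorem LinHyp.cW (H : LinHyp θ η μ0 B zp zm h ρ U) (c : LinC θ a w) {ξ : ℂ} (hξ : ξ ∈ Sec θ) :
    ‖(1 - 2 * η * (1 - ξ) - kap * η * ξ) * w (U ξ)‖ ≤
      (1 + η * (-2 * (1 - ξ.re) - ξ.re / 30 + 8 / 30 * (1 - ξ.re) + 15 * th0)) *
        (a * ‖ξ‖ ^ 4) := by
  obtain ⟨j, x0, x1⟩ := lin_j H.t0 H.th2 hξ
  obtain ⟨n1, n2⟩ := lin_n H.t0 H.th2 hξ
  have e0 := H.et1
  have e1 := H.et2
  have a0 := c.nonneg H.t0
  have hB := H.hB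
  have s1 := H.eta
  have U0 : ‖U ξ - ξ - μ0 * ξ * (1 - ξ)‖ ≤ th0 ^ 2 * η * 2 * ‖ξ‖ := by
    refine (H.U0 ξ hξ).trans ((mul_le_mul_of_nonneg_right hB (by positivity)).trans ?_)
    have : ‖ξ‖ ≤ 2 := n1.trans (by unfold th0; norm_num)
    calc th0 ^ 2 * η * ‖ξ‖ ^ 2 = th0 ^ 2 * η * ‖ξ‖ * ‖ξ‖ := by ring
      _ ≤ _ := by gcongr
  have mu := lin_re H.mu
  set x := ξ.re
  unfold th0 at *
  have b1 : η * x ≤ 2 / 10 ^ 6 := by nlinarith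
  have b2 : 0 ≤ η * x := by positivity
  have r1 : ‖((1 - 2 * η * (1 - x) - η * x / 30 : ℝ) : ℂ)‖ ≤ 1 - 2 * η * (1 - x) - η * x / 30 :=
    lin_re (abs_of_nonneg (by linarith)).le
  have r2 : ‖((1 + η * (1 - x) / 15 : ℝ) : ℂ)‖ ≤ 1 + η * (1 - x) / 15 :=
    lin_re (abs_of_nonneg (by linarith)).le
  have hc : ‖1 - 2 * η * (1 - ξ) - kap * η * ξ‖ ≤
      1 + η * (-2 * (1 - x) - x / 30 + 5 * (1 / 10 ^ 6)) :=
    lin_eq (lin_add r1 (lin_mul (lin_mul (lin_sub lin_2 lin_kap) s1) j))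
      (by unfold kap; push_cast; ring) (by linarith)
  have hU : ‖U ξ‖ ≤ (1 + η * ((1 - x) / 15 + 2 * (1 / 10 ^ 6))) * ‖ξ‖ := by
    have i1 := (lin_sub (lin_add r2 (lin_mul mu n2))
      (lin_mul (lin_mul (lin_mul lin_2 lin_kap) s1) j)).trans
      (show _ ≤ 1 + η * ((1 - x) / 15 + 2 * (1 / 10 ^ 6)) - (1 / 10 ^ 6) ^ 2 * η * 2 by linarith)
    exact lin_eq (lin_add U0 (lin_mul i1 (le_refl ‖ξ‖))) (by unfold kap; push_cast; ring)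
      (le_of_eq (by ring))
  set u := η * ((1 - x) / 15 + 2 * (1 / 10 ^ 6)) with hu
  have u1 : |u| ≤ η / 10 := by
    rw [hu, abs_mul, abs_of_pos e0, div_eq_mul_inv η]
    exact mul_le_mul_of_nonneg_left (abs_le.2 ⟨by linarith, by linarith⟩) e0.le
  have u2 : u ^ 2 ≤ η / 10 ^ 8 := by
    have := pow_le_pow_left₀ (abs_nonneg u) u1 2
    rw [sq_abs] at this
    nlinarith
  have u3 : (1 + u) ^ 4 ≤ 1 + 4 * u + η / 10 ^ 7 := by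
    obtain ⟨u4, u5⟩ := abs_le.1 u1
    have : u ^ 2 * (6 + 4 * u + u ^ 2) ≤ u ^ 2 * 7 :=
      mul_le_mul_of_nonneg_left (by linarith) (sq_nonneg u)
    nlinarith
  have hW : ‖w (U ξ)‖ ≤ (1 + 4 * u + η / 10 ^ 7) * (a * ‖ξ‖ ^ 4) := by
    calc ‖w (U ξ)‖ ≤ a * ‖U ξ‖ ^ 4 := c.b _ (H.Um hξ).1
      _ ≤ a * ((1 + u) * ‖ξ‖) ^ 4 := by gcongr
      _ = (1 + u) ^ 4 * (a * ‖ξ‖ ^ 4) := by ring
      _ ≤ _ := by gcongr
  refine (lin_mul hc hW).trans ?_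
  rw [← mul_assoc]
  refine mul_le_mul_of_nonneg_right ?_ (by positivity)
  have q1 : |η * (-2 * (1 - x) - x / 30 + 5 * (1 / 10 ^ 6))| ≤ 3 / 10 ^ 6 := by
    rw [abs_mul, abs_of_pos e0]
    have : |-2 * (1 - x) - x / 30 + 5 * (1 / 10 ^ 6)| ≤ 3 := abs_le.2 ⟨by linarith, by linarith⟩
    exact (mul_le_mul e1 this (abs_nonneg _) (by norm_num)).trans (by norm_num)
  have q2 : |4 * u + η / 10 ^ 7| ≤ η / 2 := by
    obtain ⟨u4, u5⟩ := abs_le.1 u1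
    exact abs_le.2 ⟨by linarith, by linarith⟩
  have q3 := le_abs_self (η * (-2 * (1 - x) - x / 30 + 5 * (1 / 10 ^ 6)) * (4 * u + η / 10 ^ 7))
  rw [abs_mul] at q3
  have q4 := mul_le_mul q1 q2 (abs_nonneg _) (by norm_num)
  have q5 := q3.trans q4
  nlinarith

theorem LinHyp.err (H : LinHyp θ η μ0 B zp zm h ρ U) (c : LinC θ a w) {ξ : ℂ} (hξ : ξ ∈ Sec θ) :
    ‖((linT η zp zm h ρ U w ξ - (1 - 2 * η * (1 - ξ) - kap * η * ξ) * w (U ξ)) * linD η zp h ξ -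
      (1 + kap) * η * (prim (fun ζ => w (U ζ)) ξ - ξ ^ 5 * prim (fun ζ => w (U ζ)) 1)) * Real.pi‖
      ≤ 700 * th0 * η * (a * ‖ξ‖ ^ 4) := by
  obtain ⟨n1, n2⟩ := lin_n H.t0 H.th2 hξ
  have t0 := H.t0
  have t1 := H.th2
  have X := lin_c H.et1 H.et2 (H.zp0 ξ hξ) (H.zm0 ξ hξ) (H.zp1 ξ hξ) (H.zm1 ξ hξ)
    ((H.h1 ξ hξ).trans H.hB) ((H.f1 ξ hξ).trans H.hB) ((H.f2 ξ hξ).trans H.hB) n1 n2
  have cW := H.W c
  have k2 : ‖(2 + kap : ℂ) * η‖ ≤ (2 + 1 / 30) * η := lin_mul (lin_add lin_2 lin_kap) H.eta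
  have c1 := cW.mul (f := fun _ => (2 + kap : ℂ) * η) (differentiableOn_const _) (fun _ _ => k2)
  have c2 := cW.mul (f := fun ζ => deriv ρ ζ + (2 + kap) * η)
    ((H.dρ.deriv (isOpen_Sec θ)).add_const _) (fun ζ hζ => (H.ρ1 ζ hζ).trans H.hB)
  have b1 := (c2.prim t0 t1).b ξ hξ
  simp only [add_mul (deriv ρ _)] at b1
  rw [(H.P c).prim_add t0 t1 c1 hξ, lin_prim_smul] at b1
  have b2 := (cW.prim t0 t1).b ξ hξ
  have b3 := ((H.wmW c).prim t0 t1).b ξ hξ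
  rw [(H.wm c).prim_add t0 t1 cW hξ] at b3
  have Kp := H.sp.K c hξ
  have Km := H.sm.K (H.wm c) hξ
  have Dm := H.sm.D hξ
  have hne := H.Dne hξ
  have n0 : 0 ≤ η * (a * ‖ξ‖ ^ 4) := by
    have := c.nonneg t0
    have := H.et1
    positivity
  refine lin_eq (lin_add (lin_sub (lin_sub (lin_add (lin_sub
    (lin_mul (lin_mul (lin_mul lin_pi (lin_one (H.sp.mm hξ))) X) (cW.b ξ hξ))
    (lin_mul (lin_mul lin_pi (lin_one Dm)) b1))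
    (lin_mul (lin_mul (lin_mul lin_pi Dm) k2) b2)) Kp) Km)
    (lin_mul (lin_mul lin_pi H.eta) b3)) ?_ (by unfold th0; linarith)
  have e1 : linT η zp zm h ρ U w ξ * linD η zp h ξ * Real.pi =
      w ξ * linD η zp h ξ * Real.pi - linL η zp zm h ρ U w ξ := by
    unfold linT
    rw [mul_assoc, mul_comm (linD η zp h ξ), sub_mul, div_mul_cancel₀ _ hne]; ring
  have e2 : linL η zp zm h ρ U w ξ = Real.pi * linD η zp h ξ * w ξ + linK η zp h w ξ +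
      (Real.pi * linD η zm (fun ζ => -h ζ) ξ *
        (-(ρ ξ * w (U ξ)) + prim (fun ζ => deriv ρ ζ * w (U ζ)) ξ) +
        linK η zm (fun ζ => -h ζ) (Bon3.wm ρ U w) ξ) +
      (Real.pi : ℂ) * (1 + kap) * η * ξ ^ 5 * prim (fun ζ => w (U ζ)) 1 := by
    unfold linL
    rw [lin_Lcap, lin_Lcap, lin_ell]; rfl
  have e3 : linD η zp h ξ = (zp ξ ^ 2 - 2 * (1 - ξ) * zp ξ * deriv zp ξ) * mm η ξ *
      isq (zp ξ ^ 2 - (1 - ξ) * deriv h ξ * (2 * zp ξ)) := rfl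
  have e4 : linD η zm (fun ζ => -h ζ) ξ = (zm ξ ^ 2 - 2 * (1 - ξ) * zm ξ * deriv zm ξ) * mm η ξ *
      isq (zm ξ ^ 2 - (1 - ξ) * -deriv h ξ * (2 * zm ξ)) := by
    unfold linD nd; rw [lin_dneg]
  push_cast
  linear_combination e1 - e2 + Real.pi * ρ ξ * w (U ξ) * e4 -
    Real.pi * (1 - 2 * η * (1 - ξ) - kap * η * ξ) * w (U ξ) * e3

theorem LinHyp.T (H : LinHyp θ η μ0 B zp zm h ρ U) (c : LinC θ a w) :
    LinC θ ((1 - η / 200) * a) (linT η zp zm h ρ U w) := by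
  refine ⟨H.Td c, fun ξ hξ => ?_⟩
  obtain ⟨-, x0, x1⟩ := lin_j H.t0 H.th2 hξ
  obtain ⟨n1, -, -, n2⟩ := Sec_norm H.t0.le H.th2 hξ
  have t0 := H.t0
  have t1 := H.th2
  have e0 := H.et1
  have a0 := c.nonneg t0
  have h1 := lin_cancel (H.err c hξ) (c := 3) (by norm_num) (by
    rw [Complex.norm_real, Real.norm_eq_abs, abs_of_pos Real.pi_pos]; exact Real.pi_gt_three.le)
  have h2 := (H.W c).G t0 t1 hξ
  have h3 := H.cW c hξ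
  have hD := lin_low (H.sp.D hξ)
  have x2 := hξ.2
  set x := ξ.re
  have n0 : 0 ≤ a * ‖ξ‖ ^ 4 := by positivity
  unfold th0 at *
  have y1 : ‖1 - ξ‖ ≤ 1 - x + 4 / 10 ^ 6 := by
    have : |1 - x| ≤ 1 - x + 2 * θ := abs_le.2 ⟨by linarith, by linarith⟩
    linarith
  have y2 : ‖ξ‖ ≤ (1 + 1 / 10 ^ 6) * x := n1.trans (by gcongr)
  have y3 : ‖1 - ξ‖ * ‖ξ‖ ≤ (1 - x) * x + 5 / 10 ^ 6 := by
    refine (mul_le_mul y1 y2 (norm_nonneg _) ((norm_nonneg _).trans y1)).trans ?_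
    nlinarith [sq_nonneg (x - 1 / 2)]
  have y4 : 2 * (1 + 13 * (1 / 10 ^ 6)) * (‖1 - ξ‖ * ‖ξ‖) * (1 + 5 * (1 / 10 ^ 6)) ≤
      2 * ((1 - x) * x) + 30 / 10 ^ 6 := by
    nlinarith [sq_nonneg (x - 1 / 2)]
  have h4 : ‖prim (fun ζ => w (U ζ)) ξ - ξ ^ 5 * prim (fun ζ => w (U ζ)) 1‖ ≤
      (2 * ((1 - x) * x) + 30 / 10 ^ 6) * (a * ‖ξ‖ ^ 4) :=
    h2.trans (le_of_eq_of_le (by ring) (mul_le_mul_of_nonneg_right y4 n0))
  have h5 := lin_eq (lin_add h1 (lin_mul (lin_mul (lin_add lin_1 lin_kap) H.eta) h4))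
    (sub_add_cancel _ _).symm le_rfl
  have h6 := lin_cancel h5 (by norm_num) hD
  rw [div_eq_mul_inv, show (1 - 20 * (1 / 10 ^ 6) : ℝ)⁻¹ = 50000 / 49999 by norm_num] at h6
  refine lin_eq (lin_add h6 h3) (by ring) ?_
  have q : (700 * (1 / 10 ^ 6) / 3 + (1 + 1 / 30) * (2 * ((1 - x) * x) + 30 / 10 ^ 6)) *
      (50000 / 49999) + (-2 * (1 - x) - x / 30 + 8 / 30 * (1 - x) + 15 * (1 / 10 ^ 6)) ≤
      -(1 / 200) := by
    nlinarith [sq_nonneg (x - 113 / 124)]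
  have q2 := mul_le_mul_of_nonneg_right q (mul_nonneg e0.le n0)
  linarith

end

end Bon3
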