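import Pool.Agent.Lib.MP_3dbf58_gt.Tool
import Pool.Agent.Lib.MP_3dbf58_gt.Lc
import Pool.Agent.Lib.MP_3dbf58_gt.LinB

open Set Filter Topology MeasureTheory Metric

noncomputable section

namespace Bon3

theorem lin_tsum {θ κ b : ℝ} {g : ℕ → ℂ → ℂ} (t0 : 0 < θ) (t1 : θ ≤ th0) (k0 : 0 ≤ κ) (k1 : κ < 1)
    (c : ∀ n, LinC θ (κ ^ n * b) (g n)) :
    (∀ ξ ∈ Sec θ, Summable fun n => g n ξ) ∧ LinC θ ((1 - κ)⁻¹ * b) (fun ξ => ∑' n, g n ξ) := by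
  have hs := hasSum_geometric_of_lt_one k0 k1
  have s1 := ((hs.mul_right b).mul_right (1 + 13 * th0)).summable
  refine ⟨fun ξ hξ => Summable.of_norm_bounded s1 fun n => (c n).bd t0 t1 ξ hξ,
    Complex.differentiableOn_tsum_of_summable_norm s1 (fun n => (c n).d) (isOpen_Sec θ)
      (fun n ξ hξ => (c n).bd t0 t1 ξ hξ), fun ξ hξ => ?_⟩
  exact tsum_of_norm_bounded ((hs.mul_right b).mul_right (‖ξ‖ ^ 4)) fun n => (c n).b ξ hξ

theorem lin_fix {θ η μ0 B b : ℝ} {zp zm h ρ U f : ℂ → ℂ} (H : LinHyp θ η μ0 B zp zm h ρ U)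
    (c : LinC θ b f) (r : Rl f θ) :
    ∃ w, LinC θ (200 / η * b) w ∧ Rl w θ ∧ ∀ ξ ∈ Sec θ, w ξ - linT η zp zm h ρ U w ξ = f ξ := by
  have t0 := H.t0
  have t1 := H.th2
  have e0 := H.et1
  have e1 : η ≤ 1 := H.et2.trans (by unfold th0; norm_num)
  set κ := 1 - η / 200 with hκ
  have k0 : 0 ≤ κ := by linarith
  have k1 : κ < 1 := by linarith
  set T := linT η zp zm h ρ U with hT
  set g : ℕ → ℂ → ℂ := fun n => T^[n] f with hg
  have gs : ∀ n, g (n + 1) = T (g n) := fun n => Function.iterate_succ_apply' T n f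
  have gc : ∀ n, LinC θ (κ ^ n * b) (g n) ∧ Rl (g n) θ := by
    intro n
    induction n with
    | zero => exact ⟨c.mono (by simp), r⟩
    | succ n ih =>
      rw [gs]
      exact ⟨(H.T ih.1).mono (le_of_eq (by ring)), H.Tr ih.1 ih.2⟩
  set R : ℕ → ℂ → ℂ := fun N ξ => ∑' n, g (n + N) ξ with hR
  have Rc := fun N => lin_tsum (b := κ ^ N * b) (g := fun n => g (n + N)) t0 t1 k0 k1
    fun n => (gc (n + N)).1.mono (le_of_eq (by ring))
  have Rs : ∀ N, ∀ ξ ∈ Sec θ, R N ξ = g N ξ + R (N + 1) ξ := fun N ξ hξ => by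
    have := ((Rc N).1 ξ hξ).tsum_eq_zero_add
    simp only [zero_add] at this
    simp only [hR]
    rw [this]
    simp only [add_assoc, add_comm 1 N]
  have step : ∀ N, ∀ ξ ∈ Sec θ, T (R N) ξ - R (N + 1) ξ = T (R (N + 1)) ξ - R (N + 2) ξ := by
    intro N ξ hξ
    have c1 := (Rc N).2.sub (Rc (N + 1)).2
    have c0 : LinC θ 0 (fun ζ => (R N ζ - R (N + 1) ζ) - g N ζ) :=
      ⟨(c1.sub (gc N).1).d, fun ζ hζ => by rw [Rs N ζ hζ]; simp⟩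
    have z := (H.T c0).b ξ hξ
    rw [H.Tsub c1 (gc N).1 hξ, H.Tsub (Rc N).2 (Rc (N + 1)).2 hξ, mul_zero, zero_mul,
      norm_le_zero_iff] at z
    have z2 := Rs (N + 1) ξ hξ
    rw [gs] at z2
    linear_combination z - z2
  refine ⟨R 0, (Rc 0).2.mono (le_of_eq ?_), fun x hx => ?_, fun ξ hξ => ?_⟩
  · rw [hκ, sub_sub_cancel, inv_div, pow_zero, one_mul]
  · show (∑' n, g (n + 0) x).im = 0
    rw [Complex.im_tsum ((Rc 0).1 x hx)]
    simp [fun n => (gc n).2 x hx]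
  · have cst : ∀ N, T (R 0) ξ - R 1 ξ = T (R N) ξ - R (N + 1) ξ := by
      intro N
      induction N with
      | zero => rfl
      | succ N ih => rw [ih, step N ξ hξ]
    have bd : ∀ N, ‖T (R 0) ξ - R 1 ξ‖ ≤ κ ^ N * (2 * κ * (1 - κ)⁻¹ * b * ‖ξ‖ ^ 4) := fun N => by
      rw [cst N]
      exact (lin_sub ((H.T (Rc N).2).b ξ hξ) ((Rc (N + 1)).2.b ξ hξ)).trans (le_of_eq (by ring))
    have lim := (tendsto_pow_atTop_nhds_zero_of_lt_one k0 k1).mul_const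
      (2 * κ * (1 - κ)⁻¹ * b * ‖ξ‖ ^ 4)
    have z := ge_of_tendsto' lim bd
    rw [zero_mul, norm_le_zero_iff] at z
    have z2 : R 0 ξ = f ξ + R 1 ξ := Rs 0 ξ hξ
    linear_combination z2 - z

theorem linsolve {θ η μ0 B e μ : ℝ} {zp zm h ρ U E : ℂ → ℂ} (H : LinHyp θ η μ0 B zp zm h ρ U)
    (dE : DifferentiableOn ℂ E (Sec θ)) (rE : Rl E θ)
    (hE : ∀ ξ ∈ Sec θ, ‖E ξ‖ ≤ e * ‖ξ‖ ^ 4) :
    ∃ w, WOK θ η (200 / η * (e + 2 * η * |μ|)) μ zp zm h ρ U E w := by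
  have e0 : 0 ≤ e := (⟨dE, hE⟩ : LinC θ e E).nonneg H.t0
  have c : LinC θ (e + 2 * η * |μ|) (fun ξ =>
      ((Real.pi : ℂ) * (1 + kap) * η * ξ ^ 5 * μ - E ξ) / (Real.pi * linD η zp h ξ)) := by
    refine ⟨DifferentiableOn.div (by fun_prop) (H.sp.dD.const_mul _) fun ξ hξ => H.Dne hξ,
      fun ξ hξ => ?_⟩
    have h4 : ‖ξ ^ 4‖ ≤ ‖ξ‖ ^ 4 := (norm_pow _ _).le
    have h1 := lin_sub (lin_mul (lin_mul (lin_mul (lin_mul lin_pi (lin_add lin_1 lin_kap)) H.eta)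
      (lin_mul h4 (lin_n H.t0 H.th2 hξ).1)) (lin_re (le_refl |μ|))) (hE ξ hξ)
    rw [← pow_succ, ← div_mul_cancel₀ (_ - E ξ) (H.Dne hξ)] at h1
    refine (lin_cancel h1 (by norm_num) (H.Dlow hξ)).trans ?_
    have a1 : 0 ≤ e * ‖ξ‖ ^ 4 := by positivity
    have a2 : 0 ≤ η * |μ| * ‖ξ‖ ^ 4 := by have := H.et1; positivity
    unfold th0
    linarith
  obtain ⟨w, cw, rw', hw⟩ := lin_fix H c fun x hx => by
    simp [Complex.div_im, H.sp.rD x hx, rE x hx, ← Complex.ofReal_pow]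
  refine ⟨w, cw.d, rw', cw.b, fun ξ hξ => ?_⟩
  have := hw ξ hξ
  unfold linT at this
  rw [sub_sub_cancel, div_left_inj' (H.Dne hξ)] at this
  unfold linL at this
  linear_combination this

theorem WOK.smul {θ η a : ℝ} {zp zm h ρ U w : ℂ → ℂ}
    (H : WOK θ η a 1 zp zm h ρ U (fun _ => 0) w) (c : ℝ) :
    WOK θ η (|c| * a) c zp zm h ρ U (fun _ => 0) (fun ξ => c * w ξ) := by
  refine ⟨H.dw.const_mul _, fun x hx => by simp [H.rw x hx], fun ξ hξ =>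
    (lin_mul (lin_re (le_refl |c|)) (H.w0 ξ hξ)).trans (le_of_eq (by ring)), fun ξ hξ => ?_⟩
  have e1 : wm ρ U (fun ξ => c * w ξ) = fun ξ => c * wm ρ U w ξ := by
    funext ζ
    unfold wm
    rw [mul_add, ← lin_prim_smul]
    simp only [mul_left_comm (c : ℂ), mul_neg]
  have e2 : ell U (fun ξ => c * w ξ) = c * ell U w := by
    rw [lin_ell, lin_ell, lin_prim_smul]
  have := H.eq ξ hξ
  rw [e1, e2, Lcap_smul, Lcap_smul]
  push_cast at this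
  linear_combination (c : ℂ) * this

theorem WOK.nontriv {θ η μ0 B a : ℝ} {zp zm h ρ U w : ℂ → ℂ} (H : LinHyp θ η μ0 B zp zm h ρ U)
    (W : WOK θ η a 1 zp zm h ρ U (fun _ => 0) w) : ∃ x ∈ Ioo (0 : ℝ) 1, (w x).re ≠ 0 := by
  by_contra hn
  push Not at hn
  have t0 := H.t0
  have an : AnalyticOnNhd ℂ w (Sec θ) := W.dw.analyticOnNhd (isOpen_Sec θ)
  have hz : ∀ x ∈ Ioo (0 : ℝ) 1, w x = 0 := fun x hx =>
    Complex.ext (hn x hx) (W.rw x (Sec_real t0 hx.1 hx.2.le))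
  have fr : ∃ᶠ z in 𝓝[≠] (((1 / 2 : ℝ) : ℂ)), w z = 0 := by
    have h1 : Tendsto (fun x : ℝ => (x : ℂ)) (𝓝[≠] (1 / 2)) (𝓝[≠] (((1 / 2 : ℝ) : ℂ))) :=
      tendsto_nhdsWithin_of_tendsto_nhds_of_eventually_within _
        (Complex.continuous_ofReal.continuousAt.tendsto.mono_left nhdsWithin_le_nhds)
        (eventually_nhdsWithin_of_forall fun x hx e => hx (Complex.ofReal_injective e))
    refine h1.frequently (Eventually.frequently ?_)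
    filter_upwards [nhdsWithin_le_nhds (Ioo_mem_nhds (by norm_num : (0 : ℝ) < 1 / 2)
      (by norm_num : (1 / 2 : ℝ) < 1))] with x hx using hz x hx
  have z := an.eqOn_zero_of_preconnected_of_frequently_eq_zero (convex_Sec θ).isPreconnected
    (Sec_real t0 (by norm_num) (by norm_num)) fr
  have c0 : LinC θ 0 w := ⟨W.dw, fun ξ hξ => by simp [z hξ]⟩
  have l1 := (Lcap_diff t0 H.th2 H.et1.le H.et2 zero_le_one (H.sp.ld c0)).2 1 H.one
  have l2 := (Lcap_diff t0 H.th2 H.et1.le H.et2 zero_le_one (H.sm.ld (H.wm c0))).2 1 H.one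
  have l3 := (H.W c0).prim5 t0 H.one
  rw [← lin_ell] at l3
  simp only [mul_zero, zero_mul, zero_div, norm_le_zero_iff] at l1 l2 l3
  have := W.eq 1 H.one
  rw [l1, l2, l3] at this
  have k : (Real.pi * (1 + kap) * η : ℝ) = 0 := by
    apply Complex.ofReal_injective
    push_cast at this ⊢
    linear_combination -this
  have : 0 < Real.pi * (1 + kap) * η := by
    have := H.et1
    have := Real.pi_pos
    unfold kap; positivity
  exact this.ne' k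

theorem WOK.ell_real {θ η μ0 B a μ : ℝ} {zp zm h ρ U E w : ℂ → ℂ}
    (H : LinHyp θ η μ0 B zp zm h ρ U) (W : WOK θ η a μ zp zm h ρ U E w) : (ell U w).im = 0 :=
  H.rell W.rw

theorem WOK.mono {θ η a a' μ : ℝ} {zp zm h ρ U E w : ℂ → ℂ}
    (W : WOK θ η a μ zp zm h ρ U E w) (ha : a ≤ a') : WOK θ η a' μ zp zm h ρ U E w :=
  ⟨W.dw, W.rw, fun ξ hξ => (W.w0 ξ hξ).trans (mul_le_mul_of_nonneg_right ha (by positivity)), W.eq⟩

theorem CapInv.lin {q θ B η a0 b0 c0 : ℝ} {u T H e : ℂ → ℂ} (t0 : 0 < θ) (t2 : θ ≤ th0)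
    (e0 : 0 < η) (e2 : η ≤ q) (q1 : q ≤ del1) (hB : B ≤ th0 ^ 2 * η)
    (h : CapInv q θ B u T H e a0 b0 c0) {ξ : ℂ} (hξ : ξ ∈ Sec θ) (he : ‖deriv e ξ‖ ≤ η + B) :
    ‖H ξ + e ξ - 1‖ ≤ th0 ∧ ‖deriv (fun ζ => H ζ + e ζ) ξ‖ ≤ th0 := by
  have n2 := (lin_n t0 t2 hξ).2
  have hn := (isOpen_Sec θ).mem_nhds hξ
  have s : ‖(q : ℂ)‖ ≤ del1 := lin_re (by rw [abs_of_pos (by linarith)]; exact q1)
  have hf : ‖(1 / 2 : ℂ)‖ ≤ 1 / 2 := by simp
  unfold th0 del1 at *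
  have hB' : B ≤ 1 / 10 ^ 7 := by linarith
  have T0 : ‖T ξ‖ ≤ 11 / 10 := (lin_one (h.T0 ξ hξ)).trans (by unfold del1; linarith)
  have u1 : ‖deriv u ξ‖ ≤ 11 / 10 :=
    lin_eq (lin_sub (h.u1 ξ hξ) lin_1) (by ring) (by unfold del1; linarith)
  have u0 : ‖u ξ‖ ≤ 11 / 10 :=
    lin_eq (lin_add (h.u0 ξ hξ) n2) (by ring) (by unfold del1; linarith)
  have T1 : ‖deriv T ξ‖ ≤ 1 / 10 :=
    lin_eq (lin_add (h.T1 ξ hξ) (lin_mul s hf)) (by ring) (by linarith)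
  refine ⟨lin_eq (lin_add (h.H0 ξ hξ) (h.e0 ξ hξ)) (by ring) (by unfold del1; linarith), ?_⟩
  rw [deriv_fun_add (h.dH.differentiableAt hn) (h.de.differentiableAt hn), h.H1 ξ hξ]
  exact lin_eq (lin_sub he (lin_mul s (lin_add (lin_mul (lin_mul T0 u1) hf) (lin_mul u0 T1))))
    (by ring) (by linarith)

/-- the invariants give the hypotheses of the linear problem -/
theorem InvC.lin {P : Par} {θ d B : ℝ} {S : St} (hP : ParOK P) (t1 : th0 / 2 ≤ θ) (t2 : θ ≤ th0)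
    (hB : B ≤ th0 ^ 2 * P.η) (h : InvC P θ d B S) :
    LinHyp θ P.η P.μ0 B S.zp S.zm S.h S.ρ S.U := by
  have t0 : 0 < θ := lt_of_lt_of_le (by unfold th0; norm_num) t1
  have e0 := hP.et1
  have e2 := hP.et2
  have q1 := hP.q1
  have e1 : P.η ≤ th0 := (e2.trans q1).trans (by unfold th0 del1; norm_num)
  have he : ∀ ξ ∈ Sec θ, ‖deriv S.h ξ‖ ≤ P.η + B := fun ξ hξ =>
    lin_eq (lin_sub (h.h1 ξ hξ) (lin_re (abs_of_pos e0).le)) (by ring) (by linarith)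
  have p := fun ξ hξ => h.cp.lin t0 t2 e0 e2 q1 hB hξ (he ξ hξ)
  have m := fun ξ hξ => h.cm.lin t0 t2 e0 e2 q1 hB hξ (by rw [lin_dneg, norm_neg]; exact he ξ hξ)
  have em : S.zm = fun ξ => S.Hm ξ + -S.h ξ := by funext ξ; exact sub_eq_add_neg _ _
  refine ⟨t1, t2, e0, e1, hP.mu, hB, h.cp.dH.add h.cp.de, h.cm.dH.sub h.cp.de, h.cp.de, h.dρ, h.dU,
    fun x hx => by simp [St.zp, h.cp.rH x hx, h.cp.re x hx],
    fun x hx => by simp [St.zm, h.cm.rH x hx, h.cp.re x hx], h.cp.re, h.rρ, h.rU,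
    fun ξ hξ => (p ξ hξ).1, fun ξ hξ => by rw [em]; exact (m ξ hξ).1, fun ξ hξ => (p ξ hξ).2,
    fun ξ hξ => by rw [em]; exact (m ξ hξ).2, h.h1, h.h2, fun ξ hξ => ?_, h.ρ1, h.U0, h.f1, h.f2⟩
  have hU := (U_maps t1 le_rfl t2 e0 e1 hP.mu hB h.U0 hξ).1
  have a1 := h.cm.T0 ξ hξ
  have a2 : ‖(S.ρ ξ - 1) * S.Tm ξ‖ ≤ del1 + B + (del1 + B) :=
    lin_eq (lin_sub (h.cp.T0 _ hU) a1) (by rw [← h.ρT ξ hξ]; ring) le_rfl
  have a3 := lin_low a1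
  unfold th0 del1 at *
  exact (lin_cancel a2 (c := 1 / 2) (by norm_num) (by linarith)).trans (by linarith)

end Bon3
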