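import Pool.Agent.Lib.MP_3dbf58_gt.Tool
import Pool.Agent.Lib.MP_3dbf58_gt.Lc

/-! Algebraic estimates and the kernel bound for the linear problem. -/

open Set Filter Topology MeasureTheory Metric

noncomputable section

namespace Bon3

theorem lin_add {a b : ℂ} {A B : ℝ} (ha : ‖a‖ ≤ A) (hb : ‖b‖ ≤ B) : ‖a + b‖ ≤ A + B :=
  (norm_add_le _ _).trans (add_le_add ha hb)
theorem lin_sub {a b : ℂ} {A B : ℝ} (ha : ‖a‖ ≤ A) (hb : ‖b‖ ≤ B) : ‖a - b‖ ≤ A + B :=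
  (norm_sub_le _ _).trans (add_le_add ha hb)
theorem lin_mul {a b : ℂ} {A B : ℝ} (ha : ‖a‖ ≤ A) (hb : ‖b‖ ≤ B) : ‖a * b‖ ≤ A * B := by
  rw [norm_mul]; exact mul_le_mul ha hb (norm_nonneg _) ((norm_nonneg _).trans ha)
theorem lin_one {a : ℂ} {A : ℝ} (h : ‖a - 1‖ ≤ A) : ‖a‖ ≤ 1 + A := by
  have := norm_add_le (1 : ℂ) (a - 1)
  rw [add_sub_cancel, norm_one] at this; linarith
theorem lin_low {a : ℂ} {A : ℝ} (h : ‖a - 1‖ ≤ A) : 1 - A ≤ ‖a‖ := by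
  have := norm_sub_le a (a - 1)
  rw [sub_sub_cancel, norm_one] at this; linarith
theorem lin_1 : ‖(1 : ℂ)‖ ≤ 1 := by simp
theorem lin_2 : ‖(2 : ℂ)‖ ≤ 2 := by simp
theorem lin_4 : ‖(4 : ℂ)‖ ≤ 4 := by simp
theorem lin_6 : ‖(6 : ℂ)‖ ≤ 6 := by simp
theorem lin_re {x A : ℝ} (h : |x| ≤ A) : ‖(x : ℂ)‖ ≤ A := by simpa using h
theorem lin_kap : ‖(kap : ℂ)‖ ≤ 1 / 30 := lin_re (by unfold kap; norm_num)
theorem lin_pi : ‖(Real.pi : ℂ)‖ ≤ 4 :=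
  lin_re (by rw [abs_of_pos Real.pi_pos]; exact Real.pi_le_four)
theorem lin_cancel {a b : ℂ} {A c : ℝ} (h : ‖a * b‖ ≤ A) (hc : 0 < c) (hb : c ≤ ‖b‖) :
    ‖a‖ ≤ A / c := by
  rw [norm_mul] at h
  rw [le_div_iff₀ hc]
  exact (mul_le_mul_of_nonneg_left hb (norm_nonneg _)).trans h
theorem lin_eq {a b : ℂ} {A B : ℝ} (h : ‖b‖ ≤ B) (e : a = b) (hB : B ≤ A) : ‖a‖ ≤ A :=
  e ▸ h.trans hB

theorem lin_phi {z z' τ : ℂ} (hz : ‖z - 1‖ ≤ th0) (hz' : ‖z'‖ ≤ th0) (hτ : ‖τ‖ ≤ 1 + 2 * th0) :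
    ‖z ^ 2 - 2 * τ * z * z' - 1‖ ≤ 5 * th0 := by
  unfold th0 at *
  refine lin_eq (lin_sub (lin_mul hz (lin_add (lin_one hz) lin_1))
    (lin_mul (lin_mul (lin_mul lin_2 hτ) (lin_one hz)) hz')) (by ring) (by norm_num)

theorem lin_J {η s : ℝ} {z e' τ : ℂ} (e0 : 0 < η) (e1 : η ≤ th0) (hs : |s| ≤ η)
    (hz : ‖z - 1‖ ≤ th0) (he : ‖e' - s‖ ≤ th0 ^ 2 * η) (hτ : ‖τ‖ ≤ 1 + 2 * th0) :
    ‖z ^ 2 - τ * e' * (2 * z) - 1‖ ≤ 5 * th0 ∧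
    ‖isq (z ^ 2 - τ * e' * (2 * z)) * z - (1 + τ * s)‖ ≤ 10 * th0 * η := by
  unfold th0 at *
  have s1 : ‖(s : ℂ)‖ ≤ η := lin_re hs
  have s2 : ‖(s : ℂ)‖ ≤ 1 / 10 ^ 6 := s1.trans e1
  have e2 : ‖e'‖ ≤ 101 / 10 ^ 8 := lin_eq (lin_add he s2) (by ring) (by linarith)
  have hN : ‖z ^ 2 - τ * e' * (2 * z) - 1‖ ≤ 5 * (1 / 10 ^ 6) :=
    lin_eq (lin_sub (lin_mul hz (lin_add (lin_one hz) lin_1))
      (lin_mul (lin_mul hτ e2) (lin_mul lin_2 (lin_one hz)))) (by ring) (by norm_num)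
  refine ⟨hN, ?_⟩
  have hI := (isq_near (hN.trans (by norm_num))).1
  have hne : z ^ 2 - τ * e' * (2 * z) ≠ 0 := by
    intro h; rw [h] at hN; norm_num at hN
  have hq := isq_sq hne
  set I := isq (z ^ 2 - τ * e' * (2 * z)) with hIdef
  have hI' : ‖I - 1‖ ≤ 1 / 10 ^ 5 := by linarith
  have hy : ‖z - 2 * τ * e' - 1‖ ≤ 1 / 10 :=
    lin_eq (lin_sub hz (lin_mul (lin_mul lin_2 hτ) e2)) (by ring) (by norm_num)
  have hx : ‖(I * z + (1 + τ * s)) / 2 - 1‖ ≤ 1 / 10 := by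
    have : ‖(I - 1) * z + (z - 1) + τ * s‖ ≤ 1 / 5 :=
      (lin_add (lin_add (lin_mul hI' (lin_one hz)) hz) (lin_mul hτ s2)).trans (by norm_num)
    rw [show (I * z + (1 + τ * s)) / 2 - 1 = ((I - 1) * z + (z - 1) + τ * s) / 2 by ring,
      norm_div, Complex.norm_two]
    linarith
  have key : ‖(I * z - (1 + τ * s)) * ((I * z + (1 + τ * s)) / 2) * (z - 2 * τ * e') * 2‖ ≤
      8 * (1 / 10 ^ 6) * η := by
    refine lin_eq (lin_sub (lin_add (lin_sub (lin_mul (lin_mul lin_2 hτ) he)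
      (lin_mul (lin_mul (lin_mul lin_2 hτ) s1) hz))
      (lin_mul (lin_mul (lin_mul (lin_mul lin_4 hτ) hτ) s1) e2))
      (lin_mul (lin_mul (lin_mul (lin_mul hτ hτ) s1) s2) (lin_one hy))) ?_ (by nlinarith)
    linear_combination z * hq
  have k1 := lin_cancel key (c := 2) (by norm_num) (by simp)
  have k2 := lin_cancel k1 (c := 1 - 1 / 10) (by norm_num) (lin_low hy)
  have k3 := lin_cancel k2 (c := 1 - 1 / 10) (by norm_num) (lin_low hx)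
  refine k3.trans ?_
  norm_num
  linarith

theorem lin_c {η : ℝ} {zp zm zp' zm' h' ρ ξ : ℂ} (e0 : 0 < η) (e1 : η ≤ th0)
    (hp : ‖zp - 1‖ ≤ th0) (hm : ‖zm - 1‖ ≤ th0) (hp' : ‖zp'‖ ≤ th0) (hm' : ‖zm'‖ ≤ th0)
    (hh : ‖h' + η‖ ≤ th0 ^ 2 * η) (f1 : ‖ρ * zm - zp * (1 - kap * η * ξ)‖ ≤ th0 ^ 2 * η)
    (f2 : ‖zm' * zp - zp' * zm - 2 * η‖ ≤ th0 ^ 2 * η) (hξ : ‖ξ‖ ≤ 1 + 3 * th0)
    (hτ : ‖1 - ξ‖ ≤ 1 + 2 * th0) :
    ‖(zm ^ 2 - 2 * (1 - ξ) * zm * zm') * isq (zm ^ 2 - (1 - ξ) * -h' * (2 * zm)) * ρ -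
      (zp ^ 2 - 2 * (1 - ξ) * zp * zp') * isq (zp ^ 2 - (1 - ξ) * h' * (2 * zp)) *
        (1 - 2 * η * (1 - ξ) - kap * η * ξ)‖ ≤ 60 * th0 * η := by
  have Jp := (lin_J (s := -η) (e' := h') e0 e1 (by rw [abs_neg, abs_of_pos e0]) hp
    (by simpa using hh) hτ).2
  have Jm := (lin_J (s := η) (e' := -h') e0 e1 (by rw [abs_of_pos e0]) hm
    (by rw [← norm_neg]; simpa [add_comm] using hh) hτ).2
  unfold th0 at *
  set Ip := isq (zp ^ 2 - (1 - ξ) * h' * (2 * zp))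
  set Im := isq (zm ^ 2 - (1 - ξ) * -h' * (2 * zm))
  set τ := 1 - ξ
  have s1 : ‖(η : ℂ)‖ ≤ η := lin_re (by rw [abs_of_pos e0])
  have s2 : ‖(η : ℂ)‖ ≤ 1 / 10 ^ 6 := s1.trans e1
  have hB : ‖zp - 2 * τ * zp' - 1‖ ≤ 4 / 10 ^ 6 :=
    lin_eq (lin_sub hp (lin_mul (lin_mul lin_2 hτ) hp')) (by ring) (by norm_num)
  have hk : ‖kap * η * ξ‖ ≤ 1 / 10 ^ 6 :=
    (lin_mul (lin_mul lin_kap s2) hξ).trans (by norm_num)
  have hA : ‖((zm - 2 * τ * zm') * ρ - (zp - 2 * τ * zp') * (1 - kap * η * ξ - 4 * τ * η)) * zm‖ ≤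
      25 * (1 / 10 ^ 6) * η := by
    refine lin_eq (lin_add (lin_sub (lin_mul (lin_mul (lin_mul lin_4 hτ) s1)
      (lin_add (lin_add (lin_mul hm (lin_one hB)) hB) hk))
      (lin_mul (lin_mul (lin_mul lin_2 hτ) f2) (lin_sub lin_1 hk)))
      (lin_mul f1 (lin_sub (lin_one hm) (lin_mul (lin_mul lin_2 hτ) hm')))) (by ring)
      (by nlinarith)
  have hA' := lin_cancel hA (c := 1 - 1 / 10 ^ 6) (by norm_num) (lin_low hm)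
  have hA2 : ‖(zm - 2 * τ * zm') * ρ - (zp - 2 * τ * zp') * (1 - kap * η * ξ - 4 * τ * η)‖ ≤
      26 * (1 / 10 ^ 6) * η := hA'.trans (by rw [div_le_iff₀ (by norm_num)]; nlinarith)
  have hJ : ‖Im * zm‖ ≤ 101 / 100 :=
    lin_eq (lin_add Jm (lin_add lin_1 (lin_mul hτ s2))) (by ring) (by nlinarith)
  have hc1 : ‖1 - kap * η * ξ - 4 * τ * η‖ ≤ 101 / 100 :=
    (lin_sub (lin_sub lin_1 hk) (lin_mul (lin_mul lin_4 hτ) s2)).trans (by norm_num)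
  have hc0 : ‖1 - 2 * η * τ - kap * η * ξ‖ ≤ 101 / 100 :=
    (lin_sub (lin_sub lin_1 (lin_mul (lin_mul lin_2 s2) hτ)) hk).trans (by norm_num)
  refine lin_eq (lin_sub (lin_add (lin_sub (lin_mul hA2 hJ)
    (lin_mul (lin_one hB) (lin_mul (lin_mul hτ s1)
      (lin_add (lin_mul lin_2 hk) (lin_mul (lin_mul lin_6 hτ) s2)))))
    (lin_mul (lin_mul (lin_one hB) hc1) Jm)) (lin_mul (lin_mul (lin_one hB) hc0) Jp))
    (by push_cast; ring) (by nlinarith)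

/-! ### The weight -/

def linOm (s : ℝ) : ℝ := s / Real.sqrt (s * (1 - s))

theorem linOm_deriv {s : ℝ} (h : s ∈ Ioo (0 : ℝ) 1) :
    HasDerivAt (fun s => Real.arcsin (2 * s - 1) / 2 - Real.sqrt (s * (1 - s))) (linOm s) s := by
  obtain ⟨h0, h1⟩ := h
  have hp : 0 < s * (1 - s) := mul_pos h0 (by linarith)
  have a1 : HasDerivAt (fun s : ℝ => 2 * s - 1) 2 s := by
    simpa using ((hasDerivAt_id s).const_mul 2).sub_const 1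
  have a2 := (Real.hasDerivAt_arcsin (x := 2 * s - 1) (by linarith) (by linarith)).comp s a1
  have a3 : HasDerivAt (fun s : ℝ => s * (1 - s)) (1 - 2 * s) s := by
    refine ((hasDerivAt_id' s).mul ((hasDerivAt_id' s).const_sub 1)).congr_deriv ?_
    ring
  have a4 := a3.sqrt hp.ne'
  refine ((a2.div_const 2).sub a4).congr_deriv ?_
  have e : Real.sqrt (1 - (2 * s - 1) ^ 2) = 2 * Real.sqrt (s * (1 - s)) := by
    rw [show 1 - (2 * s - 1) ^ 2 = 2 ^ 2 * (s * (1 - s)) by ring,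
      Real.sqrt_mul (by norm_num), Real.sqrt_sq (by norm_num)]
  have hs : 0 < Real.sqrt (s * (1 - s)) := Real.sqrt_pos.2 hp
  rw [e, linOm]
  field_simp
  ring

theorem linOm_nonneg {s : ℝ} (h : 0 ≤ s) : 0 ≤ linOm s := div_nonneg h (Real.sqrt_nonneg _)

theorem linOm_cont : ContinuousOn
    (fun s => Real.arcsin (2 * s - 1) / 2 - Real.sqrt (s * (1 - s))) (Icc (0 : ℝ) 1) := by
  refine Continuous.continuousOn ?_
  have := Real.continuous_arcsin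
  fun_prop

theorem linOm_int : IntegrableOn linOm (Ioo (0 : ℝ) 1) :=
  (intervalIntegral.integrableOn_deriv_of_nonneg linOm_cont (fun _ h => linOm_deriv h)
    (fun _ h => linOm_nonneg h.1.le)).mono_set Ioo_subset_Ioc_self

theorem linOm_val : ∫ s in Ioo (0 : ℝ) 1, linOm s = Real.pi / 2 := by
  have h := intervalIntegral.integral_eq_sub_of_hasDerivAt_of_le zero_le_one linOm_cont
    (fun _ h => linOm_deriv h)
    ((intervalIntegrable_iff_integrableOn_Ioo_of_le zero_le_one).2 linOm_int)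
  rw [intervalIntegral.integral_of_le zero_le_one, integral_Ioc_eq_integral_Ioo] at h
  rw [h]
  norm_num
  ring

/-! ### The class of holomorphic functions with a zero of order four -/

structure LinC (θ a : ℝ) (w : ℂ → ℂ) : Prop where
  d : DifferentiableOn ℂ w (Sec θ)
  b : ∀ ξ ∈ Sec θ, ‖w ξ‖ ≤ a * ‖ξ‖ ^ 4

theorem LinC.mono {θ a a' : ℝ} {w : ℂ → ℂ} (h : LinC θ a w) (ha : a ≤ a') : LinC θ a' w :=
  ⟨h.d, fun ξ hξ => (h.b ξ hξ).trans (mul_le_mul_of_nonneg_right ha (by positivity))⟩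

theorem LinC.nonneg {θ a : ℝ} {w : ℂ → ℂ} (t0 : 0 < θ) (h : LinC θ a w) : 0 ≤ a := by
  have := h.b _ (Sec_real t0 one_pos le_rfl)
  simp only [Complex.ofReal_one, norm_one, one_pow, mul_one] at this
  exact (norm_nonneg _).trans this

theorem LinC.sub {θ a a' : ℝ} {w w' : ℂ → ℂ} (h : LinC θ a w) (h' : LinC θ a' w') :
    LinC θ (a + a') (fun ζ => w ζ - w' ζ) :=
  ⟨h.d.sub h'.d, fun ξ hξ => (lin_sub (h.b ξ hξ) (h'.b ξ hξ)).trans_eq (by ring)⟩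

theorem LinC.add {θ a a' : ℝ} {w w' : ℂ → ℂ} (h : LinC θ a w) (h' : LinC θ a' w') :
    LinC θ (a + a') (fun ζ => w ζ + w' ζ) :=
  ⟨h.d.add h'.d, fun ξ hξ => (lin_add (h.b ξ hξ) (h'.b ξ hξ)).trans_eq (by ring)⟩

theorem LinC.mul {θ a c : ℝ} {f w : ℂ → ℂ} (h : LinC θ a w) (df : DifferentiableOn ℂ f (Sec θ))
    (hf : ∀ ξ ∈ Sec θ, ‖f ξ‖ ≤ c) : LinC θ (c * a) (fun ζ => f ζ * w ζ) :=
  ⟨df.mul h.d, fun ξ hξ => (lin_mul (hf ξ hξ) (h.b ξ hξ)).trans_eq (by ring)⟩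

theorem lin_n {θ : ℝ} {ξ : ℂ} (t0 : 0 < θ) (t1 : θ ≤ th0) (h : ξ ∈ Sec θ) :
    ‖ξ‖ ≤ 1 + 3 * th0 ∧ ‖1 - ξ‖ ≤ 1 + 2 * th0 := by
  obtain ⟨-, a, b, -⟩ := Sec_norm t0.le t1 h
  constructor <;> linarith

theorem lin_n4 {θ : ℝ} {ξ : ℂ} (t0 : 0 < θ) (t1 : θ ≤ th0) (h : ξ ∈ Sec θ) :
    ‖ξ‖ ^ 4 ≤ 1 + 13 * th0 := by
  have := pow_le_pow_left₀ (norm_nonneg _) (lin_n t0 t1 h).1 4
  refine this.trans ?_
  unfold th0; norm_num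

theorem LinC.bd {θ a : ℝ} {w : ℂ → ℂ} (t0 : 0 < θ) (t1 : θ ≤ th0) (h : LinC θ a w) :
    ∀ ξ ∈ Sec θ, ‖w ξ‖ ≤ a * (1 + 13 * th0) := fun ξ hξ =>
  (h.b ξ hξ).trans (mul_le_mul_of_nonneg_left (lin_n4 t0 t1 hξ) (h.nonneg t0))

theorem LinC.int {θ a : ℝ} {w : ℂ → ℂ} (t0 : 0 < θ) (t1 : θ ≤ th0) (h : LinC θ a w) {ξ : ℂ}
    (hξ : ξ ∈ Sec θ) : IntegrableOn (fun v : ℝ => w (v * ξ)) (Ioo (0 : ℝ) 1) := by
  have hm : ∀ v ∈ Ioo (0 : ℝ) 1, (v : ℂ) * ξ ∈ Sec θ := fun v hv =>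
    Sec_smul t0.le hξ hv.1 hv.2.le
  have hc : ContinuousOn (fun v : ℝ => w (v * ξ)) (Ioo (0 : ℝ) 1) :=
    h.d.continuousOn.comp (by fun_prop) hm
  refine Integrable.of_bound (hc.aestronglyMeasurable measurableSet_Ioo) (a * (1 + 13 * th0)) ?_
  filter_upwards [ae_restrict_mem measurableSet_Ioo] with v hv
  exact h.bd t0 t1 _ (hm v hv)

theorem LinC.prim_add {θ a a' : ℝ} {w w' : ℂ → ℂ} (t0 : 0 < θ) (t1 : θ ≤ th0) (h : LinC θ a w)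
    (h' : LinC θ a' w') {ξ : ℂ} (hξ : ξ ∈ Sec θ) :
    prim (fun ζ => w ζ + w' ζ) ξ = prim w ξ + prim w' ξ := by
  unfold prim
  rw [integral_add (h.int t0 t1 hξ) (h'.int t0 t1 hξ), mul_add]

theorem LinC.prim_sub {θ a a' : ℝ} {w w' : ℂ → ℂ} (t0 : 0 < θ) (t1 : θ ≤ th0) (h : LinC θ a w)
    (h' : LinC θ a' w') {ξ : ℂ} (hξ : ξ ∈ Sec θ) :
    prim (fun ζ => w ζ - w' ζ) ξ = prim w ξ - prim w' ξ := by
  unfold prim
  rw [integral_sub (h.int t0 t1 hξ) (h'.int t0 t1 hξ), mul_sub]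

theorem lin_prim_smul (c : ℂ) (w : ℂ → ℂ) (ξ : ℂ) : prim (fun ζ => c * w ζ) ξ = c * prim w ξ := by
  unfold prim
  rw [integral_const_mul]; ring

theorem lin_prim_congr {θ : ℝ} {w w' : ℂ → ℂ} (t0 : 0 < θ) (h : EqOn w w' (Sec θ)) :
    EqOn (prim w) (prim w') (Sec θ) := fun ξ hξ => by
  unfold prim
  rw [setIntegral_congr_fun measurableSet_Ioo
    (fun v hv => h (Sec_smul t0.le hξ hv.1 hv.2.le))]

theorem LinC.prim_deriv {θ a : ℝ} {w : ℂ → ℂ} (t0 : 0 < θ) (t1 : θ ≤ th0) (h : LinC θ a w) {ξ : ℂ}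
    (hξ : ξ ∈ Sec θ) : HasDerivAt (prim w) (w ξ) ξ :=
  prim_hasDerivAt t0.le (isOpen_Sec θ) Subset.rfl (fun _ h' _ v0 v1 => Sec_smul t0.le h' v0 v1)
    h.d (h.bd t0 t1) hξ

theorem LinC.prim5 {θ a : ℝ} {w : ℂ → ℂ} (t0 : 0 < θ) (h : LinC θ a w) {ξ : ℂ}
    (hξ : ξ ∈ Sec θ) : ‖prim w ξ‖ ≤ a / 5 * ‖ξ‖ ^ 5 := by
  have := prim_norm (M := a) (k := 4) (f := w) (ξ := ξ)
    (fun v v0 v1 => h.b _ (Sec_smul t0.le hξ v0 v1.le))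
  norm_num at this
  exact this

theorem LinC.prim {θ a : ℝ} {w : ℂ → ℂ} (t0 : 0 < θ) (t1 : θ ≤ th0) (h : LinC θ a w) :
    LinC θ (a / 4) (prim w) := by
  refine ⟨fun ξ hξ => (h.prim_deriv t0 t1 hξ).differentiableAt.differentiableWithinAt,
    fun ξ hξ => (h.prim5 t0 hξ).trans ?_⟩
  have a0 := h.nonneg t0
  have n1 : ‖ξ‖ ≤ 5 / 4 := (lin_n t0 t1 hξ).1.trans (by unfold th0; norm_num)
  have : 0 ≤ a * ‖ξ‖ ^ 4 := by positivity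
  calc a / 5 * ‖ξ‖ ^ 5 = a * ‖ξ‖ ^ 4 * ‖ξ‖ / 5 := by ring
    _ ≤ a * ‖ξ‖ ^ 4 * (5 / 4) / 5 := by gcongr
    _ = _ := by ring

/-! ### Diagonal part and kernel part -/

def linD (η : ℝ) (z e : ℂ → ℂ) (ξ : ℂ) : ℂ :=
  (z ξ ^ 2 - 2 * (1 - ξ) * z ξ * deriv z ξ) * mm η ξ * isq (nd z e ξ)

def linK (η : ℝ) (z e w : ℂ → ℂ) (ξ : ℂ) : ℂ :=
  ξ * ∫ p in Ioo (0 : ℝ) 1 ×ˢ Ioo (0 : ℝ) 1,
    ff z w (p.1 * ξ) * ((p.2 / Real.sqrt (p.2 * (1 - p.2)) : ℝ) : ℂ) *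
      k1 η z e (p.1 * ξ + p.2 * (1 - p.1) * ξ) (p.1 * ξ)

theorem lin_Lcap (η : ℝ) (z e w : ℂ → ℂ) (ξ : ℂ) :
    Lcap η z e w ξ = Real.pi * linD η z e ξ * w ξ + linK η z e w ξ := by
  unfold Lcap linD linK
  rw [ff]; ring

/-- fine data of one cap -/
structure LinS (θ η s : ℝ) (z e : ℂ → ℂ) : Prop where
  t0 : 0 < θ
  t1 : θ ≤ th0
  e0 : 0 < η
  e1 : η ≤ th0
  hs : |s| ≤ η
  dz : DifferentiableOn ℂ z (Sec θ)
  de : DifferentiableOn ℂ e (Sec θ)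
  rz : Rl z θ
  re : Rl e θ
  z0 : ∀ ξ ∈ Sec θ, ‖z ξ - 1‖ ≤ th0
  z1 : ∀ ξ ∈ Sec θ, ‖deriv z ξ‖ ≤ th0
  h1 : ∀ ξ ∈ Sec θ, ‖deriv e ξ - s‖ ≤ th0 ^ 2 * η
  h2 : ∀ ξ ∈ Sec θ, ‖deriv (deriv e) ξ‖ ≤ th0 ^ 2 * η

theorem LinS.ld {θ η s a : ℝ} {z e w : ℂ → ℂ} (S : LinS θ η s z e) (h : LinC θ a w) :
    LD θ 1 a z e w := by
  have e1 := S.e1
  have e0 := S.e0
  refine ⟨S.dz, S.de, h.d, fun ξ hξ => (S.z0 ξ hξ).trans ?_, fun ξ hξ => (S.z1 ξ hξ).trans ?_,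
    fun ξ hξ => lin_eq (lin_add (S.h1 ξ hξ) (lin_re S.hs)) (by ring) ?_, fun ξ hξ => ?_, h.b⟩
  · unfold th0; norm_num
  · unfold th0; norm_num
  · unfold th0 at *; linarith
  · refine (mul_le_mul (S.h2 ξ hξ) (lin_n S.t0 S.t1 hξ).1 (norm_nonneg _) (by positivity)).trans ?_
    unfold th0 at *; linarith

theorem LinS.mm {θ η s : ℝ} {z e : ℂ → ℂ} (S : LinS θ η s z e) {ξ : ℂ} (hξ : ξ ∈ Sec θ) :
    ‖mm η ξ - 1‖ ≤ 2 * th0 := by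
  have s2 : ‖(η : ℂ)‖ ≤ th0 := lin_re (by rw [abs_of_pos S.e0]; exact S.e1)
  refine lin_eq (lin_mul s2 (lin_n S.t0 S.t1 hξ).2) (by unfold Bon3.mm; ring) ?_
  unfold th0; norm_num

theorem LinS.nd {θ η s : ℝ} {z e : ℂ → ℂ} (S : LinS θ η s z e) {ξ : ℂ} (hξ : ξ ∈ Sec θ) :
    ‖nd z e ξ - 1‖ ≤ 5 * th0 :=
  (lin_J S.e0 S.e1 S.hs (S.z0 ξ hξ) (S.h1 ξ hξ) (lin_n S.t0 S.t1 hξ).2).1

theorem LinS.D {θ η s : ℝ} {z e : ℂ → ℂ} (S : LinS θ η s z e) {ξ : ℂ} (hξ : ξ ∈ Sec θ) :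
    ‖linD η z e ξ - 1‖ ≤ 20 * th0 := by
  have a1 := lin_phi (S.z0 ξ hξ) (S.z1 ξ hξ) (lin_n S.t0 S.t1 hξ).2
  have a2 := S.mm hξ
  have a3 := S.nd hξ
  have a4 : ‖isq (Bon3.nd z e ξ) - 1‖ ≤ 10 * th0 := by
    have := (isq_near (a3.trans (by unfold th0; norm_num))).1
    linarith
  refine lin_eq (lin_add (lin_mul (lin_add (lin_mul a1 (lin_one a2)) a2) (lin_one a4)) a4)
    (by unfold linD; ring) ?_
  unfold th0; norm_num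

theorem LinS.dD {θ η s : ℝ} {z e : ℂ → ℂ} (S : LinS θ η s z e) :
    DifferentiableOn ℂ (linD η z e) (Sec θ) := by
  have a1 := S.dz
  have a2 := S.dz.deriv (isOpen_Sec θ)
  have a3 := S.de.deriv (isOpen_Sec θ)
  have a4 : DifferentiableOn ℂ (Bon3.nd z e) (Sec θ) := by unfold Bon3.nd; fun_prop
  have a5 : DifferentiableOn ℂ (fun ξ => isq (Bon3.nd z e ξ)) (Sec θ) := fun ξ hξ =>
    (isq_hasDerivAt (slit_of_near ((S.nd hξ).trans_lt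
      (by unfold th0; norm_num)))).differentiableAt.comp_differentiableWithinAt ξ (a4 ξ hξ)
  unfold linD Bon3.mm
  fun_prop

theorem LinS.rD {θ η s : ℝ} {z e : ℂ → ℂ} (S : LinS θ η s z e) : Rl (linD η z e) θ := by
  intro x hx
  have a1 := S.rz x hx
  have a2 := Rl.deriv S.dz S.rz x hx
  have a3 := Rl.deriv S.de S.re x hx
  have a4 : (Bon3.nd z e x).im = 0 := by
    unfold Bon3.nd; simp [pow_two, a1, a3]
  have a5 : 0 ≤ (Bon3.nd z e x).re := by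
    have h1 := Complex.abs_re_le_norm (Bon3.nd z e x - 1)
    have h2 := S.nd hx
    have h3 := neg_abs_le (Bon3.nd z e x - 1).re
    simp only [Complex.sub_re, Complex.one_re] at h1 h3
    unfold th0 at h2; linarith
  have a6 : Bon3.nd z e x = ((Bon3.nd z e x).re : ℂ) := Complex.ext (by simp) (by simp [a4])
  have a7 : (isq (Bon3.nd z e x)).im = 0 := by rw [a6, isq_real a5, Complex.ofReal_im]
  unfold linD Bon3.mm
  simp [pow_two, a1, a2, a7]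

theorem LinS.sub {θ η s a a' : ℝ} {z e w w' : ℂ → ℂ} (S : LinS θ η s z e) (h : LinC θ a w)
    (h' : LinC θ a' w') {ξ : ℂ} (hξ : ξ ∈ Sec θ) :
    Lcap η z e (fun ζ => w ζ - w' ζ) ξ = Lcap η z e w ξ - Lcap η z e w' ξ := by
  have i1 := Lcap_int S.t0 S.t1 S.e0.le S.e1 zero_le_one (S.ld h) hξ
  have i2 := Lcap_int S.t0 S.t1 S.e0.le S.e1 zero_le_one (S.ld h') hξ
  have := integral_sub i1 i2
  unfold Lcap
  rw [add_sub_add_comm, ← mul_sub ξ, ← this]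
  congr 1
  · unfold ff; ring
  · congr 2
    funext p
    unfold ff; ring

/-- the kernel part is close to a multiple of the primitive -/
theorem LinS.K {θ η s a : ℝ} {z e w : ℂ → ℂ} (S : LinS θ η s z e) (h : LinC θ a w) {ξ : ℂ}
    (hξ : ξ ∈ Sec θ) :
    ‖linK η z e w ξ + (η + s) * (Real.pi / 2) * prim w ξ‖ ≤ 130 * th0 * η * (a * ‖ξ‖ ^ 4) := by
  have a0 := h.nonneg S.t0
  have e0 := S.e0
  have e1 := S.e1
  have i1 := Lcap_int S.t0 S.t1 S.e0.le S.e1 zero_le_one (S.ld h) hξ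
  have iw := h.int S.t0 S.t1 hξ
  have io : IntegrableOn (fun v : ℝ => (linOm v : ℂ)) (Ioo (0 : ℝ) 1) := linOm_int.ofReal
  have i2 : IntegrableOn (fun p : ℝ × ℝ => w (p.1 * ξ) * (linOm p.2 : ℂ))
      (Ioo (0 : ℝ) 1 ×ˢ Ioo (0 : ℝ) 1) := by
    rw [IntegrableOn, Measure.volume_eq_prod, ← Measure.prod_restrict]
    exact Integrable.mul_prod iw io
  have i3 : IntegrableOn (fun p : ℝ × ℝ => (61 * th0 * η * (a * ‖ξ‖ ^ 4)) * linOm p.2)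
      (Ioo (0 : ℝ) 1 ×ˢ Ioo (0 : ℝ) 1) := by
    rw [IntegrableOn, Measure.volume_eq_prod, ← Measure.prod_restrict]
    exact Integrable.mul_prod (f := fun _ : ℝ => 61 * th0 * η * (a * ‖ξ‖ ^ 4))
      (integrable_const _) linOm_int
  have v2 : ∫ p in Ioo (0 : ℝ) 1 ×ˢ Ioo (0 : ℝ) 1, w (p.1 * ξ) * (linOm p.2 : ℂ) =
      (∫ v in Ioo (0 : ℝ) 1, w (v * ξ)) * (Real.pi / 2) := by
    rw [Measure.volume_eq_prod, setIntegral_prod_mul (fun v : ℝ => w (v * ξ))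
      (fun v : ℝ => (linOm v : ℂ)), integral_complex_ofReal, linOm_val]
    push_cast; rfl
  have v3 : ∫ p in Ioo (0 : ℝ) 1 ×ˢ Ioo (0 : ℝ) 1, (61 * th0 * η * (a * ‖ξ‖ ^ 4)) * linOm p.2 =
      (61 * th0 * η * (a * ‖ξ‖ ^ 4)) * (Real.pi / 2) := by
    rw [Measure.volume_eq_prod, setIntegral_prod_mul (fun _ : ℝ => 61 * th0 * η * (a * ‖ξ‖ ^ 4))
      linOm, linOm_val]
    simp
  have ee : linK η z e w ξ + (η + s) * (Real.pi / 2) * prim w ξ =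
      ξ * ∫ p in Ioo (0 : ℝ) 1 ×ˢ Ioo (0 : ℝ) 1,
        (ff z w (p.1 * ξ) * ((p.2 / Real.sqrt (p.2 * (1 - p.2)) : ℝ) : ℂ) *
          k1 η z e (p.1 * ξ + p.2 * (1 - p.1) * ξ) (p.1 * ξ) +
          (η + s) * (w (p.1 * ξ) * (linOm p.2 : ℂ))) := by
    rw [integral_add i1 (i2.const_mul _), integral_const_mul, v2]
    unfold linK prim; ring
  have b : ‖∫ p in Ioo (0 : ℝ) 1 ×ˢ Ioo (0 : ℝ) 1,
        (ff z w (p.1 * ξ) * ((p.2 / Real.sqrt (p.2 * (1 - p.2)) : ℝ) : ℂ) *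
          k1 η z e (p.1 * ξ + p.2 * (1 - p.1) * ξ) (p.1 * ξ) +
          (η + s) * (w (p.1 * ξ) * (linOm p.2 : ℂ)))‖ ≤
      (61 * th0 * η * (a * ‖ξ‖ ^ 4)) * (Real.pi / 2) := by
    rw [← v3]
    refine norm_integral_le_of_norm_le i3 ?_
    filter_upwards [ae_restrict_mem (measurableSet_Ioo.prod measurableSet_Ioo)] with p hp
    obtain ⟨⟨v0, v1⟩, s0, s1⟩ := hp
    have hb : (p.1 : ℂ) * ξ ∈ Sec θ := Sec_smul S.t0.le hξ v0 v1.le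
    have ea : (p.1 : ℂ) * ξ + p.2 * (1 - p.1) * ξ = ((p.1 + p.2 * (1 - p.1) : ℝ) : ℂ) * ξ := by
      push_cast; ring
    have q0 : 0 < p.2 * (1 - p.1) := mul_pos s0 (by linarith)
    have ha : (p.1 : ℂ) * ξ + p.2 * (1 - p.1) * ξ ∈ Sec θ := by
      rw [ea]; exact Sec_smul S.t0.le hξ (by linarith) (by nlinarith)
    have hab : (p.1 : ℂ) * ξ + p.2 * (1 - p.1) * ξ ≠ p.1 * ξ := by
      rw [ea]
      intro hh
      have := Complex.ofReal_injective (mul_right_cancel₀ (Sec_ne hξ) hh)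
      linarith
    have k := k1_fine S.t0 S.t1 e0 e1 S.hs le_rfl S.de S.z0 S.h1 S.h2 ha hb hab
    have ph := lin_phi (S.z0 _ hb) (S.z1 _ hb) (lin_n S.t0 S.t1 hb).2
    have hw : ‖w (p.1 * ξ)‖ ≤ a * ‖ξ‖ ^ 4 := by
      refine (h.b _ hb).trans ?_
      have : ‖(p.1 : ℂ) * ξ‖ ≤ ‖ξ‖ :=
        (lin_mul (lin_re (A := 1) (by rw [abs_of_pos v0]; exact v1.le)) le_rfl).trans_eq
          (one_mul _)
      gcongr
    have ho : ‖(linOm p.2 : ℂ)‖ ≤ linOm p.2 := lin_re (abs_of_nonneg (linOm_nonneg s0.le)).le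
    have es : ‖(η : ℂ) + s‖ ≤ η + η := lin_add (lin_re (abs_of_pos e0).le) (lin_re S.hs)
    have in1 := (lin_sub (lin_mul (lin_one ph) k) (lin_mul ph es)).trans
      (show _ ≤ 61 * th0 * η by unfold th0; linarith)
    refine lin_eq (lin_mul (lin_mul in1 hw) ho) ?_ le_rfl
    unfold ff linOm; ring
  rw [ee]
  refine (lin_mul (lin_n S.t0 S.t1 hξ).1 b).trans ?_
  have hp := Real.pi_le_four
  have n0 : 0 ≤ η * (a * ‖ξ‖ ^ 4) := by positivity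
  unfold th0
  nlinarith

end Bon3
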