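import Pool.Agent.Lib.MP_3dbf58_gt.Step
import Pool.Agent.Lib.MP_3dbf58_gt.Base
import Pool.Agent.Lib.MP_3dbf58_gt.Geo

open Set Filter Topology MeasureTheory Metric

noncomputable section

namespace Bon3

theorem lp_Ar_nonneg (g : ℝ → ℝ) (σ y : ℝ) : 0 ≤ Ar g σ y :=
  mul_nonneg (by norm_num)
    (intervalIntegral.integral_nonneg (by norm_num) fun _ _ => Real.sqrt_nonneg _)

/-- the error controls the maximal sections -/
theorem InvR.max_close {P : Par} {θ d B e : ℝ} {S : St} (hP : ParOK P) (t0 : 0 < θ) (t1 : θ ≤ th0)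
    (d0 : 0 < d) (hB : B ≤ th0 ^ 2 * P.η) (h : InvC P θ d B S) (r : InvR P θ d e S)
    (hb : GOK P.gb) (G1 : P.Gb 1 = Ar P.gb 0 0) {x : ℝ} (hx : x ∈ Ioc (0 : ℝ) 1) :
    |Ar S.g (P.q * (1 - x)) (S.h x).re - P.Gb x| ≤ 1000 * e ∧
      ∀ y, Ar S.g (P.q * (1 - x)) y ≤ Ar S.g (P.q * (1 - x)) (S.h x).re := by
  have gok := r.rep.gok
  have η0 := hP.et1
  have q0 : 0 < P.q := η0.trans_le hP.et2
  have q1 : P.q ≤ 1 / 10 ^ 7 := hP.q1
  have xs : (x : ℂ) ∈ Sec θ := Sec_real t0 hx.1 hx.2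
  constructor
  · obtain ⟨cO, bO⟩ := st_trace t0 le_rfl r.dE r.E0
    have e0 : 0 ≤ e := (abs_nonneg _).trans (bO (1 / 2) (by norm_num))
    have p5 : ∀ v ∈ Ioo (0 : ℝ) 1, |v ^ 5| ≤ 1 := fun v hv => by
      rw [abs_of_pos (pow_pos hv.1 5)]
      exact pow_le_one₀ hv.1.le hv.2.le
    have bd : ∀ v ∈ Ioo (0 : ℝ) 1, |S.s * v ^ 5| ≤ |S.s| := fun v hv => by
      rw [abs_mul]; exact mul_le_of_le_one_right (abs_nonneg _) (p5 v hv)
    have c0 : 0 < P.q * Real.sqrt P.q / Real.pi := by positivity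
    have c1 : P.q * Real.sqrt P.q / Real.pi ≤ 1 := by
      rw [div_le_one Real.pi_pos]
      have h1 : Real.sqrt P.q ≤ 1 := Real.sqrt_le_one.2 (by linarith)
      have h2 := Real.pi_gt_three
      nlinarith [Real.sqrt_nonneg P.q]
    have a1 : Ar S.g 0 (S.h ((1 : ℝ) : ℂ)).re = P.Gb 1 := by
      have h1 := PSet_one gok (S.h ((1 : ℝ) : ℂ)).re
      rw [r.br 1 0 zero_le_one le_rfl (by norm_num), PSet_one hb 0,
        ENNReal.ofReal_eq_ofReal_iff (lp_Ar_nonneg _ _ _) (lp_Ar_nonneg _ _ _)] at h1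
      rw [G1, h1]
    have l1 := r.lA 1 ⟨one_pos, le_rfl⟩
    rw [sub_self, mul_zero, mul_zero, a1, sub_self, mul_zero,
      st_Jr_add one_pos cO bO (by fun_prop) bd, st_Jr_smul] at l1
    have l2 := (mul_eq_zero.1 l1.symm).resolve_left c0.ne'
    have l3 := (Jr_int one_pos cO bO).2
    rw [Real.sqrt_one, mul_one] at l3
    have l4 := Jr_pow5
    have s0 : |S.s| ≤ 200 * e := by
      have h1 : |S.s * Jr (fun v => v ^ 5) 1| ≤ 2 * e := by
        rw [eq_neg_of_add_eq_zero_right l2, abs_neg]; exact l3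
      rw [abs_mul, abs_of_pos (by linarith : 0 < Jr (fun v => v ^ 5) 1)] at h1
      nlinarith [abs_nonneg S.s]
    have sub : Ioo (0 : ℝ) x ⊆ Ioo 0 1 := Ioo_subset_Ioo_right hx.2
    have l5 := (Jr_int (f := fun v => (S.E v).re + S.s * v ^ 5) (M := 201 * e) hx.1
      ((cO.mono sub).add (by fun_prop)) fun v hv => by
        have h2 := bO v (sub hv)
        have h3 := (bd v (sub hv)).trans s0
        rw [abs_le] at h2 h3 ⊢
        constructor <;> linarith [h2.1, h2.2, h3.1, h3.2]).2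
    have l6 : Real.sqrt x ≤ 1 := Real.sqrt_le_one.2 hx.2
    have l7 := congrArg abs (r.lA x hx)
    have m0 : 0 ≤ P.η * (1 - x) := mul_nonneg η0.le (by linarith [hx.2])
    rw [abs_mul, abs_mul, abs_of_pos c0, abs_of_pos (by linarith : 0 < 1 + P.η * (1 - x))] at l7
    set A := |Ar S.g (P.q * (1 - x)) (S.h x).re - P.Gb x|
    set J := |Jr (fun v => (S.E v).re + S.s * v ^ 5) x|
    have A0 : 0 ≤ A := abs_nonneg _
    have J0 : 0 ≤ J := abs_nonneg _
    have h1 : J ≤ 402 * e := by nlinarith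
    have h2 : P.q * Real.sqrt P.q / Real.pi * J ≤ J := mul_le_of_le_one_left J0 c1
    nlinarith
  · have hr : (((S.h x).re : ℝ) : ℂ) = S.h x := Complex.ext (by simp) (by simp [h.cp.re x xs])
    have cr : Cr S.g (P.q * (1 - x)) (S.h x).re = 0 := by
      rw [r.lC x _ ⟨xs, by
        show ‖(((S.h x).re : ℝ) : ℂ) - S.h x‖ < d / 1000 * ‖(x : ℂ)‖
        rw [hr, sub_self, norm_zero]
        have := norm_pos_iff.2 (Sec_ne xs)
        positivity⟩ hx.2, hr, h.C0 x xs]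
      simp
    have s0 : 0 ≤ P.q * (1 - x) := mul_nonneg q0.le (by linarith [hx.2])
    refine crit_max gok s0 ?_ cr
    have h1 : |(S.h x).re| ≤ 1 := by
      refine (Complex.abs_re_le_norm _).trans ((h.cp.e0 x xs).trans ?_)
      have := hP.et2
      unfold th0 at hB; unfold del1
      linarith
    have h2 : (S.h x).re ^ 2 ≤ 1 := by rwa [sq_le_one_iff_abs_le_one]
    have h3 : P.q * (1 - x) ≤ 1 / 2 := by nlinarith [hx.1]
    nlinarith [sq_nonneg (S.h x).re]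

def lpθ (n : ℕ) : ℝ := th0 / 2 + th0 / 2 / 2 ^ n
def lpd (n : ℕ) : ℝ := th0 / 32 / 2 ^ n

theorem lp_th0 : (0 : ℝ) < th0 := by unfold th0; norm_num

theorem lpθ_succ (n : ℕ) : lpθ (n + 1) = lpθ n - 8 * lpd n := by
  unfold lpθ lpd; rw [pow_succ]; field_simp; ring

theorem lpd_succ (n : ℕ) : lpd (n + 1) = lpd n / 2 := by
  unfold lpd; rw [pow_succ]; field_simp

theorem lpd_pos (n : ℕ) : 0 < lpd n := by
  unfold lpd; have := lp_th0; positivity

theorem lpd_le (n : ℕ) : lpd n ≤ th0 / 32 :=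
  div_le_self (by have := lp_th0; positivity) (one_le_pow₀ one_le_two)

theorem lpθ_ge (n : ℕ) : th0 / 2 ≤ lpθ n := by
  unfold lpθ
  have := lp_th0
  have : 0 ≤ th0 / 2 / 2 ^ n := by positivity
  linarith

theorem lpθ_le (n : ℕ) : lpθ n ≤ th0 := by
  unfold lpθ
  have : th0 / 2 / 2 ^ n ≤ th0 / 2 :=
    div_le_self (by have := lp_th0; positivity) (one_le_pow₀ one_le_two)
  linarith

/-- the state at stage `n` with budget `β` -/
def LpI (P : Par) (n : ℕ) (β : ℝ) (S : St) : Prop :=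
  ∃ B e, 0 ≤ B ∧ B + 2 * β ≤ th0 ^ 2 * P.η ∧ 200 / P.η * e ≤ β * lpd n ^ 12 ∧
    InvC P (lpθ n) (lpd n) B S ∧ InvR P (lpθ n) (lpd n) e S

theorem lp_next {P : Par} (hP : ParOK P) {n : ℕ} {β : ℝ} (b0 : 0 < β) {S : St}
    (h : LpI P n β S) :
    ∃ S', LpI P (n + 1) (β / 2) S' ∧ ∀ x, |S'.g x - S.g x| ≤ β * (1 + |x|) := by
  obtain ⟨B, e, B0, hB, he, c, r⟩ := h
  have d0 := lpd_pos n
  have η0 := hP.et1
  have hd : β * lpd n ^ 12 / lpd n ^ 12 = β := by field_simp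
  have N : Num P (lpθ n) (lpd n) B (β * lpd n ^ 12) :=
    ⟨hP, d0, lpd_le n, by rw [← lpθ_succ]; exact lpθ_ge _, lpθ_le n, by positivity, B0,
      by rw [hd]; linarith⟩
  obtain ⟨w, W⟩ := linsolve (μ := 0) (c.lin hP (lpθ_ge n) (lpθ_le n) (by linarith)) r.dE r.rE r.E0
  have W' := W.mono (a' := β * lpd n ^ 12) (by simpa using he)
  obtain ⟨S', c', r', cl, -⟩ := step N c r W'
  rw [hd] at c' cl
  rw [← lpθ_succ, ← lpd_succ] at c' r'
  refine ⟨S', ⟨B + β, _, by linarith, by linarith, ?_, c', r'⟩, cl⟩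
  have h1 : (β * lpd n ^ 12) ^ 2 / lpd n ^ 12 = β * β * lpd n ^ 12 := by field_simp
  have h2 : β / 2 * lpd (n + 1) ^ 12 = β * (1 / 8192) * lpd n ^ 12 := by rw [lpd_succ]; ring
  have h3 : 200 / P.η * β ≤ 1 / 8192 := by
    rw [div_mul_eq_mul_div, div_le_iff₀ η0]
    unfold th0 at hB
    linarith
  rw [h1, h2]
  have h4 : 0 ≤ β * lpd n ^ 12 := by positivity
  nlinarith

/-- the limit of the stages that follow a given one -/
theorem lp_tail {P : Par} (hP : ParOK P) {β : ℝ} (b0 : 0 < β) {S : St} (h : LpI P 1 β S) :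
    ∃ (f : ℕ → St) (g : ℝ → ℝ), f 0 = S ∧ (∀ n, LpI P (n + 1) (β / 2 ^ n) (f n)) ∧
      ∀ n x, |(f n).g x - g x| ≤ 2 * (β / 2 ^ n) * (1 + |x|) := by
  have : Nonempty St := ⟨S⟩
  have hs : ∀ (n : ℕ) (S : St), LpI P (n + 1) (β / 2 ^ n) S → ∃ S', LpI P (n + 1 + 1)
      (β / 2 ^ (n + 1)) S' ∧ ∀ x, |S'.g x - S.g x| ≤ β / 2 ^ n * (1 + |x|) := by
    intro n S h
    have := lp_next hP (by positivity) h
    rwa [div_div, ← pow_succ] at this
  choose! nx h1 h2 using hs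
  let f : ℕ → St := fun n => Nat.rec S nx n
  have hf : ∀ n, LpI P (n + 1) (β / 2 ^ n) (f n) := by
    intro n
    induction n with
    | zero =>
      rw [pow_zero, div_one]
      exact h
    | succ n ih => exact h1 n _ ih
  have hd : ∀ x n, dist ((f n).g x) ((f (n + 1)).g x) ≤ 2 * β * (1 + |x|) / 2 / 2 ^ n := by
    intro x n
    rw [dist_comm, Real.dist_eq]
    refine (h2 n _ (hf n) x).trans (le_of_eq ?_)
    ring
  have hl : ∀ x, ∃ l, Tendsto (fun n => (f n).g x) atTop (𝓝 l) := fun x =>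
    cauchySeq_tendsto_of_complete (cauchySeq_of_le_geometric_two (hd x))
  choose g hg using hl
  refine ⟨f, g, rfl, hf, fun n x => ?_⟩
  have := dist_le_of_le_geometric_two_of_tendsto (hd x) (hg x) n
  rw [Real.dist_eq] at this
  refine this.trans (le_of_eq ?_)
  ring

theorem lp_small (c C D K : ℝ) (c0 : 0 < c) (D0 : 0 < D) :
    ∃ ε : ℝ, 0 < ε ∧ C * ε < c ∧ K * ε + C * ε ^ 2 < D := by
  have h1 : ∀ᶠ ε in 𝓝 (0 : ℝ), C * ε < c :=
    (by fun_prop : Continuous fun ε : ℝ => C * ε).continuousAt.eventually_lt continuousAt_const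
      (by simpa using c0)
  have h2 : ∀ᶠ ε in 𝓝 (0 : ℝ), K * ε + C * ε ^ 2 < D :=
    (by fun_prop : Continuous fun ε : ℝ => K * ε + C * ε ^ 2).continuousAt.eventually_lt
      continuousAt_const (by simpa using D0)
  have h3 : ∀ᶠ ε in 𝓝[>] (0 : ℝ), 0 < ε ∧ C * ε < c ∧ K * ε + C * ε ^ 2 < D := by
    filter_upwards [self_mem_nhdsWithin, nhdsWithin_le_nhds h1, nhdsWithin_le_nhds h2] with ε a b c
    exact ⟨a, b, c⟩
  exact h3.exists

/-- the first step moves the body -/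
theorem lp_first {P : Par} {S : St} (hP : ParOK P) (hE : S.E = fun _ => 0)
    (h : InvC P th0 (th0 / 32) (th0 ^ 2 * P.η / 2) S) (r : InvR P th0 (th0 / 32) 0 S) :
    ∃ (β b : ℝ) (S' : St), 0 < β ∧ 0 ≤ b ∧ b + 2 * β ≤ th0 ^ 2 * P.η ∧ LpI P 1 β S' ∧
      (∀ x, |S'.g x - S.g x| ≤ b * (1 + |x|)) ∧
      ∃ x, 0 ≤ S.g x ∧ S'.g x + 2 * β * (1 + |x|) < S.g x := by
  have tp := lp_th0
  have η0 := hP.et1
  have q0 : 0 < P.q := η0.trans_le hP.et2
  have η1 : P.η ≤ 1 / 10 ^ 7 := hP.et2.trans hP.q1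
  have D0 : 0 < th0 ^ 2 * P.η / 2 := by positivity
  have L := h.lin hP (by linarith) le_rfl (by linarith)
  obtain ⟨w, W⟩ := linsolve (μ := 1) L r.dE r.rE r.E0
  have a4 : 200 / P.η * (0 + 2 * P.η * |(1 : ℝ)|) = 400 := by rw [abs_one]; field_simp; ring
  rw [a4, hE] at W
  obtain ⟨x, hx, wx⟩ := W.nontriv L
  set d : ℝ := th0 / 32 with hd
  have d0 : 0 < d := by positivity
  set K : ℝ := 400 / d ^ 12 with hK
  have K0 : 0 < K := by positivity
  set M : ℝ := 200 * 4096 / P.η * K ^ 2 with hM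
  have M0 : 0 < M := by positivity
  obtain ⟨ε, ε0, h1, h2⟩ := lp_small (P.q * |(w x).re|) (K ^ 2 * d ^ 12 + 6 * M)
    (th0 ^ 2 * P.η / 2) K (mul_pos q0 (abs_pos.2 wx)) D0
  obtain ⟨c, c1, c2⟩ : ∃ c : ℝ, |c| = ε ∧ c * (w x).re = -(ε * |(w x).re|) := by
    rcases lt_or_gt_of_ne wx with h0 | h0
    · exact ⟨ε, abs_of_pos ε0, by rw [abs_of_neg h0]; ring⟩
    · exact ⟨-ε, by rw [abs_neg, abs_of_pos ε0], by rw [abs_of_pos h0]; ring⟩
  have W' := W.smul c
  rw [c1, ← hE] at W'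
  have hb : ε * 400 / d ^ 12 = K * ε := by rw [hK]; ring
  have he : (ε * 400) ^ 2 / d ^ 12 = K ^ 2 * d ^ 12 * ε ^ 2 := by rw [hK]; field_simp
  have p1 : 0 ≤ K ^ 2 * d ^ 12 * ε ^ 2 := by positivity
  have p2 : 0 < M * ε ^ 2 := by positivity
  have p3 : 0 < K * ε := by positivity
  have N : Num P th0 d (th0 ^ 2 * P.η / 2) (ε * 400) :=
    ⟨hP, d0, le_rfl, by rw [hd]; linarith, le_rfl, by positivity, D0.le, by rw [hb]; nlinarith⟩
  obtain ⟨S', c', r', cl, last⟩ := step N h r W'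
  have e1 : th0 - 8 * d = lpθ 1 := by unfold lpθ; rw [hd]; ring
  have e2 : d / 2 = lpd 1 := by unfold lpd; rw [hd]; ring
  rw [hb] at c' cl
  rw [he] at r' last
  rw [e1, e2] at c' r'
  refine ⟨M * ε ^ 2, K * ε, S', p2, p3.le, by nlinarith,
    ⟨_, _, by positivity, by nlinarith, le_of_eq ?_, c', r'⟩, cl, (S.Hp x).re, ?_, ?_⟩
  · rw [← e2, hM]; ring
  · have ok := r.rep.fit.op
    have xi : x ∈ Icc (0 : ℝ) 1 := Ioo_subset_Icc_self hx
    have oi : (1 : ℝ) ∈ Icc (0 : ℝ) 1 := ⟨zero_le_one, le_rfl⟩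
    have zi : (0 : ℝ) ∈ Icc (0 : ℝ) 1 := ⟨le_rfl, zero_le_one⟩
    obtain ⟨t1, t2⟩ := r.rep.tp x xi
    have t3 := t2 ((S.cp P).H 1)
    rw [(r.rep.tp 1 oi).1, r.rep.fit.p1] at t3
    have t4 := ok.mono xi oi hx.2
    have t5 := ok.monoT zi xi hx.1.le
    have t6 := r.rep.fit.pT0
    have t7 : (S.cp P).H x = (S.Hp x).re := if_neg (not_le.2 hx.1)
    rw [← t7, t1]
    nlinarith
  · have xs : (x : ℂ) ∈ Sec th0 := Sec_real tp hx.1 hx.2.le
    have l1 := last x hx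
    have l2 : (((c : ℂ)) * w x).re = -(ε * |(w x).re|) := by rw [Complex.re_ofReal_mul, c2]
    rw [l2] at l1
    have sm : del1 + th0 ^ 2 * P.η / 2 ≤ 1 / 2 := by unfold del1 th0; linarith
    have l3 := abs_le.1 (((Complex.abs_re_le_norm _).trans (h.cp.T0 x xs)).trans sm)
    have l4 := abs_le.1 (((Complex.abs_re_le_norm _).trans (h.cp.H0 x xs)).trans sm)
    simp only [Complex.sub_re, Complex.one_re] at l3 l4
    have l5 : |(S.Hp x).re| ≤ 2 := abs_le.2 ⟨by linarith [l4.1], by linarith [l4.2]⟩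
    have l6 : 2 * (M * ε ^ 2) * (1 + |(S.Hp x).re|) ≤ 6 * M * ε ^ 2 := by nlinarith
    have l7 : 0 ≤ P.q * (ε * |(w x).re|) := by positivity
    have l8 : 2 * P.q * (S.Tp x).re * -(ε * |(w x).re|) ≤ -(P.q * (ε * |(w x).re|)) := by
      nlinarith [l3.1]
    have l9 := mul_lt_mul_of_pos_right h1 ε0
    nlinarith

/-- the limit of the scheme -/
theorem loop {P : Par} {S : St} (hP : ParOK P) (hg : S.g = P.gb) (hE : S.E = fun _ => 0)
    (hs : S.s = 0) (h : InvC P th0 (th0 / 32) (th0 ^ 2 * P.η / 2) S)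
    (r : InvR P th0 (th0 / 32) 0 S) :
    ∃ g : ℝ → ℝ, GOK g ∧ BrEq g P.gb ∧ (∀ x ∈ Icc (-P.Hm0) P.Hp0, g x = P.gb x) ∧
      (∀ x, |g x - P.gb x| ≤ 1 / 10 ^ 7 * (1 + |x|)) ∧
      (∀ x ∈ Ioc (0 : ℝ) 1, IsLUB (range (Ar g (P.q * (1 - x)))) (P.Gb x) ∧
        IsLUB (range (Ar P.gb (P.q * (1 - x)))) (P.Gb x)) ∧
      ∃ x, 0 ≤ P.gb x ∧ g x < P.gb x := by
  have tp := lp_th0
  have η0 := hP.et1
  have η1 : P.η ≤ 1 / 10 ^ 7 := hP.et2.trans hP.q1
  obtain ⟨β, b, S', β0, b0, hb, I1, cl, x0, x1, x2⟩ := lp_first hP hE h r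
  obtain ⟨f, g, f0, hf, hc⟩ := lp_tail hP β0 I1
  choose B e B0 hB he c rr using hf
  have gb : GOK P.gb := hg ▸ r.rep.gok
  have G1 : P.Gb 1 = Ar P.gb 0 0 := by
    have := r.lA 1 ⟨one_pos, le_rfl⟩
    rw [hE, hs, hg] at this
    simp only [Jr, Ar, sub_self, mul_zero, add_zero, one_mul, zero_mul, Complex.zero_re, zero_div,
      intervalIntegral.integral_zero, sub_zero] at this ⊢
    linarith
  have tz : Tendsto (fun n : ℕ => β / 2 ^ n) atTop (𝓝 0) :=
    tendsto_const_nhds.div_atTop (tendsto_pow_atTop_atTop_of_one_lt one_lt_two)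
  have lim : ∀ x, Tendsto (fun n => (f n).g x) atTop (𝓝 (g x)) := by
    intro x
    rw [tendsto_iff_dist_tendsto_zero]
    refine squeeze_zero (fun _ => dist_nonneg) (fun n => hc n x) ?_
    simpa using (tz.const_mul 2).mul_const (1 + |x|)
  have gok : GOK g := GOK.limit (fun n => (rr n).rep.gok) lim fun x hx =>
    (le_of_tendsto' (lim x) fun n => (rr n).rep.far hx.ge).trans_lt (by norm_num)
  have hc2 : ∀ n x, |x| ≤ 2 → |(f n).g x - g x| ≤ 6 * (β / 2 ^ n) := by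
    intro n x hx
    have : 0 < β / 2 ^ n := by positivity
    exact (hc n x).trans (by nlinarith)
  have t6 : Tendsto (fun n : ℕ => 6 * (β / 2 ^ n)) atTop (𝓝 0) := by simpa using tz.const_mul 6
  have h0 := hc 0
  simp only [f0, pow_zero, div_one] at h0
  refine ⟨g, gok, BrEq.limit (fun n => (rr n).rep.gok) gok t6 hc2 fun n => (rr n).br,
    fun x hx => ?_, fun x => ?_, fun x hx => ⟨?_, ?_⟩, x0, hg ▸ x1, ?_⟩
  · have hx' : x ∈ Icc (-(S.cm P).H 0) ((S.cp P).H 0) := by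
      have e1 : (S.cm P).H 0 = P.Hm0 := if_pos le_rfl
      have e2 : (S.cp P).H 0 = P.Hp0 := if_pos le_rfl
      rwa [e1, e2]
    have : (fun n => (f n).g x) = fun _ => P.gb x :=
      funext fun n => by rw [← hg]; exact (r.rep.band_eq (rr n).rep hx').symm
    exact tendsto_nhds_unique (lim x) (by rw [this]; exact tendsto_const_nhds)
  · have h1 := abs_le.1 (h0 x)
    have h2 := abs_le.1 (cl x)
    rw [hg] at h2
    have h3 : (b + 2 * β) * (1 + |x|) ≤ 1 / 10 ^ 7 * (1 + |x|) :=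
      mul_le_mul_of_nonneg_right (by unfold th0 at hb; linarith) (by positivity)
    rw [abs_le]
    constructor <;> linarith [h1.1, h1.2, h2.1, h2.2]
  · have mc := fun n => (rr n).max_close hP (by linarith [lpθ_ge (n + 1)]) (lpθ_le _) (lpd_pos _)
      (by have : 0 < β / 2 ^ n := by positivity
          linarith [hB n]) (c n) gb G1 hx
    have ee : ∀ n, e n ≤ β / 2 ^ n := by
      intro n
      have p : 0 < β / 2 ^ n := by positivity
      have h1 : lpd (n + 1) ^ 12 ≤ 1 :=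
        pow_le_one₀ (lpd_pos _).le ((lpd_le _).trans (by unfold th0; norm_num))
      have h2 := (he n).trans (mul_le_of_le_one_right p.le h1)
      rw [div_mul_eq_mul_div, div_le_iff₀ η0] at h2
      nlinarith
    have tt : Tendsto (fun n : ℕ => 1000 * (β / 2 ^ n) + 8 * Real.sqrt (6 * (β / 2 ^ n))) atTop
        (𝓝 0) := by simpa using (tz.const_mul 1000).add (t6.sqrt.const_mul 8)
    have ac := fun n y => abs_le.1 (Ar_close (rr n).rep.gok gok (hc2 n) (P.q * (1 - x)) y)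
    constructor
    · rintro _ ⟨y, rfl⟩
      rw [← sub_nonpos]
      refine ge_of_tendsto' tt fun n => ?_
      linarith [(ac n y).1, (mc n).2 y, (abs_le.1 (mc n).1).2, ee n]
    · intro m hm
      rw [← sub_nonpos]
      refine ge_of_tendsto' tt fun n => ?_
      linarith [(ac n ((f n).h x).re).2, hm ⟨((f n).h x).re, rfl⟩, (abs_le.1 (mc n).1).1, ee n]
  · obtain ⟨m1, m2⟩ := r.max_close hP tp le_rfl (by positivity)
      (by have : 0 < th0 ^ 2 * P.η := by positivity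
          linarith) h gb G1 hx
    rw [mul_zero, abs_nonpos_iff, sub_eq_zero, hg] at m1
    rw [hg, m1] at m2
    exact IsGreatest.isLUB ⟨⟨_, m1⟩, by rintro _ ⟨y, rfl⟩; exact m2 y⟩
  · rw [← hg]
    linarith [(abs_le.1 (h0 x0)).1]

theorem main : ∃ K L : Set E3, IsCompact K ∧ Convex ℝ K ∧ (interior K).Nonempty ∧
    IsCompact L ∧ Convex ℝ L ∧ (interior L).Nonempty ∧
    (∀ u : E3, ‖u‖ = 1 → proj K u = proj L u) ∧
    (∀ u : E3, ‖u‖ = 1 → ⨆ t, sect K u t = ⨆ t, sect L u t) ∧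
    ∀ v : E3, L ≠ (fun z => z + v) '' K ∧ L ≠ (fun z => -z + v) '' K := by
  obtain ⟨P, S, hP, X, hg, hE, hs, h, r⟩ := base
  obtain ⟨g, gok, br, band, cl, lub, x0, x1, x2⟩ := loop hP hg hE hs h r
  have gb : GOK P.gb := hg ▸ r.rep.gok
  have q0 : 0 < P.q := hP.et1.trans_le hP.et2
  have hp := X.hp
  have hm := X.hm
  have eq : ∀ x, |x| ≤ 99 / 100 → P.gb x = g x := fun x hx =>
    (band x ⟨by linarith [(abs_le.1 hx).1], by linarith [(abs_le.1 hx).2]⟩).symm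
  refine ⟨Body P.gb, Body g, Body_compact gb, Body_convex gb, Body_interior gb, Body_compact gok,
    Body_convex gok, Body_interior gok, fun u hu => ?_, fun u hu => ?_, fun v => ⟨?_, ?_⟩⟩
  · have h1 : u 0 ^ 2 ≤ 1 := by
      rw [sq_le_one_iff_abs_le_one, ← hu]
      exact PiLp.norm_apply_le u 0
    rw [proj_Body _ hu, proj_Body _ hu]
    exact (br _ _ (Real.sqrt_nonneg _) (abs_nonneg _)
      (by rw [Real.sq_sqrt (by linarith), sq_abs]; ring)).symm
  · rcases le_or_gt (1 / 21) (u 0 ^ 2) with h1 | h1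
    · refine sect_steep gb gok eq (fun x hx => ?_) (fun x hx => ?_) (fun x hx => ?_)
        (fun x hx => ?_) hu h1
      · linarith [X.outer x (by linarith)]
      · have h2 : |x| < 3 / 2 := not_le.1 fun h2 => absurd (gok.ng x h2) (not_lt.2 hx)
        have h3 := abs_le.1 (cl x)
        linarith [X.outer x (by linarith [h3.2]), h3.2]
      · linarith [X.inner x hx]
      · linarith [X.inner x hx, (abs_le.1 (cl x)).1]
    · have h2 : u 0 ^ 2 < 1 := by linarith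
      have h3 : 0 ≤ u 0 ^ 2 / (1 - u 0 ^ 2) := div_nonneg (sq_nonneg _) (by linarith)
      have h4 : u 0 ^ 2 / (1 - u 0 ^ 2) ≤ 1 / 20 := by
        rw [div_le_iff₀ (by linarith)]; linarith
      obtain ⟨m, m1, m2⟩ : ∃ m, IsLUB (range (Ar P.gb (u 0 ^ 2 / (1 - u 0 ^ 2)))) m ∧
          IsLUB (range (Ar g (u 0 ^ 2 / (1 - u 0 ^ 2)))) m := by
        generalize u 0 ^ 2 / (1 - u 0 ^ 2) = σ at h3 h4
        rcases lt_or_ge σ P.q with h5 | h5
        · have h6 : σ / P.q < 1 := (div_lt_one q0).2 h5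
          have h7 : 0 ≤ σ / P.q := div_nonneg h3 q0.le
          have := lub (1 - σ / P.q) ⟨by linarith, by linarith⟩
          rw [show P.q * (1 - (1 - σ / P.q)) = σ by field_simp; ring] at this
          exact ⟨_, this.2, this.1⟩
        · obtain ⟨y, y1, y2, y3, y4⟩ := X.mid σ ⟨h5, h4⟩
          have y5 : σ * y ^ 2 < 1 := by
            have : y ^ 2 ≤ 1 := by rw [sq_le_one_iff_abs_le_one]; linarith
            nlinarith [sq_nonneg y]
          obtain ⟨a1, a2⟩ := Ar_band gb gok h3 y5 (by linarith : -P.Hm0 < 0)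
            (by linarith : 0 < P.Hp0) (fun x hx => (band x hx).symm) y4 y3
          refine ⟨Ar P.gb σ y, IsGreatest.isLUB ⟨⟨y, rfl⟩, ?_⟩,
            IsGreatest.isLUB ⟨⟨y, a1.symm⟩, ?_⟩⟩
          · rintro _ ⟨y', rfl⟩
            exact crit_max gb h3 y5 y2 y'
          · rintro _ ⟨y', rfl⟩
            rw [a1]
            exact crit_max gok h3 y5 (a2 ▸ y2) y'
      rw [sect_sup gb hu h2 m1, sect_sup gok hu h2 m2]
  · intro hv
    exact x2.ne (Body_translate gb gok X.top hv x0 x1)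
  · intro hv
    rw [Body_neg] at hv
    obtain ⟨x, a1, a2⟩ := X.asym
    have a3 : x ^ 2 ≤ (9 / 10) ^ 2 := by
      rw [← sq_abs]; exact pow_le_pow_left₀ (abs_nonneg _) a1 2
    have a4 := X.inner (-x) (by rw [abs_neg]; linarith)
    have a5 := Body_translate gb.neg gok (fun x hx => X.top (-x) (neg_ne_zero.2 hx)) hv x
      (by show 0 ≤ P.gb (-x); nlinarith)
    exact a2 ((eq x (by linarith)).trans a5)

end Bon3
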