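import Pool.Agent.Lib.MP_3dbf58_gt.FamL

open Set Filter Topology MeasureTheory Metric

noncomputable section

namespace Bon3

/-- numerical frame of the comparison lemmas -/
structure NcN (τ d a : ℝ) : Prop where
  d0 : 0 < d
  d1 : d ≤ 1 / 10 ^ 7
  a0 : 0 < a
  L : 100 ≤ d ^ 6 / a
  t0 : 5 * d ≤ τ
  t1 : τ ≤ th0

theorem nc_two {τ : ℝ} {ξ : ℂ} (t0 : 0 ≤ τ) (t1 : τ ≤ th0) (h : ξ ∈ Sec τ) :
    ‖ξ‖ ≤ 11 / 10 ∧ ‖1 - ξ‖ ≤ 11 / 10 := by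
  obtain ⟨-, h2, h3, -⟩ := Sec_norm t0 t1 h
  unfold th0 at t1
  constructor <;> linarith

namespace NcN
variable {τ d a : ℝ} (n : NcN τ d a)
include n

theorem pos : 0 < τ := by linarith [n.d0, n.t0]

theorem mem {ξ l : ℂ} (h : ξ ∈ Sec τ) (hl : ‖l‖ ≤ 1) : (l, ξ) ∈ G1 τ (d ^ 6 / a) := by
  refine ⟨h, ?_⟩
  have := (nc_two n.pos.le n.t1 h).1
  have := n.L
  show ‖l‖ * ‖ξ‖ < _
  nlinarith [norm_nonneg l, norm_nonneg ξ]

theorem mem1 {ξ : ℂ} (h : ξ ∈ Sec τ) : ((1 : ℂ), ξ) ∈ G1 τ (d ^ 6 / a) := n.mem h (by simp)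
theorem mem0 {ξ : ℂ} (h : ξ ∈ Sec τ) : ((0 : ℂ), ξ) ∈ G1 τ (d ^ 6 / a) := n.mem h (by simp)

theorem sub {j : ℝ} (j0 : 0 ≤ j) (j5 : j ≤ 5) : Sec (τ - j * d) ⊆ Sec τ :=
  Sec_mono (by nlinarith [n.d0, n.t0]) (by nlinarith [n.d0])

theorem diff {f : ℂ × ℂ → ℂ} (hf : HC f (G1 τ (d ^ 6 / a))) {l : ℂ} (hl : ‖l‖ ≤ 1) :
    DifferentiableOn ℂ (sl f l) (Sec τ) :=
  hf (fun ξ => (l, ξ)) _ (isOpen_Sec _) (by fun_prop) fun _ h => n.mem h hl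

theorem real {f : ℂ × ℂ → ℂ} (hf : Rl2 f (G1 τ (d ^ 6 / a))) : Rl (sl f 1) τ := fun x h => by
  simpa [sl] using hf 1 x (by simpa using n.mem1 h)

theorem num : 20 * a / d ^ 6 ≤ a / d ^ 12 / 100 ∧ 5 * (20 * a / d ^ 6) / d ≤ a / d ^ 12 / 100 ∧
    5 * (5 * (20 * a / d ^ 6) / d) / d ≤ a / d ^ 12 / 100 := by
  have d0 := n.d0
  have a0 := n.a0
  have d1 := n.d1
  have k : ∀ j : ℕ, j ≠ 0 → d ^ j ≤ 1 / 10 ^ 7 := fun j hj =>
    (pow_le_of_le_one d0.le (by linarith) hj).trans d1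
  have E : 0 < a / d ^ 12 := by positivity
  refine ⟨?_, ?_, ?_⟩
  · calc _ = 20 * d ^ 6 * (a / d ^ 12) := by field_simp
      _ ≤ _ := by nlinarith [k 6 (by norm_num)]
  · calc _ = 100 * d ^ 5 * (a / d ^ 12) := by field_simp; norm_num
      _ ≤ _ := by nlinarith [k 5 (by norm_num)]
  · calc _ = 500 * d ^ 4 * (a / d ^ 12) := by field_simp; norm_num
      _ ≤ _ := by nlinarith [k 4 (by norm_num)]

end NcN

/-- two holomorphic functions are close -/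
structure NcC (τ ε : ℝ) (k : ℕ) (f g : ℂ → ℂ) : Prop where
  df : DifferentiableOn ℂ f (Sec τ)
  dg : DifferentiableOn ℂ g (Sec τ)
  b : ∀ ξ ∈ Sec τ, ‖f ξ - g ξ‖ ≤ ε * ‖ξ‖ ^ k

theorem NcC.der {τ d ε : ℝ} {k : ℕ} {f g : ℂ → ℂ} (h : NcC τ ε (k + 1) f g) (d0 : 0 < d)
    (hd : d ≤ τ) (t1 : τ ≤ th0) (hk : k ≤ 4) :
    NcC (τ - d) (5 * ε / d) k (deriv f) (deriv g) := by
  have s : Sec (τ - d) ⊆ Sec τ := Sec_mono (by linarith) (by linarith)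
  refine ⟨(h.df.deriv (isOpen_Sec _)).mono s, (h.dg.deriv (isOpen_Sec _)).mono s, fun ξ hξ => ?_⟩
  have m := (isOpen_Sec τ).mem_nhds (s hξ)
  have c := cauchy_Sec d0 hd t1 (by omega : k + 1 ≤ 5) (f := fun ζ => f ζ - g ζ)
    (h.df.sub h.dg) h.b hξ
  rw [deriv_fun_sub (h.df.differentiableAt m) (h.dg.differentiableAt m), pow_succ,
    ← mul_assoc] at c
  exact le_of_mul_le_mul_right c (norm_pos_iff.2 (Sec_ne hξ))

theorem NcN.key {τ d a : ℝ} (n : NcN τ d a) {k : ℕ} {f : ℂ × ℂ → ℂ} {g : ℂ → ℂ}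
    (hf : HC f (G1 τ (d ^ 6 / a))) (hM : ∀ p ∈ G1 τ (d ^ 6 / a), ‖f p‖ ≤ 10 * ‖p.2‖ ^ k)
    (h0 : ∀ ξ ∈ Sec τ, f (0, ξ) = g ξ) : NcC τ (20 * a / d ^ 6) (k + 1) (sl f 1) g := by
  refine ⟨n.diff hf (by simp), (n.diff hf (l := 0) (by simp)).congr fun ξ h => (h0 ξ h).symm,
    fun ξ h => ?_⟩
  have := schwarz_G1 hf hM (n.mem1 h)
  rw [h0 ξ h] at this
  refine this.trans_eq ?_
  have := n.a0
  have := n.d0
  simp only [norm_one]
  field_simp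
  ring

/-- the new function against the old one -/
structure NcP (τ d E : ℝ) (f g : ℂ → ℂ) : Prop where
  df : DifferentiableOn ℂ f (Sec τ)
  v : ∀ ξ ∈ Sec τ, ‖f ξ - g ξ‖ ≤ E / 100 * ‖ξ‖
  z : ∀ ξ ∈ Sec τ, ‖f ξ - g ξ‖ ≤ E / 50
  o : ∀ ξ ∈ Sec (τ - 5 * d), ‖deriv f ξ - deriv g ξ‖ ≤ E / 100

theorem NcN.pack {τ d a : ℝ} (n : NcN τ d a) {f : ℂ × ℂ → ℂ} {g : ℂ → ℂ}
    (hf : HC f (G1 τ (d ^ 6 / a))) (hM : ∀ p ∈ G1 τ (d ^ 6 / a), ‖f p‖ ≤ 10)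
    (h0 : ∀ ξ ∈ Sec τ, f (0, ξ) = g ξ) : NcP τ d (a / d ^ 12) (sl f 1) g := by
  have k := n.key (k := 0) hf (by simpa using hM) h0
  have d0 := n.d0
  have a0 := n.a0
  have v : ∀ ξ ∈ Sec τ, ‖sl f 1 ξ - g ξ‖ ≤ a / d ^ 12 / 100 * ‖ξ‖ := fun ξ h =>
    (k.b ξ h).trans (by
      rw [zero_add, pow_one]; exact mul_le_mul_of_nonneg_right n.num.1 (norm_nonneg _))
  refine ⟨k.df, v, fun ξ h => (v ξ h).trans ?_, fun ξ h => ?_⟩
  · have := (nc_two n.pos.le n.t1 h).1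
    have E : 0 < a / d ^ 12 := by positivity
    nlinarith
  · have := (k.der d0 (by linarith [n.t0]) n.t1 (by norm_num)).b ξ
      (Sec_mono (by linarith [n.t0]) (by linarith) h)
    rw [pow_zero, mul_one] at this
    exact this.trans n.num.2.1

theorem nc_tri {x y z : ℂ} {b e : ℝ} (h1 : ‖y - z‖ ≤ b) (h2 : ‖x - y‖ ≤ e) : ‖x - z‖ ≤ b + e := by
  have := norm_add_le (y - z) (x - y)
  rw [show y - z + (x - y) = x - z by ring] at this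
  linarith

theorem nc_re {z : ℂ} (h : z.im = 0) : z = (z.re : ℂ) := by
  apply Complex.ext <;> simp [h]

/-- one cap along the family -/
structure NcF (q θ d B a A : ℝ) (u T H e : ℂ → ℂ) (a0 b0 c0 : ℝ) (Tl Hl Wl f el : ℂ × ℂ → ℂ) :
    Prop where
  n : NcN (θ - 3 * d) d a
  t1 : θ ≤ th0
  hB : B ≤ del1
  q0 : 0 < q
  q1 : q ≤ del1
  c : CapInv q θ B u T H e a0 b0 c0
  pc : PC q (θ - d) (d ^ 4 / a) (d ^ 2) A u T H Tl Hl Wl
  hf : HC f (G1 (θ - 3 * d) (d ^ 6 / a))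
  rf : Rl2 f (G1 (θ - 3 * d) (d ^ 6 / a))
  mf : ∀ p ∈ G1 (θ - 3 * d) (d ^ 6 / a), (p.1, f p) ∈ G2 (θ - 2 * d) (d ^ 4 / a / 2)
  f0 : ∀ ξ ∈ Sec (θ - 3 * d), f (0, ξ) = ξ
  f1 : f (1, 1) = 1
  rt : ∀ p ∈ G1 (θ - 3 * d) (d ^ 6 / a),
    u (f p) * Tl (p.1, f p) ^ 2 = (1 - p.2) * (Hl (p.1, f p) + el p) ^ 2
  he : HC el (G1 (θ - 3 * d) (d ^ 6 / a))
  re : Rl2 el (G1 (θ - 3 * d) (d ^ 6 / a))
  e0 : ∀ ξ ∈ Sec (θ - 3 * d), el (0, ξ) = e ξ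
  e1 : ∀ p ∈ G1 (θ - 3 * d) (d ^ 6 / a), ‖el p - e p.2‖ ≤ d / 8000 * ‖p.2‖

namespace NcF
variable {q θ d B a A : ℝ} {u T H e : ℂ → ℂ} {a0 b0 c0 : ℝ} {Tl Hl Wl f el : ℂ × ℂ → ℂ}
  (k : NcF q θ d B a A u T H e a0 b0 c0 Tl Hl Wl f el)
include k

theorem sub {i j : ℝ} (ij : j ≤ i) (i8 : i ≤ 8) : Sec (θ - i * d) ⊆ Sec (θ - j * d) :=
  Sec_mono (by nlinarith [k.n.d0, k.n.t0]) (by nlinarith [k.n.d0])

theorem sub0 {i : ℝ} (i0 : 0 ≤ i) (i8 : i ≤ 8) : Sec (θ - i * d) ⊆ Sec θ := by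
  simpa using k.sub i0 i8

theorem sub1 {i : ℝ} (i0 : 1 ≤ i) (i8 : i ≤ 8) : Sec (θ - i * d) ⊆ Sec (θ - d) := by
  simpa using k.sub i0 i8

theorem m2 {p : ℂ × ℂ} (hp : p ∈ G1 (θ - 3 * d) (d ^ 6 / a)) :
    (p.1, f p) ∈ G2 (θ - d) (d ^ 4 / a) ∧ f p ∈ Sec θ ∧ ‖f p‖ ≤ 11 / 10 := by
  obtain ⟨h1, h2⟩ := k.mf p hp
  have d0 := k.n.d0
  have a0 := k.n.a0
  have : 0 < d ^ 4 / a := by positivity
  have s := k.sub0 (by norm_num) (by norm_num) h1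
  exact ⟨⟨k.sub1 (by norm_num) (by norm_num) h1, by linarith⟩, s,
    (nc_two (by linarith [k.n.t0]) k.t1 s).1⟩

theorem hc {g : ℂ × ℂ → ℂ} (hg : HC g (G2 (θ - d) (d ^ 4 / a))) :
    HC (fun p => g (p.1, f p)) (G1 (θ - 3 * d) (d ^ 6 / a)) :=
  hg.comp ((HC.fst HC.id).prodMk k.hf) fun _ hp => (k.m2 hp).1

theorem rl {g : ℂ × ℂ → ℂ} (hg : Rl2 g (G2 (θ - d) (d ^ 4 / a))) :
    Rl2 (fun p => g (p.1, f p)) (G1 (θ - 3 * d) (d ^ 6 / a)) := fun t x h => by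
  have e := nc_re (k.rf t x h)
  have m := (k.m2 h).1
  simp only at m ⊢
  rw [e] at m ⊢
  exact hg _ _ m

theorem hu : HC (fun p => u (f p)) (G1 (θ - 3 * d) (d ^ 6 / a)) :=
  (HC.of_diff k.c.du).comp k.hf fun _ hp => (k.m2 hp).2.1

theorem bd {p : ℂ × ℂ} (hp : p ∈ G1 (θ - 3 * d) (d ^ 6 / a)) :
    ‖u (f p)‖ ≤ 2 ∧ ‖Tl (p.1, f p) - 1‖ ≤ 1 / 10 ∧ ‖Hl (p.1, f p) - 1‖ ≤ 1 / 10 ∧
      ‖el p‖ ≤ 1 / 10 := by
  obtain ⟨h1, h2, h3⟩ := k.m2 hp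
  have d0 := k.n.d0
  have d1 := k.n.d1
  have hB := k.hB
  have q0 := k.q0
  have q1 := k.q1
  have dd : d ^ 2 ≤ 1 / 100 := by nlinarith
  have qd : q * d ^ 2 ≤ 1 / 100 := by unfold del1 at q1; nlinarith
  have b1 := nc_tri (z := 0) (by simpa using (nc_two (by linarith [k.n.t0]) k.t1 h2).2)
    (k.c.u0 _ h2)
  have b2 := nc_tri (k.c.T0 _ h2) (k.pc.T0 _ h1)
  have b3 := nc_tri (k.c.H0 _ h2) (k.pc.H0 _ h1)
  have b4 := nc_tri (z := 0) (by simpa using k.c.e0 _ (k.sub0 (by norm_num) (by norm_num) hp.1))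
    (k.e1 p hp)
  have b5 := (nc_two k.n.pos.le k.n.t1 hp.1).1
  rw [sub_zero] at b1 b4
  simp only at b2 b3
  unfold del1 at *
  refine ⟨by linarith, ?_, ?_, ?_⟩ <;> nlinarith [norm_nonneg (f p), norm_nonneg p.2]

theorem pu : NcP (θ - 3 * d) d (a / d ^ 12) (sl (fun p => u (f p)) 1) u :=
  k.n.pack k.hu (fun p hp => by linarith [(k.bd hp).1]) fun ξ h => by simp only [k.f0 ξ h]

theorem z2 {ξ : ℂ} (h : ξ ∈ Sec (θ - 3 * d)) : ξ ∈ Sec (θ - d) :=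
  k.sub1 (by norm_num) (by norm_num) h

theorem pT : NcP (θ - 3 * d) d (a / d ^ 12) (sl (fun p => Tl (p.1, f p)) 1) T :=
  k.n.pack (k.hc k.pc.hT)
    (fun p hp => by linarith [norm_le_norm_sub_add (Tl (p.1, f p)) 1, (k.bd hp).2.1, norm_one (α := ℂ)])
    fun ξ h => by simp only [k.f0 ξ h, k.pc.Tz ξ (k.z2 h)]

theorem pH : NcP (θ - 3 * d) d (a / d ^ 12) (sl (fun p => Hl (p.1, f p)) 1) H :=
  k.n.pack (k.hc k.pc.hH)
    (fun p hp => by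
      linarith [norm_le_norm_sub_add (Hl (p.1, f p)) 1, (k.bd hp).2.2.1, norm_one (α := ℂ)])
    fun ξ h => by simp only [k.f0 ξ h, k.pc.Hz ξ (k.z2 h)]

theorem pe : NcP (θ - 3 * d) d (a / d ^ 12) (sl el 1) e :=
  k.n.pack k.he (fun p hp => by linarith [(k.bd hp).2.2.2]) k.e0

theorem bz {p : ℂ × ℂ} (hp : p ∈ G1 (θ - 3 * d) (d ^ 6 / a)) : ‖Hl (p.1, f p) + el p‖ ≤ 2 := by
  linarith [norm_le_norm_sub_add (Hl (p.1, f p)) 1, (k.bd hp).2.2.1, norm_one (α := ℂ),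
    (k.bd hp).2.2.2, norm_add_le (Hl (p.1, f p)) (el p)]

theorem pz : NcP (θ - 3 * d) d (a / d ^ 12) (sl (fun p => Hl (p.1, f p) + el p) 1)
    fun ξ => H ξ + e ξ :=
  k.n.pack ((k.hc k.pc.hH).add k.he) (fun p hp => by linarith [k.bz hp])
    fun ξ h => by simp only [k.f0 ξ h, k.pc.Hz ξ (k.z2 h), k.e0 ξ h]

theorem dz {ξ : ℂ} (h : ξ ∈ Sec θ) (he : ‖deriv e ξ‖ ≤ 1) :
    ‖deriv (fun ξ => H ξ + e ξ) ξ‖ ≤ 9 := by
  have m := (isOpen_Sec θ).mem_nhds h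
  have hB := k.hB
  have q0 := k.q0
  have q1 := k.q1
  have b1 := nc_tri (z := 0) (by simpa using (nc_two (by linarith [k.n.t0, k.n.d0]) k.t1 h).2)
    (k.c.u0 _ h)
  have b2 := norm_le_norm_sub_add (T ξ) 1
  have b3 := norm_le_norm_sub_add (deriv T ξ) (q / 2)
  have b4 := norm_le_norm_sub_add (deriv u ξ) (-1)
  have c2 := k.c.T0 _ h
  have c3 := k.c.T1 _ h
  have c4 := k.c.u1 _ h
  rw [sub_zero] at b1
  rw [norm_one] at b2
  rw [norm_div, Complex.norm_real, Real.norm_of_nonneg q0.le, Complex.norm_two] at b3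
  rw [sub_neg_eq_add, norm_neg, norm_one] at b4
  unfold del1 at *
  rw [deriv_fun_add (k.c.dH.differentiableAt m) (k.c.de.differentiableAt m), k.c.H1 ξ h]
  refine (norm_add_le _ _).trans ?_
  have : ‖-(q : ℂ) * (T ξ * deriv u ξ / 2 + u ξ * deriv T ξ)‖ ≤ 1 * (2 * 2 / 2 + 2 * 2) := by
    rw [norm_mul, norm_neg, Complex.norm_real, Real.norm_of_nonneg q0.le]
    refine mul_le_mul (by linarith) ((norm_add_le _ _).trans ?_) (norm_nonneg _) one_pos.le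
    rw [norm_div, norm_mul, norm_mul, Complex.norm_two]
    gcongr <;> linarith
  linarith

theorem cap : CapInv q (θ - 8 * d) (B + a / d ^ 12) (fun ξ => u (f (1, ξ)))
    (fun ξ => Tl (1, f (1, ξ))) (fun ξ => Hl (1, f (1, ξ))) (sl el 1) a0 b0 c0 := by
  have s3 : Sec (θ - 8 * d) ⊆ Sec (θ - 3 * d) := k.sub (by norm_num) le_rfl
  have s0 : Sec (θ - 8 * d) ⊆ Sec θ := k.sub0 (by norm_num) le_rfl
  have s5 : ∀ ξ ∈ Sec (θ - 8 * d), ξ ∈ Sec (θ - 3 * d - 5 * d) := fun ξ h => by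
    rwa [show θ - 3 * d - 5 * d = θ - 8 * d by ring]
  have E : 0 < a / d ^ 12 := by have := k.n.d0; have := k.n.a0; positivity
  have vv : ∀ {g g' : ℂ → ℂ} {c : ℂ}, NcP (θ - 3 * d) d (a / d ^ 12) g' g →
      (∀ ξ ∈ Sec θ, ‖g ξ - c‖ ≤ (2 + B) * ‖ξ‖) → ∀ ξ ∈ Sec (θ - 8 * d),
      ‖g' ξ - c‖ ≤ (2 + (B + a / d ^ 12)) * ‖ξ‖ := fun h1 h2 ξ h =>
    (nc_tri (h2 ξ (s0 h)) (h1.v ξ (s3 h))).trans (by nlinarith [norm_nonneg ξ])
  refine ⟨k.pu.df.mono s3, k.pT.df.mono s3, k.pH.df.mono s3, k.pe.df.mono s3, fun x h => ?_,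
    fun x h => k.n.real (k.rl k.pc.rT) x (s3 h), fun x h => k.n.real (k.rl k.pc.rH) x (s3 h),
    fun x h => k.n.real k.re x (s3 h),
    fun ξ h => (nc_tri (k.c.u0 ξ (s0 h)) (k.pu.z ξ (s3 h))).trans (by linarith), fun ξ h => ?_,
    by simp only [k.f1, k.c.up],
    fun ξ h => (nc_tri (k.c.T0 ξ (s0 h)) (k.pT.z ξ (s3 h))).trans (by linarith),
    fun ξ h => (nc_tri (k.c.T1 ξ (s0 h)) (k.pT.o ξ (s5 ξ h))).trans (by linarith),
    fun ξ h => (nc_tri (k.c.H0 ξ (s0 h)) (k.pH.z ξ (s3 h))).trans (by linarith),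
    fun ξ h => ?_, fun ξ h => ?_, fun ξ h => k.rt _ (k.n.mem1 (s3 h)),
    vv k.pu k.c.vu, vv k.pT k.c.vT, vv k.pH k.c.vH⟩
  · have e := nc_re (k.n.real k.rf x (s3 h))
    have m := (k.m2 (k.n.mem1 (s3 h))).2.1
    simp only [sl] at e
    rw [e] at m ⊢
    exact k.c.ru _ m
  · have := nc_tri (z := -1) (by simpa using k.c.u1 ξ (s0 h)) (k.pu.o ξ (s5 ξ h))
    rw [sub_neg_eq_add] at this
    exact this.trans (by linarith)
  · obtain ⟨h1, h2, -⟩ := k.m2 (k.n.mem1 (s3 h))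
    have df : HasDerivAt (fun ζ => f (1, ζ)) (deriv (sl f 1) ξ) ξ :=
      ((k.n.diff k.hf (l := 1) (by simp)).differentiableAt
        ((isOpen_Sec _).mem_nhds (s3 h))).hasDerivAt
    have e1 := ((k.pc.hH.hasDerivAt2 (isOpen_G2 _ _) h1).comp ξ df).deriv
    have e2 := ((k.pc.hT.hasDerivAt2 (isOpen_G2 _ _) h1).comp ξ df).deriv
    have e3 := ((k.c.du.differentiableAt ((isOpen_Sec _).mem_nhds h2)).hasDerivAt.comp ξ df).deriv
    have e4 := k.pc.H1 _ h1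
    simp only [Function.comp_def, sl] at e1 e2 e3 e4
    rw [e1, e2, e3, e4]
    ring
  · have := nc_tri (z := 0) (by simpa using k.c.e0 ξ (s0 h)) (k.pe.z ξ (s3 h))
    rw [sub_zero] at this
    exact this.trans (by linarith)

end NcF

/-- the new slope matching map -/
theorem nc_U {θ d a η μ0 B : ℝ} {U : ℂ → ℂ} {fp fm : ℂ × ℂ → ℂ} (n : NcN (θ - 3 * d) d a)
    (t1 : th0 / 2 ≤ θ - 8 * d) (t2 : θ ≤ th0) (e1 : 0 < η) (e2 : η ≤ th0)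
    (mu : |μ0 - 2 * kap * η| ≤ th0 * η) (hB : B ≤ th0 ^ 2 * η)
    (dU : DifferentiableOn ℂ U (Sec θ)) (rU : Rl U θ)
    (U0 : ∀ ξ ∈ Sec θ, ‖U ξ - ξ - μ0 * ξ * (1 - ξ)‖ ≤ B * ‖ξ‖ ^ 2)
    (hp : HC fp (G1 (θ - 3 * d) (d ^ 6 / a))) (hm : HC fm (G1 (θ - 3 * d) (d ^ 6 / a)))
    (rp : Rl2 fp (G1 (θ - 3 * d) (d ^ 6 / a))) (rm : Rl2 fm (G1 (θ - 3 * d) (d ^ 6 / a)))
    (bp : ∀ p ∈ G1 (θ - 3 * d) (d ^ 6 / a), ‖fp p - p.2‖ ≤ d / 200 * ‖p.2‖)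
    (bm : ∀ p ∈ G1 (θ - 3 * d) (d ^ 6 / a), ‖fm p - p.2‖ ≤ d / 200 * ‖p.2‖ ∧ fm p ∈ Sec θ)
    (z : ∀ ξ ∈ Sec (θ - 3 * d), fp (0, ξ) = ξ ∧ fm (0, ξ) = ξ) :
    ∃ V : ℂ → ℂ, DifferentiableOn ℂ V (Sec (θ - 8 * d)) ∧ Rl V (θ - 8 * d) ∧
      ∀ ξ ∈ Sec (θ - 8 * d), fp (1, V ξ) = U (fm (1, ξ)) ∧
        ‖V ξ - ξ - μ0 * ξ * (1 - ξ)‖ ≤ (B + a / d ^ 12) * ‖ξ‖ ^ 2 := by
  have d0 := n.d0
  have d1 := n.d1
  have a0 := n.a0
  have tt : (0 : ℝ) < th0 := by unfold th0; norm_num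
  have t3 : th0 ≤ 1 / 10 := by unfold th0; norm_num
  have E : 0 < a / d ^ 12 := by positivity
  have t8 := n.t0
  have sb : ∀ i j : ℝ, j ≤ i → i ≤ 8 → Sec (θ - i * d) ⊆ Sec (θ - j * d) := fun i j ij i8 =>
    Sec_mono (by nlinarith) (by nlinarith)
  have s0 : Sec (θ - 3 * d) ⊆ Sec θ := by simpa using sb 3 0 (by norm_num) (by norm_num)
  have bl : ∀ i : ℝ, 0 ≤ i → i ≤ 6 → ∀ ξ ∈ Sec (θ - (i + 1) * d), ∀ y, ‖y - ξ‖ ≤ d / 4 * ‖ξ‖ →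
      y ∈ Sec (θ - i * d) := fun i i0 i6 ξ h y hy =>
    Sec_ball d0 (by nlinarith) (by nlinarith) (by rwa [show θ - i * d - d = θ - (i + 1) * d by ring])
      (mem_closedBall_iff_norm.2 hy)
  have nm : ∀ p ∈ G1 (θ - 3 * d) (d ^ 6 / a), ‖U (fm p)‖ ≤ 2 * ‖p.2‖ := fun p h => by
    have h1 := (U_maps (by linarith) le_rfl t2 e1 e2 mu hB U0 (bm p h).2).2
    have h2 := norm_le_norm_sub_add (fm p) p.2
    have h3 := (bm p h).1
    have h4 : ‖fm p‖ ≤ 11 / 10 * ‖p.2‖ := by nlinarith [norm_nonneg p.2]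
    nlinarith [norm_nonneg p.2, norm_nonneg (fm p)]
  have hc : HC (fun p => U (fm p)) (G1 (θ - 3 * d) (d ^ 6 / a)) :=
    (HC.of_diff dU).comp hm fun p h => (bm p h).2
  have kc := n.key (k := 1) (g := U) hc
    (fun p h => by rw [pow_one]; linarith [nm p h, norm_nonneg p.2])
    fun ξ h => by simp only [(z ξ h).2]
  have kp := n.key (k := 1) (g := fun _ => 0) (hp.sub (HC.snd HC.id))
    (fun p h => by rw [pow_one]; exact (bp p h).trans (by gcongr; linarith))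
    fun ξ h => by simp only [(z ξ h).1, sub_self]
  generalize hD : sl (fun p => fp p - p.2) 1 = D at kp
  have eD : ∀ y, D y = fp (1, y) - y := fun y => by rw [← hD]; rfl
  generalize hC : sl (fun p => U (fm p)) 1 = c at kc
  have eC : ∀ y, c y = U (fm (1, y)) := fun y => by rw [← hC]; rfl
  have s8 : Sec (θ - 8 * d) ⊆ Sec (θ - 3 * d) := sb 8 3 (by norm_num) le_rfl
  have s4 : Sec (θ - 4 * d) ⊆ Sec (θ - 3 * d) := sb 4 3 (by norm_num) (by norm_num)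
  have mc : ∀ ξ ∈ Sec (θ - 8 * d), c ξ ∈ Sec (θ - (4 + 1) * d) := fun ξ h => by
    rw [eC]
    refine (U_maps (by linarith) (by linarith) t2 e1 e2 mu hB U0 ?_).1
    refine bl _ (by norm_num) (by norm_num) ξ (sb 8 _ (by norm_num) le_rfl h) _
      ((bm _ (n.mem1 (s8 h))).1.trans ?_)
    gcongr
    norm_num
  have my : ∀ ξ ∈ Sec (θ - 8 * d), ∀ y, ‖y - c ξ‖ ≤ d / 4 * ‖c ξ‖ → y ∈ Sec (θ - 4 * d) :=
    fun ξ h y hy => bl 4 (by norm_num) (by norm_num) _ (mc ξ h) y hy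
  have c3 : ∀ ξ ∈ Sec (θ - 8 * d), c ξ ∈ Sec (θ - 3 * d) := fun ξ h =>
    s4 (my ξ h _ (by rw [sub_self, norm_zero]; positivity))
  obtain ⟨V, hV, eV, rV⟩ := HC.fixed (G := Sec (θ - 8 * d)) (c := c)
    (r := fun ξ => d / 4 * ‖c ξ‖) (r0 := 1) (Φ := fun x => c x.1 - D x.2) {ξ | ξ.im = 0}
    (HC.of_diff (kc.df.mono s8))
    (fun ξ h => ⟨by positivity, by nlinarith [(nc_two n.pos.le n.t1 (c3 ξ h)).1]⟩)
    (((HC.of_diff (kc.df.mono s8)).comp (HC.fst HC.id) fun x hx => hx.1).sub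
      ((HC.of_diff kp.df).comp (HC.snd HC.id) fun x hx => s4 (my _ hx.1 _ hx.2)))
    (fun ξ h => by
      have := bp _ (n.mem1 (c3 ξ h))
      simp only [sub_sub_cancel_left, norm_neg, eD] at this ⊢
      nlinarith [norm_nonneg (c ξ)])
    (fun ξ h y y' hy hy' => by
      simp only [sub_sub_sub_cancel_left]
      rw [norm_sub_rev y]
      refine (convex_Sec (θ - 4 * d)).norm_image_sub_le_of_norm_deriv_le (𝕜 := ℂ)
        (fun x hx => kp.df.differentiableAt ((isOpen_Sec _).mem_nhds (s4 hx))) (fun x hx => ?_)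
        (my ξ h y hy) (my ξ h y' hy')
      have h2 := cauchy_Sec d0 (by linarith) n.t1 (k := 1) (M := d / 200) (by norm_num) kp.df
        (fun ζ hζ => by rw [eD, pow_one]; exact bp _ (n.mem1 hζ))
        (ξ := x) (by rwa [show θ - 3 * d - d = θ - 4 * d by ring])
      rw [pow_one] at h2
      refine (le_of_mul_le_mul_right h2 (norm_pos_iff.2 (Sec_ne hx))).trans ?_
      field_simp
      norm_num)
    (fun ξ h hr => by
      have r1 : (c ξ).im = 0 := by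
        have m := s8 h
        rw [nc_re hr] at m ⊢
        have e := nc_re (n.real rm _ m)
        have m' := (bm _ (n.mem1 m)).2
        simp only [sl] at e
        rw [eC]
        rw [e] at m' ⊢
        exact rU _ m'
      refine ⟨r1, fun y hy => ?_⟩
      have := n.real rp y (s4 (my ξ h y hy))
      simp only [sl] at this
      simp [eD, r1, this])
  refine ⟨V, hV.diffOn (isOpen_Sec _), fun x h => rV _ h (by simp), fun ξ h => ?_⟩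
  obtain ⟨v1, v2, -⟩ := eV ξ h
  simp only at v1 v2
  refine ⟨by rw [← eC, ← sub_eq_zero, ← neg_eq_zero, ← sub_eq_zero.2 v2, eD]; ring, ?_⟩
  have b1 := kp.b _ (s4 (my ξ h _ v1))
  have b2 := kc.b _ (s8 h)
  have b3 := U0 ξ (s0 (s8 h))
  have b4 := nm _ (n.mem1 (s8 h))
  have b5 := norm_le_norm_sub_add (V ξ) (c ξ)
  rw [← eC] at b4
  simp only at b4
  have b6 : ‖V ξ‖ ≤ 3 * ‖ξ‖ := by nlinarith [norm_nonneg ξ, norm_nonneg (c ξ)]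
  have b7 : ‖V ξ‖ ^ 2 ≤ 9 * ‖ξ‖ ^ 2 := by nlinarith [norm_nonneg (V ξ)]
  have b8 := n.num.1
  have b9 : 0 < 20 * a / d ^ 6 := by positivity
  rw [sub_zero] at b1
  rw [show V ξ - ξ - μ0 * ξ * (1 - ξ) = U ξ - ξ - μ0 * ξ * (1 - ξ) + (c ξ - U ξ) - D (V ξ) by
    linear_combination -v2]
  refine (norm_sub_le _ _).trans ((add_le_add_left (norm_add_le _ _) _).trans ?_)
  norm_num at b1 b2
  nlinarith [sq_nonneg ‖ξ‖]

/-- the complex invariants after one step -/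
theorem FamOK.invC {P : Par} {θ d B a : ℝ} {S : St} {w : ℂ → ℂ} {F : Fam} (N : Num P θ d B a)
    (h : InvC P θ d B S) (H : FamOK P θ d B a S w F) :
    ∃ U, ∀ g s, InvC P (θ - 8 * d) (d / 2) (B + a / d ^ 12) (newSt P S F U g s) := by
  obtain ⟨-, n2, n3, -, n5, n6, n7, -⟩ := N.small
  obtain ⟨f1, f2, f3, f4, f5, f6, -⟩ := H.f N h
  have d0 := N.d0
  have a0 := N.a0
  have t1 := N.th1
  have t2 := N.th2
  have e1 := N.par.et1
  have tt : (0 : ℝ) < th0 := by unfold th0; norm_num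
  have E : 0 < a / d ^ 12 := by positivity
  have e2 : P.η ≤ th0 := n6.trans (by unfold th0 del1; norm_num)
  have e3 : P.η ≤ 1 / 10 := n6.trans (by unfold del1; norm_num)
  have hB : B ≤ del1 := n3.trans (by unfold th0 del1 at *; nlinarith)
  have B1 : B ≤ 1 / 10 := hB.trans (by unfold del1; norm_num)
  have n : NcN (θ - 3 * d) d a := ⟨d0, n2, a0, n7, by linarith, by linarith⟩
  have o1 : ((1 : ℝ) : ℂ) ∈ Sec (θ - 3 * d) := Sec_real n.pos one_pos le_rfl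
  rw [Complex.ofReal_one] at o1
  have kp : NcF P.q θ d B a _ S.up S.Tp S.Hp S.h P.u0 P.Tp0 P.Hp0 F.Tp F.Hp F.Wp F.fp F.h :=
    ⟨n, t2, hB, n5, N.par.q1, h.cp, H.pcp, f1, f3, fun p hp => (f5 p hp).2.2.2.2.1,
      fun ξ m => (f6 ξ m).1, H.csp.φ1 _ (f5 _ (n.mem1 o1)).1 rfl,
      fun p hp => sub_eq_zero.1 (H.csp.root _ (f5 p hp).1), H.hl.hh, H.hl.rh, H.hl.hz, H.hl.h0⟩
  have km : NcF P.q θ d B a _ S.um S.Tm S.Hm (fun ξ => -S.h ξ) P.u0 P.Tm0 P.Hm0 F.Tm F.Hm F.Wm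
      F.fm fun p => -F.h p :=
    ⟨n, t2, hB, n5, N.par.q1, h.cm, H.pcm, f2, f4, fun p hp => (f5 p hp).2.2.2.2.2,
      fun ξ m => (f6 ξ m).2, H.csm.φ1 _ (f5 _ (n.mem1 o1)).2.1 rfl,
      fun p hp => sub_eq_zero.1 (H.csm.root _ (f5 p hp).2.1), H.hl.hh.neg,
      fun t x m => by simp [H.hl.rh t x m], fun ξ m => by rw [H.hl.hz ξ m],
      fun p hp => by rw [neg_sub_neg, norm_sub_rev]; exact H.hl.h0 p hp⟩
  obtain ⟨V, dV, rV, eV⟩ := nc_U n t1 t2 e1 e2 N.par.mu n3 h.dU h.rU h.U0 f1 f2 f3 f4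
    (fun p hp => (f5 p hp).2.2.1) (fun p hp => ⟨(f5 p hp).2.2.2.1, (km.m2 hp).2.1⟩) f6
  have s3 : Sec (θ - 8 * d) ⊆ Sec (θ - 3 * d) := kp.sub (by norm_num) le_rfl
  have s0 : Sec (θ - 8 * d) ⊆ Sec θ := kp.sub0 (by norm_num) le_rfl
  have s30 : Sec (θ - 3 * d) ⊆ Sec θ := kp.sub0 (by norm_num) (by norm_num)
  have s5 : ∀ ξ ∈ Sec (θ - 8 * d), ξ ∈ Sec (θ - 3 * d - 5 * d) := fun ξ h => by
    rwa [show θ - 3 * d - 5 * d = θ - 8 * d by ring]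
  have T0 : ∀ p ∈ G1 (θ - 3 * d) (d ^ 6 / a), 9 / 10 ≤ ‖F.Tm (p.1, F.fm p)‖ := fun p hp => by
    have := norm_le_norm_sub_add 1 (F.Tm (p.1, F.fm p))
    rw [norm_sub_rev, norm_one] at this
    linarith [(km.bd hp).2.1]
  have T1 : ∀ p ∈ G1 (θ - 3 * d) (d ^ 6 / a), F.Tm (p.1, F.fm p) ≠ 0 := fun p hp =>
    norm_pos_iff.1 (by linarith [T0 p hp])
  have um : ∀ {ζ : ℂ}, ζ ∈ Sec (θ - d) → S.U ζ ∈ Sec (θ - d) ∧ ‖S.U ζ‖ ≤ (1 + P.η) * ‖ζ‖ :=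
    U_maps (by linarith) (by linarith) t2 e1 e2 N.par.mu n3 h.U0
  have sd : Sec (θ - d) ⊆ Sec θ := Sec_mono (by linarith) (by linarith)
  have bρ : ∀ p ∈ G1 (θ - 3 * d) (d ^ 6 / a),
      ‖F.Tp (p.1, S.U (F.fm p)) / F.Tm (p.1, F.fm p)‖ ≤ 2 := fun p hp => by
    obtain ⟨m1, -, m3⟩ := km.m2 hp
    have b1 := nc_tri (h.cp.T0 _ (sd (um m1.1).1)) (H.Tp3 _ m1)
    have b2 := norm_le_norm_sub_add (F.Tp (p.1, S.U (F.fm p))) 1
    have dd : d ^ 2 ≤ 1 / 100 := by nlinarith [n.d1]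
    simp only at b1
    rw [norm_div, div_le_iff₀ (by linarith [T0 p hp])]
    rw [norm_one] at b2
    unfold del1 at b1
    nlinarith [T0 p hp, norm_nonneg (F.fm p)]
  have zρ : ∀ ξ ∈ Sec (θ - 3 * d),
      F.Tp (0, S.U (F.fm (0, ξ))) / F.Tm (0, F.fm (0, ξ)) = S.ρ ξ := fun ξ m => by
    have := T1 _ (n.mem0 m)
    simp only [(f6 ξ m).2, H.pcm.Tz ξ (km.z2 m)] at this ⊢
    rw [H.pcp.Tz _ (um (km.z2 m)).1, ← h.ρT ξ (s30 m), mul_div_cancel_right₀ _ this]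
  have pρ : NcP (θ - 3 * d) d (a / d ^ 12)
      (fun ξ => F.Tp (1, S.U (F.fm (1, ξ))) / F.Tm (1, F.fm (1, ξ))) S.ρ :=
    n.pack (f := fun p => F.Tp (p.1, S.U (F.fm p)) / F.Tm (p.1, F.fm p))
      ((km.hc H.Tp2).div (km.hc H.pcm.hT) T1) (fun p hp => by linarith [bρ p hp]) zρ
  have kh := ((n.key (k := 1) (g := fun _ => 0) (f := fun p => F.h p - S.h p.2)
    (H.hl.hh.sub ((HC.of_diff h.cp.de).comp (HC.snd HC.id) fun p hp => s30 hp.1))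
    (fun p hp => by rw [pow_one]; exact (H.hl.h0 p hp).trans (by gcongr; linarith [n.d1]))
    fun ξ m => by simp only [H.hl.hz ξ m, sub_self]))
  have kh' : NcC (θ - 3 * d) (20 * a / d ^ 6) (1 + 1) (sl F.h 1) S.h :=
    ⟨kp.pe.df, h.cp.de.mono s30, fun ξ m => by simpa [sl] using kh.b ξ m⟩
  have k2 := (kh'.der d0 (by linarith) n.t1 (by norm_num)).der (k := 0) d0 (by linarith)
    (by linarith) (by norm_num)
  have zm : S.zm = fun ξ => S.Hm ξ + -S.h ξ := funext fun _ => sub_eq_add_neg _ _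
  refine ⟨V, fun g s => ?_⟩
  have zp' : (newSt P S F V g s).zp = sl (fun p => F.Hp (p.1, F.fp p) + F.h p) 1 := rfl
  have zm' : (newSt P S F V g s).zm = sl (fun p => F.Hm (p.1, F.fm p) + -F.h p) 1 :=
    funext fun _ => sub_eq_add_neg _ _
  have sD : Dom (θ - 8 * d) (d / 2 / 1000) (sl F.h 1) ⊆ Dom (θ - 3 * d) (d / 2 / 1000) (sl F.h 1) :=
    fun p hp => ⟨s3 hp.1, hp.2⟩
  refine ⟨kp.cap, km.cap, fun ξ m => ?_, fun ξ m => ?_, dV, rV, fun ξ m => (eV ξ m).2,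
    fun ξ m => ?_, pρ.df.mono s3, fun x m => ?_, fun ξ m => ?_, fun ξ m => ?_, fun ξ m => ?_,
    fun ξ m => ?_, H.hl.hC.mono sD, fun ξ m => H.hl.cr _ (n.mem1 (s3 m)),
    fun ξ y y' m m' => H.hl.C1 ξ y y' (sD m) (sD m'), fun t x m => H.hl.rC t x (sD m)⟩
  · have := nc_tri (z := -P.η) (by simpa using h.h1 ξ (s0 m)) (kp.pe.o ξ (s5 ξ m))
    rw [sub_neg_eq_add] at this
    exact this.trans (by linarith)
  · have b := k2.b ξ (Sec_mono (by linarith) (by linarith) m)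
    have := nc_tri (z := 0) (by simpa using h.h2 ξ (s0 m)) b
    rw [sub_zero, pow_zero, mul_one] at this
    exact this.trans (by linarith [n.num.2.2])
  · show S.up (F.fp (1, V ξ)) = S.um (F.fm (1, ξ))
    rw [(eV ξ m).1, h.Uu _ (km.m2 (n.mem1 (s3 m))).2.1]
  · have r1 := n.real (km.rl H.pcm.rT) x (s3 m)
    have e := nc_re (n.real f4 x (s3 m))
    have r3 : (F.Tp (1, S.U (F.fm (1, x)))).im = 0 := by
      obtain ⟨m1, m2, -⟩ := km.m2 (n.mem1 (s3 m))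
      simp only [sl] at e
      have m3 := um m1.1
      simp only at m3
      have e' : (S.U (F.fm (1, x))).im = 0 := by rw [e] at m2 ⊢; exact h.rU _ m2
      have m4 := (nc_two (by linarith) t2 (sd m3.1)).1
      have L : d ^ 6 / a ≤ d ^ 4 / a := N.small.2.2.2.2.2.2.2
      rw [nc_re e'] at m3 m4 ⊢
      have := H.pcp.rT 1 (S.U (F.fm (1, x))).re ⟨m3.1, by
        simp only [Complex.ofReal_one, norm_one, one_mul]
        nlinarith [norm_nonneg (((S.U (F.fm (1, x))).re : ℝ) : ℂ)]⟩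
      simpa using this
    simp only [sl] at r1
    show (F.Tp (1, S.U (F.fm (1, x))) / F.Tm (1, F.fm (1, x))).im = 0
    rw [Complex.div_im, r1, r3]
    simp
  · show F.Tp (1, S.U (F.fm (1, ξ))) / F.Tm (1, F.fm (1, ξ)) * F.Tm (1, F.fm (1, ξ)) =
      F.Tp (1, F.fp (1, V ξ))
    rw [(eV ξ m).1, div_mul_cancel₀ _ (T1 _ (n.mem1 (s3 m)))]
  · have := nc_tri (z := -((2 + kap) * P.η)) (by simpa using h.ρ1 ξ (s0 m)) (pρ.o ξ (s5 ξ m))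
    rw [sub_neg_eq_add] at this
    exact this.trans (by linarith)
  · have b0 := h.f1 ξ (s0 m)
    have b1 := pρ.z ξ (s3 m)
    have b2 := km.pz.z ξ (s3 m)
    have b3 := kp.pz.z ξ (s3 m)
    have b4 : ‖sl (fun p => F.Hm (p.1, F.fm p) + -F.h p) 1 ξ‖ ≤ 2 := km.bz (n.mem1 (s3 m))
    have b5 : ‖S.ρ ξ‖ ≤ 2 := zρ ξ (s3 m) ▸ bρ _ (n.mem0 (s3 m))
    have b6 : ‖1 - (kap : ℂ) * P.η * ξ‖ ≤ 2 := by
      refine (norm_sub_le _ _).trans ?_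
      rw [norm_one, norm_mul, norm_mul, Complex.norm_real, Complex.norm_real,
        Real.norm_of_nonneg e1.le, Real.norm_of_nonneg (by unfold kap; norm_num)]
      unfold kap
      nlinarith [(nc_two n.pos.le n.t1 (s3 m)).1, norm_nonneg ξ]
    rw [zm] at b0
    rw [zp', zm']
    show ‖F.Tp (1, S.U (F.fm (1, ξ))) / F.Tm (1, F.fm (1, ξ)) * _ - _‖ ≤ _
    simp only [St.zp] at b0
    generalize F.Tp (1, S.U (F.fm (1, ξ))) / F.Tm (1, F.fm (1, ξ)) = r at *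
    generalize sl (fun p => F.Hm (p.1, F.fm p) + -F.h p) 1 ξ = x at *
    generalize sl (fun p => F.Hp (p.1, F.fp p) + F.h p) 1 ξ = y at *
    generalize S.Hm ξ + -S.h ξ = x0 at *
    generalize S.Hp ξ + S.h ξ = y0 at *
    generalize 1 - (kap : ℂ) * P.η * ξ = t at *
    rw [show r * x - y * t = S.ρ ξ * x0 - y0 * t + (r - S.ρ ξ) * x + S.ρ ξ * (x - x0) -
      (y - y0) * t by ring]
    refine (norm_sub_le _ _).trans ((add_le_add_left (norm_add₃_le) _).trans ?_)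
    simp only [norm_mul]
    have c1 := mul_le_mul b1 b4 (norm_nonneg _) (by positivity)
    have c2 := mul_le_mul b5 b2 (norm_nonneg _) (by positivity)
    have c3 := mul_le_mul b3 b6 (norm_nonneg _) (by positivity)
    linarith
  · have b0 := h.f2 ξ (s0 m)
    have b1 := km.pz.z ξ (s3 m)
    have b2 := kp.pz.z ξ (s3 m)
    have b3 := km.pz.o ξ (s5 ξ m)
    have b4 := kp.pz.o ξ (s5 ξ m)
    have b5 : ‖sl (fun p => F.Hm (p.1, F.fm p) + -F.h p) 1 ξ‖ ≤ 2 := km.bz (n.mem1 (s3 m))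
    have b6 : ‖sl (fun p => F.Hp (p.1, F.fp p) + F.h p) 1 ξ‖ ≤ 2 := kp.bz (n.mem1 (s3 m))
    have dh : ‖deriv S.h ξ‖ ≤ 1 := by
      have := norm_le_norm_sub_add (deriv S.h ξ) (-P.η)
      rw [sub_neg_eq_add, norm_neg, Complex.norm_real, Real.norm_of_nonneg e1.le] at this
      linarith [h.h1 ξ (s0 m)]
    have b7 := km.dz (s0 m) (by rwa [deriv.fun_neg, norm_neg])
    have b8 := kp.dz (s0 m) dh
    rw [zm] at b0
    rw [zp', zm']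
    unfold St.zp at b0
    simp only at b0
    generalize deriv (sl (fun p => F.Hm (p.1, F.fm p) + -F.h p) 1) ξ = x' at *
    generalize deriv (sl (fun p => F.Hp (p.1, F.fp p) + F.h p) 1) ξ = y' at *
    generalize sl (fun p => F.Hm (p.1, F.fm p) + -F.h p) 1 ξ = x at *
    generalize sl (fun p => F.Hp (p.1, F.fp p) + F.h p) 1 ξ = y at *
    generalize deriv (fun ξ => S.Hm ξ + -S.h ξ) ξ = x1 at *
    generalize deriv (fun ξ => S.Hp ξ + S.h ξ) ξ = y1 at *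
    generalize S.Hm ξ + -S.h ξ = x0 at *
    generalize S.Hp ξ + S.h ξ = y0 at *
    rw [show x' * y - y' * x - 2 * P.η = x1 * y0 - y1 * x0 - 2 * P.η + (x' - x1) * y +
      x1 * (y - y0) - ((y' - y1) * x + y1 * (x - x0)) by ring]
    refine (norm_sub_le _ _).trans ((add_le_add norm_add₃_le (norm_add_le _ _)).trans ?_)
    simp only [norm_mul]
    have c1 := mul_le_mul b3 b6 (norm_nonneg _) (by positivity)
    have c2 := mul_le_mul b7 b2 (norm_nonneg _) (by positivity)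
    have c3 := mul_le_mul b4 b5 (norm_nonneg _) (by positivity)
    have c4 := mul_le_mul b8 b1 (norm_nonneg _) (by positivity)
    linarith

end Bon3
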