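import Pool.Agent.Lib.MP_3dbf58_gt.RealA2

open Set Filter Topology MeasureTheory Metric

noncomputable section

namespace Bon3

theorem FamOK.capR {P : Par} {θ d B a : ℝ} {S : St} {w : ℂ → ℂ} {F : Fam} (N : Num P θ d B a)
    (h : InvC P θ d B S) (H : FamOK P θ d B a S w F) {t : ℝ} (ht : |t| ≤ 2) :
    CapR P.q (θ - 2 * d) S.up (sl F.Tp t) (sl F.Hp t) P.u0 P.Tp0 P.Hp0 ∧
    CapR P.q (θ - 2 * d) S.um (sl F.Tm t) (sl F.Hm t) P.u0 P.Tm0 P.Hm0 :=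
  ⟨ra_capR N h.cp H.pcp ht, ra_capR N h.cm H.pcm ht⟩

/-- new caps with the same vertex data fit to the same band -/
theorem ra_fit {q θ : ℝ} {b : Pc} {u T H v K L u' T' H' v' K' L' : ℂ → ℂ}
    {a0 b0 c0 b1 c1 : ℝ} (t0 : 0 < θ) (t1 : θ ≤ th0) (q0 : 0 < q) (q1 : q ≤ del1)
    (f : Fit b (capOf q u T H a0 b0 c0) (capOf q v K L a0 b1 c1))
    (c : CapR q θ u' T' H' a0 b0 c0) (c' : CapR q θ v' K' L' a0 b1 c1) :
    Fit b (capOf q u' T' H' a0 b0 c0) (capOf q v' K' L' a0 b1 c1) := by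
  obtain ⟨o1, o2, -⟩ := capOf_ok t0 t1 q0 q1 c
  obtain ⟨o3, o4, -⟩ := capOf_ok t0 t1 q0 q1 c'
  refine ⟨f.ob, o1, o3, ?_, ?_, ?_, ?_, ?_, ?_, o2, o4, ?_, ?_, f.eqt⟩
  · simpa [capOf, rc] using f.pH
  · simpa [capOf, rc] using f.pX
  · simpa [capOf, rc] using f.pT
  · simpa [capOf, rc] using f.mH
  · simpa [capOf, rc] using f.mX
  · simpa [capOf, rc] using f.mT
  · simpa [capOf, rc] using f.pT0
  · simpa [capOf, rc] using f.mT0

theorem ra_zero {q θ Λ ε A : ℝ} {u T H : ℂ → ℂ} {a0 b0 c0 : ℝ} {Tl Hl Wl : ℂ × ℂ → ℂ}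
    (t0 : 0 < θ) (pc : PC q θ Λ ε A u T H Tl Hl Wl) {s : ℝ} (hs : s ∈ Icc (0 : ℝ) 1) :
    |(capOf q u (sl Tl (0 : ℝ)) (sl Hl (0 : ℝ)) a0 b0 c0).H s - (capOf q u T H a0 b0 c0).H s| ≤ 0 ∧
    |(capOf q u (sl Tl (0 : ℝ)) (sl Hl (0 : ℝ)) a0 b0 c0).X s - (capOf q u T H a0 b0 c0).X s| ≤ 0 ∧
    |(capOf q u (sl Tl (0 : ℝ)) (sl Hl (0 : ℝ)) a0 b0 c0).T s - (capOf q u T H a0 b0 c0).T s| ≤ 0 := by
  rcases hs.1.eq_or_lt with h0 | h0
  · subst h0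
    simp [capOf, rc]
  have ms : (s : ℂ) ∈ Sec θ := Sec_real t0 h0 hs.2
  simp [capOf, rc, sl, pc.Tz _ ms, pc.Hz _ ms]

/-- the brightness is kept -/
theorem ra_br {P : Par} {θ d B a : ℝ} {S : St} {w : ℂ → ℂ} {F : Fam} (N : Num P θ d B a)
    (h : InvC P θ d B S) (H : FamOK P θ d B a S w F) {g g' : ℝ → ℝ}
    (r : Rep g P.band (S.cp P) (S.cm P)) (r' : Rep g' P.band (F.cp P S 1) (F.cm P S 1)) :
    BrEq g' g := by
  obtain ⟨n1, n2, n3, n4, n5, n6, n7, n8⟩ := ra_num N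
  obtain ⟨-, -, m3, -, -, m6, -⟩ := N.small
  have d0 := N.d0
  have B0 := N.B0
  have t2 := N.th2
  have t1 := N.th1
  have t0 : 0 < θ := by linarith
  have e2 : P.η ≤ th0 := by unfold del1 at m6; unfold th0; linarith
  have um : ∀ θ', th0 / 2 ≤ θ' → θ' ≤ θ → ∀ ξ ∈ Sec θ', S.U ξ ∈ Sec θ' ∧
      ‖S.U ξ‖ ≤ (1 + P.η) * ‖ξ‖ := fun θ' a1 a2 ξ hξ =>
    U_maps a1 a2 t2 N.par.et1 e2 N.par.mu m3 h.U0 hξ
  have o := isOpen_Sec θ
  have bu : ∀ ξ ∈ Sec θ, ‖deriv S.up ξ + 1‖ ≤ 1 / 10 := fun ξ hξ => by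
    have := h.cp.u1 ξ hξ
    unfold del1 at this; linarith
  have bm : ∀ ξ ∈ Sec θ, ‖deriv S.um ξ + 1‖ ≤ 1 / 10 := fun ξ hξ => by
    have := h.cm.u1 ξ hξ
    unfold del1 at this; linarith
  have dU : ∀ ξ ∈ Sec θ, ‖deriv S.U ξ - 1‖ ≤ 1 / 2 := by
    intro ξ hξ
    have mU := (um θ (by linarith) le_rfl ξ hξ).1
    have c1 : HasDerivAt (fun ζ => S.up (S.U ζ)) (deriv S.up (S.U ξ) * deriv S.U ξ) ξ :=
      (h.cp.du.differentiableAt (o.mem_nhds mU)).hasDerivAt.comp ξ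
        (h.dU.differentiableAt (o.mem_nhds hξ)).hasDerivAt
    have c2 : (fun ζ => S.up (S.U ζ)) =ᶠ[𝓝 ξ] S.um :=
      Filter.eventually_of_mem (o.mem_nhds hξ) h.Uu
    have c3 : deriv S.up (S.U ξ) * deriv S.U ξ = deriv S.um ξ := by rw [← c1.deriv, c2.deriv_eq]
    have c4 : deriv S.U ξ - 1 = (deriv S.up (S.U ξ) + 1) * (deriv S.U ξ - 1) +
        (deriv S.up (S.U ξ) + 1) - (deriv S.um ξ + 1) := by rw [← c3]; ring
    have c5 := bu _ mU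
    have c6 := bm _ hξ
    have c7 : ‖(deriv S.up (S.U ξ) + 1) * (deriv S.U ξ - 1)‖ ≤ 1 / 10 * ‖deriv S.U ξ - 1‖ := by
      rw [norm_mul]; exact mul_le_mul_of_nonneg_right c5 (norm_nonneg _)
    have c8 := (congrArg norm c4).le.trans ((norm_sub_le _ _).trans
      (add_le_add (norm_add_le _ _) le_rfl))
    linarith
  have m1 : (1 : ℂ) ∈ Sec θ := by simpa using Sec_real t0 one_pos le_rfl
  have U1 : S.U 1 = 1 := by
    have mU := (um θ (by linarith) le_rfl 1 m1).1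
    have c1 : ∀ ξ ∈ Sec θ, HasDerivWithinAt (fun ζ => S.up ζ + ζ) (deriv S.up ξ + 1) (Sec θ) ξ :=
      fun ξ hξ => ((h.cp.du.differentiableAt (o.mem_nhds hξ)).hasDerivAt.fun_add
        (hasDerivAt_id' ξ)).hasDerivWithinAt
    have c2 := (convex_Sec θ).norm_image_sub_le_of_norm_hasDerivWithin_le c1 bu m1 mU
    rw [h.Uu 1 m1, h.cm.up, h.cp.up, zero_add, zero_add] at c2
    have c3 := norm_nonneg (S.U 1 - 1)
    exact sub_eq_zero.1 (norm_eq_zero.1 (by linarith))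
  have pos : ∀ s ∈ Ioo (0 : ℝ) 1, ¬ s ≤ 0 ∧ ¬ (S.U s).re ≤ 0 ∧ (((S.U s).re : ℝ) : ℂ) = S.U s :=
    fun s hs => by
      have ms := Sec_real t0 hs.1 hs.2.le
      exact ⟨not_le.2 hs.1, not_le.2 (Sec_re_pos t0.le (um θ (by linarith) le_rfl _ ms).1),
        ra_re (h.rU s ms)⟩
  refine brEq_of_caps r r' (up := fun s => P.q * rc S.up P.u0 s)
    (um := fun s => P.q * rc S.um P.u0 s) (up' := fun s => P.q * (deriv S.up s).re)
    (U := rc S.U 0) (U' := fun s => (deriv S.U s).re) (fun _ _ => rfl) (fun _ _ => rfl)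
    (fun _ _ => rfl) (fun _ _ => rfl) ?_ ?_ ?_ ?_ ?_ ?_ ?_
  · intro s hs
    refine ⟨(rc_deriv _ t0 h.cp.du ⟨hs.1, hs.2.le⟩).const_mul _, ?_⟩
    have c1 := (Complex.abs_re_le_norm _).trans (bu _ (Sec_real t0 hs.1 hs.2.le))
    rw [Complex.add_re, Complex.one_re, abs_le] at c1
    rw [abs_le]
    constructor <;> nlinarith [c1.1, c1.2]
  · exact rc_cont (M := 1 + P.η) t0 h.dU fun ξ hξ => by
      simpa using (um θ (by linarith) le_rfl ξ hξ).2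
  · simp [rc]
  · simp [rc, U1]
  · intro s hs
    refine ⟨rc_deriv _ t0 h.dU ⟨hs.1, hs.2.le⟩, ?_⟩
    have c1 := (Complex.abs_re_le_norm _).trans (dU _ (Sec_real t0 hs.1 hs.2.le))
    rw [Complex.sub_re, Complex.one_re, abs_le] at c1
    constructor <;> linarith [c1.1, c1.2]
  · intro s hs
    obtain ⟨p1, p2, p3⟩ := pos s hs
    simp only [rc, if_neg p1, if_neg p2, p3, h.Uu _ (Sec_real t0 hs.1 hs.2.le)]
  · intro s hs
    obtain ⟨p1, p2, p3⟩ := pos s hs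
    have ms : (s : ℂ) ∈ Sec (θ - d) := Sec_real (by linarith) hs.1 hs.2.le
    have mU := (um (θ - d) (by linarith) (by linarith) _ ms).1
    have sub : Sec (θ - d) ⊆ Sec θ := Sec_mono (by linarith) (by linarith)
    have mem : ∀ ξ ∈ Sec (θ - d), (((1 : ℝ) : ℂ), ξ) ∈ G2 (θ - d) (d ^ 4 / a) := fun ξ hξ =>
      ra_mem (by linarith) (by linarith) (by linarith) (ra_nt (by norm_num)) hξ
    have k := congrArg Complex.re (H.br _ (mem _ ms))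
    have r1 := H.pcm.rT 1 s (mem _ ms)
    have r2 := h.cm.rT s (sub ms)
    have r3 := h.cp.rT (S.U s).re (by rw [p3]; exact sub mU)
    have r4 := H.pcp.rT 1 (S.U s).re (by rw [p3]; exact mem _ mU)
    rw [p3] at r3 r4
    simp only [pow_two, Complex.sub_re, Complex.mul_re, r1, r2, r3, r4] at k
    simp only [St.cp, St.cm, Fam.cp, Fam.cm, capOf, rc, if_neg p1, if_neg p2, p3, sl]
    linarith

/-- the real bodies of the family -/
theorem FamOK.bodies {P : Par} {θ d B a e : ℝ} {S : St} {w : ℂ → ℂ} {F : Fam}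
    (N : Num P θ d B a) (h : InvC P θ d B S) (r : InvR P θ d e S) (H : FamOK P θ d B a S w F) :
    ∃ g : ℝ → ℝ → ℝ, g 0 = S.g ∧ (∀ t, |t| ≤ 2 → Rep (g t) P.band (F.cp P S t) (F.cm P S t)) ∧
      (∀ t t', |t| ≤ 2 → |t'| ≤ 2 → ∀ x, |g t x - g t' x| ≤ a / d ^ 12 * |t - t'| * (1 + |x|)) ∧
      BrEq (g 1) P.gb ∧
      (∀ t x y : ℝ, |t| ≤ 2 → x ≤ 1 →
        ((t : ℂ), (x : ℂ), (y : ℂ)) ∈ G3 (θ - 3 * d) (d ^ 4 / a / 8) (d / 1000) S.h →
        Cr (g t) (P.q * (1 - x)) y = Real.pi * (Cfl S.Cf F.Ip F.Im (t, x, y)).re) ∧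
      ∀ x ∈ Ioo (0 : ℝ) 1, g 1 (S.Hp x).re ≤
        S.g (S.Hp x).re + 2 * P.q * (S.Tp x).re * (w x).re + a ^ 2 / d ^ 12 := by
  obtain ⟨n1, n2, n3, n4, n5, n6, n7, n8⟩ := ra_num N
  have d0 := N.d0
  have a0 := N.a0
  have B0 := N.B0
  have t2 := N.th2
  have ex : ∀ t : ℝ, ∃ g : ℝ → ℝ, |t| ≤ 2 → Rep g P.band (F.cp P S t) (F.cm P S t) := by
    intro t
    by_cases ht : |t| ≤ 2
    · obtain ⟨c1, c2⟩ := H.capR N h ht
      obtain ⟨g, hg⟩ := (ra_fit (by linarith) (by linarith) n8 N.par.q1 r.rep.fit c1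
        c2).exists_rep
      exact ⟨g, fun _ => hg⟩
    · exact ⟨fun _ => 0, fun h => absurd h ht⟩
  choose g hg using ex
  have z2 : |(0 : ℝ)| ≤ 2 := by norm_num
  have o2 : |(1 : ℝ)| ≤ 2 := by norm_num
  have g0 : g 0 = S.g := by
    funext x
    have := (hg 0 z2).close r.rep (δ := 0) (fun s hs => ra_zero (by linarith) H.pcp hs)
      (fun s hs => ra_zero (by linarith) H.pcm hs) x
    simpa [sub_eq_zero] using this
  refine ⟨g, g0, hg, ?_, ?_, ?_, ?_⟩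
  · intro t t' ht ht' x
    refine ((hg t ht).close (hg t' ht') (fun s hs => ra_lip N h.cp H.pcp ht ht' hs)
      (fun s hs => ra_lip N h.cm H.pcm ht ht' hs) x).trans ?_
    have e1 := ra_pow N (k := 2) (by norm_num)
    have e2 : 0 ≤ a / d ^ 2 := by positivity
    have e3 : 0 ≤ |t - t'| := abs_nonneg _
    refine mul_le_mul_of_nonneg_right ?_ (by positivity)
    nlinarith
  · intro s c h1 h2 h3
    exact (ra_br N h H r.rep (hg 1 o2) s c h1 h2 h3).trans (r.br s c h1 h2 h3)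
  · intro t x y ht hx hm
    have sub : Sec (θ - 3 * d) ⊆ Sec θ := Sec_mono (by linarith) (by linarith)
    have mx : (x : ℂ) ∈ Sec θ := sub hm.1
    have x0 : 0 < x := by simpa using Sec_re_pos (by linarith) mx
    have hy : ‖(y : ℂ) - S.h x‖ < d / 1000 * ‖(x : ℂ)‖ := hm.2.2
    have s0 : 0 ≤ P.q * (1 - x) := mul_nonneg n8.le (by linarith)
    have hp : P.q * (1 - x) * y ^ 2 < 1 := by
      have e1 := h.cp.e0 _ mx
      have e2 := ra_norm (by linarith) t2 mx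
      have e3 := norm_le_norm_add_norm_sub' (y : ℂ) (S.h x)
      have e4 : d / 1000 * ‖(x : ℂ)‖ ≤ d / 1000 * 2 := mul_le_mul_of_nonneg_left e2 (by positivity)
      unfold del1 at e1
      have e5 : |y| ≤ 1 := by
        rw [Complex.norm_real, Real.norm_eq_abs] at e3
        linarith
      have e6 : y ^ 2 ≤ 1 := by rw [← sq_abs]; nlinarith [abs_nonneg y]
      have e7 : P.q * (1 - x) ≤ 1 / 2 := by nlinarith
      nlinarith
    have key : ∀ τ : ℝ, |τ| ≤ 2 →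
        ((τ : ℂ), (x : ℂ), (y : ℂ)) ∈ G3 (θ - 3 * d) (d ^ 4 / a / 8) (d / 1000) S.h →
        Cr (g τ) (P.q * (1 - x)) y = -(F.Im (τ, x, -y)).re +
          (∫ s in (0 : ℝ)..1, (P.band.H s + y) /
            Real.sqrt (P.band.X s - P.q * (1 - x) * (P.band.H s + y) ^ 2) * P.band.H' s) +
          (F.Ip (τ, x, y)).re := by
      intro τ hτ hm
      obtain ⟨c1, c2⟩ := H.capR N h hτ
      have hm' : ((τ : ℂ), (x : ℂ), ((-y : ℝ) : ℂ)) ∈
          G3 (θ - 3 * d) (d ^ 4 / a / 8) (d / 1000) (fun ξ => -S.h ξ) := by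
        refine ⟨hm.1, hm.2.1, ?_⟩
        show ‖((-y : ℝ) : ℂ) - -S.h x‖ < d / 1000 * ‖(x : ℂ)‖
        rw [Complex.ofReal_neg, neg_sub_neg, norm_sub_rev]
        exact hy
      have i1 := ra_capI (by linarith) c1 H.csp hτ hx hm rfl (hg τ hτ).tp
      have i2 := ra_capI (by linarith) c2 H.csm hτ hx hm' rfl (hg τ hτ).tm
      rw [Complex.ofReal_neg] at i2
      rw [ra_Cr (hg τ hτ) s0 hp, ← i1, ← i2]
      rfl
    have k1 := key t ht hm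
    have k0 := key 0 z2 ⟨hm.1, by simp; positivity, hm.2.2⟩
    rw [g0, r.lC x y ⟨mx, hy⟩ hx, Complex.ofReal_zero] at k0
    simp only [Cfl, Complex.add_re, Complex.div_ofReal_re, Complex.sub_re]
    have := Real.pi_pos
    field_simp
    linarith
  · intro x hx
    have hx' : x ∈ Icc (0 : ℝ) 1 := ⟨hx.1.le, hx.2.le⟩
    have e1 := ((hg 1 o2).tp x hx').2 (S.Hp x).re
    have e2 := (r.rep.tp x hx').1
    have e3 := ra_second N h.cp H.pcp ⟨hx.1, hx.2.le⟩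
    rw [H.Wp] at e3
    simp only [St.cp, Fam.cp, capOf, rc, if_neg (not_le.2 hx.1), sl, Complex.ofReal_one] at e1 e2 e3
    rw [e2]
    linarith

/-- the new parametrisation represents the same body -/
theorem FamOK.rep_new {P : Par} {θ d B a : ℝ} {S : St} {w : ℂ → ℂ} {F : Fam} (N : Num P θ d B a)
    (h : InvC P θ d B S) (H : FamOK P θ d B a S w F) {U : ℂ → ℂ} {g : ℝ → ℝ} {s : ℝ}
    (h' : InvC P (θ - 8 * d) (d / 2) (B + a / d ^ 12) (newSt P S F U g s))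
    (r : Rep g P.band (F.cp P S 1) (F.cm P S 1)) :
    Rep g P.band ((newSt P S F U g s).cp P) ((newSt P S F U g s).cm P) := by
  obtain ⟨n1, n2, n3, n4, n5, n6, n7, n8⟩ := ra_num N
  obtain ⟨-, -, -, -, -, -, m7, -⟩ := N.small
  have d0 := N.d0
  have t2 := N.th2
  have hB : B + a / d ^ 12 ≤ th0 ^ 2 * P.q :=
    N.hB.trans (mul_le_mul_of_nonneg_left N.par.et2 (by positivity))
  have c1 := h'.cp.capR n8 hB N.par.q1
  have c2 := h'.cm.capR n8 hB N.par.q1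
  obtain ⟨-, -, -, -, f5, -⟩ := H.f N h
  have o2 : |(1 : ℝ)| ≤ 2 := by norm_num
  have key : ∀ x ∈ Ioc (0 : ℝ) 1,
      ((F.fp (1, x)).im = 0 ∧ (F.fp (1, x)).re ∈ Ioc (0 : ℝ) 1) ∧
      ((F.fm (1, x)).im = 0 ∧ (F.fm (1, x)).re ∈ Ioc (0 : ℝ) 1) ∧
      (x = 1 → F.fp (1, x) = 1 ∧ F.fm (1, x) = 1) := by
    intro x hx
    have m : (((1 : ℝ) : ℂ), (x : ℂ)) ∈ G1 (θ - 3 * d) (d ^ 6 / a) := by
      refine ⟨Sec_real (by linarith) hx.1 hx.2, ?_⟩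
      show ‖((1 : ℝ) : ℂ)‖ * ‖(x : ℂ)‖ < d ^ 6 / a
      rw [Complex.norm_real, Complex.norm_real, Real.norm_eq_abs, Real.norm_eq_abs,
        abs_of_pos hx.1, abs_one]
      linarith [hx.2]
    obtain ⟨k1, k2, -⟩ := f5 _ m
    have e1 := ra_re (H.hl.rh 1 x m)
    have e2 : ((-(F.h (((1 : ℝ) : ℂ), x)).re : ℝ) : ℂ) = -F.h (((1 : ℝ) : ℂ), x) := by
      rw [Complex.ofReal_neg, e1]
    have a1 := H.csp.rl 1 x _ (by rw [e1]; exact k1)
    have a2 := H.csp.lnk 1 x _ (by rw [e1]; exact k1) o2 hx.2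
    have a3 := H.csm.rl 1 x _ (by rw [e2]; exact k2)
    have a4 := H.csm.lnk 1 x _ (by rw [e2]; exact k2) o2 hx.2
    rw [e1] at a1 a2
    rw [e2] at a3 a4
    refine ⟨⟨a1.1, a2.1⟩, ⟨a3.1, a4.1⟩, fun hx1 => ⟨H.csp.φ1 _ k1 ?_, H.csm.φ1 _ k2 ?_⟩⟩ <;>
      simp [hx1]
  obtain ⟨-, -, k1⟩ := key 1 ⟨one_pos, le_rfl⟩
  obtain ⟨k1, k2⟩ := k1 rfl
  rw [Complex.ofReal_one] at k1 k2
  refine ⟨ra_fit (by linarith) (by linarith) n8 N.par.q1 r.fit c1 c2, r.tb,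
    ra_tg (f := fun ξ => F.fp (1, ξ)) (fun x hx => (key x hx).1) r.tp,
    ra_tg (f := fun ξ => F.fm (1, ξ)) (fun x hx => (key x hx).2.1) r.tm, ?_, ?_⟩
  · simpa [St.cp, Fam.cp, newSt, capOf, rc, sl, k1] using r.rp
  · simpa [St.cm, Fam.cm, newSt, capOf, rc, sl, k2] using r.rm

end Bon3
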