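import Pool.Agent.Lib.MP_3dbf58_gt.RealA
import Pool.Agent.Lib.MP_3dbf58_gt.Abel

open Set Filter Topology MeasureTheory Metric

noncomputable section

namespace Bon3

theorem rb_ofRe {z : ℂ} (h : z.im = 0) : ((z.re : ℝ) : ℂ) = z :=
  Complex.ext rfl (by simp [h])

theorem rb_im {f : ℂ → ℂ} {f' : ℂ} {b : ℝ} (h : HasDerivAt f f' b)
    (hr : ∀ᶠ r : ℝ in 𝓝 b, (f r).im = 0) : f'.im = 0 := by
  have h1 : HasDerivAt (fun r : ℝ => (f r).im) f'.im b :=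
    Complex.imCLM.hasFDerivAt.comp_hasDerivAt b h.comp_ofReal
  have h2 : HasDerivAt (fun r : ℝ => (f r).im) 0 b :=
    (hasDerivAt_const b (0 : ℝ)).congr_of_eventuallyEq hr
  exact h1.unique h2

/-- the image of an interval under the real trace of the chord end -/
theorem rb_image {f f' : ℝ → ℝ} {x : ℝ} (x0 : 0 < x)
    (hd : ∀ b ∈ Ioc (0 : ℝ) x, HasDerivAt f (f' b) b) (hp : ∀ b ∈ Ioc (0 : ℝ) x, 0 < f' b)
    (hb : ∀ b ∈ Ioc (0 : ℝ) x, |f b - b| ≤ b / 2) :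
    InjOn f (Ioo 0 x) ∧ f '' Ioo 0 x = Ioo 0 (f x) := by
  have cf : ContinuousOn f (Ioc 0 x) := fun b hb' => (hd b hb').continuousAt.continuousWithinAt
  have mono : StrictMonoOn f (Ioc 0 x) := by
    refine strictMonoOn_of_deriv_pos (convex_Ioc 0 x) cf fun b hb' => ?_
    rw [interior_Ioc] at hb'
    rw [(hd b (Ioo_subset_Ioc_self hb')).deriv]
    exact hp b (Ioo_subset_Ioc_self hb')
  refine ⟨mono.injOn.mono Ioo_subset_Ioc_self, Subset.antisymm ?_ ?_⟩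
  · rintro _ ⟨b, hb', rfl⟩
    have h1 := abs_le.1 (hb b (Ioo_subset_Ioc_self hb'))
    exact ⟨by linarith [h1.1, hb'.1], mono (Ioo_subset_Ioc_self hb') ⟨x0, le_rfl⟩ hb'.2⟩
  · intro s hs
    have m0 : 0 < min (s / 2) x := lt_min (by linarith [hs.1]) x0
    have m1 : min (s / 2) x ≤ x := min_le_right _ _
    have m2 : min (s / 2) x ≤ s / 2 := min_le_left _ _
    have h1 := abs_le.1 (hb _ ⟨m0, m1⟩)
    have h2 : s ∈ Ioo (f (min (s / 2) x)) (f x) := ⟨by linarith [h1.2, hs.1], hs.2⟩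
    obtain ⟨b, hb', e⟩ := intermediate_value_Ioo m1
      (cf.mono fun r hr => ⟨lt_of_lt_of_le m0 hr.1, hr.2⟩) h2
    exact ⟨b, ⟨m0.trans hb'.1, hb'.2⟩, e⟩

/-- the cap integral in the parameter of the chord end -/
theorem rb_cap {q θ a0 b0 c0 x : ℝ} {u T H W f e : ℂ → ℂ} {O : Set ℂ} (q0 : 0 < q) (t0 : 0 < θ)
    (c : CapR q θ u T H a0 b0 c0) (hx : x ∈ Ioc (0 : ℝ) 1) (hO : IsOpen O)
    (rW : ∀ s : ℝ, 0 < s → s ≤ 1 → (W s).im = 0)
    (df : DifferentiableOn ℂ f O) (de : DifferentiableOn ℂ e O) (mf : ∀ ξ ∈ O, f ξ ∈ Sec θ)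
    (root : ∀ ξ ∈ O, u (f ξ) * T (f ξ) ^ 2 - (1 - ξ) * (H (f ξ) + e ξ) ^ 2 = 0)
    (rl : ∀ b ∈ Ioc (0 : ℝ) 1, (b : ℂ) ∈ O ∧ (f b).im = 0 ∧ (e b).im = 0 ∧
      ‖deriv f b - 1‖ ≤ 1 / 20 ∧ ‖f b - b‖ ≤ b / 2)
    (f1 : (f x).re ≤ 1)
    (pos : ∀ s : ℝ, 0 < s → s < (f x).re →
      0 < (u s * T s ^ 2 - (1 - x) * (H s + ((e x).re : ℝ)) ^ 2).re)
    (neg : ∀ s : ℝ, (f x).re ≤ s → s ≤ 1 →
      (u s * T s ^ 2 - (1 - x) * (H s + ((e x).re : ℝ)) ^ 2).re ≤ 0)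
    {G : ℝ → ℝ} (hG : ∀ s ∈ Ioc (0 : ℝ) 1, G s = 2 * q * (T s).re * (W s).re /
      Real.sqrt ((capOf q u T H a0 b0 c0).X s -
        q * (1 - x) * ((capOf q u T H a0 b0 c0).H s + (e x).re) ^ 2) *
      (capOf q u T H a0 b0 c0).H' s) :
    ∫ s in (0 : ℝ)..1, G s =
      q * Real.sqrt q * (gcap (fun ξ => H (f ξ) + e ξ) e (fun ξ => W (f ξ)) x).re := by
  have sub : ∀ {b : ℝ}, b ∈ Ioc (0 : ℝ) x → b ∈ Ioc (0 : ℝ) 1 := fun h => ⟨h.1, h.2.trans hx.2⟩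
  have hf : ∀ b ∈ Ioc (0 : ℝ) 1, HasDerivAt f (deriv f b) b := fun b hb =>
    (df.differentiableAt (hO.mem_nhds (rl b hb).1)).hasDerivAt
  have hp : ∀ b ∈ Ioc (0 : ℝ) x, 0 < (deriv f b).re := fun b hb => by
    have h1 := (Complex.abs_re_le_norm _).trans (rl b (sub hb)).2.2.2.1
    rw [Complex.sub_re, Complex.one_re] at h1
    linarith [(abs_le.1 h1).1]
  obtain ⟨inj, img⟩ := rb_image (f := fun b : ℝ => (f b).re) (f' := fun b => (deriv f b).re) hx.1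
    (fun b hb => hasDerivAt_re (hf b (sub hb))) hp fun b hb => by
      have h1 := (Complex.abs_re_le_norm _).trans (rl b (sub hb)).2.2.2.2
      rwa [Complex.sub_re, Complex.ofReal_re] at h1
  -- the radicand
  have rad : ∀ s ∈ Ioc (0 : ℝ) 1, (capOf q u T H a0 b0 c0).X s -
      q * (1 - x) * ((capOf q u T H a0 b0 c0).H s + (e x).re) ^ 2 =
      q * (u s * T s ^ 2 - (1 - x) * (H s + ((e x).re : ℝ)) ^ 2).re := fun s hs => by
    have ms := Sec_real t0 hs.1 hs.2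
    have e1 := rb_ofRe (c.ru s ms)
    have e2 := rb_ofRe (c.rT s ms)
    have e3 := rb_ofRe (c.rH s ms)
    have e4 : u s * T s ^ 2 - (1 - x) * (H s + ((e x).re : ℝ)) ^ 2 =
        (((u s).re * (T s).re ^ 2 - (1 - x) * ((H s).re + (e x).re) ^ 2 : ℝ) : ℂ) := by
      push_cast
      rw [e1, e2, e3]
    rw [e4, Complex.ofReal_re]
    simp only [capOf, rc, if_neg (not_le.2 hs.1)]
    ring
  have s1 : ∫ s in (0 : ℝ)..1, G s = ∫ s in Ioo 0 (f x).re, G s := by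
    rw [intervalIntegral.integral_of_le zero_le_one]
    refine setIntegral_eq_of_subset_of_forall_sdiff_eq_zero measurableSet_Ioc
      (fun s hs => ⟨hs.1, hs.2.le.trans f1⟩) fun s hs => ?_
    have h1 : (f x).re ≤ s := not_lt.1 fun h => hs.2 ⟨hs.1.1, h⟩
    rw [hG s hs.1, rad s hs.1, Real.sqrt_eq_zero'.2
      (mul_nonpos_of_nonneg_of_nonpos q0.le (neg s h1 hs.1.2)), div_zero, zero_mul]
  have sq0 : 0 < Real.sqrt q := Real.sqrt_pos.2 q0
  have sq1 : Real.sqrt q * Real.sqrt q = q := Real.mul_self_sqrt q0.le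
  -- the integrand of `gcap` at a real point
  have key : ∀ b ∈ Ioo (0 : ℝ) x,
      ff (fun ξ => H (f ξ) + e ξ) (fun ξ => W (f ξ)) b *
        isq (NN (fun ξ => H (f ξ) + e ξ) e x b) =
      ((|(deriv f b).re| • G (f b).re / (q * Real.sqrt q) : ℝ) : ℂ) := fun b hb => by
    have hb1 : b ∈ Ioc (0 : ℝ) 1 := sub (Ioo_subset_Ioc_self hb)
    obtain ⟨bO, r1, r2, -, -⟩ := rl b hb1
    have hs : (f b).re ∈ Ioo 0 (f x).re := img ▸ mem_image_of_mem _ hb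
    have hs1 : (f b).re ∈ Ioc (0 : ℝ) 1 := ⟨hs.1, hs.2.le.trans f1⟩
    have e0 := rb_ofRe r1
    have mS := mf b bO
    have nS := (isOpen_Sec θ).mem_nhds mS
    have hu := (c.du.differentiableAt nS).hasDerivAt
    have hT := (c.dT.differentiableAt nS).hasDerivAt
    have hH := (c.dH.differentiableAt nS).hasDerivAt
    have he := (de.differentiableAt (hO.mem_nhds bO)).hasDerivAt
    have hz : HasDerivAt (fun ξ => H (f ξ) + e ξ) (deriv (fun ξ => H (f ξ) + e ξ) b) b :=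
      ((hH.comp (b : ℂ) (hf b hb1)).add he).differentiableAt.hasDerivAt
    have d1 := (((hu.comp (b : ℂ) (hf b hb1)).mul ((hT.comp (b : ℂ) (hf b hb1)).pow 2)).sub
      (((hasDerivAt_id (b : ℂ)).const_sub 1).mul (hz.pow 2)))
    have d2 : HasDerivAt (fun ξ => u (f ξ) * T (f ξ) ^ 2 - (1 - ξ) * (H (f ξ) + e ξ) ^ 2) 0
        (b : ℂ) := (hasDerivAt_const (b : ℂ) (0 : ℂ)).congr_of_eventuallyEq
      (mem_of_superset (hO.mem_nhds bO) root)
    have d3 := d2.unique d1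
    simp only [Function.comp, Pi.pow_apply, id, Nat.cast_ofNat] at d3
    have r3 : (deriv f b).im = 0 := rb_im (hf b hb1)
      (mem_of_superset (Ioo_mem_nhds hb.1 (hb.2.trans_le hx.2)) fun r hr =>
        (rl r (Ioo_subset_Ioc_self hr)).2.1)
    have mS' : (((f b).re : ℝ) : ℂ) ∈ Sec θ := e0.symm ▸ mS
    have r4 : (deriv H (f b)).im = 0 := e0 ▸ Rl.deriv c.dH c.rH _ mS'
    have r5 : (T (f b)).im = 0 := e0 ▸ c.rT _ mS'
    have r6 : (W (f b)).im = 0 := e0 ▸ rW _ hs1.1 hs1.2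
    have h1 := c.H1 _ mS
    have qq : (q : ℂ) ≠ 0 := Complex.ofReal_ne_zero.2 q0.ne'
    have f2 : ff (fun ξ => H (f ξ) + e ξ) (fun ξ => W (f ξ)) b =
        2 * T (f b) * deriv H (f b) * deriv f b * W (f b) / q := by
      rw [eq_div_iff qq, h1, ff]
      linear_combination (-(W (f b) * q)) * d3
    have p1 := pos _ hs.1 hs.2
    have n1 : NN (fun ξ => H (f ξ) + e ξ) e x b =
        (((u ((f b).re : ℝ) * T ((f b).re : ℝ) ^ 2 -
          (1 - x) * (H ((f b).re : ℝ) + ((e x).re : ℝ)) ^ 2).re : ℝ) : ℂ) := by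
      have ms := Sec_real t0 hs1.1 hs1.2
      rw [rb_ofRe (z := u ((f b).re : ℝ) * T ((f b).re : ℝ) ^ 2 -
          (1 - x) * (H ((f b).re : ℝ) + ((e x).re : ℝ)) ^ 2), e0, rb_ofRe (rl x hx).2.2.1, NN]
      · linear_combination (-1 : ℂ) * root b bO
      · rw [← rb_ofRe (c.ru _ ms), ← rb_ofRe (c.rT _ ms), ← rb_ofRe (c.rH _ ms)]
        norm_cast
    rw [f2, n1, isq_real p1.le, hG _ hs1, rad _ hs1, abs_of_pos (hp b (Ioo_subset_Ioc_self hb)),
      Real.sqrt_mul q0.le, smul_eq_mul]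
    have sp := Real.sqrt_pos.2 p1
    generalize Real.sqrt (u ((f b).re : ℝ) * T ((f b).re : ℝ) ^ 2 -
          (1 - x) * (H ((f b).re : ℝ) + ((e x).re : ℝ)) ^ 2).re = R at sp
    simp only [capOf]
    obtain ⟨x3, h3⟩ : ∃ r : ℝ, deriv f b = r := ⟨_, (rb_ofRe r3).symm⟩
    obtain ⟨x4, h4⟩ : ∃ r : ℝ, deriv H (f b) = r := ⟨_, (rb_ofRe r4).symm⟩
    obtain ⟨x5, h5⟩ : ∃ r : ℝ, T (f b) = r := ⟨_, (rb_ofRe r5).symm⟩
    obtain ⟨x6, h6⟩ : ∃ r : ℝ, W (f b) = r := ⟨_, (rb_ofRe r6).symm⟩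
    rw [e0, h3, h4, h5, h6]
    simp only [Complex.ofReal_re]
    norm_cast
    generalize Real.sqrt q = Q at sq0 sq1
    subst sq1
    field_simp
  rw [s1, ← img, integral_image_eq_integral_abs_deriv_smul measurableSet_Ioo
    (fun b hb => (hasDerivAt_re (hf b (sub (Ioo_subset_Ioc_self hb)))).hasDerivWithinAt) inj]
  have s2 : ∫ v in Ioo (0 : ℝ) 1, ff (fun ξ => H (f ξ) + e ξ) (fun ξ => W (f ξ)) (v * x) *
      isq (NN (fun ξ => H (f ξ) + e ξ) e x (v * x)) =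
      ((∫ v in Ioo (0 : ℝ) 1, |(deriv f ((v * x : ℝ) : ℂ)).re| • G (f ((v * x : ℝ) : ℂ)).re /
        (q * Real.sqrt q) : ℝ) : ℂ) := by
    rw [← integral_complex_ofReal]
    refine setIntegral_congr_fun measurableSet_Ioo fun v hv => ?_
    have := key (v * x) ⟨mul_pos hv.1 hx.1, mul_lt_of_lt_one_left hx.1 hv.2⟩
    rw [Complex.ofReal_mul] at this
    simpa only [Complex.ofReal_mul] using this
  rw [gcap, s2, ← Complex.ofReal_mul, Complex.ofReal_re, ← integral_Ioc_eq_integral_Ioo,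
    ← integral_Ioc_eq_integral_Ioo, ← intervalIntegral.integral_of_le hx.1.le,
    ← intervalIntegral.integral_of_le zero_le_one,
    intervalIntegral.mul_integral_comp_mul_right
      (f := fun b : ℝ => |(deriv f b).re| • G (f b).re / (q * Real.sqrt q)),
    zero_mul, one_mul, intervalIntegral.integral_div]
  field_simp

/-- the envelope formula on one cap -/
theorem rb_env {q θ Λ ε A a0 b0 c0 s t : ℝ} {u T H : ℂ → ℂ} {Tl Hl Wl : ℂ × ℂ → ℂ}
    {g : ℝ → ℝ → ℝ} {b : Pc} {m : ℝ → Pc} (pc : PC q θ Λ ε A u T H Tl Hl Wl)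
    (rep : ∀ᶠ τ : ℝ in 𝓝 t, Rep (g τ) b (capOf q u (sl Tl τ) (sl Hl τ) a0 b0 c0) (m τ))
    (hs : s ∈ Ioc (0 : ℝ) 1) (mem : ((t : ℂ), (s : ℂ)) ∈ G2 θ Λ) (ru : (u s).im = 0) :
    HasDerivAt (fun τ => g τ ((capOf q u (sl Tl t) (sl Hl t) a0 b0 c0).H s))
      (2 * q * (sl Tl t s).re * (sl Wl t s).re) t := by
  have hT := hasDerivAt_re (x := t) (HC.hasDerivAt1 (isOpen_G2 θ Λ) pc.hT mem)
  have hH := hasDerivAt_re (x := t) (HC.hasDerivAt1 (isOpen_G2 θ Λ) pc.hH mem)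
  have n : ¬s ≤ 0 := not_le.2 hs.1
  have h1 := Rep.hasDerivAt (p := fun τ : ℝ => capOf q u (sl Tl τ) (sl Hl τ) a0 b0 c0) rep
    (Ioc_subset_Icc_self hs) (X' := q * (u s).re * (2 * (Tl (t, s)).re * (d1 Tl (t, s)).re))
    (H' := (d1 Hl (t, s)).re) (by
      simp only [capOf, rc, if_neg n, sl]
      simpa using (hT.pow 2).const_mul (q * (u s).re)) (by
      simp only [capOf, rc, if_neg n, sl]
      exact hH) (by
      simp only [capOf, rc, if_neg n, sl]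
      exact hT.continuousAt)
  refine h1.congr_deriv ?_
  rw [pc.Hl1 _ mem]
  simp only [capOf, rc, if_neg n, sl, Complex.mul_re, Complex.sub_re, Complex.ofReal_re,
    Complex.ofReal_im, ru]
  ring

theorem rb_big {P : Par} {θ d B a : ℝ} (N : Num P θ d B a) :
    100 < d ^ 6 / a ∧ d ^ 6 / a ≤ d ^ 4 / a ∧ B ≤ 1 / 4 ∧ d ≤ 1 / 4 ∧ P.q ≤ 1 / 4 ∧
      0 < θ - 8 * d ∧ 0 < P.q := by
  have d0 := N.d0
  have a0 := N.a0
  have h1 := N.d1
  have h2 := N.hB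
  have h3 := N.par.et2.trans N.par.q1
  have h4 := N.th1
  have h5 := N.par.q1
  have h6 := N.par.et1
  have h7 := N.B0
  simp only [th0, del1] at h1 h2 h3 h4 h5
  have d1 : d ≤ 1 := by linarith
  have p0 : 0 < a / d ^ 12 := by positivity
  have e1 : a / d ^ 12 ≤ 1 / 1000 := by nlinarith
  have e2 : d ^ 12 ≤ d ^ 6 := pow_le_pow_of_le_one d0.le d1 (by norm_num)
  have e3 : d ^ 6 ≤ d ^ 4 := pow_le_pow_of_le_one d0.le d1 (by norm_num)
  rw [div_le_iff₀ (by positivity)] at e1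
  refine ⟨?_, div_le_div_of_nonneg_right e3 a0.le, by nlinarith, by linarith, by linarith,
    by linarith, h6.trans_le N.par.et2⟩
  rw [lt_div_iff₀ a0]
  nlinarith [pow_pos d0 12]

/-- derivative of the maximal section along the family -/
theorem FamOK.deriv_Ar {P : Par} {θ d B a : ℝ} {S : St} {w : ℂ → ℂ} {F : Fam}
    (N : Num P θ d B a) (h : InvC P θ d B S) (H : FamOK P θ d B a S w F) {g : ℝ → ℝ → ℝ} {L : ℝ}
    (rep : ∀ t, |t| ≤ 2 → Rep (g t) P.band (F.cp P S t) (F.cm P S t))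
    (lip : ∀ t t', |t| ≤ 2 → |t'| ≤ 2 → ∀ x, |g t x - g t' x| ≤ L * |t - t'| * (1 + |x|))
    {x t : ℝ} (hx : x ∈ Ioc (0 : ℝ) 1) (ht : |t| < 2)
    (cr : Cr (g t) (P.q * (1 - x)) (F.h (t, x)).re = 0) :
    HasDerivAt (fun τ : ℝ => Ar (g τ) (P.q * (1 - x)) (F.h (τ, x)).re)
      (P.q * Real.sqrt P.q * ((gcap (sl F.zp t) (sl F.h t) (sl F.wp t) x).re +
        (gcap (sl F.zm t) (sl (fun r => -F.h r) t) (sl F.wm t) x).re)) t := by
  obtain ⟨b1, b2, b3, b4, b5, b6, q0⟩ := rb_big N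
  have d0 := N.d0
  obtain ⟨hfp, hfm, rfp, rfm, mem, -, dfm⟩ := H.f N h
  obtain ⟨cp, cm⟩ := H.capR N h ht.le
  have nr : ∀ s ∈ Ioc (0 : ℝ) 1, ‖(t : ℂ)‖ * ‖(s : ℂ)‖ ≤ 2 ∧ ‖(t : ℂ)‖ * ‖(s : ℂ)‖ ^ 2 ≤ 2 :=
    fun s hs => by
      rw [Complex.norm_real, Complex.norm_real, Real.norm_eq_abs, Real.norm_eq_abs,
        abs_of_pos hs.1]
      have := pow_le_one₀ (n := 2) hs.1.le hs.2
      constructor <;> nlinarith [abs_nonneg t, hs.1, hs.2, sq_nonneg s]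
  have m3 : ∀ s ∈ Ioc (0 : ℝ) 1, ((t : ℂ), (s : ℂ)) ∈ G1 (θ - 3 * d) (d ^ 6 / a) := fun s hs =>
    ⟨Sec_real (by linarith) hs.1 hs.2, by linarith [(nr s hs).1]⟩
  have m4 : ∀ s ∈ Ioc (0 : ℝ) 1, ((t : ℂ), (s : ℂ)) ∈ G1 (θ - 4 * d) (d ^ 6 / a / 2) := fun s hs =>
    ⟨Sec_real (by linarith) hs.1 hs.2, by linarith [(nr s hs).1]⟩
  have m1 : ∀ s ∈ Ioc (0 : ℝ) 1, ((t : ℂ), (s : ℂ)) ∈ G2 (θ - d) (d ^ 4 / a) := fun s hs =>
    ⟨Sec_real (by linarith) hs.1 hs.2, by linarith [(nr s hs).2]⟩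
  have ev : ∀ᶠ τ in 𝓝 t, |τ| ≤ 2 :=
    (continuous_abs.continuousAt.eventually_lt continuousAt_const ht).mono fun _ h => h.le
  have R := rep t ht.le
  have s0 : 0 ≤ P.q * (1 - x) := mul_nonneg q0.le (sub_nonneg.2 hx.2)
  have xS : (x : ℂ) ∈ Sec θ := Sec_real (by linarith) hx.1 hx.2
  have hp : P.q * (1 - x) * (F.h (t, x)).re ^ 2 < 1 := by
    have e1 := H.hl.h0 _ (m3 x hx)
    have e2 := h.cp.e0 _ xS
    have e3 : ‖(x : ℂ)‖ ≤ 1 := by
      rw [Complex.norm_real, Real.norm_eq_abs, abs_of_pos hx.1]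
      exact hx.2
    have e4 : |(F.h (t, x)).re| ≤ 1 := by
      have := norm_add_le (F.h (t, x) - S.h x) (S.h x)
      rw [sub_add_cancel] at this
      simp only [del1] at e2 e1
      nlinarith [Complex.abs_re_le_norm (F.h (t, x)), norm_nonneg (x : ℂ)]
    have e5 : (F.h (t, x)).re ^ 2 ≤ 1 := by rwa [sq_le_one_iff_abs_le_one]
    have e6 : P.q * (1 - x) ≤ 1 / 4 := by nlinarith [hx.1]
    nlinarith [sq_nonneg (F.h (t, x)).re]
  have envp := fun (s : ℝ) (hs : s ∈ Ioc (0 : ℝ) 1) =>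
    rb_env (g := g) H.pcp (ev.mono fun τ hτ => rep τ hτ) hs (m1 s hs)
      (h.cp.ru s (Sec_real (by linarith) hs.1 hs.2))
  have envm := fun (s : ℝ) (hs : s ∈ Ioc (0 : ℝ) 1) =>
    rb_env (g := fun τ x => g τ (-x)) H.pcm (ev.mono fun τ hτ => (rep τ hτ).flip) hs (m1 s hs)
      (h.cm.ru s (Sec_real (by linarith) hs.1 hs.2))
  have envb : ∀ z ∈ Icc (-(F.cm P S t).H 0) ((F.cp P S t).H 0),
      HasDerivAt (fun τ => g τ z) 0 t := fun z hz =>
    (hasDerivAt_const t (g t z)).congr_of_eventuallyEq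
      (ev.mono fun τ hτ => (R.band_eq (rep τ hτ) hz).symm)
  have surj : ∀ {p : Pc}, PcOK p → ∀ z, p.H 0 < z → z ≤ p.H 1 → ∃ s ∈ Ioc (0 : ℝ) 1, p.H s = z :=
    fun hp z h0 h1 => intermediate_value_Ioc zero_le_one hp.cH ⟨h0, h1⟩
  obtain ⟨int, der⟩ := hasDerivAt_Ar (g := g) (y := fun τ : ℝ => (F.h (τ, x)).re)
    (gd := fun z => deriv (fun τ => g τ z) t) (L := 3 * |L|) s0
    (ev.mono fun τ hτ => (rep τ hτ).gok) hp (ev.mono fun τ hτ z hz => by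
      have e1 : |z| ≤ 2 := abs_le.2 hz
      have e2 := lip τ t hτ ht.le z
      have e3 := mul_le_mul (mul_le_mul_of_nonneg_right (le_abs_self L) (abs_nonneg (τ - t)))
        (show 1 + |z| ≤ 3 by linarith) (by positivity) (by positivity)
      linarith)
    (hasDerivAt_re (x := t) (HC.hasDerivAt1 (isOpen_G1 _ _) H.hl.hh (m3 x hx)))
    (ae_of_all _ fun z _ hz => by
      have e1 : 0 < g t z := hz.trans_le' (by simp) |>.trans_le
        (sub_le_self _ (mul_nonneg s0 (sq_nonneg _)))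
      refine DifferentiableAt.hasDerivAt ?_
      by_cases c1 : (F.cp P S t).H 0 < z
      · obtain ⟨s, hs, rfl⟩ := surj R.fit.op z c1
          (not_lt.1 fun c => lt_asymm e1 (R.neg_out.1 z c))
        exact (envp s hs).differentiableAt
      by_cases c2 : (F.cm P S t).H 0 < -z
      · obtain ⟨s, hs, e⟩ := surj R.fit.om (-z) c2
          (not_lt.1 fun c => lt_asymm e1 (R.neg_out.2 z (by linarith)))
        obtain rfl : z = -(F.cm P S t).H s := by linarith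
        exact (envm s hs).differentiableAt
      exact (envb z ⟨by linarith, not_lt.1 c1⟩).differentiableAt)
  refine der.congr_deriv ?_
  have out : ∀ z, g t z < 0 → deriv (fun τ => g τ z) t /
      Real.sqrt (g t z - P.q * (1 - x) * (z + (F.h (t, x)).re) ^ 2) = 0 := fun z hz => by
    rw [Real.sqrt_eq_zero'.2 (by nlinarith [mul_nonneg s0 (sq_nonneg (z + (F.h (t, x)).re))]),
      div_zero]
  rw [cr, mul_zero, sub_zero, R.fit.split int (fun z hz => out z (R.neg_out.1 z hz))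
    fun z hz => out z (R.neg_out.2 z hz)]
  have hO : IsOpen {ξ : ℂ | ((t : ℂ), ξ) ∈ G1 (θ - 3 * d) (d ^ 6 / a)} :=
    (isOpen_G1 _ _).preimage (by fun_prop)
  have dO : ∀ {f : ℂ × ℂ → ℂ}, HC f (G1 (θ - 3 * d) (d ^ 6 / a)) →
      DifferentiableOn ℂ (sl f t) {ξ : ℂ | ((t : ℂ), ξ) ∈ G1 (θ - 3 * d) (d ^ 6 / a)} :=
    fun hf ξ hξ =>
      (HC.hasDerivAt2 (isOpen_G1 _ _) hf hξ).differentiableAt.differentiableWithinAt
  have half : ∀ {z : ℂ} {s : ℝ}, 0 < s → ‖z - s‖ ≤ d / 200 * ‖(s : ℂ)‖ → ‖z - s‖ ≤ s / 2 :=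
    fun s0 h => by
      rw [Complex.norm_real, Real.norm_eq_abs, abs_of_pos s0] at h
      nlinarith
  have rh := fun (s : ℝ) (hs : s ∈ Ioc (0 : ℝ) 1) => H.hl.rh t s (m3 s hs)
  have ex := rb_ofRe (rh x hx)
  have ex' := rb_ofRe (z := -F.h (t, x)) (by rw [Complex.neg_im, rh x hx, neg_zero])
  have lp := H.csp.lnk t x (F.h (t, x)).re (by rw [ex]; exact (mem _ (m3 x hx)).1) ht.le hx.2
  have lm := H.csm.lnk t x (-F.h (t, x)).re (by rw [ex']; exact (mem _ (m3 x hx)).2.1) ht.le hx.2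
  have ip := rb_cap (W := sl F.Wp t) (f := sl F.fp t) (e := sl F.h t) q0 (by linarith) cp hx hO
    (fun s s0 s1 => H.pcp.rW t s (m1 s ⟨s0, s1⟩)) (dO hfp) (dO H.hl.hh)
    (fun ξ hξ => (mem _ hξ).2.2.2.2.1.1) (fun ξ hξ => H.csp.root _ (mem _ hξ).1)
    (fun s hs => ⟨m3 s hs, rfp t s (m3 s hs), rh s hs, (dfm _ (m4 s hs)).1,
      half hs.1 (mem _ (m3 s hs)).2.2.1⟩)
    (by have := lp.1.2; rwa [ex] at this)
    (fun s s0 s1 => lp.2.1 s s0 (by rwa [ex])) (fun s s0 s1 => lp.2.2.1 s (by rwa [ex]) s1)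
    (G := fun s => deriv (fun τ => g τ ((F.cp P S t).H s)) t /
      Real.sqrt (g t ((F.cp P S t).H s) -
        P.q * (1 - x) * ((F.cp P S t).H s + (F.h (t, x)).re) ^ 2) * (F.cp P S t).H' s)
    fun s hs => by
      rw [(R.tp s (Ioc_subset_Icc_self hs)).1]
      exact congrArg (fun r => r / _ * _) (envp s hs).deriv
  have im := rb_cap (W := sl F.Wm t) (f := sl F.fm t) (e := sl (fun r => -F.h r) t) q0
    (by linarith) cm hx hO
    (fun s s0 s1 => H.pcm.rW t s (m1 s ⟨s0, s1⟩)) (dO hfm) (dO H.hl.hh.neg)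
    (fun ξ hξ => (mem _ hξ).2.2.2.2.2.1) (fun ξ hξ => H.csm.root _ (mem _ hξ).2.1)
    (fun s hs => ⟨m3 s hs, rfm t s (m3 s hs), by simp only [sl, Complex.neg_im, rh s hs, neg_zero],
      (dfm _ (m4 s hs)).2, half hs.1 (mem _ (m3 s hs)).2.2.2.1⟩)
    (by have := lm.1.2; rwa [ex'] at this)
    (fun s s0 s1 => lm.2.1 s s0 (by rwa [ex'])) (fun s s0 s1 => lm.2.2.1 s (by rwa [ex']) s1)
    (G := fun s => deriv (fun τ => g τ (-(F.cm P S t).H s)) t /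
      Real.sqrt (g t (-(F.cm P S t).H s) -
        P.q * (1 - x) * (-(F.cm P S t).H s + (F.h (t, x)).re) ^ 2) * (F.cm P S t).H' s)
    fun s hs => by
      have e1 : g t (-(F.cm P S t).H s) = _ := (R.tm s (Ioc_subset_Icc_self hs)).1
      have e2 : (-(F.cm P S t).H s + (F.h (t, x)).re) ^ 2 =
          ((F.cm P S t).H s + (-F.h (t, x)).re) ^ 2 := by
        rw [Complex.neg_re]
        ring
      rw [e1, e2]
      exact congrArg (fun r => r / _ * _) (envm s hs).deriv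
  have ib : ∫ s in (0 : ℝ)..1, deriv (fun τ => g τ (P.band.H s)) t /
      Real.sqrt (g t (P.band.H s) - P.q * (1 - x) * (P.band.H s + (F.h (t, x)).re) ^ 2) *
      P.band.H' s = 0 := by
    rw [intervalIntegral.integral_congr (g := fun _ => 0), intervalIntegral.integral_zero]
    intro s hs
    rw [uIcc_of_le zero_le_one] at hs
    have mo := R.fit.ob.mono.monotoneOn
    have e1 := (envb (P.band.H s) ⟨by
      rw [R.fit.mH, neg_neg]
      exact mo (left_mem_Icc.2 zero_le_one) hs hs.1, by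
      rw [R.fit.pH]
      exact mo hs (right_mem_Icc.2 zero_le_one) hs.2⟩).deriv
    simp only [e1, zero_div, zero_mul]
  have zm : sl F.zm t = fun ξ => sl F.Hm t (sl F.fm t ξ) + sl (fun r => -F.h r) t ξ :=
    funext fun ξ => sub_eq_add_neg _ _
  rw [ip, im, ib, zm, add_zero, mul_add, add_comm]
  rfl

end Bon3
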