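import Pool.Agent.Lib.MP_3dbf58_gt.PCsA

/-! The right cap, the integration by parts, and the left cap for an abstract perturbation. -/

open Set Filter Topology MeasureTheory Metric

noncomputable section

namespace Bon3

theorem pcs_lam {d a c : ℝ} (d0 : 0 < d) (a0 : 0 < a) (c0 : 0 ≤ c) {l ξ g : ℂ}
    (hl : ‖l‖ * ‖ξ‖ ^ 2 < d ^ 4 / a) (hg : ‖g‖ ≤ c * (a / d) * ‖ξ‖ ^ 3) :
    ‖l * g‖ ≤ c * d ^ 3 * ‖ξ‖ := by
  rw [norm_mul]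
  calc ‖l‖ * ‖g‖ ≤ ‖l‖ * (c * (a / d) * ‖ξ‖ ^ 3) := mul_le_mul_of_nonneg_left hg (norm_nonneg _)
    _ = (‖l‖ * ‖ξ‖ ^ 2) * (c * (a / d) * ‖ξ‖) := by ring
    _ ≤ (d ^ 4 / a) * (c * (a / d) * ‖ξ‖) := mul_le_mul_of_nonneg_right hl.le (by positivity)
    _ = c * d ^ 3 * ‖ξ‖ := by field_simp

theorem pcs_plus {q θ d a : ℝ} {u T H w γ : ℂ → ℂ} (q0 : 0 ≤ q) (h0 : 0 ≤ θ) (h1 : θ ≤ th0)
    (d0 : 0 < d) (d1' : d ≤ 1 / 100) (a0 : 0 < a)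
    (du : DifferentiableOn ℂ u (Sec θ)) (dT : DifferentiableOn ℂ T (Sec θ))
    (dH : DifferentiableOn ℂ H (Sec θ)) (dw : DifferentiableOn ℂ w (Sec θ))
    (dγ : DifferentiableOn ℂ γ (Sec θ)) (ru : Rl u θ) (rT : Rl T θ) (rH : Rl H θ) (rw' : Rl w θ)
    (rγ : Rl γ θ) (u0 : ∀ ξ ∈ Sec θ, ‖u ξ‖ ≤ 2)
    (H1 : ∀ ξ ∈ Sec θ, deriv H ξ = -q * (T ξ * deriv u ξ / 2 + u ξ * deriv T ξ))
    (w0 : ∀ ξ ∈ Sec θ, ‖w ξ‖ ≤ a * ‖ξ‖ ^ 4)
    (γ0 : ∀ ξ ∈ Sec θ, ‖γ ξ‖ ≤ 12 * (a / d) * ‖ξ‖ ^ 3)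
    (hγ : ∀ ξ ∈ Sec θ, deriv u ξ * γ ξ = 2 * deriv w ξ) :
    PC q θ (d ^ 4 / a) (d ^ 2) (a / d ^ 2) u T H (fun p => T p.2 + p.1 * γ p.2)
      (fun p => H p.2 + q * (p.1 * w p.2 - u p.2 * (p.1 * γ p.2))) (fun p => w p.2) := by
  have hS := isOpen_Sec θ
  have m2 : MapsTo (fun p : ℂ × ℂ => p.2) (G2 θ (d ^ 4 / a)) (Sec θ) := fun p hp => hp.1
  have c2 : ∀ {f : ℂ → ℂ}, DifferentiableOn ℂ f (Sec θ) →
      HC (fun p : ℂ × ℂ => f p.2) (G2 θ (d ^ 4 / a)) :=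
    fun hf => HC.of_diff (hf.comp (f := fun p : ℂ × ℂ => p.2) differentiableOn_snd m2)
  have c1 : HC (fun p : ℂ × ℂ => p.1) (G2 θ (d ^ 4 / a)) := HC.fst HC.id
  have hd3 : ∀ c : ℝ, c ≤ 100 → c * d ^ 3 ≤ d ^ 2 := by
    intro c hc
    have : c * d ≤ 1 := by nlinarith
    calc c * d ^ 3 = (c * d) * d ^ 2 := by ring
      _ ≤ 1 * d ^ 2 := mul_le_mul_of_nonneg_right this (by positivity)
      _ = d ^ 2 := one_mul _
  refine ⟨(c2 dT).add (c1.mul (c2 dγ)),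
    (c2 dH).add ((HC.const _).mul ((c1.mul (c2 dw)).sub ((c2 du).mul (c1.mul (c2 dγ))))),
    c2 dw, ?_, ?_, ?_, ?_, ?_, ?_, ?_, ?_, ?_, ?_⟩
  · intro t x hp
    simp [rT x hp.1, rγ x hp.1]
  · intro t x hp
    simp [rH x hp.1, rγ x hp.1, ru x hp.1, rw' x hp.1]
  · intro t x hp
    exact rw' x hp.1
  · intro p hp
    rw [add_sub_cancel_left]
    exact (pcs_lam d0 a0 (by norm_num) hp.2 (γ0 _ hp.1)).trans
      (mul_le_mul_of_nonneg_right (hd3 12 (by norm_num)) (norm_nonneg _))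
  · intro p hp
    have a1 := pcs_lam d0 a0 (by norm_num) hp.2 (γ0 _ hp.1)
    have n2 := pcs_norm2 h0 h1 hp.1
    have a2 : ‖w p.2‖ ≤ 2 * (a / d) * ‖p.2‖ ^ 3 := by
      refine (w0 _ hp.1).trans ?_
      have b1 : a ≤ a / d := by
        rw [le_div_iff₀ d0]
        nlinarith
      calc a * ‖p.2‖ ^ 4 = (‖p.2‖ * a) * ‖p.2‖ ^ 3 := by ring
        _ ≤ (2 * (a / d)) * ‖p.2‖ ^ 3 :=
          mul_le_mul_of_nonneg_right (mul_le_mul n2 b1 a0.le (by norm_num)) (by positivity)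
    have a3 := pcs_lam d0 a0 (by norm_num) hp.2 a2
    have a4 := mul_le_mul (u0 _ hp.1) a1 (norm_nonneg _) (by norm_num)
    have a5 := mul_le_mul_of_nonneg_right (hd3 26 (by norm_num)) (norm_nonneg p.2)
    rw [add_sub_cancel_left, norm_mul, Complex.norm_real, Real.norm_eq_abs, abs_of_nonneg q0,
      mul_assoc]
    refine mul_le_mul_of_nonneg_left ((norm_sub_le _ _).trans ?_) q0
    rw [norm_mul (u p.2)]
    linarith
  · intro p hp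
    refine (w0 _ hp.1).trans (mul_le_mul_of_nonneg_right ?_ (by positivity))
    rw [le_div_iff₀ (by positivity)]
    have : d ^ 2 ≤ 1 := pow_le_one₀ d0.le (by linarith)
    nlinarith
  · intro ξ _
    simp
  · intro ξ _
    simp
  · rintro ⟨l, ξ⟩ hp
    have hξ : Sec θ ∈ 𝓝 ξ := hS.mem_nhds hp.1
    have a1 := (du.differentiableAt hξ).hasDerivAt
    have a2 := (dT.differentiableAt hξ).hasDerivAt
    have a3 := (dH.differentiableAt hξ).hasDerivAt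
    have a4 := (dw.differentiableAt hξ).hasDerivAt
    have a5 := (dγ.differentiableAt hξ).hasDerivAt
    have b1 : d2 (fun p : ℂ × ℂ => T p.2 + p.1 * γ p.2) (l, ξ) = _ :=
      (a2.fun_add (a5.const_mul l)).deriv
    have b2 : d2 (fun p : ℂ × ℂ => H p.2 + q * (p.1 * w p.2 - u p.2 * (p.1 * γ p.2))) (l, ξ) = _ :=
      (a3.fun_add (((a4.const_mul l).fun_sub (a1.fun_mul (a5.const_mul l))).const_mul (q : ℂ))).deriv
    rw [b1, b2, H1 ξ hp.1]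
    have e := hγ ξ hp.1
    linear_combination (-(q : ℂ) * l / 2) * e
  · rintro ⟨l, ξ⟩ _
    have a0 := hasDerivAt_id' l
    have b1 : d1 (fun p : ℂ × ℂ => T p.2 + p.1 * γ p.2) (l, ξ) = _ :=
      ((a0.mul_const (γ ξ)).const_add (T ξ)).deriv
    have b2 : d1 (fun p : ℂ × ℂ => H p.2 + q * (p.1 * w p.2 - u p.2 * (p.1 * γ p.2))) (l, ξ) = _ :=
      ((((a0.mul_const (w ξ)).fun_sub ((a0.mul_const (γ ξ)).const_mul (u ξ))).const_mul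
        (q : ℂ)).const_add (H ξ)).deriv
    rw [b1, b2]
    ring

theorem pcs_parts {θ M : ℝ} {ρ W k : ℂ → ℂ} (h0 : 0 < θ) (h1 : θ ≤ th0) (M0 : 0 ≤ M)
    (dρ : DifferentiableOn ℂ ρ (Sec θ)) (dW : DifferentiableOn ℂ W (Sec θ))
    (dk : DifferentiableOn ℂ k (Sec θ)) (hk : ∀ ξ ∈ Sec θ, k ξ = -(ρ ξ * deriv W ξ))
    (k0 : ∀ ξ ∈ Sec θ, ‖k ξ‖ ≤ M) (ρ0 : ∀ ξ ∈ Sec θ, ‖ρ ξ‖ ≤ M)
    (ρ1 : ∀ ξ ∈ Sec θ, ‖deriv ρ ξ‖ ≤ M) (W0 : ∀ ξ ∈ Sec θ, ‖W ξ‖ ≤ M * ‖ξ‖) {ξ : ℂ}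
    (h : ξ ∈ Sec θ) : prim k ξ = -(ρ ξ * W ξ) + prim (fun ζ => deriv ρ ζ * W ζ) ξ := by
  have hS := isOpen_Sec θ
  have st : ∀ ξ ∈ Sec θ, ∀ v : ℝ, 0 < v → v ≤ 1 → (v : ℂ) * ξ ∈ Sec θ :=
    fun ξ hξ v v0 v1 => Sec_smul h0.le hξ v0 v1
  have b1 : ∀ ζ ∈ Sec θ, ‖deriv ρ ζ * W ζ‖ ≤ M * (M * 2) := by
    intro ζ hζ
    rw [norm_mul]
    exact mul_le_mul (ρ1 ζ hζ) ((W0 ζ hζ).trans
      (mul_le_mul_of_nonneg_left (pcs_norm2 h0.le h1 hζ) M0)) (norm_nonneg _) M0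
  have p1 : ∀ ζ ∈ Sec θ, HasDerivAt (prim k) (k ζ) ζ := fun ζ hζ =>
    prim_hasDerivAt h0.le hS Subset.rfl st dk k0 hζ
  have p2 : ∀ ζ ∈ Sec θ, HasDerivAt (prim fun ζ => deriv ρ ζ * W ζ) (deriv ρ ζ * W ζ) ζ :=
    fun ζ hζ => prim_hasDerivAt h0.le hS Subset.rfl st ((dρ.deriv hS).fun_mul dW) b1 hζ
  have p3 : ∀ ζ ∈ Sec θ, HasDerivAt (fun ξ => -(ρ ξ * W ξ) + prim (fun ζ => deriv ρ ζ * W ζ) ξ)
      (-(deriv ρ ζ * W ζ + ρ ζ * deriv W ζ) + deriv ρ ζ * W ζ) ζ := by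
    intro ζ hζ
    have hζ' : Sec θ ∈ 𝓝 ζ := hS.mem_nhds hζ
    exact (((dρ.differentiableAt hζ').hasDerivAt.fun_mul
      (dW.differentiableAt hζ').hasDerivAt).fun_neg).fun_add (p2 ζ hζ)
  refine eq_of_deriv_Sec (M := M + (M * M + M * (M * 2))) (f := prim k)
    (g := fun ξ => -(ρ ξ * W ξ) + prim (fun ζ => deriv ρ ζ * W ζ) ξ) h0
    (fun ζ hζ => (p1 ζ hζ).differentiableAt.differentiableWithinAt)
    (fun ζ hζ => (p3 ζ hζ).differentiableAt.differentiableWithinAt) ?_ ?_ h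
  · intro ζ hζ
    rw [(p1 ζ hζ).deriv, (p3 ζ hζ).deriv, hk ζ hζ]
    ring
  · intro ζ hζ
    have c1 : ‖prim k ζ‖ ≤ M / ((0 : ℕ) + 1) * ‖ζ‖ ^ (0 + 1) :=
      prim_norm fun v v0 v1 => by simpa using k0 _ (st ζ hζ v v0 v1.le)
    have c2 : ‖prim (fun ζ => deriv ρ ζ * W ζ) ζ‖ ≤
        M * (M * 2) / ((0 : ℕ) + 1) * ‖ζ‖ ^ (0 + 1) :=
      prim_norm fun v v0 v1 => by simpa using b1 _ (st ζ hζ v v0 v1.le)
    have c3 : ‖ρ ζ * W ζ‖ ≤ M * (M * ‖ζ‖) := by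
      rw [norm_mul]
      exact mul_le_mul (ρ0 ζ hζ) (W0 ζ hζ) (norm_nonneg _) M0
    simp only [Nat.cast_zero, zero_add, div_one, pow_one] at c1 c2
    have c4 := norm_sub_le (prim k ζ) (-(ρ ζ * W ζ) + prim (fun ζ => deriv ρ ζ * W ζ) ζ)
    have c5 := norm_add_le (-(ρ ζ * W ζ)) (prim (fun ζ => deriv ρ ζ * W ζ) ζ)
    rw [norm_neg] at c5
    nlinarith

/-- radicand of the left cap -/
def pcsZ (T R δ : ℂ → ℂ) (p : ℂ × ℂ) : ℂ := T p.2 ^ 2 + R p.2 ^ 2 - (R p.2 + p.1 * δ p.2) ^ 2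

theorem pcs_minus {q θ d a : ℝ} {u T H R δ : ℂ → ℂ} (q0 : 0 ≤ q) (h0 : 0 ≤ θ) (h1 : θ ≤ th0)
    (d0 : 0 < d) (d1' : d ≤ 1 / 1000) (a0 : 0 < a)
    (du : DifferentiableOn ℂ u (Sec θ)) (dT : DifferentiableOn ℂ T (Sec θ))
    (dH : DifferentiableOn ℂ H (Sec θ)) (dR : DifferentiableOn ℂ R (Sec θ))
    (dδ : DifferentiableOn ℂ δ (Sec θ)) (ru : Rl u θ) (rT : Rl T θ) (rH : Rl H θ) (rR : Rl R θ)
    (rδ : Rl δ θ) (u0 : ∀ ξ ∈ Sec θ, ‖u ξ‖ ≤ 2) (u1 : ∀ ξ ∈ Sec θ, ‖deriv u ξ‖ ≤ 2)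
    (T0 : ∀ ξ ∈ Sec θ, ‖T ξ - 1‖ ≤ 1 / 10) (R0 : ∀ ξ ∈ Sec θ, ‖R ξ - 1‖ ≤ 1 / 10)
    (H1 : ∀ ξ ∈ Sec θ, deriv H ξ = -q * (T ξ * deriv u ξ / 2 + u ξ * deriv T ξ))
    (δ0 : ∀ ξ ∈ Sec θ, ‖δ ξ‖ ≤ 16 * (a / d) * ‖ξ‖ ^ 3) :
    ∃ Hl Wl, PC q θ (d ^ 4 / a) (d ^ 2) (a / d ^ 2) u T H (fun p => csq (pcsZ T R δ p)) Hl Wl ∧
      ∀ ξ ∈ Sec θ, Wl (0, ξ) = prim (fun ζ => -(R ζ * δ ζ) / T ζ * deriv u ζ / 2) ξ := by
  have hΛ : 0 < d ^ 4 / a := by positivity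
  have m2 : MapsTo (fun p : ℂ × ℂ => p.2) (G2 θ (d ^ 4 / a)) (Sec θ) := fun p hp => hp.1
  have c2 : ∀ {f : ℂ → ℂ}, DifferentiableOn ℂ f (Sec θ) →
      DifferentiableOn ℂ (fun p : ℂ × ℂ => f p.2) (G2 θ (d ^ 4 / a)) :=
    fun hf => hf.comp (f := fun p : ℂ × ℂ => p.2) differentiableOn_snd m2
  have hd3 : d ^ 3 ≤ d ^ 2 / 1000 := by
    have : d ^ 3 = d ^ 2 * d := by ring
    rw [this]
    nlinarith [sq_nonneg d]
  have hd2 : d ^ 2 ≤ 1 / 1000 := by nlinarith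
  have near : ∀ {z : ℂ}, ‖z - 1‖ ≤ 1 / 10 → ‖z‖ ≤ 11 / 10 := by
    intro z hz
    have := norm_add_le (z - 1) 1
    rw [sub_add_cancel, norm_one] at this
    linarith
  have D0 : ∀ p ∈ G2 θ (d ^ 4 / a), ‖p.1 * δ p.2‖ ≤ 16 * d ^ 3 * ‖p.2‖ := fun p hp =>
    pcs_lam d0 a0 (by norm_num) hp.2 (δ0 _ hp.1)
  have D1 : ∀ p ∈ G2 θ (d ^ 4 / a), ‖p.1 * δ p.2‖ ≤ 1 / 10 := by
    intro p hp
    have n2 := pcs_norm2 h0 h1 hp.1
    have : 16 * d ^ 3 * ‖p.2‖ ≤ 16 * d ^ 3 * 2 := mul_le_mul_of_nonneg_left n2 (by positivity)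
    have := D0 p hp
    linarith
  have Z0 : ∀ p ∈ G2 θ (d ^ 4 / a), ‖pcsZ T R δ p - T p.2 ^ 2‖ ≤ d ^ 2 / 3 * ‖p.2‖ := by
    intro p hp
    have e : pcsZ T R δ p - T p.2 ^ 2 = -((p.1 * δ p.2) * (2 * R p.2 + p.1 * δ p.2)) := by
      unfold pcsZ
      ring
    have b1 : ‖2 * R p.2 + p.1 * δ p.2‖ ≤ 3 := by
      refine (norm_add_le _ _).trans ?_
      rw [norm_mul, Complex.norm_ofNat]
      have := near (R0 _ hp.1)
      have := D1 p hp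
      linarith
    rw [e, norm_neg, norm_mul]
    have b2 := mul_le_mul (D0 p hp) b1 (norm_nonneg _) (by positivity)
    have b3 : 16 * d ^ 3 * 3 * ‖p.2‖ ≤ d ^ 2 / 3 * ‖p.2‖ :=
      mul_le_mul_of_nonneg_right (by nlinarith [sq_nonneg d]) (norm_nonneg _)
    linarith
  have Z1 : ∀ p ∈ G2 θ (d ^ 4 / a), ‖pcsZ T R δ p - T p.2 ^ 2‖ ≤ 1 / 10 := by
    intro p hp
    have n2 := pcs_norm2 h0 h1 hp.1
    have : d ^ 2 / 3 * ‖p.2‖ ≤ d ^ 2 / 3 * 2 := mul_le_mul_of_nonneg_left n2 (by positivity)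
    have := Z0 p hp
    linarith
  have Z2 : ∀ p ∈ G2 θ (d ^ 4 / a), ‖pcsZ T R δ p - 1‖ ≤ 1 / 2 := by
    intro p hp
    have e : pcsZ T R δ p - 1 = (pcsZ T R δ p - T p.2 ^ 2) + (T p.2 - 1) * (T p.2 + 1) := by ring
    have b1 : ‖T p.2 + 1‖ ≤ 3 := by
      refine (norm_add_le _ _).trans ?_
      have := near (T0 _ hp.1)
      rw [norm_one]
      linarith
    have b2 := mul_le_mul (T0 _ hp.1) b1 (norm_nonneg _) (by norm_num)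
    rw [e]
    refine (norm_add_le _ _).trans ?_
    rw [norm_mul]
    have := Z1 p hp
    linarith
  have cn := fun p hp => csq_near (T0 _ (m2 hp)) (Z1 p hp)
  have dZ : DifferentiableOn ℂ (pcsZ T R δ) (G2 θ (d ^ 4 / a)) := by
    unfold pcsZ
    exact (((c2 dT).fun_pow 2).fun_add ((c2 dR).fun_pow 2)).fun_sub
      (((c2 dR).fun_add (differentiableOn_fst.fun_mul (c2 dδ))).fun_pow 2)
  have rZ : ∀ t x : ℝ, ((t : ℂ), (x : ℂ)) ∈ G2 θ (d ^ 4 / a) →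
      ∃ y : ℝ, 0 ≤ y ∧ pcsZ T R δ (t, x) = y := by
    intro t x hp
    have b1 : (pcsZ T R δ (t, x)).im = 0 := by
      simp [pcsZ, pow_two, rT x hp.1, rR x hp.1, rδ x hp.1]
    refine ⟨(pcsZ T R δ (t, x)).re, ?_, Complex.ext (by simp) (by simp [b1])⟩
    have b2 := (Complex.abs_re_le_norm _).trans (Z2 _ hp)
    rw [Complex.sub_re, Complex.one_re] at b2
    have := (abs_le.1 b2).1
    linarith
  have Tz : ∀ ξ ∈ Sec θ, csq (pcsZ T R δ (0, ξ)) = T ξ := by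
    intro ξ hξ
    have hp : ((0 : ℂ), ξ) ∈ G2 θ (d ^ 4 / a) := ⟨hξ, by simpa using hΛ⟩
    have b1 := (cn _ hp).2
    have e : pcsZ T R δ (0, ξ) - T ξ ^ 2 = 0 := by simp [pcsZ]
    rw [e, norm_zero, norm_le_zero_iff, sub_eq_zero] at b1
    exact b1
  obtain ⟨Hl, hPC⟩ := pcs_gen (q := q) (ε := d ^ 2) (A := a / d ^ 2) (u := u) (T := T) (H := H)
    (Tl := fun p => csq (pcsZ T R δ p))
    (T1 := fun p => -((R p.2 + p.1 * δ p.2) * δ p.2) * isq (pcsZ T R δ p)) q0 h0 h1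
    (by positivity) (by positivity) hΛ du dT dH ru rT rH u0 u1 H1
    (fun p hp => (csq_hasDerivAt (cn p hp).1).differentiableAt.comp_differentiableWithinAt p
      (dZ p hp))
    (((((c2 dR).fun_add (differentiableOn_fst.fun_mul (c2 dδ))).fun_mul (c2 dδ)).fun_neg).fun_mul
      (fun p hp => (isq_hasDerivAt (cn p hp).1).differentiableAt.comp_differentiableWithinAt p
        (dZ p hp)))
    (by
      intro t x hp
      obtain ⟨y, y0, hy⟩ := rZ t x hp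
      simp only [hy, csq_real y0, Complex.ofReal_im])
    (by
      intro t x hp
      obtain ⟨y, y0, hy⟩ := rZ t x hp
      simp only [hy, isq_real y0, Complex.mul_im, Complex.neg_im, Complex.add_im,
        Complex.ofReal_im, rR x hp.1, rδ x hp.1]
      simp)
    (by
      rintro ⟨l, ξ⟩ hp
      have b0 := ((hasDerivAt_id' l).mul_const (δ ξ)).const_add (R ξ)
      have b1 : HasDerivAt (fun s => pcsZ T R δ (s, ξ)) _ l :=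
        (b0.fun_pow 2).const_sub (T ξ ^ 2 + R ξ ^ 2)
      have b2 := (csq_hasDerivAt (cn _ hp).1).comp l b1
      refine HasDerivAt.congr_deriv b2 ?_
      simp only [Nat.cast_ofNat, Nat.add_one_sub_one, pow_one]
      ring)
    (fun p hp => (cn p hp).2.trans (Z0 p hp))
    (by
      intro p hp
      have b1 : ‖isq (pcsZ T R δ p)‖ ≤ 2 := by
        have e1 := (isq_near (Z2 p hp)).1
        have e2 := norm_add_le (isq (pcsZ T R δ p) - 1) 1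
        rw [sub_add_cancel, norm_one] at e2
        have := Z2 p hp
        linarith
      have b2 : ‖R p.2 + p.1 * δ p.2‖ ≤ 2 := by
        refine (norm_add_le _ _).trans ?_
        have := near (R0 _ hp.1)
        have := D1 p hp
        linarith
      rw [norm_mul, norm_neg, norm_mul]
      have b3 := mul_le_mul (mul_le_mul b2 (δ0 _ hp.1) (norm_nonneg _) (by norm_num)) b1
        (norm_nonneg _) (by positivity)
      have b4 : 64 * (a / d) ≤ a / d ^ 2 := by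
        rw [le_div_iff₀ (by positivity)]
        have e : 64 * (a / d) * d ^ 2 = (64 * d) * a := by field_simp
        rw [e]
        nlinarith
      have b5 := mul_le_mul_of_nonneg_right b4 (pow_nonneg (norm_nonneg p.2) 3)
      linarith)
    Tz
  refine ⟨Hl, _, hPC, fun ξ hξ => ?_⟩
  unfold prim sl
  congr 1
  refine setIntegral_congr_fun measurableSet_Ioo fun v hv => ?_
  have hv' := Sec_smul h0 hξ hv.1 hv.2.le
  have e : isq (pcsZ T R δ (0, (v : ℂ) * ξ)) = (T ((v : ℂ) * ξ))⁻¹ := by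
    rw [← Tz _ hv']
    exact Complex.cpow_neg _ _
  simp only [e, zero_mul, add_zero]
  ring

end Bon3
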