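import Pool.Agent.Lib.MP_3dbf58_gt.Tool
import Pool.Agent.Lib.MP_3dbf58_gt.PCsB

open Set Filter Topology MeasureTheory Metric

noncomputable section

namespace Bon3

theorem Num.small {P : Par} {θ d B a : ℝ} (h : Num P θ d B a) :
    a ≤ d ^ 12 * (th0 ^ 2 * P.η) ∧ d ≤ del1 ∧ B ≤ th0 ^ 2 * P.η ∧ B ≤ th0 ^ 2 * P.q ∧ 0 < P.q ∧
      P.η ≤ del1 ∧ 100 ≤ d ^ 6 / a ∧ d ^ 6 / a ≤ d ^ 4 / a := by
  obtain ⟨⟨et1, et2, q1, _⟩, d0, d1, _, _, a0, _, hB⟩ := h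
  have hd12 : 0 < d ^ 12 := pow_pos d0 12
  have h1 : a / d ^ 12 ≤ th0 ^ 2 * P.η := by linarith
  have h2 : a ≤ d ^ 12 * (th0 ^ 2 * P.η) := by
    rw [div_le_iff₀ hd12] at h1
    linarith
  have hd : d ≤ del1 := by
    unfold th0 at d1
    unfold del1
    linarith
  have hpos : 0 < a / d ^ 12 := div_pos a0 hd12
  have hB' : B ≤ th0 ^ 2 * P.η := by linarith
  have hd1 : d ≤ 1 := by
    unfold del1 at hd
    linarith
  have he : P.η ≤ del1 := et2.trans q1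
  refine ⟨h2, hd, hB', hB'.trans (mul_le_mul_of_nonneg_left et2 (sq_nonneg _)),
    et1.trans_le et2, he, ?_, ?_⟩
  · rw [le_div_iff₀ a0]
    have b1 : d ^ 6 ≤ 1 := pow_le_one₀ d0.le hd1
    have b2 : th0 ^ 2 * P.η ≤ 1 / 100 := by
      unfold del1 at he
      unfold th0
      linarith
    have b3 : d ^ 6 * (th0 ^ 2 * P.η) ≤ 1 * (1 / 100) :=
      mul_le_mul b1 b2 (by positivity) (by norm_num)
    have b4 : d ^ 12 * (th0 ^ 2 * P.η) = d ^ 6 * (d ^ 6 * (th0 ^ 2 * P.η)) := by ring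
    have b5 := mul_le_mul_of_nonneg_left b3 (pow_pos d0 6).le
    linarith
  · exact div_le_div_of_nonneg_right (pow_le_pow_of_le_one d0.le hd1 (by norm_num)) a0.le

theorem pcs_cap {q θ B : ℝ} {u T H e : ℂ → ℂ} {a0 b0 c0 : ℝ} (h0 : 0 ≤ θ) (h1 : θ ≤ th0)
    (hB : del1 + B ≤ 1 / 10) (h : CapInv q θ B u T H e a0 b0 c0) {ξ : ℂ} (hξ : ξ ∈ Sec θ) :
    ‖u ξ‖ ≤ 2 ∧ ‖deriv u ξ‖ ≤ 2 ∧ 9 / 10 ≤ ‖deriv u ξ‖ ∧ ‖T ξ - 1‖ ≤ 1 / 10 ∧ ‖T ξ‖ ≤ 2 ∧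
      9 / 10 ≤ ‖T ξ‖ := by
  have a1 := h.u0 ξ hξ
  have a2 := h.u1 ξ hξ
  have a3 := h.T0 ξ hξ
  have a4 := (Sec_norm h0 h1 hξ).2.2.1
  have b1 := norm_add_le (u ξ - (1 - ξ)) (1 - ξ)
  have b2 := norm_sub_le (deriv u ξ + 1) 1
  have b3 := norm_sub_le (deriv u ξ + 1) (deriv u ξ)
  have b4 := norm_add_le (T ξ - 1) 1
  have b5 := norm_sub_le (T ξ) (T ξ - 1)
  rw [sub_add_cancel] at b1 b4
  rw [add_sub_cancel_right, norm_one] at b2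
  rw [add_sub_cancel_left, norm_one] at b3
  rw [sub_sub_cancel, norm_one] at b5
  rw [norm_one] at b4
  unfold th0 at h1
  refine ⟨?_, ?_, ?_, ?_, ?_, ?_⟩ <;> linarith

theorem pc_exists {P : Par} {θ d B a : ℝ} {S : St} {w : ℂ → ℂ} (N : Num P θ d B a)
    (h : InvC P θ d B S) (dw : DifferentiableOn ℂ w (Sec θ)) (rw : Rl w θ)
    (w0 : ∀ ξ ∈ Sec θ, ‖w ξ‖ ≤ a * ‖ξ‖ ^ 4) :
    ∃ Tp Hp Tm Hm Wm : ℂ × ℂ → ℂ,
      PC P.q (θ - d) (d ^ 4 / a) (d ^ 2) (a / d ^ 2) S.up S.Tp S.Hp Tp Hp (fun p => w p.2) ∧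
      PC P.q (θ - d) (d ^ 4 / a) (d ^ 2) (a / d ^ 2) S.um S.Tm S.Hm Tm Hm Wm ∧
      (∀ ξ ∈ Sec (θ - d), Wm (0, ξ) = wm S.ρ S.U w ξ) ∧
      HC (fun p => Tp (p.1, S.U p.2)) (G2 (θ - d) (d ^ 4 / a)) ∧
      (∀ p ∈ G2 (θ - d) (d ^ 4 / a), ‖Tp (p.1, S.U p.2) - S.Tp (S.U p.2)‖ ≤ d ^ 2 * ‖p.2‖) ∧
      ∀ p ∈ G2 (θ - d) (d ^ 4 / a),
        Tm p ^ 2 - S.Tm p.2 ^ 2 = S.Tp (S.U p.2) ^ 2 - Tp (p.1, S.U p.2) ^ 2 := by
  obtain ⟨s1, s2, s3, s4, s5, s6, -, -⟩ := N.small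
  have d0 := N.d0
  have a0 := N.a0
  have t1 := N.th1
  have t2 := N.th2
  have et1 := N.par.et1
  have tp : 0 < th0 := by
    unfold th0
    norm_num
  have g0 : 0 < θ - d := by linarith
  have g1 : θ - d ≤ th0 := by linarith
  have g2 : 0 ≤ θ := by linarith
  have g3 : d ≤ θ := by linarith
  have dd1 : d ≤ 1 / 1000 := by
    unfold del1 at s2
    linarith
  have e1 : P.η ≤ 1 / 10 ^ 7 := s6
  have hB1 : B ≤ 1 / 100 := by
    unfold th0 at s3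
    linarith
  have hB : del1 + B ≤ 1 / 10 := by
    unfold del1
    linarith
  have sub : Sec (θ - d) ⊆ Sec θ := Sec_mono g0.le (by linarith)
  have hS := isOpen_Sec θ
  have hS' := isOpen_Sec (θ - d)
  have rl : ∀ {f : ℂ → ℂ}, Rl f θ → Rl f (θ - d) := fun hf x hx => hf x (sub hx)
  have cp := fun ξ (hξ : ξ ∈ Sec θ) => pcs_cap g2 t2 hB h.cp hξ
  have cm := fun ξ (hξ : ξ ∈ Sec θ) => pcs_cap g2 t2 hB h.cm hξ
  have hU : ∀ ξ ∈ Sec (θ - d), S.U ξ ∈ Sec (θ - d) ∧ ‖S.U ξ‖ ≤ 11 / 10 * ‖ξ‖ := by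
    intro ξ hξ
    have := U_maps (θ' := θ - d) (by linarith) (by linarith) t2 et1
      (by unfold th0; linarith) N.par.mu s3 h.U0 hξ
    exact ⟨this.1, this.2.trans (mul_le_mul_of_nonneg_right (by linarith) (norm_nonneg _))⟩
  have mU : MapsTo S.U (Sec (θ - d)) (Sec (θ - d)) := fun ξ hξ => (hU ξ hξ).1
  have dU : DifferentiableOn ℂ S.U (Sec (θ - d)) := h.dU.mono sub
  have cU : ∀ {f : ℂ → ℂ}, DifferentiableOn ℂ f (Sec (θ - d)) →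
      DifferentiableOn ℂ (fun ξ => f (S.U ξ)) (Sec (θ - d)) := fun hf => hf.comp dU mU
  have rU : ∀ {f : ℂ → ℂ}, Rl f (θ - d) → Rl (fun ξ => f (S.U ξ)) (θ - d) := by
    intro f hf x hx
    have e : S.U x = ((S.U x).re : ℂ) := Complex.ext (by simp) (by simp [h.rU x (sub hx)])
    have b1 := mU hx
    rw [e] at b1
    show (f (S.U x)).im = 0
    rw [e]
    exact hf _ b1
  have une : ∀ ξ ∈ Sec θ, deriv S.up ξ ≠ 0 := by
    intro ξ hξ h0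
    have := (cp ξ hξ).2.2.1
    rw [h0, norm_zero] at this
    linarith
  have Tne : ∀ ξ ∈ Sec θ, S.Tm ξ ≠ 0 := by
    intro ξ hξ h0
    have := (cm ξ hξ).2.2.2.2.2
    rw [h0, norm_zero] at this
    linarith
  set γ : ℂ → ℂ := fun ξ => 2 * deriv w ξ / deriv S.up ξ with hγdef
  have dγ : DifferentiableOn ℂ γ (Sec (θ - d)) :=
    (((dw.deriv hS).const_mul 2).fun_div (h.cp.du.deriv hS) une).mono sub
  have rγ : Rl γ (θ - d) := by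
    intro x hx
    have b1 := rw.deriv dw x (sub hx)
    have b2 := h.cp.ru.deriv h.cp.du x (sub hx)
    simp [hγdef, Complex.div_im, b1, b2]
  have γ0 : ∀ ξ ∈ Sec (θ - d), ‖γ ξ‖ ≤ 12 * (a / d) * ‖ξ‖ ^ 3 := by
    intro ξ hξ
    have b1 := cauchy_Sec d0 g3 t2 (by norm_num) dw w0 hξ
    have b2 : 0 < ‖ξ‖ := norm_pos_iff.2 (Sec_ne hξ)
    have b3 : ‖deriv w ξ‖ ≤ 5 * (a / d) * ‖ξ‖ ^ 3 := by
      refine le_of_mul_le_mul_right (b1.trans_eq ?_) b2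
      ring
    have b4 := (cp ξ (sub hξ)).2.2.1
    have b5 : 0 ≤ a / d * ‖ξ‖ ^ 3 := by positivity
    simp only [hγdef, norm_div, norm_mul, Complex.norm_ofNat]
    rw [div_le_iff₀ (by linarith)]
    nlinarith
  have hγ : ∀ ξ ∈ Sec (θ - d), deriv S.up ξ * γ ξ = 2 * deriv w ξ := by
    intro ξ hξ
    have := une ξ (sub hξ)
    simp only [hγdef]
    field_simp
  have δ0 : ∀ ξ ∈ Sec (θ - d), ‖γ (S.U ξ)‖ ≤ 16 * (a / d) * ‖ξ‖ ^ 3 := by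
    intro ξ hξ
    have b1 := γ0 _ (mU hξ)
    have b2 := pow_le_pow_left₀ (norm_nonneg _) (hU ξ hξ).2 3
    have b3 := mul_le_mul_of_nonneg_left b2 (show 0 ≤ 12 * (a / d) by positivity)
    have b5 : 0 ≤ a / d * ‖ξ‖ ^ 3 := by positivity
    nlinarith
  have pcp := pcs_plus (q := P.q) s5.le g0.le g1 d0 (by linarith) a0 (h.cp.du.mono sub)
    (h.cp.dT.mono sub) (h.cp.dH.mono sub) (dw.mono sub) dγ (rl h.cp.ru) (rl h.cp.rT) (rl h.cp.rH)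
    (rl rw) rγ (fun ξ hξ => (cp ξ (sub hξ)).1) (fun ξ hξ => h.cp.H1 ξ (sub hξ))
    (fun ξ hξ => w0 ξ (sub hξ)) γ0 hγ
  obtain ⟨Hm, Wm, pcm, hW⟩ := pcs_minus (q := P.q) (R := fun ξ => S.Tp (S.U ξ))
    (δ := fun ξ => γ (S.U ξ)) s5.le g0.le g1 d0 dd1 a0 (h.cm.du.mono sub)
    (h.cm.dT.mono sub) (h.cm.dH.mono sub) (cU (h.cp.dT.mono sub)) (cU dγ) (rl h.cm.ru)
    (rl h.cm.rT) (rl h.cm.rH) (rU (rl h.cp.rT)) (rU rγ) (fun ξ hξ => (cm ξ (sub hξ)).1)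
    (fun ξ hξ => (cm ξ (sub hξ)).2.1) (fun ξ hξ => (cm ξ (sub hξ)).2.2.2.1)
    (fun ξ hξ => (cp _ (sub (mU hξ))).2.2.2.1) (fun ξ hξ => h.cm.H1 ξ (sub hξ)) δ0
  have ρ0 : ∀ ξ ∈ Sec (θ - d), S.ρ ξ = S.Tp (S.U ξ) / S.Tm ξ := by
    intro ξ hξ
    rw [eq_div_iff (Tne ξ (sub hξ))]
    exact h.ρT ξ (sub hξ)
  have ρ1 : ∀ ξ ∈ Sec (θ - d), ‖S.ρ ξ‖ ≤ 3 := by
    intro ξ hξ
    have b1 := (cm ξ (sub hξ)).2.2.2.2.2
    have b2 := (cp _ (sub (mU hξ))).2.2.2.2.1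
    rw [ρ0 ξ hξ, norm_div, div_le_iff₀ (by linarith)]
    linarith
  refine ⟨_, _, _, Hm, Wm, pcp, pcm, ?_, ?_, ?_, ?_⟩
  · intro ξ hξ
    rw [hW ξ hξ]
    have ad : 0 ≤ a / d := by positivity
    refine pcs_parts (M := 3 + 16 * a + 3 * (16 * (a / d) * 2 ^ 3)) (ρ := S.ρ)
      (W := fun ζ => w (S.U ζ)) g0 g1 (by positivity) (h.dρ.mono sub) (cU (dw.mono sub)) ?_ ?_ ?_
      ?_ ?_ ?_ hξ
    · have := ((((cU (h.cp.dT.mono sub)).fun_mul (cU dγ)).fun_neg.fun_div (h.cm.dT.mono sub)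
        (fun ζ hζ => Tne ζ (sub hζ))).fun_mul ((h.cm.du.deriv hS).mono sub)).mul_const (2 : ℂ)⁻¹
      simpa only [div_eq_mul_inv] using this
    · intro ζ hζ
      have n1 : Sec (θ - d) ∈ 𝓝 ζ := hS'.mem_nhds hζ
      have n2 : Sec θ ∈ 𝓝 (S.U ζ) := hS.mem_nhds (sub (mU hζ))
      have b0 := (dU.differentiableAt n1).hasDerivAt
      have b1 : deriv (fun ζ => w (S.U ζ)) ζ = _ :=
        ((dw.differentiableAt n2).hasDerivAt.comp ζ b0).deriv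
      have b2 : HasDerivAt (fun ζ => S.up (S.U ζ)) _ ζ :=
        (h.cp.du.differentiableAt n2).hasDerivAt.comp ζ b0
      have b3 : S.um =ᶠ[𝓝 ζ] fun ζ => S.up (S.U ζ) := by
        filter_upwards [n1] with s hs using (h.Uu s (sub hs)).symm
      have b4 : deriv S.um ζ = _ := (b2.congr_of_eventuallyEq b3).deriv
      rw [b1, b4, ρ0 ζ hζ]
      linear_combination (-(S.Tp (S.U ζ) / S.Tm ζ) * deriv S.U ζ / 2) * hγ _ (mU hζ)
    · intro ζ hζ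
      have e : -(S.Tp (S.U ζ) * γ (S.U ζ)) / S.Tm ζ * deriv S.um ζ / 2 =
          -(S.ρ ζ * γ (S.U ζ) * deriv S.um ζ / 2) := by
        rw [ρ0 ζ hζ]
        ring
      have b1 : ‖γ (S.U ζ)‖ ≤ 16 * (a / d) * 2 ^ 3 := (δ0 ζ hζ).trans (mul_le_mul_of_nonneg_left
        (pow_le_pow_left₀ (norm_nonneg _) (pcs_norm2 g0.le g1 hζ) 3) (by positivity))
      have b2 := mul_le_mul (mul_le_mul (ρ1 ζ hζ) b1 (norm_nonneg _) (by norm_num))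
        (cm ζ (sub hζ)).2.1 (norm_nonneg _) (by positivity)
      rw [e, norm_neg, norm_div, norm_mul, norm_mul, Complex.norm_ofNat]
      linarith
    · intro ζ hζ
      have := ρ1 ζ hζ
      linarith
    · intro ζ hζ
      have b1 := h.ρ1 ζ (sub hζ)
      have b2 := norm_sub_le (deriv S.ρ ζ + (2 + kap) * P.η) ((2 + kap) * P.η)
      have b3 : ‖((2 : ℂ) + kap) * P.η‖ ≤ 1 := by
        have e : ((2 : ℂ) + kap) * P.η = (((2 + kap) * P.η : ℝ) : ℂ) := by push_cast; ring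
        rw [e, Complex.norm_real, Real.norm_eq_abs]
        unfold kap
        rw [abs_of_nonneg (by positivity)]
        linarith
      rw [add_sub_cancel_right] at b2
      linarith
    · intro ζ hζ
      have b1 := w0 _ (sub (mU hζ))
      have b2 := pow_le_pow_left₀ (norm_nonneg _) (pcs_norm2 g0.le g1 (mU hζ)) 3
      have b3 := mul_le_mul b2 (hU ζ hζ).2 (norm_nonneg _) (by norm_num)
      have b4 : ‖S.U ζ‖ ^ 4 ≤ 16 * ‖ζ‖ := by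
        have := norm_nonneg ζ
        rw [pow_succ]
        linarith
      have b5 := mul_le_mul_of_nonneg_left b4 a0.le
      have b6 : 0 ≤ (3 + 3 * (16 * (a / d) * 2 ^ 3)) * ‖ζ‖ := by positivity
      show ‖w (S.U ζ)‖ ≤ _
      linarith
  · have m2 : MapsTo (fun p : ℂ × ℂ => p.2) (G2 (θ - d) (d ^ 4 / a)) (Sec (θ - d)) :=
      fun p hp => hp.1
    have c2 : ∀ {f : ℂ → ℂ}, DifferentiableOn ℂ f (Sec (θ - d)) →
        HC (fun p : ℂ × ℂ => f p.2) (G2 (θ - d) (d ^ 4 / a)) :=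
      fun hf => HC.of_diff (hf.comp (f := fun p : ℂ × ℂ => p.2) differentiableOn_snd m2)
    exact (c2 (cU (h.cp.dT.mono sub))).add ((HC.fst HC.id).mul (c2 (cU dγ)))
  · intro p hp
    show ‖S.Tp (S.U p.2) + p.1 * γ (S.U p.2) - S.Tp (S.U p.2)‖ ≤ _
    rw [add_sub_cancel_left]
    refine (pcs_lam d0 a0 (by norm_num) hp.2 (δ0 _ hp.1)).trans
      (mul_le_mul_of_nonneg_right ?_ (norm_nonneg _))
    have : 16 * d ^ 3 = (16 * d) * d ^ 2 := by ring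
    rw [this]
    exact mul_le_of_le_one_left (by positivity) (by linarith)
  · intro p _
    show csq _ ^ 2 - _ = _
    rw [csq_sq]
    unfold pcsZ
    ring

end Bon3
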