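import Pool.Agent.Lib.MP_3dbf58_gt.Tool

/-! Primitives with a parameter, and the perturbed cap built from a perturbed `T`. -/

open Set Filter Topology MeasureTheory Metric

noncomputable section

namespace Bon3

theorem pcs_G2_smul {θ Λ : ℝ} (h0 : 0 ≤ θ) {l ξ : ℂ} (hp : (l, ξ) ∈ G2 θ Λ) {v : ℝ}
    (v0 : 0 < v) (v1 : v ≤ 1) : (l, (v : ℂ) * ξ) ∈ G2 θ Λ := by
  refine ⟨Sec_smul h0 hp.1 v0 v1, lt_of_le_of_lt ?_ hp.2⟩
  have h1 : ‖(v : ℂ) * ξ‖ ≤ ‖ξ‖ := by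
    rw [norm_mul, Complex.norm_real, Real.norm_eq_abs, abs_of_pos v0]
    exact mul_le_of_le_one_left (norm_nonneg _) v1
  exact mul_le_mul_of_nonneg_left (pow_le_pow_left₀ (norm_nonneg _) h1 2) (norm_nonneg _)

theorem pcs_meas {θ Λ : ℝ} (h0 : 0 ≤ θ) {F : ℂ × ℂ → ℂ} (hF : DifferentiableOn ℂ F (G2 θ Λ))
    {l ξ : ℂ} (hp : (l, ξ) ∈ G2 θ Λ) :
    AEStronglyMeasurable (fun v : ℝ => F (l, (v : ℂ) * ξ)) (volume.restrict (Ioo (0 : ℝ) 1)) := by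
  refine ContinuousOn.aestronglyMeasurable ?_ measurableSet_Ioo
  refine hF.continuousOn.comp (f := fun v : ℝ => (l, (v : ℂ) * ξ)) (by fun_prop) ?_
  intro v hv
  exact pcs_G2_smul h0 hp hv.1 hv.2.le

theorem pcs_prim_HC {θ Λ M : ℝ} (h0 : 0 ≤ θ) {F : ℂ × ℂ → ℂ}
    (hF : DifferentiableOn ℂ F (G2 θ Λ)) (hM : ∀ p ∈ G2 θ Λ, ‖F p‖ ≤ M) :
    HC (fun p : ℂ × ℂ => prim (sl F p.1) p.2) (G2 θ Λ) := by
  unfold prim sl
  refine HC.mul (HC.snd HC.id) ?_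
  refine HC.integral (μ := volume.restrict (Ioo (0 : ℝ) 1))
    (f := fun (p : ℂ × ℂ) (v : ℝ) => F (p.1, (v : ℂ) * p.2)) (b := fun _ => M) ?_ ?_ ?_ ?_
  · refine (ae_restrict_iff' measurableSet_Ioo).2 (Eventually.of_forall fun v hv => ?_)
    refine HC.of_diff ?_
    refine hF.comp (f := fun p : ℂ × ℂ => (p.1, (v : ℂ) * p.2)) (by fun_prop) ?_
    intro p hp
    exact pcs_G2_smul h0 hp hv.1 hv.2.le
  · intro p hp
    exact pcs_meas h0 hF hp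
  · refine (ae_restrict_iff' measurableSet_Ioo).2 (Eventually.of_forall fun v hv => ?_)
    intro p hp
    exact hM _ (pcs_G2_smul h0 hp hv.1 hv.2.le)
  · exact integrable_const _

theorem pcs_prim_d2 {θ Λ M : ℝ} (h0 : 0 ≤ θ) {F : ℂ × ℂ → ℂ}
    (hF : DifferentiableOn ℂ F (G2 θ Λ)) (hM : ∀ p ∈ G2 θ Λ, ‖F p‖ ≤ M) {l ξ : ℂ}
    (hp : (l, ξ) ∈ G2 θ Λ) : HasDerivAt (prim (sl F l)) (F (l, ξ)) ξ := by
  have hO : IsOpen {ζ : ℂ | (l, ζ) ∈ G2 θ Λ} :=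
    (isOpen_G2 θ Λ).preimage (f := fun ζ : ℂ => (l, ζ)) (by fun_prop)
  refine prim_hasDerivAt (M := M) (f := sl F l) h0 hO (fun ζ hζ => hζ.1)
    (fun ζ hζ v v0 v1 => pcs_G2_smul h0 hζ v0 v1) ?_ (fun ζ hζ => hM _ hζ) hp
  exact hF.comp (f := fun ζ : ℂ => (l, ζ)) (by fun_prop) (fun ζ hζ => hζ)

theorem pcs_prim_d1 {θ Λ M : ℝ} (h0 : 0 ≤ θ) {F F1 : ℂ × ℂ → ℂ}
    (hF : DifferentiableOn ℂ F (G2 θ Λ)) (hM : ∀ p ∈ G2 θ Λ, ‖F p‖ ≤ M)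
    (h1 : ∀ p ∈ G2 θ Λ, HasDerivAt (fun l => F (l, p.2)) (F1 p) p.1) {l ξ : ℂ}
    (hp : (l, ξ) ∈ G2 θ Λ) :
    HasDerivAt (fun s => prim (sl F s) ξ) (prim (sl F1 l) ξ) l := by
  have hO : IsOpen {s : ℂ | (s, ξ) ∈ G2 θ Λ} :=
    (isOpen_G2 θ Λ).preimage (f := fun s : ℂ => (s, ξ)) (by fun_prop)
  have key := (hasDerivAt_int (μ := volume.restrict (Ioo (0 : ℝ) 1))
    (f := fun (s : ℂ) (v : ℝ) => F (s, (v : ℂ) * ξ)) (b := fun _ => M) hO ?_ ?_ ?_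
    (integrable_const _) hp).2
  · have e : ∫ v in Ioo (0 : ℝ) 1, deriv (fun s => F (s, (v : ℂ) * ξ)) l =
        ∫ v in Ioo (0 : ℝ) 1, F1 (l, (v : ℂ) * ξ) := by
      refine setIntegral_congr_fun measurableSet_Ioo fun v hv => ?_
      exact (h1 _ (pcs_G2_smul h0 hp hv.1 hv.2.le)).deriv
    rw [e] at key
    exact key.const_mul ξ
  · refine (ae_restrict_iff' measurableSet_Ioo).2 (Eventually.of_forall fun v hv => ?_)
    refine hF.comp (f := fun s : ℂ => (s, (v : ℂ) * ξ)) (by fun_prop) ?_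
    intro s hs
    exact pcs_G2_smul h0 hs hv.1 hv.2.le
  · intro s hs
    exact pcs_meas h0 hF hs
  · refine (ae_restrict_iff' measurableSet_Ioo).2 (Eventually.of_forall fun v hv => ?_)
    intro s hs
    exact hM _ (pcs_G2_smul h0 hs hv.1 hv.2.le)

theorem pcs_norm2 {θ : ℝ} (h0 : 0 ≤ θ) (h1 : θ ≤ th0) {ξ : ℂ} (h : ξ ∈ Sec θ) : ‖ξ‖ ≤ 2 := by
  have := (Sec_norm h0 h1 h).2.1
  unfold th0 at h1
  linarith

/-- the cap that belongs to a perturbed `T` -/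
theorem pcs_gen {q θ Λ ε A : ℝ} {u T H : ℂ → ℂ} {Tl T1 : ℂ × ℂ → ℂ} (q0 : 0 ≤ q) (h0 : 0 ≤ θ)
    (h1 : θ ≤ th0) (e0 : 0 ≤ ε) (A0 : 0 ≤ A) (hΛ : 0 < Λ)
    (du : DifferentiableOn ℂ u (Sec θ)) (dT : DifferentiableOn ℂ T (Sec θ))
    (dH : DifferentiableOn ℂ H (Sec θ)) (ru : Rl u θ) (rT : Rl T θ) (rH : Rl H θ)
    (u0 : ∀ ξ ∈ Sec θ, ‖u ξ‖ ≤ 2) (u1 : ∀ ξ ∈ Sec θ, ‖deriv u ξ‖ ≤ 2)
    (H1 : ∀ ξ ∈ Sec θ, deriv H ξ = -q * (T ξ * deriv u ξ / 2 + u ξ * deriv T ξ))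
    (dTl : DifferentiableOn ℂ Tl (G2 θ Λ)) (dT1 : DifferentiableOn ℂ T1 (G2 θ Λ))
    (rTl : Rl2 Tl (G2 θ Λ)) (rT1 : Rl2 T1 (G2 θ Λ))
    (hd : ∀ p ∈ G2 θ Λ, HasDerivAt (fun l => Tl (l, p.2)) (T1 p) p.1)
    (T0 : ∀ p ∈ G2 θ Λ, ‖Tl p - T p.2‖ ≤ ε / 3 * ‖p.2‖)
    (T10 : ∀ p ∈ G2 θ Λ, ‖T1 p‖ ≤ A * ‖p.2‖ ^ 3)
    (Tz : ∀ ξ ∈ Sec θ, Tl (0, ξ) = T ξ) :
    ∃ Hl, PC q θ Λ ε A u T H Tl Hl
      (fun p => prim (sl (fun r => T1 r * deriv u r.2 / 2) p.1) p.2) := by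
  have hS := isOpen_Sec θ
  have hG := isOpen_G2 θ Λ
  have du' : DifferentiableOn ℂ (deriv u) (Sec θ) := du.deriv hS
  have ru' : Rl (deriv u) θ := ru.deriv du
  have m2 : MapsTo (fun p : ℂ × ℂ => p.2) (G2 θ Λ) (Sec θ) := fun p hp => hp.1
  have c2 : ∀ {f : ℂ → ℂ}, DifferentiableOn ℂ f (Sec θ) →
      DifferentiableOn ℂ (fun p : ℂ × ℂ => f p.2) (G2 θ Λ) :=
    fun hf => hf.comp (f := fun p : ℂ × ℂ => p.2) differentiableOn_snd m2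
  set F : ℂ × ℂ → ℂ := fun r => (Tl r - T r.2) * deriv u r.2 / 2 with hFdef
  set F1 : ℂ × ℂ → ℂ := fun r => T1 r * deriv u r.2 / 2 with hF1def
  have dF : DifferentiableOn ℂ F (G2 θ Λ) := by
    have := ((dTl.fun_sub (c2 dT)).fun_mul (c2 du')).mul_const (2 : ℂ)⁻¹
    simpa only [hFdef, div_eq_mul_inv] using this
  have dF1 : DifferentiableOn ℂ F1 (G2 θ Λ) := by
    have := (dT1.fun_mul (c2 du')).mul_const (2 : ℂ)⁻¹
    simpa only [hF1def, div_eq_mul_inv] using this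
  have bF : ∀ p ∈ G2 θ Λ, ‖F p‖ ≤ ε / 3 * ‖p.2‖ ^ 1 := by
    intro p hp
    simp only [hFdef, norm_div, norm_mul, Complex.norm_ofNat, pow_one]
    have := mul_le_mul (T0 p hp) (u1 _ hp.1) (norm_nonneg _) (by positivity)
    linarith
  have bF1 : ∀ p ∈ G2 θ Λ, ‖F1 p‖ ≤ A * ‖p.2‖ ^ 3 := by
    intro p hp
    simp only [hF1def, norm_div, norm_mul, Complex.norm_ofNat]
    have := mul_le_mul (T10 p hp) (u1 _ hp.1) (norm_nonneg _) (by positivity)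
    linarith
  have bF' : ∀ p ∈ G2 θ Λ, ‖F p‖ ≤ ε / 3 * 2 := by
    intro p hp
    refine (bF p hp).trans (mul_le_mul_of_nonneg_left ?_ (by positivity))
    rw [pow_one]
    exact pcs_norm2 h0 h1 hp.1
  have bF1' : ∀ p ∈ G2 θ Λ, ‖F1 p‖ ≤ A * 2 ^ 3 := by
    intro p hp
    exact (bF1 p hp).trans (mul_le_mul_of_nonneg_left
      (pow_le_pow_left₀ (norm_nonneg _) (pcs_norm2 h0 h1 hp.1) 3) A0)
  have hdF : ∀ p ∈ G2 θ Λ, HasDerivAt (fun l => F (l, p.2)) (F1 p) p.1 := by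
    intro p hp
    exact (((hd p hp).sub_const (T p.2)).mul_const (deriv u p.2)).div_const 2
  refine ⟨fun p => H p.2 + q * (prim (sl F p.1) p.2 - u p.2 * (Tl p - T p.2)), ?_⟩
  refine ⟨HC.of_diff dTl, ?_, pcs_prim_HC h0 dF1 bF1', rTl, ?_, ?_, ?_, ?_, ?_, Tz, ?_, ?_, ?_⟩
  · exact (HC.of_diff (c2 dH)).add ((HC.const _).mul ((pcs_prim_HC h0 dF bF').sub
      (HC.of_diff ((c2 du).mul (dTl.sub (c2 dT))))))
  · intro t x hp
    have a1 : (prim (sl F t) x).im = 0 := by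
      refine prim_real fun v v0 v1 => ?_
      have hp' := pcs_G2_smul h0 hp v0 v1.le
      rw [← Complex.ofReal_mul] at hp' ⊢
      have b1 := rTl t (v * x) hp'
      have b2 := rT (v * x) hp'.1
      have b3 := ru' (v * x) hp'.1
      simp only [sl, hFdef, Complex.div_ofNat_im, Complex.mul_im, Complex.sub_im, b1, b2, b3]
      simp
    have a2 := rTl t x hp
    have a3 := rT x hp.1
    have a4 := ru x hp.1
    have a5 := rH x hp.1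
    simp only [Complex.add_im, Complex.mul_im, Complex.sub_im, a1, a2, a3, a4, a5,
      Complex.ofReal_im]
    simp
  · intro t x hp
    refine prim_real fun v v0 v1 => ?_
    have hp' := pcs_G2_smul h0 hp v0 v1.le
    rw [← Complex.ofReal_mul] at hp' ⊢
    have b1 := rT1 t (v * x) hp'
    have b3 := ru' (v * x) hp'.1
    simp only [sl, hF1def, Complex.div_ofNat_im, Complex.mul_im, b1, b3]
    simp
  · intro p hp
    refine (T0 p hp).trans (mul_le_mul_of_nonneg_right (by linarith) (norm_nonneg _))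
  · intro p hp
    have a1 : ‖prim (sl F p.1) p.2‖ ≤ ε / 3 / ((1 : ℕ) + 1) * ‖p.2‖ ^ (1 + 1) :=
      prim_norm fun v v0 v1 => bF _ (pcs_G2_smul h0 hp v0 v1.le)
    have a2 := mul_le_mul (u0 _ hp.1) (T0 p hp) (norm_nonneg _) (by norm_num)
    have a3 := pcs_norm2 h0 h1 hp.1
    have a4 : ‖prim (sl F p.1) p.2‖ ≤ ε / 3 * ‖p.2‖ := by
      refine a1.trans ?_
      have : ‖p.2‖ ^ (1 + 1) ≤ 2 * ‖p.2‖ := by
        rw [pow_succ, pow_one]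
        exact mul_le_mul_of_nonneg_right a3 (norm_nonneg _)
      calc ε / 3 / ((1 : ℕ) + 1) * ‖p.2‖ ^ (1 + 1) ≤ ε / 3 / ((1 : ℕ) + 1) * (2 * ‖p.2‖) :=
            mul_le_mul_of_nonneg_left this (by positivity)
        _ = ε / 3 * ‖p.2‖ := by push_cast; ring
    rw [add_sub_cancel_left, norm_mul, Complex.norm_real, Real.norm_eq_abs, abs_of_nonneg q0,
      mul_assoc]
    refine mul_le_mul_of_nonneg_left ((norm_sub_le _ _).trans ?_) q0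
    rw [norm_mul]
    linarith
  · intro p hp
    have a1 : ‖prim (sl F1 p.1) p.2‖ ≤ A / ((3 : ℕ) + 1) * ‖p.2‖ ^ (3 + 1) :=
      prim_norm fun v v0 v1 => bF1 _ (pcs_G2_smul h0 hp v0 v1.le)
    refine a1.trans (mul_le_mul_of_nonneg_right ?_ (by positivity))
    push_cast
    linarith
  · intro ξ hξ
    have hp : ((0 : ℂ), ξ) ∈ G2 θ Λ := ⟨hξ, by simpa using hΛ⟩
    have a1 : ‖prim (sl F 0) ξ‖ ≤ 0 / ((0 : ℕ) + 1) * ‖ξ‖ ^ (0 + 1) := by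
      refine prim_norm fun v v0 v1 => ?_
      simp only [sl, hFdef, Tz _ (Sec_smul h0 hξ v0 v1.le)]
      simp
    have a2 : prim (sl F 0) ξ = 0 := by simpa using a1
    simp only [a2, Tz ξ hξ]
    simp
  · rintro ⟨l, ξ⟩ hp
    have hξ : Sec θ ∈ 𝓝 ξ := hS.mem_nhds hp.1
    have a1 := pcs_prim_d2 h0 dF bF' hp
    have a2 : HasDerivAt (fun ζ => Tl (l, ζ)) (d2 Tl (l, ξ)) ξ :=
      (HC.of_diff dTl).hasDerivAt2 hG hp
    have a3 := (du.differentiableAt hξ).hasDerivAt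
    have a4 := (dT.differentiableAt hξ).hasDerivAt
    have a5 := (dH.differentiableAt hξ).hasDerivAt
    have a6 := a5.add ((a1.sub (a3.mul (a2.sub a4))).const_mul (q : ℂ))
    have a7 : d2 (fun p : ℂ × ℂ => H p.2 + q * (prim (sl F p.1) p.2 - u p.2 * (Tl p - T p.2)))
        (l, ξ) = _ := a6.deriv
    rw [a7, H1 ξ hp.1]
    simp only [hFdef, Pi.sub_apply]
    ring
  · rintro ⟨l, ξ⟩ hp
    have a1 := pcs_prim_d1 h0 dF bF' hdF hp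
    have a2 := hd _ hp
    have a3 := ((a1.sub ((a2.sub_const (T ξ)).const_mul (u ξ))).const_mul (q : ℂ)).const_add (H ξ)
    have a4 : d1 (fun p : ℂ × ℂ => H p.2 + q * (prim (sl F p.1) p.2 - u p.2 * (Tl p - T p.2)))
        (l, ξ) = _ := a3.deriv
    have a5 : d1 Tl (l, ξ) = T1 (l, ξ) := a2.deriv
    rw [a4, a5]

end Bon3
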