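import Pool.Agent.Lib.MP_3dbf58_gt.FamL
import Pool.Agent.Lib.MP_3dbf58_gt.Bri
import Pool.Agent.Lib.MP_3dbf58_gt.ArA

/-! One cap of the family at a real parameter. -/

open Set Filter Topology MeasureTheory Metric

noncomputable section

namespace Bon3

theorem ra_num {P : Par} {θ d B a : ℝ} (N : Num P θ d B a) :
    1 / 10 ^ 6 / 2 ≤ θ - 8 * d ∧ d ≤ 1 / 10 ^ 7 ∧ B ≤ P.q / 10 ^ 12 ∧ P.q ≤ 1 / 10 ^ 7 ∧
      100 ≤ d ^ 4 / a ∧ a / d ^ 12 ≤ P.q / 10 ^ 12 ∧ θ ≤ 1 / 10 ^ 6 ∧ 0 < P.q := by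
  obtain ⟨h1, h2, h3, h4, h5, h6, h7, h8⟩ := N.small
  have e1 := N.th1
  have e2 := N.th2
  have e3 := N.par.q1
  have e4 := N.par.et2
  have e5 := N.hB
  have e6 := N.B0
  unfold th0 at e1 e2 h4 e5
  unfold del1 at h2 e3
  refine ⟨e1, h2, by linarith, e3, h7.trans h8, by linarith, e2, h5⟩

theorem ra_pow {P : Par} {θ d B a : ℝ} (N : Num P θ d B a) {k : ℕ} (hk : k ≤ 11) :
    1000 * (a / d ^ k) ≤ a / d ^ 12 := by
  obtain ⟨-, h2, -⟩ := ra_num N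
  have d0 := N.d0
  have a0 := N.a0
  have e1 : d ^ 11 ≤ d ^ k := pow_le_pow_of_le_one d0.le (by linarith) hk
  have e2 : a / d ^ k ≤ a / d ^ 11 := div_le_div_of_nonneg_left a0.le (by positivity) e1
  have e3 : a / d ^ 11 = a / d ^ 12 * d := by field_simp
  have e4 : 0 < a / d ^ 12 := by positivity
  nlinarith

theorem ra_norm {θ : ℝ} {ξ : ℂ} (h0 : 0 ≤ θ) (h1 : θ ≤ th0) (h : ξ ∈ Sec θ) : ‖ξ‖ ≤ 2 := by
  have := (Sec_norm h0 h1 h).2.1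
  unfold th0 at h1
  linarith

theorem ra_mem {θ Λ : ℝ} {l ξ : ℂ} (h0 : 0 ≤ θ) (h1 : θ ≤ th0) (hΛ : 10 ≤ Λ) (hl : ‖l‖ ≤ 2)
    (h : ξ ∈ Sec θ) : (l, ξ) ∈ G2 θ Λ := by
  refine ⟨h, ?_⟩
  have e := ra_norm h0 h1 h
  have e0 := norm_nonneg ξ
  have e1 : ‖ξ‖ ^ 2 ≤ 4 := by nlinarith
  have e2 : ‖l‖ * ‖ξ‖ ^ 2 ≤ 2 * 4 := mul_le_mul hl e1 (by positivity) (by norm_num)
  show ‖l‖ * ‖ξ‖ ^ 2 < Λ
  linarith

theorem ra_memR {θ Λ s : ℝ} {l : ℂ} (h0 : 0 < θ) (hl : l ∈ ball (0 : ℂ) Λ) (hs : s ∈ Ioc (0 : ℝ) 1) :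
    (l, (s : ℂ)) ∈ G2 θ Λ := by
  refine ⟨Sec_real h0 hs.1 hs.2, ?_⟩
  rw [mem_ball_zero_iff] at hl
  have e : ‖(s : ℂ)‖ ^ 2 ≤ 1 := by
    rw [Complex.norm_real, Real.norm_eq_abs, abs_of_pos hs.1]
    nlinarith [hs.1, hs.2]
  have e2 : ‖l‖ * ‖(s : ℂ)‖ ^ 2 ≤ ‖l‖ * 1 := mul_le_mul_of_nonneg_left e (norm_nonneg _)
  show ‖l‖ * ‖(s : ℂ)‖ ^ 2 < Λ
  linarith

theorem ra_hc2 {θ θ' Λ : ℝ} {T : ℂ → ℂ} (h0 : 0 ≤ θ') (h1 : θ' ≤ θ)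
    (h : DifferentiableOn ℂ T (Sec θ)) : HC (fun p : ℂ × ℂ => T p.2) (G2 θ' Λ) :=
  HC.of_diff (h.comp differentiableOn_snd fun _ hp => Sec_mono h0 h1 hp.1)

theorem ra_re {z : ℂ} (h : z.im = 0) : ((z.re : ℝ) : ℂ) = z := by
  apply Complex.ext <;> simp [h]

theorem ra_nt {t : ℝ} (ht : |t| ≤ 2) : ‖(t : ℂ)‖ ≤ 2 := by
  rwa [Complex.norm_real, Real.norm_eq_abs]

section cap
variable {P : Par} {θ d B a A : ℝ} {u T H e : ℂ → ℂ} {a0 b0 c0 : ℝ} {Tl Hl Wl : ℂ × ℂ → ℂ}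

theorem ra_capR (N : Num P θ d B a) (ci : CapInv P.q θ B u T H e a0 b0 c0)
    (pc : PC P.q (θ - d) (d ^ 4 / a) (d ^ 2) A u T H Tl Hl Wl) {t : ℝ} (ht : |t| ≤ 2) :
    CapR P.q (θ - 2 * d) u (sl Tl t) (sl Hl t) a0 b0 c0 := by
  obtain ⟨n1, n2, n3, n4, n5, n6, n7, n8⟩ := ra_num N
  have d0 := N.d0
  have a0' := N.a0
  have B0 := N.B0
  have t2 := N.th2
  have s1 : Sec (θ - 2 * d) ⊆ Sec (θ - d) := Sec_mono (by linarith) (by linarith)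
  have s2 : Sec (θ - d) ⊆ Sec θ := Sec_mono (by linarith) (by linarith)
  have mem : ∀ ξ ∈ Sec (θ - d), ((t : ℂ), ξ) ∈ G2 (θ - d) (d ^ 4 / a) := fun ξ hξ =>
    ra_mem (by linarith) (by linarith) (by linarith) (ra_nt ht) hξ
  have nm : ∀ ξ ∈ Sec (θ - d), ‖ξ‖ ≤ 2 := fun ξ hξ => ra_norm (by linarith) (by linarith) hξ
  have dT : DifferentiableOn ℂ (sl Tl t) (Sec (θ - d)) := fun ξ hξ =>
    (HC.hasDerivAt2 (isOpen_G2 _ _) pc.hT (mem ξ hξ)).differentiableAt.differentiableWithinAt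
  have dH : DifferentiableOn ℂ (sl Hl t) (Sec (θ - d)) := fun ξ hξ =>
    (HC.hasDerivAt2 (isOpen_G2 _ _) pc.hH (mem ξ hξ)).differentiableAt.differentiableWithinAt
  have dd : d ^ 2 ≤ 1 / 10 ^ 14 := by nlinarith
  have dd0 : 0 ≤ d ^ 2 := by positivity
  have bT : ∀ ξ ∈ Sec (θ - d), ‖sl Tl t ξ - T ξ‖ ≤ 1 / 10 ^ 14 * ‖ξ‖ := fun ξ hξ =>
    (pc.T0 _ (mem ξ hξ)).trans (mul_le_mul_of_nonneg_right dd (norm_nonneg _))
  have bH : ∀ ξ ∈ Sec (θ - d), ‖sl Hl t ξ - H ξ‖ ≤ 1 / 10 ^ 14 * ‖ξ‖ := fun ξ hξ =>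
    (pc.H0 _ (mem ξ hξ)).trans (mul_le_mul_of_nonneg_right (by nlinarith) (norm_nonneg _))
  have tri : ∀ x y z : ℂ, ‖x - z‖ ≤ ‖x - y‖ + ‖y - z‖ := fun x y z => norm_sub_le_norm_sub_add_norm_sub x y z
  have fine : ∀ ξ ∈ Sec (θ - d), ‖sl Tl t ξ - T ξ‖ ≤ 4 * (a / d ^ 2) * ‖ξ‖ ^ 3 := by
    intro ξ hξ
    have hf : HC (fun p : ℂ × ℂ => Tl p - T p.2) (G2 (θ - d) (d ^ 4 / a)) :=
      pc.hT.sub (ra_hc2 (by linarith) (by linarith) ci.dT)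
    have := schwarz_G2 (k := 1) (M := d ^ 2) hf (fun p hp => by simpa using pc.T0 p hp) (mem ξ hξ)
    simp only [pc.Tz ξ hξ, sub_self, sub_zero] at this
    refine this.trans ?_
    have e1 : 2 * d ^ 2 / (d ^ 4 / a) = 2 * (a / d ^ 2) := by field_simp
    rw [e1]
    have e2 : 0 ≤ a / d ^ 2 := by positivity
    have e3 := ra_nt ht
    have e4 : 2 * (a / d ^ 2) * ‖(t : ℂ)‖ ≤ 4 * (a / d ^ 2) := by nlinarith
    exact mul_le_mul_of_nonneg_right e4 (by positivity)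
  refine ⟨ci.du.mono (s1.trans s2), dT.mono s1, dH.mono s1, fun x hx => ci.ru x (s2 (s1 hx)),
    fun x hx => pc.rT t x (mem _ (s1 hx)), fun x hx => pc.rH t x (mem _ (s1 hx)), ?_, ?_, ci.up,
    ?_, ?_, ?_, fun ξ hξ => pc.H1 _ (mem ξ (s1 hξ)), ?_, ?_, ?_⟩
  · intro ξ hξ
    have := ci.u0 ξ (s2 (s1 hξ))
    unfold del1 at this; unfold th0; linarith
  · intro ξ hξ
    have := ci.u1 ξ (s2 (s1 hξ))
    unfold del1 at this; unfold th0; linarith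
  · intro ξ hξ
    have e1 := ci.T0 ξ (s2 (s1 hξ))
    have e2 := bT ξ (s1 hξ)
    have e3 := nm ξ (s1 hξ)
    have e4 := tri (sl Tl t ξ) (T ξ) 1
    unfold del1 at e1; unfold th0; linarith
  · intro ξ hξ
    have e1 := ci.T1 ξ (s2 (s1 hξ))
    have df : DifferentiableOn ℂ (fun ζ => sl Tl t ζ - T ζ) (Sec (θ - d)) := dT.sub (ci.dT.mono s2)
    have hξ' : ξ ∈ Sec (θ - d - d) := by rwa [show θ - d - d = θ - 2 * d by ring]
    have e2 := cauchy_Sec (k := 3) d0 (by linarith) (by linarith) (by norm_num) df fine hξ'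
    have o := isOpen_Sec (θ - d)
    have e3 : deriv (fun ζ => sl Tl t ζ - T ζ) ξ = deriv (sl Tl t) ξ - deriv T ξ :=
      deriv_fun_sub (dT.differentiableAt (o.mem_nhds (s1 hξ)))
        ((ci.dT.mono s2).differentiableAt (o.mem_nhds (s1 hξ)))
    rw [e3] at e2
    have p0 : 0 < ‖ξ‖ := norm_pos_iff.2 (Sec_ne hξ)
    have e4 : 5 * (4 * (a / d ^ 2)) / d * ‖ξ‖ ^ 3 = 20 * (a / d ^ 3) * ‖ξ‖ ^ 2 * ‖ξ‖ := by
      field_simp; ring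
    rw [e4] at e2
    have e5 := le_of_mul_le_mul_right e2 p0
    have e6 := nm ξ (s1 hξ)
    have e7 : ‖ξ‖ ^ 2 ≤ 4 := by nlinarith
    have e8 := ra_pow N (k := 3) (by norm_num)
    have e9 : 0 ≤ a / d ^ 3 := by positivity
    have e10 : 20 * (a / d ^ 3) * ‖ξ‖ ^ 2 ≤ 20 * (a / d ^ 3) * 4 :=
      mul_le_mul_of_nonneg_left e7 (by positivity)
    have e11 := tri (deriv (sl Tl t) ξ) (deriv T ξ) (P.q / 2)
    linarith
  · intro ξ hξ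
    have e1 := ci.H0 ξ (s2 (s1 hξ))
    have e2 := bH ξ (s1 hξ)
    have e3 := nm ξ (s1 hξ)
    have e4 := tri (sl Hl t ξ) (H ξ) 1
    unfold del1 at e1; unfold th0; linarith
  · intro ξ hξ
    have e1 := ci.vu ξ (s2 (s1 hξ))
    have e2 := norm_nonneg ξ
    nlinarith
  · intro ξ hξ
    have e1 := ci.vT ξ (s2 (s1 hξ))
    have e2 := norm_nonneg ξ
    have e3 := bT ξ (s1 hξ)
    have e4 := tri (sl Tl t ξ) (T ξ) b0
    nlinarith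
  · intro ξ hξ
    have e1 := ci.vH ξ (s2 (s1 hξ))
    have e2 := norm_nonneg ξ
    have e3 := bH ξ (s1 hξ)
    have e4 := tri (sl Hl t ξ) (H ξ) c0
    nlinarith

/-- Lipschitz bound in the parameter -/
theorem ra_lip1 {θ Λ M s : ℝ} {f : ℂ × ℂ → ℂ} {g : ℂ → ℂ} (h0 : 0 < θ) (hΛ : 100 ≤ Λ) (M0 : 0 ≤ M)
    (hf : HC f (G2 θ Λ)) (hM : ∀ p ∈ G2 θ Λ, ‖f p - g p.2‖ ≤ M * ‖p.2‖) (hs : s ∈ Ioc (0 : ℝ) 1)
    {t t' : ℝ} (ht : |t| ≤ 2) (ht' : |t'| ≤ 2) :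
    |(f (t, s)).re - (f (t', s)).re| ≤ 5 * M / Λ * |t - t'| := by
  have df : DifferentiableOn ℂ (fun l => f (l, s) - g s) (ball 0 Λ) := fun l hl =>
    ((HC.hasDerivAt1 (isOpen_G2 _ _) hf (ra_memR h0 hl hs)).differentiableAt.sub_const
      _).differentiableWithinAt
  have e : ‖(s : ℂ)‖ ≤ 1 := by
    rw [Complex.norm_real, Real.norm_eq_abs, abs_of_pos hs.1]; exact hs.2
  have bf : ∀ l ∈ ball (0 : ℂ) Λ, ‖f (l, s) - g s‖ ≤ M := fun l hl =>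
    (hM _ (ra_memR h0 hl hs)).trans (mul_le_of_le_one_right M0 e)
  have m : ∀ t : ℝ, |t| ≤ 2 → (t : ℂ) ∈ ball (0 : ℂ) (3 / 4 * Λ) := fun t ht => by
    rw [mem_ball_zero_iff]; have := ra_nt ht; linarith
  have := lip_ball df bf (m t ht) (m t' ht')
  rw [sub_sub_sub_cancel_right, ← Complex.ofReal_sub, Complex.norm_real, Real.norm_eq_abs] at this
  rw [← Complex.sub_re]
  exact (Complex.abs_re_le_norm _).trans this

theorem ra_lip (N : Num P θ d B a) (ci : CapInv P.q θ B u T H e a0 b0 c0)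
    (pc : PC P.q (θ - d) (d ^ 4 / a) (d ^ 2) A u T H Tl Hl Wl) {t t' : ℝ} (ht : |t| ≤ 2)
    (ht' : |t'| ≤ 2) {s : ℝ} (hs : s ∈ Icc (0 : ℝ) 1) :
    |(capOf P.q u (sl Tl t) (sl Hl t) a0 b0 c0).H s -
        (capOf P.q u (sl Tl t') (sl Hl t') a0 b0 c0).H s| ≤ 5 * (a / d ^ 2) * |t - t'| ∧
    |(capOf P.q u (sl Tl t) (sl Hl t) a0 b0 c0).X s -
        (capOf P.q u (sl Tl t') (sl Hl t') a0 b0 c0).X s| ≤ 5 * (a / d ^ 2) * |t - t'| ∧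
    |(capOf P.q u (sl Tl t) (sl Hl t) a0 b0 c0).T s -
        (capOf P.q u (sl Tl t') (sl Hl t') a0 b0 c0).T s| ≤ 5 * (a / d ^ 2) * |t - t'| := by
  obtain ⟨n1, n2, n3, n4, n5, n6, n7, n8⟩ := ra_num N
  have d0 := N.d0
  have a0' := N.a0
  have B0 := N.B0
  have t2 := N.th2
  have K0 : 0 ≤ 5 * (a / d ^ 2) * |t - t'| := by positivity
  rcases hs.1.eq_or_lt with h0 | h0
  · subst h0
    simp only [capOf, rc, le_refl, if_true, sub_self, abs_zero]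
    exact ⟨K0, K0, K0⟩
  have hs' : s ∈ Ioc (0 : ℝ) 1 := ⟨h0, hs.2⟩
  have eT := ra_lip1 (by linarith) n5 (by positivity) pc.hT pc.T0 hs' ht ht'
  have eH := ra_lip1 (by linarith) n5 (by positivity) pc.hH pc.H0 hs' ht ht'
  have e1 : 5 * d ^ 2 / (d ^ 4 / a) = 5 * (a / d ^ 2) := by field_simp
  have e2 : 5 * (P.q * d ^ 2) / (d ^ 4 / a) * |t - t'| = P.q * (5 * (a / d ^ 2) * |t - t'|) := by
    field_simp
  rw [e1] at eT
  rw [e2] at eH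
  have c1 := ra_capR N ci pc ht
  have c2 := ra_capR N ci pc ht'
  have ms : (s : ℂ) ∈ Sec (θ - 2 * d) := Sec_real (by linarith) h0 hs.2
  simp only [capOf, rc, if_neg (not_le.2 h0), sl]
  refine ⟨eH.trans (by nlinarith), ?_, eT⟩
  have b1 : |(Tl (t, s)).re - 1| ≤ th0 := by
    have := (Complex.abs_re_le_norm _).trans (c1.T0 _ ms)
    simpa [sl] using this
  have b2 : |(Tl (t', s)).re - 1| ≤ th0 := by
    have := (Complex.abs_re_le_norm _).trans (c2.T0 _ ms)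
    simpa [sl] using this
  have b3 : |(u s).re - (1 - s)| ≤ th0 := by
    have := (Complex.abs_re_le_norm _).trans (c1.u0 _ ms)
    simpa using this
  unfold th0 at b1 b2 b3
  rw [abs_le] at b1 b2 b3
  have b4 : |(u s).re| ≤ 2 := abs_le.2 ⟨by linarith [hs.2], by linarith⟩
  have b5 : |(Tl (t, s)).re + (Tl (t', s)).re| ≤ 3 := abs_le.2 ⟨by linarith, by linarith⟩
  have e3 : P.q * (u s).re * (Tl (t, s)).re ^ 2 - P.q * (u s).re * (Tl (t', s)).re ^ 2 =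
      P.q * ((u s).re * ((Tl (t, s)).re + (Tl (t', s)).re)) *
        ((Tl (t, s)).re - (Tl (t', s)).re) := by ring
  rw [e3, abs_mul, abs_mul, abs_mul, abs_of_pos n8]
  have b6 : |(u s).re| * |(Tl (t, s)).re + (Tl (t', s)).re| ≤ 2 * 3 :=
    mul_le_mul b4 b5 (abs_nonneg _) (by norm_num)
  have b7 : P.q * (|(u s).re| * |(Tl (t, s)).re + (Tl (t', s)).re|) ≤ 1 := by nlinarith
  exact (mul_le_mul b7 eT (abs_nonneg _) zero_le_one).trans (by rw [one_mul])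

end cap

end Bon3
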