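import Pool.Agent.Lib.MP_3dbf58_gt.RealA1

/-! Criticality integral, second order bound and reparametrisation of one cap. -/

open Set Filter Topology MeasureTheory Metric

noncomputable section

namespace Bon3

theorem ra_Cr {g : ℝ → ℝ} {b p m : Pc} (h : Rep g b p m) {σ y : ℝ} (s0 : 0 ≤ σ)
    (hp : σ * y ^ 2 < 1) :
    Cr g σ y =
      -(∫ s in (0 : ℝ)..1, (m.H s + -y) / Real.sqrt (g (-m.H s) - σ * (m.H s + -y) ^ 2) * m.H' s) +
      (∫ s in (0 : ℝ)..1, (b.H s + y) / Real.sqrt (b.X s - σ * (b.H s + y) ^ 2) * b.H' s) +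
      ∫ s in (0 : ℝ)..1, (p.H s + y) / Real.sqrt (g (p.H s) - σ * (p.H s + y) ^ 2) * p.H' s := by
  have z : ∀ x, g x < 0 → (x + y) / Real.sqrt (g x - σ * (x + y) ^ 2) = 0 := fun x hx => by
    have : 0 ≤ σ * (x + y) ^ 2 := by positivity
    rw [Real.sqrt_eq_zero_of_nonpos (by linarith), div_zero]
  have := h.fit.split (Cr_int h.gok s0 hp) (fun x hx => z x (h.neg_out.1 x hx))
    (fun x hx => z x (h.neg_out.2 x hx))
  unfold Cr
  rw [this, ← intervalIntegral.integral_neg]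
  congr 2
  · refine intervalIntegral.integral_congr fun s _ => ?_
    have e : (-m.H s + y) ^ 2 = (m.H s + -y) ^ 2 := by ring
    simp only [e]
    ring
  · refine intervalIntegral.integral_congr fun s hs => ?_
    rw [uIcc_of_le zero_le_one] at hs
    simp only [(h.tb s hs).1]

theorem ra_tg {q : ℝ} {g : ℝ → ℝ} {u T H f : ℂ → ℂ} {a0 b0 c0 : ℝ}
    (hf : ∀ s ∈ Ioc (0 : ℝ) 1, (f s).im = 0 ∧ (f s).re ∈ Ioc (0 : ℝ) 1)
    (h : Tg g (capOf q u T H a0 b0 c0)) :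
    Tg g (capOf q (fun ξ => u (f ξ)) (fun ξ => T (f ξ)) (fun ξ => H (f ξ)) a0 b0 c0) := by
  intro s hs
  rcases hs.1.eq_or_lt with h0 | h0
  · subst h0
    simpa [capOf, rc] using h 0 hs
  obtain ⟨e1, e2⟩ := hf s ⟨h0, hs.2⟩
  have := h (f s).re ⟨e2.1.le, e2.2⟩
  simp only [capOf, rc, if_neg (not_le.2 h0), if_neg (not_le.2 e2.1), ra_re e1] at this ⊢
  exact this

section cap
variable {P : Par} {θ d B a A : ℝ} {u T H e : ℂ → ℂ} {a0 b0 c0 : ℝ} {Tl Hl Wl : ℂ × ℂ → ℂ}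

theorem ra_capI {θ' θ'' Λ q : ℝ} {φ I : ℂ × ℂ × ℂ → ℂ} {g : ℝ → ℝ} {t x y : ℝ} (t0 : 0 < θ'')
    (c : CapR q θ'' u (sl Tl t) (sl Hl t) a0 b0 c0) (cs : CS q θ' d Λ u e Tl Hl φ I)
    (ht : |t| ≤ 2) (hx : x ≤ 1) (hm : ((t : ℂ), (x : ℂ), (y : ℂ)) ∈ G3 θ' Λ (d / 1000) e)
    {p : Pc} (hp : p = capOf q u (sl Tl t) (sl Hl t) a0 b0 c0) (tg : Tg g p) :
    ∫ s in (0 : ℝ)..1, (p.H s + y) / Real.sqrt (g (p.H s) - q * (1 - x) * (p.H s + y) ^ 2) *
      p.H' s = (I (t, x, y)).re := by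
  rw [(cs.lnk t x y hm ht hx).2.2.2]
  refine intervalIntegral.integral_congr_ae (ae_of_all _ fun s hs => ?_)
  rw [uIoc_of_le zero_le_one] at hs
  rw [(tg s ⟨hs.1.le, hs.2⟩).1]
  subst hp
  have ms : (s : ℂ) ∈ Sec θ'' := Sec_real t0 hs.1 hs.2
  have r1 := c.ru s ms
  have r2 : (Tl (t, s)).im = 0 := c.rT s ms
  have r3 : (Hl (t, s)).im = 0 := c.rH s ms
  have e : q * (Nl u Tl Hl (t, x, y) s).re =
      q * (u s).re * (Tl (t, s)).re ^ 2 - q * (1 - x) * ((Hl (t, s)).re + y) ^ 2 := by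
    simp only [Nl, pow_two, Complex.sub_re, Complex.mul_re, Complex.mul_im, Complex.add_re,
      Complex.add_im, Complex.ofReal_re, Complex.ofReal_im, Complex.one_re, Complex.one_im,
      Complex.sub_im, r1, r2, r3]
    ring
  rw [e]
  simp only [capOf, rc, if_neg (not_le.2 hs.1)]
  rfl

theorem ra_second (N : Num P θ d B a) (ci : CapInv P.q θ B u T H e a0 b0 c0)
    (pc : PC P.q (θ - d) (d ^ 4 / a) (d ^ 2) A u T H Tl Hl Wl) {x : ℝ} (hx : x ∈ Ioc (0 : ℝ) 1) :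
    P.q * (u x).re * ((Tl (1, x)).re ^ 2 - (T x).re ^ 2) +
      2 * (Tl (1, x)).re * ((Hl (1, x)).re - (H x).re) ≤
      2 * P.q * (T x).re * (Wl (0, x)).re + a ^ 2 / d ^ 12 := by
  obtain ⟨n1, n2, n3, n4, n5, n6, n7, n8⟩ := ra_num N
  have d0 := N.d0
  have a0' := N.a0
  have B0 := N.B0
  have t0 : 0 < θ - d := by linarith
  have mem : ∀ l ∈ ball (0 : ℂ) (d ^ 4 / a), (l, (x : ℂ)) ∈ G2 (θ - d) (d ^ 4 / a) := fun l hl =>
    ra_memR t0 hl hx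
  have ms : (x : ℂ) ∈ Sec (θ - d) := Sec_real t0 hx.1 hx.2
  have ms' : (x : ℂ) ∈ Sec θ := Sec_real (by linarith) hx.1 hx.2
  let φ : ℂ → ℂ := fun l => P.q * u x * (Tl (l, x) ^ 2 - T x ^ 2) + 2 * Tl (l, x) * (Hl (l, x) - H x)
  have hd : ∀ l ∈ ball (0 : ℂ) (d ^ 4 / a), HasDerivAt φ
      (P.q * u x * (2 * Tl (l, x) * d1 Tl (l, x)) +
        (2 * d1 Tl (l, x) * (Hl (l, x) - H x) + 2 * Tl (l, x) * d1 Hl (l, x))) l := by
    intro l hl
    have hT : HasDerivAt (fun l => Tl (l, (x : ℂ))) (d1 Tl (l, x)) l :=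
      HC.hasDerivAt1 (isOpen_G2 _ _) pc.hT (mem l hl)
    have hH : HasDerivAt (fun l => Hl (l, (x : ℂ))) (d1 Hl (l, x)) l :=
      HC.hasDerivAt1 (isOpen_G2 _ _) pc.hH (mem l hl)
    have := (((hT.fun_pow 2).sub_const (T x ^ 2)).const_mul (P.q * u x)).fun_add
      ((hT.const_mul 2).fun_mul (hH.sub_const (H x)))
    refine this.congr_deriv ?_
    simp
  have nx : ‖(x : ℂ)‖ ≤ 1 := by
    rw [Complex.norm_real, Real.norm_eq_abs, abs_of_pos hx.1]; exact hx.2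
  have dd : d ^ 2 ≤ 1 := by nlinarith
  have bT : ‖T x‖ ≤ 2 := by
    have e1 := ci.T0 _ ms'
    have e2 := norm_le_norm_add_norm_sub' (T x) 1
    rw [norm_one] at e2
    unfold del1 at e1
    linarith
  have bu : ‖u x‖ ≤ 2 := by
    have e1 := ci.u0 _ ms'
    have e2 := norm_le_norm_add_norm_sub' (u x) (1 - x)
    have e3 : ‖(1 : ℂ) - x‖ ≤ 1 := by
      rw [← Complex.ofReal_one, ← Complex.ofReal_sub, Complex.norm_real, Real.norm_eq_abs,
        abs_of_nonneg (by linarith [hx.2])]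
      linarith [hx.1]
    unfold del1 at e1
    linarith
  have hb : ∀ l ∈ ball (0 : ℂ) (d ^ 4 / a), ‖φ l‖ ≤ 1 := by
    intro l hl
    have e1 : ‖Tl (l, x) - T x‖ ≤ 1 :=
      (pc.T0 _ (mem l hl)).trans (mul_le_one₀ dd (norm_nonneg _) nx)
    have e2 : ‖Hl (l, x) - H x‖ ≤ P.q := by
      refine (pc.H0 _ (mem l hl)).trans ?_
      rw [mul_assoc]
      exact mul_le_of_le_one_right n8.le (mul_le_one₀ dd (norm_nonneg _) nx)
    have e3 : ‖Tl (l, x)‖ ≤ 3 := by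
      have := norm_le_norm_add_norm_sub' (Tl (l, x)) (T x)
      linarith
    have e4 : ‖Tl (l, x) ^ 2 - T x ^ 2‖ ≤ 5 * 1 := by
      rw [sq_sub_sq, norm_mul]
      exact mul_le_mul ((norm_add_le _ _).trans (by linarith)) e1 (norm_nonneg _) (by norm_num)
    have e5 : ‖(P.q : ℂ) * u x * (Tl (l, x) ^ 2 - T x ^ 2)‖ ≤ P.q * 2 * (5 * 1) := by
      rw [norm_mul, norm_mul, Complex.norm_real, Real.norm_eq_abs, abs_of_pos n8]
      gcongr
    have e6 : ‖2 * Tl (l, x) * (Hl (l, x) - H x)‖ ≤ 2 * 3 * P.q := by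
      rw [norm_mul, norm_mul, Complex.norm_two]
      gcongr
    exact (norm_add_le _ _).trans (by linarith)
  have m0 : (0 : ℂ) ∈ ball (0 : ℂ) (d ^ 4 / a) := mem_ball_self (by linarith)
  have m1 : (1 : ℂ) ∈ ball (0 : ℂ) (d ^ 4 / a) := by
    rw [mem_ball_zero_iff, norm_one]; linarith
  have key := schwarz2 (fun l hl => (hd l hl).differentiableAt.differentiableWithinAt) hb
    (by linarith)
  rw [(hd 0 m0).deriv, pc.Hl1 _ (mem 0 m0)] at key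
  simp only [φ, pc.Tz _ ms, pc.Hz _ ms] at key
  have r1 := ci.ru x ms'
  have r2 := ci.rT x ms'
  have r3 := ci.rH x ms'
  have r4 : (Tl (1, x)).im = 0 := pc.rT 1 x (mem _ m1)
  have r5 : (Hl (1, x)).im = 0 := pc.rH 1 x (mem _ m1)
  have k2 := (Complex.re_le_norm _).trans key
  have e1 : 16 * 1 / (d ^ 4 / a) ^ 2 = a ^ 2 / d ^ 12 * (16 * d ^ 4) := by field_simp
  have e2 : 16 * d ^ 4 ≤ 1 := by nlinarith
  have e3 : a ^ 2 / d ^ 12 * (16 * d ^ 4) ≤ a ^ 2 / d ^ 12 :=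
    mul_le_of_le_one_right (by positivity) e2
  have e4 : (P.q : ℂ) * u x * (Tl (1, x) ^ 2 - T x ^ 2) + 2 * Tl (1, x) * (Hl (1, x) - H x) -
      (P.q * u x * (T x ^ 2 - T x ^ 2) + 2 * T x * (H x - H x)) -
      (P.q * u x * (2 * T x * d1 Tl (0, x)) + (2 * d1 Tl (0, x) * (H x - H x) +
        2 * T x * (P.q * (Wl (0, x) - u x * d1 Tl (0, x))))) =
      P.q * u x * (Tl (1, x) ^ 2 - T x ^ 2) + 2 * Tl (1, x) * (Hl (1, x) - H x) -
        2 * P.q * T x * Wl (0, x) := by ring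
  rw [e4] at k2
  replace k2 := k2.trans (e1.le.trans e3)
  generalize a ^ 2 / d ^ 12 = K at k2 ⊢
  simp only [pow_two, Complex.sub_re, Complex.mul_re, Complex.mul_im, Complex.add_re,
    Complex.ofReal_re, Complex.ofReal_im, Complex.re_ofNat, Complex.im_ofNat,
    Complex.sub_im, r1, r2, r3, r4, r5] at k2
  linarith

end cap

end Bon3
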