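import Pool.Agent.Lib.MP_3dbf58_gt.Defs

/-! Tools: the triangle, one complex variable, square roots. -/

open Set Filter Topology MeasureTheory Metric

noncomputable section

namespace Bon3

/-! ### The triangle -/

theorem isOpen_Sec (θ : ℝ) : IsOpen (Sec θ) :=
  (isOpen_lt (f := fun ξ : ℂ => |ξ.im|) (g := fun ξ => θ * ξ.re) (by fun_prop) (by fun_prop)).inter
    (isOpen_lt (f := fun ξ : ℂ => ξ.re) (g := fun _ => 1 + θ) (by fun_prop) (by fun_prop))
theorem convex_Sec (θ : ℝ) : Convex ℝ (Sec θ) := by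
  have e : Sec θ = {ξ : ℂ | ξ.im - θ * ξ.re < 0} ∩ ({ξ : ℂ | -ξ.im - θ * ξ.re < 0} ∩
      {ξ : ℂ | ξ.re < 1 + θ}) := by
    ext ξ
    simp only [Sec, mem_ofPred_eq, mem_inter_iff, abs_lt]
    constructor
    · rintro ⟨⟨a, b⟩, c⟩; exact ⟨by linarith, by linarith, c⟩
    · rintro ⟨a, b, c⟩; exact ⟨⟨by linarith, by linarith⟩, c⟩
  rw [e]
  refine (convex_halfSpace_lt ⟨fun x y => ?_, fun c x => ?_⟩ _).inter
    ((convex_halfSpace_lt ⟨fun x y => ?_, fun c x => ?_⟩ _).inter (convex_halfSpace_re_lt _)) <;>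
    simp <;> ring
theorem pos_of_mul_pos_of_nonneg_left_TA {a b : ℝ} (h : 0 < a * b) (h0 : 0 ≤ a) : 0 < b :=
  not_le.1 fun e => (mul_nonpos_of_nonneg_of_nonpos h0 e).not_gt h
theorem Sec_re_pos {θ : ℝ} {ξ : ℂ} (h0 : 0 ≤ θ) (h : ξ ∈ Sec θ) : 0 < ξ.re :=
  pos_of_mul_pos_of_nonneg_left_TA ((abs_nonneg _).trans_lt h.1) h0
theorem Sec_ne {θ : ℝ} {ξ : ℂ} (h : ξ ∈ Sec θ) : ξ ≠ 0 := fun e => by
  have := h.1
  simp [e] at this
theorem Sec_mono {θ θ' : ℝ} (h0 : 0 ≤ θ') (h : θ' ≤ θ) : Sec θ' ⊆ Sec θ := fun _ a =>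
  ⟨a.1.trans_le (mul_le_mul_of_nonneg_right h (Sec_re_pos h0 a).le), by linarith [a.2]⟩
theorem Sec_smul {θ : ℝ} {ξ : ℂ} (h0 : 0 ≤ θ) (h : ξ ∈ Sec θ) {v : ℝ} (v0 : 0 < v) (v1 : v ≤ 1) :
    (v : ℂ) * ξ ∈ Sec θ := by
  have a := Sec_re_pos h0 h
  refine ⟨?_, ?_⟩
  · rw [Complex.im_ofReal_mul, Complex.re_ofReal_mul, abs_mul, abs_of_pos v0, mul_left_comm]
    exact mul_lt_mul_of_pos_left h.1 v0
  · rw [Complex.re_ofReal_mul]
    nlinarith [h.2]
theorem Sec_real {θ x : ℝ} (h0 : 0 < θ) (x0 : 0 < x) (x1 : x ≤ 1) : (x : ℂ) ∈ Sec θ :=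
  ⟨by simpa using mul_pos h0 x0, by simpa using by linarith⟩
theorem Sec_norm {θ : ℝ} {ξ : ℂ} (h0 : 0 ≤ θ) (h1 : θ ≤ th0) (h : ξ ∈ Sec θ) :
    ‖ξ‖ ≤ (1 + θ) * ξ.re ∧ ‖ξ‖ ≤ 1 + 3 * θ ∧ ‖1 - ξ‖ ≤ 1 + 2 * θ ∧
      ‖1 - ξ‖ ≤ |1 - ξ.re| + 2 * θ := by
  have a := Sec_re_pos h0 h
  have t : θ ≤ 1 := h1.trans (by norm_num [th0])
  have b := Complex.norm_le_abs_re_add_abs_im ξ
  have c := Complex.norm_le_abs_re_add_abs_im (1 - ξ)
  rw [abs_of_pos a] at b
  simp only [Complex.sub_re, Complex.one_re, Complex.sub_im, Complex.one_im, zero_sub, abs_neg] at c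
  obtain ⟨h2, h3⟩ := h
  have d : |1 - ξ.re| ≤ 1 := abs_le.2 ⟨by linarith, by linarith⟩
  have e : θ * ξ.re ≤ 2 * θ := by nlinarith
  exact ⟨by linarith, by nlinarith, by linarith, by linarith⟩
theorem Sec_ball {θ d : ℝ} {ξ : ℂ} (d0 : 0 < d) (hd : d ≤ θ) (h1 : θ ≤ th0) (h : ξ ∈ Sec (θ - d)) :
    closedBall ξ (d / 4 * ‖ξ‖) ⊆ Sec θ := fun ζ hζ => by
  have t : θ ≤ 1 / 100 := h1.trans (by norm_num [th0])
  have a := Sec_re_pos (by linarith) h
  obtain ⟨n1, n2, -⟩ := Sec_norm (by linarith) (by linarith) h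
  rw [mem_closedBall, dist_eq_norm] at hζ
  have b := abs_le.1 ((Complex.abs_re_le_norm _).trans hζ)
  have c := (Complex.abs_im_le_norm _).trans hζ
  rw [Complex.sub_re] at b
  rw [Complex.sub_im] at c
  have e := abs_sub_abs_le_abs_sub ζ.im ξ.im
  have n3 : ‖ξ‖ ≤ 2 * ξ.re := by nlinarith
  have n4 := mul_le_mul_of_nonneg_left n3 d0.le
  have n5 := mul_le_mul_of_nonneg_left (show ‖ξ‖ ≤ 2 by linarith) d0.le
  have n6 := mul_le_mul_of_nonneg_left b.1 (show 0 ≤ θ by linarith)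
  have n7 := mul_le_mul_of_nonneg_right t (show 0 ≤ d * ‖ξ‖ by positivity)
  have n8 := mul_pos d0 a
  exact ⟨by nlinarith [h.1], by linarith [h.2, b.2]⟩
theorem isOpen_G1 (θ Λ : ℝ) : IsOpen (G1 θ Λ) :=
  ((isOpen_Sec θ).preimage continuous_snd).inter
    (isOpen_lt (f := fun p : ℂ × ℂ => ‖p.1‖ * ‖p.2‖) (by fun_prop) continuous_const)
theorem isOpen_G2 (θ Λ : ℝ) : IsOpen (G2 θ Λ) :=
  ((isOpen_Sec θ).preimage continuous_snd).inter
    (isOpen_lt (f := fun p : ℂ × ℂ => ‖p.1‖ * ‖p.2‖ ^ 2) (by fun_prop) continuous_const)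

/-- Cauchy estimate -/
theorem cauchy_Sec {θ d M : ℝ} {k : ℕ} {f : ℂ → ℂ} (d0 : 0 < d) (hd : d ≤ θ) (h1 : θ ≤ th0)
    (hk : k ≤ 5) (hf : DifferentiableOn ℂ f (Sec θ)) (hM : ∀ ζ ∈ Sec θ, ‖f ζ‖ ≤ M * ‖ζ‖ ^ k)
    {ξ : ℂ} (h : ξ ∈ Sec (θ - d)) : ‖deriv f ξ‖ * ‖ξ‖ ≤ 5 * M / d * ‖ξ‖ ^ k := by
  have x0 := norm_pos_iff.2 (Sec_ne h)
  have s := Sec_ball d0 hd h1 h
  have t : d ≤ 1 / 100 := (hd.trans h1).trans (by norm_num [th0])
  have M0 : 0 ≤ M := by
    have := (norm_nonneg _).trans (hM ξ (s (mem_closedBall_self (by positivity))))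
    exact nonneg_of_mul_nonneg_left this (by positivity)
  have := Complex.norm_deriv_le_of_forall_mem_sphere_norm_le (C := M * (5 / 4 * ‖ξ‖ ^ k))
    (show 0 < d / 4 * ‖ξ‖ by positivity) (hf.diffContOnCl_ball s) fun z hz => by
      refine (hM z (s (sphere_subset_closedBall hz))).trans (mul_le_mul_of_nonneg_left ?_ M0)
      have a : ‖z‖ ≤ 1.01 * ‖ξ‖ := by
        have := norm_le_norm_add_norm_sub' z ξ
        rw [mem_sphere_iff_norm.1 hz] at this
        nlinarith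
      refine (pow_le_pow_left₀ (norm_nonneg _) a k).trans ?_
      rw [mul_pow]
      exact mul_le_mul_of_nonneg_right ((pow_le_pow_right₀ (by norm_num) hk).trans (by norm_num))
        (by positivity)
  refine (mul_le_mul_of_nonneg_right this x0.le).trans_eq ?_
  field_simp

theorem Rl.deriv {θ : ℝ} {f : ℂ → ℂ} (hf : DifferentiableOn ℂ f (Sec θ)) (h : Rl f θ) :
    Rl (deriv f) θ := fun x hx => by
  have n := (isOpen_Sec θ).mem_nhds hx
  have a := Complex.imCLM.hasFDerivAt.comp_hasDerivAt x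
    (hf.differentiableAt n).hasDerivAt.comp_ofReal
  exact a.unique ((hasDerivAt_const x 0).congr_of_eventuallyEq
    (mem_of_superset (Complex.continuous_ofReal.continuousAt n) fun t ht => h t ht))
/-- real trace of a holomorphic function -/
theorem hasDerivAt_re {f : ℂ → ℂ} {f' : ℂ} {x : ℝ} (h : HasDerivAt f f' x) :
    HasDerivAt (fun t : ℝ => (f t).re) f'.re x := h.real_of_complex

/-- the map `U` keeps every triangle -/
theorem U_maps {θ θ' η μ0 B : ℝ} {U : ℂ → ℂ} (t1 : th0 / 2 ≤ θ') (t2 : θ' ≤ θ) (t3 : θ ≤ th0)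
    (e1 : 0 < η) (e2 : η ≤ th0) (mu : |μ0 - 2 * kap * η| ≤ th0 * η) (hB : B ≤ th0 ^ 2 * η)
    (hU : ∀ ξ ∈ Sec θ, ‖U ξ - ξ - μ0 * ξ * (1 - ξ)‖ ≤ B * ‖ξ‖ ^ 2) {ξ : ℂ} (h : ξ ∈ Sec θ') :
    U ξ ∈ Sec θ' ∧ ‖U ξ‖ ≤ (1 + η) * ‖ξ‖ := by
  have s0 : (0 : ℝ) < th0 := by norm_num [th0]
  have s1 : th0 ≤ 1 / 1000 := by norm_num [th0]
  have a0 := Sec_re_pos (by linarith) h
  obtain ⟨n1, n2, n3, -⟩ := Sec_norm (by linarith) (by linarith) h
  have r := hU ξ (Sec_mono (by linarith) t2 h)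
  have m := abs_le.1 mu
  have e3 := mul_le_mul_of_nonneg_right s1 e1.le
  have m1 : η / 16 ≤ μ0 := by unfold kap at m; linarith [m.1]
  have m2 : μ0 ≤ η / 14 := by unfold kap at m; linarith [m.2]
  have x0 := norm_nonneg ξ
  have r1 : B * ‖ξ‖ ^ 2 ≤ th0 ^ 2 * η * ‖ξ‖ ^ 2 := mul_le_mul_of_nonneg_right hB (by positivity)
  refine ⟨?_, ?_⟩
  · obtain ⟨h1, h2⟩ := h
    have r2 : th0 ^ 2 * η ≤ μ0 * θ' / 20 := by
      have := mul_le_mul m1 t1 (by positivity) (by linarith)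
      nlinarith [mul_pos s0 e1]
    have r3 : ‖ξ‖ ^ 2 ≤ 2 * ξ.re ^ 2 := by
      have := pow_le_pow_left₀ x0 (n1.trans (mul_le_mul_of_nonneg_right
        (show 1 + θ' ≤ 1.1 by linarith) a0.le)) 2
      nlinarith
    have k0 : 0 < μ0 * θ' * ξ.re := by have : 0 < θ' := by linarith
                                       have : 0 < μ0 := by linarith
                                       positivity
    have r4 : ‖U ξ - ξ - μ0 * ξ * (1 - ξ)‖ ≤ μ0 * θ' * ξ.re ^ 2 / 10 := by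
      have := mul_le_mul r2 r3 (by positivity) (by nlinarith)
      linarith
    have b := abs_le.1 ((Complex.abs_re_le_norm _).trans r4)
    have c := (Complex.abs_im_le_norm _).trans r4
    simp only [Complex.sub_re, Complex.mul_re, Complex.ofReal_re, Complex.ofReal_im, Complex.one_re,
      Complex.sub_im, Complex.mul_im, Complex.one_im, zero_mul, sub_zero, zero_sub, add_zero] at b c
    have c0 : 0 ≤ 1 + μ0 - 2 * μ0 * ξ.re := by nlinarith
    have c1 : |(U ξ).im| ≤ |ξ.im| * (1 + μ0 - 2 * μ0 * ξ.re) + μ0 * θ' * ξ.re ^ 2 / 10 := by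
      have := abs_sub_abs_le_abs_sub (U ξ).im (ξ.im * (1 + μ0 - 2 * μ0 * ξ.re))
      rw [abs_mul, abs_of_nonneg c0] at this
      rw [show (U ξ).im - ξ.im - (μ0 * ξ.re * -ξ.im + μ0 * ξ.im * (1 - ξ.re)) =
        (U ξ).im - ξ.im * (1 + μ0 - 2 * μ0 * ξ.re) by ring] at c
      linarith
    have q1 : ξ.im ^ 2 ≤ (θ' * ξ.re) ^ 2 := by
      rw [← sq_abs]; exact pow_le_pow_left₀ (abs_nonneg _) h1.le 2
    have k1 := mul_pos k0 a0
    refine ⟨?_, ?_⟩
    · have d1 := mul_le_mul_of_nonneg_right h1.le c0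
      have d2 := mul_le_mul_of_nonneg_left b.1 (show 0 ≤ θ' by linarith)
      have d3 : 0 ≤ θ' * (μ0 * ξ.im ^ 2) := by have : 0 < θ' := by linarith
                                               have : 0 < μ0 := by linarith
                                               positivity
      have d4 := mul_le_mul_of_nonneg_right (show θ' ≤ 1 by linarith) k1.le
      nlinarith
    · have d1 : 0 ≤ (1 + θ' - ξ.re) * (1 - μ0 * ξ.re) := mul_nonneg (by linarith) (by nlinarith)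
      have d2 := mul_le_mul_of_nonneg_left q1 (show 0 ≤ μ0 by linarith)
      have d3 := mul_le_mul_of_nonneg_left (show θ' * ξ.re ≤ 1 / 2 by nlinarith) k0.le
      have d4 := mul_le_mul_of_nonneg_left (show ξ.re ≤ 2 by linarith) k0.le
      nlinarith [b.2]
  · have a1 : ‖U ξ‖ ≤ ‖U ξ - ξ - μ0 * ξ * (1 - ξ)‖ + ‖ξ‖ + μ0 * ‖ξ‖ * ‖1 - ξ‖ := by
      have := norm_add₃_le (a := U ξ - ξ - μ0 * ξ * (1 - ξ)) (b := ξ) (c := μ0 * ξ * (1 - ξ))
      rw [norm_mul, norm_mul, Complex.norm_real, Real.norm_of_nonneg (by linarith)] at this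
      exact (le_of_eq (congrArg norm (by ring))).trans this
    have a2 := mul_le_mul (mul_le_mul_of_nonneg_right m2 x0) (show ‖1 - ξ‖ ≤ 2 by linarith)
      (norm_nonneg _) (by positivity)
    have a3 : th0 ^ 2 * ‖ξ‖ ≤ 1 / 2 := by nlinarith
    have a4 := mul_le_mul_of_nonneg_right a3 (show 0 ≤ η * ‖ξ‖ by positivity)
    nlinarith [mul_nonneg e1.le x0]

/-! ### One variable -/

theorem maps_TA {f : ℂ → ℂ} {R M : ℝ} (hM : ∀ s ∈ ball (0 : ℂ) R, ‖f s‖ ≤ M) (R0 : 0 < R) :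
    MapsTo f (ball 0 R) (closedBall (f 0) (2 * M)) := fun s hs =>
  mem_closedBall_iff_norm.2 ((norm_sub_le_of_le (hM s hs) (hM 0 (mem_ball_self R0))).trans_eq
    (two_mul _).symm)
theorem schwarz1 {f : ℂ → ℂ} {R M : ℝ} {z : ℂ} (hf : DifferentiableOn ℂ f (ball 0 R))
    (hM : ∀ s ∈ ball (0 : ℂ) R, ‖f s‖ ≤ M) (hz : ‖z‖ < R) : ‖f z - f 0‖ ≤ 2 * M / R * ‖z‖ := by
  simpa [dist_eq_norm] using Complex.dist_le_div_mul_dist_of_mapsTo_ball hf
    (maps_TA hM ((norm_nonneg _).trans_lt hz)) (mem_ball_zero_iff.2 hz)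
theorem schwarz2 {f : ℂ → ℂ} {R M : ℝ} (hf : DifferentiableOn ℂ f (ball 0 R))
    (hM : ∀ s ∈ ball (0 : ℂ) R, ‖f s‖ ≤ M) (hR : 2 ≤ R) :
    ‖f 1 - f 0 - deriv f 0‖ ≤ 16 * M / R ^ 2 := by
  have R0 : 0 < R := by linarith
  have M0 := (norm_nonneg _).trans (hM 0 (mem_ball_self R0))
  have := schwarz1 (z := 1) ((Complex.differentiableOn_dslope (ball_mem_nhds _ R0)).2 hf)
    (fun s hs => Complex.norm_dslope_le_div_of_mapsTo_ball hf (maps_TA hM R0) hs)
    (by rw [norm_one]; linarith)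
  rw [dslope_same, dslope_of_ne _ one_ne_zero, slope_def_module, sub_zero, inv_one, one_smul,
    norm_one, mul_one] at this
  refine this.trans ?_
  rw [show 2 * (2 * M / R) / R = 4 * M / R ^ 2 by field_simp; ring]
  gcongr
  norm_num
theorem lip_ball {f : ℂ → ℂ} {c : ℂ} {R M : ℝ} (hf : DifferentiableOn ℂ f (ball c R))
    (hM : ∀ s ∈ ball c R, ‖f s‖ ≤ M) {y y' : ℂ} (hy : y ∈ ball c (3 / 4 * R))
    (hy' : y' ∈ ball c (3 / 4 * R)) : ‖f y - f y'‖ ≤ 5 * M / R * ‖y - y'‖ := by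
  have R0 : 0 < R := by linarith [nonempty_ball.1 ⟨y, hy⟩]
  have s : ∀ w ∈ ball c (3 / 4 * R), closedBall w (R / 5) ⊆ ball c R := fun w hw =>
    closedBall_subset_ball' (by linarith [mem_ball.1 hw])
  refine (convex_ball c _).norm_image_sub_le_of_norm_deriv_le (fun w hw => hf.differentiableAt
    (isOpen_ball.mem_nhds (s w hw (mem_closedBall_self (by positivity))))) (fun w hw => ?_) hy' hy
  refine (Complex.norm_deriv_le_of_forall_mem_sphere_norm_le (by positivity)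
    (hf.diffContOnCl_ball (s w hw)) fun z hz => hM z (s w hw (sphere_subset_closedBall hz))).trans_eq ?_
  field_simp

theorem prim_hasDerivAt {θ M : ℝ} {f : ℂ → ℂ} (h0 : 0 ≤ θ) {O : Set ℂ} (hO : IsOpen O)
    (hs : O ⊆ Sec θ) (st : ∀ ξ ∈ O, ∀ v : ℝ, 0 < v → v ≤ 1 → (v : ℂ) * ξ ∈ O)
    (hf : DifferentiableOn ℂ f O) (hM : ∀ ζ ∈ O, ‖f ζ‖ ≤ M) {ξ : ℂ} (h : ξ ∈ O) :
    HasDerivAt (prim f) (f ξ) ξ := by
  obtain ⟨r, r0, hr⟩ := Metric.isOpen_iff.1 hO ξ h
  have M0 := (norm_nonneg _).trans (hM ξ h)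
  have c : ∀ {g : ℂ → ℂ}, ContinuousOn g O → ∀ z ∈ O,
      ContinuousOn (fun v : ℝ => g (v * z)) (Ioo 0 1) := fun hg z hz =>
    hg.comp (by fun_prop) fun v hv => st z hz v hv.1 hv.2.le
  have d : ∀ z ∈ O, HasDerivAt f (deriv f z) z := fun z hz =>
    (hf.differentiableAt (hO.mem_nhds hz)).hasDerivAt
  have key := hasDerivAt_integral_of_dominated_loc_of_lip (μ := volume.restrict (Ioo 0 1))
    (F := fun z (v : ℝ) => z * f (v * z)) (F' := fun v => f (v * ξ) + v * (deriv f (v * ξ) * ξ))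
    (bound := fun _ => 5 * ((‖ξ‖ + r) * M) / r) (s := ball ξ (3 / 4 * r))
    (ball_mem_nhds ξ (by positivity))
    (mem_of_superset (hO.mem_nhds h) fun z hz => (continuousOn_const.mul
      (c hf.continuousOn z hz)).aestronglyMeasurable measurableSet_Ioo)
    (.of_bound ((continuousOn_const.mul (c hf.continuousOn ξ h)).aestronglyMeasurable
      measurableSet_Ioo) (‖ξ‖ * M) ((ae_restrict_mem measurableSet_Ioo).mono fun v hv => by
        rw [norm_mul]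
        exact mul_le_mul_of_nonneg_left (hM _ (st ξ h v hv.1 hv.2.le)) (norm_nonneg _)))
    (((c hf.continuousOn ξ h).add (Complex.continuous_ofReal.continuousOn.mul
      ((c (hf.deriv hO).continuousOn ξ h).mul continuousOn_const))).aestronglyMeasurable
        measurableSet_Ioo)
    ((ae_restrict_mem measurableSet_Ioo).mono fun v hv => .of_dist_le_mul fun y hy y' hy' => by
      rw [dist_eq_norm, dist_eq_norm, Real.coe_nnabs, abs_of_nonneg (by positivity)]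
      refine lip_ball (f := fun z => z * f (v * z)) (differentiableOn_id.mul (hf.comp (by fun_prop)
        fun z hz => st z (hr hz) v hv.1 hv.2.le)) (fun z hz => ?_) hy hy'
      rw [norm_mul]
      exact mul_le_mul (by linarith [norm_le_norm_add_norm_sub' z ξ, mem_ball_iff_norm.1 hz])
        (hM _ (st z (hr hz) v hv.1 hv.2.le)) (norm_nonneg _) (by positivity))
    (integrable_const _)
    ((ae_restrict_mem measurableSet_Ioo).mono fun v hv => ((hasDerivAt_id' ξ).fun_mul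
      ((d _ (st ξ h v hv.1 hv.2.le)).comp ξ ((hasDerivAt_id' ξ).const_mul (v : ℂ)))).congr_deriv
        (by simp only [Function.comp]; ring))
  have ftc := intervalIntegral.integral_eq_sub_of_hasDerivAt_of_tendsto zero_lt_one
    (f := fun v : ℝ => (v : ℂ) * f (v * ξ)) (f' := fun v => f (v * ξ) + v * (deriv f (v * ξ) * ξ))
    (fa := 0) (fb := f ξ)
    (fun v hv => (((hasDerivAt_id' (v : ℂ)).fun_mul ((d _ (st ξ h v hv.1 hv.2.le)).comp (v : ℂ)
      ((hasDerivAt_id' (v : ℂ)).mul_const ξ))).congr_deriv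
        (by simp only [Function.comp]; ring)).comp_ofReal)
    ((intervalIntegrable_iff_integrableOn_Ioo_of_le zero_le_one).2 key.1) ?_ ?_
  · rw [intervalIntegral.integral_of_le zero_le_one, integral_Ioc_eq_integral_Ioo, sub_zero] at ftc
    have k := key.2
    simp only [integral_const_mul, ftc] at k
    exact k
  · refine squeeze_zero_norm' (a := fun v : ℝ => v * M) ((Ioo_mem_nhdsGT zero_lt_one : _ ∈ _)
      |> mem_of_superset <| fun v hv => ?_) (((continuous_mul_const M).tendsto' 0 0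
        (zero_mul M)).mono_left nhdsWithin_le_nhds)
    rw [mem_ofPred_eq, norm_mul, Complex.norm_real, Real.norm_of_nonneg hv.1.le]
    exact mul_le_mul_of_nonneg_left (hM _ (st ξ h v hv.1 hv.2.le)) hv.1.le
  · have a : ContinuousAt (fun v : ℝ => (v : ℂ) * f (v * ξ)) 1 :=
      Complex.continuous_ofReal.continuousAt.mul ((d ξ h).continuousAt.comp_of_eq
        (f := fun v : ℝ => (v : ℂ) * ξ) (by fun_prop) (by simp))
    simpa using a.tendsto.mono_left (nhdsWithin_le_nhds (s := Iio 1))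
theorem prim_norm {M : ℝ} {k : ℕ} {f : ℂ → ℂ} {ξ : ℂ}
    (hM : ∀ v : ℝ, 0 < v → v < 1 → ‖f (v * ξ)‖ ≤ M * ‖(v : ℂ) * ξ‖ ^ k) :
    ‖prim f ξ‖ ≤ M / (k + 1) * ‖ξ‖ ^ (k + 1) := by
  have := norm_integral_le_of_norm_le (μ := volume.restrict (Ioo (0 : ℝ) 1))
    (f := fun v : ℝ => f (v * ξ)) (g := fun v => M * ‖ξ‖ ^ k * v ^ k)
    ((intervalIntegrable_iff_integrableOn_Ioo_of_le zero_le_one).1
      (Continuous.intervalIntegrable (by fun_prop) _ _))
    ((ae_restrict_mem measurableSet_Ioo).mono fun v hv => (hM v hv.1 hv.2).trans_eq (by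
      rw [norm_mul, Complex.norm_real, Real.norm_of_nonneg hv.1.le]; ring))
  rw [integral_const_mul, ← integral_Ioc_eq_integral_Ioo (f := fun v : ℝ => v ^ k),
    ← intervalIntegral.integral_of_le zero_le_one, integral_pow] at this
  rw [prim, norm_mul]
  refine (mul_le_mul_of_nonneg_left this (norm_nonneg _)).trans_eq ?_
  simp only [one_pow, ne_eq, Nat.add_eq_zero_iff, one_ne_zero, and_false, not_false_eq_true,
    zero_pow]
  ring
theorem prim_real {f : ℂ → ℂ} {x : ℝ} (h : ∀ v : ℝ, 0 < v → v < 1 → (f (v * x)).im = 0) :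
    (prim f x).im = 0 := by
  rw [prim, setIntegral_congr_fun measurableSet_Ioo (g := fun v : ℝ => ((f (v * x)).re : ℂ))
    fun v hv => Complex.ext (by simp) (by simp [h v hv.1 hv.2]), integral_complex_ofReal, ← Complex.ofReal_mul,
    Complex.ofReal_im]
/-- two functions with the same derivative that vanish at the vertex agree -/
theorem eq_of_deriv_Sec {θ M : ℝ} {f g : ℂ → ℂ} (h0 : 0 < θ)
    (hf : DifferentiableOn ℂ f (Sec θ)) (hg : DifferentiableOn ℂ g (Sec θ))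
    (h : ∀ ξ ∈ Sec θ, deriv f ξ = deriv g ξ) (hM : ∀ ξ ∈ Sec θ, ‖f ξ - g ξ‖ ≤ M * ‖ξ‖) :
    EqOn f g (Sec θ) := by
  have o := isOpen_Sec θ
  obtain ⟨c, hc⟩ := o.exists_is_const_of_deriv_eq_zero (convex_Sec θ).isPreconnected (hf.sub hg)
    fun ξ a => by
      rw [deriv_sub (hf.differentiableAt (o.mem_nhds a)) (hg.differentiableAt (o.mem_nhds a)),
        h ξ a, sub_self, Pi.zero_apply]
  have : ‖c‖ ≤ 0 := ge_of_tendsto (f := fun x : ℝ => M * x) (x := 𝓝[>] 0)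
    (((continuous_const_mul M).tendsto' 0 0 (mul_zero M)).mono_left nhdsWithin_le_nhds)
    (mem_of_superset (Ioo_mem_nhdsGT zero_lt_one) fun x hx => by
      have a := Sec_real h0 hx.1 hx.2.le
      have := hM x a
      rwa [show f x - g x = c from hc x a, Complex.norm_real, Real.norm_of_nonneg hx.1.le] at this)
  exact fun ξ a => sub_eq_zero.1 ((hc ξ a).trans (norm_le_zero_iff.1 this))

/-! ### Square roots -/

theorem isq_sq {z : ℂ} (h : z ≠ 0) : isq z ^ 2 * z = 1 := by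
  rw [isq, ← Complex.cpow_nat_mul, show ((2 : ℕ) : ℂ) * -(1 / 2) = -1 by norm_num,
    Complex.cpow_neg_one, inv_mul_cancel₀ h]
theorem csq_sq (z : ℂ) : csq z ^ 2 = z := by
  rw [csq, ← Complex.cpow_nat_mul, show ((2 : ℕ) : ℂ) * (1 / 2) = 1 by norm_num, Complex.cpow_one]
theorem norm_isq (z : ℂ) : ‖isq z‖ = 1 / Real.sqrt ‖z‖ := by
  rw [isq, show -(1 / 2 : ℂ) = ((-(1 / 2) : ℝ) : ℂ) by norm_num, Complex.norm_cpow_real,
    Real.rpow_neg (norm_nonneg _), Real.sqrt_eq_rpow, one_div (_ ^ _)]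
theorem isq_real {x : ℝ} (h : 0 ≤ x) : isq x = ((1 / Real.sqrt x : ℝ) : ℂ) := by
  rw [isq, show -(1 / 2 : ℂ) = ((-(1 / 2) : ℝ) : ℂ) by norm_num, ← Complex.ofReal_cpow h,
    Real.rpow_neg h, Real.sqrt_eq_rpow, one_div (_ ^ _)]
theorem csq_real {x : ℝ} (h : 0 ≤ x) : csq x = (Real.sqrt x : ℂ) := by
  rw [csq, show (1 / 2 : ℂ) = ((1 / 2 : ℝ) : ℂ) by norm_num, ← Complex.ofReal_cpow h,
    Real.sqrt_eq_rpow]
theorem isq_hasDerivAt {z : ℂ} (h : z ∈ Complex.slitPlane) :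
    HasDerivAt isq (-(1 / 2) * isq z ^ 3) z :=
  (Complex.hasStrictDerivAt_cpow_const h).hasDerivAt.congr_deriv (by
    rw [isq, ← Complex.cpow_nat_mul]; norm_num)
theorem csq_hasDerivAt {z : ℂ} (h : z ∈ Complex.slitPlane) :
    HasDerivAt csq (1 / 2 * isq z) z :=
  (Complex.hasStrictDerivAt_cpow_const h).hasDerivAt.congr_deriv (by rw [isq]; norm_num)
theorem csq_near_TA (z : ℂ) : ‖csq z - 1‖ ≤ ‖z - 1‖ := by
  have a : 0 ≤ (csq z).re := by
    rw [csq, one_div, Complex.cpow_inv_two_re]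
    exact Real.sqrt_nonneg _
  have b := Complex.re_le_norm (csq z + 1)
  rw [Complex.add_re, Complex.one_re] at b
  rw [show z - 1 = (csq z - 1) * (csq z + 1) by linear_combination -csq_sq z, norm_mul]
  exact le_mul_of_one_le_right (norm_nonneg _) (by linarith)
theorem isq_near {z : ℂ} (h : ‖z - 1‖ ≤ 1 / 2) :
    ‖isq z - 1‖ ≤ 2 * ‖z - 1‖ ∧ ‖isq z - 1 + (z - 1) / 2‖ ≤ 3 * ‖z - 1‖ ^ 2 := by
  have a := csq_near_TA z
  have e : isq z = (csq z)⁻¹ := Complex.cpow_neg _ _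
  have q := csq_sq z
  rw [e]
  generalize csq z = s at a q
  subst q
  have b1 := norm_le_norm_add_norm_sub' (1 : ℂ) s
  have b2 := norm_le_norm_add_norm_sub' (2 : ℂ) (s + 1)
  have b3 := norm_le_norm_add_norm_sub' (s + 2) 3
  rw [norm_one, norm_sub_rev] at b1
  rw [show 2 - (s + 1) = -(s - 1) by ring, norm_neg, Complex.norm_ofNat] at b2
  rw [show s + 2 - 3 = s - 1 by ring, Complex.norm_ofNat] at b3
  have b4 : ‖s ^ 2 - 1‖ = ‖s - 1‖ * ‖s + 1‖ := by rw [← norm_mul]; congr 1; ring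
  have u0 := norm_nonneg (s - 1)
  have b5 : 3 / 2 * ‖s - 1‖ ≤ ‖s ^ 2 - 1‖ := by nlinarith
  have s0 : 0 < ‖s‖ := by linarith
  have s1 := norm_pos_iff.1 s0
  constructor
  · rw [show s⁻¹ - 1 = -(s - 1) / s by field_simp; ring, norm_div, norm_neg, div_le_iff₀ s0]
    nlinarith
  · rw [show s⁻¹ - 1 + (s ^ 2 - 1) / 2 = (s - 1) ^ 2 * (s + 2) / (2 * s) by field_simp; ring,
      norm_div, norm_mul, norm_mul, norm_pow, Complex.norm_ofNat, div_le_iff₀ (by positivity)]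
    have c1 : ‖s - 1‖ ^ 2 ≤ ‖s ^ 2 - 1‖ ^ 2 := pow_le_pow_left₀ u0 a 2
    have c2 := mul_le_mul c1 (show ‖s + 2‖ ≤ 4 by linarith) (norm_nonneg _) (by positivity)
    have c3 := mul_le_mul_of_nonneg_left (show 2 / 3 ≤ ‖s‖ by linarith) (sq_nonneg ‖s ^ 2 - 1‖)
    linarith
/-- the principal root of a number near `T ^ 2`, `T` near `1` -/
theorem csq_near {T z : ℂ} (hT : ‖T - 1‖ ≤ 1 / 10) (h : ‖z - T ^ 2‖ ≤ 1 / 10) :
    z ∈ Complex.slitPlane ∧ ‖csq z - T‖ ≤ ‖z - T ^ 2‖ := by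
  have a := csq_near_TA z
  have b1 : ‖T + 1‖ ≤ 21 / 10 := by
    have := norm_le_norm_add_norm_sub' (T + 1) 2
    rw [show T + 1 - 2 = T - 1 by ring, Complex.norm_ofNat] at this
    linarith
  have b2 : ‖z - 1‖ ≤ 1 / 2 := by
    have := norm_add_le (z - T ^ 2) ((T - 1) * (T + 1))
    rw [show z - T ^ 2 + (T - 1) * (T + 1) = z - 1 by ring, norm_mul] at this
    nlinarith [norm_nonneg (T - 1)]
  refine ⟨by simpa using Complex.mem_slitPlane_of_norm_lt_one (z := z - 1) (by linarith), ?_⟩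
  have b3 : 1 ≤ ‖csq z + T‖ := by
    have := norm_add₃_le (a := csq z + T) (b := -(csq z - 1)) (c := -(T - 1))
    rw [show csq z + T + -(csq z - 1) + -(T - 1) = 2 by ring, norm_neg, norm_neg,
      Complex.norm_ofNat] at this
    linarith
  rw [show z - T ^ 2 = (csq z - T) * (csq z + T) by linear_combination -csq_sq z, norm_mul]
  exact le_mul_of_one_le_right (norm_nonneg _) b3
theorem slit_of_near {z : ℂ} (h : ‖z - 1‖ < 1) : z ∈ Complex.slitPlane := by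
  simpa using Complex.mem_slitPlane_of_norm_lt_one h
theorem isq_mul_real {c : ℝ} {z : ℂ} (hc : 0 < c) :
    isq (c * z) = ((1 / Real.sqrt c : ℝ) : ℂ) * isq z := by
  rw [← isq_real hc.le]
  rcases eq_or_ne z 0 with rfl | hz
  · simp [isq]
  have c0 : (c : ℂ) ≠ 0 := Complex.ofReal_ne_zero.2 hc.ne'
  rw [isq, isq, isq, Complex.cpow_def_of_ne_zero (mul_ne_zero c0 hz), Complex.cpow_def_of_ne_zero c0,
    Complex.cpow_def_of_ne_zero hz, Complex.log_ofReal_mul hc hz, add_mul, Complex.exp_add,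
    Complex.ofReal_log hc.le]

end Bon3
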